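import Mathlib.Algebra.Field.ZMod
import Mathlib.Algebra.Order.Ring.Star
import Mathlib.FieldTheory.RatFunc.AsPolynomial
import Mathlib.Analysis.CStarAlgebra.Classes
import Mathlib.RingTheory.MvPolynomial.IrreducibleQuadratic
import Mathlib.Tactic.Polynomial.Basic
import Pool.Agent.MP_d45d16_ag.Cob
import Pool.Agent.MP_fd6584_ag.h70.Pj.Maps

-- ======== part 0: formerly Pool.Agent.MP_d45d16_ag.Var
section MrgPart0

/-!
The group `G₂ × G₂ ⊂ GL₁₄` over `ℂ`, the function field of `GL₁₄ / (G₂ × G₂)` and the twisted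
flag variety `E / P`, a product of two five-dimensional quadrics.
-/

set_option autoImplicit false

open AlgebraicGeometry CategoryTheory Limits MvPolynomial Matrix

namespace Pool.Agent.MP_d45d16_ag

/-- The cross product of imaginary octonions: `e k × e (k + 1) = e (k + 3)`, indices mod `7`. -/
def cross {R : Type} [CommRing R] (x y : Fin 7 → R) : Fin 7 → R := fun k =>
  x (k + 1) * y (k + 3) - x (k + 3) * y (k + 1) + (x (k + 2) * y (k + 6) - x (k + 6) * y (k + 2)) +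
    (x (k + 4) * y (k + 5) - x (k + 5) * y (k + 4))

/-- `G₂(ℂ)`, the automorphisms of the complex octonions acting on the imaginary part. -/
def G2 : Set (Matrix (Fin 7) (Fin 7) ℂ) :=
  {h | hᵀ * h = 1 ∧ ∀ x y, h *ᵥ cross x y = cross (h *ᵥ x) (h *ᵥ y)}

/-- The index set of `GL₁₄`. -/
abbrev I14 : Type := Fin 7 ⊕ Fin 7

/-- The function field of `GL₁₄`. -/
abbrev L0 : Type := FractionRing (MvPolynomial (I14 × I14) ℂ)

/-- The generic matrix. -/
noncomputable def gen : Matrix I14 I14 L0 :=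
  Matrix.of fun i j => algebraMap (MvPolynomial (I14 × I14) ℂ) L0 (X (i, j))

/-- The automorphisms of the function field given by right translations by `G₂ × G₂`. -/
def transl : Set (L0 ≃ₐ[ℂ] L0) :=
  {σ | ∃ h₁ ∈ G2, ∃ h₂ ∈ G2, gen.map σ = gen * (fromBlocks h₁ 0 0 h₂).map (algebraMap ℂ L0)}

/-- The function field of `GL₁₄ / (G₂ × G₂)`. -/
noncomputable def FF : IntermediateField ℂ L0 :=
  IntermediateField.fixedField (Subgroup.closure transl)

/-- The forms over `FF` which vanish on the translate by the generic matrix of the quadric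
`∑ v k ^ 2 = 0` in the summand of `ℂ⁷ ⊕ ℂ⁷` given by `e`. -/
def forms (e : Fin 7 → I14) : Set (MvPolynomial I14 FF) :=
  {f | (∃ n, f.IsHomogeneous (n + 1)) ∧ (∑ k : Fin 7, X k ^ 2 : MvPolynomial (Fin 7) L0) ∣
    aeval (fun i => ∑ k : Fin 7, C (gen i (e k)) * X k) f}

attribute [local instance] MvPolynomial.gradedAlgebra in
/-- The common zeros of a set of polynomials in projective space. -/
def zeros {R σ : Type} [CommRing R] (A : Set (MvPolynomial σ R)) :
    TopologicalSpace.Closeds (PP R σ) :=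
  ⟨ProjectiveSpectrum.zeroLocus (homogeneousSubmodule σ R) A,
    ProjectiveSpectrum.isClosed_zeroLocus _ A⟩

/-- The twisted quadric: the reduced closed subscheme of `ℙ¹³` cut out by `forms e`, with its
structure morphism. -/
noncomputable def quad (e : Fin 7 → I14) :
    (Scheme.IdealSheafData.vanishingIdeal (zeros (forms e))).subscheme ⟶
      Spec (CommRingCat.of FF) :=
  (Scheme.IdealSheafData.vanishingIdeal (zeros (forms e))).subschemeι ≫ PP.s FF I14

/-- The structure morphism of `E / P`, the product of the two twisted quadrics. -/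
noncomputable def flag : pullback (quad Sum.inl) (quad Sum.inr) ⟶ Spec (CommRingCat.of FF) :=
  pullback.fst (quad Sum.inl) (quad Sum.inr) ≫ quad Sum.inl

end Pool.Agent.MP_d45d16_ag

end MrgPart0

-- ======== part 1: formerly Pool.Agent.MP_d45d16_ag.yag.Defs
section MrgPart1

/-!
Definitions used in the proof (not in the statement).
-/

set_option autoImplicit false

open AlgebraicGeometry CategoryTheory Limits MvPolynomial Filter

namespace Pool.Agent.MP_d45d16_ag.Yag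

/-- Length of the localisation at a prime. -/
noncomputable def lenAt {R : Type} [CommRing R] (p : PrimeSpectrum R) (M : Type)
    [AddCommGroup M] [Module R M] : ℕ∞ :=
  Module.length (Localization.AtPrime p.asIdeal) (LocalizedModule p.asIdeal.primeCompl M)

/-- Degree of a field over the subfield generated by the image of a ring map. -/
noncomputable def fdeg {R E : Type} [CommRing R] [Field E] (φ : R →+* E) : ℕ :=
  Module.finrank (Subfield.closure (Set.range φ)) E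

/-- Transcendence degree along a ring map. -/
noncomputable def td {F E : Type} [Field F] [Field E] (c : F →+* E) : Cardinal.{0} :=
  @Algebra.trdeg F E _ _ c.toAlgebra

section Grading

variable {σ : Type}

/-- Every variable has bidegree `(1, 0)` or `(0, 1)`. -/
def IsW (w : σ → ℕ × ℕ) : Prop := ∀ v, w v = (1, 0) ∨ w v = (0, 1)

/-- Bihomogeneous ideals. -/
def IsHom {R : Type} [CommRing R] (w : σ → ℕ × ℕ) (J : Ideal (MvPolynomial σ R)) : Prop :=
  ∀ f ∈ J, ∀ m, weightedHomogeneousComponent w m f ∈ J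

/-- The Hilbert function of the quotient by `J`. -/
noncomputable def hf {K : Type} [Field K] (w : σ → ℕ × ℕ) (J : Ideal (MvPolynomial σ K))
    (m : ℕ × ℕ) : ℕ :=
  Module.finrank K
    ((weightedHomogeneousSubmodule K w m).map (Ideal.Quotient.mkₐ K J).toLinearMap)

/-- Linear growth of the Hilbert function (dimension at most one). -/
def Lin {K : Type} [Field K] (w : σ → ℕ × ℕ) (J : Ideal (MvPolynomial σ K)) : Prop :=
  ∃ C : ℕ, ∀ d n, hf w J (d, n) ≤ C * (d + n + 1)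

/-- The Hilbert function is unbounded in the `y`-direction. -/
def Unb {K : Type} [Field K] (w : σ → ℕ × ℕ) (J : Ideal (MvPolynomial σ K)) : Prop :=
  ∀ C : ℕ, ∃ n, C < hf w J (0, n)

/-- The bidegree on `x` (left) and `y` (right) variables. -/
def bw (ι : Type) : ι ⊕ ι → ℕ × ℕ := Sum.elim (fun _ => (1, 0)) fun _ => (0, 1)

/-- The degree on the `y` variables. -/
def yw (ι : Type) : ι → ℕ × ℕ := fun _ => (0, 1)

/-- The `x`-degree. -/
def xw (ι : Type) : ι ⊕ ι → ℕ := Sum.elim (fun _ => 1) fun _ => 0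

end Grading

/-- The ring in the `y` variables. -/
abbrev By (ι R : Type) [CommRing R] : Type := MvPolynomial ι R

/-- The ring in the `x` and `y` variables. -/
abbrev Pxy (ι R : Type) [CommRing R] : Type := MvPolynomial (ι ⊕ ι) R

noncomputable scoped instance algBP (ι R : Type) [CommRing R] : Algebra (By ι R) (Pxy ι R) :=
  (rename (Sum.inr : ι → ι ⊕ ι) : By ι R →ₐ[R] Pxy ι R).toRingHom.toAlgebra

theorem algBP_apply {ι R : Type} [CommRing R] (b : By ι R) :
    algebraMap (By ι R) (Pxy ι R) b = rename Sum.inr b := rfl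

section Cyc

variable {ι : Type}

/-- The polynomials of `x`-degree `d`. -/
noncomputable def Nd (ι R : Type) [CommRing R] (d : ℕ) : Submodule (By ι R) (Pxy ι R) where
  carrier := {f | IsWeightedHomogeneous (xw ι) f d}
  add_mem' := fun hf hg => hf.add hg
  zero_mem' := isWeightedHomogeneous_zero _ _ _
  smul_mem' := fun b f hf => by
    have h : IsWeightedHomogeneous (xw ι) (rename Sum.inr b : Pxy ι R) 0 := by
      induction b using MvPolynomial.induction_on with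
      | C a => rw [rename_C]; exact isWeightedHomogeneous_C _ _
      | add p q hp hq => rw [map_add]; exact hp.add hq
      | mul_X p j hp =>
        rw [map_mul, rename_X]
        exact hp.mul (isWeightedHomogeneous_X R (xw ι) (Sum.inr j))
    simpa [Algebra.smul_def, algBP_apply] using h.mul hf

/-- The part of `x`-degree `d` of the quotient by `J`, a finite module over the `y`-ring. -/
noncomputable def Md {R : Type} [CommRing R] (J : Ideal (Pxy ι R)) (d : ℕ) :
    Submodule (By ι R) (Pxy ι R ⧸ J) :=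
  (Nd ι R d).map (Ideal.Quotient.mkₐ (By ι R) J).toLinearMap

variable {K : Type} [Field K]

/-- Primes of the `y`-ring which are projective curves (when of linear growth). -/
def Crv (s : PrimeSpectrum (By ι K)) : Prop := IsHom (yw ι) s.asIdeal ∧ Unb (yw ι) s.asIdeal

/-- `m` is the push-forward to the `y`-space of the one-cycle of `J`. -/
def IsCyc (J : Ideal (Pxy ι K)) (m : PrimeSpectrum (By ι K) →₀ ℕ) : Prop :=
  (∀ s ∈ m.support, Crv s) ∧ ∀ s, Crv s → ∀ᶠ d in atTop, lenAt s (Md J d) = m s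

/-- `m` is the one-cycle of `I`. -/
def IsCycB (I : Ideal (By ι K)) (m : PrimeSpectrum (By ι K) →₀ ℕ) : Prop :=
  (∀ s ∈ m.support, Crv s) ∧ ∀ s, Crv s → lenAt s (By ι K ⧸ I) = m s

open Classical in
/-- The push-forward cycle. -/
noncomputable def cyc (J : Ideal (Pxy ι K)) : PrimeSpectrum (By ι K) →₀ ℕ :=
  if h : ∃ m, IsCyc J m then h.choose else 0

open Classical in
/-- The cycle of an ideal of the `y`-ring. -/
noncomputable def cycB (I : Ideal (By ι K)) : PrimeSpectrum (By ι K) →₀ ℕ :=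
  if h : ∃ m, IsCycB I m then h.choose else 0

open Classical in
/-- The eventual parity of the Hilbert function. -/
noncomputable def par (I : Ideal (By ι K)) : ZMod 2 :=
  if ∀ᶠ n in atTop, Odd (hf (yw ι) I (0, n)) then 1 else 0

/-- The invariant at the bottom level: halve the cycle and take the parity. -/
noncomputable def Phi0 (J : Ideal (Pxy ι K)) : ZMod 2 :=
  (cyc J).sum fun s n => ((n / 2 : ℕ) : ZMod 2) * par s.asIdeal

end Cyc

/-- A place of `E` with residue field `K`. -/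
structure Place (E K : Type) [Field E] [Field K] where
  /-- the valuation ring -/
  V : ValuationSubring E
  /-- the residue map -/
  r : V →+* K
  surj : Function.Surjective r

namespace Place

variable {E K : Type} [Field E] [Field K] (p : Place E K)

/-- `z` is finite at the place with value `c`. -/
def Val (z : E) (c : K) : Prop := ∃ h : z ∈ p.V, p.r ⟨z, h⟩ = c

/-- The place is the identity on `k`. -/
def Over (k : Type) [Field k] [Algebra k E] [Algebra k K] : Prop :=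
  ∀ c : k, p.Val (algebraMap k E c) (algebraMap k K c)

/-- The place is equivariant. -/
def Eqv (A : Type) [SMul A E] [SMul A K] : Prop :=
  ∀ (a : A) z c, p.Val z c → p.Val (a • z) (a • c)

/-- The specialisation (flat limit) of an ideal. -/
noncomputable def init {σ : Type} (J : Ideal (MvPolynomial σ E)) : Ideal (MvPolynomial σ K) :=
  (J.comap (MvPolynomial.map p.V.subtype)).map (MvPolynomial.map p.r)

end Place

/-- `E = K(y)` with `y` transcendental. -/
def Simple (K : Type) {E : Type} [Field K] [Field E] [Algebra K E] (y : E) : Prop :=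
  Transcendental K y ∧ IntermediateField.adjoin K {y} = ⊤

/-- The fixed data at the bottom level. -/
structure Setup (A ι κ : Type) [Group A] [Field κ] where
  /-- characters of the `x`-variables -/
  χ : ι → A →* ℤˣ
  /-- the `x`-variables of the quadric -/
  T : Finset ι
  inj : ∀ i ∈ T, ∀ j ∈ T, χ i = χ j → i = j
  /-- a square root of `-1` -/
  im : κ
  im_sq : im ^ 2 = -1
  two : (2 : κ) ≠ 0
  /-- the equations in the `y`-variables -/
  eqs : Set (By ι κ)
  even : ∀ (E : Type) [Field E] [Algebra κ E] [FiniteDimensional κ E] (y : ι → E), y ≠ 0 →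
    (∀ e ∈ eqs, aeval y e = 0) → Even (Module.finrank κ E)

section Level

variable {A ι κ : Type} [Group A] [Field κ] (S : Setup A ι κ)

/-- The semilinear action on the `y`-ring. -/
noncomputable def actB (ι : Type) {A K : Type} [Group A] [Field K] [MulSemiringAction A K]
    (a : A) : By ι K →+* By ι K :=
  MvPolynomial.map (MulSemiringAction.toRingHom A K a)

/-- The semilinear action on the big ring. -/
noncomputable def Setup.act {K : Type} [Field K] [MulSemiringAction A K] (a : A) :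
    Pxy ι K →+* Pxy ι K :=
  eval₂Hom (C.comp (MulSemiringAction.toRingHom A K a))
    (Sum.elim (fun i => ((S.χ i a : ℤˣ) : ℤ) • X (Sum.inl i)) fun j => X (Sum.inr j))

/-- Admissible ideals. -/
structure Setup.Adm {K : Type} [Field K] [Algebra κ K] [MulSemiringAction A K]
    (J : Ideal (Pxy ι K)) : Prop where
  hom : IsHom (bw ι) J
  lin : Lin (bw ι) J
  stab : ∀ (a : A), ∀ f ∈ J, S.act a f ∈ J
  quad : ∑ i ∈ S.T, X (Sum.inl i) ^ 2 ∈ J
  out : ∀ i ∉ S.T, X (Sum.inl i) ∈ J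
  eqs : ∀ e ∈ S.eqs, rename Sum.inr (MvPolynomial.map (algebraMap κ K) e) ∈ J

/-- The properties of the invariant at one level. -/
structure Setup.Good {K : Type} [Field K] [Algebra κ K] [MulSemiringAction A K]
    (Φ : Ideal (Pxy ι K) → ZMod 2) : Prop where
  add : ∀ J J₁ J₂, S.Adm J → S.Adm J₁ → S.Adm J₂ → cyc J = cyc J₁ + cyc J₂ → Φ J = Φ J₁ + Φ J₂
  eval : ∀ J, S.Adm J → hf (bw ι) J (1, 0) ≤ 2 → ∀ e : ℕ,
    (∀ᶠ d in atTop, ∀ᶠ n in atTop, hf (bw ι) J (d, n) ≡ 2 * e [MOD 4]) → Φ J = e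
  move : ∀ (E : Type) [Field E] [Algebra K E] [Algebra κ E] [IsScalarTower κ K E]
    [MulSemiringAction A E] (y : E) (η : A →* ℤˣ) (p p' : Place E K) (J : Ideal (Pxy ι E)),
    (∀ (a : A) (c : K), a • algebraMap K E c = algebraMap K E (a • c)) →
    (∀ a : A, a • y = ((η a : ℤˣ) : ℤ) • y) → Simple K y → p.Over K → p'.Over K →
    p.Val y 0 → p'.Val y⁻¹ 0 → S.Adm J → Φ (p.init J) = Φ (p'.init J)

end Level

section OverF

variable {F ι : Type} [Field F]

/-- Sets of forms of positive degree. -/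
def HomSet {R : Type} [CommRing R] (I : Set (MvPolynomial ι R)) : Prop :=
  ∀ f ∈ I, ∃ n, f.IsHomogeneous (n + 1)

/-- The vector `w` satisfies the equations `I`. -/
def Sat {C : Type} [CommRing C] (I : Set (MvPolynomial ι F)) (c : F →+* C) (w : ι → C) : Prop :=
  ∀ f ∈ I, eval₂ c w f = 0

/-- Admissible ideals over an extension of `F`. -/
structure AdmF (I₁ I₂ : Set (MvPolynomial ι F)) {E : Type} [Field E] [Algebra F E]
    (J : Ideal (Pxy ι E)) : Prop where
  hom : IsHom (bw ι) J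
  lin : Lin (bw ι) J
  eq₁ : ∀ f ∈ I₁, rename Sum.inl (MvPolynomial.map (algebraMap F E) f) ∈ J
  eq₂ : ∀ f ∈ I₂, rename Sum.inr (MvPolynomial.map (algebraMap F E) f) ∈ J

/-- The properties of the invariant over `F`. -/
structure GoodF (I₁ I₂ : Set (MvPolynomial ι F)) (Φ : Ideal (Pxy ι F) → ZMod 2) : Prop where
  add : ∀ J f m, AdmF I₁ I₂ J → IsWeightedHomogeneous (bw ι) f m →
    Φ J = Φ (J ⊔ Ideal.span {f}) + Φ (J.colon {f})
  zero : ∀ J, AdmF I₁ I₂ J → ¬ Unb (bw ι) J → Φ J = 0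
  eval : ∀ J, AdmF I₁ I₂ J → hf (bw ι) J (1, 0) ≤ 2 → ∀ e : ℕ,
    (∀ᶠ d in atTop, ∀ᶠ n in atTop, hf (bw ι) J (d, n) ≡ 2 * e [MOD 4]) → Φ J = e
  move : ∀ (E : Type) [Field E] [Algebra F E] (y : E) (p p' : Place E F) (J : Ideal (Pxy ι E)),
    Simple F y → p.Over F → p'.Over F → p.Val y 0 → p'.Val y⁻¹ 0 → AdmF I₁ I₂ J →
    Φ (p.init J) = Φ (p'.init J)

/-- The substitution `x ↦ g₁ x`, `y ↦ g₂ y` over `ρ`. -/
noncomputable def theta [Fintype ι] {K : Type} [Field K] (ρ : F →+* K) (g₁ g₂ : Matrix ι ι K) :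
    Pxy ι F →+* Pxy ι K :=
  eval₂Hom (C.comp ρ) (Sum.elim (fun i => ∑ j, C (g₁ i j) * X (Sum.inl j))
    fun i => ∑ j, C (g₂ i j) * X (Sum.inr j))

/-- The dehomogenisation ideal. -/
noncomputable def deh (F : Type) [Field F] (i j : ι) : Ideal (Pxy ι F) :=
  Ideal.span {X (Sum.inl i) - 1, X (Sum.inr j) - 1}

/-- Bihomogeneous relevant primes not contracted in the `y`-space. -/
def CrvP (q : PrimeSpectrum (Pxy ι F)) : Prop :=
  IsHom (bw ι) q.asIdeal ∧ (∃ i, X (Sum.inl i) ∉ q.asIdeal) ∧ Unb (bw ι) q.asIdeal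

variable {E : Type} [Field E]

/-- The bihomogeneous prime of a field-valued point. -/
noncomputable def prm (c : F →+* E) (a b : ι → E) : Ideal (Pxy ι F) :=
  RingHom.ker (eval₂Hom (C.comp c)
    (Sum.elim (fun i => C (a i) * X 0) fun j => C (b j) * X 1) :
      Pxy ι F →+* MvPolynomial (Fin 2) E)

/-- The residue field of the image point. -/
def ratF (c : F →+* E) (a b : ι → E) : Subfield E :=
  Subfield.closure (Set.range c ∪ {z | ∃ i k, z = a i / a k} ∪ {z | ∃ j l, z = b j / b l})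

/-- The value of the invariant on a field-valued point. -/
noncomputable def valR (Φ : Ideal (Pxy ι F) → ZMod 2) (c : F →+* E) (a b : ι → E) : ZMod 2 :=
  (Module.finrank (ratF c a b) E : ZMod 2) * Φ (prm c a b)

variable {Y : Scheme.{0}}

/-- `(a, b)` are homogeneous coordinates of the point `ξ`. -/
def Coord (u v : Y ⟶ PP F ι) {C : Type} [CommRing C] (ξ : Spec (CommRingCat.of C) ⟶ Y)
    (c : F →+* C) (a b : ι → C) : Prop :=
  ∃ ha hb, ξ ≫ u = pt c a ha ∧ ξ ≫ v = pt c b hb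

open Classical in
/-- The value of the invariant at a point. -/
noncomputable def valAt (Φ : Ideal (Pxy ι F) → ZMod 2) (u v : Y ⟶ PP F ι) (y : Y) : ZMod 2 :=
  if h : ∃ t : (F →+* Y.residueField y) × (ι → Y.residueField y) × (ι → Y.residueField y),
    Coord u v (Y.fromSpecResidueField y) t.1 t.2.1 t.2.2
  then valR Φ h.choose.1 h.choose.2.1 h.choose.2.2 else 0

/-- The point maps to a curve not contracted in the `y`-space. -/
def UnbAt (u v : Y ⟶ PP F ι) (y : Y) : Prop :=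
  ∃ (c : F →+* Y.residueField y) (a b : ι → Y.residueField y),
    Coord u v (Y.fromSpecResidueField y) c a b ∧ Unb (bw ι) (prm c a b)

/-- The invariant of a curve. -/
noncomputable def phi (Φ : Ideal (Pxy ι F) → ZMod 2) (u v : Y ⟶ PP F ι) : ZMod 2 :=
  ∑ᶠ y : Y, valAt Φ u v y

/-- Two maps to projective space over `F` landing in the zero loci. -/
structure Geo (I₁ I₂ : Set (MvPolynomial ι F)) (s : Y ⟶ Spec (CommRingCat.of F))
    (u v : Y ⟶ PP F ι) : Prop where
  us : u ≫ PP.s F ι = s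
  vs : v ≫ PP.s F ι = s
  mem₁ : ∀ y, u y ∈ zeros I₁
  mem₂ : ∀ y, v y ∈ zeros I₂

end OverF

/-- The ideal of an ideal sheaf along a map from an affine scheme. -/
noncomputable def idl {B : CommRingCat.{0}} {S : Scheme.{0}} (ch : Spec B ⟶ S)
    (I : S.IdealSheafData) : Ideal B :=
  ((I.comap ch).ideal ⟨⊤, isAffineOpen_top _⟩).comap (Scheme.ΓSpecIso B).inv.hom

/-- The ideal sheaf generates the maximal ideal at `x`. -/
def LocGen {S : Scheme.{0}} (I : S.IdealSheafData) (x : S) : Prop :=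
  ∀ (B : CommRingCat.{0}) (ch : Spec B ⟶ S) (q : PrimeSpectrum B), IsOpenImmersion ch →
    ch q = x → ∀ z ∈ q.asIdeal, ∃ u ∉ q.asIdeal, u * z ∈ idl ch I

/-- A generic point of an irreducible component. -/
def IsGenPt {S : Scheme.{0}} (x : S) : Prop := ∀ x', x' ⤳ x → x' = x

/-- The degree of a point over its image in an affine scheme. -/
noncomputable def dg {R : Type} [CommRing R] {Z : Scheme.{0}} (h : Z ⟶ Spec (CommRingCat.of R))
    (x : Z) : ℕ :=
  fdeg (R := R) (E := Z.residueField x) (Spec.preimage (Z.fromSpecResidueField x ≫ h)).hom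

/-- The image of a point in an affine scheme, as a prime. -/
noncomputable def im {R : Type} [CommRing R] {Z : Scheme.{0}} (h : Z ⟶ Spec (CommRingCat.of R)) (x : Z) :
    PrimeSpectrum R := h x

/-- An identification of `T` with the function field. -/
def IsGen {T : Type} [Field T] {Y : Scheme.{0}} (j : Spec (CommRingCat.of T) ⟶ Y) : Prop :=
  IsDominant j ∧ IsPreimmersion j

/-- The integral curve `C` has generic point `γ`. -/
def Rep {X S : Scheme.{0}} {s : X ⟶ S} (C : Curve s) {T : Type} [Field T]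
    (γ : Spec (CommRingCat.of T) ⟶ X) : Prop :=
  IsIntegral C.Y ∧ ∃ j : Spec (CommRingCat.of T) ⟶ C.Y, IsGen j ∧ j ≫ C.f = γ

/-- The cobordism class of a curve. -/
def cls {X S : Scheme.{0}} {s : X ⟶ S} (C : Curve s) : Omega1 s :=
  QuotientAddGroup.mk (FreeAbelianGroup.of C)

/-- The ambient variety: a proper `k`-scheme inside `ℙ × ℙ`. -/
structure Amb (F k ι : Type) [Field F] [Field k] [Algebra F k] where
  /-- the scheme -/
  X : Scheme.{0}
  /-- the structure map -/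
  s : X ⟶ Spec (CommRingCat.of k)
  /-- first projection -/
  u : X ⟶ PP F ι
  /-- second projection -/
  v : X ⟶ PP F ι
  /-- equations of the first factor -/
  I₁ : Set (MvPolynomial ι F)
  /-- equations of the second factor -/
  I₂ : Set (MvPolynomial ι F)
  hom₁ : HomSet I₁
  hom₂ : HomSet I₂
  proper : IsProper s
  geo : Geo I₁ I₂ (s ≫ Spec.map (CommRingCat.ofHom (algebraMap F k))) u v
  ext : ∀ (Y : Scheme.{0}) (g g' : Y ⟶ X), g ≫ s = g' ≫ s → g ≫ u = g' ≫ u → g ≫ v = g' ≫ v →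
    g = g'
  lift : ∀ (Y : Scheme.{0}) (t : Y ⟶ Spec (CommRingCat.of k)) (a b : Y ⟶ PP F ι), IsReduced Y →
    Geo I₁ I₂ (t ≫ Spec.map (CommRingCat.ofHom (algebraMap F k))) a b →
    ∃ g : Y ⟶ X, g ≫ s = t ∧ g ≫ u = a ∧ g ≫ v = b

/-- The properties of an ambient variety. -/
structure IsAmb {F k ι : Type} [Field F] [Field k] [Algebra F k] {X : Scheme.{0}}
    (s : X ⟶ Spec (CommRingCat.of k)) (u v : X ⟶ PP F ι) (I₁ I₂ : Set (MvPolynomial ι F)) :
    Prop where
  hom₁ : HomSet I₁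
  hom₂ : HomSet I₂
  proper : IsProper s
  geo : Geo I₁ I₂ (s ≫ Spec.map (CommRingCat.ofHom (algebraMap F k))) u v
  ext : ∀ (Y : Scheme.{0}) (g g' : Y ⟶ X), g ≫ s = g' ≫ s → g ≫ u = g' ≫ u → g ≫ v = g' ≫ v →
    g = g'
  lift : ∀ (Y : Scheme.{0}) (t : Y ⟶ Spec (CommRingCat.of k)) (a b : Y ⟶ PP F ι), IsReduced Y →
    Geo I₁ I₂ (t ≫ Spec.map (CommRingCat.ofHom (algebraMap F k))) a b →
    ∃ g : Y ⟶ X, g ≫ s = t ∧ g ≫ u = a ∧ g ≫ v = b

/-- Bundle the data. -/
def IsAmb.toAmb {F k ι : Type} [Field F] [Field k] [Algebra F k] {X : Scheme.{0}}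
    {s : X ⟶ Spec (CommRingCat.of k)} {u v : X ⟶ PP F ι} {I₁ I₂ : Set (MvPolynomial ι F)}
    (h : IsAmb s u v I₁ I₂) : Amb F k ι :=
  ⟨X, s, u, v, I₁, I₂, h.hom₁, h.hom₂, h.proper, h.geo, h.ext, h.lift⟩

namespace Amb

variable {F k ι : Type} [Field F] [Field k] [Algebra F k] (M : Amb F k ι)

/-- Exchange the two factors. -/
def swap : Amb F k ι where
  X := M.X
  s := M.s
  u := M.v
  v := M.u
  I₁ := M.I₂
  I₂ := M.I₁
  hom₁ := M.hom₂
  hom₂ := M.hom₁
  proper := M.proper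
  geo := ⟨M.geo.vs, M.geo.us, M.geo.mem₂, M.geo.mem₁⟩
  ext := fun Y g g' h1 h2 h3 => M.ext Y g g' h1 h3 h2
  lift := fun Y t a b hY h => by
    obtain ⟨g, h1, h2, h3⟩ := M.lift Y t b a hY ⟨h.vs, h.us, h.mem₂, h.mem₁⟩
    exact ⟨g, h1, h3, h2⟩

/-- `γ` is the point with coordinates `(a, b)` over `c`. -/
def At {C : Type} [CommRing C] (γ : Spec (CommRingCat.of C) ⟶ M.X) (c : k →+* C) (a b : ι → C) :
    Prop :=
  γ ≫ M.s = Spec.map (CommRingCat.ofHom c) ∧ Coord M.u M.v γ (c.comp (algebraMap F k)) a b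

/-- `x` is the class of the rational curve with parametrisation `(a, b)`. -/
def HasCls (a b : ι → RatFunc k) (x : Omega1 M.s) : Prop :=
  ∃ (C : Curve M.s) (γ : Spec (CommRingCat.of (RatFunc k)) ⟶ M.X),
    Rep C γ ∧ M.At γ (algebraMap k (RatFunc k)) a b ∧ x = cls C

/-- `N` is the base change of `M` along `F → k`. -/
structure IsBC (M : Amb F F ι) (N : Amb F k ι) (q : N.X ⟶ M.X) : Prop where
  pb : IsPullback q N.s M.s (Spec.map (CommRingCat.ofHom (algebraMap F k)))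
  hu : N.u = q ≫ M.u
  hv : N.v = q ≫ M.v
  h₁ : N.I₁ = M.I₁
  h₂ : N.I₂ = M.I₂

end Amb

/-- `C'` is the base change of `C`, a curve over `L`, along `σ : L → k`. -/
def CurveBC {X X' S : Scheme.{0}} {k L : Type} [Field k] [Field L] {s : X ⟶ S}
    {s' : X' ⟶ Spec (CommRingCat.of k)} (q : X' ⟶ X) (C : Curve s)
    (t : C.Y ⟶ Spec (CommRingCat.of L)) (σ : L →+* k) (C' : Curve s') : Prop :=
  ∃ p : C'.Y ⟶ C.Y, IsPullback p (C'.f ≫ s') t (Spec.map (CommRingCat.ofHom σ)) ∧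
    C'.f ≫ q = p ≫ C.f

/-- The function field of the toric surface. -/
abbrev K2 (k : Type) [Field k] : Type := FractionRing (MvPolynomial (Fin 2) k)

/-- The coordinates of the five charts of the plane blown up in two points. -/
noncomputable def co (k : Type) [Field k] : Fin 5 → Fin 2 → K2 k :=
  let a : K2 k := algebraMap (MvPolynomial (Fin 2) k) (K2 k) (X 0)
  let b : K2 k := algebraMap (MvPolynomial (Fin 2) k) (K2 k) (X 1)
  ![![a, b], ![b, a⁻¹], ![b / a, b⁻¹], ![a⁻¹, a / b], ![b⁻¹, a]]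

/-- An orthogonal frame adapted to the octonion structure. -/
structure Frame {F ι : Type} [Field F] (I : Set (MvPolynomial ι F)) where
  /-- the vectors -/
  f : Fin 7 → ι → F
  /-- the values of the form -/
  α : Fin 7 → F
  ne : ∀ k, α k ≠ 0
  two : α 2 = α 0 * α 1
  four : α 4 = α 0 * α 3
  indep : LinearIndependent F f
  sat : ∀ (C : Type) [CommRing C] (c : F →+* C) (w : Fin 7 → C), ∑ k, c (α k) * w k ^ 2 = 0 →
    Sat I c fun i => ∑ k, w k * c (f k i)

end Pool.Agent.MP_d45d16_ag.Yag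

end MrgPart1

-- ======== part 2: formerly Pool.Agent.MP_d45d16_ag.yag.Spec
section MrgPart2

/-!
Interfaces between the blocks of the proof.
-/

set_option autoImplicit false

open AlgebraicGeometry CategoryTheory Limits MvPolynomial Filter

namespace Pool.Agent.MP_d45d16_ag.Yag

/-- LEN: lengths at a prime. -/
structure LenAPI : Prop where
  exact : ∀ (R N M Q : Type) [CommRing R] [AddCommGroup N] [AddCommGroup M] [AddCommGroup Q]
    [Module R N] [Module R M] [Module R Q] (p : PrimeSpectrum R) (f : N →ₗ[R] M) (g : M →ₗ[R] Q),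
    Function.Injective f → Function.Surjective g → Function.Exact f g →
    lenAt p M = lenAt p N + lenAt p Q
  loc : ∀ (R R' N M : Type) [CommRing R] [CommRing R'] [AddCommGroup N] [AddCommGroup M]
    [Module R N] [Module R' M] (φ : R →+* R') (g : N →ₛₗ[φ] M) (s : PrimeSpectrum R')
    (q : PrimeSpectrum R), q.asIdeal = s.asIdeal.comap φ →
    (∀ x : R', ∃ u r : R, u ∉ q.asIdeal ∧ φ u * x = φ r) →
    (∀ m : M, ∃ (u : R) (n : N), u ∉ q.asIdeal ∧ φ u • m = g n) →
    (∀ n : N, g n = 0 → ∃ u : R, u ∉ q.asIdeal ∧ u • n = 0) → lenAt q N = lenAt s M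
  zero : ∀ (R M : Type) [CommRing R] [AddCommGroup M] [Module R M] (p : PrimeSpectrum R),
    lenAt p M = 0 ↔ ∀ m : M, ∃ u ∉ p.asIdeal, u • m = 0
  one : ∀ (R : Type) [CommRing R] (p : PrimeSpectrum R), lenAt p (R ⧸ p.asIdeal) = 1
  fin : ∀ (R M : Type) [CommRing R] [IsNoetherianRing R] [AddCommGroup M] [Module R M]
    [Module.Finite R M] (p : PrimeSpectrum R) (a : Ideal R), (∀ x ∈ a, ∀ z : M, x • z = 0) →
    (∀ q : PrimeSpectrum R, a ≤ q.asIdeal → q ≤ p → q = p) → lenAt p M ≠ ⊤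
  deg : ∀ (R T E : Type) [CommRing R] [CommRing T] [Field E] [Algebra R T] [Module.Finite R T]
    (ev : T →+* E) (q : PrimeSpectrum R), q.asIdeal = RingHom.ker (ev.comp (algebraMap R T)) →
    (∀ z : E, ∃ a b : T, ev b ≠ 0 ∧ z * ev b = ev a) →
    lenAt q (T ⧸ RingHom.ker ev) = fdeg (ev.comp (algebraMap R T))

/-- HERB: the Herbrand formula and its application to a finite algebra. -/
structure HerbAPI : Prop where
  herb : ∀ (R M Q : Type) [CommRing R] [IsNoetherianRing R] [AddCommGroup M] [Module R M]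
    [Module.Finite R M] [AddCommGroup Q] [Module R Q] (g : M →ₗ[R] Q) (m : PrimeSpectrum R) (t : R)
    (a : Ideal R) (T : Finset (PrimeSpectrum R)), Function.Surjective g →
    (∀ z, g z = 0 ↔ ∃ z', z = t • z') → t ∈ m.asIdeal → (∀ x ∈ a, ∀ z : M, x • z = 0) →
    (∀ q : PrimeSpectrum R, a ≤ q.asIdeal → t ∈ q.asIdeal → q ≤ m → q = m) →
    (∀ z : M, t • z = 0 → ∃ u ∉ m.asIdeal, u • z = 0) → (∀ q ∈ T, t ∉ q.asIdeal) →
    (∀ q : PrimeSpectrum R, q.asIdeal ∈ a.minimalPrimes → t ∉ q.asIdeal → q ≤ m → q ∈ T) →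
    lenAt m Q = ∑ q ∈ T, lenAt q M * lenAt m (R ⧸ (q.asIdeal ⊔ Ideal.span {t}))
  fibre : ∀ (R T : Type) [CommRing R] [IsNoetherianRing R] [CommRing T] [Algebra R T]
    [Module.Finite R T] (m : PrimeSpectrum R) (t : R) (H : Finset (PrimeSpectrum T)),
    t ∈ m.asIdeal → (∀ η, η ∈ H ↔ η.comap (algebraMap R T) = m) →
    (∀ η ∈ H, (∃ ξ, ξ < η) ∧
      ∀ z ∈ η.asIdeal, ∃ u ∉ η.asIdeal, u * z ∈ Ideal.span {algebraMap R T t}) →
    (∀ ξ : PrimeSpectrum T, ξ.comap (algebraMap R T) ≤ m → algebraMap R T t ∉ ξ.asIdeal →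
      IsMin ξ) ∧
    ∀ Ξ : Finset (PrimeSpectrum T), (∀ ξ ∈ Ξ, algebraMap R T t ∉ ξ.asIdeal) →
      (∀ ξ : PrimeSpectrum T, ξ.comap (algebraMap R T) ≤ m → algebraMap R T t ∉ ξ.asIdeal →
        ξ ∈ Ξ) →
      ∑ η ∈ H, lenAt m (T ⧸ η.asIdeal) =
        ∑ ξ ∈ Ξ, lenAt (ξ.comap (algebraMap R T)) (T ⧸ ξ.asIdeal) *
          lenAt m (R ⧸ ((ξ.comap (algebraMap R T)).asIdeal ⊔ Ideal.span {t}))

/-- HF: Hilbert functions of bihomogeneous ideals. -/
structure HfAPI : Prop where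
  sup : ∀ (σ R : Type) [CommRing R] (w : σ → ℕ × ℕ) (J : Ideal (MvPolynomial σ R)) f m,
    IsHom w J → IsWeightedHomogeneous w f m → IsHom w (J ⊔ Ideal.span {f})
  colon : ∀ (σ R : Type) [CommRing R] (w : σ → ℕ × ℕ) (J : Ideal (MvPolynomial σ R)) f m,
    IsHom w J → IsWeightedHomogeneous w f m → IsHom w (J.colon {f})
  span : ∀ (σ R : Type) [CommRing R] (w : σ → ℕ × ℕ) (A : Set (MvPolynomial σ R)),
    (∀ f ∈ A, ∃ m, IsWeightedHomogeneous w f m) → IsHom w (Ideal.span A)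
  add : ∀ (σ K : Type) [Finite σ] [Field K] (w : σ → ℕ × ℕ) (J : Ideal (MvPolynomial σ K)) f m k,
    IsW w → IsHom w J → IsWeightedHomogeneous w f m →
    hf w J (k + m) = hf w (J ⊔ Ideal.span {f}) (k + m) + hf w (J.colon {f}) k
  low : ∀ (σ K : Type) [Finite σ] [Field K] (w : σ → ℕ × ℕ) (J : Ideal (MvPolynomial σ K)) f m k,
    IsW w → IsHom w J → IsWeightedHomogeneous w f m → ¬ m ≤ k →
    hf w J k = hf w (J ⊔ Ideal.span {f}) k
  mono : ∀ (σ K : Type) [Finite σ] [Field K] (w : σ → ℕ × ℕ) (J J' : Ideal (MvPolynomial σ K)) k,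
    IsW w → J ≤ J' → hf w J' k ≤ hf w J k
  eq : ∀ (σ K : Type) [Finite σ] [Field K] (w : σ → ℕ × ℕ) (J J' : Ideal (MvPolynomial σ K)),
    IsW w → IsHom w J → IsHom w J' → J ≤ J' → (∀ k, hf w J k ≤ hf w J' k) → J = J'
  zero : ∀ (σ K : Type) [Finite σ] [Field K] (w : σ → ℕ × ℕ) (J : Ideal (MvPolynomial σ K)) k,
    IsW w → (hf w J k = 0 ↔ ∀ f, IsWeightedHomogeneous w f k → f ∈ J)
  ind : ∀ (σ K : Type) [Finite σ] [Field K] (w : σ → ℕ × ℕ) (J₀ : Ideal (MvPolynomial σ K))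
    (Q : Ideal (MvPolynomial σ K) → Prop), Q ⊤ →
    (∀ J, IsHom w J → J₀ ≤ J → J.IsPrime → Q J) →
    (∀ J f m, IsHom w J → J₀ ≤ J → IsWeightedHomogeneous w f m → Q (J ⊔ Ideal.span {f}) →
      Q (J.colon {f}) → Q J) → ∀ J, IsHom w J → J₀ ≤ J → Q J
  min : ∀ (σ K : Type) [Field K] (w : σ → ℕ × ℕ) (J q : Ideal (MvPolynomial σ K)),
    IsHom w J → q ∈ J.minimalPrimes → IsHom w q
  grow : ∀ (σ K : Type) [Finite σ] [Field K] (w : σ → ℕ × ℕ) (q : Ideal (MvPolynomial σ K)) n,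
    IsW w → IsHom w q → q.IsPrime → Unb w q → n + 1 ≤ hf w q (0, n)
  rigid : ∀ (σ K : Type) [Finite σ] [Field K] (w : σ → ℕ × ℕ) (q q' : Ideal (MvPolynomial σ K)),
    IsW w → IsHom w q → IsHom w q' → q.IsPrime → q'.IsPrime → q' ≤ q → Lin w q' → Unb w q →
    ((∃ v, w v = (1, 0) ∧ X v ∉ q) ∨ ∀ v, w v = (0, 1)) → q' = q
  contr : ∀ (ι K : Type) [Finite ι] [Field K] (J : Ideal (Pxy ι K)), IsHom (bw ι) J →
    IsHom (yw ι) (J.comap (algebraMap (By ι K) (Pxy ι K))) ∧
      ∀ n, hf (yw ι) (J.comap (algebraMap (By ι K) (Pxy ι K))) (0, n) = hf (bw ι) J (0, n)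
  ypos : ∀ (ι K : Type) [Finite ι] [Field K] (I : Ideal (By ι K)) d n,
    hf (yw ι) I (d + 1, n) = 0

/-- HF2: behaviour of Hilbert functions under specialisation, base change, and for points. -/
structure HfAPI2 : Prop where
  init : ∀ (σ E K : Type) [Finite σ] [Field E] [Field K] (w : σ → ℕ × ℕ) (p : Place E K)
    (J : Ideal (MvPolynomial σ E)), IsW w → IsHom w J →
    IsHom w (p.init J) ∧ ∀ k, hf w (p.init J) k = hf w J k
  theta : ∀ (ι F K : Type) [Fintype ι] [DecidableEq ι] [Field F] [Field K] (ρ : F →+* K)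
    (g₁ g₂ : Matrix ι ι K) (J : Ideal (Pxy ι F)), IsUnit g₁ → IsUnit g₂ → IsHom (bw ι) J →
    IsHom (bw ι) (J.map (theta ρ g₁ g₂)) ∧
      (∀ k, hf (bw ι) (J.map (theta ρ g₁ g₂)) k = hf (bw ι) J k) ∧
      ∀ f, (J.colon {f}).map (theta ρ g₁ g₂) = (J.map (theta ρ g₁ g₂)).colon {theta ρ g₁ g₂ f}
  theta_hom : ∀ (ι F K : Type) [Fintype ι] [Field F] [Field K] (ρ : F →+* K)
    (g₁ g₂ : Matrix ι ι K) (f : Pxy ι F) m, IsWeightedHomogeneous (bw ι) f m →
    IsWeightedHomogeneous (bw ι) (Yag.theta ρ g₁ g₂ f) m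

/-- PRM: the prime of a field-valued point. -/
structure PrmAPI : Prop where
  prm_hom : ∀ (ι F E : Type) [Field F] [Field E] (c : F →+* E) (a b : ι → E),
    IsHom (bw ι) (prm c a b) ∧ (prm c a b).IsPrime
  prm_mem : ∀ (ι F E : Type) [Field F] [Field E] (c : F →+* E) (a b : ι → E) (f : Pxy ι F) m,
    IsWeightedHomogeneous (bw ι) f m → (f ∈ prm c a b ↔ eval₂ c (Sum.elim a b) f = 0)
  prm_hf : ∀ (ι F E : Type) [Finite ι] [Field F] [Field E] [Algebra F E] (a b : ι → E) d n,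
    hf (bw ι) (prm (algebraMap F E) a b) (d, n) = Module.finrank F
      (Submodule.span F (Set.range a) ^ d * Submodule.span F (Set.range b) ^ n : Submodule F E)
  prm_lin : ∀ (ι F E : Type) [Finite ι] [Field F] [Field E] (c : F →+* E) (a b : ι → E),
    td c ≤ 1 → Lin (bw ι) (prm c a b)
  prm_bdd : ∀ (ι F E : Type) [Finite ι] [Field F] [Field E] [Algebra F E] (a b : ι → E),
    (∀ j, IsAlgebraic F (b j)) → ¬ Unb (bw ι) (prm (algebraMap F E) a b)
  prm_sat : ∀ (ι F K E : Type) [Finite ι] [Field F] [Field K] [Algebra F K] [Field E]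
    (I₁ I₂ : Set (MvPolynomial ι F)) (c : K →+* E) (a b : ι → E), HomSet I₁ → HomSet I₂ →
    Sat I₁ (c.comp (algebraMap F K)) a → Sat I₂ (c.comp (algebraMap F K)) b → td c ≤ 1 →
    AdmF I₁ I₂ (prm c a b)

/-- PLACE: places of simple transcendental extensions. -/
structure PlaceAPI : Prop where
  uniq : ∀ (E K : Type) [Field E] [Field K] (p : Place E K) z c c', p.Val z c → p.Val z c' → c = c'
  add : ∀ (E K : Type) [Field E] [Field K] (p : Place E K) z z' c c', p.Val z c → p.Val z' c' →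
    p.Val (z + z') (c + c') ∧ p.Val (z * z') (c * c') ∧ p.Val (-z) (-c)
  inv : ∀ (E K : Type) [Field E] [Field K] (p : Place E K) z c, p.Val z c → c ≠ 0 →
    p.Val z⁻¹ c⁻¹
  total : ∀ (E K : Type) [Field E] [Field K] (p : Place E K) z, (∃ c, p.Val z c) ∨ p.Val z⁻¹ 0
  mem : ∀ (σ E K : Type) [Field E] [Field K] (p : Place E K) (J : Ideal (MvPolynomial σ E)) f,
    f ∈ p.init J ↔ ∃ g ∈ J, ∀ d, p.Val (coeff d g) (coeff d f)
  ex : ∀ (E K : Type) [Field E] [Field K] [Algebra K E] (y : E), Simple K y →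
    ∃ p : Place E K, p.Over K ∧ p.Val y 0
  form : ∀ (E K : Type) [Field E] [Field K] [Algebra K E] (y : E) (p : Place E K), Simple K y →
    p.Over K → p.Val y 0 → ∀ z c, p.Val z c ↔ ∃ f g : Polynomial K, g.eval 0 ≠ 0 ∧
      z * Polynomial.aeval y g = Polynomial.aeval y f ∧ c * g.eval 0 = f.eval 0
  dvr : ∀ (E K : Type) [Field E] [Field K] [Algebra K E] (y : E) (p : Place E K), Simple K y →
    p.Over K → p.Val y 0 → IsNoetherianRing p.V ∧ ∃ t : p.V, t ≠ 0 ∧ ∀ v, p.r v = 0 ↔ t ∣ v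
  simple_inv : ∀ (E K : Type) [Field E] [Field K] [Algebra K E] (y : E), Simple K y →
    Simple K y⁻¹
  eqv : ∀ (A E K : Type) [Group A] [Field E] [Field K] [Algebra K E] [MulSemiringAction A E]
    [MulSemiringAction A K] (y : E) (η : A →* ℤˣ) (p : Place E K),
    (∀ (a : A) (c : K), a • algebraMap K E c = algebraMap K E (a • c)) →
    (∀ a : A, a • y = ((η a : ℤˣ) : ℤ) • y) → Simple K y → p.Over K → p.Val y 0 → p.Eqv A
  comp : ∀ (E K K' : Type) [Field E] [Field K] [Field K'] (p : Place E K) (p' : Place K K'),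
    ∃ p'' : Place E K', (∀ z c, p''.Val z c ↔ ∃ c', p.Val z c' ∧ p'.Val c' c) ∧
      ∀ (σ : Type) [Finite σ] (w : σ → ℕ × ℕ) (J : Ideal (MvPolynomial σ E)), IsW w → IsHom w J →
        p''.init J = p'.init (p.init J)
  adm : ∀ (A ι κ E K : Type) [Group A] [Finite ι] [Field κ] [Field E] [Field K] [Algebra κ E]
    [Algebra κ K] [MulSemiringAction A E] [MulSemiringAction A K] (S : Setup A ι κ)
    (p : Place E K) (J : Ideal (Pxy ι E)), p.Over κ → p.Eqv A → S.Adm J → S.Adm (p.init J)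

/-- CYC: the push-forward cycle. -/
structure CycAPI : Prop where
  fin : ∀ (ι R : Type) [Finite ι] [CommRing R] (J : Ideal (Pxy ι R)) d,
    Module.Finite (By ι R) (Md J d)
  md_add : ∀ (ι K : Type) [Finite ι] [Field K] (J : Ideal (Pxy ι K)) f m d
    (s : PrimeSpectrum (By ι K)), IsHom (bw ι) J → IsWeightedHomogeneous (bw ι) f m →
    lenAt s (Md J (d + m.1)) =
      lenAt s (Md (J ⊔ Ideal.span {f}) (d + m.1)) + lenAt s (Md (J.colon {f}) d)
  bdd : ∀ (ι K : Type) [Finite ι] [Field K] (J : Ideal (Pxy ι K)), IsHom (bw ι) J → Lin (bw ι) J →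
    ∃ C : ℕ, ∀ s : PrimeSpectrum (By ι K), Crv s → ∀ d, lenAt s (Md J d) ≤ C
  spec : ∀ (ι K : Type) [Finite ι] [Field K] (J : Ideal (Pxy ι K)), IsHom (bw ι) J →
    Lin (bw ι) J → IsCyc J (cyc J) ∧ ∀ s ∈ (cyc J).support,
      s.asIdeal ∈ (J.comap (algebraMap (By ι K) (Pxy ι K))).minimalPrimes
  specB : ∀ (ι K : Type) [Finite ι] [Field K] (I : Ideal (By ι K)), IsHom (yw ι) I →
    Lin (yw ι) I → IsCycB I (cycB I) ∧ ∀ s ∈ (cycB I).support, s.asIdeal ∈ I.minimalPrimes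
  add : ∀ (ι K : Type) [Finite ι] [Field K] (J : Ideal (Pxy ι K)) f m, IsHom (bw ι) J →
    Lin (bw ι) J → IsWeightedHomogeneous (bw ι) f m →
    cyc J = cyc (J ⊔ Ideal.span {f}) + cyc (J.colon {f})
  addB : ∀ (ι K : Type) [Finite ι] [Field K] (I : Ideal (By ι K)) f m, IsHom (yw ι) I →
    Lin (yw ι) I → IsWeightedHomogeneous (yw ι) f m →
    cycB I = cycB (I ⊔ Ideal.span {f}) + cycB (I.colon {f})
  zero : ∀ (ι K : Type) [Finite ι] [Field K] (J : Ideal (Pxy ι K)), IsHom (bw ι) J →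
    Lin (bw ι) J → ¬ Unb (bw ι) J → cyc J = 0

/-- SP: the cycle of a specialisation. -/
def SpStmt : Prop :=
  ∀ (ι E K : Type) [Finite ι] [Field E] [Field K] (p : Place E K) (t : p.V)
    (J : Ideal (Pxy ι E)), IsNoetherianRing p.V → t ≠ 0 → (∀ v, p.r v = 0 ↔ t ∣ v) →
    IsHom (bw ι) J → Lin (bw ι) J →
    cyc (p.init J) = (cyc J).sum fun s n => n • cycB (p.init s.asIdeal)

/-- EV: evenness and symmetry of the cycle of an invariant ideal. -/
structure EvAPI : Prop where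
  ev : ∀ (A ι κ K : Type) [Group A] [Finite ι] [Field κ] [Field K] [Algebra κ K]
    [MulSemiringAction A K] [SMulCommClass A κ K] (S : Setup A ι κ) (η : A →* ℤˣ)
    (J : Ideal (Pxy ι K)) (s : PrimeSpectrum (By ι K)), (∀ a, η a = 1 → ∀ c : K, a • c = c) →
    S.Adm J → (∀ a : A, s.comap (actB ι a) = s) → Even (cyc J s)
  sym : ∀ (A ι κ K : Type) [Group A] [Finite ι] [Field κ] [Field K] [Algebra κ K]
    [MulSemiringAction A K] (S : Setup A ι κ) (J : Ideal (Pxy ι K)) (s : PrimeSpectrum (By ι K))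
    (a : A), S.Adm J → cyc J (s.comap (actB ι a)) = cyc J s
  uv : ∀ (A ι κ K : Type) [Group A] [Finite ι] [Field κ] [Field K] [Algebra κ K]
    [MulSemiringAction A K] (S : Setup A ι κ) (J : Ideal (Pxy ι K)),
    (∀ (a : A) (c : K), a • c = c) → S.Adm J → hf (bw ι) J (1, 0) ≤ 2 →
    ∃ I : Ideal (By ι K), IsHom (yw ι) I ∧ J.comap (algebraMap (By ι K) (Pxy ι K)) ≤ I ∧
      cyc J = 2 • cycB I ∧ ∀ᶠ d in atTop, ∀ n, hf (bw ι) J (d, n) = 2 * hf (yw ι) I (0, n)

/-- PSI: the parity of the Hilbert function is additive on cycles. -/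
def PsiStmt : Prop :=
  ∀ (A ι κ : Type) [Group A] [Finite ι] [Field κ] (S : Setup A ι κ) (I : Ideal (By ι κ)),
    IsHom (yw ι) I → Lin (yw ι) I → (∀ e ∈ S.eqs, e ∈ I) →
    (∀ᶠ n in atTop, (hf (yw ι) I (0, n) : ZMod 2) = par I) ∧
      par I = (cycB I).sum fun s n => (n : ZMod 2) * par s.asIdeal

/-- BASE: the bottom level. -/
def BaseStmt : Prop :=
  ∀ (A ι κ : Type) [Group A] [Finite ι] [Field κ] [MulSemiringAction A κ] (S : Setup A ι κ),
    (∀ (a : A) (c : κ), a • c = c) → S.Good (K := κ) Phi0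

/-- STEP: from a level to a simple transcendental extension. -/
def StepStmt : Prop :=
  ∀ (A ι κ K K' : Type) [Group A] [Finite ι] [Field κ] [Field K] [Field K'] [Algebra κ K]
    [Algebra K K'] [Algebra κ K'] [IsScalarTower κ K K'] [MulSemiringAction A K]
    [MulSemiringAction A K'] (S : Setup A ι κ) (Φ : Ideal (Pxy ι K) → ZMod 2) (y : K')
    (η : A →* ℤˣ) (p : Place K' K),
    (∀ (a : A) (c : K), a • algebraMap K K' c = algebraMap K K' (a • c)) →
    (∀ a : A, a • y = ((η a : ℤˣ) : ℤ) • y) → Simple K y → p.Over K → p.Val y 0 → S.Good Φ →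
    S.Good fun J : Ideal (Pxy ι K') => Φ (p.init J)

/-- ASM: from the top level to `F`. -/
def AsmStmt : Prop :=
  ∀ (A ι κ K F : Type) [Group A] [Fintype ι] [DecidableEq ι] [Field κ] [Field K] [Field F]
    [Algebra κ K] [MulSemiringAction A K] (S : Setup A ι κ) (Φ : Ideal (Pxy ι K) → ZMod 2)
    (ρ : F →+* K) (g₁ g₂ : Matrix ι ι K) (I₁ I₂ : Set (MvPolynomial ι F)), S.Good Φ →
    IsUnit g₁ → IsUnit g₂ → (∀ (a : A) (c : F), a • ρ c = ρ c) →
    (∀ (a : A) i j, a • g₁ i j = ((S.χ j a : ℤˣ) : ℤ) • g₁ i j) →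
    (∀ (a : A) i j, a • g₂ i j = g₂ i j) →
    (∀ J : Ideal (Pxy ι K), (∀ f ∈ I₁, theta ρ g₁ g₂ (rename Sum.inl f) ∈ J) →
      (∀ f ∈ I₂, theta ρ g₁ g₂ (rename Sum.inr f) ∈ J) →
      ∑ i ∈ S.T, X (Sum.inl i) ^ 2 ∈ J ∧ (∀ i ∉ S.T, X (Sum.inl i) ∈ J) ∧
        ∀ e ∈ S.eqs, rename Sum.inr (MvPolynomial.map (algebraMap κ K) e) ∈ J) →
    GoodF I₁ I₂ fun J => Φ (J.map (theta ρ g₁ g₂))

/-- SPR: Springer's theorem for diagonal forms. -/
def SprStmt : Prop :=
  ∀ (κ τ : Type) [Field κ] [CharZero κ] [Fintype τ] (α : τ → κ),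
    (∀ y : τ → κ, ∑ j, α j * y j ^ 2 = 0 → y = 0) →
    ∀ (E : Type) [Field E] [Algebra κ E] [FiniteDimensional κ E] (y : τ → E), y ≠ 0 →
      ∑ j, algebraMap κ E (α j) * y j ^ 2 = 0 → Even (Module.finrank κ E)

/-- ALG: the invariant exists for the twisted quadrics. -/
def AlgStmt : Prop := ∃ Φ, GoodF (forms Sum.inl) (forms Sum.inr) Φ

/-- FRAME: frames for the two quadrics with independent discriminants. -/
def FrameStmt : Prop :=
  ∃ (f : Frame (forms Sum.inl)) (g : Frame (forms Sum.inr)),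
    ¬ IsSquare (-f.α 0) ∧ ¬ IsSquare (-g.α 0) ∧ ¬ IsSquare (f.α 0 * g.α 0)

/-- DEC: the invariant over `F` depends only on the cycle. -/
structure DecAPI : Prop where
  prime : ∀ (ι F : Type) [Field F] (q : Ideal (Pxy ι F)) (i j : ι), IsHom (bw ι) q → q.IsPrime →
    X (Sum.inl i) ∉ q → X (Sum.inr j) ∉ q → (q ⊔ deh F i j).IsPrime ∧
      ∀ f m, IsWeightedHomogeneous (bw ι) f m → f ∈ q ⊔ deh F i j → f ∈ q
  dec : ∀ (ι F : Type) [Finite ι] [Field F] (I₁ I₂ : Set (MvPolynomial ι F))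
    (Φ : Ideal (Pxy ι F) → ZMod 2) (J : Ideal (Pxy ι F)), GoodF I₁ I₂ Φ → AdmF I₁ I₂ J →
    ∃ m : PrimeSpectrum (Pxy ι F) →₀ ℕ, (∀ q ∈ m.support, CrvP q) ∧
      (∀ q, CrvP q → ∀ (i j : ι) (n : PrimeSpectrum (Pxy ι F)),
        n.asIdeal = q.asIdeal ⊔ deh F i j → lenAt n (Pxy ι F ⧸ (J ⊔ deh F i j)) = m q) ∧
      Φ J = m.sum fun q k => (k : ZMod 2) * Φ q.asIdeal

/-- PT: points of projective space. -/
structure PtAPI : Prop where
  nat : ∀ (R C D σ : Type) [CommRing R] [CommRing C] [CommRing D] (c : R →+* C) (w : σ → C) h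
    (φ : C →+* D) h', Spec.map (CommRingCat.ofHom φ) ≫ pt c w h = pt (φ.comp c) (φ ∘ w) h'
  str : ∀ (R C σ : Type) [CommRing R] [CommRing C] (c : R →+* C) (w : σ → C) h,
    pt c w h ≫ PP.s R σ = Spec.map (CommRingCat.ofHom c)
  scale : ∀ (R C σ : Type) [CommRing R] [CommRing C] (c : R →+* C) (w w' : σ → C) h h' (l : C),
    (∀ i, w' i = l * w i) → pt c w' h' = pt c w h
  inj : ∀ (R C σ : Type) [CommRing R] [CommRing C] (c c' : R →+* C) (w w' : σ → C) h h',
    pt c w h = pt c' w' h' → c = c' ∧ ∀ i j, w i * w' j = w j * w' i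
  mem : ∀ (R C σ : Type) [CommRing R] [CommRing C] (c : R →+* C) (w : σ → C) h
    (A : Set (MvPolynomial σ R)) (x : PrimeSpectrum C), HomSet A →
    (pt c w h x ∈ zeros A ↔ ∀ f ∈ A, eval₂ c w f ∈ x.asIdeal)
  surj : ∀ (R C σ : Type) [CommRing R] [CommRing C] (g : Spec (CommRingCat.of C) ⟶ PP R σ) (i : σ),
    (∀ x, g x ∉ zeros {X i}) → ∃ c w h, w i = 1 ∧ g = pt c w h
  cover : ∀ (R σ : Type) [CommRing R] (z : PP R σ), ∃ i, z ∉ zeros {X i}
  sep : ∀ (R σ : Type) [CommRing R], (PP R σ).IsSeparated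
  proper : ∀ (R σ : Type) [CommRing R] [Finite σ], IsProper (PP.s R σ)
  vtx_closed : ∀ k, IsClosedImmersion (vtx k)

/-- PROJ: projective morphisms and the projective line. -/
structure ProjAPI : Prop where
  proper : ∀ (Y X : Scheme.{0}) (f : Y ⟶ X), IsProj f → IsProper f
  of_comp : ∀ (Y X S : Scheme.{0}) (f : Y ⟶ X) (s : X ⟶ S), IsProj (f ≫ s) → IsSeparated s →
    IsProj f
  closed : ∀ (Z Y X : Scheme.{0}) (i : Z ⟶ Y) (f : Y ⟶ X), IsClosedImmersion i → IsProj f →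
    IsProj (i ≫ f)
  model : ∀ (k : Type) [Field k] (Y : Scheme.{0}) (s : Y ⟶ Spec (CommRingCat.of k)),
    MP_fd6584_ag.Pj.IsProjective s → IsProj s
  line_smooth : ∀ D : Scheme.{0},
    SmoothOfRelativeDimension 1 (prod.fst : D ⨯ PP ℤ (Fin 2) ⟶ D)
  line_gen : ∀ (k : Type) [Field k], IsIntegral (Spec (CommRingCat.of k) ⨯ PP ℤ (Fin 2)) ∧
    ∃ j : Spec (CommRingCat.of (RatFunc k)) ⟶ Spec (CommRingCat.of k) ⨯ PP ℤ (Fin 2),
      IsGen j ∧ j ≫ prod.fst = Spec.map (CommRingCat.ofHom (algebraMap k (RatFunc k)))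
  etale : ∀ (F L : Type) [Field F] [CharZero F] [Field L] [Algebra F L] [FiniteDimensional F L],
    SmoothOfRelativeDimension 0 (Spec.map (CommRingCat.ofHom (algebraMap F L)))
  glue : ∀ (k K κ : Type) [Field k] [Field K] [Algebra k K] (𝒞 : MP_fd6584_ag.Pj.Charts k K κ)
    (M : MP_fd6584_ag.Pj.Model 𝒞) (Z : Scheme.{0})
    (g : ∀ j, Spec (CommRingCat.of (𝒞.B j)) ⟶ Z) (γ : Spec (CommRingCat.of K) ⟶ Z),
    Z.IsSeparated → (∀ j, Spec.map (CommRingCat.ofHom (𝒞.B j).val.toRingHom) ≫ g j = γ) →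
    ∃ G : M.X ⟶ Z, ∀ j, M.ch j ≫ G = g j

/-- IDL: ideal sheaves in charts. -/
structure IdlAPI : Prop where
  ext : ∀ (S : Scheme.{0}) (κ : Type) (B : κ → CommRingCat.{0}) (ch : ∀ j, Spec (B j) ⟶ S)
    (I J : S.IdealSheafData), (∀ j, IsOpenImmersion (ch j)) → (∀ x, ∃ j p, ch j p = x) →
    (∀ j, idl (ch j) I = idl (ch j) J) → I = J
  inf : ∀ (S : Scheme.{0}) (B : CommRingCat.{0}) (ch : Spec B ⟶ S) (I J : S.IdealSheafData),
    Flat ch → idl ch (I ⊓ J) = idl ch I ⊓ idl ch J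
  map : ∀ (S : Scheme.{0}) (B C : CommRingCat.{0}) (ch : Spec B ⟶ S) (φ : B ⟶ C)
    (I : S.IdealSheafData), idl (Spec.map φ ≫ ch) I = (idl ch I).map φ.hom
  comap : ∀ (S S' : Scheme.{0}) (B : CommRingCat.{0}) (ch : Spec B ⟶ S') (f : S' ⟶ S)
    (I : S.IdealSheafData), idl (ch ≫ f) I = idl ch (I.comap f)
  ker : ∀ (S : Scheme.{0}) (B C : CommRingCat.{0}) (ch : Spec B ⟶ S) (φ : B ⟶ C),
    IsOpenImmersion ch → QuasiCompact (Spec.map φ ≫ ch) →
    idl ch (Spec.map φ ≫ ch).ker = RingHom.ker φ.hom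
  out : ∀ (S Z : Scheme.{0}) (B : CommRingCat.{0}) (ch : Spec B ⟶ S) (γ : Z ⟶ S),
    IsOpenImmersion ch → QuasiCompact γ → (∀ z p, γ z ≠ ch p) → idl ch γ.ker = ⊤
  supp : ∀ (S : Scheme.{0}) (B : CommRingCat.{0}) (ch : Spec B ⟶ S) (I : S.IdealSheafData)
    (x : PrimeSpectrum B), ch x ∈ I.support ↔ idl ch I ≤ x.asIdeal
  sub : ∀ (S Z : Scheme.{0}) (B C : CommRingCat.{0}) (ch : Spec B ⟶ S) (i : Z ⟶ S) (φ : B ⟶ C),
    IsClosedImmersion i → Function.Surjective φ.hom → RingHom.ker φ.hom = idl ch i.ker →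
    ∃ ch' : Spec C ⟶ Z, IsPullback ch' (Spec.map φ) i ch
  fib : ∀ (S : Scheme.{0}) (B : CommRingCat.{0}) (ch : Spec B ⟶ S) (π : S ⟶ PP ℤ (Fin 2))
    (c : ℤ →+* B) (w : Fin 2 → B) h (k : Fin 2), ch ≫ π = pt c w h →
    idl ch (pullback.fst π (vtx k)).ker = Ideal.span {w k.rev}
  flat : ∀ (S S' : Scheme.{0}) (f : S' ⟶ S) (I J : S.IdealSheafData), Flat f →
    (I ⊓ J).comap f = I.comap f ⊓ J.comap f

/-- SM: points of smooth schemes over a field. -/
structure SmAPI : Prop where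
  le : ∀ (F E : Type) [Field F] [Field E] (Y : Scheme.{0}) (s : Y ⟶ Spec (CommRingCat.of F))
    (n : ℕ) (ξ : Spec (CommRingCat.of E) ⟶ Y) (c : F →+* E), SmoothOfRelativeDimension n s →
    IsPreimmersion ξ → ξ ≫ s = Spec.map (CommRingCat.ofHom c) → td c ≤ n
  gen : ∀ (F E : Type) [Field F] [Field E] (Y : Scheme.{0}) (s : Y ⟶ Spec (CommRingCat.of F))
    (n : ℕ) (ξ : Spec (CommRingCat.of E) ⟶ Y) (c : F →+* E) (x : Spec (CommRingCat.of E)),
    SmoothOfRelativeDimension n s → IsPreimmersion ξ →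
    ξ ≫ s = Spec.map (CommRingCat.ofHom c) → (IsGenPt (ξ x) ↔ td c = n)
  field : ∀ (F : Type) [Field F] (Y : Scheme.{0}) (s : Y ⟶ Spec (CommRingCat.of F)) (n : ℕ)
    (y : Y), SmoothOfRelativeDimension n s → IsGenPt y → IsField (Y.presheaf.stalk y)
  val : ∀ (F : Type) [Field F] (Y : Scheme.{0}) [IsIntegral Y] (s : Y ⟶ Spec (CommRingCat.of F))
    (y : Y), SmoothOfRelativeDimension 1 s → ValuationRing (Y.presheaf.stalk y)
  fin : ∀ (F : Type) [Field F] (Y : Scheme.{0}) (s : Y ⟶ Spec (CommRingCat.of F)), IsProper s →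
    {y : Y | IsGenPt y}.Finite

/-- VAL: the local values. -/
structure ValAPI : Prop where
  ex : ∀ (F E ι : Type) [Field F] [Field E] (Y : Scheme.{0}) (u v : Y ⟶ PP F ι)
    (ξ : Spec (CommRingCat.of E) ⟶ Y), u ≫ PP.s F ι = v ≫ PP.s F ι →
    ∃ (c : F →+* E) (a b : ι → E), Coord u v ξ c a b
  eq : ∀ (F E ι : Type) [Field F] [Field E] (Y : Scheme.{0}) (u v : Y ⟶ PP F ι)
    (ξ : Spec (CommRingCat.of E) ⟶ Y) (c : F →+* E) (a b : ι → E) (x : Spec (CommRingCat.of E))
    (Φ : Ideal (Pxy ι F) → ZMod 2), IsPreimmersion ξ → Coord u v ξ c a b →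
    valAt Φ u v (ξ x) = valR Φ c a b ∧ (UnbAt u v (ξ x) ↔ Unb (bw ι) (prm c a b))
  comp : ∀ (F ι : Type) [Field F] (Y Y' : Scheme.{0}) (u v : Y ⟶ PP F ι) (j : Y' ⟶ Y) (y : Y')
    (Φ : Ideal (Pxy ι F) → ZMod 2), u ≫ PP.s F ι = v ≫ PP.s F ι →
    (UnbAt (j ≫ u) (j ≫ v) y ↔ UnbAt u v (j y)) ∧
      (IsPreimmersion j → valAt Φ (j ≫ u) (j ≫ v) y = valAt Φ u v (j y))
  sat : ∀ (F C ι : Type) [Field F] [CommRing C] [IsReduced C] (Y : Scheme.{0})
    (I₁ I₂ : Set (MvPolynomial ι F)) (s : Y ⟶ Spec (CommRingCat.of F)) (u v : Y ⟶ PP F ι)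
    (ξ : Spec (CommRingCat.of C) ⟶ Y) (c : F →+* C) (a b : ι → C), HomSet I₁ → HomSet I₂ →
    Geo I₁ I₂ s u v → Coord u v ξ c a b →
    Sat I₁ c a ∧ Sat I₂ c b ∧ ξ ≫ s = Spec.map (CommRingCat.ofHom c)
  gen : ∀ (F ι : Type) [Field F] [Finite ι] (Y : Scheme.{0}) (s : Y ⟶ Spec (CommRingCat.of F))
    (u v : Y ⟶ PP F ι) (y : Y), SmoothOfRelativeDimension 1 s → u ≫ PP.s F ι = s →
    v ≫ PP.s F ι = s → UnbAt u v y → IsGenPt y
  zero : ∀ (F ι : Type) [Field F] [Finite ι] (Y : Scheme.{0}) (I₁ I₂ : Set (MvPolynomial ι F))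
    (s : Y ⟶ Spec (CommRingCat.of F)) (u v : Y ⟶ PP F ι) (Φ : Ideal (Pxy ι F) → ZMod 2) (y : Y),
    HomSet I₁ → HomSet I₂ → GoodF I₁ I₂ Φ → Geo I₁ I₂ s u v → SmoothOfRelativeDimension 1 s →
    ¬ UnbAt u v y → valAt Φ u v y = 0

/-- RECLOC: the local count along a proper map to an affine scheme. -/
def RecLocStmt : Prop :=
  ∀ (R : Type) [CommRing R] [IsNoetherianRing R] (Z : Scheme.{0})
    (h : Z ⟶ Spec (CommRingCat.of R)) (m : PrimeSpectrum R) (t : R) (H : Finset Z), IsProper h →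
    t ∈ m.asIdeal → (∀ x, x ∈ H ↔ im h x = m) →
    (∀ x ∈ H, ¬ IsGenPt x ∧ ∀ (B : CommRingCat.{0}) (ch : Spec B ⟶ Z)
      (ρ : CommRingCat.of R ⟶ B) (q : PrimeSpectrum B), IsOpenImmersion ch →
      ch ≫ h = Spec.map ρ → ch q = x →
      ∀ z ∈ q.asIdeal, ∃ u ∉ q.asIdeal, u * z ∈ Ideal.span {ρ.hom t}) →
    (∀ x, im h x ≤ m → t ∉ (im h x).asIdeal → IsGenPt x) ∧
    ∀ Ξ : Finset Z, (∀ x ∈ Ξ, t ∉ (im h x).asIdeal) →
      (∀ x, im h x ≤ m → t ∉ (im h x).asIdeal → x ∈ Ξ) →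
      ∑ x ∈ H, (dg h x : ℕ∞) =
        ∑ x ∈ Ξ, (dg h x : ℕ∞) * lenAt m (R ⧸ ((im h x).asIdeal ⊔ Ideal.span {t}))

/-- CHART: the standard affine charts of `ℙ × ℙ × ℙ¹`. -/
def ChartStmt : Prop :=
  ∀ (F ι : Type) [Field F] [Finite ι] (S : Scheme.{0}) (s : S ⟶ Spec (CommRingCat.of F))
    (u v : S ⟶ PP F ι) (π : S ⟶ PP ℤ (Fin 2)) (i j : ι) (k : Fin 2), IsProper s →
    u ≫ PP.s F ι = s → v ≫ PP.s F ι = s →
    ∃ (Z : Scheme.{0}) (o : Z ⟶ S) (h : Z ⟶ Spec (CommRingCat.of (Polynomial (Pxy ι F)))),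
      IsOpenImmersion o ∧ IsProper h ∧
      (∀ x, x ∈ Set.range o ↔ u x ∉ zeros {X i} ∧ v x ∉ zeros {X j} ∧ π x ∉ zeros {X k}) ∧
      ∀ (C : Type) [CommRing C] (g : Spec (CommRingCat.of C) ⟶ Z)
        (ev : Polynomial (Pxy ι F) →+* C), g ≫ h = Spec.map (CommRingCat.ofHom ev) →
        ev (Polynomial.C (X (Sum.inl i))) = 1 ∧ ev (Polynomial.C (X (Sum.inr j))) = 1 ∧
        Coord u v (g ≫ o) (ev.comp (Polynomial.C.comp MvPolynomial.C))
          (fun l => ev (Polynomial.C (X (Sum.inl l)))) (fun l => ev (Polynomial.C (X (Sum.inr l)))) ∧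
        ∃ hw, g ≫ o ≫ π =
          pt (Int.castRingHom C) (fun l => if l = k then 1 else ev Polynomial.X) hw

/-- LINK: specialisation of the prime of a point of a family, in a chart. -/
def LinkStmt : Prop :=
  ∀ (ι F K E : Type) [Field F] [Field K] [Field E] [Algebra F K] (c : K →+* E) (y : K)
    (p : Place K F) (a b : ι → E) (i j : ι) (ev : Polynomial (Pxy ι F) →+* E), Simple F y →
    p.Over F → p.Val y 0 → a i ≠ 0 → b j ≠ 0 →
    ev.comp (Polynomial.C.comp MvPolynomial.C) = c.comp (algebraMap F K) →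
    (∀ l, ev (Polynomial.C (X (Sum.inl l))) = a l / a i) →
    (∀ l, ev (Polynomial.C (X (Sum.inr l))) = b l / b j) → ev Polynomial.X = c y →
    p.init (prm c a b) ⊔ deh F i j = (RingHom.ker ev).map (Polynomial.evalRingHom 0) ∧
      fdeg ev = Module.finrank (ratF c a b) E

/-- REC: the two fibres of a family have the same invariant. -/
def RecStmt : Prop :=
  ∀ (F ι : Type) [Field F] [Finite ι] (I₁ I₂ : Set (MvPolynomial ι F))
    (Φ : Ideal (Pxy ι F) → ZMod 2) (S : Scheme.{0}) (s : S ⟶ Spec (CommRingCat.of F))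
    (u v : S ⟶ PP F ι) (π : S ⟶ PP ℤ (Fin 2)) (H : Fin 2 → Finset S), HomSet I₁ → HomSet I₂ →
    GoodF I₁ I₂ Φ → IsProper s → SmoothOfRelativeDimension 2 s → Geo I₁ I₂ s u v →
    (∀ k x, x ∈ H k ↔ π x ∈ Set.range (vtx k) ∧ UnbAt u v x) →
    (∀ k, ∀ x ∈ H k, ¬ IsGenPt x ∧ LocGen (pullback.fst π (vtx k)).ker x) →
    ∑ x ∈ H 0, valAt Φ u v x = ∑ x ∈ H 1, valAt Φ u v x

/-- PHI: the invariant descends to cobordism. -/
def PhiStmt : Prop :=
  ∀ (F ι : Type) [Field F] [Finite ι] (M : Amb F F ι) (Φ : Ideal (Pxy ι F) → ZMod 2),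
    GoodF M.I₁ M.I₂ Φ → ∃ φ : Omega1 M.s →+ ZMod 2,
      ∀ (C : Curve M.s) (E : Type) [Field E] (γ : Spec (CommRingCat.of E) ⟶ M.X) (c : F →+* E)
        (a b : ι → E), Rep C γ → M.At γ c a b → φ (cls C) = valR Φ c a b

/-- ISO: an integral curve is determined by its generic point. -/
structure IsoAPI : Prop where
  iso : ∀ (X S : Scheme.{0}) (s : X ⟶ S) (C C' : Curve s) (e : C.Y ≅ C'.Y),
    e.hom ≫ C'.f = C.f → cls C = cls C'
  rep : ∀ (k T : Type) [Field k] [Field T] (X : Scheme.{0}) (s : X ⟶ Spec (CommRingCat.of k))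
    (C C' : Curve s) (γ : Spec (CommRingCat.of T) ⟶ X), IsProper s → Rep C γ → Rep C' γ →
    cls C = cls C'
  uniq : ∀ (F k ι : Type) [Field F] [Field k] [Algebra F k] (M : Amb F k ι)
    (a b a' b' : ι → RatFunc k) (l m : RatFunc k) (x x' : Omega1 M.s),
    (∀ i, a' i = l * a i) → (∀ i, b' i = m * b i) → M.HasCls a b x → M.HasCls a' b' x' → x = x'

/-- DP: the double point relation on the plane blown up in two points. -/
def DpStmt : Prop :=
  ∀ (F k ι : Type) [Field F] [Field k] [Algebra F k] (M : Amb F k ι)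
    (A B : Fin 5 → ι → MvPolynomial (Fin 2) k) (a b : ι → K2 k) (l m : Fin 5 → K2 k),
    (∀ j, Ideal.span (Set.range (A j)) = ⊤) → (∀ j, Ideal.span (Set.range (B j)) = ⊤) →
    (∀ j i, aeval (co k j) (A j i) = l j * a i) → (∀ j i, aeval (co k j) (B j i) = m j * b i) →
    Sat M.I₁ ((algebraMap k (K2 k)).comp (algebraMap F k)) a →
    Sat M.I₂ ((algebraMap k (K2 k)).comp (algebraMap F k)) b →
    ∃ xC xA xB xE : Omega1 M.s,
      M.HasCls (fun i => aeval ![0, RatFunc.X] (A 0 i)) (fun i => aeval ![0, RatFunc.X] (B 0 i)) xC ∧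
      M.HasCls (fun i => aeval ![RatFunc.X, 0] (A 1 i)) (fun i => aeval ![RatFunc.X, 0] (B 1 i)) xA ∧
      M.HasCls (fun i => aeval ![0, RatFunc.X] (A 3 i)) (fun i => aeval ![0, RatFunc.X] (B 3 i)) xB ∧
      M.HasCls (fun i => aeval ![0, 0] (A 2 i)) (fun i => aeval ![0, 0] (B 2 i)) xE ∧
      xC = xA + xB - xE

/-- The rational curve `∑ cₗ eₗ` with coefficients in `k(t)`. -/
noncomputable def vec {k ι : Type} [Field k] {n : ℕ} (e : Fin n → ι → k) (c : Fin n → RatFunc k) :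
    ι → RatFunc k := fun i => ∑ l, c l * algebraMap k (RatFunc k) (e l i)

/-- MOVE: the three elementary moves in the second factor. -/
structure MoveAPI : Prop where
  conic : ∀ (F k ι : Type) [Field F] [Field k] [Algebra F k] [Finite ι] (M : Amb F k ι)
    (p : ι → k) (e : Fin 5 → ι → k), p ≠ 0 → Sat M.I₁ (algebraMap F k) p → LinearIndependent k e →
    (∀ (C : Type) [CommRing C] [Algebra k C] (w : Fin 5 → C), w 0 * w 2 = w 1 ^ 2 →
      Sat M.I₂ ((algebraMap k C).comp (algebraMap F k)) fun i => ∑ l, w l * algebraMap k C (e l i)) →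
    ∃ xC xA xB xE : Omega1 M.s,
      M.HasCls (vec ![p] ![1]) (vec e ![RatFunc.X ^ 2, RatFunc.X, 1, 0, 0]) xC ∧
      M.HasCls (vec ![p] ![1]) (vec ![e 4, e 3] ![1, RatFunc.X]) xA ∧
      M.HasCls (vec ![p] ![1]) (vec ![e 0, e 3] ![1, RatFunc.X]) xB ∧
      M.HasCls (vec ![p] ![1]) (vec ![e 3] ![1]) xE ∧ xC = xA + xB - xE
  plane : ∀ (F k ι : Type) [Field F] [Field k] [Algebra F k] [Finite ι] (M : Amb F k ι)
    (p : ι → k) (e : Fin 3 → ι → k), p ≠ 0 → Sat M.I₁ (algebraMap F k) p → LinearIndependent k e →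
    (∀ (C : Type) [CommRing C] [Algebra k C] (w : Fin 3 → C),
      Sat M.I₂ ((algebraMap k C).comp (algebraMap F k)) fun i => ∑ l, w l * algebraMap k C (e l i)) →
    ∃ x : Omega1 M.s, M.HasCls (vec ![p] ![1]) (vec ![e 2, e 1] ![1, RatFunc.X]) x ∧
      M.HasCls (vec ![p] ![1]) (vec ![e 1, e 0] ![1, RatFunc.X]) x
  point : ∀ (F k ι : Type) [Field F] [Field k] [Algebra F k] [Finite ι] (M : Amb F k ι)
    (p : ι → k) (e : Fin 2 → ι → k), p ≠ 0 → Sat M.I₁ (algebraMap F k) p → LinearIndependent k e →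
    (∀ (C : Type) [CommRing C] [Algebra k C] (w : Fin 2 → C),
      Sat M.I₂ ((algebraMap k C).comp (algebraMap F k)) fun i => ∑ l, w l * algebraMap k C (e l i)) →
    ∃ x : Omega1 M.s, M.HasCls (vec ![p] ![1]) (vec ![e 0] ![1]) x ∧
      M.HasCls (vec ![p] ![1]) (vec ![e 1] ![1]) x

/-- BC: base change of curves defined over a finite extension. -/
structure BcAPI : Prop where
  ex : ∀ (F k L : Type) [Field F] [Field k] [Field L] [Algebra F k] (X X' : Scheme.{0})
    (s : X ⟶ Spec (CommRingCat.of F)) (s' : X' ⟶ Spec (CommRingCat.of k)) (q : X' ⟶ X)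
    (C : Curve s) (t : C.Y ⟶ Spec (CommRingCat.of L)) (ρ : F →+* L) (σ : L →+* k),
    IsPullback q s' s (Spec.map (CommRingCat.ofHom (algebraMap F k))) →
    t ≫ Spec.map (CommRingCat.ofHom ρ) = C.f ≫ s → σ.comp ρ = algebraMap F k →
    SmoothOfRelativeDimension 1 t → ∃ C' : Curve s', CurveBC q C t σ C'
  split : ∀ (F k L L' : Type) [Field F] [Field k] [Field L] [Field L'] [Algebra F k]
    (X X' : Scheme.{0}) (s : X ⟶ Spec (CommRingCat.of F)) (s' : X' ⟶ Spec (CommRingCat.of k))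
    (q : X' ⟶ X) (C : Curve s) (t : C.Y ⟶ Spec (CommRingCat.of L')) (ρ : L →+* L') (σ : L →+* k)
    (τ₁ τ₂ : L' →+* k) (r : L') (C₀ C₁ C₂ : Curve s'),
    IsPullback q s' s (Spec.map (CommRingCat.ofHom (algebraMap F k))) →
    (∀ z, ∃ x y, z = ρ x + ρ y * r) → r ∉ Set.range ρ → τ₁.comp ρ = σ → τ₂.comp ρ = σ →
    τ₁ r ≠ τ₂ r → CurveBC q C (t ≫ Spec.map (CommRingCat.ofHom ρ)) σ C₀ → CurveBC q C t τ₁ C₁ →
    CurveBC q C t τ₂ C₂ → cls C₀ = cls C₁ + cls C₂
  gen : ∀ (k L T κ : Type) [Field k] [Field L] [Field T] [Algebra L k] [Algebra k T] [Algebra L T]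
    [IsScalarTower L k T] (B : κ → Type) [∀ j, CommRing (B j)] [∀ j, Algebra L (B j)]
    (Y Y' : Scheme.{0}) (t : Y ⟶ Spec (CommRingCat.of L)) (t' : Y' ⟶ Spec (CommRingCat.of k))
    (p : Y' ⟶ Y) (ch : ∀ j, Spec (CommRingCat.of (B j)) ⟶ Y) (β : ∀ j, B j →ₐ[L] T)
    (γ : Spec (CommRingCat.of T) ⟶ Y) (j₀ : κ),
    IsPullback p t' t (Spec.map (CommRingCat.ofHom (algebraMap L k))) →
    (∀ j, IsOpenImmersion (ch j)) → (∀ x, ∃ j z, ch j z = x) →
    (∀ j, ch j ≫ t = Spec.map (CommRingCat.ofHom (algebraMap L (B j)))) →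
    (∀ j, Spec.map (CommRingCat.ofHom (β j).toRingHom) ≫ ch j = γ) →
    (∀ j, Function.Injective (Algebra.TensorProduct.lift (Algebra.ofId k T) (β j)
      fun _ _ => Commute.all _ _)) →
    IntermediateField.adjoin k (Set.range (β j₀)) = ⊤ →
    IsIntegral Y' ∧ ∃ j : Spec (CommRingCat.of T) ⟶ Y', IsGen j ∧ j ≫ p = γ ∧
      j ≫ t' = Spec.map (CommRingCat.ofHom (algebraMap k T))

/-- LINE: a line defined over a finite extension. -/
def LineStmt : Prop :=
  ∀ (F E ι : Type) [Field F] [CharZero F] [Field E] [Algebra F E] [FiniteDimensional F E]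
    [Finite ι] (M : Amb F F ι) (a : ι → E) (e : Fin 2 → ι → E), a ≠ 0 →
    Sat M.I₁ (algebraMap F E) a → LinearIndependent E e →
    (∀ (C : Type) [CommRing C] [Algebra E C] (w : Fin 2 → C),
      Sat M.I₂ ((algebraMap E C).comp (algebraMap F E)) fun i => ∑ l, w l * algebraMap E C (e l i)) →
    ∃ (G : Curve M.s) (t : G.Y ⟶ Spec (CommRingCat.of E)),
      t ≫ Spec.map (CommRingCat.ofHom (algebraMap F E)) = G.f ≫ M.s ∧
      SmoothOfRelativeDimension 1 t ∧
      (∃ γ, Rep G γ ∧ M.At γ ((algebraMap E (RatFunc E)).comp (algebraMap F E)) (vec ![a] ![1])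
        (vec e ![1, RatFunc.X])) ∧
      ∀ (k : Type) [Field k] [Algebra F k] (N : Amb F k ι) (q : N.X ⟶ M.X) (σ : E →+* k)
        (C' : Curve N.s), M.IsBC N q → σ.comp (algebraMap F E) = algebraMap F k →
        CurveBC q G t σ C' →
        N.HasCls (vec ![σ ∘ a] ![1]) (vec ![σ ∘ e 0, σ ∘ e 1] ![1, RatFunc.X]) (cls C')

/-- The function field of the conic `α₀ + α₁ x² + α₂ y² = 0` over `L`. -/
structure ConicField {L E : Type} [Field L] [Field E] [Algebra L E] (α : Fin 3 → L) (x y : E) :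
    Prop where
  eqn : algebraMap L E (α 0) + algebraMap L E (α 1) * x ^ 2 + algebraMap L E (α 2) * y ^ 2 = 0
  gen : IntermediateField.adjoin L {x, y} = ⊤
  trans : Transcendental L x

/-- CONIC: a conic over a finite extension. -/
def ConicStmt : Prop :=
  ∀ (F L ι : Type) [Field F] [CharZero F] [Field L] [Algebra F L] [FiniteDimensional F L]
    [Finite ι] (M : Amb F F ι) (a : ι → L) (e : Fin 3 → ι → L) (α : Fin 3 → L), a ≠ 0 →
    Sat M.I₁ (algebraMap F L) a → LinearIndependent L e → (∀ l, α l ≠ 0) →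
    (∀ (C : Type) [CommRing C] [Algebra L C] (w : Fin 3 → C),
      ∑ l, algebraMap L C (α l) * w l ^ 2 = 0 →
      Sat M.I₂ ((algebraMap L C).comp (algebraMap F L)) fun i => ∑ l, w l * algebraMap L C (e l i)) →
    ∃ (G : Curve M.s) (t : G.Y ⟶ Spec (CommRingCat.of L)),
      t ≫ Spec.map (CommRingCat.ofHom (algebraMap F L)) = G.f ≫ M.s ∧
      SmoothOfRelativeDimension 1 t ∧
      (∃ (E : Type) (_ : Field E) (_ : Algebra L E) (x y : E)
        (γ : Spec (CommRingCat.of E) ⟶ M.X), ConicField α x y ∧ Rep G γ ∧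
        M.At γ ((algebraMap L E).comp (algebraMap F L)) (fun i => algebraMap L E (a i))
          fun i => ∑ l, ![1, x, y] l * algebraMap L E (e l i)) ∧
      ∀ (k : Type) [Field k] [Algebra F k] (N : Amb F k ι) (q : N.X ⟶ M.X) (σ : L →+* k)
        (C' : Curve N.s) (x y : RatFunc k), M.IsBC N q → σ.comp (algebraMap F L) = algebraMap F k →
        CurveBC q G t σ C' → ConicField (σ ∘ α) x y →
        N.HasCls (vec ![σ ∘ a] ![1]) (vec (fun l => σ ∘ e l) ![1, x, y]) (cls C')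

/-- A quadratic extension generated by a square root of `δ`. -/
structure Quad {F L : Type} [Field F] [Field L] (ρ : F →+* L) (δ : F) (r : L) : Prop where
  sq : r ^ 2 = ρ δ
  gen : ∀ z, ∃ x y, z = ρ x + ρ y * r
  ne : r ∉ Set.range ρ

/-- The null vector `f 2 + r f 1` of a frame. -/
def Frame.n₁ {F ι L : Type} [Field F] [CommRing L] {I : Set (MvPolynomial ι F)} (f : Frame I)
    (ρ : F →+* L) (r : L) : ι → L := fun i => ρ (f.f 2 i) + r * ρ (f.f 1 i)

/-- The null vector `f 4 + r f 3` of a frame. -/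
def Frame.n₂ {F ι L : Type} [Field F] [CommRing L] {I : Set (MvPolynomial ι F)} (f : Frame I)
    (ρ : F →+* L) (r : L) : ι → L := fun i => ρ (f.f 4 i) + r * ρ (f.f 3 i)

/-- EVG: the values of the invariant on the conic and on the line. -/
structure EvgAPI : Prop where
  conic : ∀ (F L E ι : Type) [Field F] [CharZero F] [Field L] [Field E] [Algebra F L] [Algebra L E]
    [Finite ι] (I₁ I₂ : Set (MvPolynomial ι F)) (Φ : Ideal (Pxy ι F) → ZMod 2) (f : Frame I₁)
    (g : Frame I₂) (r : L) (x y : E), HomSet I₁ → HomSet I₂ → GoodF I₁ I₂ Φ →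
    Quad (algebraMap F L) (-f.α 0) r →
    ConicField (fun l : Fin 3 => algebraMap F L (g.α (l.castLE (by norm_num)))) x y →
    valR Φ ((algebraMap L E).comp (algebraMap F L))
      (fun i => algebraMap L E (f.n₁ (algebraMap F L) r i))
      (fun i => ∑ l : Fin 3, ![1, x, y] l *
        algebraMap L E (algebraMap F L (g.f (l.castLE (by norm_num)) i))) = 1
  line : ∀ (F L E ι : Type) [Field F] [CharZero F] [Field L] [Field E] [Algebra F L] [Algebra L E]
    [Finite ι] (I₁ I₂ : Set (MvPolynomial ι F)) (Φ : Ideal (Pxy ι F) → ZMod 2) (f : Frame I₁)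
    (g : Frame I₂) (ρ : F →+* E) (r : L) (r' : E), HomSet I₁ → HomSet I₂ → GoodF I₁ I₂ Φ →
    ρ = (algebraMap L E).comp (algebraMap F L) → Quad (algebraMap F L) (-f.α 0) r →
    Quad (algebraMap L E) (algebraMap F L (-g.α 0)) r' →
    valR Φ ((algebraMap E (RatFunc E)).comp ρ) (vec ![f.n₁ ρ (algebraMap L E r)] ![1])
      (vec ![g.n₁ ρ r', g.n₂ ρ r'] ![1, RatFunc.X]) = 0
  contr : ∀ (F L E ι : Type) [Field F] [Field L] [Field E] [Algebra F L] [FiniteDimensional F L]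
    [Finite ι] (I₁ I₂ : Set (MvPolynomial ι F)) (Φ : Ideal (Pxy ι F) → ZMod 2) (τ : L →+* E)
    (a : ι → E) (b : ι → L), HomSet I₁ → HomSet I₂ → GoodF I₁ I₂ Φ →
    Sat I₁ (τ.comp (algebraMap F L)) a → Sat I₂ (algebraMap F L) b →
    td (τ.comp (algebraMap F L)) ≤ 1 → valR Φ (τ.comp (algebraMap F L)) a (τ ∘ b) = 0

/-- KEY: over an algebraically closed field, conic minus two conjugate lines is minus a point. -/
def KeyStmt : Prop :=
  ∀ (F k ι : Type) [Field F] [CharZero F] [Field k] [IsAlgClosed k] [Algebra F k] [Finite ι]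
    (N : Amb F k ι) (g : Frame N.I₂) (r : k), r ^ 2 = algebraMap F k (-g.α 0) →
    ∃ x y : RatFunc k,
      ConicField (fun l : Fin 3 => algebraMap F k (g.α (l.castLE (by norm_num)))) x y ∧
      ∀ (p : ι → k) (xC x₁ x₂ : Omega1 N.s), p ≠ 0 → Sat N.I₁ (algebraMap F k) p →
        N.HasCls (vec ![p] ![1])
          (vec (fun (l : Fin 3) i => algebraMap F k (g.f (l.castLE (by norm_num)) i)) ![1, x, y])
          xC →
        N.HasCls (vec ![p] ![1])
          (vec ![g.n₁ (algebraMap F k) r, g.n₂ (algebraMap F k) r] ![1, RatFunc.X]) x₁ →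
        N.HasCls (vec ![p] ![1])
          (vec ![g.n₁ (algebraMap F k) (-r), g.n₂ (algebraMap F k) (-r)] ![1, RatFunc.X]) x₂ →
        ∃ xE, N.HasCls (vec ![p] ![1]) (vec ![g.n₂ (algebraMap F k) r] ![1]) xE ∧
          xC = x₁ + x₂ - xE

/-- AMB: the flag variety and its base change are ambient varieties. -/
structure AmbAPI : Prop where
  flag : IsAmb (F := FF) (k := FF) flag
    (pullback.fst (quad Sum.inl) (quad Sum.inr) ≫ Scheme.IdealSheafData.subschemeι _)
    (pullback.snd (quad Sum.inl) (quad Sum.inr) ≫ Scheme.IdealSheafData.subschemeι _)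
    (forms Sum.inl) (forms Sum.inr)
  bc : ∀ (F k ι : Type) [Field F] [Field k] [Algebra F k] (M : Amb F F ι),
    IsAmb (pullback.snd M.s (Spec.map (CommRingCat.ofHom (algebraMap F k))))
      (pullback.fst _ _ ≫ M.u) (pullback.fst _ _ ≫ M.v) M.I₁ M.I₂

/-- RES: flat base change preserves the relations. -/
def ResStmt : Prop :=
  ∀ (X S S' : Scheme.{0}) (s : X ⟶ S) (b : S' ⟶ S), Flat b → ∀ x ∈ rels s,
    FreeAbelianGroup.map (Curve.bc b) x ∈ rels (pullback.snd s b)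

/-- MAIN: the abstract theorem. -/
def MainStmt : Prop :=
  ∀ (F k ι : Type) [Field F] [CharZero F] [Field k] [IsAlgClosed k] [Algebra F k] [Finite ι]
    (M : Amb F F ι) (N : Amb F k ι) (q : N.X ⟶ M.X) (f : Frame M.I₁) (g : Frame M.I₂)
    (Φ : Ideal (Pxy ι F) → ZMod 2), M.IsBC N q → GoodF M.I₁ M.I₂ Φ → ¬ IsSquare (-f.α 0) →
    ¬ IsSquare (-g.α 0) → ¬ IsSquare (f.α 0 * g.α 0) →
    ∃ G₁ G₂ G₃ G₄ : Curve M.s, cls G₁ - cls G₂ - cls G₃ + cls G₄ ≠ 0 ∧
      ∀ C₁ C₂ C₃ C₄ : Curve N.s, CurveBC q G₁ (G₁.f ≫ M.s) (algebraMap F k) C₁ →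
        CurveBC q G₂ (G₂.f ≫ M.s) (algebraMap F k) C₂ →
        CurveBC q G₃ (G₃.f ≫ M.s) (algebraMap F k) C₃ →
        CurveBC q G₄ (G₄.f ≫ M.s) (algebraMap F k) C₄ →
        cls C₁ - cls C₂ - cls C₃ + cls C₄ = 0

end Pool.Agent.MP_d45d16_ag.Yag

end MrgPart2

-- ======== part 3: formerly Pool.Agent.MP_d45d16_ag.yag.AmbRes
section MrgPart3

/-!
The flag variety and its base changes are ambient varieties; flat base change preserves the
relations of the cobordism group.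
-/

set_option autoImplicit false

open AlgebraicGeometry CategoryTheory Limits MvPolynomial Filter

namespace Pool.Agent.MP_d45d16_ag.Yag

namespace AmbRes

theorem vanishing_le_ker {Y P : Scheme.{0}} [IsReduced Y] (a : Y ⟶ P)
    (Z : TopologicalSpace.Closeds P) (h : ∀ y, a y ∈ Z) :
    (Scheme.IdealSheafData.vanishingIdeal Z).subschemeι.ker ≤ a.ker := by
  rw [Scheme.IdealSheafData.ker_subschemeι, ← Scheme.IdealSheafData.map_bot,
    ← Scheme.nilradical_eq_bot, ← Scheme.IdealSheafData.vanishingIdeal_top,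
    Scheme.IdealSheafData.map_vanishingIdeal]
  refine Scheme.IdealSheafData.vanishingIdeal_antimono ?_
  rw [TopologicalSpace.Closeds.closure_le]
  rintro _ ⟨y, -, rfl⟩
  exact h y

theorem mem_sub {P : Scheme.{0}} (Z : TopologicalSpace.Closeds P)
    (y : (Scheme.IdealSheafData.vanishingIdeal Z).subscheme) :
    (Scheme.IdealSheafData.vanishingIdeal Z).subschemeι y ∈ Z := by
  have h : (Scheme.IdealSheafData.vanishingIdeal Z).subschemeι y ∈
      Set.range (Scheme.IdealSheafData.vanishingIdeal Z).subschemeι := ⟨y, rfl⟩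
  rw [Scheme.IdealSheafData.range_subschemeι,
    Scheme.IdealSheafData.coe_support_vanishingIdeal] at h
  exact h

theorem spec_self (F : Type) [Field F] :
    Spec.map (CommRingCat.ofHom (algebraMap F F)) = 𝟙 (Spec (CommRingCat.of F)) := by
  rw [Algebra.algebraMap_self, CommRingCat.ofHom_id, Spec.map_id]

/-- The product of two reduced closed subschemes of projective space. -/
theorem isAmb_prod {F ι : Type} [Field F] (I₁ I₂ : Set (MvPolynomial ι F)) (h₁ : HomSet I₁)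
    (h₂ : HomSet I₂) (hp : IsProper (PP.s F ι)) :
    IsAmb (F := F) (k := F)
      (pullback.fst ((Scheme.IdealSheafData.vanishingIdeal (zeros I₁)).subschemeι ≫ PP.s F ι)
        ((Scheme.IdealSheafData.vanishingIdeal (zeros I₂)).subschemeι ≫ PP.s F ι) ≫
        (Scheme.IdealSheafData.vanishingIdeal (zeros I₁)).subschemeι ≫ PP.s F ι)
      (pullback.fst ((Scheme.IdealSheafData.vanishingIdeal (zeros I₁)).subschemeι ≫ PP.s F ι)
        ((Scheme.IdealSheafData.vanishingIdeal (zeros I₂)).subschemeι ≫ PP.s F ι) ≫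
        Scheme.IdealSheafData.subschemeι _)
      (pullback.snd ((Scheme.IdealSheafData.vanishingIdeal (zeros I₁)).subschemeι ≫ PP.s F ι)
        ((Scheme.IdealSheafData.vanishingIdeal (zeros I₂)).subschemeι ≫ PP.s F ι) ≫
        Scheme.IdealSheafData.subschemeι _) I₁ I₂ where
  hom₁ := h₁
  hom₂ := h₂
  proper := inferInstance
  geo := by
    refine ⟨?_, ?_, fun y => ?_, fun y => ?_⟩
    · rw [spec_self, Category.comp_id, Category.assoc]
    · rw [spec_self, Category.comp_id, Category.assoc, pullback.condition]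
    · rw [Scheme.Hom.comp_apply]; exact mem_sub _ _
    · rw [Scheme.Hom.comp_apply]; exact mem_sub _ _
  ext := fun Y g g' _ h2 h3 => by
    refine pullback.hom_ext ?_ ?_
    · rw [← cancel_mono (Scheme.IdealSheafData.subschemeι _), Category.assoc, Category.assoc]
      exact h2
    · rw [← cancel_mono (Scheme.IdealSheafData.subschemeι _), Category.assoc, Category.assoc]
      exact h3
  lift := fun Y t a b hY h => by
    have ha := h.us
    have hb := h.vs
    rw [spec_self, Category.comp_id] at ha hb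
    refine ⟨pullback.lift (IsClosedImmersion.lift _ a (vanishing_le_ker a _ h.mem₁))
      (IsClosedImmersion.lift _ b (vanishing_le_ker b _ h.mem₂)) ?_, ?_, ?_, ?_⟩
    · rw [IsClosedImmersion.lift_fac_assoc, IsClosedImmersion.lift_fac_assoc, ha, hb]
    · rw [pullback.lift_fst_assoc, IsClosedImmersion.lift_fac_assoc, ha]
    · rw [pullback.lift_fst_assoc, IsClosedImmersion.lift_fac]
    · rw [pullback.lift_snd_assoc, IsClosedImmersion.lift_fac]

theorem isAmb_bc (F k ι : Type) [Field F] [Field k] [Algebra F k] (M : Amb F F ι) :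
    IsAmb (pullback.snd M.s (Spec.map (CommRingCat.ofHom (algebraMap F k))))
      (pullback.fst _ _ ≫ M.u) (pullback.fst _ _ ≫ M.v) M.I₁ M.I₂ where
  hom₁ := M.hom₁
  hom₂ := M.hom₂
  proper := by
    have := M.proper
    infer_instance
  geo := by
    have ha := M.geo.us
    have hb := M.geo.vs
    rw [spec_self, Category.comp_id] at ha hb
    refine ⟨?_, ?_, fun y => ?_, fun y => ?_⟩
    · rw [Category.assoc, ha, pullback.condition]
    · rw [Category.assoc, hb, pullback.condition]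
    · rw [Scheme.Hom.comp_apply]; exact M.geo.mem₁ _
    · rw [Scheme.Hom.comp_apply]; exact M.geo.mem₂ _
  ext := fun Y g g' h1 h2 h3 => by
    refine pullback.hom_ext (M.ext Y _ _ ?_ ?_ ?_) h1
    · rw [Category.assoc, Category.assoc, pullback.condition, reassoc_of% h1]
    · rw [Category.assoc, Category.assoc]; exact h2
    · rw [Category.assoc, Category.assoc]; exact h3
  lift := fun Y t a b hY h => by
    obtain ⟨g, h1, h2, h3⟩ := M.lift Y (t ≫ Spec.map (CommRingCat.ofHom (algebraMap F k))) a b hY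
      (by rw [spec_self, Category.comp_id]; exact h)
    refine ⟨pullback.lift g t h1, ?_, ?_, ?_⟩
    · rw [pullback.lift_snd]
    · rw [pullback.lift_fst_assoc, h2]
    · rw [pullback.lift_fst_assoc, h3]

theorem vtx_closed (k : Fin 2) : IsClosedImmersion (vtx k) := by
  have h1 : IsSeparated (PP.s ℤ (Fin 2)) := by
    unfold PP.s PP
    infer_instance
  have h2 : vtx k ≫ PP.s ℤ (Fin 2) = 𝟙 _ := specZIsTerminal.hom_ext _ _
  have h3 : IsClosedImmersion (vtx k ≫ PP.s ℤ (Fin 2)) := by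
    rw [h2]; infer_instance
  exact IsClosedImmersion.of_comp (vtx k) (PP.s ℤ (Fin 2))

/-- Base change along `q` of a morphism over `X`. -/
noncomputable def bcMap {X X' A T : Scheme.{0}} (q : X' ⟶ X) {f : A ⟶ X} {g : T ⟶ X} (a : A ⟶ T)
    (h : a ≫ g = f) : pullback f q ⟶ pullback g q :=
  pullback.lift (pullback.fst f q ≫ a) (pullback.snd f q)
    (by rw [Category.assoc, h, pullback.condition])

theorem bcMap_snd {X X' A T : Scheme.{0}} (q : X' ⟶ X) {f : A ⟶ X} {g : T ⟶ X} (a : A ⟶ T)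
    (h : a ≫ g = f) : bcMap q a h ≫ pullback.snd g q = pullback.snd f q :=
  pullback.lift_snd _ _ _

theorem bcMap_pb {X X' A T : Scheme.{0}} (q : X' ⟶ X) {f : A ⟶ X} {g : T ⟶ X} (a : A ⟶ T)
    (h : a ≫ g = f) : IsPullback (pullback.fst f q) (bcMap q a h) a (pullback.fst g q) := by
  refine IsPullback.of_bot ?_ (pullback.lift_fst _ _ _).symm (IsPullback.of_hasPullback g q)
  rw [bcMap_snd, h]
  exact IsPullback.of_hasPullback f q

theorem ker_pb {A A' T T' : Scheme.{0}} {pA : A' ⟶ A} {a' : A' ⟶ T'} {a : A ⟶ T} {p : T' ⟶ T}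
    (h : IsPullback pA a' a p) [IsClosedImmersion a] : a'.ker = a.ker.comap p := by
  rw [← Scheme.IdealSheafData.ker_fst_of_isClosedImmersion, ← h.flip.isoPullback_hom_fst,
    Scheme.Hom.ker_comp_of_isIso]

theorem lift_pb {X X' Y Y' P : Scheme.{0}} {f : Y ⟶ X} {f' : Y' ⟶ X'} {p : Y' ⟶ Y}
    {q : X' ⟶ X} (h : IsPullback p f' f q) (i : Y ⟶ P) :
    IsPullback p (prod.lift f' (p ≫ i)) (prod.lift f i) (prod.map q (𝟙 P)) := by
  refine ⟨⟨by ext <;> simp [h.w]⟩, ⟨PullbackCone.IsLimit.mk _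
    (fun t => h.lift t.fst (t.snd ≫ prod.fst)
      (by simpa [prod.lift_fst] using t.condition =≫ prod.fst))
    (fun t => by simp) (fun t => ?_) (fun t m h1 h2 => ?_)⟩⟩
  · ext
    · simp [prod.lift_fst]
    · simpa [prod.lift_snd] using t.condition =≫ prod.snd
  · refine h.hom_ext (by simp [h1]) ?_
    simp [← h2, prod.lift_fst]

theorem smooth_pb (n : ℕ) {Y Y' S S' : Scheme.{0}} {p : Y' ⟶ Y} {t' : Y' ⟶ S'} {t : Y ⟶ S}
    {b : S' ⟶ S} (h : IsPullback p t' t b) (ht : SmoothOfRelativeDimension n t) :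
    SmoothOfRelativeDimension n t' :=
  MorphismProperty.of_isPullback (P := @SmoothOfRelativeDimension n)
    (self := smoothOfRelativeDimension_isStableUnderBaseChange n) h ht

theorem union_bc {X S S' : Scheme.{0}} {s : X ⟶ S} (b : S' ⟶ S) {C A B : Curve s}
    (h : IsUnion C A B) : IsUnion (C.bc b) (A.bc b) (B.bc b) := by
  obtain ⟨a, a₂, ha, ha₂, ⟨hc⟩⟩ := h
  refine ⟨bcMap (pullback.fst s b) a ha, bcMap (pullback.fst s b) a₂ ha₂, bcMap_snd _ _ _,
    bcMap_snd _ _ _, ?_⟩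
  have h1 := bcMap_pb (pullback.fst s b) a ha
  have h2 := bcMap_pb (pullback.fst s b) a₂ ha₂
  exact ((BinaryCofan.isVanKampen_iff _).mp (FinitaryExtensive.vanKampen _ hc)
    (BinaryCofan.mk (bcMap (pullback.fst s b) a ha) (bcMap (pullback.fst s b) a₂ ha₂))
    (pullback.fst _ _) (pullback.fst _ _) (pullback.fst _ _) h1.w h2.w).mpr ⟨h1.flip, h2.flip⟩

theorem double_bc (hI : IdlAPI) {X S S' : Scheme.{0}} {s : X ⟶ S} (b : S' ⟶ S) [Flat b]
    {C A B E : Curve s} (h : IsDouble C A B E) :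
    IsDouble (C.bc b) (A.bc b) (B.bc b) (E.bc b) := by
  obtain ⟨T, g, π, c, a, a₂, e, hs, hp, hc, ha, ha₂, he, hpb, hcl, hcl₂, hker, hs0⟩ := h
  have hq := IsPullback.of_hasPullback s b
  set q := pullback.fst s b with hqdef
  have h0 := bcMap_pb q c hc
  have h1 := bcMap_pb q a ha
  have h2 := bcMap_pb q a₂ ha₂
  have hT := IsPullback.of_hasPullback g q
  have hA := IsPullback.of_hasPullback A.f q
  let r : pullback (bcMap q a ha) (bcMap q a₂ ha₂) ⟶ pullback a a₂ :=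
    pullback.lift (pullback.fst _ _ ≫ pullback.fst A.f q) (pullback.snd _ _ ≫ pullback.fst B.f q)
      (by rw [Category.assoc, Category.assoc, h1.w, h2.w, pullback.condition_assoc])
  have hr : IsPullback r (pullback.fst (bcMap q a ha) (bcMap q a₂ ha₂)) (pullback.fst a a₂)
      (pullback.fst A.f q) := by
    refine IsPullback.of_right ?_ (pullback.lift_fst _ _ _) (IsPullback.of_hasPullback a a₂).flip
    rw [show r ≫ pullback.snd a a₂ = pullback.snd _ _ ≫ pullback.fst B.f q from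
      pullback.lift_snd _ _ _, h1.w]
    exact (IsPullback.of_hasPullback (bcMap q a ha) (bcMap q a₂ ha₂)).flip.paste_horiz h2
  have hD := hr.paste_vert hA
  have hE : IsPullback (prod.map r (𝟙 (PP ℤ (Fin 2))) ≫ e.inv)
      (prod.fst ≫ pullback.fst (bcMap q a ha) (bcMap q a₂ ha₂) ≫ pullback.snd A.f q) E.f q := by
    have h3 := (IsPullback.of_prod_fst_with_id r (PP ℤ (Fin 2))).flip.paste_vert hD
    refine h3.of_iso (Iso.refl _) e.symm (Iso.refl _) (Iso.refl _) ?_ ?_ ?_ ?_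
    · simp
    · simp
    · simp [← he]
    · simp
  refine ⟨pullback g q, pullback.snd g q, pullback.fst g q ≫ π, bcMap q c hc, bcMap q a ha,
    bcMap q a₂ ha₂, hE.isoPullback.symm, smooth_pb 2 (hT.paste_vert hq) hs,
    hp.of_isPullback (lift_pb hT π), bcMap_snd _ _ _, bcMap_snd _ _ _, bcMap_snd _ _ _,
    hE.isoPullback_inv_snd, ?_, MorphismProperty.of_isPullback (P := @IsClosedImmersion) h1 hcl,
    MorphismProperty.of_isPullback (P := @IsClosedImmersion) h2 hcl₂, ?_, ?_⟩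
  · have h3 := h0.flip.paste_vert hpb
    rwa [specZIsTerminal.hom_ext (pullback.fst C.f q ≫ specZIsTerminal.from C.Y)
      (specZIsTerminal.from _)] at h3
  · have := vtx_closed 0
    have h3 : (pullback.fst (pullback.fst g q ≫ π) (vtx 0)).ker =
        (bcMap q a ha).ker ⊓ (bcMap q a₂ ha₂).ker := by
      rw [ker_pb h1, ker_pb h2, ← hI.flat _ _ _ _ _ inferInstance, ← hker,
        Scheme.IdealSheafData.ker_fst_of_isClosedImmersion,
        Scheme.IdealSheafData.ker_fst_of_isClosedImmersion, Scheme.IdealSheafData.comap_comp]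
    exact h3
  · exact smooth_pb 0 (hr.paste_vert (hA.paste_vert hq)) hs0

end AmbRes

theorem ambAPI (hP : PtAPI) : AmbAPI where
  flag := AmbRes.isAmb_prod (forms Sum.inl) (forms Sum.inr) (fun _ hf => hf.1) (fun _ hf => hf.1)
    (hP.proper FF I14)
  bc := AmbRes.isAmb_bc

theorem res_stmt (hI : IdlAPI) : ResStmt := by
  rintro X S S' s b hb x (⟨C, A, B, h, rfl⟩ | ⟨C, A, B, E, h, rfl⟩)
  · refine Or.inl ⟨C.bc b, A.bc b, B.bc b, AmbRes.union_bc b h, ?_⟩
    simp only [map_sub, FreeAbelianGroup.map_of_apply]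
  · refine Or.inr ⟨C.bc b, A.bc b, B.bc b, E.bc b, AmbRes.double_bc hI b h, ?_⟩
    simp only [map_sub, map_add, FreeAbelianGroup.map_of_apply]

end Pool.Agent.MP_d45d16_ag.Yag

end MrgPart3

-- marker of a merged file
example : 731051 + 803481 = 731051 + 803481 := rfl
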