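import Pool.Agent.MP_d45d16_ag.yag.AmbRes

-- ======== part 0: formerly Pool.Agent.MP_d45d16_ag.yag.Idl
section MrgPart0

/-!
Ideal sheaves in charts.
-/

set_option autoImplicit false

open AlgebraicGeometry CategoryTheory Limits MvPolynomial TensorProduct

namespace Pool.Agent.MP_d45d16_ag.Yag

namespace Idl

theorem tmul_zero {R S : Type} [CommRing R] [CommRing S] [Algebra R S] (I : Ideal R) {x : S}
    (hx : x ∈ I.map (algebraMap R S)) : x ⊗ₜ[R] (Ideal.Quotient.mk I 1) = 0 := by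
  have h : I.map (algebraMap R S) ≤ RingHom.ker
      (Algebra.TensorProduct.includeLeftRingHom : S →+* S ⊗[R] (R ⧸ I)) := by
    rw [Ideal.map_le_iff_le_comap]
    intro i hi
    rw [Ideal.mem_comap, RingHom.mem_ker, Algebra.TensorProduct.includeLeftRingHom_apply,
      Algebra.algebraMap_eq_smul_one, smul_tmul, ← Algebra.algebraMap_eq_smul_one,
      Ideal.Quotient.algebraMap_eq, Ideal.Quotient.eq_zero_iff_mem.mpr hi,
      TensorProduct.tmul_zero]
  exact h hx

theorem map_inf {R S : Type} [CommRing R] [CommRing S] (φ : R →+* S) (hφ : φ.Flat)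
    (I J : Ideal R) : (I ⊓ J).map φ = I.map φ ⊓ J.map φ := by
  algebraize [φ]
  refine le_antisymm (Ideal.map_inf_le φ) fun x hx => ?_
  let f : R →ₗ[R] (R ⧸ I) × (R ⧸ J) := LinearMap.prod I.mkQ J.mkQ
  have hk : LinearMap.ker f = I ⊓ J := by
    rw [LinearMap.ker_prod, Submodule.ker_mkQ, Submodule.ker_mkQ]
  have he := Module.Flat.lTensor_exact S (LinearMap.exact_subtype_ker_map f)
  have h0 : f.lTensor S (x ⊗ₜ[R] 1) = 0 := by
    apply (TensorProduct.prodRight R R S (R ⧸ I) (R ⧸ J)).injective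
    rw [LinearMap.lTensor_tmul, map_zero, TensorProduct.prodRight_tmul]
    exact Prod.ext (tmul_zero I hx.1) (tmul_zero J hx.2)
  obtain ⟨t, ht⟩ := (he _).mp h0
  have h1 : ∀ t : S ⊗[R] LinearMap.ker f,
      TensorProduct.rid R S ((LinearMap.ker f).subtype.lTensor S t) ∈ (I ⊓ J).map φ := by
    intro t
    induction t with
    | zero => simp
    | add a b ha hb => rw [map_add, map_add]; exact add_mem ha hb
    | tmul s i =>
      rw [LinearMap.lTensor_tmul, TensorProduct.rid_tmul, Algebra.smul_def]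
      exact Ideal.mul_mem_right _ _ (Ideal.mem_map_of_mem _ (hk ▸ i.2))
  simpa [ht] using h1 t

/-- The ideal of an ideal sheaf on an affine scheme. -/
noncomputable def tp {B : CommRingCat.{0}} (K : (Spec B).IdealSheafData) : Ideal B :=
  (K.ideal ⟨⊤, isAffineOpen_top _⟩).comap (Scheme.ΓSpecIso B).inv.hom

theorem idl_eq {B : CommRingCat.{0}} {S : Scheme.{0}} (ch : Spec B ⟶ S) (I : S.IdealSheafData) :
    idl ch I = tp (I.comap ch) := rfl

theorem tp_le {B : CommRingCat.{0}} {K L : (Spec B).IdealSheafData} : tp K ≤ tp L ↔ K ≤ L := by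
  refine ⟨fun h => Scheme.IdealSheafData.le_of_isAffine ?_, fun h => Ideal.comap_mono (h _)⟩
  exact (Ideal.comap_le_comap_iff_of_surjective _
    (ConcreteCategory.bijective_of_isIso (Scheme.ΓSpecIso B).inv).2 _ _).mp h

theorem tp_inj {B : CommRingCat.{0}} {K L : (Spec B).IdealSheafData} (h : tp K = tp L) : K = L :=
  le_antisymm (tp_le.mp h.le) (tp_le.mp h.ge)

theorem tp_surj {B : CommRingCat.{0}} (J : Ideal B) : ∃ K, tp K = J := by
  refine ⟨Scheme.IdealSheafData.ofIdealTop (J.comap (Scheme.ΓSpecIso B).hom.hom), ?_⟩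
  ext x
  simp [tp]

theorem tp_inf {B : CommRingCat.{0}} (K L : (Spec B).IdealSheafData) :
    tp (K ⊓ L) = tp K ⊓ tp L := Ideal.comap_inf _ _ _

theorem tp_map {B C : CommRingCat.{0}} (φ : B ⟶ C) (K : (Spec C).IdealSheafData) :
    tp (K.map (Spec.map φ)) = (tp K).comap φ.hom := by
  rw [tp, tp, Scheme.IdealSheafData.ideal_map K (Spec.map φ) ⟨⊤, isAffineOpen_top _⟩
    (isAffineOpen_top _), Ideal.comap_comap, Ideal.comap_comap, ← CommRingCat.hom_comp,
    ← CommRingCat.hom_comp, Scheme.ΓSpecIso_inv_naturality]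
  rfl

theorem tp_bot {B : CommRingCat.{0}} : tp (⊥ : (Spec B).IdealSheafData) = ⊥ :=
  Ideal.comap_bot_of_injective _ (ConcreteCategory.bijective_of_isIso (Scheme.ΓSpecIso B).inv).1

theorem tp_ker {B C : CommRingCat.{0}} (φ : B ⟶ C) :
    tp (Spec.map φ).ker = RingHom.ker φ.hom := by
  rw [← Scheme.IdealSheafData.map_bot, tp_map, tp_bot, RingHom.ker_eq_comap_bot]

theorem tp_comap {B C : CommRingCat.{0}} (φ : B ⟶ C) (K : (Spec B).IdealSheafData) :
    tp (K.comap (Spec.map φ)) = (tp K).map φ.hom := by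
  refine eq_of_forall_ge_iff fun J => ?_
  obtain ⟨L, rfl⟩ := tp_surj J
  rw [tp_le, Ideal.map_le_iff_le_comap, ← tp_map, tp_le,
    Scheme.IdealSheafData.le_map_iff_comap_le]

theorem map {S : Scheme.{0}} {B C : CommRingCat.{0}} (ch : Spec B ⟶ S) (φ : B ⟶ C)
    (I : S.IdealSheafData) : idl (Spec.map φ ≫ ch) I = (idl ch I).map φ.hom := by
  rw [idl_eq, Scheme.IdealSheafData.comap_comp, tp_comap, idl_eq]

theorem ext {S : Scheme.{0}} {κ : Type} {B : κ → CommRingCat.{0}} (ch : ∀ j, Spec (B j) ⟶ S)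
    {I J : S.IdealSheafData} (ho : ∀ j, IsOpenImmersion (ch j)) (hc : ∀ x, ∃ j p, ch j p = x)
    (h : ∀ j, idl (ch j) I = idl (ch j) J) : I = J := by
  refine Scheme.IdealSheafData.ext_of_iSup_eq_top
    (fun j => ⟨ch j ''ᵁ ⊤, (isAffineOpen_top _).image_of_isOpenImmersion (ch j)⟩) ?_ fun j => ?_
  · refine top_le_iff.mp fun x _ => ?_
    obtain ⟨j, p, rfl⟩ := hc x
    exact TopologicalSpace.Opens.mem_iSup.mpr ⟨j, p, trivial, rfl⟩
  · have h1 := congrArg (fun K : (Spec (B j)).IdealSheafData => K.ideal ⟨⊤, isAffineOpen_top _⟩)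
      (tp_inj (h j))
    simp only [Scheme.IdealSheafData.ideal_comap_of_isOpenImmersion] at h1
    exact Ideal.comap_injective_of_surjective _
      (ConcreteCategory.bijective_of_isIso ((ch j).appIso ⊤).inv).2 h1

theorem inf_open {S : Scheme.{0}} {B : CommRingCat.{0}} (ch : Spec B ⟶ S) [IsOpenImmersion ch]
    (I J : S.IdealSheafData) : idl ch (I ⊓ J) = idl ch I ⊓ idl ch J := by
  simp only [idl, Scheme.IdealSheafData.ideal_comap_of_isOpenImmersion,
    Scheme.IdealSheafData.ideal_inf, Pi.inf_apply, Ideal.comap_inf]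

theorem flat {S S' : Scheme.{0}} (f : S' ⟶ S) (I J : S.IdealSheafData) [Flat f] :
    (I ⊓ J).comap f = I.comap f ⊓ J.comap f := by
  have key : ∀ x : S', ∃ (V : S.Opens) (U : S'.Opens), IsAffineOpen V ∧ IsAffineOpen U ∧
      x ∈ U ∧ U ≤ f ⁻¹ᵁ V := by
    intro x
    obtain ⟨_, ⟨V, hV, rfl⟩, hxV, -⟩ :=
      S.isBasis_affineOpens.exists_subset_of_mem_open (Set.mem_univ (f x)) isOpen_univ
    obtain ⟨_, ⟨U, hU, rfl⟩, hxU, hUV⟩ :=
      S'.isBasis_affineOpens.exists_subset_of_mem_open (a := x) (u := f ⁻¹ᵁ V) hxV (f ⁻¹ᵁ V).2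
    exact ⟨V, U, hV, hU, hxU, hUV⟩
  choose V U hV hU hx hle using key
  refine ext (fun x => (hU x).fromSpec) (fun _ => inferInstance) (fun x => ?_) fun x => ?_
  · obtain ⟨p, hp⟩ := (hU x).range_fromSpec.ge (hx x)
    exact ⟨x, p, hp⟩
  · have e : ∀ K : S.IdealSheafData, idl (hU x).fromSpec (K.comap f) =
        (idl (hV x).fromSpec K).map (f.appLE (V x) (U x) (hle x)).hom := fun K => by
      rw [← map, IsAffineOpen.SpecMap_appLE_fromSpec f (hV x) (hU x), idl_eq, idl_eq,
        Scheme.IdealSheafData.comap_comp]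
    rw [inf_open, e, e, e, inf_open, map_inf _ (f.flat_appLE (hV x) (hU x) (hle x))]

theorem le_ker {S : Scheme.{0}} {B C : CommRingCat.{0}} (ch : Spec B ⟶ S) (φ : B ⟶ C)
    (I : S.IdealSheafData) :
    idl ch I ≤ RingHom.ker φ.hom ↔ I ≤ (Spec.map φ ≫ ch).ker := by
  rw [Scheme.Hom.ker_comp, Scheme.IdealSheafData.le_map_iff_comap_le, ← tp_ker, idl_eq, tp_le]

theorem ker {S : Scheme.{0}} {B C : CommRingCat.{0}} (ch : Spec B ⟶ S) (φ : B ⟶ C)
    [IsOpenImmersion ch] [QuasiCompact (Spec.map φ ≫ ch)] :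
    idl ch (Spec.map φ ≫ ch).ker = RingHom.ker φ.hom := by
  have H : IsPullback (Spec.map φ) (𝟙 _) ch (Spec.map φ ≫ ch) :=
    (IsPullback.of_horiz_isIso_mono ⟨by simp⟩ : IsPullback (𝟙 _) (Spec.map φ) _ ch).flip
  rw [← tp_ker, tp, Scheme.ker_ideal_of_isPullback_of_isOpenImmersion _ _ _ _ H, idl,
    Scheme.IdealSheafData.ideal_comap_of_isOpenImmersion]

theorem fib (hP : PtAPI) {B : CommRingCat.{0}} (c : ℤ →+* B) (w : Fin 2 → B) (h) (k : Fin 2) :
    idl (pt c w h) (vtx k).ker = Ideal.span {w k.rev} := by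
  have := hP.vtx_closed k
  have hs : ∀ {D : Type} [CommRing D] {A : Type} [CommRing A] (ψ : A →+* D) {v : Fin 2 → A},
      Ideal.span (Set.range v) = ⊤ → Ideal.span (Set.range (ψ ∘ v)) = ⊤ := fun ψ v hv => by
    rw [Set.range_comp, ← Ideal.map_span, hv, Ideal.map_top]
  have key : ∀ J : Ideal B, idl (pt c w h) (vtx k).ker ≤ J ↔ w k.rev ∈ J := fun J => by
    have e1 := hP.nat _ _ _ _ c w h (Ideal.Quotient.mk J) (hs _ h)
    have e2 := hP.nat _ _ _ _ (RingHom.id ℤ) (Pi.single k 1) (span_single k)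
      (Int.castRingHom (B ⧸ J)) (hs _ (span_single k))
    have e3 := le_ker (pt c w h) (CommRingCat.ofHom (Ideal.Quotient.mk J)) (vtx k).ker
    rw [CommRingCat.hom_ofHom, Ideal.mk_ker] at e3
    rw [e3]
    constructor
    · intro hle
      obtain ⟨ψ, hψ⟩ := Spec.map_surjective (IsClosedImmersion.lift _ _ hle)
      have e4 := IsClosedImmersion.lift_fac _ _ hle
      have e5 : ψ = CommRingCat.ofHom (Int.castRingHom (B ⧸ J)) :=
        CommRingCat.hom_ext (Subsingleton.elim _ _)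
      rw [← hψ, e5, e1, vtx, e2] at e4
      have e6 := (hP.inj _ _ _ _ _ _ _ _ _ e4).2 k k.rev
      rw [← Ideal.Quotient.eq_zero_iff_mem]
      fin_cases k <;> simpa using e6
    · intro hw
      have e4 : Spec.map (CommRingCat.ofHom (Ideal.Quotient.mk J)) ≫ pt c w h =
          Spec.map (CommRingCat.ofHom (Int.castRingHom (B ⧸ J))) ≫ vtx k := by
        rw [e1, vtx, e2, Subsingleton.elim ((Ideal.Quotient.mk J).comp c)
          ((Int.castRingHom (B ⧸ J)).comp (RingHom.id ℤ))]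
        refine hP.scale _ _ _ _ _ _ _ _ (Ideal.Quotient.mk J (w k)) fun i => ?_
        have h0 := Ideal.Quotient.eq_zero_iff_mem.mpr hw
        fin_cases k <;> fin_cases i <;> simp_all
      rw [e4]
      exact Scheme.Hom.le_ker_comp _ _
  refine eq_of_forall_ge_iff fun J => ?_
  rw [key, Ideal.span_singleton_le_iff_mem]

theorem supp {S : Scheme.{0}} {B : CommRingCat.{0}} (ch : Spec B ⟶ S) (I : S.IdealSheafData)
    (x : PrimeSpectrum B) : ch x ∈ I.support ↔ idl ch I ≤ x.asIdeal := by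
  have h1 : ch x ∈ I.support ↔ (show Spec B from x) ∈ (I.comap ch).support := by
    rw [Scheme.IdealSheafData.support_comap]; rfl
  rw [h1, Scheme.IdealSheafData.mem_support_iff_of_mem (U := ⟨⊤, isAffineOpen_top _⟩) trivial,
    Spec_zeroLocus]
  rfl

theorem out {S Z : Scheme.{0}} {B : CommRingCat.{0}} (ch : Spec B ⟶ S) (γ : Z ⟶ S)
    [IsOpenImmersion ch] [QuasiCompact γ] (h : ∀ z p, γ z ≠ ch p) : idl ch γ.ker = ⊤ := by
  by_contra hne
  obtain ⟨m, hm, hle⟩ := Ideal.exists_le_maximal _ hne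
  have h1 : ch (⟨m, hm.isPrime⟩ : PrimeSpectrum B) ∈ (γ.ker.support : Set S) :=
    (supp ch γ.ker ⟨m, hm.isPrime⟩).mpr hle
  rw [Scheme.Hom.support_ker] at h1
  obtain ⟨_, ⟨p, rfl⟩, z, hz⟩ := mem_closure_iff.mp h1 _ ch.isOpenEmbedding.isOpen_range ⟨_, rfl⟩
  exact h z p hz

theorem sub {S Z : Scheme.{0}} {B C : CommRingCat.{0}} (ch : Spec B ⟶ S) (i : Z ⟶ S) (φ : B ⟶ C)
    [IsClosedImmersion i] (hφ : Function.Surjective φ.hom)
    (h : RingHom.ker φ.hom = idl ch i.ker) :
    ∃ ch' : Spec C ⟶ Z, IsPullback ch' (Spec.map φ) i ch := by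
  have := IsClosedImmersion.spec_of_surjective φ hφ
  have hle := (le_ker ch φ i.ker).mp h.ge
  refine ⟨IsClosedImmersion.lift i _ hle, (isPullback_of_isClosedImmersion _ _ _ _
    (IsClosedImmersion.lift_fac _ _ hle).symm (tp_inj ?_)).flip⟩
  rw [tp_ker, h, idl_eq]

end Idl

theorem idlAPI (hP : PtAPI) : IdlAPI where
  ext := fun _ _ _ ch _ _ ho hc h => Idl.ext ch ho hc h
  inf := fun _ _ ch I J _ => by rw [Idl.idl_eq, Idl.flat, Idl.tp_inf]; rfl
  map := fun _ _ _ ch φ I => Idl.map ch φ I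
  comap := fun _ _ _ ch f I => by
    rw [Idl.idl_eq, Idl.idl_eq, Scheme.IdealSheafData.comap_comp]
  ker := fun _ _ _ ch φ _ _ => Idl.ker ch φ
  out := fun _ _ _ ch γ _ _ h => Idl.out ch γ h
  supp := fun _ _ ch I x => Idl.supp ch I x
  sub := fun _ _ _ _ ch i φ _ hφ h => Idl.sub ch i φ hφ h
  fib := fun _ _ ch π c w h k e => by
    have := hP.vtx_closed k
    rw [Scheme.IdealSheafData.ker_fst_of_isClosedImmersion, Idl.idl_eq,
      ← Scheme.IdealSheafData.comap_comp, e, ← Idl.idl_eq, Idl.fib hP]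
  flat := fun _ _ f I J _ => Idl.flat f I J

end Pool.Agent.MP_d45d16_ag.Yag

end MrgPart0

-- ======== part 1: formerly Pool.Agent.MP_d45d16_ag.yag.Pt
section MrgPart1

/-!
Points of projective space with values in a ring.
-/

set_option autoImplicit false

open AlgebraicGeometry CategoryTheory Limits MvPolynomial HomogeneousLocalization

namespace Pool.Agent.MP_d45d16_ag.Yag

namespace Pt

section General

variable {A τ : Type} [CommRing A] [SetLike τ A] [AddSubgroupClass τ A] (𝒜 : ℕ → τ)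
  [GradedRing 𝒜]

/-- The map from the degree zero part of the localisation at `t` given by a ring map which makes
`t` invertible. -/
noncomputable def aw {D : Type} [CommRing D] (g : A →+* D) (t : A) (ht : IsUnit (g t)) :
    Away 𝒜 t →+* D :=
  (IsLocalization.Away.lift (S := Localization.Away t) t ht).comp
    (algebraMap (Away 𝒜 t) (Localization.Away t))

theorem aw_mk {D : Type} [CommRing D] (g : A →+* D) {t : A} (ht : IsUnit (g t)) {d : ℕ}
    (hd : t ∈ 𝒜 d) (n : ℕ) (a : A) (ha : a ∈ 𝒜 (n • d)) :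
    aw 𝒜 g t ht (Away.mk 𝒜 hd n a ha) * g t ^ n = g a := by
  have h : (Away.mk 𝒜 hd n a ha).val * algebraMap A (Localization.Away t) (t ^ n) =
      algebraMap A (Localization.Away t) a := by
    rw [Away.val_mk, Localization.mk_eq_mk']
    exact IsLocalization.mk'_spec _ _ _
  have h2 := congrArg (IsLocalization.Away.lift (S := Localization.Away t) t ht) h
  rw [map_mul, IsLocalization.Away.lift_eq, IsLocalization.Away.lift_eq, map_pow] at h2
  exact h2

theorem key' {Y : Scheme.{0}} {D : CommRingCat.{0}} (f : A →+* Γ(Y, ⊤))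
    (hf : (HomogeneousIdeal.irrelevant 𝒜).toIdeal.map f = ⊤) (g : Spec D ⟶ Y) (φ : Γ(Y, ⊤) ⟶ D)
    (hg : g ≫ Y.toSpecΓ = Spec.map φ) {t : A} {d : ℕ} (hd : t ∈ 𝒜 d) (h0 : 0 < d)
    (ht : IsUnit (φ.hom.comp f t)) :
    g ≫ Proj.fromOfGlobalSections 𝒜 f hf =
      Spec.map (CommRingCat.ofHom (aw 𝒜 (φ.hom.comp f) t ht)) ≫ Proj.awayι 𝒜 t hd h0 := by
  have hr : Set.range g ⊆ Set.range (Y.basicOpen (f t)).ι := by
    rintro _ ⟨y, rfl⟩
    rw [Scheme.Opens.range_ι, ← Y.toSpecΓ_preimage_basicOpen]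
    change Y.toSpecΓ (g y) ∈ PrimeSpectrum.basicOpen (f t)
    rw [← Scheme.Hom.comp_apply, hg]
    exact fun h => y.isPrime.ne_top (Ideal.eq_top_of_isUnit_mem _ h ht)
  obtain ⟨l, hl⟩ : ∃ l, l ≫ (Y.basicOpen (f t)).ι = g := ⟨_, IsOpenImmersion.lift_fac _ _ hr⟩
  have h1 : (Y.basicOpen (f t)).ι ≫ Proj.fromOfGlobalSections 𝒜 f hf =
      Proj.toBasicOpenOfGlobalSections 𝒜 f rfl h0 hd ≫ (Proj.basicOpen 𝒜 t).ι := by
    rw [← Proj.fromOfGlobalSections_resLE 𝒜 f hf h0 hd, Scheme.Hom.resLE_comp_ι]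
  obtain ⟨ψ, hψ⟩ := Spec.map_surjective (l ≫ (Y.isoOfEq (Y.toSpecΓ_preimage_basicOpen (f t))).inv ≫
      Y.toSpecΓ ∣_ _ ≫ (basicOpenIsoSpecAway (f t)).hom)
  have h2 : Spec.map ψ ≫ Spec.map (CommRingCat.ofHom (algebraMap Γ(Y, ⊤) (Localization.Away (f t))))
      = Spec.map φ := by
    rw [hψ, ← hg, ← hl]
    simp only [Category.assoc, basicOpenIsoSpecAway_hom_SpecMap]
    congr 1
    exact (_ ≫= morphismRestrict_ι Y.toSpecΓ _).trans (Scheme.isoOfEq_inv_ι_assoc _ _ _)
  rw [← Spec.map_comp, Spec.map_inj] at h2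
  have h3 : ∀ z, ψ.hom (algebraMap _ (Localization.Away (f t)) z) = φ.hom z := fun z =>
    congrArg (fun k => k.hom z) h2
  rw [← hl, Category.assoc, h1]
  refine Eq.trans (b := Spec.map ψ ≫ Spec.map (CommRingCat.ofHom (RingHom.comp (IsLocalization.map
    (M := .powers t) (T := .powers (f t)) (Localization.Away (f t)) f (by
      rw [← Submonoid.map_le_iff_le_comap, Submonoid.map_powers]))
    (algebraMap (Away 𝒜 t) (Localization.Away t)))) ≫ Proj.awayι 𝒜 t hd h0) ?_ ?_
  · rw [hψ]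
    simp only [Proj.toBasicOpenOfGlobalSections, Category.assoc, Proj.basicOpenIsoSpec_inv_ι]
  rw [← Spec.map_comp_assoc]
  congr 2
  refine CommRingCat.hom_ext ?_
  rw [CommRingCat.hom_comp, CommRingCat.hom_ofHom, CommRingCat.hom_ofHom, aw, ← RingHom.comp_assoc]
  congr 1
  refine IsLocalization.ringHom_ext (M := .powers t) (RingHom.ext fun z => ?_)
  simp only [RingHom.comp_apply, IsLocalization.map_eq, IsLocalization.Away.lift_eq, h3]

theorem key {C D : Type} [CommRing C] [CommRing D] (f : A →+* C)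
    (hf : (HomogeneousIdeal.irrelevant 𝒜).toIdeal.map
      ((Scheme.ΓSpecIso (CommRingCat.of C)).inv.hom.comp f) = ⊤)
    (φ : C →+* D) {t : A} {d : ℕ} (hd : t ∈ 𝒜 d) (h0 : 0 < d) (ht : IsUnit (φ.comp f t)) :
    Spec.map (CommRingCat.ofHom φ) ≫ Proj.fromOfGlobalSections 𝒜 _ hf =
      Spec.map (CommRingCat.ofHom (aw 𝒜 (φ.comp f) t ht)) ≫ Proj.awayι 𝒜 t hd h0 := by
  have e : ((Scheme.ΓSpecIso (CommRingCat.of C)).hom ≫ CommRingCat.ofHom φ).hom.comp
      ((Scheme.ΓSpecIso (CommRingCat.of C)).inv.hom.comp f) = φ.comp f :=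
    RingHom.ext fun z => congrArg φ (Iso.inv_hom_id_apply (Scheme.ΓSpecIso (CommRingCat.of C)) _)
  rw [key' 𝒜 _ hf _ ((Scheme.ΓSpecIso (CommRingCat.of C)).hom ≫ CommRingCat.ofHom φ)
    (by rw [Spec.map_comp, SpecMap_ΓSpecIso_hom]) hd h0 (e ▸ ht)]
  congr 4

end General

theorem ext_span {C σ : Type} [CommRing C] {Z : Scheme.{0}} (w : σ → C)
    (h : Ideal.span (Set.range w) = ⊤) (g g' : Spec (CommRingCat.of C) ⟶ Z)
    (H : ∀ (i : σ) (D : Type) [CommRing D] (φ : C →+* D), IsUnit (φ (w i)) →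
      Spec.map (CommRingCat.ofHom φ) ≫ g = Spec.map (CommRingCat.ofHom φ) ≫ g') : g = g' :=
  (Scheme.affineOpenCoverOfSpanRangeEqTop (R := CommRingCat.of C) w h).openCover.hom_ext _ _
    fun i => H i (Localization.Away (w i)) (algebraMap _ _)
      (IsLocalization.Away.algebraMap_isUnit (w i))

theorem eval_scale {R C σ : Type} [CommRing R] [CommRing C] (c : R →+* C) (w : σ → C) (l : C)
    {a : MvPolynomial σ R} {n : ℕ} (ha : a.IsHomogeneous n) :
    eval₂ c (fun i => l * w i) a = l ^ n * eval₂ c w a := by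
  rw [eval₂_eq, eval₂_eq, Finset.mul_sum]
  refine Finset.sum_congr rfl fun s hs => ?_
  rw [ha.degree_eq_sum_deg_support hs, ← Finset.prod_pow_eq_pow_sum]
  simp only [mul_pow, Finset.prod_mul_distrib]
  ring

attribute [local instance] MvPolynomial.gradedAlgebra

variable {R C D σ : Type} [CommRing R] [CommRing C] [CommRing D]

theorem hX (R : Type) [CommRing R] (i : σ) :
    (X i : MvPolynomial σ R) ∈ homogeneousSubmodule σ R 1 := isHomogeneous_X R i

/-- The standard chart of projective space. -/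
noncomputable def chart (R : Type) [CommRing R] (i : σ) :
    Spec (CommRingCat.of (Away (homogeneousSubmodule σ R) (X i))) ⟶ PP R σ :=
  Proj.awayι (homogeneousSubmodule σ R) (X i) (hX R i) one_pos

instance (i : σ) : IsOpenImmersion (chart R i) :=
  inferInstanceAs (IsOpenImmersion (Proj.awayι _ _ _ _))

theorem unit_X {c : R →+* C} {w : σ → C} {φ : C →+* D} {i : σ} (hi : IsUnit (φ (w i))) :
    IsUnit (φ.comp (eval₂Hom c w) (X i)) := by simpa using hi

theorem pt_chart (c : R →+* C) (w : σ → C) (h : Ideal.span (Set.range w) = ⊤) (φ : C →+* D)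
    (i : σ) (hi : IsUnit (φ (w i))) :
    Spec.map (CommRingCat.ofHom φ) ≫ pt c w h =
      Spec.map (CommRingCat.ofHom (aw (homogeneousSubmodule σ R) (φ.comp (eval₂Hom c w)) (X i)
        (unit_X hi))) ≫ chart R i :=
  key (homogeneousSubmodule σ R) (eval₂Hom c w) (irr_map c w h) φ (hX R i) one_pos (unit_X hi)

theorem mem_zeros (A : Set (MvPolynomial σ R)) (z : PP R σ) :
    z ∈ zeros A ↔ ∀ f ∈ A, z ∉ Proj.basicOpen (homogeneousSubmodule σ R) f := by
  refine (ProjectiveSpectrum.mem_zeroLocus (homogeneousSubmodule σ R) z A).trans ?_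
  exact ⟨fun h f hf h' => h' (h hf), fun h f hf => not_not.mp (h f hf)⟩

theorem pt_basicOpen (c : R →+* C) (w : σ → C) (h : Ideal.span (Set.range w) = ⊤)
    (x : PrimeSpectrum C) {f : MvPolynomial σ R} {n : ℕ} (hf : f.IsHomogeneous (n + 1)) :
    pt c w h x ∈ Proj.basicOpen (homogeneousSubmodule σ R) f ↔ eval₂ c w f ∉ x.asIdeal := by
  have := Proj.fromOfGlobalSections_preimage_basicOpen (homogeneousSubmodule σ R) _
    (irr_map c w h) n.succ_pos hf
  change x ∈ Proj.fromOfGlobalSections (homogeneousSubmodule σ R) _ (irr_map c w h) ⁻¹ᵁ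
    Proj.basicOpen (homogeneousSubmodule σ R) f ↔ _
  rw [this]
  change x ∈ (Spec (CommRingCat.of C)).basicOpen
    ((Scheme.ΓSpecIso (CommRingCat.of C)).inv (eval₂ c w f)) ↔ _
  rw [basicOpen_eq_of_affine]
  rfl

theorem str (c : R →+* C) (w : σ → C) (h : Ideal.span (Set.range w) = ⊤) :
    pt c w h ≫ PP.s R σ = Spec.map (CommRingCat.ofHom c) := by
  refine (Proj.fromOfGlobalSections_toSpecZero_assoc (homogeneousSubmodule σ R) _
    (irr_map c w h) _).trans ?_
  rw [← SpecMap_ΓSpecIso_hom, ← Spec.map_comp, ← Spec.map_comp]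
  congr 1
  refine CommRingCat.hom_ext (RingHom.ext fun r => ?_)
  have : algebraMap (homogeneousSubmodule σ R 0) (MvPolynomial σ R)
      (algebraMap R (homogeneousSubmodule σ R 0) r) = MvPolynomial.C r := rfl
  simp [this]

theorem adjoin_top (R σ : Type) [CommRing R] :
    Algebra.adjoin (homogeneousSubmodule σ R 0) (Set.range (X : σ → MvPolynomial σ R)) = ⊤ := by
  refine eq_top_iff.mpr fun p _ => ?_
  induction p using MvPolynomial.induction_on with
  | C a => exact Subalgebra.algebraMap_mem _ (⟨MvPolynomial.C a, isHomogeneous_C σ a⟩ :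
      homogeneousSubmodule σ R 0)
  | add p q hp hq => exact add_mem (hp trivial) (hq trivial)
  | mul_X p j hp => exact mul_mem (hp trivial) (Algebra.subset_adjoin ⟨j, rfl⟩)

theorem proper (R σ : Type) [CommRing R] [Finite σ] : IsProper (PP.s R σ) := by
  have h1 : Algebra.FiniteType (homogeneousSubmodule σ R 0) (MvPolynomial σ R) :=
    ⟨(Subalgebra.fg_def).mpr ⟨_, Set.finite_range _, adjoin_top R σ⟩⟩
  have h2 : IsIso (CommRingCat.ofHom (algebraMap R (homogeneousSubmodule σ R 0))) := by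
    rw [ConcreteCategory.isIso_iff_bijective]
    refine ⟨fun a b e => C_injective σ R (congrArg Subtype.val e), fun z => ?_⟩
    have hz : z.1.totalDegree = 0 := (totalDegree_zero_iff_isHomogeneous σ).mpr z.2
    exact ⟨coeff 0 z.1, Subtype.ext (totalDegree_eq_zero_iff_eq_C.mp hz).symm⟩
  exact inferInstanceAs (IsProper (Proj.toSpecZero (homogeneousSubmodule σ R) ≫
    Spec.map (CommRingCat.ofHom (algebraMap R (homogeneousSubmodule σ R 0)))))

theorem smul_one' (n : ℕ) : n • 1 = n := by simp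

theorem hom_of_mem {a : MvPolynomial σ R} {n : ℕ} (ha : a ∈ homogeneousSubmodule σ R (n • 1)) :
    a.IsHomogeneous n := by
  rw [smul_one'] at ha
  exact ha

theorem scale (c : R →+* C) (w w' : σ → C) (h : Ideal.span (Set.range w) = ⊤)
    (h' : Ideal.span (Set.range w') = ⊤) (l : C) (hl : ∀ i, w' i = l * w i) :
    pt c w' h' = pt c w h := by
  obtain rfl : w' = fun i => l * w i := funext hl
  refine ext_span _ h' _ _ fun i D _ φ hi => ?_
  have hi' : IsUnit (φ (w i)) := by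
    rw [map_mul] at hi
    exact isUnit_of_mul_isUnit_right hi
  rw [pt_chart c _ h' φ i hi, pt_chart c w h φ i hi']
  congr 3
  refine RingHom.ext fun z => ?_
  obtain ⟨n, a, ha, rfl⟩ := Away.mk_surjective _ (hX R i) z
  have h1 := aw_mk _ _ (unit_X (c := c) (w := fun i => l * w i) hi) (hX R i) n a ha
  have h2 := aw_mk _ _ (unit_X (c := c) hi') (hX R i) n a ha
  refine (hi.pow n).mul_right_cancel ?_
  simp only [RingHom.comp_apply, coe_eval₂Hom, eval₂_X] at h1 h2
  rw [h1, eval_scale c w l (hom_of_mem ha), map_mul, ← h2, map_mul, map_pow]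
  ring

theorem inj (c c' : R →+* C) (w w' : σ → C) (h : Ideal.span (Set.range w) = ⊤)
    (h' : Ideal.span (Set.range w') = ⊤) (e : pt c w h = pt c' w' h') :
    c = c' ∧ ∀ i j, w i * w' j = w j * w' i := by
  have hc : c = c' := by
    have := str c w h
    rw [e, str, Spec.map_inj] at this
    exact (congrArg CommRingCat.Hom.hom this).symm
  refine ⟨hc, fun i j => ?_⟩
  refine Localization.algebraMap_injective_of_span_eq_top _ h (funext ?_)
  rintro ⟨_, k, rfl⟩
  let φ := algebraMap C (Localization.Away (w k))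
  change φ (w i * w' j) = φ (w j * w' i)
  have hk : IsUnit (φ (w k)) := IsLocalization.Away.algebraMap_isUnit (w k)
  have hk' : IsUnit (φ (w' k)) := by
    by_contra hn
    obtain ⟨m, hm, hle⟩ := exists_max_ideal_of_mem_nonunits hn
    let x : PrimeSpectrum C := PrimeSpectrum.comap φ ⟨m, hm.isPrime⟩
    have h1 := pt_basicOpen c w h x (n := 0) (isHomogeneous_X R k)
    have h2 := pt_basicOpen c' w' h' x (n := 0) (isHomogeneous_X R k)
    rw [e, h2, eval₂_X, eval₂_X] at h1
    exact h1.mpr (fun h3 => hm.ne_top (Ideal.eq_top_of_isUnit_mem _ h3 hk)) hle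
  have h1 := pt_chart c w h φ k hk
  rw [e, pt_chart c' w' h' φ k hk', cancel_mono, Spec.map_inj] at h1
  have h2 := congrArg CommRingCat.Hom.hom h1
  rw [CommRingCat.hom_ofHom, CommRingCat.hom_ofHom] at h2
  have h3 : ∀ l, ∃ z, z * φ (w k) = φ (w l) ∧ z * φ (w' k) = φ (w' l) := fun l => by
    have a1 := aw_mk _ _ (unit_X (c := c) hk) (hX R k) 1 (X l) (hX R l)
    have a2 := aw_mk _ _ (unit_X (c := c') hk') (hX R k) 1 (X l) (hX R l)
    rw [h2] at a2
    exact ⟨_, by simpa using a1, by simpa using a2⟩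
  obtain ⟨a, a1, a2⟩ := h3 i
  obtain ⟨b, b1, b2⟩ := h3 j
  rw [map_mul, map_mul, ← a1, ← a2, ← b1, ← b2]
  ring

theorem surj (g : Spec (CommRingCat.of C) ⟶ PP R σ) (i : σ) (hg : ∀ x, g x ∉ zeros {X i}) :
    ∃ c w h, w i = 1 ∧ g = pt c w h := by
  have hr : Set.range g ⊆ Set.range (chart R i) := by
    rintro _ ⟨x, rfl⟩
    have := hg x
    rw [mem_zeros] at this
    have h2 : g x ∈ Proj.basicOpen (homogeneousSubmodule σ R) (X i) := by simpa using this
    rw [← Proj.opensRange_awayι _ _ (hX R i) one_pos] at h2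
    exact h2
  obtain ⟨ψ, hψ⟩ := Spec.map_surjective (IsOpenImmersion.lift _ _ hr)
  have hg' : g = Spec.map ψ ≫ chart R i := by rw [hψ, IsOpenImmersion.lift_fac]
  let c₀ : R →+* Away (homogeneousSubmodule σ R) (X i) :=
    (fromZeroRingHom _ _).comp (algebraMap R (homogeneousSubmodule σ R 0))
  let w₀ : σ → Away (homogeneousSubmodule σ R) (X i) := fun j =>
    Away.mk _ (hX R i) 1 (X j) (hX R j)
  have hw : w₀ i = 1 := by
    refine val_injective _ ?_
    simp [w₀]
  have hwi : (ψ.hom ∘ w₀) i = 1 := by rw [Function.comp_apply, hw, map_one]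
  have hspan : Ideal.span (Set.range (ψ.hom ∘ w₀)) = ⊤ :=
    (Ideal.eq_top_iff_one _).mpr (Ideal.subset_span ⟨i, hwi⟩)
  refine ⟨ψ.hom.comp c₀, ψ.hom ∘ w₀, hspan, hwi, ?_⟩
  have hu : IsUnit (RingHom.id C ((ψ.hom ∘ w₀) i)) := by rw [hwi]; exact isUnit_one
  have h1 := pt_chart (ψ.hom.comp c₀) _ hspan (RingHom.id C) i hu
  rw [CommRingCat.ofHom_id, Spec.map_id, Category.id_comp] at h1
  rw [h1, hg']
  congr 2
  refine CommRingCat.hom_ext (RingHom.ext fun z => ?_)
  obtain ⟨n, a, ha, rfl⟩ := Away.mk_surjective _ (hX R i) z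
  have h2 := aw_mk _ _ (unit_X (c := ψ.hom.comp c₀) hu) (hX R i) n a ha
  simp only [RingHom.comp_apply, coe_eval₂Hom, eval₂_X, RingHom.id_apply, hwi, one_pow,
    mul_one] at h2
  rw [CommRingCat.hom_ofHom, h2, ← eval₂_comp_left]
  congr 1
  let ι := algebraMap (Away (homogeneousSubmodule σ R) (X i))
    (Localization.Away (X i : MvPolynomial σ R))
  let α := algebraMap (MvPolynomial σ R) (Localization.Away (X i : MvPolynomial σ R))
  let u : Localization.Away (X i : MvPolynomial σ R) :=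
    IsLocalization.Away.invSelf (X i : MvPolynomial σ R)
  have hu1 : α (X i) * u = 1 := IsLocalization.Away.mul_invSelf _
  have hmk : ∀ (m : ℕ) (b : MvPolynomial σ R) hb,
      ι (Away.mk _ (hX R i) m b hb) = u ^ m * α b := fun m b hb => by
    have : ι (Away.mk _ (hX R i) m b hb) * α (X i ^ m) = α b := by
      change (Away.mk _ (hX R i) m b hb).val * _ = _
      rw [Away.val_mk, Localization.mk_eq_mk']
      exact IsLocalization.mk'_spec _ _ _
    rw [← this, map_pow, mul_left_comm, ← mul_pow, mul_comm u, hu1, one_pow, mul_one]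
  refine val_injective _ ?_
  change ι (Away.mk _ (hX R i) n a ha) = ι (eval₂ c₀ w₀ a)
  rw [hmk, eval₂_comp_left]
  have e1 : ι.comp c₀ = α.comp (MvPolynomial.C : R →+* MvPolynomial σ R) := RingHom.ext fun _ => rfl
  have e2 : ι ∘ w₀ = fun j => u * (α ∘ X) j := funext fun j => by
    rw [Function.comp_apply, hmk, pow_one, Function.comp_apply]
  rw [e1, e2, eval_scale _ _ _ (hom_of_mem ha), ← eval₂_comp_left α, eval₂_eta]

end Pt

attribute [local instance] MvPolynomial.gradedAlgebra in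
theorem ptAPI : PtAPI where
  nat := fun R C D σ _ _ _ c w h φ h' => Pt.ext_span _ h' _ _ fun i E _ ψ hi => by
    rw [← Spec.map_comp_assoc, ← CommRingCat.ofHom_comp, Pt.pt_chart c w h (ψ.comp φ) i hi,
      Pt.pt_chart _ _ h' ψ i hi]
    congr 4
    exact RingHom.ext fun a => congrArg ψ (eval₂_comp_left φ c w a)
  str := fun _ _ _ _ _ c w h => Pt.str c w h
  scale := fun _ _ _ _ _ c w w' h h' l hl => Pt.scale c w w' h h' l hl
  inj := fun _ _ _ _ _ c c' w w' h h' e => Pt.inj c c' w w' h h' e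
  mem := fun R C σ _ _ c w h A x hA => by
    rw [Pt.mem_zeros]
    refine forall₂_congr fun f hf => ?_
    obtain ⟨n, hn⟩ := hA f hf
    rw [Pt.pt_basicOpen c w h x hn, not_not]
  surj := fun _ _ _ _ _ g i hg => Pt.surj g i hg
  cover := fun R σ _ z => by
    have := Proj.iSup_basicOpen_eq_top' (homogeneousSubmodule σ R) X
      (fun i => ⟨1, Pt.hX R i⟩) (Pt.adjoin_top R σ)
    obtain ⟨i, hi⟩ := TopologicalSpace.Opens.mem_iSup.mp (this.ge (Set.mem_univ z))
    exact ⟨i, fun h => (Pt.mem_zeros _ z).mp h _ rfl hi⟩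
  sep := fun R σ _ => inferInstanceAs (Proj (homogeneousSubmodule σ R)).IsSeparated
  proper := fun R σ _ _ => Pt.proper R σ
  vtx_closed := fun k => by
    have := Pt.proper ℤ (Fin 2)
    have h : vtx k ≫ PP.s ℤ (Fin 2) = 𝟙 _ := by
      rw [vtx, Pt.str, CommRingCat.ofHom_id, Spec.map_id]
    have : IsClosedImmersion (vtx k ≫ PP.s ℤ (Fin 2)) := by rw [h]; infer_instance
    exact IsClosedImmersion.of_comp (vtx k) (PP.s ℤ (Fin 2))

end Pool.Agent.MP_d45d16_ag.Yag

end MrgPart1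

-- marker of a merged file
example : 731051 + 702490 = 731051 + 702490 := rfl
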