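import Mathlib.Algebra.BigOperators.Field
import Mathlib.Tactic.Monotonicity.Lemmas
import Mathlib.Data.Int.Star
import Mathlib.RingTheory.PicardGroup
import Mathlib.AlgebraicGeometry.Morphisms.SchemeTheoreticallyDominant
import Mathlib.AlgebraicGeometry.Morphisms.WeaklyEtale
import Mathlib.FieldTheory.RatFunc.IntermediateField
import Mathlib.RingTheory.MvPolynomial.Ideal
import Pool.Agent.MP_d45d16_ag.yag.Pt
import Pool.Agent.MP_d45d16_ag.yag.AmbRes

-- ======== part 0: formerly Pool.Agent.MP_d45d16_ag.yag.Proj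
section MrgPart0

/-!
Projective morphisms and the projective line.
-/

set_option autoImplicit false

open AlgebraicGeometry CategoryTheory Limits MvPolynomial HomogeneousLocalization

namespace Pool.Agent.MP_d45d16_ag.Yag

namespace Prj

attribute [local instance] MvPolynomial.gradedAlgebra

variable {R A σ : Type} [CommRing R] [CommRing A]

theorem span_one {w : σ → A} {i : σ} (hi : w i = 1) : Ideal.span (Set.range w) = ⊤ :=
  (Ideal.eq_top_iff_one _).mpr (Ideal.subset_span ⟨i, hi⟩)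

theorem range_chart (i : σ) (z : PP R σ) :
    z ∈ Set.range (Pt.chart R i) ↔ z ∈ Proj.basicOpen (homogeneousSubmodule σ R) (X i) := by
  rw [← Proj.opensRange_awayι _ _ (Pt.hX R i) one_pos]
  rfl

/-- `A` is the free `R`-algebra on the coordinates `w j`, `j ≠ i`, and `w i = 1`. -/
structure Free (c : R →+* A) (w : σ → A) (i : σ) : Prop where
  one : w i = 1
  ex : ∀ (C : Type) [CommRing C] (c' : R →+* C) (w' : σ → C), w' i = 1 →
    ∃ φ : A →+* C, φ.comp c = c' ∧ φ ∘ w = w'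
  ext : ∀ φ : A →+* A, φ.comp c = c → φ ∘ w = w → φ = RingHom.id A

theorem Free.iso {c : R →+* A} {w : σ → A} {i : σ} (h : Free c w i) :
    ∃ e, IsIso e ∧ pt c w (span_one h.one) = e ≫ Pt.chart R i := by
  have hu : IsUnit (RingHom.id A (w i)) := by rw [h.one]; exact isUnit_one
  have h1 := Pt.pt_chart c w (span_one h.one) (RingHom.id A) i hu
  rw [CommRingCat.ofHom_id, Spec.map_id, Category.id_comp] at h1
  obtain ⟨α, hα⟩ : ∃ α : Away (homogeneousSubmodule σ R) (X i) →+* A,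
      pt c w (span_one h.one) = Spec.map (CommRingCat.ofHom α) ≫ Pt.chart R i := ⟨_, h1⟩
  obtain ⟨c', w', hs, hw', h2⟩ := Pt.surj (Pt.chart R i) i fun x hx =>
    (Pt.mem_zeros _ _).mp hx _ rfl ((range_chart i _).mp ⟨x, rfl⟩)
  obtain ⟨φ, rfl, rfl⟩ := h.ex _ c' w' hw'
  have h3 := ptAPI.nat _ _ _ _ c w (span_one h.one) φ hs
  rw [← h2] at h3
  refine ⟨_, ⟨Spec.map (CommRingCat.ofHom φ), ?_, ?_⟩, hα⟩
  · have h4 : ((α.comp φ) ∘ w) i = 1 := by rw [Function.comp_apply, h.one, map_one]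
    have h5 := ptAPI.nat _ _ _ _ c w (span_one h.one) (α.comp φ) (span_one h4)
    rw [CommRingCat.ofHom_comp, Spec.map_comp, Category.assoc, h3, ← hα] at h5
    obtain ⟨h6, h7⟩ := Pt.inj _ _ _ _ _ _ h5
    have h8 := h.ext (α.comp φ) h6.symm (funext fun j => by
      have := h7 i j
      rwa [h4, h.one, one_mul, mul_one] at this)
    rw [← Spec.map_comp, ← CommRingCat.ofHom_comp, h8, CommRingCat.ofHom_id, Spec.map_id]
  · rw [← cancel_mono (Pt.chart R i), Category.assoc, ← hα, h3, Category.id_comp]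

theorem Free.open {c : R →+* A} {w : σ → A} {i : σ} (h : Free c w i) :
    IsOpenImmersion (pt c w (span_one h.one)) := by
  obtain ⟨e, he, h1⟩ := h.iso
  rw [h1]
  infer_instance

theorem Free.range {c : R →+* A} {w : σ → A} {i : σ} (h : Free c w i) (z : PP R σ) :
    z ∈ Set.range (pt c w (span_one h.one)) ↔
      z ∈ Proj.basicOpen (homogeneousSubmodule σ R) (X i) := by
  obtain ⟨e, he, h1⟩ := h.iso
  rw [h1, ← range_chart, Scheme.Hom.comp_base, TopCat.coe_comp, Set.range_comp,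
    e.surjective.range_eq, Set.image_univ]

open Classical in
/-- The coordinates of the standard affine chart. -/
noncomputable def ww (R : Type) [CommRing R] (i : σ) : σ → MvPolynomial {j // j ≠ i} R :=
  fun j => if h : j = i then 1 else X ⟨j, h⟩

theorem ww_ne {i : σ} (j : {j // j ≠ i}) : ww R i j = X j := dif_neg j.2

theorem free_mv (R : Type) [CommRing R] (i : σ) : Free MvPolynomial.C (ww R i) i where
  one := dif_pos rfl
  ex := fun D _ c' w' h => ⟨eval₂Hom c' fun j => w' j, RingHom.ext fun r => by simp,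
    funext fun j => by
      by_cases hj : j = i
      · simp [ww, hj, h]
      · simp [ww, hj]⟩
  ext := fun φ h1 h2 => MvPolynomial.ringHom_ext (fun r => RingHom.congr_fun h1 r) fun j => by
    have := congrFun h2 j
    rwa [Function.comp_apply, ww_ne] at this

open Classical in
/-- The coordinates of the standard affine charts of the line. -/
noncomputable def wl (R : Type) [CommRing R] (i : Fin 2) : Fin 2 → Polynomial R :=
  fun j => if j = i then 1 else Polynomial.X

theorem free_poly (R : Type) [CommRing R] (i : Fin 2) : Free Polynomial.C (wl R i) i where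
  one := if_pos rfl
  ex := fun D _ c' w' h => ⟨Polynomial.eval₂RingHom c' (w' (i + 1)), RingHom.ext fun r => by simp,
    funext fun j => by
      by_cases hj : j = i
      · simp [wl, hj, h]
      · have : j = i + 1 := by omega
        subst this
        simp [wl]⟩
  ext := fun φ h1 h2 => Polynomial.ringHom_ext (fun r => RingHom.congr_fun h1 r) (by
    simpa [wl] using congrFun h2 (i + 1))

/-- The standard affine chart. -/
noncomputable def aff (R : Type) [CommRing R] (i : σ) :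
    Spec (CommRingCat.of (MvPolynomial {j // j ≠ i} R)) ⟶ PP R σ :=
  pt MvPolynomial.C (ww R i) (span_one (free_mv R i).one)

instance (i : σ) : IsOpenImmersion (aff R i) := (free_mv R i).open

theorem cover (z : PP R σ) : ∃ i, z ∈ Proj.basicOpen (homogeneousSubmodule σ R) (X i) := by
  obtain ⟨i, hi⟩ := ptAPI.cover R σ z
  refine ⟨i, ?_⟩
  by_contra h
  exact hi ((Pt.mem_zeros _ _).mpr fun f hf => hf ▸ h)

/-- The graded map from the integral polynomial ring. -/
noncomputable def gr (R σ : Type) [CommRing R] :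
    homogeneousSubmodule σ ℤ →+*ᵍ homogeneousSubmodule σ R where
  toRingHom := MvPolynomial.map (Int.castRingHom R)
  map_mem := fun hx => IsHomogeneous.map hx _

theorem gr_X (i : σ) : gr R σ (X i) = X i := map_X _ _

theorem gr_irr (R σ : Type) [CommRing R] :
    HomogeneousIdeal.irrelevant (homogeneousSubmodule σ R) ≤
      (HomogeneousIdeal.irrelevant (homogeneousSubmodule σ ℤ)).map (gr R σ) := by
  rw [← toIdeal_le_toIdeal_iff, HomogeneousIdeal.toIdeal_irrelevant_le]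
  intro n hn x hx
  have h1 : x ∈ Ideal.span (X '' (Set.univ : Set σ) : Set (MvPolynomial σ R)) := by
    rw [mem_ideal_span_X_image]
    intro m hm
    by_contra h
    have h2 : m = 0 := Finsupp.ext fun j => not_not.mp fun h3 => h ⟨j, trivial, h3⟩
    have h3 := hx (mem_support_iff.mp hm)
    rw [h2, map_zero] at h3
    exact hn.ne h3
  refine Ideal.span_le.mpr ?_ h1
  rintro _ ⟨j, -, rfl⟩
  rw [← gr_X]
  exact Ideal.mem_map_of_mem _ (HomogeneousIdeal.mem_irrelevant_of_mem _ one_pos (Pt.hX ℤ j))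

/-- The map to projective space over the integers. -/
noncomputable def toZ (R σ : Type) [CommRing R] : PP R σ ⟶ PP ℤ σ :=
  Proj.map (gr R σ) (gr_irr R σ)

theorem toZ_mem (i : σ) (z : PP R σ) :
    toZ R σ z ∈ Proj.basicOpen (homogeneousSubmodule σ ℤ) (X i) ↔
      z ∈ Proj.basicOpen (homogeneousSubmodule σ R) (X i) := by
  rw [← gr_X (R := R)]
  rfl

theorem pt_toZ (c : R →+* A) (w : σ → A) (h : Ideal.span (Set.range w) = ⊤) :
    pt c w h ≫ toZ R σ = pt (Int.castRingHom A) w h := by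
  refine Pt.ext_span w h _ _ fun i D _ φ hi => ?_
  have hu : IsUnit (φ.comp (eval₂Hom c w) (gr R σ (X i))) := by
    rw [gr_X]; exact Pt.unit_X hi
  have h1 := Pt.key (homogeneousSubmodule σ R) (eval₂Hom c w) (irr_map c w h) φ
    ((gr R σ).2 (Pt.hX ℤ i)) one_pos hu
  have h2 := Proj.awayι_comp_map (gr R σ) (gr_irr R σ) one_pos (X i) (Pt.hX ℤ i)
  rw [Pt.pt_chart _ w h φ i hi, ← Category.assoc]
  refine (h1 =≫ _).trans ?_
  refine (Category.assoc _ _ _).trans ((_ ≫= h2).trans ?_)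
  rw [← Spec.map_comp_assoc, ← CommRingCat.ofHom_comp]
  congr 3
  refine RingHom.ext fun z => ?_
  obtain ⟨n, a, ha, rfl⟩ := Away.mk_surjective _ (Pt.hX ℤ i) z
  have h3 := Pt.aw_mk _ _ (Pt.unit_X (c := Int.castRingHom A) hi) (Pt.hX ℤ i) n a ha
  have h4 := Pt.aw_mk _ _ hu ((gr R σ).2 (Pt.hX ℤ i)) n (gr R σ a) ((gr R σ).2 ha)
  refine (hi.pow n).mul_right_cancel ?_
  have h5 : ∀ b, φ.comp (eval₂Hom c w) (gr R σ b) =
      φ.comp (eval₂Hom (Int.castRingHom A) w) b := fun b => by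
    change φ (eval₂ c w (MvPolynomial.map _ b)) = φ (eval₂ _ w b)
    rw [eval₂_map, Subsingleton.elim (c.comp _) (Int.castRingHom A)]
  rw [h5, h5, ← h3] at h4
  rw [RingHom.comp_apply, Away.map_mk]
  simpa using h4

theorem prod_pb (D P : Scheme.{0}) (f : D ⟶ Spec (CommRingCat.of ℤ))
    (g : P ⟶ Spec (CommRingCat.of ℤ)) : IsPullback prod.fst prod.snd f g := by
  rw [specZIsTerminal.hom_ext f (specZIsTerminal.from _),
    specZIsTerminal.hom_ext g (specZIsTerminal.from _)]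
  exact IsPullback.of_is_product' (prodIsProd D P) specZIsTerminal

/-- The comparison map. -/
noncomputable def cmp (R σ : Type) [CommRing R] : PP R σ ⟶ Spec (CommRingCat.of R) ⨯ PP ℤ σ :=
  prod.lift (PP.s R σ) (toZ R σ)

attribute [local instance] MvPolynomial.algebraMvPolynomial in
theorem aff_pb (i : σ) : IsPullback (aff R i ≫ cmp R σ)
    (Spec.map (CommRingCat.ofHom (MvPolynomial.map (Int.castRingHom R)))) prod.snd (aff ℤ i) := by
  have h1 := isPullback_SpecMap_of_isPushout _ _ _ _ (CommRingCat.isPushout_of_isPushout ℤ R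
    (MvPolynomial {j // j ≠ i} ℤ) (MvPolynomial {j // j ≠ i} R))
  refine IsPullback.of_right ?_ ?_
    (prod_pb _ _ (Spec.map (CommRingCat.ofHom (algebraMap ℤ R))) (PP.s ℤ σ))
  · rw [Category.assoc, cmp, prod.lift_fst, aff, aff, Pt.str, Pt.str]
    exact h1
  · have h2 : (MvPolynomial.map (Int.castRingHom R)) ∘ ww ℤ i = ww R i := funext fun j => by
      by_cases hj : j = i <;> simp [ww, hj]
    rw [Category.assoc, cmp, prod.lift_snd, aff, aff, pt_toZ,
      ptAPI.nat _ _ _ _ _ _ _ _ (h2 ▸ span_one (free_mv R i).one)]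
    congr 1
    · exact Subsingleton.elim _ _
    · exact h2.symm

theorem cmp_iso (R σ : Type) [CommRing R] : IsIso (cmp R σ) := by
  have ho : ∀ i, IsOpenImmersion (aff R i ≫ cmp R σ) := fun i =>
    MorphismProperty.of_isPullback (P := @IsOpenImmersion) (aff_pb i).flip inferInstance
  have hc : ∀ z : PP R σ, ∃ i y, aff R i y = z := fun z => by
    obtain ⟨i, hi⟩ := cover z
    exact ⟨i, ((free_mv R i).range z).mpr hi⟩
  have hs : ∀ z, (prod.snd : Spec (CommRingCat.of R) ⨯ PP ℤ σ ⟶ _) (cmp R σ z) = toZ R σ z :=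
    fun z => by rw [← Scheme.Hom.comp_apply, cmp, prod.lift_snd]
  rw [isIso_iff_isOpenImmersion_and_surjective]
  refine ⟨IsOpenImmersion.of_openCover_source _ (Scheme.Cover.mkOfCovers σ _ (aff R) hc)
    (fun x y e => ?_) ho, ⟨fun z => ?_⟩⟩
  · obtain ⟨i, hi⟩ := cover x
    have hy : y ∈ Proj.basicOpen (homogeneousSubmodule σ R) (X i) := by
      rw [← toZ_mem, ← hs, ← e, hs, toZ_mem]; exact hi
    obtain ⟨a, rfl⟩ := ((free_mv R i).range x).mpr hi
    obtain ⟨b, rfl⟩ := ((free_mv R i).range y).mpr hy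
    have := ho i
    rw [(aff R i ≫ cmp R σ).isOpenEmbedding.injective (a₁ := a) (a₂ := b) e]
  · obtain ⟨i, hi⟩ := cover ((prod.snd : Spec (CommRingCat.of R) ⨯ PP ℤ σ ⟶ _) z)
    have h1 : z ∈ Set.range (pullback.fst
        (prod.snd : Spec (CommRingCat.of R) ⨯ PP ℤ σ ⟶ _) (aff ℤ i)) := by
      rw [Scheme.Pullback.range_fst]
      exact ((free_mv ℤ i).range _).mpr hi
    obtain ⟨y, rfl⟩ := h1
    refine ⟨aff R i ((aff_pb i).isoPullback.inv y), ?_⟩
    rw [← Scheme.Hom.comp_apply, ← Scheme.Hom.comp_apply, (aff_pb i).isoPullback_inv_fst]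

theorem smooth_poly (E : Type) [CommRing E] :
    SmoothOfRelativeDimension 1 (Spec.map (CommRingCat.ofHom (Polynomial.C (R := E)))) := by
  classical
  let v : Empty → MvPolynomial Unit E := fun x => x.elim
  let P := Algebra.PreSubmersivePresentation.naive (v := v) (fun x : Empty => x.elim)
    (fun x => x.elim)
  let Q : Algebra.SubmersivePresentation E
      (MvPolynomial Unit E ⧸ Ideal.span (Set.range v)) Unit Empty :=
    { P with
      jacobian_isUnit := by
        rw [Algebra.PreSubmersivePresentation.jacobian_eq_jacobiMatrix_det]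
        simp }
  have h : Algebra.IsStandardSmoothOfRelativeDimension 1 E
      (MvPolynomial Unit E ⧸ Ideal.span (Set.range v)) :=
    Q.isStandardSmoothOfRelativeDimension (by simp [Algebra.Presentation.dimension])
  have hb : Ideal.span (Set.range v) = ⊥ := by simp
  have h2 := Algebra.IsStandardSmoothOfRelativeDimension.of_algEquiv 1
    (((Ideal.quotientEquivAlgOfEq E hb).trans (AlgEquiv.quotientBot E _)).trans
      (MvPolynomial.uniqueAlgEquiv E Unit))
  rw [HasRingHomProperty.Spec_iff (P := @SmoothOfRelativeDimension 1)]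
  exact RingHom.locally_of RingHom.isStandardSmoothOfRelativeDimension_respectsIso _
    ((RingHom.isStandardSmoothOfRelativeDimension_algebraMap 1).mpr h2)

theorem smooth_line (R : Type) [CommRing R] : SmoothOfRelativeDimension 1 (PP.s R (Fin 2)) := by
  have ho : ∀ i, IsOpenImmersion (pt Polynomial.C (wl R i) (span_one (free_poly R i).one)) :=
    fun i => (free_poly R i).open
  have := HasRingHomProperty.instIsZariskiLocalAtSource (P := @SmoothOfRelativeDimension 1)
  refine IsZariskiLocalAtSource.of_openCover (P := @SmoothOfRelativeDimension 1)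
    (Scheme.Cover.mkOfCovers (Fin 2) _
      (fun i => pt Polynomial.C (wl R i) (span_one (free_poly R i).one)) fun z => ?_) fun i => ?_
  · obtain ⟨i, hi⟩ := cover z
    exact ⟨i, ((free_poly R i).range z).mpr hi⟩
  · have h := smooth_poly R
    rw [← Pt.str Polynomial.C (wl R i) (span_one (free_poly R i).one)] at h
    exact h

theorem line_gen (k : Type) [Field k] : IsIntegral (Spec (CommRingCat.of k) ⨯ PP ℤ (Fin 2)) ∧
    ∃ j : Spec (CommRingCat.of (RatFunc k)) ⟶ Spec (CommRingCat.of k) ⨯ PP ℤ (Fin 2),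
      IsGen j ∧ j ≫ prod.fst = Spec.map (CommRingCat.ofHom (algebraMap k (RatFunc k))) := by
  have h1 : IsIntegral (PP k (Fin 2)) :=
    MP_fd6584_ag.Pj.isIntegral_proj _ (Pt.hX k 0) one_pos (X_ne_zero _)
  have h2 := cmp_iso k (Fin 2)
  have h3 := (free_poly k 0).open
  have h4 : IsDominant (pt Polynomial.C (wl k 0) (span_one (free_poly k 0).one)) :=
    ⟨(pt Polynomial.C (wl k 0) (span_one (free_poly k 0).one)).isOpenEmbedding.isOpen_range.dense
      (Set.range_nonempty _)⟩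
  have h5 := MP_fd6584_ag.Pj.isDominant_spec (algebraMap (Polynomial k) (RatFunc k))
    (IsFractionRing.injective _ _)
  have h6 := IsPreimmersion.of_isLocalization (nonZeroDivisors (Polynomial k)) (S := RatFunc k)
  refine ⟨IsIntegral.of_isIso (cmp k (Fin 2)),
    Spec.map (CommRingCat.ofHom (algebraMap (Polynomial k) (RatFunc k))) ≫
      pt Polynomial.C (wl k 0) (span_one (free_poly k 0).one) ≫ cmp k (Fin 2),
    ⟨inferInstance, inferInstance⟩, ?_⟩
  rw [Category.assoc, Category.assoc, cmp, prod.lift_fst, Pt.str, ← Spec.map_comp]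
  rfl

end Prj

theorem projAPI : ProjAPI where
  proper := fun Y X f ⟨n, i, hi⟩ => by
    have h1 : IsProper (prod.fst : X ⨯ PP ℤ (Fin (n + 1)) ⟶ X) :=
      MorphismProperty.of_isPullback (P := @IsProper)
        (Prj.prod_pb X _ (specZIsTerminal.from _) (PP.s ℤ _)).flip (Pt.proper ℤ _)
    rw [← prod.lift_fst f i]
    infer_instance
  of_comp := fun Y X S f s ⟨n, i, hi⟩ hs => by
    have h1 : IsSeparated (prod.map s (𝟙 (PP ℤ (Fin (n + 1))))) :=
      MorphismProperty.of_isPullback (P := @IsSeparated) (IsPullback.of_prod_fst_with_id s _) hs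
    have h2 : IsClosedImmersion (prod.lift f i ≫ prod.map s (𝟙 _)) := by
      rwa [prod.lift_map, Category.comp_id]
    exact ⟨n, i, IsClosedImmersion.of_comp _ (prod.map s (𝟙 _))⟩
  closed := fun Z Y X j f hj ⟨n, i, hi⟩ => ⟨n, j ≫ i, by
    rw [← prod.comp_lift]
    infer_instance⟩
  model := fun k _ Y s ⟨n, i, hi, e⟩ => ⟨n, i ≫ Prj.toZ k _, by
    have := Prj.cmp_iso k (Fin (n + 1))
    have h : prod.lift s (i ≫ Prj.toZ k _) = i ≫ Prj.cmp k (Fin (n + 1)) := by
      rw [← e]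
      exact (prod.comp_lift i _ _).symm
    rw [h]
    exact MorphismProperty.RespectsIso.postcomp (P := @IsClosedImmersion)
      (Prj.cmp k (Fin (n + 1))) i hi⟩
  line_smooth := fun D => MorphismProperty.of_isPullback (P := @SmoothOfRelativeDimension 1)
    (self := smoothOfRelativeDimension_isStableUnderBaseChange 1)
    (Prj.prod_pb D _ (specZIsTerminal.from _) (PP.s ℤ _)).flip (Prj.smooth_line ℤ)
  line_gen := Prj.line_gen
  etale := fun F L _ _ _ _ _ => by
    have h1 := Algebra.FormallyEtale.of_isSeparable F L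
    have h2 : Algebra.FinitePresentation F L :=
      Algebra.FinitePresentation.of_finiteType.mp inferInstance
    rw [← Etale.iff_smoothOfRelativeDimension_zero, HasRingHomProperty.Spec_iff (P := @Etale)]
    exact RingHom.etale_algebraMap.mpr ⟨h1, h2⟩
  glue := fun k K κ _ _ _ 𝒞 M Z g γ hZ hg => by
    suffices h : ∀ i j : κ, pullback.fst (M.ch i) (M.ch j) ≫ g i =
        pullback.snd (M.ch i) (M.ch j) ≫ g j from
      ⟨M.cov.glueMorphisms g h, fun j => M.cov.ι_glueMorphisms _ _ j⟩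
    intro i j
    have h1 := MP_fd6584_ag.Pj.isDominant_spec (𝒞.B i).val.toRingHom Subtype.val_injective
    rw [← pullback.lift_fst _ _ (M.gen i j)] at h1
    have h2 := IsDominant.of_comp_of_isOpenImmersion (pullback.lift _ _ (M.gen i j))
      (pullback.fst (M.ch i) (M.ch j))
    have := isReduced_of_isOpenImmersion (pullback.fst (M.ch i) (M.ch j))
    refine ext_of_isDominant (pullback.lift _ _ (M.gen i j)) ?_
    rw [pullback.lift_fst_assoc, pullback.lift_snd_assoc, hg, hg]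

end Pool.Agent.MP_d45d16_ag.Yag

end MrgPart0

-- ======== part 1: formerly Pool.Agent.MP_d45d16_ag.yag.Step
section MrgPart1

/-!
STEP: the invariant passes to a simple transcendental extension.
-/

set_option autoImplicit false

open MvPolynomial Filter IntermediateField

namespace Pool.Agent.MP_d45d16_ag.Yag

namespace Step

section Places

variable (Pl : PlaceAPI) {E K : Type} [Field E] [Field K]

theorem val_zero (p : Place E K) : p.Val 0 0 := ⟨p.V.zero_mem, map_zero p.r⟩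

theorem val_one (p : Place E K) : p.Val 1 1 := ⟨p.V.one_mem, map_one p.r⟩

include Pl

theorem val_mul {p : Place E K} {z z' : E} {c c' : K} (h : p.Val z c) (h' : p.Val z' c') :
    p.Val (z * z') (c * c') := (Pl.add E K p z z' c c' h h').2.1

theorem val_add {p : Place E K} {z z' : E} {c c' : K} (h : p.Val z c) (h' : p.Val z' c') :
    p.Val (z + z') (c + c') := (Pl.add E K p z z' c c' h h').1

theorem val_neg {p : Place E K} {z : E} {c : K} (h : p.Val z c) : p.Val (-z) (-c) :=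
  (Pl.add E K p z z c c h h).2.2

theorem val_pow {p : Place E K} {z : E} {c : K} (h : p.Val z c) (n : ℕ) :
    p.Val (z ^ n) (c ^ n) := by
  induction n with
  | zero => simpa using val_one p
  | succ n ih => rw [pow_succ, pow_succ]; exact val_mul Pl ih h

theorem val_sum {p : Place E K} {α : Type} (s : Finset α) (z : α → E) (c : α → K)
    (h : ∀ i ∈ s, p.Val (z i) (c i)) : p.Val (∑ i ∈ s, z i) (∑ i ∈ s, c i) := by
  classical
  induction s using Finset.induction_on with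
  | empty => simpa using val_zero p
  | insert a s ha ih =>
    rw [Finset.sum_insert ha, Finset.sum_insert ha]
    exact val_add Pl (h a (Finset.mem_insert_self _ _))
      (ih fun i hi => h i (Finset.mem_insert_of_mem hi))

theorem not_both {p : Place E K} {z : E} {c : K} (hz : z ≠ 0) (h : p.Val z c)
    (h' : p.Val z⁻¹ 0) : False := by
  have := val_mul Pl h h'
  rw [mul_inv_cancel₀ hz, mul_zero] at this
  exact one_ne_zero (Pl.uniq E K p 1 1 0 (val_one p) this)

/-- The limit of a sequence of places which agree eventually at every element. -/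
theorem exists_limit [Algebra K E] (P : ℕ → Place E K) (hO : ∀ m, (P m).Over K)
    (hA : ∀ z : E, ∃ N, ∀ m ≥ N, ∀ c, (P m).Val z c ↔ (P N).Val z c) :
    ∃ Q : Place E K, ∀ z c, Q.Val z c → ∀ᶠ m in atTop, (P m).Val z c := by
  classical
  have huniq : ∀ z c c', (∀ᶠ m in atTop, (P m).Val z c) → (∀ᶠ m in atTop, (P m).Val z c') →
      c = c' := by
    intro z c c' h h'
    obtain ⟨m, hm, hm'⟩ := (h.and h').exists
    exact Pl.uniq E K _ z c c' hm hm'
  let V : ValuationSubring E :=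
    { carrier := {z | ∃ c, ∀ᶠ m in atTop, (P m).Val z c}
      mul_mem' := by
        rintro a b ⟨c, hc⟩ ⟨c', hc'⟩
        exact ⟨c * c', (hc.and hc').mono fun m h => val_mul Pl h.1 h.2⟩
      one_mem' := ⟨1, Eventually.of_forall fun m => val_one _⟩
      add_mem' := by
        rintro a b ⟨c, hc⟩ ⟨c', hc'⟩
        exact ⟨c + c', (hc.and hc').mono fun m h => val_add Pl h.1 h.2⟩
      zero_mem' := ⟨0, Eventually.of_forall fun m => val_zero _⟩
      neg_mem' := by
        rintro a ⟨c, hc⟩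
        exact ⟨-c, hc.mono fun m h => val_neg Pl h⟩
      mem_or_inv_mem' := by
        intro z
        obtain ⟨N, hN⟩ := hA z
        obtain ⟨N', hN'⟩ := hA z⁻¹
        rcases Pl.total E K (P (max N N')) z with ⟨c, hc⟩ | hc
        · left
          refine ⟨c, (eventually_ge_atTop N).mono fun m hm => ?_⟩
          exact (hN m hm c).2 ((hN _ (le_max_left _ _) c).1 hc)
        · right
          refine ⟨0, (eventually_ge_atTop N').mono fun m hm => ?_⟩
          exact (hN' m hm 0).2 ((hN' _ (le_max_right _ _) 0).1 hc) }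
  have hV : ∀ z : V, ∃ c, ∀ᶠ m in atTop, (P m).Val (z : E) c := fun z => z.2
  choose r hr using hV
  let ρ : V →+* K :=
    { toFun := r
      map_one' := huniq _ _ _ (hr 1) (Eventually.of_forall fun m => val_one _)
      map_mul' := fun a b => huniq _ _ _ (hr (a * b))
        (((hr a).and (hr b)).mono fun m h => val_mul Pl h.1 h.2)
      map_zero' := huniq _ _ _ (hr 0) (Eventually.of_forall fun m => val_zero _)
      map_add' := fun a b => huniq _ _ _ (hr (a + b))
        (((hr a).and (hr b)).mono fun m h => val_add Pl h.1 h.2) }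
  have hs : Function.Surjective ρ := by
    intro c
    have h : ∀ᶠ m in atTop, (P m).Val (algebraMap K E c) c :=
      Eventually.of_forall fun m => hO m c
    exact ⟨⟨algebraMap K E c, c, h⟩, huniq _ _ _ (hr _) h⟩
  refine ⟨⟨V, ρ, hs⟩, ?_⟩
  rintro z c ⟨hz, rfl⟩
  exact hr ⟨z, hz⟩

end Places

section Mon

variable (Pl : PlaceAPI) {E K : Type} [Field E] [Field K] [Algebra K E]

/-- A Laurent monomial. -/
def mon (u v : E) (d : ℤ × ℤ) : E := u ^ d.1 * v ^ d.2

theorem mon_add {u v : E} (hu : u ≠ 0) (hv : v ≠ 0) (d d' : ℤ × ℤ) :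
    mon u v (d + d') = mon u v d * mon u v d' := by
  simp only [mon, Prod.fst_add, Prod.snd_add, zpow_add₀ hu, zpow_add₀ hv]
  ring

theorem mon_ne {u v : E} (hu : u ≠ 0) (hv : v ≠ 0) (d : ℤ × ℤ) : mon u v d ≠ 0 :=
  mul_ne_zero (zpow_ne_zero _ hu) (zpow_ne_zero _ hv)

theorem mon_neg (u v : E) (d : ℤ × ℤ) : mon u v (-d) = (mon u v d)⁻¹ := by
  simp only [mon, Prod.fst_neg, Prod.snd_neg, zpow_neg, mul_inv]

/-- The exponent of a monomial in two variables. -/
def ex (s : Fin 2 →₀ ℕ) : ℤ × ℤ := (s 0, s 1)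

theorem ex_inj {s s' : Fin 2 →₀ ℕ} (h : ex s = ex s') : s = s' := by
  simp only [ex, Prod.mk.injEq, Nat.cast_inj] at h
  ext i
  fin_cases i
  · exact h.1
  · exact h.2

theorem aeval_eq (u v : E) (f : MvPolynomial (Fin 2) K) :
    aeval ![u, v] f = ∑ s ∈ f.support, algebraMap K E (coeff s f) * mon u v (ex s) := by
  rw [aeval_def, eval₂_eq']
  refine Finset.sum_congr rfl fun s _ => ?_
  simp [mon, ex, Fin.prod_univ_two]

/-- Both places have the same sign on the monomial. -/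
def Sg (P P' : Place E K) (z : E) : Prop :=
  (P.Val z 0 ∧ P'.Val z 0) ∨ (P.Val z⁻¹ 0 ∧ P'.Val z⁻¹ 0)

include Pl

theorem lead {u v : E} (hu : u ≠ 0) (hv : v ≠ 0) {P P' : Place E K} (hP : P.Over K)
    (hP' : P'.Over K) (f : MvPolynomial (Fin 2) K) (hf : f ≠ 0)
    (h : ∀ s ∈ f.support, ∀ s' ∈ f.support, s ≠ s' → Sg P P' (mon u v (ex s - ex s'))) :
    ∃ s ∈ f.support, ∃ c : K, c ≠ 0 ∧ P.Val (aeval ![u, v] f / mon u v (ex s)) c ∧
      P'.Val (aeval ![u, v] f / mon u v (ex s)) c := by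
  classical
  obtain ⟨s, hs, hmax⟩ := Finset.exists_max_image f.support
    (fun s => P.V.valuation (mon u v (ex s))) (support_nonempty.2 hf)
  have key : ∀ s' ∈ f.support, s' ≠ s →
      P.Val (mon u v (ex s' - ex s)) 0 ∧ P'.Val (mon u v (ex s' - ex s)) 0 := by
    intro s' hs' hne
    rcases h s' hs' s hs hne with h1 | h1
    · exact h1
    · exfalso
      have hm : mon u v (ex s' - ex s) ∈ P.V := by
        rw [← P.V.valuation_le_one_iff, sub_eq_add_neg, mon_add hu hv, mon_neg, map_mul, map_inv₀]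
        have h0 : P.V.valuation (mon u v (ex s)) ≠ 0 := by
          rw [Ne, map_eq_zero]; exact mon_ne hu hv _
        rw [mul_inv_le_iff₀ (zero_lt_iff.2 h0), one_mul]
        exact hmax s' hs'
      exact not_both Pl (mon_ne hu hv _) ⟨hm, rfl⟩ h1.1
  have hsum : aeval ![u, v] f / mon u v (ex s) =
      ∑ s' ∈ f.support, algebraMap K E (coeff s' f) * mon u v (ex s' - ex s) := by
    rw [aeval_eq, Finset.sum_div]
    refine Finset.sum_congr rfl fun s' _ => ?_
    rw [sub_eq_add_neg, mon_add hu hv, mon_neg, mul_div_assoc, div_eq_mul_inv]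
  have hc : coeff s f = ∑ s' ∈ f.support, coeff s' f * if s' = s then 1 else 0 := by
    simp [hs]
  have one : ∀ Q : Place E K, Q.Over K →
      (∀ s' ∈ f.support, s' ≠ s → Q.Val (mon u v (ex s' - ex s)) 0) →
      Q.Val (aeval ![u, v] f / mon u v (ex s)) (coeff s f) := by
    intro Q hQ hk
    rw [hsum, hc]
    refine val_sum Pl _ _ _ fun s' hs' => val_mul Pl (hQ _) ?_
    split_ifs with he
    · subst he
      simpa [mon] using val_one Q
    · exact hk s' hs' he
  exact ⟨s, hs, coeff s f, mem_support_iff.1 hs, one P hP fun s' a b => (key s' a b).1,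
    one P' hP' fun s' a b => (key s' a b).2⟩

omit [Algebra K E] in
theorem agree_of {P P' : Place E K} {z : E}
    (h : (∃ c, P.Val z c ∧ P'.Val z c) ∨ (P.Val z⁻¹ 0 ∧ P'.Val z⁻¹ 0)) (c : K) :
    P.Val z c → P'.Val z c := by
  intro hc
  rcases h with ⟨c', h1, h2⟩ | ⟨h1, -⟩
  · rwa [Pl.uniq E K P z c c' hc h1]
  · by_cases hz : z = 0
    · subst hz
      rw [Pl.uniq E K P 0 c 0 hc (val_zero P)]
      exact val_zero P'
    · exact (not_both Pl hz hc h1).elim

theorem mon_fin {u v : E} (hu : u ≠ 0) (hv : v ≠ 0) (hg : adjoin K {u, v} = ⊤) (z : E) :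
    ∃ D : Finset (ℤ × ℤ), (∀ d ∈ D, d ≠ 0) ∧ ∀ P P' : Place E K, P.Over K → P'.Over K →
      (∀ d ∈ D, Sg P P' (mon u v d)) → ∀ c, P.Val z c → P'.Val z c := by
  classical
  have hz : z ∈ adjoin K (Set.range ![u, v]) := by
    rw [Matrix.range_cons_cons_empty, hg]; trivial
  obtain ⟨f, g, rfl⟩ := (mem_adjoin_range_iff K _ z).1 hz
  let T := f.support ∪ g.support
  refine ⟨((T ×ˢ T).image fun x => ex x.1 - ex x.2).erase 0, fun d hd => Finset.ne_of_mem_erase hd,
    fun P P' hP hP' hD => agree_of Pl ?_⟩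
  have hT : ∀ s ∈ T, ∀ s' ∈ T, s ≠ s' → Sg P P' (mon u v (ex s - ex s')) := by
    intro s hs s' hs' hne
    refine hD _ (Finset.mem_erase.2 ⟨fun h => hne (ex_inj (sub_eq_zero.1 h)), ?_⟩)
    exact Finset.mem_image.2 ⟨(s, s'), Finset.mem_product.2 ⟨hs, hs'⟩, rfl⟩
  by_cases hf : f = 0
  · left
    exact ⟨0, by simpa [hf] using val_zero P, by simpa [hf] using val_zero P'⟩
  by_cases hg0 : g = 0
  · left
    exact ⟨0, by simpa [hg0] using val_zero P, by simpa [hg0] using val_zero P'⟩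
  obtain ⟨s, hs, a, ha, a1, a2⟩ := lead Pl hu hv hP hP' f hf fun s hs s' hs' =>
    hT s (Finset.mem_union_left _ hs) s' (Finset.mem_union_left _ hs')
  obtain ⟨t, ht, b, hb, b1, b2⟩ := lead Pl hu hv hP hP' g hg0 fun s hs s' hs' =>
    hT s (Finset.mem_union_right _ hs) s' (Finset.mem_union_right _ hs')
  have ms := mon_ne hu hv (ex s)
  have mt := mon_ne hu hv (ex t)
  have e1 : aeval ![u, v] f / aeval ![u, v] g = mon u v (ex s - ex t) *
      (aeval ![u, v] f / mon u v (ex s) * (aeval ![u, v] g / mon u v (ex t))⁻¹) := by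
    rw [sub_eq_add_neg, mon_add hu hv, mon_neg]
    field_simp
  have e2 : (aeval ![u, v] f / aeval ![u, v] g)⁻¹ = (mon u v (ex s - ex t))⁻¹ *
      (aeval ![u, v] g / mon u v (ex t) * (aeval ![u, v] f / mon u v (ex s))⁻¹) := by
    rw [e1, mul_inv, mul_inv, inv_inv, mul_comm (_ / mon u v (ex s))⁻¹]
  have c1 := val_mul Pl a1 (Pl.inv E K P _ _ b1 hb)
  have c2 := val_mul Pl a2 (Pl.inv E K P' _ _ b2 hb)
  have d1 := val_mul Pl b1 (Pl.inv E K P _ _ a1 ha)
  have d2 := val_mul Pl b2 (Pl.inv E K P' _ _ a2 ha)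
  by_cases hst : s = t
  · left
    subst hst
    rw [e1]
    refine ⟨a * b⁻¹, ?_, ?_⟩
    · simpa [mon] using c1
    · simpa [mon] using c2
  · rcases hT s (Finset.mem_union_left _ hs) t (Finset.mem_union_right _ ht) hst with h | h
    · left
      rw [e1]
      exact ⟨_, val_mul Pl h.1 c1, val_mul Pl h.2 c2⟩
    · right
      rw [e2]
      exact ⟨by simpa using val_mul Pl h.1 d1, by simpa using val_mul Pl h.2 d2⟩

/-- The place is centred at the origin of the chart `(u, v)`. -/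
def Dom (P : Place E K) (x : E × E) : Prop := P.Over K ∧ P.Val x.1 0 ∧ P.Val x.2 0

/-- One step in the tree of charts. -/
def Nx (x x' : E × E) : Prop := x' = (x.1 / x.2, x.2) ∨ x' = (x.1, x.2 / x.1)

theorem dom_step {P : Place E K} {x x' : E × E} (h1 : x.1 ≠ 0) (h2 : x.2 ≠ 0) (h : Nx x x')
    (hP : Dom P x') : Dom P x := by
  obtain ⟨h0, ha, hb⟩ := hP
  have := val_mul Pl ha hb
  rcases h with rfl | rfl
  · exact ⟨h0, by simpa [div_mul_cancel₀ _ h2] using this, hb⟩
  · exact ⟨h0, ha, by simpa [mul_div_cancel₀ _ h1] using this⟩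

theorem dom_le (x : ℕ → E × E) (h1 : ∀ m, (x m).1 ≠ 0) (h2 : ∀ m, (x m).2 ≠ 0)
    (h : ∀ m, Nx (x m) (x (m + 1))) {P : Place E K} {m n : ℕ} (hmn : m ≤ n) (hP : Dom P (x n)) :
    Dom P (x m) := by
  induction n, hmn using Nat.le_induction with
  | base => exact hP
  | succ n _ ih => exact ih (dom_step Pl (h1 n) (h2 n) (h n) hP)

theorem dom_pos {P : Place E K} {x : E × E} (hP : Dom P x) (d : ℤ × ℤ) (hd : d ≠ 0)
    (ha : 0 ≤ d.1) (hb : 0 ≤ d.2) : P.Val (mon x.1 x.2 d) 0 := by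
  obtain ⟨a, b⟩ := d
  obtain ⟨a, rfl⟩ := Int.eq_ofNat_of_zero_le ha
  obtain ⟨b, rfl⟩ := Int.eq_ofNat_of_zero_le hb
  have := val_mul Pl (val_pow Pl hP.2.1 a) (val_pow Pl hP.2.2 b)
  have h0 : (0 : K) ^ a * 0 ^ b = 0 := by
    by_cases h : a = 0
    · have : b ≠ 0 := by
        rintro rfl
        subst h
        exact hd rfl
      simp [this]
    · simp [h]
  rw [h0] at this
  simpa [mon] using this

theorem sign (x : ℕ → E × E) (h1 : ∀ m, (x m).1 ≠ 0) (h2 : ∀ m, (x m).2 ≠ 0)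
    (h : ∀ m, Nx (x m) (x (m + 1))) (n : ℕ) : ∀ (m : ℕ) (d : ℤ × ℤ), d ≠ 0 →
    (d.1 * d.2 < 0 → d.1.natAbs + d.2.natAbs ≤ n) → ∃ N, ∀ P P' : Place E K,
      Dom P (x N) → Dom P' (x N) → Sg P P' (mon (x m).1 (x m).2 d) := by
  have easy : ∀ (m : ℕ) (d : ℤ × ℤ), d ≠ 0 → ¬ d.1 * d.2 < 0 → ∀ P P' : Place E K,
      Dom P (x m) → Dom P' (x m) → Sg P P' (mon (x m).1 (x m).2 d) := by
    intro m d hd hn P P' hP hP'
    rcases mul_nonneg_iff.1 (not_lt.1 hn) with ⟨ha, hb⟩ | ⟨ha, hb⟩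
    · exact Or.inl ⟨dom_pos Pl hP d hd ha hb, dom_pos Pl hP' d hd ha hb⟩
    · right
      rw [← mon_neg]
      have ha' : 0 ≤ (-d).1 := by simpa using ha
      have hb' : 0 ≤ (-d).2 := by simpa using hb
      exact ⟨dom_pos Pl hP _ (neg_ne_zero.2 hd) ha' hb', dom_pos Pl hP' _ (neg_ne_zero.2 hd) ha' hb'⟩
  induction n with
  | zero =>
    intro m d hd hn
    refine ⟨m, easy m d hd fun hlt => ?_⟩
    have := hn hlt
    have h3 : d.1 = 0 := by omega
    simp [h3] at hlt
  | succ n ih =>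
    intro m d hd hn
    by_cases hlt : d.1 * d.2 < 0
    swap
    · exact ⟨m, easy m d hd hlt⟩
    have hle := hn hlt
    obtain ⟨a, b⟩ := d
    simp only at hlt hle
    have hab : (0 < a ∧ b < 0) ∨ (a < 0 ∧ 0 < b) := mul_neg_iff.1 hlt
    rcases h m with he | he
    · have e : mon (x m).1 (x m).2 (a, b) = mon (x (m + 1)).1 (x (m + 1)).2 (a, a + b) := by
        rw [he]
        simp only [mon, div_zpow, zpow_add₀ (h2 m)]
        have := zpow_ne_zero a (h2 m)
        field_simp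
      rw [e]
      refine ih (m + 1) (a, a + b) (fun h0 => ?_) fun h0 => ?_
      · simp only [Prod.ext_iff, Prod.fst_zero] at h0
        omega
      · simp only at h0 ⊢
        have := mul_neg_iff.1 h0
        omega
    · have e : mon (x m).1 (x m).2 (a, b) = mon (x (m + 1)).1 (x (m + 1)).2 (a + b, b) := by
        rw [he]
        simp only [mon, div_zpow, zpow_add₀ (h1 m)]
        have := zpow_ne_zero b (h1 m)
        field_simp
      rw [e]
      refine ih (m + 1) (a + b, b) (fun h0 => ?_) fun h0 => ?_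
      · simp only [Prod.ext_iff, Prod.snd_zero] at h0
        omega
      · simp only at h0 ⊢
        have := mul_neg_iff.1 h0
        omega

theorem stab (x : ℕ → E × E) (h1 : ∀ m, (x m).1 ≠ 0) (h2 : ∀ m, (x m).2 ≠ 0)
    (h : ∀ m, Nx (x m) (x (m + 1))) (hg : adjoin K {(x 0).1, (x 0).2} = ⊤) (z : E) :
    ∃ N, ∀ P P' : Place E K, Dom P (x N) → Dom P' (x N) → ∀ c, P.Val z c → P'.Val z c := by
  obtain ⟨D, hD, hz⟩ := mon_fin Pl (h1 0) (h2 0) hg z
  have : ∀ d : D, ∃ N, ∀ P P' : Place E K, Dom P (x N) → Dom P' (x N) →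
      Sg P P' (mon (x 0).1 (x 0).2 d) := fun d =>
    sign Pl x h1 h2 h _ 0 d (hD d d.2) fun _ => le_rfl
  choose N hN using this
  refine ⟨Finset.univ.sup N, fun P P' hP hP' => hz P P' hP.1 hP'.1 fun d hd => ?_⟩
  have hle : N ⟨d, hd⟩ ≤ Finset.univ.sup N := Finset.le_sup (Finset.mem_univ _)
  exact hN ⟨d, hd⟩ P P' (dom_le Pl x h1 h2 h hle hP) (dom_le Pl x h1 h2 h hle hP')

/-- Along an infinite branch the specialised ideal stabilises. -/
theorem init_stab (Hf : HfAPI) (Hf2 : HfAPI2) {σ : Type} [Finite σ] (w : σ → ℕ × ℕ) (hw : IsW w)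
    (J : Ideal (MvPolynomial σ E)) (hJ : IsHom w J) (x : ℕ → E × E) (h1 : ∀ m, (x m).1 ≠ 0)
    (h2 : ∀ m, (x m).2 ≠ 0) (h : ∀ m, Nx (x m) (x (m + 1)))
    (hg : adjoin K {(x 0).1, (x 0).2} = ⊤) (P : ℕ → Place E K) (hP : ∀ m, Dom (P m) (x m)) :
    ∃ N, ∀ R R' : Place E K, Dom R (x N) → Dom R' (x N) → R.init J = R'.init J := by
  classical
  choose N hN using stab Pl x h1 h2 h hg
  obtain ⟨Q, hQ⟩ := exists_limit Pl P (fun m => (hP m).1) fun z => ⟨N z, fun m hm c =>
    ⟨hN z _ _ (dom_le Pl x h1 h2 h hm (hP m)) (hP _) c,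
      hN z _ _ (hP _) (dom_le Pl x h1 h2 h hm (hP m)) c⟩⟩
  have hQ' : ∀ z c (R : Place E K), Dom R (x (N z)) → Q.Val z c → R.Val z c := by
    intro z c R hR hz
    obtain ⟨m, hm, hm'⟩ := ((hQ z c hz).and (eventually_ge_atTop (N z))).exists
    exact hN z _ _ (dom_le Pl x h1 h2 h hm' (hP m)) hR c hm
  have one : ∀ f ∈ Q.init J, ∃ M, ∀ R : Place E K, Dom R (x M) → f ∈ R.init J := by
    intro f hf
    obtain ⟨g, hg, hgf⟩ := (Pl.mem σ E K Q J f).1 hf
    refine ⟨g.support.sup fun d => N (coeff d g), fun R hR => (Pl.mem σ E K R J f).2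
      ⟨g, hg, fun d => ?_⟩⟩
    by_cases hd : d ∈ g.support
    · exact hQ' _ _ R (dom_le Pl x h1 h2 h
        (Finset.le_sup (f := fun d => N (coeff d g)) hd) hR) (hgf d)
    · have h0 := notMem_support_iff.1 hd
      have := hgf d
      rw [h0] at this ⊢
      rw [Pl.uniq E K Q 0 _ 0 this (val_zero Q)]
      exact val_zero R
  choose! M hM using one
  obtain ⟨s, hs⟩ := (IsNoetherian.noetherian (Q.init J) : (Q.init J).FG)
  have fin : ∀ R : Place E K, Dom R (x (s.sup M)) → Q.init J = R.init J := by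
    intro R hR
    have hle : Q.init J ≤ R.init J := by
      rw [← hs, Submodule.span_le]
      intro f hf
      have hf' : f ∈ Q.init J := hs ▸ Submodule.subset_span hf
      exact hM f hf' R (dom_le Pl x h1 h2 h (Finset.le_sup (f := M) hf) hR)
    have a := Hf2.init σ E K w Q J hw hJ
    have b := Hf2.init σ E K w R J hw hJ
    exact Hf.eq σ K w _ _ hw a.1 b.1 hle fun k => by rw [a.2, b.2]
  exact ⟨s.sup M, fun R R' hR hR' => (fin R hR).symm.trans (fin R' hR')⟩

end Mon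

section Core

variable {A E K : Type} [Group A] [Field E] [Field K] [Algebra K E] [MulSemiringAction A E]

/-- Semi-invariant elements. -/
def Semi (A : Type) {E : Type} [Group A] [Field E] [MulSemiringAction A E] (u : E) : Prop :=
  ∃ η : A →* ℤˣ, ∀ a : A, a • u = ((η a : ℤˣ) : ℤ) • u

theorem Semi.inv {u : E} (h : Semi A u) : Semi A u⁻¹ := by
  obtain ⟨η, h⟩ := h
  refine ⟨η, fun a => ?_⟩
  rw [smul_inv'', h a]
  rcases Int.units_eq_one_or (η a) with e | e <;> simp [e]

theorem Semi.mul {u v : E} (h : Semi A u) (h' : Semi A v) : Semi A (u * v) := by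
  obtain ⟨η, h⟩ := h
  obtain ⟨η', h'⟩ := h'
  refine ⟨η * η', fun a => ?_⟩
  rw [smul_mul', h a, h' a, MonoidHom.mul_apply, Units.val_mul, smul_mul_smul_comm]

theorem Semi.div {u v : E} (h : Semi A u) (h' : Semi A v) : Semi A (u / v) := by
  rw [div_eq_mul_inv]; exact h.mul h'.inv

/-- Transcendence degree at least two. -/
def Two (K E : Type) [Field E] [Field K] [Algebra K E] : Prop :=
  ∀ w : E, ¬ Algebra.IsAlgebraic K⟮w⟯ E

theorem gen_swap {u v : E} (hg : adjoin K {u, v} = ⊤) : adjoin K {v, u} = ⊤ := by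
  rwa [Set.pair_comm]

theorem simple_top (H : Two K E) {u v : E} (hg : adjoin K {u, v} = ⊤) : Simple K⟮v⟯ u := by
  have ht : K⟮v⟯⟮u⟯ = ⊤ := by
    rw [← restrictScalars_eq_top_iff (K := K), adjoin_simple_adjoin_simple]
    exact gen_swap hg
  refine ⟨fun hu => H v ⟨fun z => ?_⟩, ht⟩
  have := isAlgebraic_adjoin_simple hu.isIntegral
  have hz : z ∈ K⟮v⟯⟮u⟯ := by rw [ht]; trivial
  exact IntermediateField.isAlgebraic_iff.1 (this.isAlgebraic ⟨z, hz⟩)

theorem trans_snd (H : Two K E) {u v : E} (hg : adjoin K {u, v} = ⊤) : Transcendental K v :=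
  fun hv => (simple_top H (gen_swap hg)).1 (hv.tower_top _)

theorem ne_snd (H : Two K E) {u v : E} (hg : adjoin K {u, v} = ⊤) : v ≠ 0 := by
  rintro rfl
  exact trans_snd H hg isAlgebraic_zero

theorem simple_gen {v : E} (hv : Transcendental K v) : Simple K (AdjoinSimple.gen K v) := by
  refine ⟨fun h => hv (IntermediateField.isAlgebraic_iff.1 h), ?_⟩
  apply IntermediateField.lift_injective
  rw [lift_adjoin_simple, IntermediateField.lift_top]
  rfl

theorem gen_of {u v u' v' : E} (hg : adjoin K {u, v} = ⊤) (hu : u ∈ adjoin K {u', v'})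
    (hv : v ∈ adjoin K {u', v'}) : adjoin K {u', v'} = ⊤ := by
  rw [eq_top_iff, ← hg, adjoin_le_iff]
  rintro z (rfl | rfl)
  · exact hu
  · exact hv

theorem mem_fst (u v : E) : u ∈ adjoin K {u, v} := subset_adjoin K _ (Set.mem_insert _ _)

theorem mem_snd (u v : E) : v ∈ adjoin K {u, v} :=
  subset_adjoin K _ (Set.mem_insert_of_mem _ rfl)

/-- Generating pairs of semi-invariants. -/
structure GP (A K : Type) {E : Type} [Group A] [Field E] [Field K] [Algebra K E]
    [MulSemiringAction A E] (u v : E) : Prop where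
  gen : adjoin K {u, v} = ⊤
  s₁ : Semi A u
  s₂ : Semi A v

theorem GP.swap {u v : E} (h : GP A K u v) : GP A K v u := ⟨gen_swap h.gen, h.s₂, h.s₁⟩

theorem GP.div (H : Two K E) {u v : E} (h : GP A K u v) : GP A K (u / v) v := by
  refine ⟨gen_of h.gen ?_ (mem_snd _ _), h.s₁.div h.s₂, h.s₂⟩
  have := mul_mem (mem_fst (K := K) (u / v) v) (mem_snd (K := K) (u / v) v)
  rwa [div_mul_cancel₀ _ (ne_snd H h.gen)] at this

theorem GP.inv {u v : E} (h : GP A K u v) : GP A K u⁻¹ v := by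
  refine ⟨gen_of h.gen ?_ (mem_snd _ _), h.s₁.inv, h.s₂⟩
  have := inv_mem (mem_fst (K := K) u⁻¹ v)
  rwa [inv_inv] at this

/-- The place first kills `u`, then `v`. -/
def Lex (u v : E) (P : Place E K) : Prop :=
  P.Over K ∧ P.Val v 0 ∧ ∀ n : ℕ, P.Val (u / v ^ n) 0

variable [MulSemiringAction A K]

/-- The action on an invariant simple subextension. -/
@[reducible] noncomputable def subAct
    (hc : ∀ (a : A) (c : K), a • algebraMap K E c = algebraMap K E (a • c)) (v : E)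
    (hv : Semi A v) : MulSemiringAction A K⟮v⟯ :=
  have hm : ∀ (a : A) (z : E), z ∈ K⟮v⟯ → a • z ∈ K⟮v⟯ := by
    intro a z hz
    induction hz using IntermediateField.adjoin_induction with
    | mem z hz =>
      obtain ⟨η, h⟩ := hv
      obtain rfl : z = v := hz
      rw [h a]
      exact zsmul_mem (mem_adjoin_simple_self K z) _
    | algebraMap c => rw [hc]; exact IntermediateField.algebraMap_mem _ _
    | add y z _ _ hy hz => rw [smul_add]; exact add_mem hy hz
    | inv y _ hy => rw [smul_inv'']; exact inv_mem hy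
    | mul y z _ _ hy hz => rw [smul_mul']; exact mul_mem hy hz
  { smul := fun a z => ⟨a • (z : E), hm a z z.2⟩
    one_smul := fun z => Subtype.ext (one_smul A (z : E))
    mul_smul := fun a b z => Subtype.ext (mul_smul a b (z : E))
    smul_zero := fun a => Subtype.ext (smul_zero a)
    smul_add := fun a y z => Subtype.ext (smul_add a (y : E) (z : E))
    smul_one := fun a => Subtype.ext (smul_one a)
    smul_mul := fun a y z => Subtype.ext (smul_mul' a (y : E) (z : E)) }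

theorem lex_comp (Pl : PlaceAPI) {L : Type} [Field L] [Algebra K L] [Algebra L E]
    [IsScalarTower K L E] {q : Place E L} {p : Place L K} {P : Place E K}
    (hP : ∀ z c, P.Val z c ↔ ∃ c', q.Val z c' ∧ p.Val c' c) (hq : q.Over L) (hp : p.Over K)
    {u : E} {w : L} (hu : q.Val u 0) (hw : p.Val w 0) : Lex u (algebraMap L E w) P := by
  refine ⟨fun c => (hP _ _).2 ⟨algebraMap K L c, ?_, hp c⟩, (hP _ _).2 ⟨w, hq w, hw⟩,
    fun n => (hP _ _).2 ⟨0, ?_, val_zero p⟩⟩
  · rw [IsScalarTower.algebraMap_apply K L E]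
    exact hq _
  · have := val_mul Pl hu (hq (w ^ n)⁻¹)
    simpa [div_eq_mul_inv] using this

variable {ι κ : Type} [Finite ι] [Field κ] [Algebra κ K] [Algebra κ E] [IsScalarTower κ K E]
  {S : Setup A ι κ} {Φ : Ideal (Pxy ι K) → ZMod 2} {J : Ideal (Pxy ι E)}

theorem isW_bw (ι : Type) : IsW (bw ι) := by
  rintro (i | i)
  · exact Or.inl rfl
  · exact Or.inr rfl

theorem over_bot {k L M : Type} [Field k] [Field L] [Field M] [Algebra k L] [Algebra L M]
    [Algebra k M] [IsScalarTower k L M] {q : Place M L} (hq : q.Over L) : q.Over k := by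
  intro c
  rw [IsScalarTower.algebraMap_apply k L M]
  exact hq _

theorem wm (Pl : PlaceAPI) (H : Two K E)
    (hc : ∀ (a : A) (c : K), a • algebraMap K E c = algebraMap K E (a • c)) (hΦ : S.Good Φ)
    (hJ : S.Adm J) {u v : E} (h : GP A K u v) :
    ∃ P P' : Place E K, Lex u v P ∧ Lex u v⁻¹ P' ∧ Φ (P.init J) = Φ (P'.init J) := by
  let := subAct hc v h.s₂
  have : IsScalarTower κ K⟮v⟯ E := IsScalarTower.of_algebraMap_eq fun _ => rfl
  have s1 := simple_top H h.gen
  have s2 := simple_gen (trans_snd H h.gen)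
  obtain ⟨q, hq, hqu⟩ := Pl.ex E K⟮v⟯ u s1
  obtain ⟨p, hp, hpv⟩ := Pl.ex K⟮v⟯ K _ s2
  obtain ⟨p', hp', hpv'⟩ := Pl.ex K⟮v⟯ K _ (Pl.simple_inv _ _ _ s2)
  obtain ⟨P, hP, hi⟩ := Pl.comp E K⟮v⟯ K q p
  obtain ⟨P', hP', hi'⟩ := Pl.comp E K⟮v⟯ K q p'
  refine ⟨P, P', lex_comp Pl hP hq hp hqu hpv, ?_, ?_⟩
  · simpa using lex_comp Pl hP' hq hp' hqu hpv'
  · obtain ⟨η, hη⟩ := h.s₁
    obtain ⟨η', hη'⟩ := h.s₂
    have hadm : S.Adm (q.init J) := Pl.adm A ι κ E K⟮v⟯ S q J (over_bot hq)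
      (Pl.eqv A E K⟮v⟯ u η q (fun _ _ => rfl) hη s1 hq hqu) hJ
    rw [hi _ _ J (isW_bw ι) hJ.hom, hi' _ _ J (isW_bw ι) hJ.hom]
    exact hΦ.move K⟮v⟯ (AdjoinSimple.gen K v) η' p p' _ (fun a c => Subtype.ext (hc a c))
      (fun a => Subtype.ext (hη' a)) s2 hp hp' hpv hpv' hadm

/-- The two lexicographic places give the same value. -/
def Comm (Φ : Ideal (Pxy ι K) → ZMod 2) (J : Ideal (Pxy ι E)) (u v : E) : Prop :=
  ∀ P P' : Place E K, Lex u v P → Lex v u P' → Φ (P.init J) = Φ (P'.init J)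

theorem comm_step (Pl : PlaceAPI) (H : Two K E)
    (hc : ∀ (a : A) (c : K), a • algebraMap K E c = algebraMap K E (a • c)) (hΦ : S.Good Φ)
    (hJ : S.Adm J) {u v : E} (h : GP A K u v) (h1 : Comm Φ J (u / v) v)
    (h2 : Comm Φ J u (v / u)) : Comm Φ J u v := by
  intro P P' hP hP'
  have hv := ne_snd H h.gen
  have hu := ne_snd H h.swap.gen
  obtain ⟨Q, Q', hQ, hQ', e⟩ := wm Pl H hc hΦ hJ (h.div H).swap
  rw [inv_div] at hQ'
  have a : Lex (u / v) v P := ⟨hP.1, hP.2.1, fun n => by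
    rw [div_div, ← pow_succ']; exact hP.2.2 _⟩
  have b : Lex (v / u) u P' := ⟨hP'.1, hP'.2.1, fun n => by
    rw [div_div, ← pow_succ']; exact hP'.2.2 _⟩
  have c : Lex u (v / u) Q' := ⟨hQ'.1, hQ'.2.1, fun n => by
    have e : u / (v / u) ^ n = v / (v / u) ^ (n + 1) := by
      rw [pow_succ]
      field_simp
    rw [e]; exact hQ'.2.2 _⟩
  rw [h1 P Q a hQ, e, h2 Q' P' c b]

theorem comm (Hf : HfAPI) (Hf2 : HfAPI2) (Pl : PlaceAPI) (H : Two K E)
    (hc : ∀ (a : A) (c : K), a • algebraMap K E c = algebraMap K E (a • c)) (hΦ : S.Good Φ)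
    (hJ : S.Adm J) {u v : E} (h : GP A K u v) : Comm Φ J u v := by
  by_contra hn
  have nxt : ∀ x : {x : E × E // GP A K x.1 x.2 ∧ ¬ Comm Φ J x.1 x.2},
      ∃ x' : {x : E × E // GP A K x.1 x.2 ∧ ¬ Comm Φ J x.1 x.2}, Nx x.1 x'.1 := by
    rintro ⟨⟨a, b⟩, hg, hb⟩
    by_cases h1 : Comm Φ J (a / b) b
    · exact ⟨⟨(a, b / a), (hg.swap.div H).swap, fun h2 => hb (comm_step Pl H hc hΦ hJ hg h1 h2)⟩,
        Or.inr rfl⟩
    · exact ⟨⟨(a / b, b), hg.div H, h1⟩, Or.inl rfl⟩
  choose f hf using nxt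
  let y := fun m : ℕ => f^[m] ⟨(u, v), h, hn⟩
  have hy : ∀ m, Nx (y m).1 (y (m + 1)).1 := fun m => by
    simp only [y, Function.iterate_succ_apply']
    exact hf _
  have bad : ∀ m, ∃ P P' : Place E K, Dom P (y m).1 ∧ Dom P' (y m).1 ∧
      Φ (P.init J) ≠ Φ (P'.init J) := by
    intro m
    have := (y m).2.2
    simp only [Comm, not_forall] at this
    obtain ⟨P, P', hP, hP', hne⟩ := this
    exact ⟨P, P', ⟨hP.1, by simpa using hP.2.2 0, hP.2.1⟩,
      ⟨hP'.1, hP'.2.1, by simpa using hP'.2.2 0⟩, hne⟩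
  choose P P' hP hP' hne using bad
  obtain ⟨N, hN⟩ := init_stab Pl Hf Hf2 (bw ι) (isW_bw ι) J hJ.hom (fun m => (y m).1)
    (fun m => ne_snd H (y m).2.1.swap.gen) (fun m => ne_snd H (y m).2.1.gen) hy h.gen P hP
  exact hne N (by rw [hN _ _ (hP N) (hP' N)])

end Core

theorem two_of {K K' E : Type} [Field K] [Field K'] [Field E] [Algebra K K'] [Algebra K' E]
    [Algebra K E] [IsScalarTower K K' E] {y : K'} {z : E} (hy : Transcendental K y)
    (hz : Transcendental K' z) : Two K E := by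
  intro w hw
  rw [IntermediateField.isAlgebraic_adjoin_iff_top] at hw
  have h1 := Algebra.IsAlgebraic.trdeg_le_cardinalMk K ({w} : Set E)
  have : Algebra.Transcendental K K' := ⟨⟨y, hy⟩⟩
  have : Algebra.Transcendental K' E := ⟨⟨z, hz⟩⟩
  have a := Cardinal.one_le_iff_pos.2 (trdeg_pos K K')
  have b := Cardinal.one_le_iff_pos.2 (trdeg_pos K' E)
  rw [← trdeg_add_eq K K' (A := E), Cardinal.mk_singleton] at h1
  have := (add_le_add a b).trans h1
  norm_num at this

theorem gen_tower {K K' E : Type} [Field K] [Field K'] [Field E] [Algebra K K'] [Algebra K' E]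
    [Algebra K E] [IsScalarTower K K' E] {y : K'} {z : E} (hy : adjoin K {y} = ⊤)
    (hz : adjoin K' {z} = ⊤) : adjoin K {z, algebraMap K' E y} = ⊤ := by
  have h1 : ∀ c : K', algebraMap K' E c ∈ adjoin K {z, algebraMap K' E y} := by
    intro c
    have hc : c ∈ adjoin K {y} := by rw [hy]; trivial
    induction hc using IntermediateField.adjoin_induction with
    | mem x hx =>
      obtain rfl : x = y := hx
      exact mem_snd _ _
    | algebraMap c =>
      rw [← IsScalarTower.algebraMap_apply]; exact IntermediateField.algebraMap_mem _ _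
    | add a b _ _ ha hb => rw [map_add]; exact add_mem ha hb
    | inv a _ ha => rw [map_inv₀]; exact inv_mem ha
    | mul a b _ _ ha hb => rw [map_mul]; exact mul_mem ha hb
  rw [eq_top_iff]
  rintro x -
  have hx : x ∈ adjoin K' {z} := by rw [hz]; trivial
  induction hx using IntermediateField.adjoin_induction with
  | mem x hx =>
    obtain rfl : x = z := hx
    exact mem_fst _ _
  | algebraMap c => exact h1 c
  | add a b _ _ ha hb => exact add_mem ha hb
  | inv a _ ha => exact inv_mem ha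
  | mul a b _ _ ha hb => exact mul_mem ha hb

end Step

open Step in
theorem step_stmt (Hf : HfAPI) (Hf2 : HfAPI2) (Pl : PlaceAPI) (Sp : SpStmt) : StepStmt := by
  intro A ι κ K K' _ _ _ _ _ _ _ _ _ _ _ S Φ y η p hc hy hs hp hpy hΦ
  have adm : ∀ J : Ideal (Pxy ι K'), S.Adm J → S.Adm (p.init J) := fun J hJ =>
    Pl.adm A ι κ K' K S p J (over_bot hp) (Pl.eqv A K' K y η p hc hy hs hp hpy) hJ
  refine ⟨fun J J₁ J₂ h h₁ h₂ e => ?_, fun J h h1 e he => ?_, ?_⟩
  · obtain ⟨hN, t, ht, htv⟩ := Pl.dvr K' K y p hs hp hpy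
    refine hΦ.add _ _ _ (adm J h) (adm J₁ h₁) (adm J₂ h₂) ?_
    rw [Sp ι K' K p t J hN ht htv h.hom h.lin, Sp ι K' K p t J₁ hN ht htv h₁.hom h₁.lin,
      Sp ι K' K p t J₂ hN ht htv h₂.hom h₂.lin, e]
    exact Finsupp.sum_add_index' (fun _ => zero_smul _ _) fun _ _ _ => add_smul _ _ _
  · have a := (Hf2.init _ K' K (bw ι) p J (isW_bw ι) h.hom).2
    refine hΦ.eval _ (adm J h) (by rwa [a]) e ?_
    simpa only [a] using he
  · intro E _ _ _ _ _ z η' q q' J hc' hz hs' hq hq' hqz hqz' hJ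
    let : Algebra K E := ((algebraMap K' E).comp (algebraMap K K')).toAlgebra
    have : IsScalarTower K K' E := IsScalarTower.of_algebraMap_eq fun _ => rfl
    have : IsScalarTower κ K E := IsScalarTower.of_algebraMap_eq fun c => by
      rw [IsScalarTower.algebraMap_apply κ K' E, IsScalarTower.algebraMap_apply κ K K']
      rfl
    have hcE : ∀ (a : A) (c : K), a • algebraMap K E c = algebraMap K E (a • c) := fun a c => by
      rw [IsScalarTower.algebraMap_apply K K' E, hc', hc, ← IsScalarTower.algebraMap_apply]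
    have H : Two K E := two_of hs.1 hs'.1
    have g : GP A K z (algebraMap K' E y) :=
      ⟨gen_tower hs.2 hs'.2, ⟨η', hz⟩, ⟨η, fun a => by rw [hc', hy, map_zsmul]⟩⟩
    obtain ⟨P, hP, hi⟩ := Pl.comp E K' K q p
    obtain ⟨P', hP', hi'⟩ := Pl.comp E K' K q' p
    obtain ⟨Q, Q', hQ, hQ', e⟩ := wm Pl H hcE hΦ hJ g.swap
    have e1 := comm Hf Hf2 Pl H hcE hΦ hJ g P Q (lex_comp Pl hP hq hp hqz hpy) hQ
    have e2 := comm Hf Hf2 Pl H hcE hΦ hJ g.inv P' Q' (lex_comp Pl hP' hq' hp hqz' hpy) hQ'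
    rw [hi _ _ J (isW_bw ι) hJ.hom] at e1
    rw [hi' _ _ J (isW_bw ι) hJ.hom] at e2
    exact e1.trans (e.trans e2.symm)

end Pool.Agent.MP_d45d16_ag.Yag

end MrgPart1

-- ======== part 2: formerly Pool.Agent.MP_d45d16_ag.yag.Asm
section MrgPart2

/-!
ASM: from the top level to `F`.
-/

set_option autoImplicit false

open MvPolynomial Filter

namespace Pool.Agent.MP_d45d16_ag.Yag

namespace Asm

theorem isW (ι : Type) : IsW (bw ι) := by
  rintro (i | i)
  · exact Or.inl rfl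
  · exact Or.inr rfl

/-- The substitution over commutative rings. -/
noncomputable def th {ι R T : Type} [Fintype ι] [CommRing R] [CommRing T] (ρ : R →+* T)
    (g₁ g₂ : ι → ι → T) : Pxy ι R →+* Pxy ι T :=
  eval₂Hom (C.comp ρ) (Sum.elim (fun i => ∑ j, C (g₁ i j) * X (Sum.inl j))
    fun i => ∑ j, C (g₂ i j) * X (Sum.inr j))

theorem th_sq {ι R T R' T' : Type} [Fintype ι] [CommRing R] [CommRing T] [CommRing R']
    [CommRing T'] (ρ : R →+* T) (g₁ g₂ : ι → ι → T) (ρ' : R' →+* T') (g₁' g₂' : ι → ι → T')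
    (α : R →+* R') (β : T →+* T') (hc : ∀ c, ρ' (α c) = β (ρ c))
    (h₁ : ∀ i j, g₁' i j = β (g₁ i j)) (h₂ : ∀ i j, g₂' i j = β (g₂ i j)) (f : Pxy ι R) :
    MvPolynomial.map β (th ρ g₁ g₂ f) = th ρ' g₁' g₂' (MvPolynomial.map α f) := by
  have : (MvPolynomial.map β).comp (th ρ g₁ g₂) =
      (th ρ' g₁' g₂').comp (MvPolynomial.map α) := by
    refine MvPolynomial.ringHom_ext (fun c => ?_) fun v => ?_
    · simp [th, hc]
    · rcases v with i | i <;> simp [th, h₁, h₂]
  exact RingHom.congr_fun this f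

theorem act_theta {A ι κ E K : Type} [Group A] [Fintype ι] [Field κ] [Field E] [Field K]
    [MulSemiringAction A K] (S : Setup A ι κ) (ρ : E →+* K) (g₁ g₂ : Matrix ι ι K) (a : A)
    (hρ : ∀ c, a • ρ c = ρ c) (h₁ : ∀ i j, a • g₁ i j = ((S.χ j a : ℤˣ) : ℤ) • g₁ i j)
    (h₂ : ∀ i j, a • g₂ i j = g₂ i j) (f : Pxy ι E) :
    S.act a (theta ρ g₁ g₂ f) = theta ρ g₁ g₂ f := by
  have : (S.act a).comp (theta ρ g₁ g₂) = theta ρ g₁ g₂ := by
    refine MvPolynomial.ringHom_ext (fun c => ?_) fun v => ?_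
    · simp [theta, Setup.act, hρ]
    · rcases v with i | i
      · simp only [theta, Setup.act, RingHom.comp_apply, eval₂Hom_X', Sum.elim_inl, map_sum,
          map_mul, eval₂Hom_C, MulSemiringAction.toRingHom_apply, h₁]
        refine Finset.sum_congr rfl fun j _ => ?_
        rcases Int.units_eq_one_or (S.χ j a) with h | h <;> simp [h]
      · simp [theta, Setup.act, h₂]
  exact RingHom.congr_fun this f

theorem lin_of_le (hH : HfAPI) {ι K : Type} [Finite ι] [Field K] {J J' : Ideal (Pxy ι K)}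
    (h : J ≤ J') (hJ : Lin (bw ι) J) : Lin (bw ι) J' := by
  obtain ⟨C, hC⟩ := hJ
  exact ⟨C, fun d n => (hH.mono _ _ _ J J' _ (isW ι) h).trans (hC d n)⟩

theorem admF_of_le (hH : HfAPI) {ι F E : Type} [Finite ι] [Field F] [Field E] [Algebra F E]
    {I₁ I₂ : Set (MvPolynomial ι F)} {J J' : Ideal (Pxy ι E)} (h : J ≤ J')
    (hJ' : IsHom (bw ι) J') (hJ : AdmF I₁ I₂ J) : AdmF I₁ I₂ J' :=
  ⟨hJ', lin_of_le hH h hJ.lin, fun f hf => h (hJ.eq₁ f hf), fun f hf => h (hJ.eq₂ f hf)⟩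

/-- The image of an admissible ideal is admissible. -/
theorem adm (hH2 : HfAPI2) {A ι κ K F E E' : Type} [Group A] [Fintype ι] [DecidableEq ι]
    [Field κ] [Field K] [Field F] [Field E] [Field E'] [Algebra κ K] [Algebra F E]
    [Algebra K E'] [Algebra κ E'] [IsScalarTower κ K E'] [MulSemiringAction A E']
    (S : Setup A ι κ) (ρ : F →+* K) (g₁ g₂ : Matrix ι ι K) (I₁ I₂ : Set (MvPolynomial ι F))
    (hI : ∀ J : Ideal (Pxy ι K), (∀ f ∈ I₁, theta ρ g₁ g₂ (rename Sum.inl f) ∈ J) →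
      (∀ f ∈ I₂, theta ρ g₁ g₂ (rename Sum.inr f) ∈ J) →
      ∑ i ∈ S.T, X (Sum.inl i) ^ 2 ∈ J ∧ (∀ i ∉ S.T, X (Sum.inl i) ∈ J) ∧
        ∀ e ∈ S.eqs, rename Sum.inr (MvPolynomial.map (algebraMap κ K) e) ∈ J)
    (ρ' : E →+* E') (g₁' g₂' : Matrix ι ι E') (hu₁ : IsUnit g₁') (hu₂ : IsUnit g₂')
    (hc : ∀ c, ρ' (algebraMap F E c) = algebraMap K E' (ρ c))
    (e₁ : ∀ i j, g₁' i j = algebraMap K E' (g₁ i j))
    (e₂ : ∀ i j, g₂' i j = algebraMap K E' (g₂ i j))
    (hρ : ∀ (a : A) c, a • ρ' c = ρ' c)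
    (h₁ : ∀ (a : A) i j, a • g₁' i j = ((S.χ j a : ℤˣ) : ℤ) • g₁' i j)
    (h₂ : ∀ (a : A) i j, a • g₂' i j = g₂' i j) (J : Ideal (Pxy ι E)) (hJ : AdmF I₁ I₂ J) :
    S.Adm (J.map (theta ρ' g₁' g₂')) := by
  obtain ⟨t1, t2, -⟩ := hH2.theta ι E E' ρ' g₁' g₂' J hu₁ hu₂ hJ.hom
  have sq : ∀ f : Pxy ι F, MvPolynomial.map (algebraMap K E') (theta ρ g₁ g₂ f) =
      theta ρ' g₁' g₂' (MvPolynomial.map (algebraMap F E) f) :=
    th_sq ρ g₁ g₂ ρ' g₁' g₂' _ _ hc e₁ e₂
  obtain ⟨q1, q2, q3⟩ := hI ((J.map (theta ρ' g₁' g₂')).comap (MvPolynomial.map (algebraMap K E')))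
    (fun f hf => by
      rw [Ideal.mem_comap, sq, map_rename]
      exact Ideal.mem_map_of_mem _ (hJ.eq₁ f hf))
    (fun f hf => by
      rw [Ideal.mem_comap, sq, map_rename]
      exact Ideal.mem_map_of_mem _ (hJ.eq₂ f hf))
  refine ⟨t1, ?_, fun a => ?_, ?_, fun i hi => ?_, fun e he => ?_⟩
  · obtain ⟨C, hC⟩ := hJ.lin
    exact ⟨C, fun d n => by rw [t2]; exact hC d n⟩
  · have : J.map (theta ρ' g₁' g₂') ≤ (J.map (theta ρ' g₁' g₂')).comap (S.act a) := by
      rw [Ideal.map_le_iff_le_comap]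
      intro f hf
      rw [Ideal.mem_comap, Ideal.mem_comap, act_theta S ρ' g₁' g₂' a (hρ a) (h₁ a) (h₂ a)]
      exact Ideal.mem_map_of_mem _ hf
    exact fun f hf => this hf
  · simpa [Ideal.mem_comap] using q1
  · simpa [Ideal.mem_comap] using q2 i hi
  · have := q3 e he
    rwa [Ideal.mem_comap, map_rename, MvPolynomial.map_map, ← IsScalarTower.algebraMap_eq]
      at this

theorem map_aeval {F K E E' : Type} [Field F] [Field K] [Field E] [Field E'] [Algebra F E]
    [Algebra K E'] (ρ : F →+* K) (ρ' : E →+* E')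
    (hc : ∀ c, ρ' (algebraMap F E c) = algebraMap K E' (ρ c)) (y : E) (f : Polynomial F) :
    ρ' (Polynomial.aeval y f) = Polynomial.aeval (ρ' y) (f.map ρ) :=
  Polynomial.map_aeval_eq_aeval_map (RingHom.ext fun c => (hc c).symm) f y

/-- Places are compatible. -/
theorem val_map (hP : PlaceAPI) {F K E E' : Type} [Field F] [Field K] [Field E] [Field E']
    [Algebra F E] [Algebra K E'] (ρ : F →+* K) (ρ' : E →+* E')
    (hc : ∀ c, ρ' (algebraMap F E c) = algebraMap K E' (ρ c)) (y : E) (p : Place E F)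
    (q : Place E' K) (hy : Simple F y) (hy' : Simple K (ρ' y)) (hp : p.Over F) (hq : q.Over K)
    (hp0 : p.Val y 0) (hq0 : q.Val (ρ' y) 0) (z : E) (c : F) (h : p.Val z c) :
    q.Val (ρ' z) (ρ c) := by
  obtain ⟨f, g, h0, h1, h2⟩ := (hP.form E F y p hy hp hp0 z c).1 h
  have ev : ∀ u : Polynomial F, (u.map ρ).eval 0 = ρ (u.eval 0) := fun u => by
    rw [← Polynomial.coeff_zero_eq_eval_zero, ← Polynomial.coeff_zero_eq_eval_zero,
      Polynomial.coeff_map]
  refine (hP.form E' K (ρ' y) q hy' hq hq0 _ _).2 ⟨f.map ρ, g.map ρ, ?_, ?_, ?_⟩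
  · rw [ev]
    exact (map_ne_zero ρ).2 h0
  · rw [← map_aeval ρ ρ' hc, ← map_aeval ρ ρ' hc, ← map_mul, h1]
  · rw [ev, ev, ← map_mul, h2]

/-- Specialisation commutes with the substitution. -/
theorem init_map (hH : HfAPI) (hH2 : HfAPI2) {ι F K E E' : Type} [Fintype ι] [DecidableEq ι]
    [Field F] [Field K] [Field E] [Field E'] (ρ : F →+* K) (ρ' : E →+* E')
    (g₁ g₂ : Matrix ι ι K) (g₁' g₂' : Matrix ι ι E') (hu₁ : IsUnit g₁) (hu₂ : IsUnit g₂)
    (hu₁' : IsUnit g₁') (hu₂' : IsUnit g₂') (p : Place E F) (q : Place E' K)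
    (hv : ∀ z c, p.Val z c → q.Val (ρ' z) (ρ c)) (e₁ : ∀ i j, q.Val (g₁' i j) (g₁ i j))
    (e₂ : ∀ i j, q.Val (g₂' i j) (g₂ i j)) (J : Ideal (Pxy ι E)) (hJ : IsHom (bw ι) J) :
    (p.init J).map (theta ρ g₁ g₂) = q.init (J.map (theta ρ' g₁' g₂')) := by
  obtain ⟨a1, a2⟩ := hH2.init _ E F (bw ι) p J (isW ι) hJ
  obtain ⟨b1, b2, -⟩ := hH2.theta ι F K ρ g₁ g₂ _ hu₁ hu₂ a1
  obtain ⟨c1, c2, -⟩ := hH2.theta ι E E' ρ' g₁' g₂' J hu₁' hu₂' hJ
  obtain ⟨d1, d2⟩ := hH2.init _ E' K (bw ι) q _ (isW ι) c1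
  refine hH.eq _ K (bw ι) _ _ (isW ι) b1 d1 ?_ fun k => by rw [b2, a2, d2, c2]
  have hv' : ∀ v : p.V, q.Val (ρ' v) (ρ (p.r v)) := fun v => hv _ _ ⟨v.2, rfl⟩
  let ψ : p.V →+* q.V := (ρ'.comp p.V.subtype).codRestrict q.V fun v => (hv' v).1
  let γ₁ : ι → ι → q.V := fun i j => ⟨g₁' i j, (e₁ i j).1⟩
  let γ₂ : ι → ι → q.V := fun i j => ⟨g₂' i j, (e₂ i j).1⟩
  rw [Place.init, Ideal.map_map, Ideal.map_le_iff_le_comap]
  intro G hG
  rw [Ideal.mem_comap] at hG ⊢
  have s1 : MvPolynomial.map q.r (th ψ γ₁ γ₂ G) = theta ρ g₁ g₂ (MvPolynomial.map p.r G) :=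
    th_sq ψ γ₁ γ₂ ρ g₁ g₂ p.r q.r (fun v => (hv' v).2.symm) (fun i j => (e₁ i j).2.symm)
      (fun i j => (e₂ i j).2.symm) G
  have s2 : MvPolynomial.map q.V.subtype (th ψ γ₁ γ₂ G) =
      theta ρ' g₁' g₂' (MvPolynomial.map p.V.subtype G) :=
    th_sq ψ γ₁ γ₂ ρ' g₁' g₂' p.V.subtype q.V.subtype (fun _ => rfl) (fun _ _ => rfl)
      (fun _ _ => rfl) G
  rw [RingHom.comp_apply, ← s1]
  refine Ideal.mem_map_of_mem _ ?_
  rw [Ideal.mem_comap, s2]
  exact Ideal.mem_map_of_mem _ hG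

/-- The embedding of `F(y)` into the rational function field. -/
theorem ex_emb {F K E : Type} [Field F] [Field K] [Field E] [Algebra F E] (ρ : F →+* K) (y : E)
    (hy : Simple F y) : ∃ ρ' : E →+* RatFunc K,
      (∀ c, ρ' (algebraMap F E c) = algebraMap K (RatFunc K) (ρ c)) ∧ ρ' y = RatFunc.X := by
  let φ : Polynomial F →+* RatFunc K :=
    (algebraMap (Polynomial K) (RatFunc K)).comp (Polynomial.mapRingHom ρ)
  have hφ : Function.Injective φ :=
    (IsFractionRing.injective (Polynomial K) (RatFunc K)).comp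
      (Polynomial.map_injective ρ ρ.injective)
  let l : RatFunc F →+* RatFunc K :=
    RatFunc.liftRingHom φ (nonZeroDivisors_le_comap_nonZeroDivisors_of_injective φ hφ)
  let e : RatFunc F ≃ₐ[F] E := (RatFunc.algEquivOfTranscendental y hy.1).trans
    ((IntermediateField.equivOfEq hy.2).trans IntermediateField.topEquiv)
  have he : e RatFunc.X = y := RatFunc.algEquivOfTranscendental_X y hy.1
  refine ⟨l.comp e.symm.toRingEquiv.toRingHom, fun c => ?_, ?_⟩
  · have : e.symm (algebraMap F E c) = RatFunc.C c := e.symm.commutes c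
    change l (e.symm (algebraMap F E c)) = _
    rw [this, RatFunc.liftRingHom_C]
    simp [φ]
  · change l (e.symm y) = _
    rw [← he, e.symm_apply_apply, RatFunc.liftRingHom_X]
    simp [φ]

theorem fixed {A F E E' : Type} [Group A] [Field F] [Field E] [Field E'] [Algebra F E]
    [MulSemiringAction A E'] (ρ' : E →+* E') (y : E) (hy : Simple F y) (a : A)
    (hc : ∀ c, a • ρ' (algebraMap F E c) = ρ' (algebraMap F E c)) (h : a • ρ' y = ρ' y) (z : E) :
    a • ρ' z = ρ' z := by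
  have hz : z ∈ IntermediateField.adjoin F {y} := hy.2 ▸ IntermediateField.mem_top
  have : (IntermediateField.adjoin F {y}).toSubfield ≤
      RingHom.eqLocusField ((MulSemiringAction.toRingHom A E' a).comp ρ') ρ' := by
    rw [IntermediateField.adjoin_toSubfield, Subfield.closure_le]
    rintro x (⟨c, rfl⟩ | rfl)
    · exact hc c
    · exact h
  exact this hz

end Asm

open Asm in
theorem asm_stmt (hH : HfAPI) (hH2 : HfAPI2) (hP : PlaceAPI) (hC : CycAPI) : AsmStmt := by
  intro A ι κ K F _ _ _ _ _ _ _ _ S Φ ρ g₁ g₂ I₁ I₂ hΦ hu₁ hu₂ hρ h₁ h₂ hI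
  have ad : ∀ J : Ideal (Pxy ι F), AdmF I₁ I₂ J → S.Adm (J.map (theta ρ g₁ g₂)) := fun J hJ =>
    adm hH2 S ρ g₁ g₂ I₁ I₂ hI ρ g₁ g₂ hu₁ hu₂ (fun _ => rfl) (fun _ _ => rfl) (fun _ _ => rfl)
      hρ h₁ h₂ J hJ
  refine ⟨fun J f m hJ hf => ?_, fun J hJ hU => ?_, fun J hJ h1 e he => ?_, ?_⟩
  · have j1 : AdmF I₁ I₂ (J ⊔ Ideal.span {f}) :=
      admF_of_le hH le_sup_left (hH.sup _ _ _ J f m hJ.hom hf) hJ
    have j2 : AdmF I₁ I₂ (J.colon {f}) :=
      admF_of_le hH (fun x hx => Submodule.mem_colon_singleton.2 (J.mul_mem_right f hx))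
        (hH.colon _ _ _ J f m hJ.hom hf) hJ
    refine hΦ.add _ _ _ (ad _ hJ) (ad _ j1) (ad _ j2) ?_
    rw [(hH2.theta ι F K ρ g₁ g₂ J hu₁ hu₂ hJ.hom).2.2 f, Ideal.map_sup, Ideal.map_span,
      Set.image_singleton]
    exact hC.add ι K _ _ m (ad _ hJ).hom (ad _ hJ).lin (hH2.theta_hom ι F K ρ g₁ g₂ f m hf)
  · have t2 := (hH2.theta ι F K ρ g₁ g₂ J hu₁ hu₂ hJ.hom).2.1
    have h0 : cyc (J.map (theta ρ g₁ g₂)) = 0 := by
      refine hC.zero ι K _ (ad _ hJ).hom (ad _ hJ).lin fun h => hU fun C => ?_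
      obtain ⟨n, hn⟩ := h C
      exact ⟨n, by rwa [t2] at hn⟩
    have := hΦ.add _ _ _ (ad _ hJ) (ad _ hJ) (ad _ hJ) (by rw [h0, add_zero])
    exact left_eq_add.1 this
  · have t2 := (hH2.theta ι F K ρ g₁ g₂ J hu₁ hu₂ hJ.hom).2.1
    refine hΦ.eval _ (ad _ hJ) (by rw [t2]; exact h1) e ?_
    simpa only [t2] using he
  · intro E _ _ y p p' J hy hp hp' hy0 hy0' hJ
    let _ : MulSemiringAction A (RatFunc K) :=
      IsFractionRing.mulSemiringAction A (Polynomial K) (RatFunc K)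
    have hs : ∀ (a : A) (u : Polynomial K), a • algebraMap (Polynomial K) (RatFunc K) u =
        algebraMap (Polynomial K) (RatFunc K) (a • u) := fun a u =>
      IsFractionRing.ringEquivOfRingEquiv_algebraMap
        (MulSemiringAction.toRingEquiv A (Polynomial K) a) u
    have hK : ∀ (a : A) (c : K), a • algebraMap K (RatFunc K) c =
        algebraMap K (RatFunc K) (a • c) := fun a c => by
      have := hs a (Polynomial.C c)
      rwa [Polynomial.smul_C] at this
    have hX : ∀ a : A, a • (RatFunc.X : RatFunc K) = RatFunc.X := fun a => by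
      have := hs a Polynomial.X
      rwa [Polynomial.smul_X] at this
    obtain ⟨ρ', hc, hyX⟩ := ex_emb ρ y hy
    have hS : Simple K (RatFunc.X : RatFunc K) := ⟨RatFunc.transcendental_X, RatFunc.adjoin_X⟩
    have hS' := hP.simple_inv _ K _ hS
    obtain ⟨q, hq, hq0⟩ := hP.ex _ K _ hS
    obtain ⟨q', hq', hq0'⟩ := hP.ex _ K _ hS'
    have hu₁' : IsUnit (g₁.map (algebraMap K (RatFunc K))) :=
      hu₁.map (algebraMap K (RatFunc K)).mapMatrix
    have hu₂' : IsUnit (g₂.map (algebraMap K (RatFunc K))) :=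
      hu₂.map (algebraMap K (RatFunc K)).mapMatrix
    have hA := adm hH2 S ρ g₁ g₂ I₁ I₂ hI ρ' _ _ hu₁' hu₂' hc (fun _ _ => rfl) (fun _ _ => rfl)
      (fun a => fixed ρ' y hy a (fun c => by rw [hc, hK, hρ]) (by rw [hyX, hX]))
      (fun a i j => by rw [Matrix.map_apply, hK, h₁, map_zsmul])
      (fun a i j => by rw [Matrix.map_apply, hK, h₂]) J hJ
    have hyX' : ρ' y⁻¹ = RatFunc.X⁻¹ := by rw [map_inv₀, hyX]
    have v1 := val_map hP ρ ρ' hc y p q hy (hyX ▸ hS) hp hq hy0 (hyX ▸ hq0)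
    have v2 := val_map hP ρ ρ' hc y⁻¹ p' q' (hP.simple_inv _ F _ hy) (hyX' ▸ hS') hp' hq' hy0'
      (hyX' ▸ hq0')
    rw [init_map hH hH2 ρ ρ' g₁ g₂ _ _ hu₁ hu₂ hu₁' hu₂' p q v1 (fun _ _ => hq _)
      (fun _ _ => hq _) J hJ.hom, init_map hH hH2 ρ ρ' g₁ g₂ _ _ hu₁ hu₂ hu₁' hu₂' p' q' v2
      (fun _ _ => hq' _) (fun _ _ => hq' _) J hJ.hom]
    exact hΦ.move (RatFunc K) RatFunc.X 1 q q' _ hK (fun a => by simp [hX]) hS hq hq' hq0 hq0' hA

end Pool.Agent.MP_d45d16_ag.Yag

end MrgPart2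

-- ======== part 3: formerly Pool.Agent.MP_d45d16_ag.yag.Dec
section MrgPart3

/-!
Row DEC: dehomogenisation, and the decomposition of the invariant along the cycle.
-/

set_option autoImplicit false

open MvPolynomial Filter

namespace Pool.Agent.MP_d45d16_ag.Yag

namespace Dec

variable {ι F : Type} [Field F]

theorem prod_pow {L : Type} [CommRing L] (α β : L) (d : ι ⊕ ι →₀ ℕ) :
    (d.prod fun v k => (Sum.elim (fun _ => α) (fun _ => β) v : L) ^ k) =
      α ^ (Finsupp.weight (bw ι) d).1 * β ^ (Finsupp.weight (bw ι) d).2 := by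
  induction d using Finsupp.induction_linear with
  | zero => simp
  | add f g hf hg =>
    rw [Finsupp.prod_add_index' (fun _ => pow_zero _) (fun _ _ _ => pow_add _ _ _), hf, hg,
      map_add, Prod.fst_add, Prod.snd_add, pow_add, pow_add]
    ring
  | single v k =>
    rw [Finsupp.prod_single_index (by exact pow_zero _), Finsupp.weight_single]
    rcases v with v | v <;> simp [bw]

/-- the substitution scaling the two groups of variables -/
noncomputable def scale {L : Type} [CommRing L] (φ : Pxy ι F →+* L) (α β : L) : Pxy ι F →+* L :=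
  eval₂Hom (φ.comp C) fun v => φ (X v) * Sum.elim (fun _ => α) (fun _ => β) v

theorem scale_hom {L : Type} [CommRing L] (φ : Pxy ι F →+* L) (α β : L) {g : Pxy ι F} {m : ℕ × ℕ}
    (hg : IsWeightedHomogeneous (bw ι) g m) :
    scale φ α β g = φ g * (α ^ m.1 * β ^ m.2) := by
  induction hg using IsWeightedHomogeneous.induction_on with
  | zero => simp
  | add p q hp hq h1 h2 => rw [map_add, map_add, h1, h2, add_mul]
  | monomial d r hr =>
    rw [scale, coe_eval₂Hom, eval₂_monomial, ← hr, ← prod_pow, monomial_eq, map_mul,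
      map_finsuppProd, mul_assoc, ← Finsupp.prod_mul]
    simp only [RingHom.comp_apply, mul_pow, map_pow]

theorem mem_of_hom {J : Ideal (Pxy ι F)} {L : Type} [CommRing L] (ψ : Pxy ι F →+* L) (I : Ideal L)
    (hJ : IsHom (bw ι) J)
    (h : ∀ f m, IsWeightedHomogeneous (bw ι) f m → f ∈ J → ψ f ∈ I) {f : Pxy ι F} (hf : f ∈ J) :
    ψ f ∈ I := by
  rw [← sum_weightedHomogeneousComponent (bw ι) f,
    finsum_eq_sum _ (weightedHomogeneousComponent_finsupp f), map_sum]
  exact I.sum_mem fun m _ =>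
    h _ m (weightedHomogeneousComponent_isWeightedHomogeneous m f) (hJ f hf m)

theorem le_of_hom {J q : Ideal (Pxy ι F)} (hJ : IsHom (bw ι) J)
    (h : ∀ f m, IsWeightedHomogeneous (bw ι) f m → f ∈ J → f ∈ q) : J ≤ q :=
  fun _ hf => mem_of_hom (RingHom.id _) q hJ h hf

/-- dehomogenisation is injective on every bidegree, up to powers of the two variables -/
theorem key {J : Ideal (Pxy ι F)} (hJ : IsHom (bw ι) J) (i j : ι) {f : Pxy ι F} {m : ℕ × ℕ}
    (hf : IsWeightedHomogeneous (bw ι) f m) (h : f ∈ J ⊔ deh F i j) :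
    ∃ N : ℕ, (X (Sum.inl i) * X (Sum.inr j)) ^ N * f ∈ J := by
  set r : Pxy ι F := X (Sum.inl i) * X (Sum.inr j) with hr
  let L := Localization.Away r
  let φ : Pxy ι F →+* L := algebraMap _ _
  have hu : IsUnit (φ (X (Sum.inl i)) * φ (X (Sum.inr j))) := by
    rw [← map_mul]
    exact IsLocalization.Away.algebraMap_isUnit r
  obtain ⟨α, hα⟩ := (isUnit_of_mul_isUnit_left hu).exists_right_inv
  obtain ⟨β, hβ⟩ := (isUnit_of_mul_isUnit_right hu).exists_right_inv
  have h1 : J ⊔ deh F i j ≤ (J.map φ).comap (scale φ α β) := by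
    refine sup_le (fun g hg => Ideal.mem_comap.2
      (mem_of_hom (scale φ α β) _ hJ (fun g k hk hg => ?_) hg)) ?_
    · rw [scale_hom φ α β hk]
      exact Ideal.mul_mem_right _ _ (Ideal.mem_map_of_mem _ hg)
    · rw [deh, Ideal.span_le]
      rintro g (rfl | rfl)
      · simp [scale, hα]
      · simp [scale, hβ]
  have h2 : φ f * (α ^ m.1 * β ^ m.2) ∈ J.map φ := by
    rw [← scale_hom φ α β hf]
    exact h1 h
  have hunit : IsUnit (α ^ m.1 * β ^ m.2) :=
    ((IsUnit.of_mul_eq_one_right _ hα).pow _).mul ((IsUnit.of_mul_eq_one_right _ hβ).pow _)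
  rw [Ideal.mul_unit_mem_iff_mem _ hunit] at h2
  obtain ⟨_, ⟨N, rfl⟩, hN⟩ :=
    (IsLocalization.algebraMap_mem_map_algebraMap_iff (Submonoid.powers r) L J f).1 h2
  exact ⟨N, hN⟩

theorem mon_sub (i j : ι) (a b : ℕ) (f : Pxy ι F) :
    X (Sum.inl i) ^ a * X (Sum.inr j) ^ b * f - f ∈ deh F i j := by
  rw [← Ideal.Quotient.eq]
  have h1 : Ideal.Quotient.mk (deh F i j) (X (Sum.inl i)) = 1 := by
    rw [← map_one (Ideal.Quotient.mk (deh F i j)), Ideal.Quotient.eq]
    exact Ideal.subset_span (by simp)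
  have h2 : Ideal.Quotient.mk (deh F i j) (X (Sum.inr j)) = 1 := by
    rw [← map_one (Ideal.Quotient.mk (deh F i j)), Ideal.Quotient.eq]
    exact Ideal.subset_span (by simp)
  simp [h1, h2]

theorem mon_hom (i j : ι) (a b : ℕ) {f : Pxy ι F} {m : ℕ × ℕ}
    (hf : IsWeightedHomogeneous (bw ι) f m) :
    IsWeightedHomogeneous (bw ι) (X (Sum.inl i) ^ a * X (Sum.inr j) ^ b * f) ((a, b) + m) := by
  have h := (((isWeightedHomogeneous_X F (bw ι) (Sum.inl i)).pow a).mul
    ((isWeightedHomogeneous_X F (bw ι) (Sum.inr j)).pow b)).mul hf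
  simpa [bw] using h

/-- homogenisation -/
theorem homog (i j : ι) (f : Pxy ι F) :
    ∃ g m, IsWeightedHomogeneous (bw ι) g m ∧ g - f ∈ deh F i j := by
  induction f using MvPolynomial.induction_on' with
  | monomial d r => exact ⟨_, _, isWeightedHomogeneous_monomial _ d r rfl, by simp⟩
  | add p q hp hq =>
    obtain ⟨g, m, hg, h1⟩ := hp
    obtain ⟨g', m', hg', h2⟩ := hq
    refine ⟨X (Sum.inl i) ^ m'.1 * X (Sum.inr j) ^ m'.2 * g +
      X (Sum.inl i) ^ m.1 * X (Sum.inr j) ^ m.2 * g', m' + m, (mon_hom i j _ _ hg).add ?_, ?_⟩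
    · rw [add_comm m']
      exact mon_hom i j _ _ hg'
    · have := Ideal.add_mem _ (Ideal.add_mem _ (mon_sub i j m'.1 m'.2 g) h1)
        (Ideal.add_mem _ (mon_sub i j m.1 m.2 g') h2)
      convert this using 1
      ring

theorem prime (q : Ideal (Pxy ι F)) (i j : ι) (hq : IsHom (bw ι) q) (hp : q.IsPrime)
    (hi : X (Sum.inl i) ∉ q) (hj : X (Sum.inr j) ∉ q) : (q ⊔ deh F i j).IsPrime ∧
      ∀ f m, IsWeightedHomogeneous (bw ι) f m → f ∈ q ⊔ deh F i j → f ∈ q := by
  have h2 : ∀ f m, IsWeightedHomogeneous (bw ι) f m → f ∈ q ⊔ deh F i j → f ∈ q := by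
    intro f m hf h
    obtain ⟨N, hN⟩ := key hq i j hf h
    refine (hp.mem_or_mem hN).resolve_left fun h1 => ?_
    exact (hp.mem_or_mem (hp.mem_of_pow_mem N h1)).elim hi hj
  refine ⟨⟨fun h => hp.ne_top ((Ideal.eq_top_iff_one _).2
    (h2 1 0 (isWeightedHomogeneous_one F _) (h ▸ Submodule.mem_top))), fun {f g} h => ?_⟩, h2⟩
  obtain ⟨f', m, hf', h3⟩ := homog i j f
  obtain ⟨g', m', hg', h4⟩ := homog i j g
  have h3' : f' - f ∈ q ⊔ deh F i j := Ideal.mem_sup_right h3
  have h4' : g' - g ∈ q ⊔ deh F i j := Ideal.mem_sup_right h4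
  have h5 : f' * g' ∈ q ⊔ deh F i j := by
    have := Ideal.add_mem _ h (Ideal.add_mem _ (Ideal.mul_mem_right g' _ h3')
      (Ideal.mul_mem_left _ f h4'))
    convert this using 1
    ring
  rcases hp.mem_or_mem (h2 _ _ (hf'.mul hg') h5) with h6 | h6
  · left
    simpa using Ideal.sub_mem _ (Ideal.mem_sup_left h6) h3'
  · right
    simpa using Ideal.sub_mem _ (Ideal.mem_sup_left h6) h4'

theorem colon_sup {J : Ideal (Pxy ι F)} (hJ : IsHom (bw ι) J) (i j : ι) {f : Pxy ι F} {m : ℕ × ℕ}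
    (hf : IsWeightedHomogeneous (bw ι) f m) :
    J.colon {f} ⊔ deh F i j = (J ⊔ deh F i j).colon {f} := by
  apply le_antisymm
  · refine sup_le (fun g hg => ?_) fun g hg => ?_
    · rw [Submodule.mem_colon_singleton] at hg ⊢
      exact Ideal.mem_sup_left hg
    · rw [Submodule.mem_colon_singleton]
      exact Ideal.mem_sup_right (Ideal.mul_mem_right _ _ hg)
  · intro g hg
    rw [Submodule.mem_colon_singleton, smul_eq_mul] at hg
    obtain ⟨g', m', hg', h1⟩ := homog i j g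
    have h2 : g' * f ∈ J ⊔ deh F i j := by
      have := Ideal.add_mem _ hg (Ideal.mem_sup_right (Ideal.mul_mem_right f _ h1))
      convert this using 1
      ring
    obtain ⟨N, hN⟩ := key hJ i j (hg'.mul hf) h2
    have h3 : X (Sum.inl i) ^ N * X (Sum.inr j) ^ N * g' ∈ J.colon {f} := by
      rw [Submodule.mem_colon_singleton, smul_eq_mul, ← mul_pow, mul_assoc]
      exact hN
    have := Ideal.sub_mem _ (Ideal.mem_sup_left (T := deh F i j) h3)
      (Ideal.mem_sup_right (Ideal.add_mem _ (mon_sub i j N N g') h1))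
    convert this using 1
    ring

theorem len_add (hL : LenAPI) {R : Type} [CommRing R] (n : PrimeSpectrum R) (I : Ideal R) (f : R) :
    lenAt n (R ⧸ I) = lenAt n (R ⧸ I.colon {f}) + lenAt n (R ⧸ (I ⊔ Ideal.span {f})) := by
  let a : (R ⧸ I.colon {f}) →ₗ[R] R ⧸ I :=
    Submodule.mapQ (I.colon {f}) I (LinearMap.toSpanSingleton R R f) fun x hx => by
      simpa [Submodule.mem_colon_singleton] using hx
  let b : (R ⧸ I) →ₗ[R] R ⧸ (I ⊔ Ideal.span {f}) := Submodule.factor le_sup_left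
  have ha : ∀ x : R, a (Submodule.Quotient.mk x) = Submodule.Quotient.mk (x * f) := fun x => rfl
  have hb : ∀ x : R, b (Submodule.Quotient.mk x) = Submodule.Quotient.mk x := fun x => rfl
  refine hL.exact R _ _ _ n a b ?_ ?_ ?_
  · rw [injective_iff_map_eq_zero]
    intro x hx
    obtain ⟨x, rfl⟩ := Submodule.Quotient.mk_surjective _ x
    rw [ha, Submodule.Quotient.mk_eq_zero] at hx
    rw [Submodule.Quotient.mk_eq_zero, Submodule.mem_colon_singleton]
    exact hx
  · intro x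
    obtain ⟨x, rfl⟩ := Submodule.Quotient.mk_surjective _ x
    exact ⟨_, hb x⟩
  · intro x
    obtain ⟨x, rfl⟩ := Submodule.Quotient.mk_surjective _ x
    rw [hb, Submodule.Quotient.mk_eq_zero]
    constructor
    · intro hx
      obtain ⟨y, hy, z, hz, rfl⟩ := Submodule.mem_sup.1 hx
      obtain ⟨c, rfl⟩ := Ideal.mem_span_singleton'.1 hz
      refine ⟨Submodule.Quotient.mk c, ?_⟩
      rw [ha, Submodule.Quotient.eq]
      simpa using hy
    · rintro ⟨c, hc⟩
      obtain ⟨c, rfl⟩ := Submodule.Quotient.mk_surjective _ c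
      rw [ha, Submodule.Quotient.eq] at hc
      have := Ideal.sub_mem _ (Ideal.mem_sup_right (S := I)
        (Ideal.mul_mem_left _ c (Ideal.mem_span_singleton_self f))) (Ideal.mem_sup_left hc)
      simpa using this

theorem len_zero (hL : LenAPI) {R : Type} [CommRing R] (n : PrimeSpectrum R) (I : Ideal R)
    (h : ¬ I ≤ n.asIdeal) : lenAt n (R ⧸ I) = 0 := by
  obtain ⟨u, hu, hn⟩ := Set.not_subset.1 h
  refine (hL.zero R _ n).2 fun x => ⟨u, hn, ?_⟩
  obtain ⟨x, rfl⟩ := Submodule.Quotient.mk_surjective _ x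
  rw [← Submodule.Quotient.mk_smul, Submodule.Quotient.mk_eq_zero]
  exact Ideal.mul_mem_right _ _ hu

theorem isW : IsW (bw ι) := by
  rintro (v | v)
  · exact Or.inl rfl
  · exact Or.inr rfl

theorem adm_mono [Finite ι] (hH : HfAPI) {I₁ I₂ : Set (MvPolynomial ι F)} {J J' : Ideal (Pxy ι F)}
    (hJ : AdmF I₁ I₂ J) (h : IsHom (bw ι) J') (hle : J ≤ J') : AdmF I₁ I₂ J' := by
  obtain ⟨c, hc⟩ := hJ.lin
  exact ⟨h, ⟨c, fun d n => (hH.mono _ F _ J J' _ isW hle).trans (hc d n)⟩,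
    fun f hf => hle (hJ.eq₁ f hf), fun f hf => hle (hJ.eq₂ f hf)⟩

theorem mem_of_x {J : Ideal (Pxy ι F)} (h : ∀ i, X (Sum.inl i) ∈ J) {f : Pxy ι F} {d n : ℕ}
    (hf : IsWeightedHomogeneous (bw ι) f (d + 1, n)) : f ∈ J := by
  have h1 : Ideal.span (X '' Set.range (Sum.inl : ι → ι ⊕ ι) : Set (Pxy ι F)) ≤ J := by
    rw [Ideal.span_le]
    rintro _ ⟨_, ⟨i, rfl⟩, rfl⟩
    exact h i
  refine h1 (mem_ideal_span_X_image.2 fun k hk => ?_)
  by_contra hn
  push Not at hn
  have h2 := congrArg Prod.fst (hf (mem_support_iff.1 hk))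
  rw [Finsupp.weight_apply, Finsupp.sum, Prod.fst_sum] at h2
  rw [Finset.sum_eq_zero] at h2
  · exact absurd h2 (by simp)
  · rintro (v | v) _
    · simp [hn _ ⟨v, rfl⟩]
    · simp [bw]

/-- a prime of linear growth below the chart of a curve prime is that prime -/
theorem eq_of_le [Finite ι] (hH : HfAPI) {J : Ideal (Pxy ι F)} (hJ : IsHom (bw ι) J)
    (hp : J.IsPrime) (hl : Lin (bw ι) J) {q n : PrimeSpectrum (Pxy ι F)} (hq : CrvP q) {i j : ι}
    (hn : n.asIdeal = q.asIdeal ⊔ deh F i j) (hle : J ⊔ deh F i j ≤ n.asIdeal) :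
    J = q.asIdeal := by
  have hx : ∀ v, X v - 1 ∈ deh F i j → X v ∉ q.asIdeal := by
    intro v h1 h2
    refine n.isPrime.ne_top ((Ideal.eq_top_iff_one _).2 ?_)
    rw [hn]
    simpa using Ideal.sub_mem _ (Ideal.mem_sup_left h2) (Ideal.mem_sup_right h1)
  have hi := hx (Sum.inl i) (Ideal.subset_span (by simp))
  have hj := hx (Sum.inr j) (Ideal.subset_span (by simp))
  refine hH.rigid _ F _ q.asIdeal J isW hq.1 hJ q.isPrime hp (le_of_hom hJ fun f m hf h => ?_) hl
    hq.2.2 (Or.inl ⟨Sum.inl i, rfl, hi⟩)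
  exact (prime q.asIdeal i j hq.1 q.isPrime hi hj).2 f m hf (hn ▸ hle (Ideal.mem_sup_left h))

end Dec

open Dec in
theorem decAPI (hL : LenAPI) (hH : HfAPI) : DecAPI where
  prime := fun _ _ _ q i j => Dec.prime q i j
  dec := by
    intro ι F _ _ I₁ I₂ Φ J hΦ hJ
    refine hH.ind _ F (bw ι) J (fun J => ∃ m : PrimeSpectrum (Pxy ι F) →₀ ℕ,
      (∀ q ∈ m.support, CrvP q) ∧
      (∀ q, CrvP q → ∀ (i j : ι) (n : PrimeSpectrum (Pxy ι F)),
        n.asIdeal = q.asIdeal ⊔ deh F i j → lenAt n (Pxy ι F ⧸ (J ⊔ deh F i j)) = m q) ∧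
      Φ J = m.sum fun q k => (k : ZMod 2) * Φ q.asIdeal) ?_ ?_ ?_ J hJ.hom le_rfl
    · refine ⟨0, by simp, fun q _ i j n _ => ?_, ?_⟩
      · rw [Finsupp.zero_apply, Nat.cast_zero]
        exact len_zero hL n _ fun h => n.isPrime.ne_top (top_le_iff.1 (le_sup_left.trans h))
      · rw [Finsupp.sum_zero_index]
        refine hΦ.zero ⊤ (adm_mono hH hJ (fun _ _ _ => Submodule.mem_top) le_top) fun h => ?_
        obtain ⟨n, hn⟩ := h 0
        rw [(hH.zero _ F _ ⊤ _ isW).2 fun _ _ => Submodule.mem_top] at hn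
        exact lt_irrefl _ hn
    · intro J' h1 h2 h3
      have hA := adm_mono hH hJ h1 h2
      by_cases hc : CrvP ⟨J', h3⟩
      · refine ⟨Finsupp.single ⟨J', h3⟩ 1, fun q hq => ?_, fun q hq i j n hn => ?_, ?_⟩
        · rw [Finset.mem_singleton.1 (Finsupp.support_single_subset hq)]
          exact hc
        · by_cases he : (⟨J', h3⟩ : PrimeSpectrum (Pxy ι F)) = q
          · subst he
            rw [Finsupp.single_eq_same, Nat.cast_one, ← hn]
            exact hL.one _ n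
          · rw [Finsupp.single_eq_of_ne' he, Nat.cast_zero]
            exact len_zero hL n _ fun h =>
              he (PrimeSpectrum.ext (eq_of_le hH h1 h3 hA.lin hq hn h))
        · rw [Finsupp.sum_single_index (by simp)]
          simp
      · refine ⟨0, by simp, fun q hq i j n hn => ?_, ?_⟩
        · rw [Finsupp.zero_apply, Nat.cast_zero]
          refine len_zero hL n _ fun h => hc ?_
          have he : (⟨J', h3⟩ : PrimeSpectrum (Pxy ι F)) = q :=
            PrimeSpectrum.ext (eq_of_le hH h1 h3 hA.lin hq hn h)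
          exact he ▸ hq
        · rw [Finsupp.sum_zero_index]
          by_cases hu : Unb (bw ι) J'
          · have hx : ∀ i, X (Sum.inl i) ∈ J' := fun i => by
              by_contra hi
              exact hc ⟨h1, ⟨i, hi⟩, hu⟩
            have hz : ∀ d n, hf (bw ι) J' (d + 1, n) = 0 := fun d n =>
              (hH.zero _ F _ J' _ isW).2 fun f hf => mem_of_x hx hf
            have := hΦ.eval J' hA (by rw [hz 0 0]; norm_num) 0 (by
              filter_upwards [eventually_gt_atTop 0] with d hd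
              obtain ⟨d, rfl⟩ := Nat.exists_eq_add_one_of_ne_zero hd.ne'
              exact Eventually.of_forall fun n => by rw [hz])
            simpa using this
          · exact hΦ.zero J' hA hu
    · rintro J' f m h1 h2 h3 ⟨m₁, a1, a2, a3⟩ ⟨m₂, b1, b2, b3⟩
      classical
      refine ⟨m₁ + m₂, fun q hq => ?_, fun q hq i j n hn => ?_, ?_⟩
      · rcases Finset.mem_union.1 (Finsupp.support_add hq) with h | h
        · exact a1 q h
        · exact b1 q h
      · rw [len_add hL n _ f, ← colon_sup h1 i j h3, sup_right_comm, a2 q hq i j n hn,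
          b2 q hq i j n hn, Finsupp.add_apply, Nat.cast_add, add_comm]
      · rw [hΦ.add J' f m (adm_mono hH hJ h1 h2) h3, a3, b3,
          Finsupp.sum_add_index' (by simp) (fun _ _ _ => by rw [Nat.cast_add, add_mul])]

end Pool.Agent.MP_d45d16_ag.Yag

end MrgPart3

-- ======== part 4: formerly Pool.Agent.MP_d45d16_ag.yag.Phi
section MrgPart4

/-!
The invariant of a curve descends to cobordism.
-/

set_option autoImplicit false

open AlgebraicGeometry CategoryTheory Limits MvPolynomial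

namespace Pool.Agent.MP_d45d16_ag.Yag

namespace Phi

theorem supp_ker {Z T : Scheme.{0}} (i : Z ⟶ T) [IsClosedImmersion i] (x : T) :
    x ∈ i.ker.support ↔ x ∈ Set.range i := by
  rw [← SetLike.mem_coe, i.support_ker, i.isClosedEmbedding.isClosed_range.closure_eq]

theorem supp_inf {T : Scheme.{0}} (I J : T.IdealSheafData) (x : T) :
    x ∈ (I ⊓ J).support ↔ x ∈ I.support ∨ x ∈ J.support := by
  constructor
  · intro h
    have h1 : I * J ≤ I ⊓ J := fun U => by
      simpa using (Ideal.mul_le_inf : I.ideal U * J.ideal U ≤ I.ideal U ⊓ J.ideal U)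
    exact Scheme.IdealSheafData.support_antitone h1 h
  · rintro (h | h)
    · exact Scheme.IdealSheafData.support_antitone inf_le_left h
    · exact Scheme.IdealSheafData.support_antitone inf_le_right h

theorem locGen_ker (hI : IdlAPI) {Z T : Scheme.{0}} (i : Z ⟶ T) (hi : IsClosedImmersion i) (y : Z)
    (hy : IsField (Z.presheaf.stalk y)) : LocGen i.ker (i y) := by
  intro B ch q hch hq z hz
  let φ : B ⟶ CommRingCat.of (B ⧸ idl ch i.ker) := CommRingCat.ofHom (Ideal.Quotient.mk _)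
  obtain ⟨ch', hpb⟩ := hI.sub T Z B _ ch i φ hi Ideal.Quotient.mk_surjective Ideal.mk_ker
  have : IsOpenImmersion ch' := MorphismProperty.of_isPullback (P := @IsOpenImmersion) hpb.flip hch
  obtain ⟨p, hp1, hp2⟩ := Scheme.exists_preimage_of_isPullback hpb y q hq.symm
  let p' : PrimeSpectrum (B ⧸ idl ch i.ker) := p
  have hq' : PrimeSpectrum.comap (Ideal.Quotient.mk (idl ch i.ker)) p' = q := hp2
  have e : Z.presheaf.stalk (ch' p) ≃+* Localization.AtPrime p'.asIdeal :=
    (asIso (ch'.stalkMap p) ≪≫ Spec.stalkIso _ p).commRingCatIsoToRingEquiv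
  have hy' : IsField (Z.presheaf.stalk (ch' p)) := by
    have h : ch' p = y := hp1
    rw [h]
    exact hy
  have hf : IsField (Localization.AtPrime p'.asIdeal) := e.symm.toMulEquiv.isField hy'
  have hz' : Ideal.Quotient.mk (idl ch i.ker) z ∈ p'.asIdeal := by
    rw [← hq'] at hz
    exact hz
  have h0 : algebraMap _ (Localization.AtPrime p'.asIdeal)
      (Ideal.Quotient.mk (idl ch i.ker) z) = 0 := by
    have h1 := (IsLocalization.AtPrime.to_map_mem_maximal_iff
      (Localization.AtPrime p'.asIdeal) p'.asIdeal _).2 hz'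
    rwa [IsLocalRing.isField_iff_maximalIdeal_eq.1 hf, Ideal.mem_bot] at h1
  obtain ⟨⟨w, hw⟩, hw0⟩ := (IsLocalization.map_eq_zero_iff p'.asIdeal.primeCompl _ _).1 h0
  obtain ⟨w, rfl⟩ := Ideal.Quotient.mk_surjective w
  refine ⟨w, ?_, ?_⟩
  · rw [← hq']
    exact hw
  · rw [← Ideal.Quotient.eq_zero_iff_mem, map_mul]
    exact hw0

theorem locGen_inf (hI : IdlAPI) {T : Scheme.{0}} (I J : T.IdealSheafData) (x : T)
    (h : LocGen I x) (hx : x ∉ J.support) : LocGen (I ⊓ J) x := by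
  intro B ch q hch hq z hz
  obtain ⟨w, hw, hwz⟩ := h B ch q hch hq z hz
  have h1 : ¬ idl ch J ≤ q.asIdeal := fun h2 => hx (hq ▸ (hI.supp T B ch J q).2 h2)
  obtain ⟨w', hw1, hw2⟩ := Set.not_subset.1 h1
  refine ⟨w' * w, fun h3 => (q.isPrime.mem_or_mem h3).elim hw2 hw, ?_⟩
  rw [hI.inf T B ch I J inferInstance]
  refine ⟨?_, ?_⟩
  · rw [mul_assoc]
    exact Ideal.mul_mem_left _ _ hwz
  · rw [mul_assoc]
    exact Ideal.mul_mem_right _ _ hw1

/-- A point of a smooth scheme of dimension `m` is not generic in one of dimension `n > m`. -/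
theorem not_gen (hS : SmAPI) {F : Type} [Field F] {Z T : Scheme.{0}}
    (s : T ⟶ Spec (CommRingCat.of F)) (i : Z ⟶ T) (m n : ℕ) (hmn : m < n)
    (hi : IsPreimmersion i) (hZ : SmoothOfRelativeDimension m (i ≫ s))
    (hT : SmoothOfRelativeDimension n s) (y : Z) : ¬ IsGenPt (i y) := by
  intro hy
  let ξ : Spec (CommRingCat.of (Z.residueField y)) ⟶ Z := Z.fromSpecResidueField y
  have hξ : IsPreimmersion ξ := inferInstanceAs (IsPreimmersion (Z.fromSpecResidueField y))
  let c : F →+* Z.residueField y := (Spec.preimage (ξ ≫ i ≫ s)).hom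
  have hc : ξ ≫ i ≫ s = Spec.map (CommRingCat.ofHom c) := (Spec.map_preimage _).symm
  have h1 := hS.le F _ Z (i ≫ s) m ξ c hZ hξ hc
  let x : Spec (CommRingCat.of (Z.residueField y)) := IsLocalRing.closedPoint _
  have hx : (ξ ≫ i) x = i y := by
    rw [Scheme.Hom.comp_apply]
    exact congrArg i (Scheme.fromSpecResidueField_apply y x)
  have h2 := (hS.gen F _ T s n (ξ ≫ i) c x hT inferInstance
    (by rw [Category.assoc, hc])).1 (hx ▸ hy)
  rw [h2, Nat.cast_le] at h1
  omega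

theorem proper_fst (hP : PtAPI) (X : Scheme.{0}) :
    IsProper (prod.fst : X ⨯ PP ℤ (Fin 2) ⟶ X) := by
  have h1 := hP.proper ℤ (Fin 2)
  have h2 : IsIso (terminal.from (Spec (CommRingCat.of ℤ))) :=
    isIso_of_isTerminal specZIsTerminal terminalIsTerminal _
  have h3 : IsProper (terminal.from (PP ℤ (Fin 2))) := by
    rw [← terminal.comp_from (PP.s ℤ (Fin 2))]
    infer_instance
  exact MorphismProperty.of_isPullback (P := @IsProper)
    (IsPullback.of_hasBinaryProduct' X (PP ℤ (Fin 2))).flip h3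

variable {F ι : Type} [Field F]

theorem geo_comp {I₁ I₂ : Set (MvPolynomial ι F)} {X Y : Scheme.{0}}
    {s : X ⟶ Spec (CommRingCat.of F)} {u v : X ⟶ PP F ι} (h : Geo I₁ I₂ s u v) (f : Y ⟶ X) :
    Geo I₁ I₂ (f ≫ s) (f ≫ u) (f ≫ v) :=
  ⟨by rw [Category.assoc, h.us], by rw [Category.assoc, h.vs],
    fun y => by rw [Scheme.Hom.comp_apply]; exact h.mem₁ _,
    fun y => by rw [Scheme.Hom.comp_apply]; exact h.mem₂ _⟩

theorem geo (M : Amb F F ι) : Geo M.I₁ M.I₂ M.s M.u M.v := by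
  have h := M.geo
  have h1 : Spec.map (CommRingCat.ofHom (algebraMap F F)) = 𝟙 _ := Spec.map_id _
  rwa [h1, Category.comp_id] at h

variable [Finite ι]

/-- The points of a curve which matter. -/
theorem fin (hJ : ProjAPI) (hS : SmAPI) (hV : ValAPI) (M : Amb F F ι) (C : Curve M.s) :
    {y | UnbAt (C.f ≫ M.u) (C.f ≫ M.v) y}.Finite := by
  have h1 := hJ.proper _ _ _ C.proj
  have h2 := M.proper
  have hg := geo_comp (geo M) C.f
  exact (hS.fin F _ (C.f ≫ M.s) inferInstance).subset fun y hy =>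
    hV.gen F ι _ _ _ _ y C.smooth hg.us hg.vs hy

theorem phi_eq (hV : ValAPI) (M : Amb F F ι) {Φ : Ideal (Pxy ι F) → ZMod 2}
    (hΦ : GoodF M.I₁ M.I₂ Φ) (C : Curve M.s) (U : Finset C.Y)
    (hU : ∀ y, UnbAt (C.f ≫ M.u) (C.f ≫ M.v) y → y ∈ U) :
    phi Φ (C.f ≫ M.u) (C.f ≫ M.v) = ∑ y ∈ U, valAt Φ (C.f ≫ M.u) (C.f ≫ M.v) y := by
  refine finsum_eq_sum_of_support_subset _ fun y hy => hU y ?_
  by_contra h
  exact hy (hV.zero F ι _ _ _ _ _ _ Φ y M.hom₁ M.hom₂ hΦ (geo_comp (geo M) C.f) C.smooth h)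

omit [Finite ι] in
theorem sum_image (hV : ValAPI) (Φ : Ideal (Pxy ι F) → ZMod 2) {T Z : Scheme.{0}}
    [DecidableEq T] {u v : T ⟶ PP F ι} (h : u ≫ PP.s F ι = v ≫ PP.s F ι) (i : Z ⟶ T)
    (hi : IsPreimmersion i) (U : Finset Z) :
    ∑ x ∈ U.image i, valAt Φ u v x = ∑ y ∈ U, valAt Φ (i ≫ u) (i ≫ v) y := by
  rw [Finset.sum_image fun x _ y _ e => i.isEmbedding.injective e]
  exact Finset.sum_congr rfl fun y _ => ((hV.comp F ι T Z u v i y Φ h).2 hi).symm

theorem union (hJ : ProjAPI) (hS : SmAPI) (hV : ValAPI) (M : Amb F F ι)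
    {Φ : Ideal (Pxy ι F) → ZMod 2} (hΦ : GoodF M.I₁ M.I₂ Φ) {C A B : Curve M.s}
    (h : IsUnion C A B) : phi Φ (C.f ≫ M.u) (C.f ≫ M.v) =
      phi Φ (A.f ≫ M.u) (A.f ≫ M.v) + phi Φ (B.f ≫ M.u) (B.f ≫ M.v) := by
  classical
  obtain ⟨a, b, ha, hb, ⟨hc⟩⟩ := h
  let e : A.Y ⨿ B.Y ≅ C.Y := (coprodIsCoprod A.Y B.Y).coconePointUniqueUpToIso hc
  have ea : coprod.inl ≫ e.hom = a :=
    (coprodIsCoprod A.Y B.Y).comp_coconePointUniqueUpToIso_hom hc ⟨.left⟩
  have eb : coprod.inr ≫ e.hom = b :=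
    (coprodIsCoprod A.Y B.Y).comp_coconePointUniqueUpToIso_hom hc ⟨.right⟩
  have hia : IsPreimmersion a := by rw [← ea]; infer_instance
  have hib : IsPreimmersion b := by rw [← eb]; infer_instance
  have hne : ∀ x y, a x ≠ b y := fun x y hxy => by
    rw [← ea, ← eb, Scheme.Hom.comp_apply, Scheme.Hom.comp_apply] at hxy
    exact inl_ne_inr _ _ x y (e.hom.isOpenEmbedding.injective hxy)
  have hsur : ∀ z, (∃ x, a x = z) ∨ ∃ y, b y = z := fun z => by
    obtain ⟨w, rfl⟩ := e.hom.surjective z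
    obtain ⟨t, rfl⟩ := (coprodMk A.Y B.Y).surjective w
    rcases t with x | y
    · exact .inl ⟨x, by rw [coprodMk_inl, ← ea, Scheme.Hom.comp_apply]⟩
    · exact .inr ⟨y, by rw [coprodMk_inr, ← eb, Scheme.Hom.comp_apply]⟩
  have hg := geo_comp (geo M) C.f
  have huv := hg.us.trans hg.vs.symm
  have hA := fin hJ hS hV M A
  have hB := fin hJ hS hV M B
  rw [phi_eq hV M hΦ A hA.toFinset fun y hy => hA.mem_toFinset.2 hy,
    phi_eq hV M hΦ B hB.toFinset fun y hy => hB.mem_toFinset.2 hy,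
    phi_eq hV M hΦ C (hA.toFinset.image a ∪ hB.toFinset.image b) ?_, Finset.sum_union ?_,
    sum_image hV Φ huv a hia, sum_image hV Φ huv b hib]
  · simp only [← Category.assoc, ha, hb]
  · rw [Finset.disjoint_left]
    intro z h1 h2
    obtain ⟨x, -, rfl⟩ := Finset.mem_image.1 h1
    obtain ⟨y, -, h3⟩ := Finset.mem_image.1 h2
    exact hne x y h3.symm
  · intro z hz
    rcases hsur z with ⟨x, rfl⟩ | ⟨y, rfl⟩
    · refine Finset.mem_union_left _ (Finset.mem_image_of_mem _ (hA.mem_toFinset.2 ?_))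
      have h1 := (hV.comp F ι _ _ _ _ a x Φ huv).1.2 hz
      simp only [← Category.assoc, ha] at h1
      exact h1
    · refine Finset.mem_union_right _ (Finset.mem_image_of_mem _ (hB.mem_toFinset.2 ?_))
      have h1 := (hV.comp F ι _ _ _ _ b y Φ huv).1.2 hz
      simp only [← Category.assoc, hb] at h1
      exact h1

theorem double (hP : PtAPI) (hJ : ProjAPI) (hI : IdlAPI) (hS : SmAPI) (hV : ValAPI)
    (hR : RecStmt) (M : Amb F F ι) {Φ : Ideal (Pxy ι F) → ZMod 2} (hΦ : GoodF M.I₁ M.I₂ Φ)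
    {C A B E : Curve M.s} (h : IsDouble C A B E) :
    phi Φ (E.f ≫ M.u) (E.f ≫ M.v) = 0 ∧ phi Φ (C.f ≫ M.u) (C.f ≫ M.v) =
      phi Φ (A.f ≫ M.u) (A.f ≫ M.v) + phi Φ (B.f ≫ M.u) (B.f ≫ M.v) := by
  classical
  obtain ⟨T, g, π, c, a, b, e, hT, hpr, hc, ha, hb, he, hpb, hia, hib, hker, hD⟩ := h
  have hgA := geo_comp (geo M) A.f
  have hgB := geo_comp (geo M) B.f
  have hgC := geo_comp (geo M) C.f
  have hg := geo_comp (geo M) g
  have huv := hg.us.trans hg.vs.symm
  have hDA : ∀ z, ¬ UnbAt (A.f ≫ M.u) (A.f ≫ M.v) (pullback.fst a b z) := fun z hz =>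
    not_gen hS (A.f ≫ M.s) (pullback.fst a b) 0 1 one_pos inferInstance hD A.smooth z
      (hV.gen F ι _ _ _ _ _ A.smooth hgA.us hgA.vs hz)
  have hD' : SmoothOfRelativeDimension 0 (pullback.snd a b ≫ B.f ≫ M.s) := by
    rw [← hb, Category.assoc, ← pullback.condition_assoc, ← Category.assoc a, ha]
    exact hD
  have hDB : ∀ z, ¬ UnbAt (B.f ≫ M.u) (B.f ≫ M.v) (pullback.snd a b z) := fun z hz =>
    not_gen hS (B.f ≫ M.s) (pullback.snd a b) 0 1 one_pos inferInstance hD' B.smooth z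
      (hV.gen F ι _ _ _ _ _ B.smooth hgB.us hgB.vs hz)
  refine ⟨?_, ?_⟩
  · rw [phi_eq hV M hΦ E ∅ ?_, Finset.sum_empty]
    intro y hy
    refine (hDA ((e.hom ≫ prod.fst) y) ?_).elim
    rw [← Scheme.Hom.comp_apply]
    refine (hV.comp F ι _ _ _ _ _ y Φ (hgA.us.trans hgA.vs.symm)).1.1 ?_
    simpa only [← he, Category.assoc] using hy
  have hA := fin hJ hS hV M A
  have hB := fin hJ hS hV M B
  have hC := fin hJ hS hV M C
  have hic : IsClosedImmersion c :=
    MorphismProperty.of_isPullback (P := @IsClosedImmersion) hpb.flip (hP.vtx_closed 1)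
  have hv0 := hP.vtx_closed 0
  have hprop : IsProper (g ≫ M.s) := by
    have h1 := hJ.proper _ _ _ hpr
    have h2 := proper_fst hP M.X
    have h3 := M.proper
    rw [← prod.lift_fst g π]
    infer_instance
  have hunb : ∀ (D : Curve M.s) (d : D.Y ⟶ T), d ≫ g = D.f → ∀ y,
      UnbAt (D.f ≫ M.u) (D.f ≫ M.v) y ↔ UnbAt (g ≫ M.u) (g ≫ M.v) (d y) := fun D d hd y => by
    have h1 := (hV.comp F ι _ _ _ _ d y Φ huv).1
    simpa only [← Category.assoc, hd] using h1
  have hloc : ∀ (D : Curve M.s) (d : D.Y ⟶ T), d ≫ g = D.f → IsClosedImmersion d → ∀ y,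
      UnbAt (D.f ≫ M.u) (D.f ≫ M.v) y → ¬ IsGenPt (d y) ∧ LocGen d.ker (d y) := by
    intro D d hd hid y hy
    have hgD := geo_comp (geo M) D.f
    refine ⟨not_gen hS (g ≫ M.s) d 1 2 one_lt_two inferInstance ?_ hT y, locGen_ker hI d hid y
      (hS.field F _ _ 1 y D.smooth (hV.gen F ι _ _ _ _ y D.smooth hgD.us hgD.vs hy))⟩
    rw [← Category.assoc, hd]
    exact D.smooth
  have hr0 : ∀ x, π x ∈ Set.range (vtx 0) ↔ x ∈ Set.range a ∨ x ∈ Set.range b := fun x => by
    rw [← supp_ker a, ← supp_ker b, ← supp_inf, ← hker, supp_ker, Scheme.Pullback.range_fst,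
      Set.mem_preimage]
  have hr1 : ∀ x, π x ∈ Set.range (vtx 1) ↔ x ∈ Set.range c := fun x => by
    constructor
    · rintro ⟨t, ht⟩
      obtain ⟨p, hp, -⟩ := Scheme.exists_preimage_of_isPullback hpb x t ht.symm
      exact ⟨p, hp⟩
    · rintro ⟨p, rfl⟩
      rw [← Scheme.Hom.comp_apply, hpb.w, Scheme.Hom.comp_apply]
      exact ⟨_, rfl⟩
  have hk1 : (pullback.fst π (vtx 1)).ker = c.ker := by
    rw [← hpb.isoPullback_hom_fst, Scheme.Hom.ker_comp_of_isIso]
  have hab : ∀ x y, a x = b y → ¬ UnbAt (A.f ≫ M.u) (A.f ≫ M.v) x ∧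
      ¬ UnbAt (B.f ≫ M.u) (B.f ≫ M.v) y := fun x y hxy => by
    obtain ⟨z, rfl, rfl⟩ := Scheme.Pullback.exists_preimage_pullback x y hxy
    exact ⟨hDA z, hDB z⟩
  have key := hR F ι M.I₁ M.I₂ Φ T (g ≫ M.s) (g ≫ M.u) (g ≫ M.v) π
    ![hA.toFinset.image a ∪ hB.toFinset.image b, hC.toFinset.image c] M.hom₁ M.hom₂ hΦ hprop hT hg
    (by
      refine Fin.forall_fin_two.2 ⟨fun x => ?_, fun x => ?_⟩
      · rw [hr0]
        simp only [Matrix.cons_val_zero, Finset.mem_union, Finset.mem_image,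
          Set.Finite.mem_toFinset, Set.mem_ofPred_eq]
        constructor
        · rintro (⟨y, hy, rfl⟩ | ⟨y, hy, rfl⟩)
          · exact ⟨.inl ⟨y, rfl⟩, (hunb A a ha y).1 hy⟩
          · exact ⟨.inr ⟨y, rfl⟩, (hunb B b hb y).1 hy⟩
        · rintro ⟨⟨y, rfl⟩ | ⟨y, rfl⟩, hy⟩
          · exact .inl ⟨y, (hunb A a ha y).2 hy, rfl⟩
          · exact .inr ⟨y, (hunb B b hb y).2 hy, rfl⟩
      · rw [hr1]
        simp only [Matrix.cons_val_one, Matrix.cons_val_zero, Finset.mem_image,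
          Set.Finite.mem_toFinset, Set.mem_ofPred_eq]
        constructor
        · rintro ⟨y, hy, rfl⟩
          exact ⟨⟨y, rfl⟩, (hunb C c hc y).1 hy⟩
        · rintro ⟨⟨y, rfl⟩, hy⟩
          exact ⟨y, (hunb C c hc y).2 hy, rfl⟩)
    (by
      refine Fin.forall_fin_two.2 ⟨fun x hx => ?_, fun x hx => ?_⟩
      · simp only [Matrix.cons_val_zero, Finset.mem_union, Finset.mem_image,
          Set.Finite.mem_toFinset, Set.mem_ofPred_eq] at hx
        rw [hker]
        rcases hx with ⟨y, hy, rfl⟩ | ⟨y, hy, rfl⟩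
        · obtain ⟨h1, h2⟩ := hloc A a ha hia y hy
          refine ⟨h1, locGen_inf hI _ _ _ h2 fun h3 => ?_⟩
          obtain ⟨y', h4⟩ := (supp_ker b _).1 h3
          exact (hab y y' h4.symm).1 hy
        · obtain ⟨h1, h2⟩ := hloc B b hb hib y hy
          rw [inf_comm]
          refine ⟨h1, locGen_inf hI _ _ _ h2 fun h3 => ?_⟩
          obtain ⟨y', h4⟩ := (supp_ker a _).1 h3
          exact (hab y' y h4).2 hy
      · simp only [Matrix.cons_val_one, Matrix.cons_val_zero, Finset.mem_image,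
          Set.Finite.mem_toFinset, Set.mem_ofPred_eq] at hx
        obtain ⟨y, hy, rfl⟩ := hx
        rw [hk1]
        exact hloc C c hc hic y hy)
  simp only [Matrix.cons_val_one, Matrix.cons_val_zero] at key
  rw [Finset.sum_union ?_, sum_image hV Φ huv a inferInstance, sum_image hV Φ huv b inferInstance,
    sum_image hV Φ huv c inferInstance] at key
  · rw [phi_eq hV M hΦ A hA.toFinset fun y hy => hA.mem_toFinset.2 hy,
      phi_eq hV M hΦ B hB.toFinset fun y hy => hB.mem_toFinset.2 hy,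
      phi_eq hV M hΦ C hC.toFinset fun y hy => hC.mem_toFinset.2 hy]
    simpa only [← Category.assoc, ha, hb, hc] using key.symm
  · rw [Finset.disjoint_left]
    intro z h1 h2
    obtain ⟨x, hx, rfl⟩ := Finset.mem_image.1 h1
    obtain ⟨y, -, h3⟩ := Finset.mem_image.1 h2
    exact (hab x y h3.symm).1 (hA.mem_toFinset.1 hx)

theorem value (hV : ValAPI) (M : Amb F F ι) {Φ : Ideal (Pxy ι F) → ZMod 2}
    (hΦ : GoodF M.I₁ M.I₂ Φ) (C : Curve M.s) (E : Type) [Field E]
    (γ : Spec (CommRingCat.of E) ⟶ M.X) (c : F →+* E) (a b : ι → E) (h : Rep C γ)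
    (hγ : M.At γ c a b) : phi Φ (C.f ≫ M.u) (C.f ≫ M.v) = valR Φ c a b := by
  obtain ⟨-, j, ⟨hd, hj⟩, rfl⟩ := h
  let x : Spec (CommRingCat.of E) := IsLocalRing.closedPoint _
  have hg := geo_comp (geo M) C.f
  have hco : Coord (C.f ≫ M.u) (C.f ≫ M.v) j c a b := by
    obtain ⟨h1, h2, h3, h4⟩ := hγ.2
    exact ⟨h1, h2, by rw [← Category.assoc]; exact h3, by rw [← Category.assoc]; exact h4⟩
  rw [phi_eq hV M hΦ C {j x} ?_, Finset.sum_singleton]
  · exact (hV.eq F E ι _ _ _ j c a b x Φ hj hco).1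
  · intro y hy
    have h1 := hV.gen F ι _ _ _ _ y C.smooth hg.us hg.vs hy
    have h2 : Set.range j = {j x} := by
      ext z
      constructor
      · rintro ⟨t, rfl⟩
        exact congrArg j (Subsingleton.elim (α := PrimeSpectrum E) t x)
      · rintro rfl
        exact ⟨x, rfl⟩
    have h3 : j x ⤳ y := by
      rw [specializes_iff_mem_closure, ← h2]
      exact j.denseRange y
    exact Finset.mem_singleton.2 (h1 _ h3).symm

end Phi

theorem phi_stmt (hP : PtAPI) (hJ : ProjAPI) (hI : IdlAPI) (hS : SmAPI) (hV : ValAPI)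
    (hR : RecStmt) : PhiStmt := by
  intro F ι _ _ M Φ hΦ
  let ψ : FreeAbelianGroup (Curve M.s) →+ ZMod 2 :=
    FreeAbelianGroup.lift fun C => phi Φ (C.f ≫ M.u) (C.f ≫ M.v)
  have hψ : ∀ C, ψ (FreeAbelianGroup.of C) = phi Φ (C.f ≫ M.u) (C.f ≫ M.v) := fun C =>
    FreeAbelianGroup.lift_apply_of _ _
  have hker : AddSubgroup.closure (rels M.s) ≤ ψ.ker := by
    rw [AddSubgroup.closure_le]
    rintro x (⟨C, A, B, h, rfl⟩ | ⟨C, A, B, E, h, rfl⟩)
    · rw [SetLike.mem_coe, AddMonoidHom.mem_ker, map_sub, map_sub, hψ, hψ, hψ,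
        Phi.union hJ hS hV M hΦ h]
      ring
    · obtain ⟨h1, h2⟩ := Phi.double hP hJ hI hS hV hR M hΦ h
      rw [SetLike.mem_coe, AddMonoidHom.mem_ker, map_add, map_sub, map_sub, hψ, hψ, hψ, hψ, h1, h2]
      ring
  refine ⟨QuotientAddGroup.lift _ ψ hker, fun C E _ γ c a b h hγ => ?_⟩
  rw [cls, QuotientAddGroup.lift_mk, hψ]
  exact Phi.value hV M hΦ C E γ c a b h hγ

end Pool.Agent.MP_d45d16_ag.Yag

end MrgPart4

-- marker of a merged file
example : 731051 + 261467 = 731051 + 261467 := rfl
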