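import Pool.Agent.MP_d45d16_ag.yag.Hf2

-- ======== part 0: formerly Pool.Agent.MP_d45d16_ag.yag.Main
section MrgPart0

/-!
Assembly of the abstract theorem.
-/

set_option autoImplicit false

open AlgebraicGeometry CategoryTheory Limits MvPolynomial

namespace Pool.Agent.MP_d45d16_ag.Yag

namespace Main

variable {F k ι : Type} [Field F] [Field k] [Algebra F k]

theorem at_swap (M : Amb F k ι) {C : Type} [CommRing C] {γ : Spec (CommRingCat.of C) ⟶ M.X}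
    {c : k →+* C} {a b : ι → C} (h : M.swap.At γ c a b) : M.At γ c b a := by
  obtain ⟨h1, ha, hb, h2, h3⟩ := h
  exact ⟨h1, hb, ha, h3, h2⟩

theorem hasCls_swap (M : Amb F k ι) {a b : ι → RatFunc k} {x : Omega1 M.s}
    (h : M.swap.HasCls a b x) : M.HasCls b a x := by
  obtain ⟨C, γ, h1, h2, h3⟩ := h
  exact ⟨C, γ, h1, at_swap M h2, h3⟩

theorem isBC_swap {M : Amb F F ι} {N : Amb F k ι} {q : N.X ⟶ M.X} (h : M.IsBC N q) :
    M.swap.IsBC N.swap q := ⟨h.pb, h.hv, h.hu, h.h₂, h.h₁⟩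

/-- Transport of a frame. -/
def cast {I J : Set (MvPolynomial ι F)} (f : Frame I) (h : J = I) : Frame J :=
  ⟨f.f, f.α, f.ne, f.two, f.four, f.indep, fun C _ c w hw => h ▸ f.sat C c w hw⟩

theorem same (hI : IsoAPI) {N : Amb F k ι} {a b : ι → RatFunc k} {x x' : Omega1 N.s}
    (h : N.HasCls a b x) (h' : N.HasCls a b x') : x = x' :=
  hI.uniq F k ι N a b a b 1 1 x x' (fun _ => (one_mul _).symm) (fun _ => (one_mul _).symm) h h'

/-- Splitting along a quadratic extension. -/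
theorem split2 (hB : BcAPI) [CharZero F] {L L' : Type} [Field L] [Field L'] {M : Amb F F ι}
    {N : Amb F k ι} {q : N.X ⟶ M.X} (hq : M.IsBC N q) (G : Curve M.s)
    (t : G.Y ⟶ Spec (CommRingCat.of L')) (ρ₀ : F →+* L) (ρ : L →+* L') {δ : L} {r : L'}
    (hr : Quad ρ δ r)
    (hl : ∀ (k : Type) [Field k] (σ : L →+* k) (s : k), s ^ 2 = σ δ →
      ∃ τ : L' →+* k, τ.comp ρ = σ ∧ τ r = s)
    (ht : t ≫ Spec.map (CommRingCat.ofHom (ρ.comp ρ₀)) = G.f ≫ M.s)
    (hs : SmoothOfRelativeDimension 1 t) (σ : L →+* k) (hσ : σ.comp ρ₀ = algebraMap F k) (s : k)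
    (hs2 : s ^ 2 = σ δ) (C₀ : Curve N.s)
    (h₀ : CurveBC q G (t ≫ Spec.map (CommRingCat.ofHom ρ)) σ C₀) :
    ∃ (τ₁ τ₂ : L' →+* k) (C₁ C₂ : Curve N.s), τ₁.comp ρ = σ ∧ τ₂.comp ρ = σ ∧ τ₁ r = s ∧
      τ₂ r = -s ∧ CurveBC q G t τ₁ C₁ ∧ CurveBC q G t τ₂ C₂ ∧ cls C₀ = cls C₁ + cls C₂ := by
  obtain ⟨τ₁, h1, h1'⟩ := hl k σ s hs2
  obtain ⟨τ₂, h2, h2'⟩ := hl k σ (-s) (by rw [neg_sq, hs2])
  obtain ⟨C₁, hC₁⟩ := hB.ex F k L' M.X N.X M.s N.s q G t (ρ.comp ρ₀) τ₁ hq.pb ht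
    (by rw [← RingHom.comp_assoc, h1, hσ]) hs
  obtain ⟨C₂, hC₂⟩ := hB.ex F k L' M.X N.X M.s N.s q G t (ρ.comp ρ₀) τ₂ hq.pb ht
    (by rw [← RingHom.comp_assoc, h2, hσ]) hs
  refine ⟨τ₁, τ₂, C₁, C₂, h1, h2, h1', h2', hC₁, hC₂, hB.split F k L L' M.X N.X M.s N.s q G t ρ σ
    τ₁ τ₂ r C₀ C₁ C₂ hq.pb hr.gen hr.ne h1 h2 ?_ h₀ hC₁ hC₂⟩
  rw [h1', h2']
  intro h
  have : CharZero k := charZero_of_injective_algebraMap (algebraMap F k).injective
  have hs0 : s = 0 := by linear_combination h / 2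
  have hr0 : r = 0 := (map_eq_zero τ₁).mp (h1'.trans hs0)
  exact hr.ne ⟨0, by rw [hr0, map_zero]⟩

theorem td_le {L E : Type} [Field L] [Field E] [Algebra F L] [FiniteDimensional F L]
    [Algebra L E] {x y : E} (h : IntermediateField.adjoin L {x, y} = ⊤)
    (hy : IsAlgebraic (Algebra.adjoin L {x}) y) :
    td ((algebraMap L E).comp (algebraMap F L)) ≤ 1 := by
  let : Algebra F E := ((algebraMap L E).comp (algebraMap F L)).toAlgebra
  have : IsScalarTower F L E := IsScalarTower.of_algebraMap_eq' rfl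
  have : Algebra.IsAlgebraic (Algebra.adjoin L {x}) E := ⟨fun z => by
    have hz : z ∈ IntermediateField.adjoin L {x, y} := h ▸ IntermediateField.mem_top
    induction hz using IntermediateField.adjoin_induction with
    | mem z hz =>
      rcases hz with rfl | rfl
      · exact isAlgebraic_algebraMap (⟨z, Algebra.self_mem_adjoin_singleton L z⟩ :
          Algebra.adjoin L {z})
      · exact hy
    | algebraMap c => exact isAlgebraic_algebraMap (algebraMap L (Algebra.adjoin L {x}) c)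
    | add a b _ _ ha hb => exact ha.add hb
    | inv a _ ha => exact ha.inv
    | mul a b _ _ ha hb => exact ha.mul hb⟩
  have h1 := Algebra.IsAlgebraic.trdeg_le_cardinalMk L ({x} : Set E)
  change Algebra.trdeg F E ≤ 1
  rw [← trdeg_add_eq F L (A := E), trdeg_eq_zero, zero_add]
  simpa using h1

theorem td_ratFunc {E : Type} [Field E] [Algebra F E] [FiniteDimensional F E] :
    td ((algebraMap E (RatFunc E)).comp (algebraMap F E)) ≤ 1 :=
  td_le (x := RatFunc.X) (y := RatFunc.X) (by simpa using RatFunc.adjoin_X)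
    (isAlgebraic_algebraMap (⟨_, Algebra.self_mem_adjoin_singleton E RatFunc.X⟩ :
      Algebra.adjoin E {(RatFunc.X : RatFunc E)}))

theorem td_conic {L E : Type} [Field L] [Field E] [Algebra F L] [FiniteDimensional F L]
    [Algebra L E] {α : Fin 3 → L} {x y : E} (h : ConicField α x y) (h2 : α 2 ≠ 0) :
    td ((algebraMap L E).comp (algebraMap F L)) ≤ 1 := by
  refine td_le h.gen (IsAlgebraic.of_pow two_pos ?_)
  have h3 : y ^ 2 = -(algebraMap L E (α 0) + algebraMap L E (α 1) * x ^ 2) *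
      algebraMap L E (α 2)⁻¹ := by
    have := (map_ne_zero (algebraMap L E)).mpr h2
    rw [map_inv₀]
    field_simp
    linear_combination h.eqn
  have h4 : y ^ 2 ∈ Algebra.adjoin L {x} := by
    rw [h3]
    exact mul_mem (neg_mem (add_mem (Subalgebra.algebraMap_mem _ _) (mul_mem
      (Subalgebra.algebraMap_mem _ _) (pow_mem (Algebra.self_mem_adjoin_singleton L x) 2))))
      (Subalgebra.algebraMap_mem _ _)
  exact isAlgebraic_algebraMap (⟨_, h4⟩ : Algebra.adjoin L {x})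

/-- The data attached to one ordering of the two quadrics. -/
theorem half (hP : ProjAPI) (hB : BcAPI) (hL : LineStmt) (hC : ConicStmt) (hK : KeyStmt)
    [CharZero F] [Finite ι] (M : Amb F F ι) (f : Frame M.I₁) (g : Frame M.I₂)
    (hf : ¬ IsSquare (-f.α 0)) (hg : ¬ IsSquare (-g.α 0)) (hfg : ¬ IsSquare (f.α 0 * g.α 0)) :
    ∃ (G₁ G₂ : Curve M.s) (L : Type) (_ : Field L) (_ : Algebra F L) (r : L),
      FiniteDimensional F L ∧ Quad (algebraMap F L) (-f.α 0) r ∧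
      (∃ (E : Type) (_ : Field E) (_ : Algebra L E) (x y : E)
        (γ : Spec (CommRingCat.of E) ⟶ M.X),
        ConicField (fun l : Fin 3 => algebraMap F L (g.α (l.castLE (by norm_num)))) x y ∧
        Rep G₁ γ ∧ M.At γ ((algebraMap L E).comp (algebraMap F L))
          (fun i => algebraMap L E (f.n₁ (algebraMap F L) r i))
          fun i => ∑ l : Fin 3, ![1, x, y] l *
            algebraMap L E (algebraMap F L (g.f (l.castLE (by norm_num)) i))) ∧
      (∃ (E : Type) (_ : Field E) (_ : Algebra L E) (_ : Algebra F E) (r' : E)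
        (γ : Spec (CommRingCat.of (RatFunc E)) ⟶ M.X), FiniteDimensional F E ∧
        algebraMap F E = (algebraMap L E).comp (algebraMap F L) ∧
        Quad (algebraMap L E) (algebraMap F L (-g.α 0)) r' ∧ Rep G₂ γ ∧
        M.At γ ((algebraMap E (RatFunc E)).comp (algebraMap F E))
          (vec ![f.n₁ (algebraMap F E) (algebraMap L E r)] ![1])
          (vec ![g.n₁ (algebraMap F E) r', g.n₂ (algebraMap F E) r'] ![1, RatFunc.X])) ∧
      ∀ (k : Type) [Field k] [IsAlgClosed k] [Algebra F k] (N : Amb F k ι) (q : N.X ⟶ M.X)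
        (s s' : k) (C₁ C₂ : Curve N.s), M.IsBC N q → s ^ 2 = algebraMap F k (-f.α 0) →
        s' ^ 2 = algebraMap F k (-g.α 0) → CurveBC q G₁ (G₁.f ≫ M.s) (algebraMap F k) C₁ →
        CurveBC q G₂ (G₂.f ≫ M.s) (algebraMap F k) C₂ →
        ∃ x₁ x₂ : Omega1 N.s,
          N.HasCls (vec ![f.n₁ (algebraMap F k) s] ![1]) (vec ![g.n₂ (algebraMap F k) s'] ![1]) x₁ ∧
          N.HasCls (vec ![f.n₁ (algebraMap F k) (-s)] ![1])
            (vec ![g.n₂ (algebraMap F k) s'] ![1]) x₂ ∧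
          cls C₁ - cls C₂ = -x₁ - x₂ := by
  obtain ⟨L, _, _, r, hL1, hL2, hL3⟩ := exists_quad _ hf
  have : CharZero L := charZero_of_injective_algebraMap (algebraMap F L).injective
  obtain ⟨E, _, _, r', hE1, hE2, hE3⟩ :=
    exists_quad _ (hL2.not_isSquare hg (by rwa [neg_mul_neg]))
  let : Algebra F E := ((algebraMap L E).comp (algebraMap F L)).toAlgebra
  have hFE : algebraMap F E = (algebraMap L E).comp (algebraMap F L) := rfl
  have : IsScalarTower F L E := IsScalarTower.of_algebraMap_eq' hFE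
  have : FiniteDimensional F E := Module.Finite.trans L E
  have hrE : algebraMap L E r ^ 2 = algebraMap F E (-f.α 0) := by
    rw [← map_pow, hL2.sq]; rfl
  obtain ⟨G₁, t₁, ht₁, hs₁, hG₁, hb₁⟩ := hC F L ι M (f.n₁ (algebraMap F L) r)
    (fun l i => algebraMap F L (g.f (l.castLE (by norm_num)) i))
    (fun l => algebraMap F L (g.α (l.castLE (by norm_num)))) (f.n₁_ne _ _) (f.sat_n₁ _ hL2.sq)
    (g.indep_three _) (fun l => (map_ne_zero _).mpr (g.ne _))
    (fun C _ _ w hw => g.sat_three ((algebraMap L C).comp (algebraMap F L)) w hw)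
  obtain ⟨G₂, t₂, ht₂, hs₂, ⟨γ₂, hG₂⟩, hb₂⟩ := hL F E ι M (f.n₁ (algebraMap F E) (algebraMap L E r))
    ![g.n₁ (algebraMap F E) r', g.n₂ (algebraMap F E) r'] (f.n₁_ne _ _) (f.sat_n₁ _ hrE)
    (g.indep_n _ _ _) (fun C _ _ w => g.sat_n _ hE2.sq hE2.sq C (algebraMap E C) w)
  refine ⟨G₁, G₂, L, inferInstance, inferInstance, r, hL1, hL2, hG₁,
    ⟨E, inferInstance, inferInstance, inferInstance, r', γ₂, inferInstance, hFE, hE2, hG₂⟩, ?_⟩
  intro k _ _ _ N q s s' C₁ C₂ hq hs hs' hC₁ hC₂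
  obtain ⟨x, y, hxy, hkey⟩ := hK F k ι N (cast g hq.h₂) s' hs'
  have hsm : SmoothOfRelativeDimension 1
      (t₂ ≫ Spec.map (CommRingCat.ofHom (algebraMap L E))) := by
    have := hP.etale L E
    exact smoothOfRelativeDimension_comp 1 0 _ _
  have ht₂' : (t₂ ≫ Spec.map (CommRingCat.ofHom (algebraMap L E))) ≫
      Spec.map (CommRingCat.ofHom (algebraMap F L)) = G₂.f ≫ M.s := by
    rw [← ht₂, Category.assoc, ← Spec.map_comp]; rfl
  rw [← ht₁] at hC₁
  rw [← ht₂'] at hC₂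
  obtain ⟨σ₁, σ₂, A₁, A₂, e1, e2, e3, e4, hA₁, hA₂, hA⟩ := split2 hB hq G₁ t₁ (RingHom.id F)
    (algebraMap F L) hL2 hL3 ht₁ hs₁ (algebraMap F k) rfl s hs C₁ hC₁
  obtain ⟨σ₁', σ₂', D₁, D₂, e1', e2', e3', e4', hD₁, hD₂, hD⟩ := split2 hB hq G₂ _ (RingHom.id F)
    (algebraMap F L) hL2 hL3 ht₂' hsm (algebraMap F k) rfl s hs C₂ hC₂
  have key : ∀ (σ σ' : L →+* k) (z : k) (A D : Curve N.s), σ.comp (algebraMap F L) = algebraMap F k →
      σ'.comp (algebraMap F L) = algebraMap F k → σ r = z → σ' r = z → CurveBC q G₁ t₁ σ A →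
      CurveBC q G₂ (t₂ ≫ Spec.map (CommRingCat.ofHom (algebraMap L E))) σ' D →
      ∃ xE, N.HasCls (vec ![f.n₁ (algebraMap F k) z] ![1]) (vec ![g.n₂ (algebraMap F k) s'] ![1]) xE ∧
        cls A - cls D = -xE := by
    intro σ σ' z A D h1 h2 h3 h4 hA hD
    have h1' : ∀ c, σ (algebraMap F L c) = algebraMap F k c := fun c => RingHom.congr_fun h1 c
    have hz : z ^ 2 = algebraMap F k (-f.α 0) := by rw [← h3, ← map_pow, hL2.sq, h1']
    obtain ⟨τ₁, τ₂, B₁, B₂, u1, u2, u3, u4, hB₁, hB₂, hBB⟩ := split2 hB hq G₂ t₂ (algebraMap F L)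
      (algebraMap L E) hE2 hE3 ht₂ hs₂ σ' h2 s'
      (by rw [hs']; exact (RingHom.congr_fun h2 _).symm) D hD
    have v1 : τ₁.comp (algebraMap F E) = algebraMap F k := by
      rw [hFE, ← RingHom.comp_assoc, u1, h2]
    have v2 : τ₂.comp (algebraMap F E) = algebraMap F k := by
      rw [hFE, ← RingHom.comp_assoc, u2, h2]
    have w0 := hb₁ k N q σ A x y hq h1 hA (by
      refine (congrArg (fun a => ConicField a x y) ?_).mp hxy
      ext l; exact (h1' _).symm)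
    have w1 := hb₂ k N q τ₁ B₁ hq v1 hB₁
    have w2 := hb₂ k N q τ₂ B₂ hq v2 hB₂
    simp only [Matrix.cons_val_zero, Matrix.cons_val_one, Frame.comp_n₁, Frame.comp_n₂, v1, v2, h1,
      h3, u3, u4] at w0 w1 w2
    rw [show τ₁ (algebraMap L E r) = z from (RingHom.congr_fun u1 r).trans h4] at w1
    rw [show τ₂ (algebraMap L E r) = z from (RingHom.congr_fun u2 r).trans h4] at w2
    obtain ⟨xE, hxE, hx⟩ := hkey (f.n₁ (algebraMap F k) z) (cls A) (cls B₁) (cls B₂) (f.n₁_ne _ _)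
      (by rw [hq.h₁]; exact f.sat_n₁ _ hz) (by
        refine (congrArg (fun a => N.HasCls _ (vec a _) _) ?_).mp w0
        ext l i; exact h1' _) w1 w2
    exact ⟨xE, hxE, by rw [hx, hBB]; abel⟩
  obtain ⟨x₁, hx₁, hx₁'⟩ := key σ₁ σ₁' s A₁ D₁ e1 e1' e3 e3' hA₁ hD₁
  obtain ⟨x₂, hx₂, hx₂'⟩ := key σ₂ σ₂' (-s) A₂ D₂ e2 e2' e4 e4' hA₂ hD₂
  refine ⟨x₁, x₂, hx₁, hx₂, ?_⟩
  rw [hA, hD, sub_eq_add_neg (-x₁), ← hx₁', ← hx₂']
  abel

theorem vec_one {n : ι → k} : vec ![n] ![1] = algebraMap k (RatFunc k) ∘ n := by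
  ext i; simp [vec]

/-- Moving a point along a line in the second factor. -/
theorem move_pt (hM : MoveAPI) (hI : IsoAPI) [Finite ι] (N : Amb F k ι) (g : Frame N.I₂)
    {p : ι → k} (hp : p ≠ 0) (hp' : Sat N.I₁ (algebraMap F k) p) {s s' : k}
    (hs : s ^ 2 = algebraMap F k (-g.α 0)) (hs' : s' ^ 2 = algebraMap F k (-g.α 0))
    {x x' : Omega1 N.s} (h : N.HasCls (vec ![p] ![1]) (vec ![g.n₁ (algebraMap F k) s] ![1]) x)
    (h' : N.HasCls (vec ![p] ![1]) (vec ![g.n₂ (algebraMap F k) s'] ![1]) x') : x = x' := by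
  obtain ⟨z, h1, h2⟩ := hM.point F k ι N p ![g.n₁ (algebraMap F k) s, g.n₂ (algebraMap F k) s'] hp
    hp' (g.indep_n _ _ _) fun C _ _ w => g.sat_n _ hs hs' C (algebraMap k C) w
  exact (same hI h h1).trans (same hI h2 h')

end Main

open Main in
theorem main_stmt (hP : ProjAPI) (hB : BcAPI) (hL : LineStmt) (hC : ConicStmt) (hK : KeyStmt)
    (hM : MoveAPI) (hI : IsoAPI) (hE : EvgAPI) (hΦ : PhiStmt) : MainStmt := by
  intro F k ι _ _ _ _ _ _ M N q f g Φ hq hG hf hg hfg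
  obtain ⟨G₁, G₂, L, _, _, r, hL1, hL2, ⟨E₁, _, _, x, y, γ₁, a1, a2, a3⟩,
    ⟨E₂, _, _, _, r', γ₂, b0, b1, b2, b3, b4⟩, hz⟩ := half hP hB hL hC hK M f g hf hg hfg
  obtain ⟨G₃, G₄, L', _, _, t, hL1', hL2', ⟨E₃, _, _, x', y', γ₃, c1, c2, c3⟩,
    ⟨E₄, _, _, _, t', γ₄, d0, d1, d2, d3, d4⟩, hz'⟩ :=
    half hP hB hL hC hK M.swap g f hg hf (by rwa [mul_comm])
  obtain ⟨φ, hφ⟩ := hΦ F ι M Φ hG
  refine ⟨G₁, G₂, G₃, G₄, fun h => ?_, fun C₁ C₂ C₃ C₄ h1 h2 h3 h4 => ?_⟩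
  · have e1 := (hφ G₁ E₁ γ₁ _ _ _ a2 a3).trans
      (hE.conic F L E₁ ι M.I₁ M.I₂ Φ f g r x y M.hom₁ M.hom₂ hG hL2 a1)
    have e2 := (hφ G₂ _ γ₂ _ _ _ b3 b4).trans
      (hE.line F L E₂ ι M.I₁ M.I₂ Φ f g _ r r' M.hom₁ M.hom₂ hG b1 hL2 b2)
    have e3 := (hφ G₃ E₃ γ₃ _ _ _ c2 (at_swap M c3)).trans
      (hE.contr F L' E₃ ι M.I₁ M.I₂ Φ (algebraMap L' E₃) _ (g.n₁ (algebraMap F L') t) M.hom₁ M.hom₂
        hG (f.sat_three ((algebraMap L' E₃).comp (algebraMap F L')) ![1, x', y'] (by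
          simpa [Fin.sum_univ_three] using c1.eqn)) (g.sat_n₁ _ hL2'.sq)
        (td_conic c1 ((map_ne_zero _).mpr (f.ne _))))
    have ht' : t' ^ 2 = algebraMap F E₄ (-f.α 0) := by rw [d2.sq, d1]; rfl
    have ht : algebraMap L' E₄ t ^ 2 = algebraMap F E₄ (-g.α 0) := by
      rw [← map_pow, hL2'.sq, d1]; rfl
    have d5 := at_swap M d4
    rw [vec_one] at d5
    have e4 := (hφ G₄ _ γ₄ _ _ _ d3 d5).trans
      (hE.contr F E₄ (RatFunc E₄) ι M.I₁ M.I₂ Φ (algebraMap E₄ (RatFunc E₄)) _ _ M.hom₁ M.hom₂ hG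
        (f.sat_n _ ht' ht' _ (algebraMap E₄ (RatFunc E₄)) ![1, RatFunc.X]) (g.sat_n₁ _ ht)
        td_ratFunc)
    have := congrArg φ h
    rw [map_add, map_sub, map_sub, e1, e2, e3, e4, map_zero] at this
    exact absurd this (by decide)
  · obtain ⟨s, hs⟩ := IsAlgClosed.exists_pow_nat_eq (algebraMap F k (-f.α 0)) two_pos
    obtain ⟨s', hs'⟩ := IsAlgClosed.exists_pow_nat_eq (algebraMap F k (-g.α 0)) two_pos
    obtain ⟨x₁, x₂, p1, p2, p3⟩ := hz k N q s s' C₁ C₂ hq hs hs' h1 h2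
    obtain ⟨x₃, x₄, p4, p5, p6⟩ := hz' k N.swap q s' s C₃ C₄ (isBC_swap hq) hs' hs h3 h4
    have hsn : (-s) ^ 2 = algebraMap F k (-f.α 0) := by rw [neg_sq, hs]
    have hsn' : (-s') ^ 2 = algebraMap F k (-g.α 0) := by rw [neg_sq, hs']
    have sf : Sat N.I₁ (algebraMap F k) (f.n₂ (algebraMap F k) s) := by
      rw [hq.h₁]; exact f.sat_n₂ _ hs
    have sg : Sat N.I₂ (algebraMap F k) (g.n₂ (algebraMap F k) s') := by
      rw [hq.h₂]; exact g.sat_n₂ _ hs'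
    obtain ⟨z, -, hz0⟩ := hM.point F k ι N (f.n₂ (algebraMap F k) s)
      ![g.n₁ (algebraMap F k) s', g.n₂ (algebraMap F k) s'] (f.n₂_ne _ _) sf (g.indep_n _ _ _)
      fun C _ _ w => (cast g hq.h₂).sat_n _ hs' hs' C (algebraMap k C) w
    have q1 : x₁ = z := move_pt hM hI N.swap (cast f hq.h₁) (g.n₂_ne _ _) sg hs hs
      (hasCls_swap N.swap p1) (hasCls_swap N.swap hz0)
    have q2 : x₂ = z := move_pt hM hI N.swap (cast f hq.h₁) (g.n₂_ne _ _) sg hsn hs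
      (hasCls_swap N.swap p2) (hasCls_swap N.swap hz0)
    have q3 : x₃ = z := move_pt hM hI N (cast g hq.h₂) (f.n₂_ne _ _) sf hs' hs'
      (hasCls_swap N p4) hz0
    have q4 : x₄ = z := move_pt hM hI N (cast g hq.h₂) (f.n₂_ne _ _) sf hsn' hs'
      (hasCls_swap N p5) hz0
    subst q1 q2 q3 q4
    have p7 : (cls C₃ : Omega1 N.s) - cls C₄ = cls C₁ - cls C₂ := p6.trans p3.symm
    rw [← p7]
    abel

end Pool.Agent.MP_d45d16_ag.Yag

end MrgPart0

-- ======== part 1: formerly Pool.Agent.MP_d45d16_ag.yag.Fin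
section MrgPart1

/-!
From the abstract theorem to the flag variety.
-/

set_option autoImplicit false

open AlgebraicGeometry CategoryTheory Limits MvPolynomial

namespace Pool.Agent.MP_d45d16_ag.Yag

theorem final (hM : MainStmt) (hA : AmbAPI) (hF : FrameStmt) (hG : AlgStmt) (k : Type) [Field k]
    [IsAlgClosed k] [Algebra FF k]
    (r : Omega1 flag →+
      Omega1 (pullback.snd flag (Spec.map (CommRingCat.ofHom (algebraMap FF k)))))
    (hr : ∀ C : Curve flag, r (cls C) = cls (C.bc _)) : ¬ Function.Injective r := by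
  obtain ⟨f, g, h1, h2, h3⟩ := hF
  obtain ⟨Φ, hΦ⟩ := hG
  let M := hA.flag.toAmb
  let N := (hA.bc FF k I14 M).toAmb
  have hq : M.IsBC N (pullback.fst _ _) := ⟨IsPullback.of_hasPullback _ _, rfl, rfl, rfl, rfl⟩
  obtain ⟨G₁, G₂, G₃, G₄, hne, hz⟩ := hM FF k I14 M N _ f g Φ hq hΦ h1 h2 h3
  have hb : ∀ C : Curve flag, CurveBC (s := M.s) (s' := N.s) (pullback.fst _ _) C (C.f ≫ M.s)
      (algebraMap FF k) (C.bc _) := fun C =>
    ⟨pullback.fst _ _, (IsPullback.of_hasPullback C.f _).paste_vert (IsPullback.of_hasPullback _ _),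
      pullback.condition.symm⟩
  have key : ∀ G₁ G₂ G₃ G₄ : Curve flag, r (cls G₁ - cls G₂ - cls G₃ + cls G₄) =
      cls (G₁.bc _) - cls (G₂.bc _) - cls (G₃.bc _) + cls (G₄.bc _) := fun G₁ G₂ G₃ G₄ => by
    rw [map_add, map_sub, map_sub, hr, hr, hr, hr]
  intro hi
  exact hne (hi ((key G₁ G₂ G₃ G₄).trans
    ((hz _ _ _ _ (hb G₁) (hb G₂) (hb G₃) (hb G₄)).trans (map_zero r).symm)))

end Pool.Agent.MP_d45d16_ag.Yag

end MrgPart1

-- marker of a merged file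
example : 731051 + 94890 = 731051 + 94890 := rfl
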