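import Pool.Agent.MP_d45d16_ag.yag.AmbRes

/-!
An orthogonal frame built from three vectors with the cross product.
-/

set_option autoImplicit false

open MvPolynomial Matrix

namespace Pool.Agent.MP_d45d16_ag.Yag.Frm

section Ring

variable {R S : Type} [CommRing R] [CommRing S]

theorem dot_cyc (x y z : Fin 7 → R) : cross x y ⬝ᵥ z = cross y z ⬝ᵥ x := by
  simp only [dotProduct, cross, Fin.sum_univ_seven, Fin.reduceAdd]
  ring

theorem dot_anti (x y z : Fin 7 → R) : cross x y ⬝ᵥ z = - (cross y x ⬝ᵥ z) := by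
  simp only [dotProduct, cross, Fin.sum_univ_seven, Fin.reduceAdd]
  ring

theorem dot_self (x y : Fin 7 → R) : cross x y ⬝ᵥ x = 0 := by
  simp only [dotProduct, cross, Fin.sum_univ_seven, Fin.reduceAdd]
  ring

theorem dot_self' (x y : Fin 7 → R) : cross x y ⬝ᵥ y = 0 := by
  rw [dot_anti, dot_self, neg_zero]

theorem dot_lag (x y z : Fin 7 → R) :
    cross x y ⬝ᵥ cross x z = (x ⬝ᵥ x) * (y ⬝ᵥ z) - (x ⬝ᵥ y) * (x ⬝ᵥ z) := by
  simp only [dotProduct, cross, Fin.sum_univ_seven, Fin.reduceAdd]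
  ring

theorem dot_lag' (x y z : Fin 7 → R) :
    cross y x ⬝ᵥ cross z x = (x ⬝ᵥ x) * (y ⬝ᵥ z) - (x ⬝ᵥ y) * (x ⬝ᵥ z) := by
  rw [dot_anti, dotProduct_comm, dot_anti, neg_neg, dotProduct_comm, dot_lag]

theorem dot_lag'' (x y z : Fin 7 → R) :
    cross y x ⬝ᵥ cross x z = (x ⬝ᵥ y) * (x ⬝ᵥ z) - (x ⬝ᵥ x) * (y ⬝ᵥ z) := by
  rw [dot_anti, dot_lag, neg_sub]

/-- Seven vectors from three. -/
def sev (a b c : Fin 7 → R) : Fin 7 → Fin 7 → R :=
  ![a, b, cross a b, c, cross a c, cross b c, cross (cross a b) c]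

theorem sev_orth {a b c : Fin 7 → R} (hab : a ⬝ᵥ b = 0) (hac : a ⬝ᵥ c = 0) (hbc : b ⬝ᵥ c = 0)
    (h : cross a b ⬝ᵥ c = 0) (k l : Fin 7) (hkl : k ≠ l) : sev a b c k ⬝ᵥ sev a b c l = 0 := by
  have h02 : cross a b ⬝ᵥ a = 0 := dot_self _ _
  have h04 : cross a c ⬝ᵥ a = 0 := dot_self _ _
  have h05 : cross b c ⬝ᵥ a = 0 := by rw [← dot_cyc, h]
  have h06 : cross (cross a b) c ⬝ᵥ a = 0 := by
    rw [dot_cyc, dot_lag'', hab, dotProduct_comm c b, hbc]; ring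
  have h12 : cross a b ⬝ᵥ b = 0 := dot_self' _ _
  have h14 : cross a c ⬝ᵥ b = 0 := by rw [dot_anti, dot_cyc, h, neg_zero]
  have h15 : cross b c ⬝ᵥ b = 0 := dot_self _ _
  have h16 : cross (cross a b) c ⬝ᵥ b = 0 := by
    rw [dot_cyc, dot_lag', hbc, dotProduct_comm c a, hac]; ring
  have h24 : cross a c ⬝ᵥ cross a b = 0 := by
    rw [dot_lag, hab, dotProduct_comm c b, hbc]; ring
  have h25 : cross b c ⬝ᵥ cross a b = 0 := by
    rw [dotProduct_comm, dot_lag'', hbc, hac]; ring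
  have h26 : cross (cross a b) c ⬝ᵥ cross a b = 0 := dot_self _ _
  have h34 : cross a c ⬝ᵥ c = 0 := dot_self' _ _
  have h35 : cross b c ⬝ᵥ c = 0 := dot_self' _ _
  have h36 : cross (cross a b) c ⬝ᵥ c = 0 := dot_self' _ _
  have h45 : cross b c ⬝ᵥ cross a c = 0 := by
    rw [dot_lag', dotProduct_comm b a, hab, dotProduct_comm c b, hbc]; ring
  have h46 : cross (cross a b) c ⬝ᵥ cross a c = 0 := by
    rw [dot_lag', h02, dotProduct_comm c a, hac]; ring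
  have h56 : cross (cross a b) c ⬝ᵥ cross b c = 0 := by
    rw [dot_lag', h12, dotProduct_comm c b, hbc]; ring
  have h01 : b ⬝ᵥ a = 0 := by rw [dotProduct_comm, hab]
  have h03 : c ⬝ᵥ a = 0 := by rw [dotProduct_comm, hac]
  have h13 : c ⬝ᵥ b = 0 := by rw [dotProduct_comm, hbc]
  have h23 : c ⬝ᵥ cross a b = 0 := by rw [dotProduct_comm, h]
  wlog hlt : l < k generalizing k l
  · rw [dotProduct_comm]
    exact this l k hkl.symm (lt_of_le_of_ne (not_lt.mp hlt) hkl)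
  fin_cases k <;> fin_cases l <;> first | (exact absurd hlt (by decide)) | assumption

theorem norm_cross {a b : Fin 7 → R} (hab : a ⬝ᵥ b = 0) :
    cross a b ⬝ᵥ cross a b = (a ⬝ᵥ a) * (b ⬝ᵥ b) := by
  rw [dot_lag, hab]; ring

/-- The first orthogonalisation step. -/
def g1 (a v : Fin 7 → R) : Fin 7 → R := (a ⬝ᵥ a) • v - (a ⬝ᵥ v) • a

/-- The second orthogonalisation step. -/
def g2 (a b v : Fin 7 → R) : Fin 7 → R :=
  ((a ⬝ᵥ a) * (b ⬝ᵥ b)) • v - ((b ⬝ᵥ b) * (a ⬝ᵥ v)) • a - ((a ⬝ᵥ a) * (b ⬝ᵥ v)) • b -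
    (cross a b ⬝ᵥ v) • cross a b

/-- The frame. -/
def fr (a v w : Fin 7 → R) : Fin 7 → Fin 7 → R := sev a (g1 a v) (g2 a (g1 a v) w)

theorem dot_g1 (a v : Fin 7 → R) : a ⬝ᵥ g1 a v = 0 := by
  simp only [g1, dotProduct_sub, dotProduct_smul, smul_eq_mul]; ring

theorem dot_g2 {a b : Fin 7 → R} (hab : a ⬝ᵥ b = 0) (v : Fin 7 → R) :
    a ⬝ᵥ g2 a b v = 0 ∧ b ⬝ᵥ g2 a b v = 0 ∧ cross a b ⬝ᵥ g2 a b v = 0 := by
  have h1 : a ⬝ᵥ cross a b = 0 := by rw [dotProduct_comm, dot_self]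
  have h2 : b ⬝ᵥ cross a b = 0 := by rw [dotProduct_comm, dot_self']
  have h3 : b ⬝ᵥ a = 0 := by rw [dotProduct_comm, hab]
  simp only [g2, dotProduct_sub, dotProduct_smul, smul_eq_mul, hab, h1, h2, h3, dot_self,
    dot_self', norm_cross hab]
  refine ⟨?_, ?_, ?_⟩ <;> ring

theorem fr_orth (a v w : Fin 7 → R) (k l : Fin 7) (hkl : k ≠ l) :
    fr a v w k ⬝ᵥ fr a v w l = 0 :=
  sev_orth (dot_g1 a v) (dot_g2 (dot_g1 a v) w).1 (dot_g2 (dot_g1 a v) w).2.1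
    (dot_g2 (dot_g1 a v) w).2.2 k l hkl

theorem fr_two (a v w : Fin 7 → R) :
    fr a v w 2 ⬝ᵥ fr a v w 2 = (fr a v w 0 ⬝ᵥ fr a v w 0) * (fr a v w 1 ⬝ᵥ fr a v w 1) :=
  norm_cross (dot_g1 a v)

theorem fr_four (a v w : Fin 7 → R) :
    fr a v w 4 ⬝ᵥ fr a v w 4 = (fr a v w 0 ⬝ᵥ fr a v w 0) * (fr a v w 3 ⬝ᵥ fr a v w 3) :=
  norm_cross (dot_g2 (dot_g1 a v) w).1

theorem fr_zero (a v w : Fin 7 → R) : fr a v w 0 = a := rfl

/-- Semilinear maps preserving both products. -/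
structure Pres (φ : R →+* S) (T : (Fin 7 → R) → Fin 7 → S) : Prop where
  sub : ∀ x y, T (x - y) = T x - T y
  smul : ∀ (c : R) x, T (c • x) = φ c • T x
  dot : ∀ x y, T x ⬝ᵥ T y = φ (x ⬝ᵥ y)
  crs : ∀ x y, cross (T x) (T y) = T (cross x y)

theorem Pres.fr {φ : R →+* S} {T : (Fin 7 → R) → Fin 7 → S} (h : Pres φ T) (a v w : Fin 7 → R)
    (k : Fin 7) : fr (T a) (T v) (T w) k = T (fr a v w k) := by
  have h1 : g1 (T a) (T v) = T (g1 a v) := by
    simp only [g1, h.sub, h.smul, h.dot]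
  have h2 : ∀ b, g2 (T a) (T b) (T w) = T (g2 a b w) := fun b => by
    simp only [g2, h.sub, h.smul, h.dot, h.crs, map_mul]
  simp only [Frm.fr, h1, h2, sev, h.crs]
  fin_cases k <;> rfl

theorem pres_map (φ : R →+* S) : Pres φ fun x => φ ∘ x where
  sub x y := by ext k; simp
  smul c x := by ext k; simp
  dot x y := by simp [dotProduct]
  crs x y := by ext k; simp [cross]

theorem Pres.mul {φ : R →+* S} {T : (Fin 7 → R) → Fin 7 → S} (h : Pres φ T)
    {m : Matrix (Fin 7) (Fin 7) S} (h1 : mᵀ * m = 1)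
    (h2 : ∀ x y, m *ᵥ cross x y = cross (m *ᵥ x) (m *ᵥ y)) : Pres φ fun x => m *ᵥ T x where
  sub x y := by rw [h.sub, mulVec_sub]
  smul c x := by rw [h.smul, mulVec_smul]
  dot x y := by
    rw [dotProduct_mulVec, ← mulVec_transpose, mulVec_mulVec, h1, one_mulVec, h.dot]
  crs x y := by rw [← h2, h.crs]

/-- The cross product as a bilinear map. -/
def crossL (R : Type) [CommRing R] : (Fin 7 → R) →ₗ[R] (Fin 7 → R) →ₗ[R] (Fin 7 → R) :=
  LinearMap.mk₂ R cross (fun x x' y => by ext k; simp only [cross, Pi.add_apply]; ring)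
    (fun c x y => by ext k; simp only [cross, Pi.smul_apply, smul_eq_mul]; ring)
    (fun x y y' => by ext k; simp only [cross, Pi.add_apply]; ring)
    (fun c x y => by ext k; simp only [cross, Pi.smul_apply, smul_eq_mul]; ring)

theorem cross_map (φ : R →+* S) {m : Matrix (Fin 7) (Fin 7) R}
    (h : ∀ x y, m *ᵥ cross x y = cross (m *ᵥ x) (m *ᵥ y)) (x y : Fin 7 → S) :
    m.map φ *ᵥ cross x y = cross (m.map φ *ᵥ x) (m.map φ *ᵥ y) := by
  have h0 : ∀ z : Fin 7 → R, m.map φ *ᵥ (φ ∘ z) = φ ∘ (m *ᵥ z) := fun z => by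
    ext k; exact (RingHom.map_mulVec φ m z k).symm
  have h1 : ∀ i : Fin 7, (Pi.single i 1 : Fin 7 → S) = φ ∘ (Pi.single i 1 : Fin 7 → R) :=
    fun i => by
      ext k
      by_cases hk : k = i
      · subst hk; simp
      · simp [hk]
  have h2 : (crossL S).compr₂ (m.map φ).mulVecLin =
      (crossL S).compl₁₂ (m.map φ).mulVecLin (m.map φ).mulVecLin := by
    refine LinearMap.ext_basis (Pi.basisFun S (Fin 7)) (Pi.basisFun S (Fin 7)) fun i j => ?_
    simp only [Pi.basisFun_apply, LinearMap.compr₂_apply, LinearMap.compl₁₂_apply,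
      mulVecLin_apply, crossL, LinearMap.mk₂_apply]
    rw [h1 i, h1 j, h0, h0, (pres_map φ).crs, (pres_map φ).crs, h0, h]
  simpa [crossL] using LinearMap.congr_fun₂ h2 x y

theorem fr_std (k : Fin 7) :
    fr (Pi.single 0 1 : Fin 7 → ℤ) (Pi.single 1 1) (Pi.single 2 1) k ⬝ᵥ
      fr (Pi.single 0 1 : Fin 7 → ℤ) (Pi.single 1 1) (Pi.single 2 1) k = 1 := by
  revert k; decide +kernel

end Ring

theorem dvd_of_map_dvd {K L σ : Type} [Field K] [Field L] [Algebra K L] {p q : MvPolynomial σ K}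
    (h : map (algebraMap K L) p ∣ map (algebraMap K L) q) : p ∣ q := by
  classical
  obtain ⟨π, hπ⟩ := (Algebra.linearMap K L).exists_leftInverse_of_injective
    (LinearMap.ker_eq_bot.mpr (algebraMap K L).injective)
  have h1 : ∀ c, π (algebraMap K L c) = c := fun c => LinearMap.congr_fun hπ c
  obtain ⟨t, ht⟩ := h
  refine ⟨∑ m ∈ t.support, monomial m (π (coeff m t)), ?_⟩
  have h2 : ∀ m, coeff m (∑ m ∈ t.support, monomial m (π (coeff m t))) = π (coeff m t) := by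
    intro m
    simp only [coeff_sum, coeff_monomial, Finset.sum_ite_eq']
    split_ifs with hm
    · rfl
    · rw [notMem_support_iff.mp hm, map_zero]
  ext m
  rw [coeff_mul, ← h1 (coeff m q), ← coeff_map, ht, coeff_mul, map_sum]
  refine Finset.sum_congr rfl fun x _ => ?_
  rw [h2, coeff_map, ← Algebra.smul_def, map_smul, smul_eq_mul]

end Pool.Agent.MP_d45d16_ag.Yag.Frm
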