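import Mathlib.Tactic.Monotonicity.Lemmas
import Mathlib.Algebra.Order.Monoid.Prod
import Pool.Agent.MP_d45d16_ag.yag.AmbRes
import Pool.Agent.MP_d45d16_ag.yag.Frame1

-- ======== part 0: formerly Pool.Agent.MP_d45d16_ag.yag.Frame
section MrgPart0

/-!
The frames of the two twisted quadrics.
-/

set_option autoImplicit false

open MvPolynomial Matrix

namespace Pool.Agent.MP_d45d16_ag.Yag

namespace Frm

/-- The coordinate ring of the matrices. -/
abbrev R0 : Type := MvPolynomial (I14 × I14) ℂ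

/-- A block of the index set. -/
structure Blk (e : Fin 7 → I14) : Prop where
  inj : Function.Injective e
  act : ∀ σ ∈ transl, ∃ h ∈ G2, ∀ i k, σ (gen i (e k)) = ∑ l, gen i (e l) * algebraMap ℂ L0 (h l k)

theorem blk_inl : Blk Sum.inl where
  inj := Sum.inl_injective
  act := by
    rintro σ ⟨h₁, hh₁, h₂, -, h⟩
    refine ⟨h₁, hh₁, fun i k => ?_⟩
    simpa [Matrix.mul_apply] using congrFun (congrFun h i) (Sum.inl k)

theorem blk_inr : Blk Sum.inr where
  inj := Sum.inr_injective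
  act := by
    rintro σ ⟨h₁, -, h₂, hh₂, h⟩
    refine ⟨h₂, hh₂, fun i k => ?_⟩
    simpa [Matrix.mul_apply] using congrFun (congrFun h i) (Sum.inr k)

variable {e : Fin 7 → I14}

/-- The rows of the generic matrix in a block. -/
noncomputable def row (e : Fin 7 → I14) (i : I14) : Fin 7 → L0 := fun k => gen i (e k)

/-- The polynomial rows. -/
noncomputable def rowP (e : Fin 7 → I14) (i : I14) : Fin 7 → R0 := fun k => X (i, e k)

theorem row_eq (i : I14) : row e i = algebraMap R0 L0 ∘ rowP e i := rfl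

/-- The equivariant frame. -/
noncomputable def xx (e : Fin 7 → I14) : Fin 7 → Fin 7 → L0 :=
  fr (row e (e 0)) (row e (e 1)) (row e (e 2))

theorem Blk.pres (he : Blk e) {σ : L0 ≃ₐ[ℂ] L0} (hσ : σ ∈ transl) :
    ∃ T, Pres (σ : L0 →+* L0) T ∧ ∀ i, T (row e i) = row e i := by
  obtain ⟨h, ⟨h1, h2⟩, h3⟩ := he.act σ hσ
  have h4 : (h.map (algebraMap ℂ L0))ᵀ * h.map (algebraMap ℂ L0) = 1 := by
    rw [← transpose_map, ← Matrix.map_mul, h1, Matrix.map_one _ (map_zero _) (map_one _)]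
  refine ⟨_, (pres_map _).mul h4 (cross_map _ h2), fun i => ?_⟩
  have h5 : (σ : L0 →+* L0) ∘ row e i = (h.map (algebraMap ℂ L0))ᵀ *ᵥ row e i := by
    ext k
    simp only [Function.comp_apply, RingHom.coe_coe, row, h3, mulVec, dotProduct,
      transpose_apply, map_apply, mul_comm]
  change h.map (algebraMap ℂ L0) *ᵥ ((σ : L0 →+* L0) ∘ row e i) = _
  rw [h5, mulVec_mulVec, mul_eq_one_comm.mp h4, one_mulVec]

theorem mem_FF {z : L0} (h : ∀ σ ∈ transl, σ z = z) : z ∈ FF := by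
  rw [FF, IntermediateField.mem_fixedField_iff]
  intro σ hσ
  exact (Subgroup.closure_le (MulAction.stabilizer _ z)).mpr h hσ

theorem Blk.row_mem (he : Blk e) (i : I14) (k : Fin 7) : row e i ⬝ᵥ xx e k ∈ FF :=
  mem_FF fun σ hσ => by
    obtain ⟨T, hT, h⟩ := he.pres hσ
    have h1 := hT.dot (row e i) (xx e k)
    rw [xx, ← hT.fr, h, h, h, h] at h1
    exact h1.symm

theorem Blk.norm_mem (he : Blk e) (k : Fin 7) : xx e k ⬝ᵥ xx e k ∈ FF :=
  mem_FF fun σ hσ => by
    obtain ⟨T, hT, h⟩ := he.pres hσ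
    have h1 := hT.dot (xx e k) (xx e k)
    rw [xx, ← hT.fr, h, h, h] at h1
    exact h1.symm

/-- Evaluation at the identity matrix. -/
noncomputable def ev1 : R0 →+* ℂ := eval fun p => if p.1 = p.2 then 1 else 0

theorem Blk.ev1_row (he : Blk e) (i k : Fin 7) :
    ev1 (rowP e (e i) k) = if i = k then 1 else 0 := by
  simp [ev1, rowP, he.inj.eq_iff]

theorem Blk.norm_ne (he : Blk e) (k : Fin 7) : xx e k ⬝ᵥ xx e k ≠ 0 := by
  intro h
  rw [xx, row_eq, row_eq, row_eq, (pres_map _).fr, (pres_map _).dot,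
    map_eq_zero_iff _ (IsFractionRing.injective R0 L0)] at h
  have h1 : ∀ i : Fin 7, ev1 ∘ rowP e (e i) = Int.castRingHom ℂ ∘ (Pi.single i 1 : Fin 7 → ℤ) :=
    fun i => by
      ext k
      rw [Function.comp_apply, he.ev1_row]
      by_cases hk : i = k
      · subst hk; simp
      · simp [hk, Ne.symm hk]
  have h2 := congrArg ev1 h
  rw [← (pres_map ev1).dot, ← (pres_map ev1).fr, h1, h1, h1, (pres_map _).fr, (pres_map _).dot,
    fr_std] at h2
  simp at h2

theorem Blk.eq_zero (he : Blk e) {y : Fin 7 → L0} (h : ∀ i, row e i ⬝ᵥ y = 0) : y = 0 := by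
  let M : Matrix (Fin 7) (Fin 7) R0 := Matrix.of fun i => rowP e (e i)
  have h1 : ev1.mapMatrix M = 1 := by
    ext i k
    simp only [RingHom.mapMatrix_apply, map_apply, M, of_apply, he.ev1_row, one_apply]
  have h2 : ((algebraMap R0 L0).mapMatrix M).det ≠ 0 := by
    rw [← RingHom.map_det, map_ne_zero_iff _ (IsFractionRing.injective R0 L0)]
    intro h3
    have h4 := RingHom.map_det ev1 M
    rw [h1, h3, det_one, map_zero] at h4
    exact zero_ne_one h4
  exact eq_zero_of_mulVec_eq_zero h2 (funext fun i => h (e i))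

theorem sum_sq {K A : Type} [CommRing K] [CommRing A] (c : K →+* A) (x : Fin 7 → Fin 7 → K)
    (hx : ∀ k l, k ≠ l → x k ⬝ᵥ x l = 0) (w : Fin 7 → A) :
    ∑ j, (∑ k, c (x k j) * w k) ^ 2 = ∑ k, c (x k ⬝ᵥ x k) * w k ^ 2 := by
  have h1 : ∑ j, (∑ k, c (x k j) * w k) ^ 2 = ∑ k, ∑ l, c (x k ⬝ᵥ x l) * (w k * w l) := by
    simp only [sq, Finset.sum_mul_sum]
    rw [Finset.sum_comm]
    refine Finset.sum_congr rfl fun k _ => ?_
    rw [Finset.sum_comm]
    refine Finset.sum_congr rfl fun l _ => ?_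
    rw [dotProduct, map_sum, Finset.sum_mul]
    refine Finset.sum_congr rfl fun j _ => ?_
    rw [map_mul]
    ring
  rw [h1]
  refine Finset.sum_congr rfl fun k _ => ?_
  rw [Finset.sum_eq_single k (fun l _ hl => by rw [hx k l hl.symm, map_zero, zero_mul])
    (fun h => absurd (Finset.mem_univ k) h), sq]

/-- The frame of a block. -/
noncomputable def Blk.frame (he : Blk e) : Frame (forms e) where
  f k i := ⟨row e i ⬝ᵥ xx e k, he.row_mem i k⟩
  α k := ⟨xx e k ⬝ᵥ xx e k, he.norm_mem k⟩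
  ne k h := he.norm_ne k (congrArg Subtype.val h)
  two := Subtype.ext (fr_two _ _ _)
  four := Subtype.ext (fr_four _ _ _)
  indep := by
    rw [Fintype.linearIndependent_iff]
    intro c hc l
    have h1 : ∑ k, (c k : L0) • xx e k = 0 := he.eq_zero fun i => by
      have h2 := congrArg Subtype.val (congrFun hc i)
      simpa [dotProduct_sum] using h2
    have h3 := congrArg (xx e l ⬝ᵥ ·) h1
    simp only [dotProduct_sum, dotProduct_smul, smul_eq_mul, dotProduct_zero] at h3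
    rw [Finset.sum_eq_single l
      (fun k _ hk => by rw [xx, fr_orth _ _ _ _ _ hk.symm, mul_zero])
      (fun h => absurd (Finset.mem_univ l) h)] at h3
    exact Subtype.ext ((mul_eq_zero.mp h3).resolve_right (he.norm_ne l))
  sat := by
    intro C _ c w hw p hp
    let f : Fin 7 → I14 → FF := fun k i => ⟨row e i ⬝ᵥ xx e k, he.row_mem i k⟩
    let α : Fin 7 → FF := fun k => ⟨xx e k ⬝ᵥ xx e k, he.norm_mem k⟩
    let P : MvPolynomial (Fin 7) FF := aeval (fun i => ∑ k, MvPolynomial.C (f k i) * X k) p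
    let Q : MvPolynomial (Fin 7) FF := ∑ k, MvPolynomial.C (α k) * X k ^ 2
    let ψ : MvPolynomial (Fin 7) L0 →ₐ[L0] MvPolynomial (Fin 7) L0 :=
      aeval fun j => ∑ k, MvPolynomial.C (xx e k j) * X k
    have h1 : ψ (∑ k : Fin 7, X k ^ 2) = MvPolynomial.map (algebraMap FF L0) Q := by
      simp only [ψ, Q, map_sum, map_pow, aeval_X, map_mul, map_C, map_X]
      exact sum_sq MvPolynomial.C _ (fr_orth _ _ _) _
    have h2 : ψ (aeval (fun i => ∑ k : Fin 7, MvPolynomial.C (gen i (e k)) * X k) p) =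
        MvPolynomial.map (algebraMap FF L0) P := by
      have h3 : (ψ.restrictScalars FF).comp
          (aeval fun i => ∑ k : Fin 7, MvPolynomial.C (gen i (e k)) * X k) =
          (mapAlgHom (Algebra.ofId FF L0)).comp
            (aeval fun i => ∑ k, MvPolynomial.C (f k i) * X k) := by
        ext i : 1
        simp only [AlgHom.comp_apply, aeval_X, AlgHom.restrictScalars_apply, map_sum, map_mul, ψ,
          algHom_C, algebraMap_eq, mapAlgHom_apply, map_X, Finset.mul_sum]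
        rw [Finset.sum_comm]
        refine Finset.sum_congr rfl fun k _ => ?_
        change _ = MvPolynomial.C (row e i ⬝ᵥ xx e k) * _
        simp only [dotProduct, map_sum, map_mul, Finset.sum_mul, row, mul_assoc]
      exact AlgHom.congr_fun h3 p
    have h4 : Q ∣ P := dvd_of_map_dvd (L := L0) (by rw [← h1, ← h2]; exact map_dvd ψ hp.2)
    have h5 : eval₂Hom c w Q = 0 := by simpa [Q] using hw
    have h6 : eval₂Hom c w P = 0 := zero_dvd_iff.mp (h5 ▸ map_dvd (eval₂Hom c w) h4)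
    rw [← h6, map_aeval, ← coe_eval₂Hom]
    congr 2
    · ext z; simp
    · ext i; simp [f, mul_comm]

theorem not_isSquare {p : R0} (φ : R0 →+* Polynomial ℂ) (h : (φ p).natDegree = 1) {z : FF}
    (hz : (z : L0) = algebraMap R0 L0 p) : ¬ IsSquare z := by
  rintro ⟨y, rfl⟩
  have h1 : (y : L0) ^ 2 = algebraMap R0 L0 p := by rw [← hz, sq]; rfl
  obtain ⟨u, hu⟩ := IsIntegrallyClosed.exists_algebraMap_eq_of_isIntegral_pow (R := R0)
    two_pos (h1 ▸ isIntegral_algebraMap)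
  rw [← hu, ← map_pow, (IsFractionRing.injective R0 L0).eq_iff] at h1
  rw [← h1, map_pow, Polynomial.natDegree_pow] at h
  omega

/-- A specialisation to one variable. -/
noncomputable def spec (s : I14 → Polynomial ℂ) : R0 →+* Polynomial ℂ :=
  eval₂Hom Polynomial.C fun p => s p.2

/-- A vector of norm `4 t`. -/
noncomputable def s1 : Fin 7 → Polynomial ℂ :=
  ![Polynomial.X + 1, Polynomial.C Complex.I * (Polynomial.X - 1), 0, 0, 0, 0, 0]

theorem s1_norm : s1 ⬝ᵥ s1 = Polynomial.C 4 * Polynomial.X := by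
  have h : (Polynomial.C Complex.I) ^ 2 = -1 := by rw [← map_pow, Complex.I_sq]; simp
  simp only [s1, dotProduct, Fin.sum_univ_seven, Matrix.cons_val, map_ofNat]
  linear_combination (Polynomial.X - 1) ^ 2 * h

theorem spec_row (s : I14 → Polynomial ℂ) (i : I14) :
    spec s (rowP e i ⬝ᵥ rowP e i) = (s ∘ e) ⬝ᵥ (s ∘ e) := by
  simp [spec, rowP, dotProduct]

theorem Blk.alpha_zero (he : Blk e) :
    (he.frame.α 0 : L0) = algebraMap R0 L0 (rowP e (e 0) ⬝ᵥ rowP e (e 0)) :=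
  (pres_map (algebraMap R0 L0)).dot (rowP e (e 0)) (rowP e (e 0))

theorem main : FrameStmt := by
  have h4 : (Polynomial.C 4 * Polynomial.X : Polynomial ℂ).natDegree = 1 :=
    Polynomial.natDegree_C_mul_X _ (by norm_num)
  refine ⟨blk_inl.frame, blk_inr.frame, ?_, ?_, ?_⟩
  · refine not_isSquare (p := -(rowP Sum.inl (Sum.inl 0) ⬝ᵥ rowP Sum.inl (Sum.inl 0)))
      (spec (Sum.elim s1 s1)) ?_ ?_
    · rw [map_neg, spec_row, Sum.elim_comp_inl, s1_norm, Polynomial.natDegree_neg, h4]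
    · rw [map_neg, ← blk_inl.alpha_zero]; rfl
  · refine not_isSquare (p := -(rowP Sum.inr (Sum.inr 0) ⬝ᵥ rowP Sum.inr (Sum.inr 0)))
      (spec (Sum.elim s1 s1)) ?_ ?_
    · rw [map_neg, spec_row, Sum.elim_comp_inr, s1_norm, Polynomial.natDegree_neg, h4]
    · rw [map_neg, ← blk_inr.alpha_zero]; rfl
  · refine not_isSquare (p := (rowP Sum.inl (Sum.inl 0) ⬝ᵥ rowP Sum.inl (Sum.inl 0)) *
      (rowP Sum.inr (Sum.inr 0) ⬝ᵥ rowP Sum.inr (Sum.inr 0)))
      (spec (Sum.elim s1 (Pi.single 0 1))) ?_ ?_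
    · rw [map_mul, spec_row, spec_row, Sum.elim_comp_inl, Sum.elim_comp_inr, s1_norm,
        single_dotProduct, Pi.single_eq_same, mul_one, mul_one, h4]
    · rw [map_mul, ← blk_inl.alpha_zero, ← blk_inr.alpha_zero]; rfl

end Frm

theorem frame_stmt : FrameStmt := Frm.main

end Pool.Agent.MP_d45d16_ag.Yag

end MrgPart0

-- ======== part 1: formerly Pool.Agent.MP_d45d16_ag.yag.Ev1
section MrgPart1

/-!
The group action on the graded pieces, and the symmetry of the cycle.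
-/

set_option autoImplicit false

open MvPolynomial Filter

namespace Pool.Agent.MP_d45d16_ag.Yag.Ev

theorem isW_bw (ι : Type) : IsW (bw ι) := by
  rintro (i | j)
  · exact Or.inl rfl
  · exact Or.inr rfl

theorem isW_yw (ι : Type) : IsW (yw ι) := fun _ => Or.inr rfl

theorem len_bij (L : LenAPI) {R R' N M : Type} [CommRing R] [CommRing R'] [AddCommGroup N]
    [AddCommGroup M] [Module R N] [Module R' M] (φ : R →+* R') (g : N →ₛₗ[φ] M)
    (s : PrimeSpectrum R') (q : PrimeSpectrum R) (hq : q.asIdeal = s.asIdeal.comap φ)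
    (hφ : Function.Surjective φ) (hg : Function.Bijective g) : lenAt q N = lenAt s M := by
  have h1 : (1 : R) ∉ q.asIdeal := (Ideal.ne_top_iff_one _).1 q.isPrime.ne_top
  refine L.loc R R' N M φ g s q hq (fun x => ?_) (fun m => ?_) (fun n hn => ?_)
  · obtain ⟨r, rfl⟩ := hφ x
    exact ⟨1, r, h1, by simp⟩
  · obtain ⟨n, rfl⟩ := hg.2 m
    exact ⟨1, n, h1, by simp⟩
  · exact ⟨1, h1, by rw [one_smul]; exact hg.1 (by rw [hn, map_zero])⟩

theorem len_le (L : LenAPI) {R N M : Type} [CommRing R] [AddCommGroup N] [AddCommGroup M]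
    [Module R N] [Module R M] (p : PrimeSpectrum R) (f : N →ₗ[R] M) (hf : Function.Injective f) :
    lenAt p N ≤ lenAt p M := by
  rw [L.exact R N M (M ⧸ LinearMap.range f) p f (LinearMap.range f).mkQ hf
    (Submodule.mkQ_surjective _) (LinearMap.exact_map_mkQ_range f)]
  exact le_self_add

theorem len_zero (L : LenAPI) {R M : Type} [CommRing R] [AddCommGroup M] [Module R M]
    (p : PrimeSpectrum R) (h : ∀ m : M, m = 0) : lenAt p M = 0 :=
  (L.zero R M p).2 fun m => ⟨1, (Ideal.ne_top_iff_one _).1 p.isPrime.ne_top, by rw [h m, smul_zero]⟩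

/-- A ring map which rescales the variables preserves weighted homogeneity. -/
theorem hom_scale {σ K M : Type} [CommRing K] [AddCommMonoid M] (w : σ → M) (ρ : K →+* K)
    (e : σ → K) {f : MvPolynomial σ K} {m : M} (hf : IsWeightedHomogeneous w f m) :
    IsWeightedHomogeneous w (eval₂Hom (C.comp ρ) (fun v => C (e v) * X v) f) m := by
  classical
  rw [f.as_sum, map_sum]
  refine IsWeightedHomogeneous.sum _ _ _ fun d hd => ?_
  have h : eval₂Hom (C.comp ρ) (fun v => C (e v) * X v) (monomial d (coeff d f)) =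
      monomial d (ρ (coeff d f) * d.prod fun v k => e v ^ k) := by
    rw [eval₂Hom_monomial, monomial_eq]
    simp only [Finsupp.prod, mul_pow, Finset.prod_mul_distrib, map_mul, map_prod, map_pow,
      RingHom.comp_apply, mul_assoc]
  rw [h]
  exact isWeightedHomogeneous_monomial _ _ _ (hf (mem_support_iff.1 hd))

theorem smul_mk {ι R : Type} [CommRing R] (J : Ideal (Pxy ι R)) (b : By ι R) (f : Pxy ι R) :
    b • Ideal.Quotient.mk J f = Ideal.Quotient.mk J (algebraMap (By ι R) (Pxy ι R) b * f) := by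
  rw [← Algebra.smul_def]
  rfl

section Act

variable {A ι κ K : Type} [Group A] [Field κ] [Field K] [MulSemiringAction A K]
  (S : Setup A ι κ)

theorem act_C (a : A) (c : K) : S.act a (C c : Pxy ι K) = C (a • c) := by
  simp [Setup.act]

theorem act_x (a : A) (i : ι) :
    S.act a (X (Sum.inl i) : Pxy ι K) = ((S.χ i a : ℤˣ) : ℤ) • X (Sum.inl i) := by
  simp [Setup.act]

theorem act_y (a : A) (j : ι) : S.act a (X (Sum.inr j) : Pxy ι K) = X (Sum.inr j) := by
  simp [Setup.act]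

theorem act_act (a b : A) (f : Pxy ι K) : S.act a (S.act b f) = S.act (a * b) f := by
  have h : (S.act (K := K) a).comp (S.act b) = S.act (a * b) := by
    refine MvPolynomial.ringHom_ext (fun c => ?_) ?_
    · simp only [RingHom.comp_apply, act_C, mul_smul]
    · rintro (i | j)
      · simp only [RingHom.comp_apply, act_x, map_zsmul, map_mul, Units.val_mul, smul_smul,
          mul_comm]
      · simp only [RingHom.comp_apply, act_y]
  exact RingHom.congr_fun h f

theorem act_one (f : Pxy ι K) : S.act 1 f = f := by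
  have h : S.act (K := K) 1 = RingHom.id _ := by
    refine MvPolynomial.ringHom_ext (fun c => ?_) ?_
    · simp only [act_C, one_smul, RingHom.id_apply]
    · rintro (i | j)
      · simp only [act_x, map_one, Units.val_one, one_smul, RingHom.id_apply]
      · simp only [act_y, RingHom.id_apply]
  rw [h, RingHom.id_apply]

theorem act_alg (a : A) (b : By ι K) :
    S.act a (algebraMap (By ι K) (Pxy ι K) b) = algebraMap (By ι K) (Pxy ι K) (actB ι a b) := by
  have h : (S.act (K := K) a).comp (algebraMap (By ι K) (Pxy ι K)) =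
      (algebraMap (By ι K) (Pxy ι K)).comp (actB ι a) := by
    refine MvPolynomial.ringHom_ext (fun c => ?_) fun j => ?_
    · simp [algBP_apply, act_C, actB]
    · simp [algBP_apply, act_y, actB]
  exact RingHom.congr_fun h b

theorem act_hom {M : Type} [AddCommMonoid M] (w : ι ⊕ ι → M) (a : A) {f : Pxy ι K} {m : M}
    (hf : IsWeightedHomogeneous w f m) : IsWeightedHomogeneous w (S.act a f) m := by
  have h : S.act (K := K) a = eval₂Hom (C.comp (MulSemiringAction.toRingHom A K a))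
      fun v => C (Sum.elim (fun i => (((S.χ i a : ℤˣ) : ℤ) : K)) (fun _ => 1) v) * X v := by
    refine MvPolynomial.ringHom_ext (fun c => ?_) ?_
    · simp [act_C]
    · rintro (i | j)
      · simp [act_x]
      · simp [act_y]
  rw [h]
  exact hom_scale w _ _ hf

omit S in
theorem actB_actB (a b : A) (f : By ι K) : actB ι a (actB ι b f) = actB ι (a * b) f := by
  unfold actB
  rw [MvPolynomial.map_map]
  congr 2
  ext c
  simp [mul_smul]

omit S in
theorem actB_triv (a : A) (ha : ∀ c : K, a • c = c) (f : By ι K) : actB ι a f = f := by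
  have h : MulSemiringAction.toRingHom A K a = RingHom.id K := RingHom.ext ha
  unfold actB
  rw [h, MvPolynomial.map_id]

omit S in
theorem actB_inv (a : A) (f : By ι K) : actB ι a (actB ι a⁻¹ f) = f := by
  rw [actB_actB, mul_inv_cancel]
  exact actB_triv 1 (one_smul A) f

omit S in
theorem actB_inv' (a : A) (f : By ι K) : actB ι a⁻¹ (actB ι a f) = f := by
  simpa using actB_inv a⁻¹ f

omit S in
theorem actB_surj (a : A) : Function.Surjective (actB ι (K := K) a) :=
  fun f => ⟨_, actB_inv a f⟩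

omit S in
theorem actB_comp {M : Type} [AddCommMonoid M] (w : ι → M) (a : A) (f : By ι K) (m : M) :
    weightedHomogeneousComponent w m (actB ι a f) =
      actB ι a (weightedHomogeneousComponent w m f) := by
  classical
  ext d
  unfold actB
  rw [coeff_weightedHomogeneousComponent, coeff_map, coeff_map, coeff_weightedHomogeneousComponent]
  split_ifs <;> simp

omit S in
theorem actB_hom {M : Type} [AddCommMonoid M] (w : ι → M) (a : A) {f : By ι K} {m : M}
    (hf : IsWeightedHomogeneous w f m) : IsWeightedHomogeneous w (actB ι a f) m := by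
  intro d hd
  refine hf fun h => hd ?_
  unfold actB
  rw [coeff_map, h, map_zero]

omit S in
theorem hf_actB (a : A) (I : Ideal (By ι K)) (m : ℕ × ℕ) :
    hf (yw ι) (I.comap (actB ι a)) m = hf (yw ι) I m := by
  let θ := Ideal.quotientMap I (actB ι a) (le_refl (I.comap (actB ι a)))
  let W := weightedHomogeneousSubmodule K (yw ι) m
  let U := W.map (Ideal.Quotient.mkₐ K (I.comap (actB ι a))).toLinearMap
  let V := W.map (Ideal.Quotient.mkₐ K I).toLinearMap
  have hθ : ∀ f, θ (Ideal.Quotient.mk _ f) = Ideal.Quotient.mk I (actB ι a f) :=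
    fun f => Ideal.quotientMap_mk
  have hUV : ∀ z ∈ U, θ z ∈ V := by
    rintro _ ⟨f, hf, rfl⟩
    exact ⟨actB ι a f, actB_hom _ a hf, (hθ f).symm⟩
  let j : U →+ V :=
    { toFun := fun z => ⟨θ z, hUV z z.2⟩
      map_zero' := Subtype.ext (map_zero θ)
      map_add' := fun x y => Subtype.ext (map_add θ _ _) }
  have hj : Function.Bijective j := by
    refine ⟨fun x y h => Subtype.ext (Ideal.quotientMap_injective (congrArg Subtype.val h)), ?_⟩
    rintro ⟨_, f, hf, rfl⟩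
    refine ⟨⟨_, actB ι a⁻¹ f, actB_hom _ a⁻¹ hf, rfl⟩, Subtype.ext ?_⟩
    exact (hθ _).trans (by rw [actB_inv]; rfl)
  have h := rank_eq_of_equiv_equiv (R := K) (R' := K) (fun c => a • c) (AddEquiv.ofBijective j hj)
    (MulAction.bijective a) (by
      rintro c ⟨_, f, hf, rfl⟩
      refine Subtype.ext ?_
      change θ (c • Ideal.Quotient.mkₐ K _ f) = (a • c) • θ (Ideal.Quotient.mk _ f)
      rw [← map_smul, hθ]
      change θ (Ideal.Quotient.mk _ _) = (a • c) • Ideal.Quotient.mkₐ K I _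
      rw [hθ, ← map_smul, smul_eq_C_mul, smul_eq_C_mul, map_mul]
      simp [actB])
  exact congrArg Cardinal.toNat h

omit S in
theorem crv_actB (a : A) {s : PrimeSpectrum (By ι K)} (hs : Crv s) : Crv (s.comap (actB ι a)) := by
  refine ⟨fun f hf m => ?_, fun C => ?_⟩
  · change actB ι a _ ∈ s.asIdeal
    rw [← actB_comp]
    exact hs.1 _ hf m
  · obtain ⟨n, hn⟩ := hs.2 C
    exact ⟨n, by rw [PrimeSpectrum.comap_asIdeal, hf_actB]; exact hn⟩

theorem stab_le (J : Ideal (Pxy ι K)) (hJ : ∀ (a : A), ∀ f ∈ J, S.act a f ∈ J) (a : A) :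
    J ≤ J.comap (S.act a) := fun f hf => hJ a f hf

/-- The action on the quotient by a stable ideal. -/
noncomputable def tau (J : Ideal (Pxy ι K)) (hJ : ∀ (a : A), ∀ f ∈ J, S.act a f ∈ J) (a : A) :
    (Pxy ι K ⧸ J) →ₛₗ[actB ι (K := K) a] (Pxy ι K ⧸ J) where
  toFun := Ideal.quotientMap J (S.act a) (stab_le S J hJ a)
  map_add' := map_add _
  map_smul' := fun b z => by
    obtain ⟨f, rfl⟩ := Ideal.Quotient.mk_surjective z
    rw [smul_mk, Ideal.quotientMap_mk, Ideal.quotientMap_mk, smul_mk, map_mul, act_alg]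

theorem tau_mk (J : Ideal (Pxy ι K)) (hJ : ∀ (a : A), ∀ f ∈ J, S.act a f ∈ J) (a : A)
    (f : Pxy ι K) : tau S J hJ a (Ideal.Quotient.mk J f) = Ideal.Quotient.mk J (S.act a f) :=
  Ideal.quotientMap_mk (H := stab_le S J hJ a)

theorem tau_md (J : Ideal (Pxy ι K)) (hJ : ∀ (a : A), ∀ f ∈ J, S.act a f ∈ J) (a : A) (d : ℕ) :
    ∀ z ∈ Md J d, tau S J hJ a z ∈ Md J d := by
  rintro _ ⟨f, hf, rfl⟩
  exact ⟨S.act a f, act_hom S _ a hf, (tau_mk S J hJ a f).symm⟩

theorem tau_tau (J : Ideal (Pxy ι K)) (hJ : ∀ (a : A), ∀ f ∈ J, S.act a f ∈ J) (a b : A)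
    (h : a * b = 1) (z : Pxy ι K ⧸ J) : tau S J hJ a (tau S J hJ b z) = z := by
  obtain ⟨f, rfl⟩ := Ideal.Quotient.mk_surjective z
  rw [tau_mk, tau_mk, act_act, h, act_one]

theorem len_md_sym (L : LenAPI) (J : Ideal (Pxy ι K)) (hJ : ∀ (a : A), ∀ f ∈ J, S.act a f ∈ J)
    (a : A) (s : PrimeSpectrum (By ι K)) (d : ℕ) :
    lenAt (s.comap (actB ι a)) (Md J d) = lenAt s (Md J d) := by
  refine len_bij L (actB ι a) ((tau S J hJ a).restrict (tau_md S J hJ a d)) s _ rfl
    (actB_surj a) ⟨fun x y h => Subtype.ext ?_, fun z => ?_⟩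
  · have h1 := congrArg (tau S J hJ a⁻¹) (congrArg Subtype.val h)
    simpa only [LinearMap.coe_restrict_apply, tau_tau S J hJ a⁻¹ a (inv_mul_cancel a)] using h1
  · exact ⟨⟨_, tau_md S J hJ a⁻¹ d z z.2⟩,
      Subtype.ext (tau_tau S J hJ a a⁻¹ (mul_inv_cancel a) z)⟩

theorem cyc_eq_zero (Cy : CycAPI) [Finite ι] {J : Ideal (Pxy ι K)} (h1 : IsHom (bw ι) J)
    (h2 : Lin (bw ι) J) {s : PrimeSpectrum (By ι K)} (hs : ¬ Crv s) : cyc J s = 0 := by
  by_contra h
  exact hs ((Cy.spec ι K J h1 h2).1.1 s (Finsupp.mem_support_iff.2 h))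

theorem sym (L : LenAPI) (Cy : CycAPI) [Finite ι] [Algebra κ K] (J : Ideal (Pxy ι K))
    (s : PrimeSpectrum (By ι K)) (a : A) (hJ : S.Adm J) :
    cyc J (s.comap (actB ι a)) = cyc J s := by
  by_cases hs : Crv s
  · have h1 := (Cy.spec ι K J hJ.hom hJ.lin).1.2 s hs
    have h2 := (Cy.spec ι K J hJ.hom hJ.lin).1.2 _ (crv_actB a hs)
    obtain ⟨d, hd1, hd2⟩ := (h1.and h2).exists
    rw [len_md_sym S L J hJ.stab, hd1] at hd2
    exact_mod_cast hd2.symm
  · have hs' : ¬ Crv (s.comap (actB ι a)) := fun h => hs (by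
      have h3 := crv_actB a⁻¹ h
      have h4 : (s.comap (actB ι a)).comap (actB ι a⁻¹) = s := by
        ext f
        simp only [PrimeSpectrum.comap_asIdeal, Ideal.mem_comap, actB_inv]
      rwa [h4] at h3)
    rw [cyc_eq_zero Cy hJ.hom hJ.lin hs, cyc_eq_zero Cy hJ.hom hJ.lin hs']

end Act

end Pool.Agent.MP_d45d16_ag.Yag.Ev

end MrgPart1

-- ======== part 2: formerly Pool.Agent.MP_d45d16_ag.yag.Ev2
section MrgPart2

/-!
The structure of the graded pieces when at most two `x`-variables survive.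
-/

set_option autoImplicit false

open MvPolynomial Filter

namespace Pool.Agent.MP_d45d16_ag.Yag.Ev

variable {ι K : Type} [Field K]

theorem xw_of_bw {f : Pxy ι K} {m : ℕ × ℕ} (hf : IsWeightedHomogeneous (bw ι) f m) :
    IsWeightedHomogeneous (xw ι) f m.1 := by
  intro d hd
  rw [← hf hd, Finsupp.weight_apply, Finsupp.weight_apply, Finsupp.sum, Finsupp.sum, Prod.fst_sum]
  refine Finset.sum_congr rfl ?_
  rintro (i | j) - <;> simp [xw, bw]

theorem x_hom (k : ι) : IsWeightedHomogeneous (bw ι) (X (Sum.inl k) : Pxy ι K) (1, 0) :=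
  isWeightedHomogeneous_X K (bw ι) (Sum.inl k)

theorem pow_hom {u : Pxy ι K} (hu : IsWeightedHomogeneous (bw ι) u (1, 0)) (d : ℕ) :
    IsWeightedHomogeneous (bw ι) (u ^ d) (d, 0) := by
  induction d with
  | zero => rw [pow_zero]; exact isWeightedHomogeneous_one _ _
  | succ d ih => rw [pow_succ]; exact ih.mul hu

theorem mem_pow (n : Ideal (Pxy ι K)) (h : ∀ k, X (Sum.inl k) ∈ n) {f : Pxy ι K} {d : ℕ}
    (hf : IsWeightedHomogeneous (xw ι) f d) : f ∈ n ^ d := by
  classical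
  rw [f.as_sum]
  refine Ideal.sum_mem _ fun m hm => ?_
  rw [monomial_eq, ← hf (mem_support_iff.1 hm), Finsupp.weight_apply, Finsupp.sum,
    ← Finset.prod_pow_eq_pow_sum]
  refine Ideal.mul_mem_left _ _ (Ideal.prod_mem_prod ?_)
  rintro (i | j) -
  · simpa [xw] using Ideal.pow_mem_pow (h i) _
  · simp [xw]

theorem exists_alg {f : Pxy ι K} (hf : IsWeightedHomogeneous (xw ι) f 0) :
    ∃ b : By ι K, algebraMap (By ι K) (Pxy ι K) b = f := by
  classical
  refine exists_rename_eq_of_vars_subset_range f Sum.inr Sum.inr_injective ?_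
  rintro (i | j) hv
  · obtain ⟨d, hd, hi⟩ := (mem_vars_iff_mem_support _).1 (Finset.mem_coe.1 hv)
    have h := hf (mem_support_iff.1 hd)
    rw [Finsupp.weight_apply, Finsupp.sum, Finset.sum_eq_zero_iff] at h
    exact absurd (by simpa [xw] using h _ hi) (Finsupp.mem_support_iff.1 hi)
  · exact ⟨j, rfl⟩

theorem alg_mem_Nd (b : By ι K) : algebraMap (By ι K) (Pxy ι K) b ∈ Nd ι K 0 := by
  rw [Algebra.algebraMap_eq_smul_one]
  exact (Nd ι K 0).smul_mem b (isWeightedHomogeneous_one _ _)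

theorem len_md0 (L : LenAPI) (J : Ideal (Pxy ι K)) (s : PrimeSpectrum (By ι K)) :
    lenAt s (Md J 0) = lenAt s (By ι K ⧸ J.comap (algebraMap (By ι K) (Pxy ι K))) := by
  let l : By ι K →ₗ[By ι K] Md J 0 :=
    ((Ideal.Quotient.mkₐ (By ι K) J).toLinearMap.comp
      (Algebra.linearMap (By ι K) (Pxy ι K))).codRestrict _ fun b => ⟨_, alg_mem_Nd b, rfl⟩
  have hl : ∀ b, l b = 0 ↔ b ∈ J.comap (algebraMap (By ι K) (Pxy ι K)) := fun b => by
    rw [Subtype.ext_iff]
    exact Ideal.Quotient.eq_zero_iff_mem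
  refine (len_bij L (RingHom.id _)
    (Submodule.liftQ (J.comap (algebraMap (By ι K) (Pxy ι K))) l fun b hb => (hl b).2 hb)
    s s (Ideal.comap_id _).symm Function.surjective_id ⟨?_, ?_⟩).symm
  · rw [← LinearMap.ker_eq_bot]
    exact Submodule.ker_liftQ_eq_bot _ _ _ fun b hb => (hl b).1 hb
  · rintro ⟨_, f, hf, rfl⟩
    obtain ⟨b, rfl⟩ := exists_alg hf
    exact ⟨Submodule.Quotient.mk b, rfl⟩

theorem len_md_zero (L : LenAPI) (J : Ideal (Pxy ι K)) (s : PrimeSpectrum (By ι K)) (d : ℕ)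
    (h : ∀ f, IsWeightedHomogeneous (xw ι) f d → f ∈ J) : lenAt s (Md J d) = 0 := by
  refine len_zero L s ?_
  rintro ⟨_, f, hf, rfl⟩
  exact Subtype.ext (Ideal.Quotient.eq_zero_iff_mem.2 (h f hf))

theorem hf_zero (H : HfAPI) [Finite ι] (J : Ideal (Pxy ι K)) (d n : ℕ)
    (h : ∀ f, IsWeightedHomogeneous (xw ι) f d → f ∈ J) : hf (bw ι) J (d, n) = 0 :=
  (H.zero _ K _ J _ (isW_bw ι)).2 fun f hf => h f (xw_of_bw hf)

theorem nil {J n : Ideal (Pxy ι K)} (h : ∀ k, X (Sum.inl k) ∈ n) (h2 : n ^ 2 ≤ J) {d : ℕ}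
    (hd : 2 ≤ d) (f : Pxy ι K) (hf : IsWeightedHomogeneous (xw ι) f d) : f ∈ J :=
  h2 (Ideal.pow_le_pow_right hd (mem_pow n h hf))

theorem cyc_nil (L : LenAPI) (Cy : CycAPI) [Finite ι] {J n : Ideal (Pxy ι K)}
    (h1 : IsHom (bw ι) J) (hl : Lin (bw ι) J) (h : ∀ k, X (Sum.inl k) ∈ n) (h2 : n ^ 2 ≤ J) :
    cyc J = 0 := by
  ext s
  by_cases hs : Crv s
  · obtain ⟨d, hd1, hd2⟩ := (((Cy.spec ι K J h1 hl).1.2 s hs).and (eventually_ge_atTop 2)).exists
    rw [len_md_zero L J s d (nil h h2 hd2)] at hd1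
    exact_mod_cast hd1.symm
  · by_contra h3
    exact hs ((Cy.spec ι K J h1 hl).1.1 s (Finsupp.mem_support_iff.2 h3))

/-- The annihilator of `u ^ d` in the `y`-ring. -/
noncomputable def ann (J : Ideal (Pxy ι K)) (u : Pxy ι K) (d : ℕ) : Ideal (By ι K) :=
  (J.colon {u ^ d}).comap (algebraMap (By ι K) (Pxy ι K))

theorem mem_ann {J : Ideal (Pxy ι K)} {u : Pxy ι K} {d : ℕ} {b : By ι K} :
    b ∈ ann J u d ↔ algebraMap (By ι K) (Pxy ι K) b * u ^ d ∈ J := by
  rw [ann, Ideal.mem_comap, Submodule.mem_colon_singleton, smul_eq_mul]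

theorem ann_stab [Finite ι] (J : Ideal (Pxy ι K)) (u : Pxy ι K) :
    ∃ D, ∀ d, D ≤ d → ann J u D = ann J u d := by
  refine monotone_stabilizes_iff_noetherian.2 inferInstance
    ⟨ann J u, monotone_nat_of_le_succ fun d b hb => ?_⟩
  rw [mem_ann] at hb ⊢
  rw [pow_succ, ← mul_assoc]
  exact J.mul_mem_right _ hb

theorem two_pow_le {J : Ideal (Pxy ι K)} {u v : Pxy ι K} (huv : u * v ∈ J) (d : ℕ) :
    (J ⊔ Ideal.span {u} ⊔ Ideal.span {v}) ^ (d + 1) ≤
      J ⊔ Ideal.span {u ^ (d + 1)} ⊔ Ideal.span {v ^ (d + 1)} := by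
  have key : ∀ (p q : Pxy ι K) (z : Pxy ι K), z ∈ J ⊔ Ideal.span {p} ⊔ Ideal.span {q} ↔
      ∃ a b, z - a * p - b * q ∈ J := fun p q z => by
    constructor
    · intro hz
      obtain ⟨y, hy, w, hw, rfl⟩ := Submodule.mem_sup.1 hz
      obtain ⟨j, hj, t, ht, rfl⟩ := Submodule.mem_sup.1 hy
      obtain ⟨a, rfl⟩ := Ideal.mem_span_singleton'.1 ht
      obtain ⟨b, rfl⟩ := Ideal.mem_span_singleton'.1 hw
      exact ⟨a, b, by convert hj using 1; ring⟩
    · rintro ⟨a, b, h⟩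
      have e : z = z - a * p - b * q + a * p + b * q := by ring
      rw [e]
      exact Submodule.add_mem_sup (Submodule.add_mem_sup h
        (Ideal.mem_span_singleton'.2 ⟨a, rfl⟩)) (Ideal.mem_span_singleton'.2 ⟨b, rfl⟩)
  induction d with
  | zero => simp
  | succ d ih =>
    rw [pow_succ]
    refine Ideal.mul_le.2 fun r hr s hs => ?_
    obtain ⟨a, b, h1⟩ := (key _ _ _).1 (ih hr)
    obtain ⟨a', b', h2⟩ := (key _ _ _).1 hs
    refine (key _ _ _).2 ⟨a * a', b * b', ?_⟩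
    have e : r * s - a * a' * u ^ (d + 1 + 1) - b * b' * v ^ (d + 1 + 1) =
        (r - a * u ^ (d + 1) - b * v ^ (d + 1)) * s +
          (a * u ^ (d + 1) + b * v ^ (d + 1)) * (s - a' * u - b' * v) +
          (a * b' * u ^ d + b * a' * v ^ d) * (u * v) := by ring
    rw [e]
    exact J.add_mem (J.add_mem (J.mul_mem_right _ h1) (J.mul_mem_left _ h2))
      (J.mul_mem_left _ huv)

theorem ann_sup {J : Ideal (Pxy ι K)} {u v : Pxy ι K} (huv : u * v ∈ J) {d : ℕ}
    (h : ann J v (d + 1) = ann J v (d + 1 + 1)) :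
    ann (J ⊔ Ideal.span {u ^ (d + 1)}) v (d + 1) = ann J v (d + 1) := by
  refine le_antisymm (fun b hb => ?_) fun b hb => mem_ann.2 (Ideal.mem_sup_left (mem_ann.1 hb))
  rw [h]
  obtain ⟨j, hj, t, ht, e⟩ := Submodule.mem_sup.1 (mem_ann.1 hb)
  obtain ⟨a, rfl⟩ := Ideal.mem_span_singleton'.1 ht
  rw [mem_ann, pow_succ, ← mul_assoc, ← e]
  have e' : (j + a * u ^ (d + 1)) * v = j * v + a * u ^ d * (u * v) := by ring
  rw [e']
  exact J.add_mem (J.mul_mem_right _ hj) (J.mul_mem_left _ huv)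

section Two

variable [Finite ι] {J : Ideal (Pxy ι K)} {u v : Pxy ι K} (hJ : IsHom (bw ι) J)
  (hu : IsWeightedHomogeneous (bw ι) u (1, 0)) (hv : IsWeightedHomogeneous (bw ι) v (1, 0))
  (huv : u * v ∈ J) (hx : ∀ k, X (Sum.inl k) ∈ J ⊔ Ideal.span {u} ⊔ Ideal.span {v})

include hJ hu in
theorem ann_hom (H : HfAPI) (d : ℕ) : IsHom (yw ι) (ann J u d) :=
  (H.contr ι K _ (H.colon _ K _ J _ _ hJ (pow_hom hu d))).1

include hJ hu hv huv hx in
theorem len_two (L : LenAPI) (H : HfAPI) (Cy : CycAPI) {d : ℕ}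
    (h : ann J v (d + 1) = ann J v (d + 1 + 1)) (s : PrimeSpectrum (By ι K)) :
    lenAt s (Md J (d + 1)) =
      lenAt s (By ι K ⧸ ann J u (d + 1)) + lenAt s (By ι K ⧸ ann J v (d + 1)) := by
  have h1 := Cy.md_add ι K J _ _ 0 s hJ (pow_hom hu (d + 1))
  have h2 := Cy.md_add ι K _ _ _ 0 s (H.sup _ K _ J _ _ hJ (pow_hom hu (d + 1)))
    (pow_hom hv (d + 1))
  dsimp only at h1 h2
  rw [zero_add] at h1 h2
  rw [len_md_zero L _ s (d + 1) fun f hf => two_pow_le huv d (mem_pow _ hx hf), zero_add,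
    len_md0 L] at h2
  rw [h1, h2, len_md0 L, add_comm]
  change _ + lenAt s (By ι K ⧸ ann _ v (d + 1)) = _
  rw [ann_sup huv h]
  rfl

include hJ hu hv huv hx in
theorem hf_two (H : HfAPI) {d : ℕ} (h : ann J v (d + 1) = ann J v (d + 1 + 1)) (n : ℕ) :
    hf (bw ι) J (d + 1, n) =
      hf (yw ι) (ann J u (d + 1)) (0, n) + hf (yw ι) (ann J v (d + 1)) (0, n) := by
  have hs := H.sup _ K _ J _ _ hJ (pow_hom hu (d + 1))
  have h1 := H.add _ K _ J _ _ (0, n) (isW_bw ι) hJ (pow_hom hu (d + 1))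
  have h2 := H.add _ K _ _ _ _ (0, n) (isW_bw ι) hs (pow_hom hv (d + 1))
  rw [Prod.mk_add_mk, zero_add, add_zero] at h1 h2
  rw [hf_zero H _ (d + 1) n fun f hf => two_pow_le huv d (mem_pow _ hx hf), zero_add,
    ← (H.contr ι K _ (H.colon _ K _ _ _ _ hs (pow_hom hv (d + 1)))).2] at h2
  rw [h1, h2, ← (H.contr ι K _ (H.colon _ K _ _ _ _ hJ (pow_hom hu (d + 1)))).2, add_comm]
  change _ + hf (yw ι) (ann _ v (d + 1)) _ = _
  rw [ann_sup huv h]
  rfl

end Two

end Pool.Agent.MP_d45d16_ag.Yag.Ev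

end MrgPart2

-- ======== part 3: formerly Pool.Agent.MP_d45d16_ag.yag.Ev
section MrgPart3

/-!
Evenness and symmetry of the cycle of an invariant ideal.
-/

set_option autoImplicit false

open MvPolynomial Filter

namespace Pool.Agent.MP_d45d16_ag.Yag

namespace Ev

theorem len_quot (L : LenAPI) {R R' : Type} [CommRing R] [CommRing R'] (φ : R →+* R')
    (hφ : Function.Surjective φ) (I : Ideal R') (s : PrimeSpectrum R') :
    lenAt (s.comap φ) (R ⧸ I.comap φ) = lenAt s (R' ⧸ I) := by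
  refine len_bij L φ (Submodule.mapQ (I.comap φ) I φ.toSemilinearMap fun _ h => h) s _ rfl hφ
    ⟨?_, fun z => ?_⟩
  · rw [injective_iff_map_eq_zero]
    intro z hz
    obtain ⟨r, rfl⟩ := Submodule.Quotient.mk_surjective _ z
    exact (Submodule.Quotient.mk_eq_zero _).2 ((Submodule.Quotient.mk_eq_zero I).1 hz)
  · obtain ⟨r, rfl⟩ := Submodule.Quotient.mk_surjective _ z
    obtain ⟨r, rfl⟩ := hφ r
    exact ⟨Submodule.Quotient.mk r, rfl⟩

theorem sgn_mem {R : Type} [CommRing R] (J : Ideal R) (ε : ℤˣ) (z : R) :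
    (ε : ℤ) • z ∈ J ↔ z ∈ J := by
  rcases Int.units_eq_one_or ε with rfl | rfl <;> simp

theorem sgn_ne {ε δ : ℤˣ} (h : ε ≠ δ) : δ = -ε := by
  rcases Int.units_eq_one_or ε with rfl | rfl <;> rcases Int.units_eq_one_or δ with rfl | rfl <;>
    simp_all

variable {A ι κ K : Type} [Group A] [Field κ] [Field K] [Algebra κ K] [MulSemiringAction A K]
  (S : Setup A ι κ)

omit [MulSemiringAction A K] in
include S in
theorem two_ne : (2 : K) ≠ 0 := by
  have h := (map_ne_zero (algebraMap κ K)).2 S.two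
  rwa [map_ofNat] at h

theorem act_mem_iff {J : Ideal (Pxy ι K)} (hJ : S.Adm J) (a : A) (f : Pxy ι K) :
    S.act a f ∈ J ↔ f ∈ J := by
  refine ⟨fun h => ?_, hJ.stab a f⟩
  have h1 := hJ.stab a⁻¹ _ h
  rwa [act_act, inv_mul_cancel, act_one] at h1

theorem adm_of_le (H : HfAPI) [Finite ι] {J J' : Ideal (Pxy ι K)} (hJ : S.Adm J) (h : J ≤ J')
    (h1 : IsHom (bw ι) J') (h2 : ∀ (a : A), ∀ f ∈ J', S.act a f ∈ J') : S.Adm J' := by
  obtain ⟨C, hC⟩ := hJ.lin
  exact ⟨h1, ⟨C, fun d n => (H.mono _ K _ J J' _ (isW_bw ι) h).trans (hC d n)⟩, h2, h hJ.quad,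
    fun i hi => h (hJ.out i hi), fun e he => h (hJ.eqs e he)⟩

theorem adm_sup (H : HfAPI) [Finite ι] {J : Ideal (Pxy ι K)} (hJ : S.Adm J) (k : ι) :
    S.Adm (J ⊔ Ideal.span {X (Sum.inl k)}) := by
  refine adm_of_le S H hJ le_sup_left (H.sup _ K _ J _ _ hJ.hom (x_hom k)) fun a f hf => ?_
  obtain ⟨j, hj, t, ht, rfl⟩ := Submodule.mem_sup.1 hf
  obtain ⟨g, rfl⟩ := Ideal.mem_span_singleton'.1 ht
  rw [map_add, map_mul, act_x]
  exact Submodule.add_mem_sup (hJ.stab a j hj) (Ideal.mul_mem_left _ _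
    ((sgn_mem _ _ _).2 (Ideal.mem_span_singleton_self _)))

omit [Algebra κ K] [MulSemiringAction A K] in
theorem le_colon (J : Ideal (Pxy ι K)) (f : Pxy ι K) : J ≤ J.colon {f} := fun _ hg =>
  Submodule.mem_colon_singleton.2 (J.mul_mem_right _ hg)

theorem adm_colon (H : HfAPI) [Finite ι] {J : Ideal (Pxy ι K)} (hJ : S.Adm J) (k : ι) :
    S.Adm (J.colon {X (Sum.inl k)}) := by
  refine adm_of_le S H hJ (le_colon J _) (H.colon _ K _ J _ _ hJ.hom (x_hom k)) fun a f hf => ?_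
  rw [Submodule.mem_colon_singleton, smul_eq_mul] at hf ⊢
  have h := hJ.stab a _ hf
  rwa [map_mul, act_x, mul_smul_comm, sgn_mem] at h

theorem mem_T {J : Ideal (Pxy ι K)} (hJ : S.Adm J) {k : ι} (h : X (Sum.inl k) ∉ J) : k ∈ S.T := by
  by_contra hk
  exact h (hJ.out k hk)

theorem quad_sub {J : Ideal (Pxy ι K)} (hJ : S.Adm J) (N : Finset ι) (hN : N ⊆ S.T)
    (h : ∀ k ∉ N, X (Sum.inl k) ∈ J) : ∑ i ∈ N, X (Sum.inl i) ^ 2 ∈ J := by
  classical
  have h1 := hJ.quad
  rw [← Finset.sum_sdiff hN] at h1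
  refine (J.add_mem_iff_right (J.sum_mem fun k hk => ?_)).1 h1
  exact J.pow_mem_of_mem (h k (Finset.mem_sdiff.1 hk).2) 2 two_pos

theorem tri {J : Ideal (Pxy ι K)} (hJ : S.Adm J) :
    (∃ n : Ideal (Pxy ι K), (∀ k, X (Sum.inl k) ∈ n) ∧ n ^ 2 ≤ J) ∨
    (∃ i ∈ S.T, ∃ j ∈ S.T, i ≠ j ∧ ∀ k, k ≠ i → k ≠ j → X (Sum.inl k) ∈ J) ∨
    ∃ i j k, i ≠ j ∧ i ≠ k ∧ j ≠ k ∧ X (Sum.inl i) ∉ J ∧ X (Sum.inl j) ∉ J ∧ X (Sum.inl k) ∉ J := by
  by_cases h1 : ∃ i, X (Sum.inl i) ∉ J
  swap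
  · push Not at h1
    exact Or.inl ⟨J, h1, Ideal.pow_le_self two_ne_zero⟩
  obtain ⟨i, hi⟩ := h1
  by_cases h2 : ∃ j, j ≠ i ∧ X (Sum.inl j) ∉ J
  swap
  · push Not at h2
    refine Or.inl ⟨J ⊔ Ideal.span {X (Sum.inl i)}, fun k => ?_, ?_⟩
    · by_cases hk : k = i
      · exact hk ▸ Ideal.mem_sup_right (Ideal.mem_span_singleton_self _)
      · exact Ideal.mem_sup_left (h2 k hk)
    · have h3 := quad_sub S hJ {i} (by simpa using mem_T S hJ hi) (by simpa using h2)
      rw [Finset.sum_singleton] at h3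
      rw [pow_two]
      refine Ideal.mul_le.2 fun r hr s hs => ?_
      obtain ⟨j, hj, t, ht, rfl⟩ := Submodule.mem_sup.1 hr
      obtain ⟨a, rfl⟩ := Ideal.mem_span_singleton'.1 ht
      obtain ⟨j', hj', t, ht, rfl⟩ := Submodule.mem_sup.1 hs
      obtain ⟨a', rfl⟩ := Ideal.mem_span_singleton'.1 ht
      have e : (j + a * X (Sum.inl i)) * (j' + a' * X (Sum.inl i)) =
          j * (j' + a' * X (Sum.inl i)) + a * X (Sum.inl i) * j' + a * a' * X (Sum.inl i) ^ 2 := by
        ring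
      rw [e]
      exact J.add_mem (J.add_mem (J.mul_mem_right _ hj) (J.mul_mem_left _ hj'))
        (J.mul_mem_left _ h3)
  obtain ⟨j, hji, hj⟩ := h2
  by_cases h3 : ∃ k, k ≠ i ∧ k ≠ j ∧ X (Sum.inl k) ∉ J
  · obtain ⟨k, hki, hkj, hk⟩ := h3
    exact Or.inr (Or.inr ⟨i, j, k, hji.symm, hki.symm, hkj.symm, hi, hj, hk⟩)
  · push Not at h3
    exact Or.inr (Or.inl ⟨i, mem_T S hJ hi, j, mem_T S hJ hj, hji.symm, h3⟩)

theorem exists_ne {i j : ι} (hi : i ∈ S.T) (hj : j ∈ S.T) (h : i ≠ j) :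
    ∃ a, S.χ i a ≠ S.χ j a := by
  by_contra h1
  push Not at h1
  exact h (S.inj i hi j hj (MonoidHom.ext h1))

/-- Two surviving variables: two isotropic linear forms exchanged by the group. -/
theorem two_case {J : Ideal (Pxy ι K)} (hJ : S.Adm J)
    (him : ∀ a : A, a • algebraMap κ K S.im = algebraMap κ K S.im) {i j : ι} (hi : i ∈ S.T)
    (hj : j ∈ S.T) (hij : i ≠ j) (h : ∀ k, k ≠ i → k ≠ j → X (Sum.inl k) ∈ J) :
    ∃ (u v : Pxy ι K) (a : A), IsWeightedHomogeneous (bw ι) u (1, 0) ∧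
      IsWeightedHomogeneous (bw ι) v (1, 0) ∧ u * v ∈ J ∧
      (∀ k, X (Sum.inl k) ∈ J ⊔ Ideal.span {u} ⊔ Ideal.span {v}) ∧
      ∀ d, ann J u d = (ann J v d).comap (actB ι a) := by
  classical
  obtain ⟨a, ha⟩ := exists_ne S hi hj hij
  set c : K := algebraMap κ K S.im with hc
  have hc2 : (C c : Pxy ι K) ^ 2 = -1 := by
    rw [← map_pow, hc, ← map_pow, S.im_sq, map_neg, map_one, map_neg, map_one]
  have h2 : (C (2⁻¹ : K) : Pxy ι K) * 2 = 1 := by
    rw [← map_ofNat (C : K →+* Pxy ι K) 2, ← map_mul, inv_mul_cancel₀ (two_ne S), map_one]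
  refine ⟨X (Sum.inl i) + C c * X (Sum.inl j), X (Sum.inl i) - C c * X (Sum.inl j), a,
    (x_hom i).add ((x_hom j).C_mul c), (x_hom i).sub ((x_hom j).C_mul c), ?_, fun k => ?_,
    fun d => ?_⟩
  · have h3 := quad_sub S hJ {i, j} (by simp [Finset.insert_subset_iff, hi, hj])
      (by simpa using h)
    rw [Finset.sum_pair hij] at h3
    convert h3 using 1
    linear_combination (-X (Sum.inl j) ^ 2) * hc2
  · have hu : (X (Sum.inl i) + C c * X (Sum.inl j) : Pxy ι K) ∈ J ⊔ Ideal.span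
        {X (Sum.inl i) + C c * X (Sum.inl j)} ⊔ Ideal.span {X (Sum.inl i) - C c * X (Sum.inl j)} :=
      Ideal.mem_sup_left (Ideal.mem_sup_right (Ideal.mem_span_singleton_self _))
    have hv : (X (Sum.inl i) - C c * X (Sum.inl j) : Pxy ι K) ∈ J ⊔ Ideal.span
        {X (Sum.inl i) + C c * X (Sum.inl j)} ⊔ Ideal.span {X (Sum.inl i) - C c * X (Sum.inl j)} :=
      Ideal.mem_sup_right (Ideal.mem_span_singleton_self _)
    by_cases hki : k = i
    · convert Ideal.mul_mem_left _ (C (2⁻¹ : K)) (Ideal.add_mem _ hu hv) using 1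
      rw [hki]
      linear_combination (-X (Sum.inl i)) * h2
    by_cases hkj : k = j
    · convert Ideal.mul_mem_left _ (-C c * C (2⁻¹ : K)) (Ideal.sub_mem _ hu hv) using 1
      rw [hkj]
      linear_combination (C c ^ 2 * X (Sum.inl j)) * h2 + X (Sum.inl j) * hc2
    exact Ideal.mem_sup_left (Ideal.mem_sup_left (h k hki hkj))
  · ext b
    have e : S.act a (X (Sum.inl i) + C c * X (Sum.inl j) : Pxy ι K) =
        ((S.χ i a : ℤˣ) : ℤ) • (X (Sum.inl i) - C c * X (Sum.inl j)) := by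
      rw [map_add, map_mul, act_x, act_x, act_C, him, sgn_ne ha, Units.val_neg]
      simp only [zsmul_eq_mul, Int.cast_neg]
      ring
    rw [Ideal.mem_comap, mem_ann, mem_ann, ← act_mem_iff S hJ a, map_mul, map_pow, act_alg, e,
      smul_pow, mul_smul_comm, ← Units.val_pow_eq_pow_val, sgn_mem]

/-- An involution with two non-zero-divisors of opposite sign. -/
theorem even_of_inv (L : LenAPI) {J : Ideal (Pxy ι K)} (hJ : S.Adm J) (h : A)
    (hh : ∀ c : K, h • c = c) {i j : ι} (hij : S.χ i h ≠ S.χ j h)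
    (hi : J.colon {X (Sum.inl i)} = J) (hj : J.colon {X (Sum.inl j)} = J)
    (s : PrimeSpectrum (By ι K)) (d c : ℕ) (h1 : lenAt s (Md J d) = c)
    (h2 : lenAt s (Md J (d + 1)) = c) : Even c := by
  let τ : (Pxy ι K ⧸ J) →ₗ[By ι K] (Pxy ι K ⧸ J) :=
    { toFun := tau S J hJ.stab h
      map_add' := map_add _
      map_smul' := fun b z => by rw [map_smulₛₗ, actB_triv h hh, RingHom.id_apply] }
  have hτ : ∀ f, τ (Ideal.Quotient.mk J f) = Ideal.Quotient.mk J (S.act h f) :=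
    tau_mk S J hJ.stab h
  have hττ : ∀ z, τ (τ z) = z := fun z => by
    have e : (S.act (K := K) h).comp (S.act h) = RingHom.id _ := by
      refine MvPolynomial.ringHom_ext (fun c => ?_) ?_
      · simp only [RingHom.comp_apply, act_C, hh, RingHom.id_apply]
      · rintro (k | k)
        · simp only [RingHom.comp_apply, act_x, map_zsmul, smul_smul, RingHom.id_apply,
            ← Units.val_mul, Int.units_mul_self, Units.val_one, one_smul]
        · simp only [RingHom.comp_apply, act_y, RingHom.id_apply]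
    obtain ⟨f, rfl⟩ := Ideal.Quotient.mk_surjective z
    rw [hτ, hτ]
    exact congrArg _ (RingHom.congr_fun e f)
  have hmd : ∀ d, ∀ z ∈ Md J d, τ z ∈ Md J d := tau_md S J hJ.stab h
  let E : ℤˣ → ℕ → Submodule (By ι K) (Pxy ι K ⧸ J) := fun ε d =>
    Md J d ⊓ LinearMap.ker (τ - (ε : ℤ) • LinearMap.id)
  have hE : ∀ ε d z, z ∈ E ε d ↔ z ∈ Md J d ∧ τ z = (ε : ℤ) • z := fun ε d z => by
    simp only [E, Submodule.mem_inf, LinearMap.mem_ker, LinearMap.sub_apply, LinearMap.smul_apply,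
      LinearMap.id_apply, sub_eq_zero]
  have split : ∀ d, lenAt s (Md J d) = lenAt s (E 1 d) + lenAt s (E (-1) d) := fun d => by
    have hm : ∀ z ∈ Md J d, (LinearMap.id - τ : _ →ₗ[By ι K] _) z ∈ E (-1) d := fun z hz => by
      rw [hE, LinearMap.sub_apply, LinearMap.id_apply, map_sub, hττ]
      exact ⟨sub_mem hz (hmd d z hz), by simp⟩
    refine L.exact _ _ _ _ s (Submodule.inclusion inf_le_left)
      ((LinearMap.id - τ : _ →ₗ[By ι K] _).restrict hm) (Submodule.inclusion_injective _)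
      (fun w => ?_) fun z => ?_
    · obtain ⟨hw1, hw2⟩ := (hE _ _ _).1 w.2
      refine ⟨⟨(C (2⁻¹ : K) : By ι K) • w.1, Submodule.smul_mem _ _ hw1⟩, Subtype.ext ?_⟩
      have e : (C (2⁻¹ : K) : By ι K) + C (2⁻¹ : K) = 1 := by
        rw [← map_add, ← two_mul, mul_inv_cancel₀ (two_ne S), map_one]
      rw [LinearMap.coe_restrict_apply, map_smul, LinearMap.sub_apply, LinearMap.id_apply, hw2,
        Units.val_neg, Units.val_one, neg_smul, one_smul, sub_neg_eq_add, smul_add, ← add_smul, e,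
        one_smul]
    · rw [Subtype.ext_iff, LinearMap.coe_restrict_apply, LinearMap.sub_apply, LinearMap.id_apply,
        Submodule.coe_zero, sub_eq_zero]
      constructor
      · intro hz
        exact ⟨⟨z, (hE _ _ _).2 ⟨z.2, by simpa using hz.symm⟩⟩, rfl⟩
      · rintro ⟨w, rfl⟩
        simpa using ((hE _ _ _).1 w.2).2.symm
  have step : ∀ k, J.colon {X (Sum.inl k)} = J → ∀ ε,
      lenAt s (E ε d) ≤ lenAt s (E (S.χ k h * ε) (d + 1)) := fun k hk ε => by
    let m : (Pxy ι K ⧸ J) →ₗ[By ι K] (Pxy ι K ⧸ J) :=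
      { toFun := fun z => z * Ideal.Quotient.mk J (X (Sum.inl k))
        map_add' := fun x y => add_mul _ _ _
        map_smul' := fun b z => by
          obtain ⟨f, rfl⟩ := Ideal.Quotient.mk_surjective z
          rw [RingHom.id_apply, smul_mk, ← map_mul, ← map_mul, smul_mk, mul_assoc] }
    have hm : ∀ f, m (Ideal.Quotient.mk J f) = Ideal.Quotient.mk J (f * X (Sum.inl k)) :=
      fun f => (map_mul _ _ _).symm
    have hmE : ∀ z ∈ E ε d, m z ∈ E (S.χ k h * ε) (d + 1) := fun z hz => by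
      obtain ⟨⟨f, hf, rfl⟩, h4⟩ := (hE _ _ _).1 hz
      change τ (Ideal.Quotient.mk J f) = (ε : ℤ) • Ideal.Quotient.mk J f at h4
      change m (Ideal.Quotient.mk J f) ∈ _
      rw [hE, hm]
      refine ⟨⟨_, IsWeightedHomogeneous.mul hf (isWeightedHomogeneous_X K (xw ι) (Sum.inl k)),
        rfl⟩, ?_⟩
      rw [hτ] at h4
      rw [hτ, map_mul, act_x, map_mul, map_zsmul, h4, map_mul, Units.val_mul, smul_mul_smul_comm,
        mul_comm (ε : ℤ)]
    refine len_le L s (m.restrict hmE) ?_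
    rw [injective_iff_map_eq_zero]
    rintro ⟨z, hz⟩ h0
    obtain ⟨f, rfl⟩ := Ideal.Quotient.mk_surjective z
    have h5 : m (Ideal.Quotient.mk J f) = 0 := congrArg Subtype.val h0
    rw [hm, Ideal.Quotient.eq_zero_iff_mem, ← smul_eq_mul, ← Submodule.mem_colon_singleton,
      hk] at h5
    exact Subtype.ext (Ideal.Quotient.eq_zero_iff_mem.2 h5)
  have both : ∀ ε, lenAt s (E ε d) ≤ lenAt s (E 1 (d + 1)) ∧
      lenAt s (E ε d) ≤ lenAt s (E (-1) (d + 1)) := fun ε => by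
    have a1 := step i hi ε
    have a2 := step j hj ε
    rw [sgn_ne hij, neg_mul] at a2
    rcases Int.units_eq_one_or (S.χ i h * ε) with e | e
    · rw [e] at a1 a2
      exact ⟨a1, a2⟩
    · rw [e] at a1 a2
      rw [neg_neg] at a2
      exact ⟨a2, a1⟩
  rw [split] at h1 h2
  obtain ⟨b1, b2⟩ := both 1
  obtain ⟨b3, b4⟩ := both (-1)
  generalize lenAt s (E 1 d) = p at *
  generalize lenAt s (E (-1) d) = q at *
  generalize lenAt s (E 1 (d + 1)) = p' at *
  generalize lenAt s (E (-1) (d + 1)) = q' at *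
  have f1 := WithTop.add_ne_top.1 (h1 ▸ ENat.natCast_ne_top c : p + q ≠ ⊤)
  have f2 := WithTop.add_ne_top.1 (h2 ▸ ENat.natCast_ne_top c : p' + q' ≠ ⊤)
  lift p to ℕ using f1.1
  lift q to ℕ using f1.2
  lift p' to ℕ using f2.1
  lift q' to ℕ using f2.2
  norm_cast at h1 h2 b1 b2 b3 b4
  exact ⟨p, by omega⟩

theorem exists_pair (η : A →* ℤˣ) {i j k : ι} (hj : j ∈ S.T) (hk : k ∈ S.T) (hi : i ∈ S.T)
    (hij : i ≠ j) (hik : i ≠ k) (hjk : j ≠ k) :
    ∃ h, η h = 1 ∧ (S.χ i h ≠ S.χ j h ∨ S.χ i h ≠ S.χ k h) := by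
  by_contra h0
  push Not at h0
  obtain ⟨a, ha⟩ := exists_ne S hi hj hij
  obtain ⟨b, hb⟩ := exists_ne S hi hk hik
  obtain ⟨c, hc⟩ := exists_ne S hj hk hjk
  have ea : η a = -1 := by
    simpa using sgn_ne (ε := 1) (δ := η a) fun e => ha (h0 a e.symm).1
  have eb : η b = -1 := by
    simpa using sgn_ne (ε := 1) (δ := η b) fun e => hb (h0 b e.symm).2
  have ec : η c = -1 := by
    simpa using sgn_ne (ε := 1) (δ := η c) fun e =>
      hc ((h0 c e.symm).1.symm.trans (h0 c e.symm).2)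
  have h1 := (h0 (a * c) (by rw [map_mul, ea, ec]; simp)).1
  have h2 := (h0 (b * c) (by rw [map_mul, eb, ec]; simp)).2
  rw [map_mul, map_mul, sgn_ne ha, neg_mul, ← mul_neg, mul_right_inj] at h1
  rw [map_mul, map_mul, sgn_ne hb, neg_mul, ← mul_neg, mul_right_inj] at h2
  exact hc (neg_injective (h1.symm.trans h2))

theorem ev (L : LenAPI) (H : HfAPI) (Cy : CycAPI) [Finite ι] [SMulCommClass A κ K]
    (η : A →* ℤˣ) (J : Ideal (Pxy ι K)) (s : PrimeSpectrum (By ι K))
    (hη : ∀ a, η a = 1 → ∀ c : K, a • c = c) (hJ : S.Adm J)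
    (hs : ∀ a : A, s.comap (actB ι a) = s) : Even (cyc J s) := by
  induction J using IsNoetherian.induction with
  | hgt J ih =>
    by_cases hc : Crv s
    swap
    · rw [cyc_eq_zero Cy hJ.hom hJ.lin hc]
      exact Even.zero
    by_cases h0 : ∃ k, X (Sum.inl k) ∉ J ∧ J.colon {X (Sum.inl k)} ≠ J
    · obtain ⟨k, hk1, hk2⟩ := h0
      rw [Cy.add ι K J _ _ hJ.hom hJ.lin (x_hom k), Finsupp.add_apply]
      refine (ih _ (lt_of_le_of_ne le_sup_left fun e => hk1 ?_) (adm_sup S H hJ k)).add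
        (ih _ (lt_of_le_of_ne (le_colon J _) hk2.symm) (adm_colon S H hJ k))
      rw [e]
      exact Ideal.mem_sup_right (Ideal.mem_span_singleton_self _)
    push Not at h0
    have hev := (Cy.spec ι K J hJ.hom hJ.lin).1.2 s hc
    obtain ⟨D, hD⟩ := eventually_atTop.1 hev
    rcases tri S hJ with ⟨n, h1, h2⟩ | ⟨i, hi, j, hj, hij, h⟩ | ⟨i, j, k, hij, hik, hjk, hi, hj, hk⟩
    · rw [cyc_nil L Cy hJ.hom hJ.lin h1 h2]
      exact Even.zero
    · obtain ⟨u, v, a, hu, hv, huv, hx, hsw⟩ := two_case S hJ (fun a => by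
        rw [Algebra.algebraMap_eq_smul_one, smul_comm, smul_one]) hi hj hij h
      obtain ⟨D', hD'⟩ := ann_stab J v
      have h3 := len_two hJ.hom hu hv huv hx L H Cy (d := D + D')
        ((hD' _ (by omega)).symm.trans (hD' _ (by omega))) s
      have h4 := len_quot L (actB ι a) (actB_surj a) (ann J v (D + D' + 1)) s
      rw [hs, ← hsw] at h4
      rw [hD _ (by omega), h4] at h3
      generalize lenAt s (By ι K ⧸ ann J v (D + D' + 1)) = p at h3
      lift p to ℕ using (WithTop.add_ne_top.1 (h3 ▸ ENat.natCast_ne_top _ : p + p ≠ ⊤)).1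
      exact ⟨p, by exact_mod_cast h3⟩
    · obtain ⟨h, h1, h2 | h2⟩ :=
        exists_pair S η (mem_T S hJ hj) (mem_T S hJ hk) (mem_T S hJ hi) hij hik hjk
      · exact even_of_inv S L hJ h (hη h h1) h2 (h0 i hi) (h0 j hj) s D _ (hD _ le_rfl)
          (hD _ (Nat.le_succ _))
      · exact even_of_inv S L hJ h (hη h h1) h2 (h0 i hi) (h0 k hk) s D _ (hD _ le_rfl)
          (hD _ (Nat.le_succ _))

theorem notMem_sup {J : Ideal (Pxy ι K)} (hJ : S.Adm J) (hA : ∀ (a : A) (c : K), a • c = c)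
    {i j : ι} (hi : i ∈ S.T) (hij : i ≠ j) (hj : X (Sum.inl j) ∉ J) :
    X (Sum.inl j) ∉ J ⊔ Ideal.span {X (Sum.inl i)} := by
  classical
  intro h
  obtain ⟨f, hf, t, ht, e⟩ := Submodule.mem_sup.1 h
  obtain ⟨g, rfl⟩ := Ideal.mem_span_singleton'.1 ht
  obtain ⟨a, ha⟩ := exists_ne S hi (mem_T S hJ hj) hij
  have h1 : weightedHomogeneousComponent (bw ι) (1, 0) (g * X (Sum.inl i)) =
      C (coeff 0 g) * X (Sum.inl i) := by
    let _ := weightedGradedAlgebra K (bw ι)
    have h2 := DirectSum.coe_decompose_mul_add_of_right_mem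
      (weightedHomogeneousSubmodule K (bw ι)) (i := 0) (a := g) (x_hom (K := K) i)
    rw [zero_add] at h2
    rw [← weightedHomogeneousComponent_zero (w := bw ι) g (by rintro (k | k) <;> simp [bw]),
      ← weightedDecomposition.decompose'_apply, ← weightedDecomposition.decompose'_apply]
    exact h2
  have h3 := hJ.hom f hf (1, 0)
  rw [eq_sub_of_add_eq e, map_sub, h1, weightedHomogeneousComponent_eq_self (x_hom j)] at h3
  have h4 := hJ.stab a _ h3
  rw [map_sub, map_mul, act_x, act_x, act_C, hA, sgn_ne ha, mul_smul_comm, Units.val_neg,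
    neg_smul, ← smul_neg, ← smul_sub, sgn_mem] at h4
  have h5 := J.mul_mem_left (C (2⁻¹ : K)) (J.sub_mem h3 h4)
  have h2 : (C (2⁻¹ : K) : Pxy ι K) * 2 = 1 := by
    rw [← map_ofNat (C : K →+* Pxy ι K) 2, ← map_mul, inv_mul_cancel₀ (two_ne S), map_one]
  refine hj ?_
  convert h5 using 1
  linear_combination (-X (Sum.inl j)) * h2

omit [Algebra κ K] [MulSemiringAction A K] in
theorem hf_step (H : HfAPI) [Finite ι] {J : Ideal (Pxy ι K)} (hJ : IsHom (bw ι) J) {i : ι}
    (hi : X (Sum.inl i) ∉ J) :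
    hf (bw ι) (J ⊔ Ideal.span {X (Sum.inl i)}) (1, 0) + 1 ≤ hf (bw ι) J (1, 0) := by
  have h1 := H.add _ K _ J _ _ 0 (isW_bw ι) hJ (x_hom i)
  rw [zero_add] at h1
  have h2 : hf (bw ι) (J.colon {X (Sum.inl i)}) 0 ≠ 0 := fun h => hi (by
    simpa using Submodule.mem_colon_singleton.1
      ((H.zero _ K _ _ _ (isW_bw ι)).1 h 1 (isWeightedHomogeneous_one _ _)))
  omega

omit [Algebra κ K] [MulSemiringAction A K] in
theorem lin_of_le (H : HfAPI) [Finite ι] {J : Ideal (Pxy ι K)} (hJ : IsHom (bw ι) J)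
    (hl : Lin (bw ι) J) {I : Ideal (By ι K)}
    (h : J.comap (algebraMap (By ι K) (Pxy ι K)) ≤ I) : Lin (yw ι) I := by
  obtain ⟨C, hC⟩ := hl
  refine ⟨C, fun d n => ?_⟩
  cases d with
  | zero =>
    exact (H.mono _ K _ _ _ _ (isW_yw ι) h).trans (((H.contr ι K J hJ).2 n).trans_le (hC 0 n))
  | succ d => rw [H.ypos]; exact Nat.zero_le _

theorem uv (L : LenAPI) (H : HfAPI) (Cy : CycAPI) [Finite ι] (J : Ideal (Pxy ι K))
    (hA : ∀ (a : A) (c : K), a • c = c) (hJ : S.Adm J) (h2 : hf (bw ι) J (1, 0) ≤ 2) :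
    ∃ I : Ideal (By ι K), IsHom (yw ι) I ∧ J.comap (algebraMap (By ι K) (Pxy ι K)) ≤ I ∧
      cyc J = 2 • cycB I ∧ ∀ᶠ d in atTop, ∀ n, hf (bw ι) J (d, n) = 2 * hf (yw ι) I (0, n) := by
  have key : ∀ I : Ideal (By ι K), IsHom (yw ι) I →
      J.comap (algebraMap (By ι K) (Pxy ι K)) ≤ I →
      (∀ s, ∀ᶠ d in atTop, lenAt s (Md J d) = lenAt s (By ι K ⧸ I) + lenAt s (By ι K ⧸ I)) →
      cyc J = 2 • cycB I := fun I hI hle h => by
    have hB := (Cy.specB ι K I hI (lin_of_le H hJ.hom hJ.lin hle)).1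
    ext s
    rw [Finsupp.smul_apply, smul_eq_mul]
    by_cases hs : Crv s
    · obtain ⟨d, hd1, hd2⟩ := (((Cy.spec ι K J hJ.hom hJ.lin).1.2 s hs).and (h s)).exists
      rw [hd1, hB.2 s hs] at hd2
      rw [two_mul]
      exact_mod_cast hd2
    · have h3 : cycB I s = 0 := by
        by_contra h3
        exact hs (hB.1 s (Finsupp.mem_support_iff.2 h3))
      rw [cyc_eq_zero Cy hJ.hom hJ.lin hs, h3]
  rcases tri S hJ with ⟨n, h1, h3⟩ | ⟨i, hi, j, hj, hij, h⟩ | ⟨i, j, k, hij, hik, hjk, hi, hj, hk⟩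
  · refine ⟨⊤, fun _ _ _ => trivial, le_top, key ⊤ (fun _ _ _ => trivial) le_top fun s => ?_, ?_⟩
    · filter_upwards [eventually_ge_atTop 2] with d hd
      rw [len_md_zero L J s d (nil h1 h3 hd), len_zero L s fun m => Subsingleton.elim m 0, add_zero]
    · filter_upwards [eventually_ge_atTop 2] with d hd n
      rw [hf_zero H J d n (nil h1 h3 hd), (H.zero _ K _ ⊤ _ (isW_yw ι)).2 fun _ _ => trivial]
  · obtain ⟨u, v, a, hu, hv, huv, hx, hsw⟩ := two_case S hJ (fun a => hA a _) hi hj hij h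
    obtain ⟨D, hD⟩ := ann_stab J v
    have e : ∀ d, ann J u d = ann J v d := fun d => by
      ext b
      rw [hsw, Ideal.mem_comap, actB_triv a (hA a)]
    have hI := ann_hom hJ.hom hv H D
    have hle : J.comap (algebraMap (By ι K) (Pxy ι K)) ≤ ann J v D :=
      Ideal.comap_mono (le_colon J _)
    refine ⟨ann J v D, hI, hle, key _ hI hle fun s => ?_, ?_⟩
    · filter_upwards [eventually_ge_atTop (D + 1)] with d hd
      obtain ⟨d, rfl⟩ : ∃ d', d = d' + 1 := ⟨d - 1, by omega⟩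
      rw [len_two hJ.hom hu hv huv hx L H Cy ((hD _ (by omega)).symm.trans (hD _ (by omega))) s, e,
        ← hD _ (by omega)]
    · filter_upwards [eventually_ge_atTop (D + 1)] with d hd n
      obtain ⟨d, rfl⟩ : ∃ d', d = d' + 1 := ⟨d - 1, by omega⟩
      rw [hf_two hJ.hom hu hv huv hx H ((hD _ (by omega)).symm.trans (hD _ (by omega))) n, e,
        ← hD _ (by omega), two_mul]
  · have a1 := adm_sup S H hJ i
    have a2 := adm_sup S H a1 j
    have j1 := notMem_sup S hJ hA (mem_T S hJ hi) hij hj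
    have k1 := notMem_sup S hJ hA (mem_T S hJ hi) hik hk
    have k2 := notMem_sup S a1 hA (mem_T S hJ hj) hjk k1
    have s1 := hf_step H hJ.hom hi
    have s2 := hf_step H a1.hom j1
    have s3 := hf_step H a2.hom k2
    omega

end Ev

theorem evAPI (L : LenAPI) (H : HfAPI) (Cy : CycAPI) : EvAPI where
  ev := fun _ _ _ _ _ _ _ _ _ _ _ S η J s h1 h2 h3 => Ev.ev S L H Cy η J s h1 h2 h3
  sym := fun _ _ _ _ _ _ _ _ _ _ S J s a h => Ev.sym S L Cy J s a h
  uv := fun _ _ _ _ _ _ _ _ _ _ S J h1 h2 h3 => Ev.uv S L H Cy J h1 h2 h3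

end Pool.Agent.MP_d45d16_ag.Yag

end MrgPart3

-- marker of a merged file
example : 731051 + 38109 = 731051 + 38109 := rfl
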