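import Mathlib.Tactic.Monotonicity.Lemmas
import Mathlib.RingTheory.Flat.TorsionFree
import Mathlib.RingTheory.PicardGroup
import Mathlib.Algebra.QuadraticAlgebra.Basic
import Mathlib.RingTheory.Polynomial.IsIntegral
import Mathlib.RingTheory.Polynomial.DegreeLT
import Mathlib.FieldTheory.RatFunc.IntermediateField
import Mathlib.FieldTheory.Relrank
import Mathlib.LinearAlgebra.LinearIndependent.BaseChange
import Pool.Agent.MP_d45d16_ag.yag.AmbRes

-- ======== part 0: formerly Pool.Agent.MP_d45d16_ag.yag.Fr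
section MrgPart0

/-!
Quadratic extensions and null vectors of a frame.
-/

set_option autoImplicit false

open MvPolynomial

namespace Pool.Agent.MP_d45d16_ag.Yag

theorem exists_quad {F : Type} [Field F] (δ : F) (h : ¬ IsSquare δ) :
    ∃ (L : Type) (_ : Field L) (_ : Algebra F L) (r : L), FiniteDimensional F L ∧
      Quad (algebraMap F L) δ r ∧ ∀ (k : Type) [Field k] (σ : F →+* k) (s : k), s ^ 2 = σ δ →
        ∃ τ : L →+* k, τ.comp (algebraMap F L) = σ ∧ τ r = s := by
  have : Fact (∀ r : F, r ^ 2 ≠ δ + 0 * r) := ⟨fun r hr => h ⟨r, by rw [← sq, hr]; simp⟩⟩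
  refine ⟨QuadraticAlgebra F δ 0, inferInstance, inferInstance, QuadraticAlgebra.omega,
    inferInstance, ⟨?_, fun z => ⟨z.re, z.im, ?_⟩, ?_⟩, fun k _ σ s hs => ?_⟩
  · ext <;> simp [sq]
  · ext <;> simp
  · rintro ⟨x, hx⟩
    simpa using congrArg QuadraticAlgebra.im hx
  · let := σ.toAlgebra
    have hs' : s * s = δ • (1 : k) + (0 : F) • s := by
      rw [← sq, hs, zero_smul, add_zero, Algebra.smul_def, mul_one]; rfl
    refine ⟨(QuadraticAlgebra.lift ⟨s, hs'⟩).toRingHom, ?_, ?_⟩
    · exact (QuadraticAlgebra.lift ⟨s, hs'⟩).comp_algebraMap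
    · simp

theorem Quad.not_isSquare {F L : Type} [Field F] [CharZero F] [Field L] {ρ : F →+* L} {δ ε : F}
    {r : L} (h : Quad ρ δ r) (h1 : ¬ IsSquare ε) (h2 : ¬ IsSquare (δ * ε)) :
    ¬ IsSquare (ρ ε) := by
  rintro ⟨z, hz⟩
  obtain ⟨x, y, rfl⟩ := h.gen z
  have h3 : ρ (2 * x * y) * r = ρ (ε - x ^ 2 - y ^ 2 * δ) := by
    simp only [map_sub, map_mul, map_pow, map_ofNat, ← h.sq, hz]; ring
  have h4 : 2 * x * y = 0 := by
    by_contra h5
    refine h.ne ⟨(ε - x ^ 2 - y ^ 2 * δ) / (2 * x * y), ?_⟩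
    rw [map_div₀, ← h3, mul_div_cancel_left₀ _ ((map_ne_zero ρ).mpr h5)]
  rw [h4, map_zero, zero_mul, eq_comm, map_eq_zero] at h3
  rcases mul_eq_zero.mp h4 with h5 | h5
  · have hx : x = 0 := by simpa using h5
    exact h2 ⟨y * δ, by rw [hx] at h3; linear_combination δ * h3⟩
  · exact h1 ⟨x, by rw [h5] at h3; linear_combination h3⟩

namespace Frame

variable {F ι L : Type} [Field F] {I : Set (MvPolynomial ι F)} (f : Frame I)

/-- A combination of the frame vectors. -/
def comb [CommRing L] (ρ : F →+* L) (w : Fin 7 → L) : ι → L := fun i => ∑ k, w k * ρ (f.f k i)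

theorem n₁_eq [CommRing L] (ρ : F →+* L) (r : L) :
    f.n₁ ρ r = f.comb ρ ![0, r, 1, 0, 0, 0, 0] := by
  ext i; simp [n₁, comb, Fin.sum_univ_seven, add_comm]

theorem n₂_eq [CommRing L] (ρ : F →+* L) (r : L) :
    f.n₂ ρ r = f.comb ρ ![0, 0, 0, r, 1, 0, 0] := by
  ext i; simp [n₂, comb, Fin.sum_univ_seven, add_comm]

theorem comb_eq_zero [Field L] [Finite ι] (ρ : F →+* L) {w : Fin 7 → L} (h : f.comb ρ w = 0) :
    w = 0 := by
  let := ρ.toAlgebra
  have h1 := (linearIndependent_algebraMap_comp_iff (S := L)).mpr f.indep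
  rw [Fintype.linearIndependent_iff] at h1
  funext k
  refine h1 w ?_ k
  rw [← h]
  ext i
  simp [comb, Finset.sum_apply, RingHom.algebraMap_toAlgebra]

theorem indep_comb [Field L] [Finite ι] (ρ : F →+* L) {n : ℕ} {w : Fin n → Fin 7 → L}
    (h : LinearIndependent L w) : LinearIndependent L fun l => f.comb ρ (w l) := by
  rw [Fintype.linearIndependent_iff] at h ⊢
  intro c hc
  refine h c (f.comb_eq_zero ρ ?_)
  rw [← hc]
  ext i
  simp only [comb, Finset.sum_apply, Pi.smul_apply, smul_eq_mul, Finset.sum_mul, Finset.mul_sum]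
  rw [Finset.sum_comm]
  simp [mul_assoc]

theorem sat_comb [CommRing L] (ρ : F →+* L) {w : Fin 7 → L} (h : ∑ k, ρ (f.α k) * w k ^ 2 = 0) :
    Sat I ρ (f.comb ρ w) := f.sat L ρ w h

theorem n₁_ne [Field L] [Finite ι] (ρ : F →+* L) (r : L) : f.n₁ ρ r ≠ 0 := fun h => by
  rw [n₁_eq] at h
  simpa using congrFun (f.comb_eq_zero ρ h) 2

theorem n₂_ne [Field L] [Finite ι] (ρ : F →+* L) (r : L) : f.n₂ ρ r ≠ 0 := fun h => by
  rw [n₂_eq] at h
  simpa using congrFun (f.comb_eq_zero ρ h) 4

theorem indep_n [Field L] [Finite ι] (ρ : F →+* L) (r r' : L) :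
    LinearIndependent L ![f.n₁ ρ r, f.n₂ ρ r'] := by
  have h : LinearIndependent L
      ![(![0, r, 1, 0, 0, 0, 0] : Fin 7 → L), ![0, 0, 0, r', 1, 0, 0]] := by
    rw [LinearIndependent.pair_iff]
    intro a b h
    exact ⟨by simpa using congrFun h 2, by simpa using congrFun h 4⟩
  have h2 := f.indep_comb ρ h
  rw [n₁_eq, n₂_eq]
  refine (congrArg (fun v : Fin 2 → ι → L => LinearIndependent L v) ?_).mp h2
  ext l : 1
  fin_cases l <;> rfl

theorem sat_n [CommRing L] (ρ : F →+* L) {r r' : L} (h : r ^ 2 = ρ (-f.α 0))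
    (h' : r' ^ 2 = ρ (-f.α 0)) (C : Type) [CommRing C] (τ : L →+* C) (w : Fin 2 → C) :
    Sat I (τ.comp ρ) fun i => ∑ l, w l * τ (![f.n₁ ρ r, f.n₂ ρ r'] l i) := by
  have h1 := f.sat_comb (τ.comp ρ) (w := ![0, w 0 * τ r, w 0, w 1 * τ r', w 1, 0, 0]) (by
    have h2 := congrArg τ h
    have h3 := congrArg τ h'
    simp only [map_pow, map_neg] at h2 h3
    simp only [Fin.sum_univ_seven, f.two, f.four, map_mul, RingHom.comp_apply]
    simp only [Matrix.cons_val]
    linear_combination (τ (ρ (f.α 1)) * w 0 ^ 2) * h2 + (τ (ρ (f.α 3)) * w 1 ^ 2) * h3)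
  refine (congrArg _ ?_).mp h1
  ext i
  simp [comb, n₁, n₂, Fin.sum_univ_seven]
  ring

theorem sat_n₁ [CommRing L] (ρ : F →+* L) {r : L} (h : r ^ 2 = ρ (-f.α 0)) :
    Sat I ρ (f.n₁ ρ r) := by
  simpa using f.sat_n ρ h h L (RingHom.id L) ![1, 0]

theorem sat_n₂ [CommRing L] (ρ : F →+* L) {r : L} (h : r ^ 2 = ρ (-f.α 0)) :
    Sat I ρ (f.n₂ ρ r) := by
  simpa using f.sat_n ρ h h L (RingHom.id L) ![0, 1]

theorem comp_n₁ [CommRing L] {C : Type} [CommRing C] (ρ : F →+* L) (r : L) (τ : L →+* C) :
    τ ∘ f.n₁ ρ r = f.n₁ (τ.comp ρ) (τ r) := by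
  ext i; simp [n₁]

theorem comp_n₂ [CommRing L] {C : Type} [CommRing C] (ρ : F →+* L) (r : L) (τ : L →+* C) :
    τ ∘ f.n₂ ρ r = f.n₂ (τ.comp ρ) (τ r) := by
  ext i; simp [n₂]

theorem indep_three [Field L] [Finite ι] (ρ : F →+* L) :
    LinearIndependent L fun (l : Fin 3) i => ρ (f.f (l.castLE (by norm_num)) i) := by
  let := ρ.toAlgebra
  exact ((linearIndependent_algebraMap_comp_iff (S := L)).mpr f.indep).comp _
    (Fin.castLE_injective (by norm_num : 3 ≤ 7))

theorem sat_three [CommRing L] (ρ : F →+* L) (w : Fin 3 → L)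
    (h : ∑ l : Fin 3, ρ (f.α (l.castLE (by norm_num))) * w l ^ 2 = 0) :
    Sat I ρ fun i => ∑ l : Fin 3, w l * ρ (f.f (l.castLE (by norm_num)) i) := by
  have h1 := f.sat_comb ρ (w := ![w 0, w 1, w 2, 0, 0, 0, 0]) (by
    simpa [Fin.sum_univ_seven, Fin.sum_univ_three] using h)
  refine (congrArg _ ?_).mp h1
  ext i
  simp [comb, Fin.sum_univ_seven, Fin.sum_univ_three]

end Frame

end Pool.Agent.MP_d45d16_ag.Yag

end MrgPart0

-- ======== part 1: formerly Pool.Agent.MP_d45d16_ag.yag.Line1
section MrgPart1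

/-!
The projective line over a finite extension `E` of `F`, with polynomial charts.
-/

set_option autoImplicit false

open AlgebraicGeometry CategoryTheory Limits Polynomial

namespace Pool.Agent.MP_d45d16_ag.Yag.Line

theorem std_poly (E : Type) [CommRing E] :
    Algebra.IsStandardSmoothOfRelativeDimension 1 E E[X] := by
  classical
  let v : Empty → MvPolynomial Unit E := fun x => x.elim
  let P := Algebra.PreSubmersivePresentation.naive (v := v) (fun x : Empty => x.elim)
    (fun x => x.elim)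
  let Q : Algebra.SubmersivePresentation E
      (MvPolynomial Unit E ⧸ Ideal.span (Set.range v)) Unit Empty :=
    { P with
      jacobian_isUnit := by
        rw [Algebra.PreSubmersivePresentation.jacobian_eq_jacobiMatrix_det]
        simp }
  have h : Algebra.IsStandardSmoothOfRelativeDimension 1 E
      (MvPolynomial Unit E ⧸ Ideal.span (Set.range v)) :=
    Q.isStandardSmoothOfRelativeDimension (by simp [Algebra.Presentation.dimension])
  have hb : Ideal.span (Set.range v) = ⊥ := by simp
  exact Algebra.IsStandardSmoothOfRelativeDimension.of_algEquiv 1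
    (((Ideal.quotientEquivAlgOfEq E hb).trans (AlgEquiv.quotientBot E _)).trans
      (MvPolynomial.uniqueAlgEquiv E Unit))

theorem smooth_poly (E : Type) [CommRing E] :
    SmoothOfRelativeDimension 1 (Spec.map (CommRingCat.ofHom (algebraMap E E[X]))) := by
  rw [HasRingHomProperty.Spec_iff (P := @SmoothOfRelativeDimension 1)]
  refine RingHom.locally_of RingHom.isStandardSmoothOfRelativeDimension_respectsIso _ ?_
  have := std_poly E
  exact (RingHom.isStandardSmoothOfRelativeDimension_algebraMap 1).mpr this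

/-- The two coordinates. -/
noncomputable def xx (E : Type) [Field E] : Fin 2 → RatFunc E := ![RatFunc.X, RatFunc.X⁻¹]

theorem xx_trans (E : Type) [Field E] (j : Fin 2) : Transcendental E (xx E j) := by
  have h : Transcendental E (RatFunc.X : RatFunc E) := RatFunc.transcendental_X
  fin_cases j
  · exact h
  · intro h'
    exact h (by simpa [xx] using h'.inv)

theorem xx_ne (E : Type) [Field E] (j : Fin 2) : xx E j ≠ 0 := by
  fin_cases j <;> simp [xx, RatFunc.X_ne_zero]

theorem comp_aux {E K : Type} [Field E] [Field K] [Algebra E K] (y : K) (hy : y ≠ 0) (c : K)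
    (hc : c ∈ Algebra.adjoin E {y}) : ∃ N : ℕ, y⁻¹ ^ N * c ∈ Algebra.adjoin E {y⁻¹} := by
  have h1 : y⁻¹ ∈ Algebra.adjoin E {y⁻¹} := Algebra.self_mem_adjoin_singleton E _
  induction hc using Algebra.adjoin_induction with
  | mem x hx =>
    obtain rfl : x = y := hx
    exact ⟨1, by rw [pow_one, inv_mul_cancel₀ hy]; exact one_mem _⟩
  | algebraMap r => exact ⟨0, by simp⟩
  | add x z _ _ hx hz =>
    obtain ⟨n, hn⟩ := hx
    obtain ⟨m, hm⟩ := hz
    refine ⟨n + m, ?_⟩
    have : y⁻¹ ^ (n + m) * (x + z) = y⁻¹ ^ m * (y⁻¹ ^ n * x) + y⁻¹ ^ n * (y⁻¹ ^ m * z) := by ring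
    rw [this]
    exact add_mem (mul_mem (pow_mem h1 _) hn) (mul_mem (pow_mem h1 _) hm)
  | mul x z _ _ hx hz =>
    obtain ⟨n, hn⟩ := hx
    obtain ⟨m, hm⟩ := hz
    refine ⟨n + m, ?_⟩
    have : y⁻¹ ^ (n + m) * (x * z) = (y⁻¹ ^ n * x) * (y⁻¹ ^ m * z) := by ring
    rw [this]
    exact mul_mem hn hm

variable (F E : Type) [Field F] [Field E] [Algebra F E]

theorem frac0 (x : RatFunc E) : ∃ a ∈ Algebra.adjoin E {(RatFunc.X : RatFunc E)},
    ∃ b ∈ Algebra.adjoin E {(RatFunc.X : RatFunc E)}, b ≠ 0 ∧ x * b = a := by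
  have hm : ∀ p : E[X], algebraMap E[X] (RatFunc E) p ∈
      Algebra.adjoin E {(RatFunc.X : RatFunc E)} := fun p => by
    rw [Algebra.adjoin_singleton_eq_range_aeval]
    exact ⟨p, by simp [RatFunc.aeval_X_left_eq_algebraMap]⟩
  refine ⟨_, hm x.num, _, hm x.denom, ?_, ?_⟩
  · simpa using x.denom_ne_zero
  · have h := RatFunc.num_div_denom x
    have h2 : algebraMap E[X] (RatFunc E) x.denom ≠ 0 := by simpa using x.denom_ne_zero
    rw [div_eq_iff h2] at h
    exact h.symm

/-- The charts of the projective line over `E`, as a variety over `F`. -/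
noncomputable def charts [FiniteDimensional F E] :
    MP_fd6584_ag.Pj.Charts F (RatFunc E) (Fin 2) where
  B j := (Algebra.adjoin E {xx E j}).restrictScalars F
  f := ![1, RatFunc.X]
  f_ne j := by fin_cases j <;> simp [RatFunc.X_ne_zero]
  ratio i j := by
    rw [Subalgebra.mem_restrictScalars]
    fin_cases i <;> fin_cases j
    · simp
    · simp [xx]
    · simp [xx]
    · simp [RatFunc.X_ne_zero]
  comp i j c hc := by
    simp only [Subalgebra.mem_restrictScalars] at hc ⊢
    fin_cases i <;> fin_cases j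
    · exact ⟨0, by simpa using hc⟩
    · simpa [xx] using comp_aux _ RatFunc.X_ne_zero c hc
    · simpa [xx] using comp_aux _ (inv_ne_zero RatFunc.X_ne_zero) c hc
    · exact ⟨0, by simpa using hc⟩
  fg j := by
    have h1 : Algebra.FiniteType E (Algebra.adjoin E {xx E j}) :=
      Algebra.FiniteType.adjoin_of_finite (Set.finite_singleton _)
    have h2 : Algebra.FiniteType F (Algebra.adjoin E {xx E j}) :=
      Algebra.FiniteType.trans (S := E) inferInstance h1
    exact (Subalgebra.fg_iff_finiteType _).mpr h2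
  proper O hO := by
    have hE : ∀ c : E, algebraMap E (RatFunc E) c ∈ O := fun c => by
      obtain ⟨p, hp, hp0⟩ := (Algebra.IsIntegral.isIntegral (R := F) c)
      let φ : F →+* O := (algebraMap F (RatFunc E)).codRestrict O.toSubring hO
      have hi : IsIntegral O (algebraMap E (RatFunc E) c) := by
        refine ⟨p.map φ, hp.map φ, ?_⟩
        rw [eval₂_map]
        have : (algebraMap O (RatFunc E)).comp φ =
            (algebraMap E (RatFunc E)).comp (algebraMap F E) :=
          RingHom.ext fun a => IsScalarTower.algebraMap_apply F E (RatFunc E) a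
        rw [this, ← hom_eval₂, hp0, map_zero]
      obtain ⟨y, hy⟩ := IsIntegrallyClosed.isIntegral_iff.mp hi
      rw [← hy]
      exact y.2
    let O' : Subalgebra E (RatFunc E) := { O.toSubring with algebraMap_mem' := hE }
    have key : ∀ j, xx E j ∈ O → ∀ c ∈ Algebra.adjoin E {xx E j}, c ∈ O := fun j hj c hc =>
      (Algebra.adjoin_le (S := O') (Set.singleton_subset_iff.mpr hj)) hc
    rcases O.mem_or_inv_mem RatFunc.X with h | h
    · exact ⟨0, key 0 h⟩
    · exact ⟨1, key 1 h⟩
  frac j x := by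
    simp only [Subalgebra.mem_restrictScalars]
    obtain ⟨a, ha, b, hb, hb0, h⟩ := frac0 E x
    fin_cases j
    · exact ⟨a, ha, b, hb, hb0, h⟩
    · obtain ⟨n, hn⟩ := comp_aux _ RatFunc.X_ne_zero a ha
      obtain ⟨m, hm⟩ := comp_aux _ RatFunc.X_ne_zero b hb
      have h1 : (RatFunc.X : RatFunc E)⁻¹ ∈ Algebra.adjoin E {(RatFunc.X : RatFunc E)⁻¹} :=
        Algebra.self_mem_adjoin_singleton E _
      refine ⟨_, mul_mem (pow_mem h1 m) hn, _, mul_mem (pow_mem h1 n) hm, ?_, ?_⟩
      · have := inv_ne_zero (RatFunc.X_ne_zero (K := E))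
        exact mul_ne_zero (pow_ne_zero _ this) (mul_ne_zero (pow_ne_zero _ this) hb0)
      · rw [← h]; ring

/-- The projective line over `E` with its two polynomial charts. -/
structure P1 (Y : Scheme.{0}) (t : Y ⟶ Spec (CommRingCat.of E))
    (ch : Fin 2 → (Spec (CommRingCat.of E[X]) ⟶ Y)) : Prop where
  proj : IsProj (t ≫ Spec.map (CommRingCat.ofHom (algebraMap F E)))
  integral : IsIntegral Y
  openImm : ∀ j, IsOpenImmersion (ch j)
  cover : ∀ x, ∃ j p, ch j p = x
  ch_t : ∀ j, ch j ≫ t = Spec.map (CommRingCat.ofHom (algebraMap E E[X]))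
  gen : ∀ j, Spec.map (CommRingCat.ofHom (aeval (xx E j) : E[X] →ₐ[E] RatFunc E).toRingHom) ≫
    ch j = Spec.map (CommRingCat.ofHom (aeval (xx E 0) : E[X] →ₐ[E] RatFunc E).toRingHom) ≫ ch 0
  glue : ∀ (Z : Scheme.{0}) (g : Fin 2 → (Spec (CommRingCat.of E[X]) ⟶ Z))
    (γ : Spec (CommRingCat.of (RatFunc E)) ⟶ Z), Z.IsSeparated →
    (∀ j, Spec.map (CommRingCat.ofHom (aeval (xx E j) : E[X] →ₐ[E] RatFunc E).toRingHom) ≫
      g j = γ) → ∃ G : Y ⟶ Z, ∀ j, ch j ≫ G = g j

theorem exists_P1 (hP : ProjAPI) [FiniteDimensional F E] : ∃ Y t ch, P1 F E Y t ch := by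
  obtain ⟨M⟩ := MP_fd6584_ag.Pj.exists_model (charts F E)
  let e : ∀ j, E[X] ≃+* (charts F E).B j := fun j =>
    (Polynomial.algEquivOfTranscendental E (xx E j) (xx_trans E j)).toRingEquiv
  have he : ∀ j p, ((e j p : (charts F E).B j) : RatFunc E) = aeval (xx E j) p := fun j p => by
    change ((Polynomial.algEquivOfTranscendental E (xx E j) (xx_trans E j) p : _) : RatFunc E) = _
    simp
  let ch : Fin 2 → (Spec (CommRingCat.of E[X]) ⟶ M.X) := fun j =>
    Spec.map (CommRingCat.ofHom (e j).symm.toRingHom) ≫ M.ch j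
  have hiso : ∀ j, IsIso (Spec.map (CommRingCat.ofHom (e j).symm.toRingHom)) := fun j =>
    isIso_SpecMap_iff.mpr (e j).symm.bijective
  have h1 : ∀ j, Spec.map (CommRingCat.ofHom
      (aeval (xx E j) : E[X] →ₐ[E] RatFunc E).toRingHom) ≫
      Spec.map (CommRingCat.ofHom (e j).symm.toRingHom) =
      Spec.map (CommRingCat.ofHom ((charts F E).B j).val.toRingHom) := fun j => by
    rw [← Spec.map_comp]
    congr 1
    refine CommRingCat.hom_ext (RingHom.ext fun c => ?_)
    obtain ⟨p, rfl⟩ := (e j).surjective c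
    simpa using (he j p).symm
  have h2 : ∀ j, Spec.map (CommRingCat.ofHom (e j).symm.toRingHom) ≫
      Spec.map (CommRingCat.ofHom (e j).toRingHom) = 𝟙 _ := fun j => by
    rw [← Spec.map_comp, ← Spec.map_id]
    congr 1
    exact CommRingCat.hom_ext (RingHom.ext fun c => by simp)
  have h3 : ∀ j, Spec.map (CommRingCat.ofHom ((charts F E).B j).val.toRingHom) ≫
      Spec.map (CommRingCat.ofHom (e j).toRingHom) = Spec.map (CommRingCat.ofHom
      (aeval (xx E j) : E[X] →ₐ[E] RatFunc E).toRingHom) := fun j => by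
    rw [← h1, Category.assoc, h2, Category.comp_id]
  have glue : ∀ (Z : Scheme.{0}) (g : Fin 2 → (Spec (CommRingCat.of E[X]) ⟶ Z))
      (γ : Spec (CommRingCat.of (RatFunc E)) ⟶ Z), Z.IsSeparated →
      (∀ j, Spec.map (CommRingCat.ofHom (aeval (xx E j) : E[X] →ₐ[E] RatFunc E).toRingHom) ≫
        g j = γ) → ∃ G : M.X ⟶ Z, ∀ j, ch j ≫ G = g j := by
    intro Z g γ hZ hg
    obtain ⟨G, hG⟩ := hP.glue F (RatFunc E) (Fin 2) (charts F E) M Z
      (fun j => Spec.map (CommRingCat.ofHom (e j).toRingHom) ≫ g j) γ hZ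
      (fun j => by rw [← Category.assoc, h3, hg])
    exact ⟨G, fun j => by
      simp only [ch]
      rw [Category.assoc, hG, ← Category.assoc, h2, Category.id_comp]⟩
  obtain ⟨t, ht⟩ := glue (Spec (CommRingCat.of E))
    (fun _ => Spec.map (CommRingCat.ofHom (algebraMap E E[X])))
    (Spec.map (CommRingCat.ofHom (algebraMap E (RatFunc E)))) inferInstance (fun j => by
      rw [← Spec.map_comp]
      congr 1
      exact CommRingCat.hom_ext (aeval (xx E j) : E[X] →ₐ[E] RatFunc E).comp_algebraMap)
  have hop : ∀ j, IsOpenImmersion (ch j) := fun j => by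
    have := hiso j
    have := M.openImm j
    infer_instance
  have hcov : ∀ x, ∃ j p, ch j p = x := fun x => by
    obtain ⟨j, p, rfl⟩ := M.cover x
    refine ⟨j, Spec.map (CommRingCat.ofHom (e j).toRingHom) p, ?_⟩
    simp only [ch]
    rw [← Scheme.Hom.comp_apply, ← Category.assoc]
    have : Spec.map (CommRingCat.ofHom (e j).toRingHom) ≫
        Spec.map (CommRingCat.ofHom (e j).symm.toRingHom) = 𝟙 _ := by
      rw [← Spec.map_comp, ← Spec.map_id]
      congr 1
      exact CommRingCat.hom_ext (RingHom.ext fun c => by simp)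
    rw [this, Category.id_comp]
  have hs : t ≫ Spec.map (CommRingCat.ofHom (algebraMap F E)) = M.s := by
    refine (Scheme.Cover.mkOfCovers (P := @IsOpenImmersion) (Fin 2)
      (fun _ => Spec (CommRingCat.of E[X])) ch hcov hop).hom_ext _ _ fun j => ?_
    change ch j ≫ _ = ch j ≫ _
    rw [← Category.assoc, ht]
    simp only [ch]
    rw [Category.assoc, M.ch_s, ← Spec.map_comp, ← Spec.map_comp]
    congr 1
    refine CommRingCat.hom_ext (RingHom.ext fun c => ?_)
    change algebraMap E E[X] (algebraMap F E c) = (e j).symm (algebraMap F _ c)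
    rw [RingEquiv.eq_symm_apply]
    refine Subtype.ext ?_
    rw [he, AlgHom.commutes]
    exact (IsScalarTower.algebraMap_apply F E (RatFunc E) c).symm
  refine ⟨M.X, t, ch, ?_, M.integral, hop, hcov, ht, fun j => ?_, glue⟩
  · rw [hs]
    exact hP.model F _ _ M.proj
  · simp only [ch]
    rw [← Category.assoc, ← Category.assoc, h1, h1]
    exact M.gen j 0

end Pool.Agent.MP_d45d16_ag.Yag.Line

end MrgPart1

-- ======== part 2: formerly Pool.Agent.MP_d45d16_ag.yag.Line
section MrgPart2

/-!
A line defined over a finite extension.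
-/

set_option autoImplicit false

open AlgebraicGeometry CategoryTheory Limits Polynomial

namespace Pool.Agent.MP_d45d16_ag.Yag.Line

theorem pt_congr {R C σ : Type} [CommRing R] [CommRing C] {c c' : R →+* C} {w w' : σ → C}
    (h : Ideal.span (Set.range w) = ⊤) (h' : Ideal.span (Set.range w') = ⊤) (hc : c = c')
    (hw : w = w') : pt c w h = pt c' w' h' := by
  subst hc hw
  rfl

theorem span_map {C D σ : Type} [CommRing C] [CommRing D] (φ : C →+* D) {w : σ → C}
    (h : Ideal.span (Set.range w) = ⊤) : Ideal.span (Set.range (φ ∘ w)) = ⊤ := by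
  rw [Set.range_comp, ← Ideal.map_span, h, Ideal.map_top]

theorem span_ne {E σ : Type} [Field E] {a : σ → E} (h : a ≠ 0) :
    Ideal.span (Set.range a) = ⊤ := by
  obtain ⟨i, hi⟩ := Function.ne_iff.mp h
  exact Ideal.eq_top_of_isUnit_mem _ (Ideal.subset_span ⟨i, rfl⟩) (Ne.isUnit hi)

theorem coef_mem {E C ι : Type} [Field E] [CommRing C] [Algebra E C] [Finite ι] {n : ℕ}
    {e : Fin n → ι → E} (he : LinearIndependent E e) (c : Fin n → C) (l : Fin n) :
    c l ∈ Ideal.span (Set.range fun i => ∑ m, c m * algebraMap E C (e m i)) := by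
  classical
  have := Fintype.ofFinite ι
  obtain ⟨g, hg⟩ := LinearMap.exists_extend ((Finsupp.lapply l).comp he.repr)
  have h1 : ∀ m, g (e m) = if m = l then 1 else 0 := fun m => by
    have h2 := LinearMap.congr_fun hg ⟨e m, Submodule.subset_span ⟨m, rfl⟩⟩
    rw [LinearMap.comp_apply, LinearMap.comp_apply, he.repr_eq_single m _ rfl] at h2
    simpa [Finsupp.single_apply] using h2
  have h3 : c l = ∑ i, algebraMap E C (g fun j => if i = j then 1 else 0) *
      ∑ m, c m * algebraMap E C (e m i) := by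
    have h4 : c l = ∑ m, c m * algebraMap E C (g (e m)) := by
      simp [h1, apply_ite (algebraMap E C)]
    rw [h4]
    simp_rw [Finset.mul_sum]
    rw [Finset.sum_comm]
    refine Finset.sum_congr rfl fun m _ => ?_
    rw [LinearMap.pi_apply_eq_sum_univ g (e m), map_sum, Finset.mul_sum]
    refine Finset.sum_congr rfl fun i _ => ?_
    rw [smul_eq_mul, map_mul]
    ring
  rw [h3]
  exact Ideal.sum_mem _ fun i _ => Ideal.mul_mem_left _ _ (Ideal.subset_span ⟨i, rfl⟩)

variable {F E : Type} [Field F] [Field E] [Algebra F E]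

theorem beta_inj (k : Type) [Field k] [Algebra E k] (j : Fin 2) :
    Function.Injective (Algebra.TensorProduct.lift (Algebra.ofId k (RatFunc k))
      (aeval (xx k j) : E[X] →ₐ[E] RatFunc k) fun _ _ => Commute.all _ _) := by
  have h : (Algebra.TensorProduct.lift (Algebra.ofId k (RatFunc k))
      (aeval (xx k j) : E[X] →ₐ[E] RatFunc k) fun _ _ => Commute.all _ _).comp
      (polyEquivTensor' E k).toAlgHom = aeval (xx k j) := by
    refine Polynomial.algHom_ext ?_
    simp [polyEquivTensor_apply]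
  have h2 := transcendental_iff_injective.mp (xx_trans k j)
  rw [← h] at h2
  exact (Function.Injective.of_comp_iff' _ (polyEquivTensor' E k).bijective).mp h2

theorem exists_psi (k : Type) [Field k] [Algebra E k] : ∃ ψ : RatFunc E →+* RatFunc k,
    ∀ j, ψ.comp (aeval (xx E j) : E[X] →ₐ[E] RatFunc E).toRingHom =
      (aeval (xx k j) : E[X] →ₐ[E] RatFunc k).toRingHom := by
  have hinj : Function.Injective (aeval (xx k 0) : E[X] →ₐ[E] RatFunc k).toRingHom :=
    transcendental_iff_injective.mp ((xx_trans k 0).restrictScalars (algebraMap E k).injective)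
  let ψ : RatFunc E →+* RatFunc k := IsFractionRing.lift hinj
  have h1 : ∀ p : E[X], ψ (algebraMap E[X] (RatFunc E) p) = aeval (xx k 0) p := fun p =>
    IsFractionRing.lift_algebraMap hinj p
  have h2 : ψ RatFunc.X = RatFunc.X := by simpa [xx] using h1 X
  have h3 : ∀ c : E, ψ (algebraMap E (RatFunc E) c) = algebraMap E (RatFunc k) c := fun c => by
    simpa using h1 (C c)
  refine ⟨ψ, fun j => Polynomial.ringHom_ext (fun c => ?_) ?_⟩
  · simpa using h3 c
  · fin_cases j <;> simp [xx, h2]

theorem P1.bc (hB : BcAPI) {Y : Scheme.{0}} {t : Y ⟶ Spec (CommRingCat.of E)}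
    {ch : Fin 2 → (Spec (CommRingCat.of E[X]) ⟶ Y)} (h : P1 F E Y t ch) (k : Type) [Field k]
    [Algebra E k] {Y' : Scheme.{0}} {t' : Y' ⟶ Spec (CommRingCat.of k)} {p : Y' ⟶ Y}
    (hp : IsPullback p t' t (Spec.map (CommRingCat.ofHom (algebraMap E k)))) :
    IsIntegral Y' ∧ ∃ j : Spec (CommRingCat.of (RatFunc k)) ⟶ Y', IsGen j ∧
      j ≫ p = Spec.map (CommRingCat.ofHom (aeval (xx k 0) : E[X] →ₐ[E] RatFunc k).toRingHom) ≫
        ch 0 ∧ j ≫ t' = Spec.map (CommRingCat.ofHom (algebraMap k (RatFunc k))) := by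
  obtain ⟨ψ, hψ⟩ := exists_psi (E := E) k
  refine hB.gen k E (RatFunc k) (Fin 2) (fun _ => E[X]) Y Y' t t' p ch
    (fun j => aeval (xx k j)) _ 0 hp h.openImm h.cover h.ch_t (fun j => ?_) (beta_inj k) ?_
  · rw [← hψ j, ← hψ 0, CommRingCat.ofHom_comp, CommRingCat.ofHom_comp, Spec.map_comp,
      Spec.map_comp, Category.assoc, Category.assoc, h.gen]
  · rw [eq_top_iff, ← RatFunc.adjoin_X]
    exact IntermediateField.adjoin.mono _ _ _
      (Set.singleton_subset_iff.mpr ⟨X, by simp [xx]⟩)

/-- The coefficients of the parametrisation in the two charts. -/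
noncomputable def cf (E : Type) [Field E] : Fin 2 → Fin 2 → E[X] := ![![1, X], ![X, 1]]

end Line

open Line in
theorem line_stmt (hPt : PtAPI) (hP : ProjAPI) (hB : BcAPI) : LineStmt := by
  intro F E ι _ _ _ _ _ _ M a e ha hsa he hse
  obtain ⟨Y, t, ch, h⟩ := exists_P1 F E hP
  have hint := h.integral
  have ha' := span_ne ha
  let w : Fin 2 → ι → E[X] := fun j i => ∑ l, cf E j l * algebraMap E E[X] (e l i)
  have hw : ∀ j, Ideal.span (Set.range (w j)) = ⊤ := fun j => by
    have h1 := coef_mem he (cf E j) j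
    have h2 : cf E j j = 1 := by fin_cases j <;> rfl
    rw [h2] at h1
    exact (Ideal.eq_top_iff_one _).mpr h1
  let c : F →+* E[X] := (algebraMap E E[X]).comp (algebraMap F E)
  let β : Fin 2 → (E[X] →+* RatFunc E) := fun j =>
    (aeval (xx E j) : E[X] →ₐ[E] RatFunc E).toRingHom
  have hβ : ∀ j, (β j).comp c = (algebraMap E (RatFunc E)).comp (algebraMap F E) := fun j =>
    RingHom.ext fun x => (aeval (xx E j) : E[X] →ₐ[E] RatFunc E).commutes _
  obtain ⟨v, hv⟩ := h.glue (PP F ι) (fun j => pt c (w j) (hw j))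
    (pt ((β 0).comp c) (β 0 ∘ w 0) (span_map _ (hw 0))) (hPt.sep F ι) (fun j => by
      rw [hPt.nat _ _ _ _ _ _ _ _ (span_map (β j) (hw j))]
      fin_cases j
      · rfl
      · refine (pt_congr _ (span_map (β 1) (hw 1)) ((hβ 1).trans (hβ 0).symm) rfl).trans
          (hPt.scale _ _ _ _ _ _ _ _ (RatFunc.X)⁻¹ fun i => ?_)
        have hX := RatFunc.X_ne_zero (K := E)
        simp only [β, w, cf, xx, Fin.sum_univ_two, Function.comp]
        simp
        field_simp)
  let s : Y ⟶ Spec (CommRingCat.of F) := t ≫ Spec.map (CommRingCat.ofHom (algebraMap F E))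
  let u : Y ⟶ PP F ι := t ≫ pt (algebraMap F E) a ha'
  have hext : ∀ {Z : Scheme.{0}} (g g' : Y ⟶ Z), (∀ j, ch j ≫ g = ch j ≫ g') → g = g' :=
    fun g g' hg => (Scheme.Cover.mkOfCovers (P := @IsOpenImmersion) (Fin 2)
      (fun _ => Spec (CommRingCat.of E[X])) ch h.cover h.openImm).hom_ext _ _ hg
  have hid : Spec.map (CommRingCat.ofHom (algebraMap F F)) = 𝟙 _ := Spec.map_id _
  have hgeo : Geo M.I₁ M.I₂ (s ≫ Spec.map (CommRingCat.ofHom (algebraMap F F))) u v := by
    rw [hid, Category.comp_id]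
    refine ⟨?_, hext _ _ fun j => ?_, fun y => ?_, fun y => ?_⟩
    · simp only [u, s]
      rw [Category.assoc, hPt.str]
    · simp only [s]
      rw [← Category.assoc, hv, hPt.str, ← Category.assoc, h.ch_t, ← Spec.map_comp]
      rfl
    · simp only [u]
      rw [Scheme.Hom.comp_apply]
      refine (hPt.mem _ _ _ _ _ _ _ _ M.hom₁).mpr fun f hf => ?_
      rw [hsa f hf]
      exact zero_mem _
    · obtain ⟨j, p, rfl⟩ := h.cover y
      rw [← Scheme.Hom.comp_apply, hv]
      refine (hPt.mem _ _ _ _ _ _ _ _ M.hom₂).mpr fun f hf => ?_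
      rw [hse E[X] (cf E j) f hf]
      exact zero_mem _
  obtain ⟨g, hgs, hgu, hgv⟩ := M.lift Y s u v inferInstance hgeo
  have hsm : SmoothOfRelativeDimension 1 t := by
    refine IsZariskiLocalAtSource.of_openCover (P := @SmoothOfRelativeDimension 1)
      (Scheme.Cover.mkOfCovers (P := @IsOpenImmersion) (Fin 2)
      (fun _ => Spec (CommRingCat.of E[X])) ch h.cover h.openImm) fun j => ?_
    change SmoothOfRelativeDimension 1 (ch j ≫ t)
    rw [h.ch_t]
    exact smooth_poly E
  have hpr := M.proper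
  let G : Curve M.s :=
    { Y := Y
      f := g
      smooth := by
        rw [hgs]
        have := hP.etale F E
        exact inferInstanceAs (SmoothOfRelativeDimension (1 + 0) (t ≫ _))
      proj := hP.of_comp _ _ _ g M.s (by rw [hgs]; exact h.proj) inferInstance }
  have key : ∀ (k : Type) [Field k] [Algebra E k],
      Coord M.u M.v (Spec.map (CommRingCat.ofHom
        (aeval (xx k 0) : E[X] →ₐ[E] RatFunc k).toRingHom) ≫ ch 0 ≫ g)
        ((algebraMap k (RatFunc k)).comp ((algebraMap E k).comp (algebraMap F E)))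
        (vec ![algebraMap E k ∘ a] ![1])
        (vec ![algebraMap E k ∘ e 0, algebraMap E k ∘ e 1] ![1, RatFunc.X]) := by
    intro k _ _
    let φ : E[X] →+* RatFunc k := (aeval (xx k 0) : E[X] →ₐ[E] RatFunc k).toRingHom
    have hφ : φ.comp (algebraMap E E[X]) = (algebraMap k (RatFunc k)).comp (algebraMap E k) :=
      RingHom.ext fun x => ((aeval (xx k 0) : E[X] →ₐ[E] RatFunc k).commutes x).trans
        (IsScalarTower.algebraMap_apply E k (RatFunc k) x)
    have e1 : (φ.comp (algebraMap E E[X])) ∘ a = vec ![algebraMap E k ∘ a] ![1] := by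
      rw [hφ]
      funext i
      simp [vec]
    have e2 : φ ∘ w 0 = vec ![algebraMap E k ∘ e 0, algebraMap E k ∘ e 1] ![1, RatFunc.X] := by
      funext i
      have h1 := fun x => RingHom.congr_fun hφ x
      simp only [RingHom.comp_apply] at h1
      have h2 : φ X = RatFunc.X := by simp [φ, xx]
      simp only [vec, w, Function.comp, Fin.sum_univ_two, map_add, map_mul, h1, cf]
      simp [h2]
    refine ⟨e1 ▸ span_map _ ha', e2 ▸ span_map _ (hw 0), ?_, ?_⟩
    · rw [Category.assoc, Category.assoc, hgu]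
      simp only [u]
      rw [← Category.assoc (ch 0), h.ch_t, ← Spec.map_comp_assoc, ← CommRingCat.ofHom_comp,
        hPt.nat _ _ _ _ _ _ _ _ (span_map _ ha')]
      exact pt_congr _ _ (by rw [hφ]; rfl) e1
    · rw [Category.assoc, Category.assoc, hgv, hv, hPt.nat _ _ _ _ _ _ _ _ (span_map _ (hw 0))]
      refine pt_congr _ _ ?_ e2
      change (φ.comp (algebraMap E E[X])).comp _ = _
      rw [hφ]
      rfl
  refine ⟨G, t, hgs.symm, hsm, ?_, ?_⟩
  · obtain ⟨-, j, hj, hjp, hjt⟩ := h.bc hB E (p := 𝟙 Y) (t' := t)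
      (by
        have : Spec.map (CommRingCat.ofHom (algebraMap E E)) = 𝟙 _ := Spec.map_id _
        rw [this]
        exact IsPullback.id_horiz t)
    rw [Category.comp_id] at hjp
    refine ⟨j ≫ g, ⟨hint, j, hj, rfl⟩, ?_, ?_⟩
    · rw [Category.assoc, hgs]
      simp only [s]
      rw [← Category.assoc, hjt, ← Spec.map_comp]
      rfl
    · have h1 := key E
      rw [← Category.assoc, ← hjp] at h1
      have e1 : e = ![algebraMap E E ∘ e 0, algebraMap E E ∘ e 1] := by
        funext l
        fin_cases l <;> rfl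
      rw [e1]
      exact h1
  · intro k _ _ N q σ C' hN hσ hC
    obtain ⟨p, hp, hpq⟩ := hC
    let := σ.toAlgebra
    obtain ⟨hi, j, hj, hjp, hjt⟩ := h.bc hB k hp
    refine ⟨C', j ≫ C'.f, ⟨hi, j, hj, rfl⟩, ⟨by rw [Category.assoc, hjt], ?_⟩, rfl⟩
    obtain ⟨h1, h2, h3, h4⟩ := key k
    have h5 : (j ≫ C'.f) ≫ q = Spec.map (CommRingCat.ofHom
        (aeval (xx k 0) : E[X] →ₐ[E] RatFunc k).toRingHom) ≫ ch 0 ≫ g := by
      rw [Category.assoc, hpq, ← Category.assoc, hjp, Category.assoc]
    refine ⟨h1, h2, ?_, ?_⟩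
    · rw [hN.hu, ← Category.assoc, h5, h3, ← hσ]
      rfl
    · rw [hN.hv, ← Category.assoc, h5, h4, ← hσ]
      rfl

end Pool.Agent.MP_d45d16_ag.Yag

end MrgPart2

-- ======== part 3: formerly Pool.Agent.MP_d45d16_ag.yag.Evg
section MrgPart3

/-!
The values of the invariant on the conic, on the line and on contracted curves.
-/

set_option autoImplicit false

open MvPolynomial Filter

namespace Pool.Agent.MP_d45d16_ag.Yag

namespace Evg

section Tr

variable {F L E : Type} [Field F] [Field L] [Field E] [Algebra F L] [Algebra L E] [Algebra F E]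
  [IsScalarTower F L E]

theorem trdeg_le [Algebra.IsAlgebraic F L] (x y : E) (h : IntermediateField.adjoin L {x, y} = ⊤)
    (hy : IsAlgebraic (IntermediateField.adjoin L {x}) y) : Algebra.trdeg F E ≤ 1 := by
  have h1 : Algebra.IsAlgebraic (IntermediateField.adjoin L {x}) E := by
    rw [← algebraicClosure.eq_top_iff, eq_top_iff]
    intro z _
    have h2 : IntermediateField.adjoin L {x, y} ≤
        (algebraicClosure (IntermediateField.adjoin L {x}) E).restrictScalars L := by
      rw [IntermediateField.adjoin_le_iff]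
      rintro w (rfl | rfl)
      · exact (algebraicClosure (IntermediateField.adjoin L {w}) E).algebraMap_mem
          ⟨w, IntermediateField.mem_adjoin_simple_self L w⟩
      · exact mem_algebraicClosure_iff.2 hy
    exact h2 (h ▸ IntermediateField.mem_top)
  have h3 := IntermediateField.isAlgebraic_adjoin_iff_top.1 h1
  rw [← trdeg_add_eq F L, trdeg_eq_zero, zero_add]
  simpa using Algebra.IsAlgebraic.trdeg_le_cardinalMk L ({x} : Set E)

theorem quad_finrank {δ : F} {r : L} (h : Quad (algebraMap F L) δ r) :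
    Module.finrank F L = 2 := by
  have h1 : LinearIndependent F ![(1 : L), r] := by
    rw [LinearIndependent.pair_iff]
    intro a b hab
    have hb : b = 0 := by
      by_contra hb
      refine h.ne ⟨-a / b, ?_⟩
      rw [Algebra.smul_def, Algebra.smul_def, mul_one] at hab
      rw [map_div₀, div_eq_iff ((map_ne_zero _).2 hb), map_neg]
      linear_combination -hab
    rw [hb, zero_smul, add_zero, smul_eq_zero] at hab
    exact ⟨hab.resolve_right one_ne_zero, hb⟩
  have h2 : ⊤ ≤ Submodule.span F (Set.range ![(1 : L), r]) := by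
    intro z _
    obtain ⟨a, b, rfl⟩ := h.gen z
    rw [← Algebra.smul_def, Algebra.algebraMap_eq_smul_one]
    exact add_mem (Submodule.smul_mem _ _ (Submodule.subset_span ⟨0, rfl⟩))
      (Submodule.smul_mem _ _ (Submodule.subset_span ⟨1, rfl⟩))
  simpa using Module.finrank_eq_card_basis (Module.Basis.mk h1 h2)

theorem mul_eq (A B : Submodule F E) (hA : ∀ z, z ∈ A ↔ z ∈ Set.range (algebraMap L E)) :
    A * B = (Submodule.span L (B : Set E)).restrictScalars F := by
  apply le_antisymm
  · rw [Submodule.mul_le]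
    intro a ha b hb
    obtain ⟨l, rfl⟩ := (hA a).1 ha
    rw [Submodule.restrictScalars_mem, ← Algebra.smul_def]
    exact Submodule.smul_mem _ _ (Submodule.subset_span hb)
  · intro z hz
    rw [Submodule.restrictScalars_mem] at hz
    induction hz using Submodule.span_induction with
    | mem b hb =>
      rw [← one_mul b]
      exact Submodule.mul_mem_mul ((hA 1).2 ⟨1, map_one _⟩) hb
    | zero => exact zero_mem _
    | add a b _ _ ha hb => exact add_mem ha hb
    | smul l z _ hz =>
      refine Submodule.mul_induction_on hz (fun a ha b hb => ?_) fun a b ha hb => ?_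
      · obtain ⟨l', rfl⟩ := (hA a).1 ha
        rw [Algebra.smul_def, ← mul_assoc, ← map_mul]
        exact Submodule.mul_mem_mul ((hA _).2 ⟨_, rfl⟩) hb
      · rw [smul_add]
        exact add_mem ha hb

theorem pow_succ_eq (A : Submodule F E) (hA : ∀ z, z ∈ A ↔ z ∈ Set.range (algebraMap L E))
    (d : ℕ) : A ^ (d + 1) = A := by
  induction d with
  | zero => rw [zero_add, pow_one]
  | succ d ih =>
    rw [pow_succ, ih]
    apply le_antisymm
    · rw [Submodule.mul_le]
      intro a ha b hb
      obtain ⟨l, rfl⟩ := (hA a).1 ha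
      obtain ⟨l', rfl⟩ := (hA b).1 hb
      exact (hA _).2 ⟨l * l', map_mul _ _ _⟩
    · intro a ha
      rw [← one_mul a]
      exact Submodule.mul_mem_mul ((hA 1).2 ⟨1, map_one _⟩) ha

theorem finrank_restrict (W : Submodule L E) :
    Module.finrank F (W.restrictScalars F) = Module.finrank F L * Module.finrank L W :=
  (Module.finrank_mul_finrank F L W).symm

theorem finrank_range (A : Submodule F E) (hA : ∀ z, z ∈ A ↔ z ∈ Set.range (algebraMap L E)) :
    Module.finrank F A = Module.finrank F L := by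
  have h : A = LinearMap.range (IsScalarTower.toAlgHom F L E).toLinearMap := by
    ext z
    rw [hA]
    rfl
  rw [h]
  exact LinearMap.finrank_range_of_inj (algebraMap L E).injective

end Tr

section Span

variable {F E ι : Type} [Field F] [Field E] [Algebra F E]

theorem span_comb [Finite ι] {I : Set (MvPolynomial ι F)} (f : Frame I) (w : Fin 7 → E) :
    Submodule.span F (Set.range (f.comb (algebraMap F E) w)) = Submodule.span F (Set.range w) := by
  classical
  have := Fintype.ofFinite ι
  apply le_antisymm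
  · rw [Submodule.span_le]
    rintro _ ⟨i, rfl⟩
    refine Submodule.sum_mem _ fun k _ => ?_
    rw [mul_comm, ← Algebra.smul_def]
    exact Submodule.smul_mem _ _ (Submodule.subset_span ⟨k, rfl⟩)
  · rw [Submodule.span_le]
    rintro _ ⟨l, rfl⟩
    obtain ⟨G, hG⟩ := (Fintype.linearCombination F f.f).exists_leftInverse_of_injective
      (LinearMap.ker_eq_bot.2 (linearIndependent_iff_injective_fintypeLinearCombination.1 f.indep))
    have h1 : ∀ k, ∑ i, f.f k i * G (fun j => if i = j then 1 else 0) l =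
        if k = l then 1 else 0 := by
      intro k
      have h2 := congrFun (LinearMap.congr_fun hG (Pi.single k 1)) l
      rw [LinearMap.comp_apply, Fintype.linearCombination_apply_single, one_smul,
        LinearMap.pi_apply_eq_sum_univ, Finset.sum_apply] at h2
      simpa [Pi.single_apply, eq_comm] using h2
    have h3 : w l = ∑ i, G (fun j => if i = j then 1 else 0) l • f.comb (algebraMap F E) w i := by
      simp only [Frame.comb, Finset.smul_sum]
      rw [Finset.sum_comm]
      have h4 : ∀ k, ∑ i, G (fun j => if i = j then 1 else 0) l • (w k * algebraMap F E (f.f k i)) =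
          if k = l then w k else 0 := by
        intro k
        have h5 := congrArg (fun t => w k * algebraMap F E t) (h1 k)
        simp only [map_sum, map_mul, Finset.mul_sum] at h5
        rw [apply_ite (algebraMap F E), map_one, map_zero, mul_ite, mul_one, mul_zero] at h5
        rw [← h5]
        refine Finset.sum_congr rfl fun i _ => ?_
        rw [Algebra.smul_def]
        ring
      simp [h4]
    rw [SetLike.mem_coe, h3]
    exact Submodule.sum_mem _ fun i _ => Submodule.smul_mem _ _ (Submodule.subset_span ⟨i, rfl⟩)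

theorem div_mem (K : Subfield E) (hK : ∀ c, algebraMap F E c ∈ K) (a : ι → E)
    (ha : ∀ i k, a i / a k ∈ K) {s t : E} (hs : s ∈ Submodule.span F (Set.range a))
    (ht : t ∈ Submodule.span F (Set.range a)) : s / t ∈ K := by
  have h1 : ∀ k, ∀ z ∈ Submodule.span F (Set.range a), z / a k ∈ K := by
    intro k z hz
    induction hz using Submodule.span_induction with
    | mem b hb =>
      obtain ⟨i, rfl⟩ := hb
      exact ha i k
    | zero => simp
    | add a b _ _ ha hb => rw [add_div]; exact add_mem ha hb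
    | smul c z _ hz => rw [Algebra.smul_def, mul_div_assoc]; exact mul_mem (hK c) hz
  by_cases h : ∃ k, a k ≠ 0
  · obtain ⟨k, hk⟩ := h
    rw [← div_div_div_cancel_right₀ hk]
    exact K.div_mem (h1 k s hs) (h1 k t ht)
  · have h2 : Submodule.span F (Set.range a) = ⊥ := by
      rw [Submodule.span_eq_bot]
      rintro _ ⟨k, rfl⟩
      by_contra hk
      exact h ⟨k, hk⟩
    rw [h2, Submodule.mem_bot] at hs
    simp [hs]

theorem mul_mem_span {τ : Type} (w : τ → E) (z : E)
    (h : ∀ k, z * w k ∈ Submodule.span F (Set.range w)) :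
    ∀ a ∈ Submodule.span F (Set.range w), z * a ∈ Submodule.span F (Set.range w) := by
  intro a ha
  induction ha using Submodule.span_induction with
  | mem b hb =>
    obtain ⟨k, rfl⟩ := hb
    exact h k
  | zero => simp
  | add a b _ _ ha hb => rw [mul_add]; exact add_mem ha hb
  | smul c b _ hb => rw [mul_smul_comm]; exact Submodule.smul_mem _ _ hb

theorem mul_mem_mul (B C : Submodule F E) (z : E) (h : ∀ b ∈ B, z * b ∈ B) :
    ∀ w ∈ B * C, z * w ∈ B * C := by
  intro w hw
  refine Submodule.mul_induction_on hw (fun a ha b hb => ?_) fun a b ha hb => ?_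
  · rw [← mul_assoc]
    exact Submodule.mul_mem_mul (h a ha) hb
  · rw [mul_add]
    exact add_mem ha hb

theorem span_n₁ [Finite ι] {L : Type} [Field L] [Algebra F L] [Algebra L E] [IsScalarTower F L E]
    {I : Set (MvPolynomial ι F)} (f : Frame I) {δ : F} {r : L} (h : Quad (algebraMap F L) δ r)
    (z : E) : z ∈ Submodule.span F (Set.range (f.n₁ (algebraMap F E) (algebraMap L E r))) ↔
      z ∈ Set.range (algebraMap L E) := by
  rw [Frame.n₁_eq, span_comb]
  constructor
  · intro hz
    have h1 : Submodule.span F (Set.range ![0, algebraMap L E r, 1, 0, 0, 0, 0]) ≤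
        LinearMap.range (IsScalarTower.toAlgHom F L E).toLinearMap := by
      rw [Submodule.span_le]
      rintro _ ⟨k, rfl⟩
      fin_cases k
      exacts [zero_mem _, ⟨r, rfl⟩, ⟨1, map_one (algebraMap L E)⟩, zero_mem _, zero_mem _,
        zero_mem _, zero_mem _]
    exact h1 hz
  · rintro ⟨l, rfl⟩
    obtain ⟨a, b, rfl⟩ := h.gen l
    rw [map_add, map_mul, ← IsScalarTower.algebraMap_apply, ← IsScalarTower.algebraMap_apply,
      ← Algebra.smul_def, Algebra.algebraMap_eq_smul_one a]
    exact add_mem (Submodule.smul_mem _ _ (Submodule.subset_span ⟨2, rfl⟩))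
      (Submodule.smul_mem _ _ (Submodule.subset_span ⟨1, rfl⟩))

end Span

section Conic

open Polynomial

variable {L E : Type} [Field L] [Field E] [Algebra L E]

/-- The map `(p, q) ↦ p(x) + q(x) y`. -/
noncomputable def pq (x y : E) (n : ℕ) : (degreeLT L (n + 1) × degreeLT L n) →ₗ[L] E :=
  ((Polynomial.aeval x).toLinearMap ∘ₗ (degreeLT L (n + 1)).subtype).coprod
    (LinearMap.mulRight L y ∘ₗ (Polynomial.aeval x).toLinearMap ∘ₗ (degreeLT L n).subtype)

theorem mem_pq {x y : E} {n : ℕ} {z : E} : z ∈ LinearMap.range (pq (L := L) x y n) ↔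
    ∃ p ∈ degreeLT L (n + 1), ∃ q ∈ degreeLT L n,
      Polynomial.aeval x p + Polynomial.aeval x q * y = z := by
  constructor
  · rintro ⟨⟨p, q⟩, rfl⟩
    exact ⟨p, p.2, q, q.2, rfl⟩
  · rintro ⟨p, hp, q, hq, rfl⟩
    exact ⟨⟨⟨p, hp⟩, ⟨q, hq⟩⟩, rfl⟩

theorem mul_X_mem {k : ℕ} {p : L[X]} (hp : p ∈ degreeLT L k) :
    p * Polynomial.X ∈ degreeLT L (k + 1) := by
  rw [mem_degreeLT] at hp ⊢
  rw [degree_mul_X, Nat.cast_succ]
  exact WithBot.add_lt_add_right (by simp) hp

theorem aeval_mem (V : Submodule L E) {x : E} (h1 : (1 : E) ∈ V) (hx : x ∈ V) {k : ℕ} {p : L[X]}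
    (hp : p ∈ degreeLT L (k + 1)) : Polynomial.aeval x p ∈ V ^ k := by
  rw [degreeLT_succ_eq_degreeLE, mem_degreeLE, ← natDegree_le_iff_degree_le] at hp
  rw [Polynomial.aeval_eq_sum_range' (Nat.lt_succ_of_le hp)]
  refine Submodule.sum_mem _ fun i hi => Submodule.smul_mem _ _ ?_
  obtain ⟨j, rfl⟩ := Nat.exists_eq_add_of_le (Nat.le_of_lt_succ (Finset.mem_range.1 hi))
  rw [pow_add, ← mul_one (x ^ i), ← one_pow j]
  exact Submodule.mul_mem_mul (Submodule.pow_mem_pow _ hx _) (Submodule.pow_mem_pow _ h1 _)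

theorem pow_eq_range {x y : E} {a b : L}
    (h : y ^ 2 = algebraMap L E a + algebraMap L E b * x ^ 2) (n : ℕ) :
    Submodule.span L {1, x, y} ^ n = LinearMap.range (pq (L := L) x y n) := by
  apply le_antisymm
  · induction n with
    | zero =>
      rw [pow_zero, Submodule.one_le, mem_pq]
      exact ⟨1, by simp [mem_degreeLT], 0, zero_mem _, by simp⟩
    | succ n ih =>
      rw [pow_succ, Submodule.mul_le]
      intro z hz v hv
      obtain ⟨p, hp, q, hq, rfl⟩ := mem_pq.1 (ih hz)
      have h2 : Submodule.span L {1, x, y} ≤ (LinearMap.range (pq (L := L) x y (n + 1))).comap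
          (LinearMap.mulLeft L (Polynomial.aeval x p + Polynomial.aeval x q * y)) := by
        rw [Submodule.span_le]
        rintro w (rfl | rfl | rfl)
        · exact mem_pq.2 ⟨p, degreeLT_mono (Nat.le_succ _) hp, q, degreeLT_mono (Nat.le_succ _) hq,
            by simp⟩
        · exact mem_pq.2 ⟨_, mul_X_mem hp, _, mul_X_mem hq, by simp; ring⟩
        · refine mem_pq.2 ⟨a • q + b • (q * Polynomial.X * Polynomial.X),
            add_mem (Submodule.smul_mem _ _ (degreeLT_mono (by omega) hq))
              (Submodule.smul_mem _ _ (mul_X_mem (mul_X_mem hq))), p, hp, ?_⟩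
          simp only [map_add, map_mul, Polynomial.aeval_X, Algebra.smul_def, AlgHom.commutes,
            LinearMap.mulLeft_apply]
          linear_combination -(Polynomial.aeval x q) * h
      exact h2 hv
  · intro z hz
    obtain ⟨p, hp, q, hq, rfl⟩ := mem_pq.1 hz
    have h1 : (1 : E) ∈ Submodule.span L {1, x, y} := Submodule.subset_span (by simp)
    have hx : x ∈ Submodule.span L {1, x, y} := Submodule.subset_span (by simp)
    have hy : y ∈ Submodule.span L {1, x, y} := Submodule.subset_span (by simp)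
    refine add_mem (aeval_mem _ h1 hx hp) ?_
    cases n with
    | zero =>
      have : q = 0 := by simpa [mem_degreeLT] using hq
      simp [this]
    | succ n =>
      rw [pow_succ]
      exact Submodule.mul_mem_mul (aeval_mem _ h1 hx hq) hy

theorem pq_inj [CharZero L] {x y : E} {a b : L} (ha : a ≠ 0) (hb : b ≠ 0)
    (h : y ^ 2 = algebraMap L E a + algebraMap L E b * x ^ 2) (hx : Transcendental L x) (n : ℕ) :
    Function.Injective (pq (L := L) x y n) := by
  have hinj := transcendental_iff_injective.1 hx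
  rw [injective_iff_map_eq_zero]
  rintro ⟨⟨p, hp⟩, ⟨q, hq⟩⟩ h0
  change Polynomial.aeval x p + Polynomial.aeval x q * y = 0 at h0
  have h1 : p ^ 2 = q ^ 2 * (Polynomial.C a + Polynomial.C b * Polynomial.X ^ 2) := by
    apply hinj
    simp only [map_add, map_mul, map_pow, Polynomial.aeval_C, Polynomial.aeval_X, ← h]
    linear_combination (Polynomial.aeval x p - Polynomial.aeval x q * y) * h0
  have hq0 : q = 0 := by
    by_contra hq0
    obtain ⟨s, rfl⟩ := (IsIntegrallyClosed.pow_dvd_pow_iff two_ne_zero).1 (Dvd.intro _ h1.symm)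
    rw [mul_pow] at h1
    have h2 := mul_left_cancel₀ (pow_ne_zero 2 hq0) h1
    have h3 : (Polynomial.C a + Polynomial.C b * Polynomial.X ^ 2 : L[X]).Separable := by
      refine ⟨Polynomial.C a⁻¹, -Polynomial.C (a⁻¹ * 2⁻¹) * Polynomial.X, ?_⟩
      have h4 : Polynomial.C a⁻¹ * Polynomial.C a = (1 : L[X]) := by
        rw [← map_mul, inv_mul_cancel₀ ha, map_one]
      have h5 : Polynomial.C (2 : L)⁻¹ * 2 = (1 : L[X]) := by
        rw [← map_ofNat Polynomial.C 2, ← map_mul, inv_mul_cancel₀ two_ne_zero, map_one]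
      simp only [derivative_add, derivative_C, derivative_mul, derivative_X_pow, map_mul, zero_mul,
        zero_add, Nat.cast_ofNat, map_ofNat, Nat.add_one_sub_one, pow_one]
      linear_combination h4 - Polynomial.C a⁻¹ * Polynomial.C b * Polynomial.X ^ 2 * h5
    have h6 : IsUnit s := h3.squarefree s (by rw [← h2, sq])
    have h7 := congrArg natDegree h2
    rw [natDegree_pow, natDegree_eq_zero_of_isUnit h6, add_comm, natDegree_add_C,
      natDegree_C_mul_X_pow _ _ hb] at h7
    omega
  have hp0 : p = 0 := by simpa [hq0] using h1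
  simp [hp0, hq0]

theorem finrank_pow [CharZero L] {x y : E} {a b : L} (ha : a ≠ 0) (hb : b ≠ 0)
    (h : y ^ 2 = algebraMap L E a + algebraMap L E b * x ^ 2) (hx : Transcendental L x) (n : ℕ) :
    Module.finrank L (Submodule.span L {1, x, y} ^ n : Submodule L E) = 2 * n + 1 := by
  have h1 : ∀ k, Module.Finite L (degreeLT L k) := fun k =>
    Module.Finite.equiv (degreeLTEquiv L k).symm
  rw [pow_eq_range h, LinearMap.finrank_range_of_inj (pq_inj ha hb h hx n), Module.finrank_prod,
    (degreeLTEquiv L _).finrank_eq, (degreeLTEquiv L _).finrank_eq]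
  simp only [Module.finrank_fin_fun]
  omega

end Conic

section Main

variable {F L E ι : Type} [Field F] [Field L] [Field E] [Finite ι]
  {I₁ I₂ : Set (MvPolynomial ι F)} {Φ : Ideal (Pxy ι F) → ZMod 2}

theorem adm (P : PrmAPI) {c : F →+* E} {a b : ι → E} (h₁ : HomSet I₁) (h₂ : HomSet I₂)
    (ha : Sat I₁ c a) (hb : Sat I₂ c b) (ht : td c ≤ 1) : AdmF I₁ I₂ (prm c a b) :=
  P.prm_sat ι F F E I₁ I₂ c a b h₁ h₂ (by simpa using ha) (by simpa using hb) ht

theorem td_eq (F E : Type) [Field F] [Field E] [A : Algebra F E] :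
    td (algebraMap F E) = Algebra.trdeg F E :=
  congrArg (fun A : Algebra F E => @Algebra.trdeg F E _ _ A)
    (Algebra.algebra_ext (algebraMap F E).toAlgebra A fun _ => rfl)

theorem contr (P : PrmAPI) [Algebra F L] [FiniteDimensional F L] (τ : L →+* E) (a : ι → E)
    (b : ι → L) (h₁ : HomSet I₁) (h₂ : HomSet I₂) (hΦ : GoodF I₁ I₂ Φ)
    (ha : Sat I₁ (τ.comp (algebraMap F L)) a) (hb : Sat I₂ (algebraMap F L) b)
    (ht : td (τ.comp (algebraMap F L)) ≤ 1) :
    valR Φ (τ.comp (algebraMap F L)) a (τ ∘ b) = 0 := by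
  have hb' : Sat I₂ (τ.comp (algebraMap F L)) (τ ∘ b) := fun f hf => by
    rw [← eval₂_comp_left, hb f hf, map_zero]
  let := τ.toAlgebra
  let := (τ.comp (algebraMap F L)).toAlgebra
  have : IsScalarTower F L E := IsScalarTower.of_algebraMap_eq fun _ => rfl
  rw [valR, hΦ.zero _ (adm P h₁ h₂ ha hb' ht) (P.prm_bdd ι F E a (τ ∘ b) fun j =>
    (Algebra.IsAlgebraic.isAlgebraic (R := F) (b j)).algebraMap), mul_zero]

variable [Algebra F L] [Algebra L E] [Algebra F E] [IsScalarTower F L E]

theorem sat_n₁ (f : Frame I₁) {r : L} (hr : Quad (algebraMap F L) (-f.α 0) r) :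
    Sat I₁ (algebraMap F E) (f.n₁ (algebraMap F E) (algebraMap L E r)) :=
  f.sat_n₁ _ (by rw [← map_pow, hr.sq, ← IsScalarTower.algebraMap_apply])

theorem hf_one (P : PrmAPI) (f : Frame I₁) {r : L} (hr : Quad (algebraMap F L) (-f.α 0) r)
    (b : ι → E) :
    hf (bw ι) (prm (algebraMap F E) (f.n₁ (algebraMap F E) (algebraMap L E r)) b) (1, 0) ≤ 2 := by
  rw [P.prm_hf, pow_one, pow_zero, mul_one, finrank_range _ (span_n₁ f hr), quad_finrank hr]

theorem conic (P : PrmAPI) [CharZero F] (f : Frame I₁) (g : Frame I₂) (r : L) (x y : E)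
    (h₁ : HomSet I₁) (h₂ : HomSet I₂) (hΦ : GoodF I₁ I₂ Φ)
    (hr : Quad (algebraMap F L) (-f.α 0) r)
    (heq : algebraMap F E (g.α 0) + algebraMap F E (g.α 1) * x ^ 2 +
      algebraMap F E (g.α 2) * y ^ 2 = 0)
    (hgen : IntermediateField.adjoin L {x, y} = ⊤) (hx : Transcendental L x) :
    valR Φ (algebraMap F E) (f.n₁ (algebraMap F E) (algebraMap L E r))
      (g.comb (algebraMap F E) ![1, x, y, 0, 0, 0, 0]) = 1 := by
  have : CharZero L := charZero_of_injective_algebraMap (algebraMap F L).injective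
  have : FiniteDimensional F L := Module.finite_of_finrank_eq_succ (quad_finrank hr)
  have hA := span_n₁ (E := E) f hr
  have hy : y ^ 2 = algebraMap L E (algebraMap F L (-g.α 0 / g.α 2)) +
      algebraMap L E (algebraMap F L (-g.α 1 / g.α 2)) * x ^ 2 := by
    have h2 : algebraMap F E (g.α 2) ≠ 0 := (map_ne_zero _).2 (g.ne 2)
    simp only [← IsScalarTower.algebraMap_apply, map_div₀, map_neg]
    field_simp
    linear_combination heq
  have hB : Submodule.span F (Set.range (g.comb (algebraMap F E) ![1, x, y, 0, 0, 0, 0])) =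
      Submodule.span F {1, x, y} := by
    rw [span_comb]
    apply le_antisymm
    · rw [Submodule.span_le]
      rintro _ ⟨k, rfl⟩
      fin_cases k
      exacts [Submodule.subset_span (by simp), Submodule.subset_span (by simp),
        Submodule.subset_span (by simp), zero_mem _, zero_mem _, zero_mem _, zero_mem _]
    · apply Submodule.span_mono
      rintro w (rfl | rfl | rfl)
      exacts [⟨0, rfl⟩, ⟨1, rfl⟩, ⟨2, rfl⟩]
  have ht : td (algebraMap F E) ≤ 1 := by
    have hx' := IntermediateField.mem_adjoin_simple_self L x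
    refine (td_eq F E).trans_le (trdeg_le (F := F) x y hgen (IsAlgebraic.of_pow two_pos ?_))
    rw [hy]
    exact isAlgebraic_algebraMap (R := IntermediateField.adjoin L {x}) (A := E)
      ⟨_, add_mem (IntermediateField.algebraMap_mem _ _)
        (mul_mem (IntermediateField.algebraMap_mem _ _) (pow_mem hx' 2))⟩
  have hsat : Sat I₂ (algebraMap F E) (g.comb (algebraMap F E) ![1, x, y, 0, 0, 0, 0]) :=
    g.sat_comb _ (by simpa [Fin.sum_univ_seven] using heq)
  have hrat : ratF (algebraMap F E) (f.n₁ (algebraMap F E) (algebraMap L E r))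
      (g.comb (algebraMap F E) ![1, x, y, 0, 0, 0, 0]) = ⊤ := by
    set K := ratF (algebraMap F E) (f.n₁ (algebraMap F E) (algebraMap L E r))
      (g.comb (algebraMap F E) ![1, x, y, 0, 0, 0, 0]) with hK
    have k0 : ∀ c, algebraMap F E c ∈ K := fun c =>
      Subfield.subset_closure (Or.inl (Or.inl ⟨c, rfl⟩))
    have k1 : ∀ l, algebraMap L E l ∈ K := fun l => by
      simpa using div_mem K k0 _
        (fun i k => Subfield.subset_closure (Or.inl (Or.inr ⟨i, k, rfl⟩)))
        ((hA _).2 ⟨l, rfl⟩) ((hA 1).2 ⟨1, map_one _⟩)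
    have k2 : ∀ z ∈ ({1, x, y} : Set E), z ∈ K := fun z hz => by
      simpa using div_mem K k0 _ (fun i k => Subfield.subset_closure (Or.inr ⟨i, k, rfl⟩))
        (hB ▸ Submodule.subset_span hz) (t := 1) (hB ▸ Submodule.subset_span (by simp))
    have k3 : IntermediateField.adjoin L {x, y} ≤ K.toIntermediateField k1 := by
      rw [IntermediateField.adjoin_le_iff]
      rintro w (rfl | rfl)
      exacts [k2 _ (by simp), k2 _ (by simp)]
    rw [eq_top_iff]
    intro z _
    exact k3 (hgen ▸ IntermediateField.mem_top)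
  have hev := hΦ.eval _ (adm P h₁ h₂ (sat_n₁ f hr) hsat ht) (hf_one P f hr _) 1
    (eventually_atTop.2 ⟨1, fun d hd => Eventually.of_forall fun n => by
      obtain ⟨d, rfl⟩ := Nat.exists_eq_add_of_le' hd
      rw [P.prm_hf, pow_succ_eq _ hA, mul_eq _ _ hA, hB, Submodule.span_pow,
        Submodule.span_span_of_tower, ← Submodule.span_pow, finrank_restrict, quad_finrank hr,
        finrank_pow ((map_ne_zero _).2 (div_ne_zero (neg_ne_zero.2 (g.ne 0)) (g.ne 2)))
          ((map_ne_zero _).2 (div_ne_zero (neg_ne_zero.2 (g.ne 1)) (g.ne 2))) hy hx]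
      unfold Nat.ModEq
      omega⟩)
  have hone : Module.finrank (⊤ : Subfield E) E = 1 := by
    rw [← Subfield.relfinrank_top_right, Subfield.relfinrank_top_left]
  rw [valR, hev, hrat, hone]
  simp

theorem line {T : Type} [Field T] [Algebra F T] [Algebra L T] [Algebra E T] [IsScalarTower F L T]
    [IsScalarTower F E T] [IsScalarTower L E T] (P : PrmAPI) (f : Frame I₁) (g : Frame I₂) (r : L)
    (r' : E) (t : T) (h₁ : HomSet I₁) (h₂ : HomSet I₂) (hΦ : GoodF I₁ I₂ Φ)
    (hr : Quad (algebraMap F L) (-f.α 0) r)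
    (hr' : Quad (algebraMap L E) (algebraMap F L (-g.α 0)) r')
    (hgen : IntermediateField.adjoin E {t} = ⊤) :
    valR Φ (algebraMap F T) (f.n₁ (algebraMap F T) (algebraMap L T r))
      (g.comb (algebraMap F T) ![0, algebraMap E T r', 1, t * algebraMap E T r', t, 0, 0]) = 0 := by
  have : FiniteDimensional F L := Module.finite_of_finrank_eq_succ (quad_finrank hr)
  have : FiniteDimensional L E := Module.finite_of_finrank_eq_succ (quad_finrank hr')
  have : FiniteDimensional F E := Module.Finite.trans L E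
  have hA := span_n₁ (E := T) f hr
  have hs : algebraMap E T r' ^ 2 = -algebraMap F T (g.α 0) := by
    rw [← map_pow, hr'.sq, ← IsScalarTower.algebraMap_apply, ← IsScalarTower.algebraMap_apply,
      map_neg]
  set s := algebraMap E T r' with hsdef
  have ht : td (algebraMap F T) ≤ 1 := by
    refine (td_eq F T).trans_le (trdeg_le (F := F) (L := E) t t (by simpa using hgen) ?_)
    exact isAlgebraic_algebraMap (R := IntermediateField.adjoin E {t}) (A := T)
      ⟨t, IntermediateField.mem_adjoin_simple_self E t⟩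
  have hsat : Sat I₂ (algebraMap F T) (g.comb (algebraMap F T) ![0, s, 1, t * s, t, 0, 0]) :=
    g.sat_comb _ (by
      simp only [Fin.sum_univ_seven, g.two, g.four, map_mul]
      simp only [Matrix.cons_val]
      linear_combination (algebraMap F T (g.α 1) + algebraMap F T (g.α 3) * t ^ 2) * hs)
  have hB : ∀ b ∈ Submodule.span F (Set.range ![0, s, 1, t * s, t, 0, 0]),
      s * b ∈ Submodule.span F (Set.range ![0, s, 1, t * s, t, 0, 0]) := by
    refine mul_mem_span _ _ fun k => ?_
    have m1 : (-g.α 0) • (1 : T) ∈ Submodule.span F (Set.range ![0, s, 1, t * s, t, 0, 0]) :=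
      Submodule.smul_mem _ _ (Submodule.subset_span ⟨2, rfl⟩)
    have m2 : s ∈ Submodule.span F (Set.range ![0, s, 1, t * s, t, 0, 0]) :=
      Submodule.subset_span ⟨1, rfl⟩
    have m3 : (-g.α 0) • t ∈ Submodule.span F (Set.range ![0, s, 1, t * s, t, 0, 0]) :=
      Submodule.smul_mem _ _ (Submodule.subset_span ⟨4, rfl⟩)
    have m4 : t * s ∈ Submodule.span F (Set.range ![0, s, 1, t * s, t, 0, 0]) :=
      Submodule.subset_span ⟨3, rfl⟩
    rw [Algebra.smul_def, map_neg, ← hs] at m1 m3
    fin_cases k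
    · exact (mul_zero s).symm ▸ zero_mem _
    · exact (by ring : s ^ 2 * 1 = s * s) ▸ m1
    · exact (mul_one s).symm ▸ m2
    · exact (by ring : s ^ 2 * t = s * (t * s)) ▸ m3
    · exact mul_comm t s ▸ m4
    · exact (mul_zero s).symm ▸ zero_mem _
    · exact (mul_zero s).symm ▸ zero_mem _
  have hev := hΦ.eval _ (adm P h₁ h₂ (sat_n₁ f hr) hsat ht) (hf_one P f hr _) 0
    (eventually_atTop.2 ⟨1, fun d hd => eventually_atTop.2 ⟨1, fun n hn => by
      obtain ⟨d, rfl⟩ := Nat.exists_eq_add_of_le' hd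
      obtain ⟨n, rfl⟩ := Nat.exists_eq_add_of_le' hn
      rw [P.prm_hf, pow_succ_eq _ hA, span_comb]
      set A := Submodule.span F (Set.range (f.n₁ (algebraMap F T) (algebraMap L T r)))
      set B := Submodule.span F (Set.range ![0, s, 1, t * s, t, 0, 0])
      have c1 : ∀ l : L, ∀ w ∈ A * B ^ (n + 1), algebraMap L T l * w ∈ A * B ^ (n + 1) := fun l =>
        mul_mem_mul _ _ _ fun a ha => by
          obtain ⟨l', rfl⟩ := (hA a).1 ha
          exact (hA _).2 ⟨l * l', map_mul _ _ _⟩
      have c2 : ∀ w ∈ A * B ^ (n + 1), s * w ∈ A * B ^ (n + 1) := by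
        rw [pow_succ', mul_left_comm]
        exact mul_mem_mul _ _ _ hB
      let W : Submodule E T :=
        { (A * B ^ (n + 1)).toAddSubmonoid with
          smul_mem' := fun z w hw => by
            obtain ⟨u, v, rfl⟩ := hr'.gen z
            have e : (algebraMap L E u + algebraMap L E v * r') • w =
                algebraMap L T u * w + algebraMap L T v * (s * w) := by
              rw [Algebra.smul_def, map_add, map_mul, ← IsScalarTower.algebraMap_apply,
                ← IsScalarTower.algebraMap_apply]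
              ring
            rw [e]
            exact add_mem (c1 u w hw) (c1 v _ (c2 w hw)) }
      have hW : A * B ^ (n + 1) = W.restrictScalars F := rfl
      rw [hW, finrank_restrict, ← Module.finrank_mul_finrank F L E, quad_finrank hr,
        quad_finrank hr']
      unfold Nat.ModEq
      omega⟩⟩)
  rw [valR, hev]
  simp

end Main

end Evg

theorem evgAPI (P : PrmAPI) : EvgAPI where
  conic := fun F L E ι _ _ _ _ _ _ _ I₁ I₂ Φ f g r x y h₁ h₂ hΦ hr hc => by
    let := ((algebraMap L E).comp (algebraMap F L)).toAlgebra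
    have : IsScalarTower F L E := IsScalarTower.of_algebraMap_eq fun _ => rfl
    have h := Evg.conic (E := E) P f g r x y h₁ h₂ hΦ hr hc.eqn hc.gen hc.trans
    refine Eq.trans ?_ h
    congr 1
    · exact f.comp_n₁ (algebraMap F L) r (algebraMap L E)
    · ext i
      simp [Frame.comb, Fin.sum_univ_seven, Fin.sum_univ_three, RingHom.algebraMap_toAlgebra]
  line := fun F L E ι _ _ _ _ _ _ _ I₁ I₂ Φ f g ρ r r' h₁ h₂ hΦ hρ hr hr' => by
    let := ρ.toAlgebra
    have : IsScalarTower F L E := IsScalarTower.of_algebraMap_eq' hρ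
    have h := Evg.line (T := RatFunc E) P f g r r' RatFunc.X h₁ h₂ hΦ hr hr' RatFunc.adjoin_X
    refine Eq.trans ?_ h
    have e : ∀ c : F, algebraMap F (RatFunc E) c = algebraMap E (RatFunc E) (ρ c) := fun c =>
      IsScalarTower.algebraMap_apply F E (RatFunc E) c
    congr 1
    · ext i
      simp [vec, Frame.n₁, e, IsScalarTower.algebraMap_apply L E (RatFunc E)]
    · ext i
      simp [vec, Frame.n₁, Frame.n₂, Frame.comb, Fin.sum_univ_seven, e]
      ring
  contr := fun F L E ι _ _ _ _ _ _ I₁ I₂ Φ τ a b h₁ h₂ hΦ ha hb ht =>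
    Evg.contr P τ a b h₁ h₂ hΦ ha hb ht

end Pool.Agent.MP_d45d16_ag.Yag

end MrgPart3

-- ======== part 4: formerly Pool.Agent.MP_d45d16_ag.yag.Hf2
section MrgPart4

/-!
Hilbert functions under specialisation and base change.
-/

set_option autoImplicit false

open MvPolynomial

namespace Pool.Agent.MP_d45d16_ag.Yag

namespace Hf2

variable {σ : Type}

theorem mem_map_ind {V K : Type} [CommRing V] [CommRing K] (φ : V →+* K)
    (J : Ideal (MvPolynomial σ V)) (S : Submodule K (MvPolynomial σ K))
    (h : ∀ f ∈ J, MvPolynomial.map φ f ∈ S) {g : MvPolynomial σ K}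
    (hg : g ∈ J.map (MvPolynomial.map φ)) : g ∈ S := by
  have key : ∀ a : MvPolynomial σ K, a * g ∈ S := by
    refine Submodule.span_induction (p := fun g _ => ∀ a : MvPolynomial σ K, a * g ∈ S)
      ?_ ?_ ?_ ?_ hg
    · rintro _ ⟨f, hf, rfl⟩ a
      induction a using MvPolynomial.induction_on' with
      | monomial d c =>
        have : monomial d c * MvPolynomial.map φ f =
            c • MvPolynomial.map φ (monomial d 1 * f) := by
          rw [map_mul, map_monomial, map_one, smul_eq_C_mul, ← mul_assoc, C_mul_monomial, mul_one]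
        rw [this]
        exact S.smul_mem _ (h _ (J.mul_mem_left _ hf))
      | add p q hp hq => rw [add_mul]; exact S.add_mem hp hq
    · intro a; simp
    · intro x y _ _ hx hy a; rw [mul_add]; exact S.add_mem (hx a) (hy a)
    · intro r x _ hx a; rw [smul_eq_mul, ← mul_assoc]; exact hx _
  simpa using key 1

theorem hom_of_gen {F K : Type} [CommRing F] [CommRing K] (w : σ → ℕ × ℕ) (ρ : F →+* K)
    (ψ : MvPolynomial σ F →+* MvPolynomial σ K) (hC : ∀ a, ψ (C a) = C (ρ a))
    (hX : ∀ v, IsWeightedHomogeneous w (ψ (X v)) (w v)) {f : MvPolynomial σ F} {m : ℕ × ℕ}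
    (hf : IsWeightedHomogeneous w f m) : IsWeightedHomogeneous w (ψ f) m := by
  induction hf using IsWeightedHomogeneous.induction_on with
  | zero => rw [map_zero]; exact isWeightedHomogeneous_zero _ _ _
  | add p q _ _ hp hq => rw [map_add]; exact hp.add hq
  | monomial d r hr =>
    rw [monomial_eq, map_mul, hC, Finsupp.prod, map_prod, ← hr, Finsupp.weight_apply, Finsupp.sum]
    refine IsWeightedHomogeneous.C_mul ?_ _
    refine IsWeightedHomogeneous.prod _ _ _ fun v _ => ?_
    rw [map_pow]
    exact (hX v).pow _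

theorem hom_map {V K : Type} [CommRing V] [CommRing K] (w : σ → ℕ × ℕ) (φ : V →+* K)
    {f : MvPolynomial σ V} {m : ℕ × ℕ} (hf : IsWeightedHomogeneous w f m) :
    IsWeightedHomogeneous w (MvPolynomial.map φ f) m :=
  hom_of_gen w φ _ (fun _ => map_C _ _)
    (fun v => by rw [map_X]; exact isWeightedHomogeneous_X _ _ _) hf

theorem isHom_map (H : HfAPI) {F K : Type} [CommRing F] [CommRing K] (w : σ → ℕ × ℕ)
    (ψ : MvPolynomial σ F →+* MvPolynomial σ K)
    (hψ : ∀ f m, IsWeightedHomogeneous w f m → IsWeightedHomogeneous w (ψ f) m)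
    {J : Ideal (MvPolynomial σ F)} (hJ : IsHom w J) : IsHom w (J.map ψ) := by
  have e : J.map ψ = Ideal.span (ψ '' {f | f ∈ J ∧ ∃ m, IsWeightedHomogeneous w f m}) := by
    refine le_antisymm ?_ (Ideal.span_mono (Set.image_mono fun f hf => hf.1))
    rw [Ideal.map_le_iff_le_comap]
    intro f hf
    rw [Ideal.mem_comap, ← sum_weightedHomogeneousComponent w f,
      finsum_eq_sum _ (weightedHomogeneousComponent_finsupp f), map_sum]
    exact Ideal.sum_mem _ fun m _ => Ideal.subset_span
      ⟨_, ⟨hJ f hf m, m, weightedHomogeneousComponent_isWeightedHomogeneous _ _⟩, rfl⟩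
  rw [e]
  refine H.span _ _ _ _ ?_
  rintro _ ⟨f, ⟨-, m, hm⟩, rfl⟩
  exact ⟨m, hψ f m hm⟩

theorem comp_map {V K : Type} [CommRing V] [CommRing K] (w : σ → ℕ × ℕ) (φ : V →+* K)
    (f : MvPolynomial σ V) (m : ℕ × ℕ) :
    MvPolynomial.map φ (weightedHomogeneousComponent w m f) =
      weightedHomogeneousComponent w m (MvPolynomial.map φ f) := by
  ext d
  simp only [coeff_map, coeff_weightedHomogeneousComponent]
  split_ifs <;> simp

theorem finite_piece [Finite σ] (V : Type) [CommRing V] {w : σ → ℕ × ℕ} (hw : IsW w)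
    (k : ℕ × ℕ) : Module.Finite V (weightedHomogeneousSubmodule V w k) := by
  rw [weightedHomogeneousSubmodule_eq_finsupp_supported]
  have hfin : {d : σ →₀ ℕ | Finsupp.weight w d = k}.Finite := by
    refine (Finsupp.finite_of_degree_eq (σ := σ) (k.1 + k.2)).subset ?_
    rintro d rfl
    simp only [Set.mem_ofPred_eq, Finsupp.weight_apply, Finsupp.sum, Finsupp.degree_apply,
      Prod.fst_sum, Prod.snd_sum, ← Finset.sum_add_distrib]
    refine Finset.sum_congr rfl fun v _ => ?_
    rcases hw v with h | h <;> simp [h]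
  have := hfin.to_subtype
  exact Module.Finite.of_basis (basisRestrictSupport V {d | Finsupp.weight w d = k})

/-- The piece of the quotient. -/
noncomputable def Q {V : Type} [CommRing V] (w : σ → ℕ × ℕ) (J : Ideal (MvPolynomial σ V))
    (k : ℕ × ℕ) : Submodule V (MvPolynomial σ V ⧸ J) :=
  (weightedHomogeneousSubmodule V w k).map (Ideal.Quotient.mkₐ V J).toLinearMap

theorem finite_Q [Finite σ] {V : Type} [CommRing V] {w : σ → ℕ × ℕ} (hw : IsW w)
    (J : Ideal (MvPolynomial σ V)) (k : ℕ × ℕ) : Module.Finite V (Q w J k) := by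
  have := finite_piece V hw k
  exact Module.Finite.map _ _

theorem exists_ext {V K : Type} [CommRing V] [CommRing K] (φ : V →+* K)
    (l : MvPolynomial σ V →ₗ[V] V) : ∃ L : MvPolynomial σ K →ₗ[K] K,
      ∀ f, L (MvPolynomial.map φ f) = φ (l f) := by
  refine ⟨(basisMonomials σ K).constr K fun d => φ (l (monomial d 1)), fun f => ?_⟩
  induction f using MvPolynomial.induction_on' with
  | monomial d c =>
    have h1 : (monomial d (φ c) : MvPolynomial σ K) = φ c • basisMonomials σ K d := by
      simp [smul_monomial]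
    have h2 : (monomial d c : MvPolynomial σ V) = c • monomial d 1 := by simp [smul_monomial]
    rw [map_monomial, h1, map_smul, Module.Basis.constr_basis, h2, map_smul]
    simp
  | add p q hp hq => simp only [map_add, hp, hq]

/-- Base change of a free piece. -/
theorem hf_map {V K ι : Type} [CommRing V] [Field K] [Fintype ι] (φ : V →+* K)
    {w : σ → ℕ × ℕ} {J : Ideal (MvPolynomial σ V)} (hJ : IsHom w J) (k : ℕ × ℕ)
    (b : Module.Basis ι V (Q w J k)) :
    hf w (J.map (MvPolynomial.map φ)) k = Fintype.card ι := by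
  classical
  have hb : ∀ i, ∃ f, IsWeightedHomogeneous w f k ∧ Ideal.Quotient.mk J f = (b i : _ ⧸ J) :=
    fun i => (b i).2
  choose f hf hfb using hb
  set JK := J.map (MvPolynomial.map φ)
  let cm : MvPolynomial σ V →ₗ[V] Q w J k :=
    LinearMap.codRestrict (Q w J k)
      ((Ideal.Quotient.mkₐ V J).toLinearMap ∘ₗ weightedHomogeneousComponent w k) fun g =>
        ⟨_, weightedHomogeneousComponent_mem w g k, rfl⟩
  have cm_hom : ∀ g, IsWeightedHomogeneous w g k →
      (cm g : _ ⧸ J) = Ideal.Quotient.mk J g := fun g hg => by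
    change Ideal.Quotient.mk J (weightedHomogeneousComponent w k g) = _
    rw [hg.weightedHomogeneousComponent_same]
  have cm_J : ∀ g ∈ J, cm g = 0 := fun g hg => Subtype.ext (by
    change Ideal.Quotient.mk J (weightedHomogeneousComponent w k g) = 0
    exact Ideal.Quotient.eq_zero_iff_mem.2 (hJ g hg k))
  have cm_f : ∀ i, cm (f i) = b i := fun i => Subtype.ext ((cm_hom _ (hf i)).trans (hfb i))
  let v : ι → MvPolynomial σ K ⧸ JK := fun i => Ideal.Quotient.mk JK (MvPolynomial.map φ (f i))
  have hli : LinearIndependent K v := by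
    rw [Fintype.linearIndependent_iff]
    intro c hc i
    obtain ⟨L, hL⟩ := exists_ext φ (b.coord i ∘ₗ cm)
    have h1 : ∑ j, c j • MvPolynomial.map φ (f j) ∈ JK := by
      rw [← Ideal.Quotient.eq_zero_iff_mem, ← hc]
      change (Ideal.Quotient.mkₐ K JK) _ = _
      rw [map_sum]
      exact Finset.sum_congr rfl fun j _ => map_smul _ _ _
    have h2 := mem_map_ind φ J (LinearMap.ker L) (fun g hg => by
      rw [LinearMap.mem_ker, hL, LinearMap.comp_apply, cm_J g hg, map_zero, map_zero]) h1
    rw [LinearMap.mem_ker, map_sum, Finset.sum_eq_single i] at h2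
    · simpa [hL, cm_f] using h2
    · intro j _ hj
      simp [hL, cm_f, hj.symm]
    · simp
  have hsp : Submodule.span K (Set.range v) =
      (weightedHomogeneousSubmodule K w k).map (Ideal.Quotient.mkₐ K JK).toLinearMap := by
    refine le_antisymm ?_ ?_
    · rw [Submodule.span_le]
      rintro _ ⟨i, rfl⟩
      exact ⟨_, hom_map w φ (hf i), rfl⟩
    · rintro _ ⟨g, hg, rfl⟩
      have hg' : IsWeightedHomogeneous w g k := hg
      clear hg
      induction hg' using IsWeightedHomogeneous.induction_on with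
      | zero => simp
      | add p q _ _ hp hq => rw [map_add]; exact add_mem hp hq
      | monomial d r hr =>
        have h1 : (monomial d r : MvPolynomial σ K) = r • MvPolynomial.map φ (monomial d 1) := by
          simp [smul_monomial]
        rw [h1, map_smul]
        refine Submodule.smul_mem _ _ ?_
        have hm : IsWeightedHomogeneous w (monomial d (1 : V)) k :=
          isWeightedHomogeneous_monomial w d 1 hr
        have h2 : monomial d 1 - ∑ i, b.repr (cm (monomial d 1)) i • f i ∈ J := by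
          rw [← Ideal.Quotient.eq, ← cm_hom _ hm]
          have h3 := congrArg (fun z : Q w J k => (z : _ ⧸ J)) (b.sum_repr (cm (monomial d 1)))
          simp only [Submodule.coe_sum, Submodule.coe_smul] at h3
          rw [← h3]
          change _ = (Ideal.Quotient.mkₐ V J) _
          rw [map_sum]
          refine Finset.sum_congr rfl fun i _ => ?_
          rw [map_smul, ← hfb]
          rfl
        have h4 := Ideal.Quotient.eq.2 (by
          simpa only [map_sub] using Ideal.mem_map_of_mem (MvPolynomial.map φ) h2 :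
            MvPolynomial.map φ (monomial d 1) -
              MvPolynomial.map φ (∑ i, b.repr (cm (monomial d 1)) i • f i) ∈ JK)
        change Ideal.Quotient.mk JK _ ∈ _
        rw [h4, map_sum, map_sum]
        refine Submodule.sum_mem _ fun i _ => ?_
        rw [smul_eq_C_mul, map_mul, map_C, ← smul_eq_C_mul]
        change (Ideal.Quotient.mkₐ K JK) _ ∈ _
        rw [map_smul]
        exact Submodule.smul_mem _ _ (Submodule.subset_span ⟨i, rfl⟩)
  unfold Yag.hf
  rw [← hsp, finrank_span_eq_card hli]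

theorem map_comap_subtype {E : Type} [Field E] (V : ValuationSubring E)
    (J : Ideal (MvPolynomial σ E)) :
    (J.comap (MvPolynomial.map V.subtype)).map (MvPolynomial.map V.subtype) = J := by
  classical
  refine le_antisymm Ideal.map_comap_le fun f hf => ?_
  obtain ⟨c, hc⟩ := IsLocalization.exist_integer_multiples (nonZeroDivisors V) f.support
    fun d => coeff d f
  have hc0 : ((c : V) : E) ≠ 0 := fun h => nonZeroDivisors.coe_ne_zero c (Subtype.ext h)
  have hr : C ((c : V) : E) * f ∈ Set.range (MvPolynomial.map (σ := σ) V.subtype) := by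
    rw [mem_range_map_iff_coeffs_subset]
    intro a ha
    obtain ⟨d, hd, rfl⟩ := mem_coeffs_iff.1 ha
    by_cases h : d ∈ f.support
    · obtain ⟨x, hx⟩ := hc d h
      exact ⟨x, by rw [coeff_C_mul]; exact hx⟩
    · exact ⟨0, by rw [coeff_C_mul, notMem_support_iff.1 h]; simp⟩
  obtain ⟨g, hg⟩ := hr
  have : f = C ((c : V) : E)⁻¹ * MvPolynomial.map V.subtype g := by
    rw [hg, ← mul_assoc, ← map_mul, inv_mul_cancel₀ hc0, map_one, one_mul]
  rw [this]
  refine Ideal.mul_mem_left _ _ (Ideal.mem_map_of_mem _ ?_)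
  rw [Ideal.mem_comap, hg]
  exact J.mul_mem_left _ hf

theorem init (H : HfAPI) {E K : Type} [Finite σ] [Field E] [Field K] (w : σ → ℕ × ℕ)
    (p : Place E K) (J : Ideal (MvPolynomial σ E)) (hw : IsW w) (hJ : IsHom w J) :
    IsHom w (p.init J) ∧ ∀ k, hf w (p.init J) k = hf w J k := by
  set JV := J.comap (MvPolynomial.map p.V.subtype) with hJV
  have hV : IsHom w JV := fun f hf m => by
    rw [hJV, Ideal.mem_comap, comp_map]
    exact hJ _ hf m
  refine ⟨isHom_map H w _ (fun _ _ => hom_map w _) hV, fun k => ?_⟩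
  have := finite_Q hw JV k
  have hfl : Module.Flat p.V (Q w JV k) := by
    rw [Module.Flat.flat_iff_torsion_eq_bot_of_isBezout, eq_bot_iff]
    rintro ⟨_, g, hg, rfl⟩ ⟨a, ha⟩
    have h1 : C (a : p.V) * g ∈ JV := by
      rw [← Ideal.Quotient.eq_zero_iff_mem, ← smul_eq_C_mul]
      exact congrArg Subtype.val ha
    have ha0 : ((a : p.V) : E) ≠ 0 := fun h => nonZeroDivisors.coe_ne_zero a (Subtype.ext h)
    have h2 : g ∈ JV := by
      rw [hJV, Ideal.mem_comap] at h1 ⊢
      rw [map_mul, map_C] at h1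
      have h3 := J.mul_mem_left (C ((a : p.V) : E)⁻¹) h1
      rw [← mul_assoc, ← map_mul] at h3
      have h4 : ((a : p.V) : E)⁻¹ * p.V.subtype a = 1 := inv_mul_cancel₀ ha0
      rwa [h4, map_one, one_mul] at h3
    exact Subtype.ext (Ideal.Quotient.eq_zero_iff_mem.2 h2)
  have : Module.Free p.V (Q w JV k) := Module.free_of_flat_of_isLocalRing
  let b := Module.Free.chooseBasis p.V (Q w JV k)
  have h1 := hf_map p.r hV k b
  have h2 := hf_map p.V.subtype hV k b
  have h3 : JV.map (MvPolynomial.map p.V.subtype) = J := map_comap_subtype p.V J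
  rw [h3] at h2
  exact h1.trans h2.symm

theorem hf_field [Finite σ] {F K : Type} [Field F] [Field K] (ρ : F →+* K) {w : σ → ℕ × ℕ}
    (hw : IsW w) {J : Ideal (MvPolynomial σ F)} (hJ : IsHom w J) (k : ℕ × ℕ) :
    hf w (J.map (MvPolynomial.map ρ)) k = hf w J k := by
  have := finite_Q hw J k
  rw [hf_map ρ hJ k (Module.finBasis F (Q w J k)), Fintype.card_fin]
  rfl

theorem hf_equiv {K : Type} [Field K] {w : σ → ℕ × ℕ}
    (α : MvPolynomial σ K ≃ₐ[K] MvPolynomial σ K)
    (h : ∀ f m, IsWeightedHomogeneous w f m → IsWeightedHomogeneous w (α f) m)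
    (h' : ∀ f m, IsWeightedHomogeneous w f m → IsWeightedHomogeneous w (α.symm f) m)
    (J : Ideal (MvPolynomial σ K)) (k : ℕ × ℕ) :
    hf w (J.map (α : MvPolynomial σ K →+* MvPolynomial σ K)) k = hf w J k := by
  unfold Yag.hf
  rw [← (Ideal.quotientEquivAlg J _ α rfl).toLinearEquiv.finrank_map_eq]
  refine congrArg (fun S : Submodule K (_ ⧸ J.map (α : MvPolynomial σ K →+* MvPolynomial σ K)) =>
    Module.finrank K S) (le_antisymm ?_ ?_)
  · rintro _ ⟨f, hf, rfl⟩
    refine ⟨_, ⟨α.symm f, h' f k hf, rfl⟩, ?_⟩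
    change Ideal.Quotient.mk _ (α (α.symm f)) = Ideal.Quotient.mk _ f
    rw [α.apply_symm_apply]
  · rintro _ ⟨_, ⟨f, hf, rfl⟩, rfl⟩
    exact ⟨α f, h f k hf, rfl⟩

/-- Apply an additive map to all coefficients. -/
noncomputable def cw {F K : Type} [Field F] [Field K] (l : K →+ F) (g : MvPolynomial σ K) :
    MvPolynomial σ F := ∑ d ∈ g.support, monomial d (l (coeff d g))

theorem coeff_cw {F K : Type} [Field F] [Field K] (l : K →+ F) (g : MvPolynomial σ K)
    (d : σ →₀ ℕ) : coeff d (cw l g) = l (coeff d g) := by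
  classical
  rw [cw, coeff_sum, Finset.sum_eq_single d]
  · simp
  · intro e _ he
    rw [coeff_monomial, if_neg he]
  · intro hd
    rw [notMem_support_iff.1 hd]
    simp

theorem mem_map_iff {F K : Type} [Field F] [Field K] [Algebra F K]
    (J : Ideal (MvPolynomial σ F)) (g : MvPolynomial σ K) :
    g ∈ J.map (MvPolynomial.map (algebraMap F K)) ↔
      ∀ l : K →ₗ[F] F, cw l.toAddMonoidHom g ∈ J := by
  classical
  constructor
  · intro hg
    let S : Submodule K (MvPolynomial σ K) :=
      { carrier := {g | ∀ l : K →ₗ[F] F, cw l.toAddMonoidHom g ∈ J}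
        add_mem' := fun {a b} ha hb l => by
          have : cw l.toAddMonoidHom (a + b) = cw l.toAddMonoidHom a + cw l.toAddMonoidHom b := by
            ext d; simp [coeff_cw]
          rw [this]; exact J.add_mem (ha l) (hb l)
        zero_mem' := fun l => by simp [cw]
        smul_mem' := fun c a ha l => by
          have : cw l.toAddMonoidHom (c • a) =
              cw (l ∘ₗ LinearMap.mulLeft F c).toAddMonoidHom a := by
            ext d; simp [coeff_cw]
          rw [this]; exact ha _ }
    refine mem_map_ind (algebraMap F K) J S (fun f hf l => ?_) hg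
    have : cw l.toAddMonoidHom (MvPolynomial.map (algebraMap F K) f) = C (l 1) * f := by
      ext d
      rw [coeff_cw, coeff_map, coeff_C_mul, Algebra.algebraMap_eq_smul_one]
      simp [mul_comm]
    rw [this]
    exact J.mul_mem_left _ hf
  · intro h
    let e := Module.Free.chooseBasis F K
    have : g = ∑ s ∈ g.support.biUnion fun d => (e.repr (coeff d g)).support,
        C (e s) * MvPolynomial.map (algebraMap F K) (cw (e.coord s).toAddMonoidHom g) := by
      ext d
      rw [coeff_sum]
      simp only [coeff_C_mul, coeff_map, coeff_cw]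
      by_cases hd : d ∈ g.support
      · have hs : (e.repr (coeff d g)).support ⊆
            g.support.biUnion fun d => (e.repr (coeff d g)).support :=
          Finset.subset_biUnion_of_mem (fun d => (e.repr (coeff d g)).support) hd
        conv_lhs => rw [← e.linearCombination_repr (coeff d g), Finsupp.linearCombination_apply,
          Finsupp.sum_of_support_subset _ hs (fun i a => a • e i) (fun _ _ => zero_smul _ _)]
        refine Finset.sum_congr rfl fun s _ => ?_
        rw [Algebra.smul_def, mul_comm]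
        rfl
      · rw [notMem_support_iff.1 hd]
        simp
    rw [this]
    exact Ideal.sum_mem _ fun s _ => Ideal.mul_mem_left _ _ (Ideal.mem_map_of_mem _ (h _))

theorem colon_field {F K : Type} [Field F] [Field K] (ρ : F →+* K)
    (J : Ideal (MvPolynomial σ F)) (f : MvPolynomial σ F) :
    (J.colon {f}).map (MvPolynomial.map ρ) =
      (J.map (MvPolynomial.map ρ)).colon {MvPolynomial.map ρ f} := by
  classical
  let := ρ.toAlgebra
  change (J.colon {f}).map (MvPolynomial.map (algebraMap F K)) =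
      (J.map (MvPolynomial.map (algebraMap F K))).colon {MvPolynomial.map (algebraMap F K) f}
  ext g
  rw [Submodule.mem_colon_singleton, smul_eq_mul, mem_map_iff, mem_map_iff]
  refine forall_congr' fun l => ?_
  have : cw l.toAddMonoidHom (g * MvPolynomial.map (algebraMap F K) f) =
      cw l.toAddMonoidHom g * f := by
    ext d
    rw [coeff_cw, coeff_mul, coeff_mul, map_sum]
    refine Finset.sum_congr rfl fun x _ => ?_
    rw [coeff_cw, coeff_map, mul_comm, ← Algebra.smul_def]
    simp [mul_comm]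
  rw [this, Submodule.mem_colon_singleton, smul_eq_mul]

theorem colon_equiv {R : Type} [CommRing R] (α : R ≃+* R) (J : Ideal R) (f : R) :
    (J.colon {f}).map (α : R →+* R) = (J.map (α : R →+* R)).colon {α f} := by
  ext g
  obtain ⟨g, rfl⟩ := α.surjective g
  have h : ∀ (I : Ideal R) (x : R), α x ∈ I.map (α : R →+* R) ↔ x ∈ I := fun I x =>
    Ideal.apply_mem_of_equiv_iff
  rw [h, Submodule.mem_colon_singleton, Submodule.mem_colon_singleton, smul_eq_mul, smul_eq_mul,
    ← map_mul, h]

theorem theta_hom {ι F K : Type} [Fintype ι] [Field F] [Field K] (ρ : F →+* K)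
    (g₁ g₂ : Matrix ι ι K) (f : Pxy ι F) (m : ℕ × ℕ) (hf : IsWeightedHomogeneous (bw ι) f m) :
    IsWeightedHomogeneous (bw ι) (theta ρ g₁ g₂ f) m := by
  refine hom_of_gen (bw ι) ρ _ (fun a => by simp [theta]) ?_ hf
  rintro (i | i)
  · simp only [theta, coe_eval₂Hom, eval₂_X, Sum.elim_inl]
    exact IsWeightedHomogeneous.sum _ _ _ fun j _ =>
      (isWeightedHomogeneous_X K (bw ι) (Sum.inl j)).C_mul _
  · simp only [theta, coe_eval₂Hom, eval₂_X, Sum.elim_inr]
    exact IsWeightedHomogeneous.sum _ _ _ fun j _ =>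
      (isWeightedHomogeneous_X K (bw ι) (Sum.inr j)).C_mul _

theorem theta_theta {ι K : Type} [Fintype ι] [DecidableEq ι] [Field K]
    (g₁ g₂ h₁ h₂ : Matrix ι ι K) (e₁ : g₁ * h₁ = 1) (e₂ : g₂ * h₂ = 1) (f : Pxy ι K) :
    theta (RingHom.id K) h₁ h₂ (theta (RingHom.id K) g₁ g₂ f) = f := by
  have key : ∀ (g h : Matrix ι ι K) (x : ι → Pxy ι K) (i : ι), g * h = 1 →
      ∑ j, C (g i j) * ∑ k, C (h j k) * x k = x i := by
    intro g h x i e
    simp only [Finset.mul_sum, ← mul_assoc, ← map_mul]
    rw [Finset.sum_comm]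
    simp only [← Finset.sum_mul, ← map_sum, ← Matrix.mul_apply, e]
    rw [Finset.sum_eq_single i]
    · simp
    · intro k _ hk
      simp [Matrix.one_apply_ne hk.symm]
    · simp
  have : (theta (RingHom.id K) h₁ h₂).comp (theta (RingHom.id K) g₁ g₂) = RingHom.id _ := by
    refine MvPolynomial.ringHom_ext (fun a => by simp [theta]) ?_
    rintro (i | i)
    · simpa [theta, eval₂_sum] using key g₁ h₁ (fun k => X (Sum.inl k)) i e₁
    · simpa [theta, eval₂_sum] using key g₂ h₂ (fun k => X (Sum.inr k)) i e₂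
  exact DFunLike.congr_fun this f

theorem exists_equiv {ι F K : Type} [Fintype ι] [DecidableEq ι] [Field F] [Field K]
    (ρ : F →+* K) {g₁ g₂ : Matrix ι ι K} (u₁ : IsUnit g₁) (u₂ : IsUnit g₂) :
    ∃ α : Pxy ι K ≃ₐ[K] Pxy ι K,
      (∀ f m, IsWeightedHomogeneous (bw ι) f m → IsWeightedHomogeneous (bw ι) (α f) m) ∧
      (∀ f m, IsWeightedHomogeneous (bw ι) f m → IsWeightedHomogeneous (bw ι) (α.symm f) m) ∧
      theta ρ g₁ g₂ = (α : Pxy ι K →+* Pxy ι K).comp (MvPolynomial.map ρ) := by
  obtain ⟨u₁, rfl⟩ := u₁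
  obtain ⟨u₂, rfl⟩ := u₂
  refine ⟨{ theta (RingHom.id K) (u₁ : Matrix ι ι K) (u₂ : Matrix ι ι K) with
    invFun := theta (RingHom.id K) (u₁⁻¹ : (Matrix ι ι K)ˣ) (u₂⁻¹ : (Matrix ι ι K)ˣ)
    left_inv := theta_theta _ _ _ _ u₁.mul_inv u₂.mul_inv
    right_inv := theta_theta _ _ _ _ u₁.inv_mul u₂.inv_mul
    commutes' := fun a => by simp [theta] }, theta_hom _ _ _, theta_hom _ _ _, ?_⟩
  refine MvPolynomial.ringHom_ext (fun a => ?_) fun v => ?_
  · change _ = theta (RingHom.id K) _ _ (MvPolynomial.map ρ (C a))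
    simp [theta]
  · change _ = theta (RingHom.id K) _ _ (MvPolynomial.map ρ (X v))
    simp [theta]

end Hf2

theorem hfAPI2 (H : HfAPI) : HfAPI2 where
  init := fun _ _ _ _ _ _ w p J hw hJ => Hf2.init H w p J hw hJ
  theta := fun ι F K _ _ _ _ ρ g₁ g₂ J u₁ u₂ hJ => by
    refine ⟨Hf2.isHom_map H _ _ (Hf2.theta_hom ρ g₁ g₂) hJ, ?_⟩
    obtain ⟨α, h, h', e⟩ := Hf2.exists_equiv ρ u₁ u₂
    have hw : IsW (bw ι) := by
      rintro (i | i)
      · exact Or.inl rfl
      · exact Or.inr rfl
    rw [e]
    refine ⟨fun k => ?_, fun f => ?_⟩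
    · rw [← Ideal.map_map, Hf2.hf_equiv α h h', Hf2.hf_field ρ hw hJ]
    · rw [← Ideal.map_map, ← Ideal.map_map, Hf2.colon_field]
      exact Hf2.colon_equiv α.toRingEquiv _ _
  theta_hom := fun _ _ _ _ _ _ ρ g₁ g₂ f m hf => Hf2.theta_hom ρ g₁ g₂ f m hf

end Pool.Agent.MP_d45d16_ag.Yag

end MrgPart4

-- marker of a merged file
example : 731051 + 467661 = 731051 + 467661 := rfl
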