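import Pool.Agent.MP_d45d16_ag.yag.Hf2
import Pool.Agent.MP_d45d16_ag.yag.AmbRes

-- ======== part 0: formerly Pool.Agent.MP_d45d16_ag.yag.Move
section MrgPart0

/-!
The elementary moves and the key relation.
-/

set_option autoImplicit false

open AlgebraicGeometry MvPolynomial

namespace Pool.Agent.MP_d45d16_ag.Yag

namespace Move

theorem span_top {k ι : Type} [Field k] [Finite ι] {n : ℕ} (e : Fin n → ι → k)
    (he : LinearIndependent k e) (c : Fin n → MvPolynomial (Fin 2) k) (l₀ : Fin n)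
    (h : c l₀ = 1) :
    Ideal.span (Set.range fun i => ∑ l, c l * C (e l i)) = ⊤ := by
  classical
  have := Fintype.ofFinite ι
  obtain ⟨φ, hφ⟩ : ∃ φ : (ι → k) →ₗ[k] k, ∀ l, φ (e l) = if l = l₀ then 1 else 0 := by
    obtain ⟨g, hg⟩ := (Finsupp.linearCombination k e).exists_leftInverse_of_injective
      (LinearMap.ker_eq_bot.mpr he)
    refine ⟨(Finsupp.lapply l₀).comp g, fun l => ?_⟩
    have h1 := LinearMap.congr_fun hg (Finsupp.single l 1)
    simp only [LinearMap.comp_apply, Finsupp.linearCombination_single, one_smul,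
      LinearMap.id_apply] at h1
    simp [h1, Finsupp.single_apply]
  rw [Ideal.eq_top_iff_one]
  have h2 : ∑ i, C (φ (Pi.single i 1)) * ∑ l, c l * C (e l i) = (1 : MvPolynomial (Fin 2) k) := by
    have h3 : ∀ l, ∑ i, φ (Pi.single i 1) * e l i = if l = l₀ then 1 else 0 := fun l => by
      rw [← hφ l]
      conv_rhs => rw [pi_eq_sum_univ' (e l), map_sum]
      simp [mul_comm]
    simp only [Finset.mul_sum]
    rw [Finset.sum_comm]
    have h4 : ∀ l, ∑ i, C (φ (Pi.single i 1)) * (c l * C (e l i)) =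
        c l * C (if l = l₀ then 1 else 0) := fun l => by
      rw [← h3 l, map_sum, Finset.mul_sum]
      refine Finset.sum_congr rfl fun i _ => ?_
      rw [map_mul]; ring
    simp only [h4]
    rw [Finset.sum_eq_single l₀ (fun l _ hl => by simp [hl]) (by simp)]
    simp [h]
  rw [← h2]
  exact Ideal.sum_mem _ fun i _ => Ideal.mul_mem_left _ _ (Ideal.subset_span ⟨i, rfl⟩)

theorem sat_map {F ι C D : Type} [Field F] [CommRing C] [CommRing D] {I : Set (MvPolynomial ι F)}
    {c : F →+* C} {w : ι → C} (h : Sat I c w) (τ : C →+* D) :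
    Sat I (τ.comp c) fun i => τ (w i) := fun f hf => by
  have h1 := congrArg τ (h f hf)
  rw [eval₂_comp_left, map_zero] at h1
  exact h1

theorem dpGen (dp : DpStmt) {F k ι : Type} [Field F] [Field k] [Algebra F k] [Finite ι]
    (M : Amb F k ι) (p : ι → k) {n : ℕ} (e : Fin n → ι → k) (hp : p ≠ 0)
    (hs : Sat M.I₁ (algebraMap F k) p) (he : LinearIndependent k e)
    (c : Fin 5 → Fin n → MvPolynomial (Fin 2) k) (w : Fin n → K2 k) (m : Fin 5 → K2 k)
    (h1 : ∀ j, ∃ l, c j l = 1) (h2 : ∀ j l, aeval (co k j) (c j l) = m j * w l)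
    (h3 : Sat M.I₂ ((algebraMap k (K2 k)).comp (algebraMap F k))
      fun i => ∑ l, w l * algebraMap k (K2 k) (e l i)) :
    ∃ xC xA xB xE : Omega1 M.s,
      M.HasCls (vec ![p] ![1]) (vec e fun l => aeval ![0, RatFunc.X] (c 0 l)) xC ∧
      M.HasCls (vec ![p] ![1]) (vec e fun l => aeval ![RatFunc.X, 0] (c 1 l)) xA ∧
      M.HasCls (vec ![p] ![1]) (vec e fun l => aeval ![0, RatFunc.X] (c 3 l)) xB ∧
      M.HasCls (vec ![p] ![1]) (vec e fun l => aeval ![0, 0] (c 2 l)) xE ∧
      xC = xA + xB - xE := by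
  have hA : Ideal.span (Set.range fun i => (C (p i) : MvPolynomial (Fin 2) k)) = ⊤ := by
    obtain ⟨i, hi⟩ := Function.ne_iff.mp hp
    exact Ideal.eq_top_of_isUnit_mem _ (Ideal.subset_span ⟨i, rfl⟩)
      ((IsUnit.mk0 _ hi).map C)
  have h := dp F k ι M (fun _ i => C (p i)) (fun j i => ∑ l, c j l * C (e l i))
    (fun i => algebraMap k (K2 k) (p i)) (fun i => ∑ l, w l * algebraMap k (K2 k) (e l i))
    (fun _ => 1) m (fun _ => hA)
    (fun j => (h1 j).elim fun l hl => span_top e he (c j) l hl)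
    (fun j i => by simp)
    (fun j i => by
      simp only [map_sum, map_mul, aeval_C, h2, Finset.mul_sum, mul_assoc])
    (sat_map hs _) h3
  have e1 : ∀ z : Fin 2 → RatFunc k,
      (fun i => aeval z (C (p i) : MvPolynomial (Fin 2) k)) = vec ![p] ![1] := fun z => by
    ext i; simp [vec]
  have e2 : ∀ (z : Fin 2 → RatFunc k) (j : Fin 5),
      (fun i => aeval z (∑ l, c j l * C (e l i))) = vec e fun l => aeval z (c j l) := fun z j => by
    ext i; simp [vec]
  simpa only [e1, e2] using h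

theorem a_ne (k : Type) [Field k] :
    algebraMap (MvPolynomial (Fin 2) k) (K2 k) (X 0) ≠ 0 :=
  (map_ne_zero_iff _ (IsFractionRing.injective _ _)).mpr (X_ne_zero _)

theorem b_ne (k : Type) [Field k] :
    algebraMap (MvPolynomial (Fin 2) k) (K2 k) (X 1) ≠ 0 :=
  (map_ne_zero_iff _ (IsFractionRing.injective _ _)).mpr (X_ne_zero _)

theorem same (iso : IsoAPI) {F k ι : Type} [Field F] [Field k] [Algebra F k] {M : Amb F k ι}
    {a b : ι → RatFunc k} {x x' : Omega1 M.s} (h : M.HasCls a b x) (h' : M.HasCls a b x') :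
    x = x' :=
  iso.uniq F k ι M a b a b 1 1 x x' (by simp) (by simp) h h'

end Move

open Move

/-- The three elementary moves. -/
theorem moveAPI (dp : DpStmt) (iso : IsoAPI) : MoveAPI where
  conic := by
    intro F k ι _ _ _ _ M p e hp hs he h
    have ha := a_ne k
    have hb := b_ne k
    set a := algebraMap (MvPolynomial (Fin 2) k) (K2 k) (X 0) with ha'
    set b := algebraMap (MvPolynomial (Fin 2) k) (K2 k) (X 1) with hb'
    obtain ⟨xC, xA, xB, xE, h1, h2, h3, h4, h5⟩ := dpGen dp M p e hp hs he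
      ![![X 1 ^ 2, X 1, 1, X 0 * X 1, X 0], ![X 1 * X 0 ^ 2, X 1 * X 0, X 1, X 0, 1],
        ![X 0, X 0 * X 1, X 0 * X 1 ^ 2, 1, X 1],
        ![1, X 0 * X 1, X 0 ^ 2 * X 1 ^ 2, X 1, X 0 * X 1 ^ 2],
        ![1, X 0, X 0 ^ 2, X 0 * X 1, X 0 ^ 2 * X 1]]
      ![b ^ 2, b, 1, a * b, a] ![1, a⁻¹, (a * b)⁻¹, (b ^ 2)⁻¹, (b ^ 2)⁻¹]
      (fun j => by
        fin_cases j
        exacts [⟨2, rfl⟩, ⟨4, rfl⟩, ⟨3, rfl⟩, ⟨0, rfl⟩, ⟨0, rfl⟩])
      (fun j l => by
        fin_cases j <;> fin_cases l <;> simp [co, ← ha', ← hb'] <;> field_simp)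
      (h _ _ (by simp))
    refine ⟨xC, xA, xB, xE, ?_, ?_, ?_, ?_, h5⟩
    · convert h1 using 2
      ext l; fin_cases l <;> simp
    · convert h2 using 1
      ext i; simp [vec, Fin.sum_univ_five, add_comm]
    · convert h3 using 1
      ext i; simp [vec, Fin.sum_univ_five]
    · convert h4 using 1
      ext i; simp [vec, Fin.sum_univ_five]
  plane := by
    intro F k ι _ _ _ _ M p e hp hs he h
    have ha := a_ne k
    have hb := b_ne k
    set a := algebraMap (MvPolynomial (Fin 2) k) (K2 k) (X 0) with ha'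
    set b := algebraMap (MvPolynomial (Fin 2) k) (K2 k) (X 1) with hb'
    obtain ⟨xC, xA, xB, xE, h1, h2, h3, h4, h5⟩ := dpGen dp M p e hp hs he
      ![![X 0, X 1, 1], ![1, X 0 * X 1, X 1], ![1, X 0, X 0 * X 1], ![X 1, 1, X 0 * X 1],
        ![X 0 * X 1, 1, X 0]]
      ![a, b, 1] ![1, a⁻¹, a⁻¹, b⁻¹, b⁻¹]
      (fun j => by
        fin_cases j
        exacts [⟨2, rfl⟩, ⟨0, rfl⟩, ⟨0, rfl⟩, ⟨1, rfl⟩, ⟨1, rfl⟩])
      (fun j l => by
        fin_cases j <;> fin_cases l <;> simp [co, ← ha', ← hb'] <;> field_simp)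
      (h _ _)
    have h6 : xA = xE := by
      refine same iso h2 ?_
      convert h4 using 2
      ext l; fin_cases l <;> simp
    refine ⟨xC, ?_, ?_⟩
    · convert h1 using 1
      ext i; simp [vec, Fin.sum_univ_three, add_comm]
    · rw [h5, h6, add_sub_cancel_left]
      convert h3 using 1
      ext i; simp [vec, Fin.sum_univ_three, add_comm]
  point := by
    intro F k ι _ _ _ _ M p e hp hs he h
    have ha := a_ne k
    have hb := b_ne k
    set a := algebraMap (MvPolynomial (Fin 2) k) (K2 k) (X 0) with ha'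
    set b := algebraMap (MvPolynomial (Fin 2) k) (K2 k) (X 1) with hb'
    obtain ⟨xC, xA, xB, xE, h1, h2, h3, h4, h5⟩ := dpGen dp M p e hp hs he
      ![![X 0, 1], ![1, X 1], ![1, X 0 * X 1], ![1, X 0], ![X 1, 1]]
      ![a, 1] ![1, a⁻¹, a⁻¹, a⁻¹, 1]
      (fun j => by
        fin_cases j
        exacts [⟨1, rfl⟩, ⟨0, rfl⟩, ⟨0, rfl⟩, ⟨0, rfl⟩, ⟨1, rfl⟩])
      (fun j l => by
        fin_cases j <;> fin_cases l <;> simp [co, ← ha', ← hb'] <;> field_simp)
      (h _ _)
    have h6 : xA = xE := by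
      refine same iso h2 ?_
      convert h4 using 2
      ext l; fin_cases l <;> simp
    refine ⟨xC, ?_, ?_⟩
    · rw [h5, h6, add_sub_cancel_left]
      convert h3 using 1
      ext i; simp [vec]
    · convert h1 using 1
      ext i; simp [vec]

namespace Move

variable {F k ι : Type} [Field F] [Field k] [Algebra F k]

theorem sat_alg {I : Set (MvPolynomial ι F)} (g : Frame I) {n : ℕ} (c : Fin n → Fin 7 → k)
    (C : Type) [CommRing C] [Algebra k C] (w : Fin n → C)
    (h : ∑ j, algebraMap k C (algebraMap F k (g.α j)) * (∑ l, w l * algebraMap k C (c l j)) ^ 2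
      = 0) :
    Sat I ((algebraMap k C).comp (algebraMap F k))
      fun i => ∑ l, w l * algebraMap k C (g.comb (algebraMap F k) (c l) i) := by
  have h1 := g.sat_comb ((algebraMap k C).comp (algebraMap F k))
    (w := fun j => ∑ l, w l * algebraMap k C (c l j)) h
  refine (congrArg _ ?_).mp h1
  ext i
  simp only [Frame.comb, map_sum, map_mul, Finset.sum_mul, Finset.mul_sum, RingHom.comp_apply]
  rw [Finset.sum_comm]
  simp [mul_assoc]

theorem line [Finite ι] (mv : MoveAPI) (N : Amb F k ι) (g : Frame N.I₂) (p : ι → k) (hp : p ≠ 0)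
    (hs : Sat N.I₁ (algebraMap F k) p) (u v w : Fin 7 → k)
    (hi : ∀ x y z : k, x • w + y • v + z • u = 0 → x = 0 ∧ y = 0 ∧ z = 0)
    (h : ∀ (C : Type) [CommRing C] [Algebra k C] (x y z : C),
      ∑ j, algebraMap k C (algebraMap F k (g.α j)) *
        (x * algebraMap k C (w j) + y * algebraMap k C (v j) + z * algebraMap k C (u j)) ^ 2 = 0) :
    ∃ x : Omega1 N.s,
      N.HasCls (vec ![p] ![1])
        (vec ![g.comb (algebraMap F k) u, g.comb (algebraMap F k) v] ![1, RatFunc.X]) x ∧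
      N.HasCls (vec ![p] ![1])
        (vec ![g.comb (algebraMap F k) v, g.comb (algebraMap F k) w] ![1, RatFunc.X]) x := by
  have hi' : LinearIndependent k ![w, v, u] := by
    rw [Fintype.linearIndependent_iff]
    intro c hc l
    obtain ⟨h0, h1, h2⟩ := hi (c 0) (c 1) (c 2) (by simpa [Fin.sum_univ_three] using hc)
    fin_cases l <;> assumption
  exact mv.plane F k ι N p (fun l => g.comb (algebraMap F k) (![w, v, u] l)) hp hs
    (g.indep_comb _ hi') fun C _ _ z => sat_alg g _ C z (by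
      simpa [Fin.sum_univ_three] using h C (z 0) (z 1) (z 2))

theorem conicField [CharZero k] (α : Fin 3 → k) (r : k) (h0 : α 0 ≠ 0) (h1 : α 1 ≠ 0)
    (h2 : α 2 = α 0 * α 1) (hr : r ^ 2 = -α 0) :
    ConicField α
      (algebraMap k (RatFunc k) r * (RatFunc.X ^ 2 + (algebraMap k (RatFunc k) (α 1))⁻¹) /
        (2 * RatFunc.X))
      ((RatFunc.X ^ 2 - (algebraMap k (RatFunc k) (α 1))⁻¹) / (2 * RatFunc.X)) := by
  have hX : (RatFunc.X : RatFunc k) ≠ 0 := RatFunc.X_ne_zero
  have hc : CharZero (RatFunc k) := algebraRat.charZero _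
  have hr0 : r ≠ 0 := by
    rintro rfl
    exact h0 (by simpa using hr.symm)
  have hr1 : algebraMap k (RatFunc k) r ≠ 0 := (map_ne_zero _).mpr hr0
  have h1' : algebraMap k (RatFunc k) (α 1) ≠ 0 := (map_ne_zero _).mpr h1
  have h2' : algebraMap k (RatFunc k) (α 2) ≠ 0 := (map_ne_zero _).mpr (h2 ▸ mul_ne_zero h0 h1)
  have hr2 : algebraMap k (RatFunc k) (α 0) = -algebraMap k (RatFunc k) r ^ 2 := by
    rw [← map_pow, hr, map_neg, neg_neg]
  set x := algebraMap k (RatFunc k) r * (RatFunc.X ^ 2 + (algebraMap k (RatFunc k) (α 1))⁻¹) /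
        (2 * RatFunc.X) with hx
  set y := (RatFunc.X ^ 2 - (algebraMap k (RatFunc k) (α 1))⁻¹) / (2 * RatFunc.X) with hy
  have e1 : algebraMap k (RatFunc k) (α 0) + algebraMap k (RatFunc k) (α 1) * x ^ 2 +
      algebraMap k (RatFunc k) (α 2) * y ^ 2 = 0 := by
    rw [h2, map_mul, hr2, hx, hy]
    field_simp
    ring
  have e2 : RatFunc.X = algebraMap k (RatFunc k) r⁻¹ * x + y := by
    rw [map_inv₀, hx, hy]
    field_simp
    ring
  refine ⟨e1, ?_, fun hal => ?_⟩
  · rw [eq_top_iff, ← RatFunc.adjoin_X, IntermediateField.adjoin_simple_le_iff, e2]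
    exact add_mem (mul_mem (IntermediateField.algebraMap_mem _ _)
      (IntermediateField.subset_adjoin _ _ (by simp)))
      (IntermediateField.subset_adjoin _ _ (by simp))
  · have hxi : IsIntegral k x := hal.isIntegral
    have e3 : y ^ 2 = algebraMap k (RatFunc k) (-(α 2)⁻¹) *
        (algebraMap k (RatFunc k) (α 0) + algebraMap k (RatFunc k) (α 1) * x ^ 2) := by
      rw [map_neg, map_inv₀]
      field_simp
      linear_combination e1
    have hyi : IsIntegral k y := by
      refine IsIntegral.of_pow (n := 2) (by norm_num) ?_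
      rw [e3]
      exact isIntegral_algebraMap.mul
        (isIntegral_algebraMap.add (isIntegral_algebraMap.mul (hxi.pow 2)))
    refine RatFunc.transcendental_X (K := k) (IsIntegral.isAlgebraic ?_)
    rw [e2]
    exact (isIntegral_algebraMap.mul hxi).add hyi

end Move

/-- The key relation. -/
theorem key_stmt (mv : MoveAPI) (iso : IsoAPI) : KeyStmt := by
  intro F k ι _ _ _ _ _ _ N g r hr
  have hk : CharZero k := charZero_of_injective_algebraMap (algebraMap F k).injective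
  have hne : ∀ j, algebraMap F k (g.α j) ≠ 0 := fun j => (map_ne_zero _).mpr (g.ne j)
  have hr' : r ^ 2 = -algebraMap F k (g.α 0) := by rw [hr, map_neg]
  have h2 : algebraMap F k (g.α 2) = algebraMap F k (g.α 0) * algebraMap F k (g.α 1) := by
    rw [g.two, map_mul]
  have h4 : algebraMap F k (g.α 4) = algebraMap F k (g.α 0) * algebraMap F k (g.α 3) := by
    rw [g.four, map_mul]
  have hr0 : r ≠ 0 := by
    rintro rfl
    exact hne 0 (by simpa using hr'.symm)
  obtain ⟨ρ, hρ⟩ := IsAlgClosed.exists_pow_nat_eq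
    (-algebraMap F k (g.α 6) / algebraMap F k (g.α 5)) (n := 2) (by norm_num)
  have h6 : algebraMap F k (g.α 6) = -(algebraMap F k (g.α 5) * ρ ^ 2) := by
    rw [hρ]; field_simp [hne 5]
  have h0 : algebraMap F k (g.α 0) = -r ^ 2 := by rw [hr', neg_neg]
  refine ⟨_, _, conicField (fun l : Fin 3 => algebraMap F k (g.α (l.castLE (by norm_num)))) r
    (hne 0) (hne 1) h2 hr', fun p xC x₁ x₂ hp hs hC h₁ h₂ => ?_⟩
  set β := (algebraMap F k (g.α 1))⁻¹ with hβ
  have hβ1 : algebraMap F k (g.α 1) * β = 1 := mul_inv_cancel₀ (hne 1)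
  have hβ0 : β ≠ 0 := inv_ne_zero (hne 1)
  have hi : LinearIndependent k (![![0, r, 1, 0, 0, 0, 0], ![2, 0, 0, 0, 0, 0, 0],
      ![0, r * β, -β, 0, 0, 0, 0], ![0, 0, 0, r, 1, 0, 0], ![0, 0, 0, 0, 0, ρ, 1]] :
      Fin 5 → Fin 7 → k) := by
    rw [Fintype.linearIndependent_iff]
    intro c hc l
    have e0 := congrFun hc 0
    have e1 := congrFun hc 1
    have e2 := congrFun hc 2
    have e4 := congrFun hc 4
    have e6 := congrFun hc 6
    simp [Fin.sum_univ_five] at e0 e1 e2 e4 e6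
    have e7 : c 0 = 0 := by
      have : (2 * r) * c 0 = 0 := by linear_combination e1 + r * e2
      simpa [hr0] using this
    have e8 : c 2 = 0 := by simpa [e7, hβ0] using e2
    fin_cases l <;> assumption
  obtain ⟨yC, yA, yB, yE, k1, k2, k3, k4, k5⟩ := mv.conic F k ι N p _ hp hs
    (g.indep_comb (algebraMap F k) hi) fun C _ _ w hw => sat_alg g _ C w (by
      have a1 := congrArg (algebraMap k C) hβ1
      simp only [map_mul, map_one] at a1
      simp only [Fin.sum_univ_seven, Fin.sum_univ_five, h2, h4, h6, h0]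
      simp only [Matrix.cons_val, map_mul, map_neg, map_pow, map_zero, map_one, map_ofNat]
      linear_combination (4 * algebraMap k C r ^ 2) * hw +
        (4 * algebraMap k C r ^ 2 * w 0 * w 2) * a1)
  obtain ⟨z₁, l1, l2⟩ := line mv N g p hp hs ![0, -r, 1, 0, 0, 0, 0] ![0, 0, 0, 0, 0, ρ, 1]
    ![0, 0, 0, r, 1, 0, 0]
    (fun x y z h => ⟨by simpa using congrFun h 4, by simpa using congrFun h 6,
      by simpa using congrFun h 2⟩)
    (fun C _ _ x y z => by
      simp only [Fin.sum_univ_seven, h2, h4, h6, h0]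
      simp only [Matrix.cons_val, map_mul, map_neg, map_pow, map_zero, map_one]
      ring)
  obtain ⟨z₂, l3, l4⟩ := line mv N g p hp hs ![0, 0, 0, -r, 1, ρ, 1] ![0, -r, 1, 0, 0, 0, 0]
    ![0, 0, 0, 0, 0, ρ, 1]
    (fun x y z h => by
      have e4 : z = 0 := by simpa using congrFun h 4
      exact ⟨by simpa [e4] using congrFun h 6, by simpa using congrFun h 2, e4⟩)
    (fun C _ _ x y z => by
      simp only [Fin.sum_univ_seven, h2, h4, h6, h0]
      simp only [Matrix.cons_val, map_mul, map_neg, map_pow, map_zero, map_one]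
      ring)
  obtain ⟨z₃, l5, l6⟩ := line mv N g p hp hs ![0, 0, 0, -r, 1, ρ, 1] ![0, -r, 1, 0, 0, 0, 0]
    ![0, 0, 0, -r, 1, 0, 0]
    (fun x y z h => by
      have e4 : z = 0 := by simpa using congrFun h 6
      exact ⟨by simpa [e4] using congrFun h 4, by simpa using congrFun h 2, e4⟩)
    (fun C _ _ x y z => by
      simp only [Fin.sum_univ_seven, h2, h4, h6, h0]
      simp only [Matrix.cons_val, map_mul, map_neg, map_pow, map_zero, map_one]
      ring)
  rw [Frame.n₁_eq, Frame.n₂_eq] at h₁ h₂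
  have q1 : yB = x₁ := same iso k3 h₁
  have q2 : yA = x₂ :=
    (same iso k2 l2).trans ((same iso l1 l4).trans ((same iso l3 l5).trans (same iso l6 h₂)))
  have q3 : xC = yC := by
    refine iso.uniq F k ι N _ _ _ _ 1 (2 * RatFunc.X) xC yC (by simp) (fun i => ?_) hC k1
    have hX : (RatFunc.X : RatFunc k) ≠ 0 := RatFunc.X_ne_zero
    have hc : CharZero (RatFunc k) := algebraRat.charZero _
    simp only [vec, Frame.comb, Fin.sum_univ_seven, Fin.sum_univ_five, Fin.sum_univ_three]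
    simp only [Matrix.cons_val, map_add, map_mul, map_neg, map_zero, map_one, map_ofNat, hβ,
      map_inv₀]
    change _ = _ * (1 * algebraMap k (RatFunc k) (algebraMap F k (g.f 0 i)) +
      algebraMap k (RatFunc k) r *
        (RatFunc.X ^ 2 + (algebraMap k (RatFunc k) (algebraMap F k (g.α 1)))⁻¹) /
        (2 * RatFunc.X) * algebraMap k (RatFunc k) (algebraMap F k (g.f 1 i)) +
      (RatFunc.X ^ 2 - (algebraMap k (RatFunc k) (algebraMap F k (g.α 1)))⁻¹) /
        (2 * RatFunc.X) * algebraMap k (RatFunc k) (algebraMap F k (g.f 2 i)))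
    generalize (algebraMap k (RatFunc k) (algebraMap F k (g.α 1)))⁻¹ = γ
    field_simp
    ring
  refine ⟨yE, by rw [Frame.n₂_eq]; exact k4, ?_⟩
  rw [q3, k5, q1, q2, add_comm]

end Pool.Agent.MP_d45d16_ag.Yag

end MrgPart0

-- ======== part 1: formerly Pool.Agent.MP_d45d16_ag.yag.Sp
section MrgPart1

/-!
The cycle of a specialisation.
-/

set_option autoImplicit false

open MvPolynomial Filter

namespace Pool.Agent.MP_d45d16_ag.Yag

namespace Sp

theorem map_comp {σ A B M : Type} [CommRing A] [CommRing B] [AddCommMonoid M] (ρ : A →+* B)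
    (w : σ → M) (m : M) (f : MvPolynomial σ A) :
    MvPolynomial.map ρ (weightedHomogeneousComponent w m f) =
      weightedHomogeneousComponent w m (MvPolynomial.map ρ f) := by
  classical
  ext e
  rw [coeff_map, coeff_weightedHomogeneousComponent, coeff_weightedHomogeneousComponent, coeff_map]
  split_ifs <;> simp

theorem hom_comap {σ A B : Type} [CommRing A] [CommRing B] (ρ : A →+* B) (w : σ → ℕ × ℕ)
    (J : Ideal (MvPolynomial σ B)) (h : IsHom w J) :
    IsHom w (J.comap (MvPolynomial.map ρ)) := by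
  intro f hf m
  rw [Ideal.mem_comap, map_comp]
  exact h _ hf m

theorem weight_xw {ι : Type} (e : (ι ⊕ ι) →₀ ℕ) :
    Finsupp.weight (xw ι) e = (Finsupp.weight (bw ι) e).1 := by
  rw [Finsupp.weight_apply, Finsupp.weight_apply, Finsupp.sum, Finsupp.sum, Prod.fst_sum]
  refine Finset.sum_congr rfl fun v _ => ?_
  rcases v with v | v <;> simp [xw, bw]

theorem xcomp_mem {ι A : Type} [CommRing A] (J : Ideal (Pxy ι A)) (h : IsHom (bw ι) J) (d : ℕ)
    (f : Pxy ι A) (hf : f ∈ J) : weightedHomogeneousComponent (xw ι) d f ∈ J := by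
  classical
  have key : weightedHomogeneousComponent (xw ι) d f =
      ∑ m ∈ (f.support.image (Finsupp.weight (bw ι))).filter (fun m => m.1 = d),
        weightedHomogeneousComponent (bw ι) m f := by
    ext e
    rw [coeff_sum, coeff_weightedHomogeneousComponent, weight_xw]
    simp only [coeff_weightedHomogeneousComponent]
    rw [Finset.sum_ite_eq]
    by_cases he : e ∈ f.support
    · have : Finsupp.weight (bw ι) e ∈ f.support.image (Finsupp.weight (bw ι)) :=
        Finset.mem_image_of_mem _ he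
      simp only [Finset.mem_filter, this, true_and]
    · rw [notMem_support_iff.mp he]
      simp
  rw [key]
  exact J.sum_mem fun m _ => h f hf m

theorem map_alg {ι A B : Type} [CommRing A] [CommRing B] (ρ : A →+* B) (b : By ι A) :
    MvPolynomial.map ρ (algebraMap (By ι A) (Pxy ι A) b) =
      algebraMap (By ι B) (Pxy ι B) (MvPolynomial.map ρ b) := by
  rw [algBP_apply, algBP_apply, map_rename]

theorem smul_mk' {ι A : Type} [CommRing A] (J : Ideal (Pxy ι A)) (b : By ι A) (f : Pxy ι A) :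
    b • Ideal.Quotient.mk J f = Ideal.Quotient.mk J (algebraMap (By ι A) (Pxy ι A) b * f) := rfl

/-- The semilinear map between the quotients. -/
noncomputable def qMap {ι A B : Type} [CommRing A] [CommRing B] (ρ : A →+* B)
    (J : Ideal (Pxy ι A)) (J' : Ideal (Pxy ι B)) (h : J ≤ J'.comap (MvPolynomial.map ρ)) :
    (Pxy ι A ⧸ J) →ₛₗ[(MvPolynomial.map ρ : By ι A →+* By ι B)] (Pxy ι B ⧸ J') where
  toFun := Ideal.quotientMap J' (MvPolynomial.map ρ) h
  map_add' := map_add _
  map_smul' := fun b x => by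
    obtain ⟨x, rfl⟩ := Ideal.Quotient.mk_surjective x
    rw [smul_mk', Ideal.quotientMap_mk, Ideal.quotientMap_mk, smul_mk', map_mul, map_alg]

theorem qMap_mk {ι A B : Type} [CommRing A] [CommRing B] (ρ : A →+* B)
    (J : Ideal (Pxy ι A)) (J' : Ideal (Pxy ι B)) (h : J ≤ J'.comap (MvPolynomial.map ρ))
    (f : Pxy ι A) :
    qMap ρ J J' h (Ideal.Quotient.mk J f) = Ideal.Quotient.mk J' (MvPolynomial.map ρ f) :=
  Ideal.quotientMap_mk (H := h)

theorem mem_Md {ι A : Type} [CommRing A] (J : Ideal (Pxy ι A)) (d : ℕ) (x : Pxy ι A ⧸ J) :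
    x ∈ Md J d ↔ ∃ f, IsWeightedHomogeneous (xw ι) f d ∧ Ideal.Quotient.mk J f = x := Iff.rfl

theorem hom_map {σ A B M : Type} [CommRing A] [CommRing B] [AddCommMonoid M] (ρ : A →+* B)
    (w : σ → M) (m : M) (f : MvPolynomial σ A) (hf : IsWeightedHomogeneous w f m) :
    IsWeightedHomogeneous w (MvPolynomial.map ρ f) m := by
  intro e he
  apply hf
  intro h0
  rw [coeff_map, h0, map_zero] at he
  exact he rfl

/-- The semilinear map between the graded pieces. -/
noncomputable def mdMap {ι A B : Type} [CommRing A] [CommRing B] (ρ : A →+* B)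
    (J : Ideal (Pxy ι A)) (J' : Ideal (Pxy ι B)) (h : J ≤ J'.comap (MvPolynomial.map ρ)) (d : ℕ) :
    Md J d →ₛₗ[(MvPolynomial.map ρ : By ι A →+* By ι B)] Md J' d :=
  LinearMap.codRestrict (Md J' d) ((qMap ρ J J' h).domRestrict (Md J d)) fun x => by
    obtain ⟨f, hf, hx⟩ := (mem_Md J d x.1).mp x.2
    refine (mem_Md J' d _).mpr ⟨MvPolynomial.map ρ f, hom_map ρ _ _ _ hf, ?_⟩
    rw [LinearMap.domRestrict_apply, ← hx, qMap_mk]

theorem mdMap_val {ι A B : Type} [CommRing A] [CommRing B] (ρ : A →+* B)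
    (J : Ideal (Pxy ι A)) (J' : Ideal (Pxy ι B)) (h : J ≤ J'.comap (MvPolynomial.map ρ)) (d : ℕ)
    (x : Md J d) : (mdMap ρ J J' h d x).1 = qMap ρ J J' h x.1 := rfl

theorem smul_mk {ι A : Type} [CommRing A] (J : Ideal (Pxy ι A)) (c : A) (f : Pxy ι A) :
    (C c : By ι A) • Ideal.Quotient.mk J f = Ideal.Quotient.mk J (C c * f) := by
  rw [smul_mk', algBP_apply, rename_C]

variable {E K : Type} [Field E] [Field K] (p : Place E K)

theorem clear {σ : Type} (x : MvPolynomial σ E) :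
    ∃ v : p.V, v ≠ 0 ∧ ∃ r : MvPolynomial σ p.V,
      MvPolynomial.map p.V.subtype r = C (v : E) * x := by
  induction x using MvPolynomial.induction_on with
  | C a =>
    by_cases ha : a ∈ p.V
    · exact ⟨1, one_ne_zero, C ⟨a, ha⟩, by simp⟩
    · have ha' : a⁻¹ ∈ p.V := (p.V.mem_or_inv_mem a).resolve_left ha
      have h0 : a ≠ 0 := fun h => ha (h ▸ p.V.zero_mem)
      refine ⟨⟨a⁻¹, ha'⟩, fun h => inv_ne_zero h0 (congrArg Subtype.val h), 1, ?_⟩
      rw [map_one, ← C_mul, inv_mul_cancel₀ h0, C_1]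
  | add f g hf hg =>
    obtain ⟨v, hv, r, hr⟩ := hf
    obtain ⟨v', hv', r', hr'⟩ := hg
    refine ⟨v * v', mul_ne_zero hv hv', C v' * r + C v * r', ?_⟩
    rw [map_add, map_mul, map_mul, map_C, map_C, hr, hr']
    simp only [ValuationSubring.subtype_apply, MulMemClass.coe_mul, C_mul]
    ring
  | mul_X f i hf =>
    obtain ⟨v, hv, r, hr⟩ := hf
    exact ⟨v, hv, r * X i, by rw [map_mul, hr, map_X, mul_assoc]⟩

theorem C_notMem {σ : Type} (s : PrimeSpectrum (MvPolynomial σ E)) (v : p.V) (hv : v ≠ 0) :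
    (C v : MvPolynomial σ p.V) ∉ s.asIdeal.comap (MvPolynomial.map p.V.subtype) := by
  intro h
  rw [Ideal.mem_comap, map_C] at h
  refine s.isPrime.ne_top (Ideal.eq_top_of_isUnit_mem _ h ?_)
  have : (p.V.subtype v : E) ≠ 0 := fun h0 => hv (Subtype.ext h0)
  exact (IsUnit.mk0 _ this).map C

theorem comap_inj {σ : Type} : Function.Injective
    (PrimeSpectrum.comap (MvPolynomial.map p.V.subtype :
      MvPolynomial σ p.V →+* MvPolynomial σ E)) := by
  have key : ∀ s s' : PrimeSpectrum (MvPolynomial σ E),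
      s.asIdeal.comap (MvPolynomial.map p.V.subtype) =
        s'.asIdeal.comap (MvPolynomial.map p.V.subtype) → s.asIdeal ≤ s'.asIdeal := by
    intro s s' h x hx
    obtain ⟨v, hv, r, hr⟩ := clear p x
    have h1 : r ∈ s.asIdeal.comap (MvPolynomial.map p.V.subtype) := by
      rw [Ideal.mem_comap, hr]
      exact s.asIdeal.mul_mem_left _ hx
    rw [h, Ideal.mem_comap, hr] at h1
    refine (s'.isPrime.mem_or_mem h1).resolve_left fun h2 => C_notMem p s' v hv ?_
    rw [Ideal.mem_comap, map_C]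
    exact h2
  intro s s' h
  have h' := congrArg PrimeSpectrum.asIdeal h
  exact PrimeSpectrum.ext (le_antisymm (key s s' h') (key s' s h'.symm))

theorem ker_r {σ : Type} (t : p.V) (ht : ∀ v, p.r v = 0 ↔ t ∣ v) :
    RingHom.ker (MvPolynomial.map p.r : MvPolynomial σ p.V →+* MvPolynomial σ K) =
      Ideal.span {C t} := by
  have : RingHom.ker p.r = Ideal.span {t} := by
    ext v
    rw [RingHom.mem_ker, ht, Ideal.mem_span_singleton]
  rw [ker_map, this, Ideal.map_span, Set.image_singleton]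

theorem mem_map_r {σ : Type} (t : p.V) (ht : ∀ v, p.r v = 0 ↔ t ∣ v)
    (I : Ideal (MvPolynomial σ p.V)) :
    (I.map (MvPolynomial.map p.r)).comap (MvPolynomial.map p.r) = I ⊔ Ideal.span {C t} := by
  rw [Ideal.comap_map_of_surjective _ (map_surjective _ p.surj), ← ker_r p t ht]
  rfl

/-- Transfer to the generic fibre. -/
theorem len_gen (hL : LenAPI) {ι : Type} (J : Ideal (Pxy ι E)) (d : ℕ)
    (s : PrimeSpectrum (By ι E)) :
    lenAt (PrimeSpectrum.comap (MvPolynomial.map p.V.subtype : By ι p.V →+* By ι E) s)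
      (Md (J.comap (MvPolynomial.map p.V.subtype)) d) = lenAt s (Md J d) := by
  refine hL.loc _ _ _ _ _ (mdMap p.V.subtype _ J le_rfl d) s _ rfl ?_ ?_ ?_
  · intro x
    obtain ⟨v, hv, r, hr⟩ := clear p x
    exact ⟨C v, r, C_notMem p s v hv, by rw [hr, map_C]; rfl⟩
  · rintro ⟨x, hx⟩
    obtain ⟨f, hf, rfl⟩ := (mem_Md J d x).mp hx
    obtain ⟨v, hv, r, hr⟩ := clear p f
    refine ⟨C v, ⟨Ideal.Quotient.mk _ (weightedHomogeneousComponent (xw ι) d r),
      (mem_Md _ d _).mpr ⟨_, weightedHomogeneousComponent_isWeightedHomogeneous _ _, rfl⟩⟩,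
      C_notMem p s v hv, Subtype.ext ?_⟩
    rw [mdMap_val, qMap_mk, map_comp, hr, weightedHomogeneousComponent_C_mul,
      weightedHomogeneousComponent_eq_self hf, map_C]
    exact smul_mk J _ f
  · rintro ⟨x, hx⟩ h0
    obtain ⟨f, hf, rfl⟩ := (mem_Md _ d x).mp hx
    have h1 := congrArg Subtype.val h0
    rw [mdMap_val, qMap_mk] at h1
    refine ⟨1, fun h => (PrimeSpectrum.isPrime _).ne_top ((Ideal.eq_top_iff_one _).mpr h), ?_⟩
    rw [one_smul]
    exact Subtype.ext (Ideal.Quotient.eq_zero_iff_mem.mpr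
      (Ideal.mem_comap.mpr (Ideal.Quotient.eq_zero_iff_mem.mp h1)))

/-- Transfer to the special fibre, cyclic modules. -/
theorem len_cyc (hL : LenAPI) {σ : Type} (t : p.V) (ht : ∀ v, p.r v = 0 ↔ t ∣ v)
    (I : Ideal (MvPolynomial σ p.V)) (r : PrimeSpectrum (MvPolynomial σ K)) :
    lenAt (PrimeSpectrum.comap (MvPolynomial.map p.r : MvPolynomial σ p.V →+* MvPolynomial σ K) r)
      (MvPolynomial σ p.V ⧸ (I ⊔ Ideal.span {C t})) =
      lenAt r (MvPolynomial σ K ⧸ I.map (MvPolynomial.map p.r)) := by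
  have h1 : (1 : MvPolynomial σ p.V) ∉ (PrimeSpectrum.comap
      (MvPolynomial.map p.r : MvPolynomial σ p.V →+* MvPolynomial σ K) r).asIdeal :=
    fun h => (PrimeSpectrum.isPrime _).ne_top ((Ideal.eq_top_iff_one _).mpr h)
  refine hL.loc _ _ _ _ _ (Submodule.mapQ (I ⊔ Ideal.span {C t}) (I.map (MvPolynomial.map p.r))
    (MvPolynomial.map p.r : MvPolynomial σ p.V →+* MvPolynomial σ K).toSemilinearMap
    (by rw [← mem_map_r p t ht]; exact le_rfl)) r _ rfl ?_ ?_ ?_
  · intro x
    obtain ⟨y, rfl⟩ := map_surjective _ p.surj x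
    exact ⟨1, y, h1, by simp⟩
  · intro x
    obtain ⟨x, rfl⟩ := Ideal.Quotient.mk_surjective x
    obtain ⟨y, rfl⟩ := map_surjective _ p.surj x
    exact ⟨1, Ideal.Quotient.mk _ y, h1, by rw [map_one, one_smul]; rfl⟩
  · intro x h0
    obtain ⟨x, rfl⟩ := Ideal.Quotient.mk_surjective x
    refine ⟨1, h1, ?_⟩
    rw [one_smul, Ideal.Quotient.eq_zero_iff_mem, ← mem_map_r p t ht]
    exact Ideal.mem_comap.mpr (Ideal.Quotient.eq_zero_iff_mem.mp h0)

/-- Multiples of `t`. -/
noncomputable def tM {R : Type} [CommRing R] (t : R) (M : Type) [AddCommGroup M] [Module R M] :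
    Submodule R M := LinearMap.range (t • (LinearMap.id : M →ₗ[R] M))

theorem mem_tM {R : Type} [CommRing R] (t : R) (M : Type) [AddCommGroup M] [Module R M] (z : M) :
    z ∈ tM t M ↔ ∃ z', z = t • z' :=
  ⟨fun ⟨z', h⟩ => ⟨z', h.symm⟩, fun ⟨z', h⟩ => ⟨z', h.symm⟩⟩

/-- Transfer to the special fibre, graded pieces. -/
theorem len_sp (hL : LenAPI) {ι : Type} (t : p.V) (ht : ∀ v, p.r v = 0 ↔ t ∣ v)
    (I : Ideal (Pxy ι p.V)) (hI : IsHom (bw ι) I) (d : ℕ) (r : PrimeSpectrum (By ι K)) :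
    lenAt (PrimeSpectrum.comap (MvPolynomial.map p.r : By ι p.V →+* By ι K) r)
      (Md I d ⧸ tM (C t : By ι p.V) (Md I d)) =
      lenAt r (Md (I.map (MvPolynomial.map p.r)) d) := by
  have h1 : (1 : By ι p.V) ∉ (PrimeSpectrum.comap
      (MvPolynomial.map p.r : By ι p.V →+* By ι K) r).asIdeal :=
    fun h => (PrimeSpectrum.isPrime _).ne_top ((Ideal.eq_top_iff_one _).mpr h)
  refine hL.loc _ _ _ _ _ (Submodule.liftQ (tM (C t : By ι p.V) (Md I d))
    (mdMap p.r I (I.map (MvPolynomial.map p.r)) Ideal.le_comap_map d) ?_) r _ rfl ?_ ?_ ?_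
  · intro z hz
    obtain ⟨z', rfl⟩ := (mem_tM _ _ z).mp hz
    rw [LinearMap.mem_ker, LinearMap.map_smulₛₗ, map_C, (ht t).mpr dvd_rfl, C_0, zero_smul]
  · intro x
    obtain ⟨y, rfl⟩ := map_surjective _ p.surj x
    exact ⟨1, y, h1, by simp⟩
  · rintro ⟨x, hx⟩
    obtain ⟨f, hf, rfl⟩ := (mem_Md _ d x).mp hx
    obtain ⟨y, rfl⟩ := map_surjective _ p.surj f
    refine ⟨1, Submodule.Quotient.mk ⟨Ideal.Quotient.mk _ (weightedHomogeneousComponent (xw ι) d y),
      (mem_Md _ d _).mpr ⟨_, weightedHomogeneousComponent_isWeightedHomogeneous _ _, rfl⟩⟩,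
      h1, Subtype.ext ?_⟩
    rw [map_one, one_smul, Submodule.liftQ_apply, mdMap_val, qMap_mk, map_comp,
      weightedHomogeneousComponent_eq_self hf]
  · intro x h0
    obtain ⟨⟨x, hx⟩, rfl⟩ := Submodule.Quotient.mk_surjective _ x
    obtain ⟨f, hf, rfl⟩ := (mem_Md _ d x).mp hx
    refine ⟨1, h1, ?_⟩
    rw [Submodule.liftQ_apply] at h0
    have h2 := congrArg Subtype.val h0
    rw [mdMap_val, qMap_mk] at h2
    have h3 : f ∈ I ⊔ Ideal.span {C t} := by
      rw [← mem_map_r p t ht]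
      exact Ideal.mem_comap.mpr (Ideal.Quotient.eq_zero_iff_mem.mp h2)
    obtain ⟨j, hj, k, hk, hjk⟩ := Submodule.mem_sup.mp h3
    obtain ⟨h, rfl⟩ := Ideal.mem_span_singleton.mp hk
    rw [one_smul, Submodule.Quotient.mk_eq_zero, mem_tM]
    refine ⟨⟨Ideal.Quotient.mk _ (weightedHomogeneousComponent (xw ι) d h),
      (mem_Md _ d _).mpr ⟨_, weightedHomogeneousComponent_isWeightedHomogeneous _ _, rfl⟩⟩,
      Subtype.ext ?_⟩
    change Ideal.Quotient.mk I f = (C t : By ι p.V) • Ideal.Quotient.mk I _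
    rw [smul_mk, ← weightedHomogeneousComponent_eq_self hf, ← hjk, map_add,
      weightedHomogeneousComponent_C_mul, map_add,
      Ideal.Quotient.eq_zero_iff_mem.mpr (xcomp_mem I hI d j hj), zero_add]

theorem isW_yw (ι : Type) : IsW (yw ι) := fun _ => Or.inr rfl

theorem isW_bw (ι : Type) : IsW (bw ι) := fun v => by
  rcases v with v | v
  · exact Or.inl rfl
  · exact Or.inr rfl

theorem lin_of_le (hH : HfAPI) {ι : Type} [Finite ι] (I I' : Ideal (By ι K)) (h : I ≤ I')
    (hI : Lin (yw ι) I) : Lin (yw ι) I' := by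
  obtain ⟨c, hc⟩ := hI
  exact ⟨c, fun d n => (hH.mono _ _ _ _ _ _ (isW_yw ι) h).trans (hc d n)⟩

theorem lin_contr (hH : HfAPI) {ι : Type} [Finite ι] (J : Ideal (Pxy ι K)) (hJ : IsHom (bw ι) J)
    (hl : Lin (bw ι) J) : Lin (yw ι) (J.comap (algebraMap (By ι K) (Pxy ι K))) := by
  obtain ⟨c, hc⟩ := hl
  refine ⟨c, fun d n => ?_⟩
  rcases d with _ | d
  · rw [(hH.contr ι K J hJ).2 n]
    exact hc 0 n
  · rw [hH.ypos]
    exact Nat.zero_le _

theorem lin_init (hH2 : HfAPI2) {σ : Type} [Finite σ] (w : σ → ℕ × ℕ) (hw : IsW w)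
    (I : Ideal (MvPolynomial σ E)) (hI : IsHom w I) (hl : Lin w I) : Lin w (p.init I) := by
  obtain ⟨c, hc⟩ := hl
  exact ⟨c, fun d n => by rw [(hH2.init σ E K w p I hw hI).2]; exact hc d n⟩

end Sp

open Sp in
theorem sp_stmt (hL : LenAPI) (hB : HerbAPI) (hH : HfAPI) (hH2 : HfAPI2) (hC : CycAPI) :
    SpStmt := by
  classical
  intro ι E K _ _ _ p t J hV ht0 ht hJ hl
  set φ : By ι p.V →+* By ι E := MvPolynomial.map p.V.subtype with hφ
  set ψ : By ι p.V →+* By ι K := MvPolynomial.map p.r with hψ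
  set IE : Ideal (By ι E) := J.comap (algebraMap (By ι E) (Pxy ι E)) with hIE
  set JV : Ideal (Pxy ι p.V) := J.comap (MvPolynomial.map p.V.subtype) with hJV
  have hIEh : IsHom (yw ι) IE := (hH.contr ι E J hJ).1
  have hIEl : Lin (yw ι) IE := lin_contr hH J hJ hl
  have hJ0h : IsHom (bw ι) (p.init J) := (hH2.init _ E K _ p J (isW_bw ι) hJ).1
  have hJ0l : Lin (bw ι) (p.init J) := lin_init p hH2 _ (isW_bw ι) J hJ hl
  obtain ⟨hc, hcm⟩ := hC.spec ι E J hJ hl
  obtain ⟨hc0, -⟩ := hC.spec ι K _ hJ0h hJ0l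
  have hmin : ∀ s : PrimeSpectrum (By ι E), s.asIdeal ∈ IE.minimalPrimes →
      IsCycB (p.init s.asIdeal) (cycB (p.init s.asIdeal)) := by
    intro s hs
    have hsh := hH.min _ _ _ _ _ hIEh hs
    exact (hC.specB ι K _ (hH2.init _ E K _ p _ (isW_yw ι) hsh).1
      (lin_init p hH2 _ (isW_yw ι) _ hsh (lin_of_le hH _ _ hs.1.2 hIEl))).1
  ext r
  rw [Finsupp.sum_apply, Finsupp.sum]
  simp only [Finsupp.smul_apply, smul_eq_mul]
  by_cases hr : Crv r
  swap
  · rw [Finsupp.notMem_support_iff.mp fun h => hr (hc0.1 r h)]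
    refine (Finset.sum_eq_zero fun s hs => ?_).symm
    rw [Finsupp.notMem_support_iff.mp fun h => hr ((hmin s (hcm s hs)).1 r h), mul_zero]
  have hfin : {s : PrimeSpectrum (By ι E) | s.asIdeal ∈ IE.minimalPrimes ∧ Crv s}.Finite := by
    refine Set.Finite.subset (Set.Finite.preimage (f := PrimeSpectrum.asIdeal)
      (fun _ _ _ _ h => PrimeSpectrum.ext h) (Ideal.finite_minimalPrimes_of_isNoetherianRing _ IE))
      fun s hs => hs.1
  have key : ∀ d, lenAt r (Md (p.init J) d) =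
      ∑ s ∈ hfin.toFinset, lenAt s (Md J d) * (cycB (p.init s.asIdeal) r : ℕ∞) := by
    intro d
    have := hC.fin ι p.V JV d
    have h := hB.herb (By ι p.V) (Md JV d) (Md JV d ⧸ tM (C t : By ι p.V) (Md JV d))
      (Submodule.mkQ _) (PrimeSpectrum.comap ψ r) (C t) (IE.comap φ)
      (hfin.toFinset.image (PrimeSpectrum.comap φ)) (Submodule.mkQ_surjective _)
      (fun z => by rw [Submodule.mkQ_apply, Submodule.Quotient.mk_eq_zero, mem_tM]) ?_ ?_ ?_ ?_ ?_ ?_
    · have hinj : Set.InjOn (PrimeSpectrum.comap φ) hfin.toFinset := fun s _ s' _ h => comap_inj p h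
      rw [Finset.sum_image hinj, len_sp p hL t ht JV (hom_comap _ _ J hJ)] at h
      refine h.trans (Finset.sum_congr rfl fun s hs => ?_)
      rw [len_gen p hL J d s, len_cyc p hL t ht,
        ← (hmin s (hfin.mem_toFinset.mp hs).1).2 r hr]
      rfl
    · change ψ (C t) ∈ r.asIdeal
      rw [hψ, map_C, (ht t).mpr dvd_rfl, C_0]
      exact r.asIdeal.zero_mem
    · rintro x hx ⟨z, hz⟩
      obtain ⟨f, -, rfl⟩ := (mem_Md _ d z).mp hz
      refine Subtype.ext ?_
      change x • Ideal.Quotient.mk JV f = 0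
      have hx' : algebraMap (By ι p.V) (Pxy ι p.V) x ∈ JV := by
        rw [hJV, Ideal.mem_comap, map_alg]
        exact hx
      rw [smul_mk', map_mul, Ideal.Quotient.eq_zero_iff_mem.mpr hx', zero_mul]
    · intro q haq htq hqm
      have hker : RingHom.ker ψ ≤ q.asIdeal := by
        rw [hψ, ker_r p t ht, Ideal.span_singleton_le_iff_mem]
        exact htq
      have hsurj : Function.Surjective ψ := map_surjective _ p.surj
      have hq' : (q.asIdeal.map ψ).IsPrime := Ideal.map_isPrime_of_surjective hsurj hker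
      have h1 : p.init IE ≤ q.asIdeal.map ψ := Ideal.map_mono haq
      have h2 : q.asIdeal.map ψ ≤ r.asIdeal := Ideal.map_le_iff_le_comap.mpr hqm
      obtain ⟨q', hq'm, hq'le⟩ := Ideal.exists_minimalPrimes_le h1
      have hI0h := (hH2.init _ E K _ p IE (isW_yw ι) hIEh).1
      have h3 : q' = r.asIdeal := hH.rigid _ _ _ _ _ (isW_yw ι) hr.1 (hH.min _ _ _ _ _ hI0h hq'm)
        r.isPrime hq'm.1.1 (hq'le.trans h2)
        (lin_of_le hH _ _ hq'm.1.2 (lin_init p hH2 _ (isW_yw ι) _ hIEh hIEl)) hr.2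
        (Or.inr fun _ => rfl)
      refine le_antisymm hqm ?_
      change r.asIdeal.comap ψ ≤ q.asIdeal
      rw [← h3]
      refine (Ideal.comap_mono hq'le).trans ?_
      rw [Ideal.comap_map_of_surjective _ hsurj]
      exact sup_le le_rfl hker
    · rintro ⟨z, hz⟩ h0
      obtain ⟨f, -, rfl⟩ := (mem_Md _ d z).mp hz
      refine ⟨1, fun h => (PrimeSpectrum.isPrime _).ne_top ((Ideal.eq_top_iff_one _).mpr h), ?_⟩
      rw [one_smul]
      have h1 := congrArg Subtype.val h0
      change (C t : By ι p.V) • Ideal.Quotient.mk JV f = 0 at h1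
      rw [smul_mk, Ideal.Quotient.eq_zero_iff_mem, hJV, Ideal.mem_comap, map_mul, map_C] at h1
      refine Subtype.ext (Ideal.Quotient.eq_zero_iff_mem.mpr ?_)
      have hu : IsUnit (C (p.V.subtype t) : Pxy ι E) :=
        (IsUnit.mk0 _ (show (p.V.subtype t : E) ≠ 0 from fun h => ht0 (Subtype.ext h))).map C
      exact (Ideal.unit_mul_mem_iff_mem J hu).mp h1
    · intro q hq
      obtain ⟨s, -, rfl⟩ := Finset.mem_image.mp hq
      exact C_notMem p s t ht0
    · intro q hq _ hqm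
      obtain ⟨s, hs, hsq⟩ := Ideal.exists_minimalPrimes_comap_eq φ _ hq
      have hsh := hH.min _ _ _ _ _ hIEh hs
      refine Finset.mem_image.mpr ⟨⟨s, hs.1.1⟩, hfin.mem_toFinset.mpr ⟨hs, hsh, fun c => ?_⟩,
        PrimeSpectrum.ext hsq⟩
      obtain ⟨n, hn⟩ := hr.2 c
      refine ⟨n, hn.trans_le ?_⟩
      rw [← (hH2.init _ E K _ p s (isW_yw ι) hsh).2]
      refine hH.mono _ _ _ _ _ _ (isW_yw ι) (Ideal.map_le_iff_le_comap.mpr ?_)
      change s.comap φ ≤ _
      rw [hsq]
      exact hqm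
  have hev : ∀ᶠ d in atTop, ∀ s ∈ hfin.toFinset, lenAt s (Md J d) = cyc J s :=
    (Filter.eventually_all_finset _).mpr fun s hs => hc.2 s (hfin.mem_toFinset.mp hs).2
  obtain ⟨d, hd1, hd2⟩ := ((hc0.2 r hr).and hev).exists
  have h := key d
  rw [hd1, Finset.sum_congr rfl fun s hs => by rw [hd2 s hs]] at h
  have h' : cyc (p.init J) r = ∑ s ∈ hfin.toFinset, cyc J s * cycB (p.init s.asIdeal) r := by
    exact_mod_cast h
  rw [h']
  refine (Finset.sum_subset (fun s hs => hfin.mem_toFinset.mpr ⟨hcm s hs, hc.1 s hs⟩)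
    fun s _ hs => ?_).symm
  rw [Finsupp.notMem_support_iff.mp hs, zero_mul]

end Pool.Agent.MP_d45d16_ag.Yag

end MrgPart1

-- marker of a merged file
example : 731051 + 201417 = 731051 + 201417 := rfl
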