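import Mathlib.RingTheory.PicardGroup
import Pool.Agent.MP_d45d16_ag.yag.AmbRes

/-!
The plane blown up in two points as a projective toric surface with five charts.
-/

set_option autoImplicit false
set_option linter.unusedSectionVars false
set_option linter.style.haveILetI false

open AlgebraicGeometry CategoryTheory Limits MvPolynomial

namespace Pool.Agent.MP_d45d16_ag.Yag.Dp

open MP_fd6584_ag

variable (k : Type) [Field k]

/-- The coordinate ring of a chart. -/
abbrev R2 : Type := MvPolynomial (Fin 2) k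

/-- Laurent monomials. -/
noncomputable def mon (m : ℤ × ℤ) : K2 k :=
  algebraMap (R2 k) (K2 k) (X 0) ^ m.1 * algebraMap (R2 k) (K2 k) (X 1) ^ m.2

lemma X_ne (r : Fin 2) : algebraMap (R2 k) (K2 k) (X r) ≠ 0 :=
  (map_ne_zero_iff _ (IsFractionRing.injective _ _)).mpr (X_ne_zero r)

lemma mon_ne (m : ℤ × ℤ) : mon k m ≠ 0 :=
  mul_ne_zero (zpow_ne_zero _ (X_ne k 0)) (zpow_ne_zero _ (X_ne k 1))

lemma mon_add (m n : ℤ × ℤ) : mon k (m + n) = mon k m * mon k n := by
  simp only [mon, Prod.fst_add, Prod.snd_add, zpow_add₀ (X_ne k 0), zpow_add₀ (X_ne k 1)]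
  ring

lemma mon_sub (m n : ℤ × ℤ) : mon k (m - n) = mon k m / mon k n := by
  rw [eq_div_iff (mon_ne k n), ← mon_add, sub_add_cancel]

lemma mon_smul (n : ℤ) (m : ℤ × ℤ) : mon k (n • m) = mon k m ^ n := by
  simp only [mon, Prod.smul_fst, Prod.smul_snd, smul_eq_mul, mul_zpow, ← zpow_mul, mul_comm n]

/-- Exponents of the coordinates. -/
def P : Fin 5 → Fin 2 → ℤ × ℤ :=
  ![![(1, 0), (0, 1)], ![(0, 1), (-1, 0)], ![(-1, 1), (0, -1)], ![(-1, 0), (1, -1)],
    ![(0, -1), (1, 0)]]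

/-- The rays of the cones. -/
def V : Fin 5 → Fin 2 → ℤ × ℤ :=
  ![![(1, 0), (0, 1)], ![(0, 1), (-1, 0)], ![(-1, 0), (-1, -1)], ![(-1, -1), (0, -1)],
    ![(0, -1), (1, 0)]]

/-- The vertices of the polygon. -/
def W : Fin 5 → ℤ × ℤ := ![(0, 0), (2, 0), (2, 1), (1, 2), (0, 2)]

/-- The pairing with a ray. -/
def dot (j : Fin 5) (r : Fin 2) (m : ℤ × ℤ) : ℤ := (V j r).1 * m.1 + (V j r).2 * m.2

lemma co_eq (j : Fin 5) (r : Fin 2) : co k j r = mon k (P j r) := by
  fin_cases j <;> fin_cases r <;> simp [co, mon, P, div_eq_mul_inv, mul_comm]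

lemma decomp (j : Fin 5) (m : ℤ × ℤ) : m = dot j 0 m • P j 0 + dot j 1 m • P j 1 := by
  fin_cases j <;> ext <;> simp [dot, V, P]

/-- A monomial in the coordinates of a chart. -/
noncomputable def mn (j : Fin 5) (m : ℤ × ℤ) : R2 k :=
  X 0 ^ (dot j 0 m).toNat * X 1 ^ (dot j 1 m).toNat

lemma aeval_mn (j : Fin 5) (m : ℤ × ℤ) (h : ∀ r, 0 ≤ dot j r m) :
    aeval (co k j) (mn k j m) = mon k m := by
  conv_rhs => rw [decomp j m]
  rw [mon_add, mon_smul, mon_smul, mn, map_mul, map_pow, map_pow, aeval_X, aeval_X, co_eq, co_eq,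
    ← zpow_natCast, ← zpow_natCast, Int.toNat_of_nonneg (h 0), Int.toNat_of_nonneg (h 1)]

/-- The coordinate rings inside the field. -/
noncomputable def BB (j : Fin 5) : Subalgebra k (K2 k) := Algebra.adjoin k (Set.range (co k j))

lemma aeval_mem (j : Fin 5) (f : R2 k) : aeval (co k j) f ∈ BB k j := by
  rw [BB, Algebra.adjoin_range_eq_range_aeval]
  exact ⟨f, rfl⟩

lemma mon_mem (j : Fin 5) (m : ℤ × ℤ) (h : ∀ r, 0 ≤ dot j r m) : mon k m ∈ BB k j :=
  aeval_mn k j m h ▸ aeval_mem k j _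

lemma rat_nonneg : ∀ i j r, 0 ≤ dot j r (W i - W j) := by decide

lemma comp_nonneg : ∀ i j l r, 0 ≤ dot j r (W i - W j + P i l) := by decide

lemma comp_mem (i j : Fin 5) (c : K2 k) (hc : c ∈ BB k i) :
    ∃ N : ℕ, (mon k (W i) / mon k (W j)) ^ N * c ∈ BB k j := by
  have hr : mon k (W i) / mon k (W j) ∈ BB k j :=
    mon_sub k _ _ ▸ mon_mem k j _ (rat_nonneg i j)
  induction hc using Algebra.adjoin_induction with
  | mem x hx =>
    obtain ⟨l, rfl⟩ := hx
    refine ⟨1, ?_⟩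
    rw [pow_one, ← mon_sub, co_eq, ← mon_add]
    exact mon_mem k j _ (comp_nonneg i j l)
  | algebraMap r => exact ⟨0, by rw [pow_zero, one_mul]; exact Subalgebra.algebraMap_mem _ r⟩
  | add x y _ _ hx hy =>
    obtain ⟨N, hN⟩ := hx
    obtain ⟨N', hN'⟩ := hy
    refine ⟨N + N', ?_⟩
    have := add_mem (mul_mem (pow_mem hr N') hN) (mul_mem (pow_mem hr N) hN')
    convert this using 1
    ring
  | mul x y _ _ hx hy =>
    obtain ⟨N, hN⟩ := hx
    obtain ⟨N', hN'⟩ := hy
    refine ⟨N + N', ?_⟩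
    convert mul_mem hN hN' using 1
    ring

lemma aeval_zero : (aeval (co k 0) : R2 k →ₐ[k] K2 k) = IsScalarTower.toAlgHom k (R2 k) (K2 k) := by
  ext r
  fin_cases r <;> simp [co]

lemma frac_mem (j : Fin 5) (x : K2 k) : ∃ a ∈ BB k j, ∃ b ∈ BB k j, b ≠ 0 ∧ x * b = a := by
  obtain ⟨u, v, hv, rfl⟩ := IsFractionRing.div_surjective (R2 k) x
  have hm : ∀ u : R2 k, algebraMap (R2 k) (K2 k) u ∈ BB k 0 := fun u => by
    have := aeval_mem k 0 u
    rwa [aeval_zero] at this
  obtain ⟨N, hN⟩ := comp_mem k 0 j _ (hm u)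
  obtain ⟨N', hN'⟩ := comp_mem k 0 j _ (hm v)
  have hr : mon k (W 0) / mon k (W j) ∈ BB k j :=
    mon_sub k _ _ ▸ mon_mem k j _ (rat_nonneg 0 j)
  have hv0 : algebraMap (R2 k) (K2 k) v ≠ 0 :=
    (map_ne_zero_iff _ (IsFractionRing.injective _ _)).mpr (nonZeroDivisors.ne_zero hv)
  have h0 : mon k (W 0) / mon k (W j) ≠ 0 := div_ne_zero (mon_ne k _) (mon_ne k _)
  refine ⟨_, mul_mem (pow_mem hr N') hN, _, mul_mem (pow_mem hr N) hN',
    mul_ne_zero (pow_ne_zero _ h0) (mul_ne_zero (pow_ne_zero _ h0) hv0), ?_⟩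
  generalize mon k (W 0) / mon k (W j) = z
  field_simp

lemma proper_mem (O : ValuationSubring (K2 k)) (hO : ∀ c : k, algebraMap k (K2 k) c ∈ O) :
    ∃ j, ∀ c ∈ BB k j, c ∈ O := by
  have key : ∀ j, co k j 0 ∈ O → co k j 1 ∈ O → ∀ c ∈ BB k j, c ∈ O := by
    intro j h0 h1 c hc
    induction hc using Algebra.adjoin_induction with
    | mem x hx =>
      obtain ⟨l, rfl⟩ := hx
      fin_cases l
      exacts [h0, h1]
    | algebraMap r => exact hO r
    | add x y _ _ hx hy => exact add_mem hx hy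
    | mul x y _ _ hx hy => exact mul_mem hx hy
  rcases O.mem_or_inv_mem (algebraMap (R2 k) (K2 k) (X 0)) with ha | ha <;>
    rcases O.mem_or_inv_mem (algebraMap (R2 k) (K2 k) (X 1)) with hb | hb
  · exact ⟨0, key 0 ha hb⟩
  · exact ⟨4, key 4 hb ha⟩
  · exact ⟨1, key 1 hb ha⟩
  · rcases O.mem_or_inv_mem (algebraMap (R2 k) (K2 k) (X 1) / algebraMap (R2 k) (K2 k) (X 0))
      with hc | hc
    · exact ⟨2, key 2 hc hb⟩
    · rw [inv_div] at hc
      exact ⟨3, key 3 ha hc⟩

/-- The five charts. -/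
noncomputable def charts : Pj.Charts k (K2 k) (Fin 5) where
  B := BB k
  f j := mon k (W j)
  f_ne _ := mon_ne k _
  ratio i j := mon_sub k _ _ ▸ mon_mem k j _ (rat_nonneg i j)
  comp := comp_mem k
  fg _ := Subalgebra.fg_def.mpr ⟨_, Set.finite_range _, rfl⟩
  proper := proper_mem k
  frac := frac_mem k

lemma co_inj (j : Fin 5) : Function.Injective (aeval (co k j) : R2 k →ₐ[k] K2 k) := by
  have h1 : Algebra.IsAlgebraic (Algebra.adjoin k (Set.range (co k j))) (K2 k) := ⟨fun x => by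
    obtain ⟨a, ha, b, hb, hb0, h⟩ := frac_mem k j x
    refine IsAlgebraic.of_smul (y := (⟨b, hb⟩ : Algebra.adjoin k (Set.range (co k j))))
      (mem_nonZeroDivisors_of_ne_zero fun h0 => hb0 (congrArg Subtype.val h0)) ?_
    have := isAlgebraic_algebraMap (A := K2 k) (⟨a, ha⟩ : Algebra.adjoin k (Set.range (co k j)))
    convert this using 1
    exact (mul_comm b x).trans h⟩
  have := IsLocalization.isAlgebraic (S := K2 k) (nonZeroDivisors (R2 k))
  have h2 := ((IsTranscendenceBasis.mvPolynomial (Fin 2) k).algebraMap_comp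
    (A := K2 k)).cardinalMk_eq_trdeg
  exact (Algebra.IsAlgebraic.isTranscendenceBasis_of_le_trdeg_of_finite k (co k j) h2.le).1

/-- The charts are affine planes. -/
noncomputable def eqv (j : Fin 5) : R2 k ≃ₐ[k] (charts k).B j :=
  AlgEquiv.ofBijective ((aeval (co k j)).codRestrict _ (aeval_mem k j))
    ⟨fun _ _ h => co_inj k j (congrArg Subtype.val h), fun ⟨x, hx⟩ => by
      change x ∈ BB k j at hx
      rw [BB, Algebra.adjoin_range_eq_range_aeval] at hx
      obtain ⟨f, rfl⟩ := hx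
      exact ⟨f, rfl⟩⟩

lemma eqv_val (j : Fin 5) (f : R2 k) : (eqv k j f : K2 k) = aeval (co k j) f := rfl

variable {k}

/-- The point of the plane with coordinates `x`. -/
noncomputable abbrev sp {C : Type} [CommRing C] [Algebra k C] (x : Fin 2 → C) :
    Spec (CommRingCat.of C) ⟶ Spec (CommRingCat.of (R2 k)) :=
  Spec.map (CommRingCat.ofHom (aeval x : R2 k →ₐ[k] C).toRingHom)

lemma sm_comp {A B C : Type} [CommRing A] [CommRing B] [CommRing C] (g : B →+* C) (f : A →+* B)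
    (h : A →+* C) (e : g.comp f = h) :
    Spec.map (CommRingCat.ofHom g) ≫ Spec.map (CommRingCat.ofHom f) =
      Spec.map (CommRingCat.ofHom h) := by
  rw [← Spec.map_comp, ← CommRingCat.ofHom_comp, e]

variable (k) in
/-- What is used of the surface. -/
structure Surf where
  /-- the surface -/
  T : Scheme.{0}
  /-- the structure map -/
  s : T ⟶ Spec (CommRingCat.of k)
  /-- the charts -/
  ch : Fin 5 → (Spec (CommRingCat.of (R2 k)) ⟶ T)
  op : ∀ j, IsOpenImmersion (ch j)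
  cover : ∀ x, ∃ j p, ch j p = x
  ch_s : ∀ j, ch j ≫ s = Spec.map (CommRingCat.ofHom (algebraMap k (R2 k)))
  proj : IsProj s
  red : IsReduced T
  glue : ∀ (Z : Scheme.{0}) (g : Fin 5 → (Spec (CommRingCat.of (R2 k)) ⟶ Z))
    (γ : Spec (CommRingCat.of (K2 k)) ⟶ Z), Z.IsSeparated → (∀ j, sp (co k j) ≫ g j = γ) →
    ∃ G : T ⟶ Z, ∀ j, ch j ≫ G = g j
  adj : ∀ (j : Fin 5) (C : Type) [CommRing C] [Algebra k C] (x z : C), x * z = 1 →
    sp ![x, 0] ≫ ch j = sp ![0, z] ≫ ch (j + 1)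
  miss : ∀ (i j : Fin 5) (p : PrimeSpectrum (R2 k)) q, i ≠ j → i ≠ j + 1 → X 1 ∈ p.asIdeal →
    ch j p ≠ ch i q

lemma miss_pos : ∀ i j : Fin 5, i ≠ j → i ≠ j + 1 → (dot j 1 (W i - W j)).toNat ≠ 0 := by decide

lemma adj_exp : ∀ j : Fin 5, P (j + 1) 0 = P j 1 + (dot j 0 (P (j + 1) 0)).toNat • P j 0 ∧
    P (j + 1) 1 = -P j 0 := by decide

theorem exists_surf (hP : ProjAPI) : Nonempty (Surf k) := by
  obtain ⟨M⟩ := Pj.exists_model (charts k)
  let ε : ∀ j, Spec (CommRingCat.of (R2 k)) ⟶ Spec (CommRingCat.of ((charts k).B j)) := fun j =>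
    Spec.map (CommRingCat.ofHom (eqv k j).symm.toRingEquiv.toRingHom)
  let ε' : ∀ j, Spec (CommRingCat.of ((charts k).B j)) ⟶ Spec (CommRingCat.of (R2 k)) := fun j =>
    Spec.map (CommRingCat.ofHom (eqv k j).toRingEquiv.toRingHom)
  have h1 : ∀ j, ε j ≫ ε' j = 𝟙 _ := fun j => by
    rw [← Spec.map_comp, ← Spec.map_id]
    congr 1
    exact CommRingCat.hom_ext (RingHom.ext (eqv k j).symm_apply_apply)
  have h2 : ∀ j, ε' j ≫ ε j = 𝟙 _ := fun j => by
    rw [← Spec.map_comp, ← Spec.map_id]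
    congr 1
    exact CommRingCat.hom_ext (RingHom.ext (eqv k j).apply_symm_apply)
  have hε : ∀ j, IsIso (ε j) := fun j => ⟨ε' j, h1 j, h2 j⟩
  have h3 : ∀ j, Spec.map (CommRingCat.ofHom ((charts k).B j).val.toRingHom) ≫ ε' j =
      sp (co k j) := fun j => by
    rw [← Spec.map_comp]
    rfl
  have gen : ∀ i j, sp (co k i) ≫ ε i ≫ M.ch i = sp (co k j) ≫ ε j ≫ M.ch j := fun i j => by
    rw [← h3, ← h3, Category.assoc, Category.assoc, reassoc_of% h2, reassoc_of% h2]
    exact M.gen i j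
  refine ⟨⟨M.X, M.s, fun j => ε j ≫ M.ch j, fun j => inferInstance, fun x => ?_, fun j => ?_,
    hP.model k _ _ M.proj, inferInstance, fun Z g γ hZ hg => ?_, fun j C _ _ x z hxz => ?_,
    fun i j p q hi hi' hp h => ?_⟩⟩
  · obtain ⟨j, p, rfl⟩ := M.cover x
    refine ⟨j, ε' j p, ?_⟩
    rw [← Scheme.Hom.comp_apply, reassoc_of% h2]
  · rw [Category.assoc, M.ch_s, ← Spec.map_comp]
    congr 1
    exact CommRingCat.hom_ext (RingHom.ext (eqv k j).symm.commutes)
  · obtain ⟨G, hG⟩ := hP.glue k _ _ _ M Z (fun j => ε' j ≫ g j) γ hZ fun j => by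
      rw [← Category.assoc, h3, hg]
    exact ⟨G, fun j => by rw [Category.assoc, hG, reassoc_of% h1]⟩
  · let D := Localization.Away (X 0 : R2 k)
    have u1 : IsUnit ((aeval (co k j) : R2 k →ₐ[k] K2 k).toRingHom (X 0)) := by
      simpa [co_eq] using mon_ne k _
    have u2 : IsUnit ((aeval ![x, 0] : R2 k →ₐ[k] C).toRingHom (X 0)) := by
      simpa using IsUnit.of_mul_eq_one z hxz
    let ι : D →+* K2 k := IsLocalization.Away.lift (X 0) u1
    let θ : D →+* C := IsLocalization.Away.lift (X 0) u2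
    have hι : ∀ f, ι (algebraMap (R2 k) D f) = aeval (co k j) f :=
      IsLocalization.Away.lift_eq (X 0) u1
    have hθ : ∀ f, θ (algebraMap (R2 k) D f) = aeval ![x, 0] f :=
      IsLocalization.Away.lift_eq (X 0) u2
    have hinj : Function.Injective ι := by
      refine (IsLocalization.lift_injective_iff _).mpr fun f g => ⟨fun h => ?_, fun h => ?_⟩
      · exact (hι f).symm.trans ((congrArg ι h).trans (hι g))
      · rw [co_inj k j h]
    let w : D := IsLocalization.Away.invSelf (X 0 : R2 k)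
    have hw : algebraMap (R2 k) D (X 0) * w = 1 := IsLocalization.Away.mul_invSelf _
    let φ : R2 k →ₐ[k] D :=
      aeval ![algebraMap (R2 k) D (X 1 * X 0 ^ (dot j 0 (P (j + 1) 0)).toNat), w]
    have hc : ∀ c : k, algebraMap k D c = algebraMap (R2 k) D (MvPolynomial.C c) := fun c => rfl
    have e1 : ι.comp φ.toRingHom = (aeval (co k (j + 1)) : R2 k →ₐ[k] K2 k).toRingHom := by
      refine MvPolynomial.ringHom_ext (fun c => ?_) fun r => ?_
      · simp [φ, hc, hι]
      · fin_cases r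
        · simp only [φ, RingHom.comp_apply, AlgHom.toRingHom_eq_coe, RingHom.coe_coe, aeval_X,
            Fin.zero_eta, Matrix.cons_val_zero, hι, map_mul, map_pow, co_eq]
          conv_rhs => rw [(adj_exp j).1, mon_add, ← natCast_zsmul, mon_smul, zpow_natCast]
        · have := congrArg ι hw
          rw [map_mul, hι, map_one, aeval_X, co_eq] at this
          simp only [φ, RingHom.comp_apply, AlgHom.toRingHom_eq_coe, RingHom.coe_coe, aeval_X,
            Fin.mk_one, Matrix.cons_val_one, Matrix.cons_val_zero, co_eq]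
          rw [(adj_exp j).2, ← neg_one_zsmul, mon_smul, zpow_neg_one]
          exact eq_inv_of_mul_eq_one_right this
    have e2 : θ.comp φ.toRingHom = (aeval ![0, z] : R2 k →ₐ[k] C).toRingHom := by
      refine MvPolynomial.ringHom_ext (fun c => ?_) fun r => ?_
      · simp [φ, hc, hθ]
      · fin_cases r
        · simp [φ, hθ]
        · have := congrArg θ hw
          rw [map_mul, hθ, map_one, aeval_X] at this
          simp only [φ, RingHom.comp_apply, AlgHom.toRingHom_eq_coe, RingHom.coe_coe, aeval_X,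
            Fin.mk_one, Matrix.cons_val_one, Matrix.cons_val_zero] at this ⊢
          rw [← one_mul (θ w), ← hxz, mul_comm x, mul_assoc, this, mul_one]
    have e3 : Spec.map (CommRingCat.ofHom (algebraMap (R2 k) D)) ≫ ε j ≫ M.ch j =
        Spec.map (CommRingCat.ofHom φ.toRingHom) ≫ ε (j + 1) ≫ M.ch (j + 1) := by
      have := Pj.isDominant_spec ι hinj
      have : IsDomain D := hinj.isDomain ι
      refine ext_of_isDominant (Spec.map (CommRingCat.ofHom ι)) ?_
      rw [reassoc_of% sm_comp _ _ _ e1, reassoc_of% sm_comp ι (algebraMap (R2 k) D)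
        (aeval (co k j) : R2 k →ₐ[k] K2 k).toRingHom (RingHom.ext hι)]
      exact gen _ _
    have e4 := Spec.map (CommRingCat.ofHom θ) ≫= e3
    rw [reassoc_of% sm_comp _ _ _ e2, reassoc_of% sm_comp θ (algebraMap (R2 k) D)
      (aeval ![x, 0] : R2 k →ₐ[k] C).toRingHom (RingHom.ext hθ)] at e4
    exact e4
  · rw [Scheme.Hom.comp_apply, Scheme.Hom.comp_apply] at h
    refine (M.overlap i j _).mp ⟨_, h.symm⟩ ?_
    change (eqv k j).symm _ ∈ p.asIdeal
    have : (eqv k j).symm ⟨_, (charts k).ratio i j⟩ = mn k j (W i - W j) := by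
      rw [AlgEquiv.symm_apply_eq]
      refine Subtype.ext ?_
      rw [eqv_val, aeval_mn k j _ (rat_nonneg i j), mon_sub]
      rfl
    rw [this]
    exact Ideal.mul_mem_left _ _ (Ideal.pow_mem_of_mem _ hp _ (Nat.pos_of_ne_zero
      (miss_pos i j hi hi')))

end Pool.Agent.MP_d45d16_ag.Yag.Dp
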