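import Mathlib.Algebra.EuclideanDomain.Defs
import Mathlib.Algebra.EuclideanDomain.Field
import Mathlib.Tactic.Monotonicity.Lemmas
import Mathlib.RingTheory.Flat.TorsionFree
import Mathlib.Algebra.Order.Monoid.Prod
import Mathlib.AlgebraicGeometry.Morphisms.SchemeTheoreticallyDominant
import Mathlib.AlgebraicGeometry.QuasiAffine
import Mathlib.RingTheory.Unramified.LocalStructure
import Mathlib.AlgebraicGeometry.Morphisms.WeaklyEtale
import Mathlib.AlgebraicGeometry.Sites.Fpqc
import Mathlib.CategoryTheory.ExtremalEpi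
import Mathlib.FieldTheory.RatFunc.IntermediateField
import Mathlib.RingTheory.Etale.Weakly
import Pool.Agent.MP_d45d16_ag.yag.Dp1
import Pool.Agent.MP_d45d16_ag.yag.AmbRes

-- ======== part 0: formerly Pool.Agent.MP_d45d16_ag.yag.Dp2
section MrgPart0

/-!
The boundary curves of the toric surface.
-/

set_option autoImplicit false
set_option linter.unusedSectionVars false
set_option linter.style.haveILetI false

open AlgebraicGeometry CategoryTheory Limits MvPolynomial

namespace Pool.Agent.MP_d45d16_ag.Yag.Dp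

variable {k : Type} [Field k]

lemma sm_spec {A B : Type} [CommRing A] [CommRing B] [Algebra A B] (n : ℕ)
    (h : Algebra.IsStandardSmoothOfRelativeDimension n A B) :
    SmoothOfRelativeDimension n (Spec.map (CommRingCat.ofHom (algebraMap A B))) := by
  rw [HasRingHomProperty.Spec_iff (P := @SmoothOfRelativeDimension n)]
  exact RingHom.locally_of RingHom.isStandardSmoothOfRelativeDimension_respectsIso _
    ((RingHom.isStandardSmoothOfRelativeDimension_algebraMap n).mpr h)

lemma sm_line (r : Fin 2) (I : Ideal (R2 k)) (hI : I = Ideal.span {X r}) :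
    Algebra.IsStandardSmoothOfRelativeDimension 1 k (R2 k ⧸ I) := by
  obtain rfl : I = Ideal.span (Set.range fun _ : Unit => (X r : R2 k)) := by
    rw [hI, Set.range_const]
  let Q := Algebra.PreSubmersivePresentation.naive (v := fun _ : Unit => (X r : R2 k))
    (fun _ => r) (Function.injective_of_subsingleton _)
  refine Algebra.SubmersivePresentation.isStandardSmoothOfRelativeDimension ⟨Q, ?_⟩ ?_
  · rw [Q.jacobian_eq_jacobiMatrix_det, Matrix.det_unique,
      Algebra.PreSubmersivePresentation.jacobiMatrix_naive]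
    simp
  · simp [Algebra.Presentation.dimension]

lemma sm_plane : Algebra.IsStandardSmoothOfRelativeDimension 2 k (R2 k) := by
  let Q := Algebra.PreSubmersivePresentation.naive (v := (Empty.elim : Empty → R2 k))
    (Empty.elim : Empty → Fin 2) (Function.injective_of_subsingleton _)
  have : Algebra.IsStandardSmoothOfRelativeDimension 2 k
      (R2 k ⧸ Ideal.span (Set.range (Empty.elim : Empty → R2 k))) := by
    refine Algebra.SubmersivePresentation.isStandardSmoothOfRelativeDimension ⟨Q, ?_⟩ ?_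
    · rw [Q.jacobian_eq_jacobiMatrix_det, Matrix.det_isEmpty, map_one]
      exact isUnit_one
    · simp [Algebra.Presentation.dimension]
  exact Algebra.IsStandardSmoothOfRelativeDimension.of_algEquiv 2
    ((Ideal.quotientEquivAlgOfEq k (show Ideal.span (Set.range (Empty.elim : Empty → R2 k)) = ⊥ by
      simp)).trans (AlgEquiv.quotientBot k (R2 k)))

lemma dec (r : Fin 2) (f : R2 k) :
    ∃ g : Polynomial k, f - Polynomial.aeval (X r.rev : R2 k) g ∈ Ideal.span {(X r : R2 k)} := by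
  induction f using MvPolynomial.induction_on with
  | C a => exact ⟨Polynomial.C a, by simp⟩
  | add p q hp hq =>
    obtain ⟨g, hg⟩ := hp
    obtain ⟨g', hg'⟩ := hq
    exact ⟨g + g', by convert add_mem hg hg' using 1; rw [map_add]; ring⟩
  | mul_X p i hp =>
    obtain ⟨g, hg⟩ := hp
    by_cases h : i = r
    · exact ⟨0, by simpa [h] using Ideal.mul_mem_left _ p (Ideal.mem_span_singleton_self _)⟩
    · have : i = r.rev := (by decide : ∀ i r : Fin 2, ¬ i = r → i = r.rev) i r h
      exact ⟨g * Polynomial.X, by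
        convert Ideal.mul_mem_right (X i) _ hg using 1
        rw [map_mul, Polynomial.aeval_X, this]; ring⟩

lemma ker_line {L : Type} [CommRing L] [Algebra k L] (x : Fin 2 → L) (r : Fin 2) (h0 : x r = 0)
    (h1 : Transcendental k (x r.rev)) :
    RingHom.ker (aeval x : R2 k →ₐ[k] L).toRingHom = Ideal.span {X r} := by
  have h2 : Ideal.span {X r} ≤ RingHom.ker (aeval x : R2 k →ₐ[k] L).toRingHom := by
    rw [Ideal.span_singleton_le_iff_mem, RingHom.mem_ker]
    simpa using h0
  refine le_antisymm (fun f hf => ?_) h2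
  obtain ⟨g, hg⟩ := dec r f
  have h3 : aeval x (f - Polynomial.aeval (X r.rev : R2 k) g) = 0 := h2 hg
  rw [map_sub, show aeval x f = 0 from hf, zero_sub, neg_eq_zero,
    ← Polynomial.aeval_algHom_apply, aeval_X] at h3
  rw [transcendental_iff.mp h1 g h3, map_zero, sub_zero] at hg
  exact hg

lemma ker_orig : RingHom.ker (aeval ![0, 0] : R2 k →ₐ[k] k).toRingHom =
    Ideal.span {X 0} ⊔ Ideal.span {X 1} := by
  have hX : ∀ i : Fin 2, (X i : R2 k) ∈ Ideal.span {X 0} ⊔ Ideal.span {X 1} := fun i => by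
    fin_cases i
    exacts [Ideal.mem_sup_left (Ideal.mem_span_singleton_self _),
      Ideal.mem_sup_right (Ideal.mem_span_singleton_self _)]
  have key : ∀ f : R2 k, f - C (aeval (![0, 0] : Fin 2 → k) f) ∈
      Ideal.span {X 0} ⊔ Ideal.span {X 1} := fun f => by
    induction f using MvPolynomial.induction_on with
    | C a => simp
    | add p q hp hq => convert add_mem hp hq using 1; rw [map_add, map_add]; ring
    | mul_X p i _ =>
      have : aeval (![0, 0] : Fin 2 → k) (p * X i) = 0 := by fin_cases i <;> simp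
      rw [this, map_zero, sub_zero]
      exact Ideal.mul_mem_left _ _ (hX i)
  refine le_antisymm (fun f hf => ?_) (sup_le ?_ ?_)
  · have := key f
    rwa [show aeval (![0, 0] : Fin 2 → k) f = 0 from hf, map_zero, sub_zero] at this
  all_goals
    rw [Ideal.span_singleton_le_iff_mem, RingHom.mem_ker]
    simp

lemma inf_XX : Ideal.span {(X 0 : R2 k)} ⊓ Ideal.span {X 1} = Ideal.span {X 0 * X 1} := by
  refine le_antisymm (fun f hf => ?_) ?_
  · obtain ⟨g, rfl⟩ := Ideal.mem_span_singleton.mp hf.1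
    rcases (X_prime (R := k) (i := (1 : Fin 2))).dvd_or_dvd (Ideal.mem_span_singleton.mp hf.2)
      with h | h
    · exact absurd (X_dvd_X.mp h) (by decide)
    · exact Ideal.mem_span_singleton.mpr (mul_dvd_mul_left _ h)
  · rw [Ideal.span_singleton_le_iff_mem]
    exact ⟨Ideal.mem_span_singleton.mpr (dvd_mul_right _ _),
      Ideal.mem_span_singleton.mpr (dvd_mul_left _ _)⟩

lemma simple_X : Simple k (RatFunc.X : RatFunc k) :=
  ⟨RatFunc.transcendental_X, RatFunc.adjoin_X⟩

lemma simple_inv {L : Type} [Field L] [Algebra k L] {x : L} (h : Simple k x) : Simple k x⁻¹ := by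
  refine ⟨fun h' => h.1 (IsAlgebraic.inv_iff.mp h'), top_le_iff.mp ?_⟩
  rw [← h.2, IntermediateField.adjoin_simple_le_iff]
  simpa using inv_mem (IntermediateField.mem_adjoin_simple_self k x⁻¹)

lemma simple_ne {L : Type} [Field L] [Algebra k L] {x : L} (h : Simple k x) : x ≠ 0 :=
  fun h0 => h.1 (h0 ▸ isAlgebraic_zero)

lemma pre_sp {L : Type} [Field L] [Algebra k L] {x : L} (h : Simple k x) :
    IsPreimmersion (sp (k := k) ![x, 0]) := by
  refine IsPreimmersion.mk_SpecMap (Topology.IsEmbedding.of_subsingleton _)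
    (RingHom.surjectiveOnStalks_of_exists_div fun z => ?_)
  have hz : z ∈ IntermediateField.adjoin k {x} := h.2 ▸ trivial
  obtain ⟨f, g, rfl⟩ := (IntermediateField.mem_adjoin_simple_iff k z).mp hz
  have e : ∀ f : Polynomial k, (aeval ![x, 0] : R2 k →ₐ[k] L) (Polynomial.aeval (X 0) f) =
      Polynomial.aeval x f := fun f => by
    rw [← Polynomial.aeval_algHom_apply]
    simp
  by_cases hg : Polynomial.aeval x g = 0
  · exact ⟨0, 1, by simp, by simp [hg]⟩
  · refine ⟨Polynomial.aeval (X 0) f, Polynomial.aeval (X 0) g, ?_, ?_⟩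
    · exact (e g).symm ▸ Ne.isUnit hg
    · exact (congrArg (· * _) (e g)).trans ((mul_div_cancel₀ _ hg).trans (e f).symm)

/-- The ideal of the curve through the charts `j`, `j + 1` in the chart `i`. -/
noncomputable def tab (k : Type) [Field k] (j i : Fin 5) : Ideal (R2 k) :=
  if i = j then Ideal.span {X 1} else if i = j + 1 then Ideal.span {X 0} else ⊤

namespace Surf

variable (S : Surf k)

instance (j : Fin 5) : IsOpenImmersion (S.ch j) := S.op j

/-- The cover by the charts. -/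
noncomputable def cov : S.T.OpenCover :=
  Scheme.Cover.mkOfCovers (Fin 5) (fun _ => Spec (CommRingCat.of (R2 k))) S.ch S.cover

lemma hom_ext {Z : Scheme.{0}} {f g : S.T ⟶ Z} (h : ∀ j, S.ch j ≫ f = S.ch j ≫ g) : f = g :=
  S.cov.hom_ext _ _ h

lemma smooth : SmoothOfRelativeDimension 2 S.s := by
  refine IsZariskiLocalAtSource.of_openCover (P := @SmoothOfRelativeDimension 2) S.cov fun j => ?_
  change SmoothOfRelativeDimension 2 (S.ch j ≫ S.s)
  rw [S.ch_s]
  exact sm_spec 2 sm_plane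

variable {L : Type} [Field L] [Algebra k L]

/-- The generic point of a boundary curve. -/
noncomputable abbrev γ (j : Fin 5) (x : L) : Spec (CommRingCat.of L) ⟶ S.T :=
  sp ![x, 0] ≫ S.ch j

lemma γ_eq (j : Fin 5) {x : L} (h : Simple k x) : S.γ j x = sp ![0, x⁻¹] ≫ S.ch (j + 1) :=
  S.adj j L x x⁻¹ (mul_inv_cancel₀ (simple_ne h))

lemma idl_γ (hI : IdlAPI) (j : Fin 5) {x : L} (h : Simple k x) (i : Fin 5) :
    idl (S.ch i) (S.γ j x).imageι.ker = tab k j i := by
  rw [Scheme.IdealSheafData.ker_subschemeι, tab]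
  split_ifs with h1 h2
  · rw [h1, hI.ker _ _ _ _ _ (S.op j) inferInstance]
    exact ker_line _ 1 rfl h.1
  · rw [h2, S.γ_eq j h, hI.ker _ _ _ _ _ (S.op _) inferInstance]
    exact ker_line _ 0 rfl (simple_inv h).1
  · refine hI.out _ _ _ _ _ (S.op i) inferInstance fun z p => ?_
    rw [Scheme.Hom.comp_apply]
    refine S.miss i j _ p h1 h2 ?_
    change (aeval ![x, 0] : R2 k →ₐ[k] L) (X 1) ∈ z.asIdeal
    simp

lemma tab_le (hI : IdlAPI) (j : Fin 5) {x : L} (h : Simple k x) (y : (S.γ j x).image) (i : Fin 5)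
    (p : PrimeSpectrum (R2 k)) (hp : S.ch i p = (S.γ j x).imageι y) : i = j ∨ i = j + 1 := by
  have h1 : S.ch i p ∈ (S.γ j x).imageι.ker.support := by
    rw [hp]
    exact (S.γ j x).imageι.range_subset_ker_support ⟨y, rfl⟩
  rw [hI.supp, S.idl_γ hI j h, tab] at h1
  by_contra h2
  rw [not_or] at h2
  rw [if_neg h2.1, if_neg h2.2] at h1
  exact p.isPrime.ne_top (top_le_iff.mp h1)

lemma curve (hI : IdlAPI) (j : Fin 5) {x : L} (h : Simple k x) :
    IsIntegral (S.γ j x).image ∧ SmoothOfRelativeDimension 1 ((S.γ j x).imageι ≫ S.s) ∧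
      IsGen (S.γ j x).toImage := by
  have h1 : ∀ i, ∃ c : Spec (CommRingCat.of (R2 k ⧸ tab k j i)) ⟶ (S.γ j x).image,
      IsPullback c (Spec.map (CommRingCat.ofHom (Ideal.Quotient.mk _))) (S.γ j x).imageι (S.ch i) :=
    fun i => hI.sub _ _ _ _ _ _ _ inferInstance Ideal.Quotient.mk_surjective
      (Ideal.mk_ker.trans (S.idl_γ hI j h i).symm)
  choose c hc using h1
  have h2 : ∀ i, IsOpenImmersion (c i) := fun i =>
    MorphismProperty.of_isPullback (P := @IsOpenImmersion) (hc i).flip (S.op i)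
  let 𝒰 : (S.γ j x).image.OpenCover := Scheme.Cover.mkOfCovers {i // i = j ∨ i = j + 1}
    (fun i => Spec (CommRingCat.of (R2 k ⧸ tab k j i))) (fun i => c i) (fun y => by
      obtain ⟨i, p, hp⟩ := S.cover ((S.γ j x).imageι y)
      obtain ⟨z, hz, -⟩ := Scheme.exists_preimage_of_isPullback (hc i) y p hp.symm
      exact ⟨⟨i, S.tab_le hI j h y i p hp⟩, z, hz⟩) fun i => h2 i
  have h3 : ∀ i : {i // i = j ∨ i = j + 1}, ∃ r, tab k j i = Ideal.span {X r} := by
    rintro ⟨i, hi⟩
    by_cases h' : i = j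
    · exact ⟨1, if_pos h'⟩
    · exact ⟨0, (if_neg h').trans (if_pos (hi.resolve_left h'))⟩
  have h4 : ∀ i, IsReduced (𝒰.X i) := fun i => by
    obtain ⟨r, hr⟩ := h3 i
    have : (tab k j i.1).IsPrime := hr ▸ (Ideal.span_singleton_prime (X_ne_zero r)).mpr X_prime
    exact inferInstanceAs (IsReduced (Spec (CommRingCat.of (R2 k ⧸ tab k j i.1))))
  have h5 := IsReduced.of_openCover _ 𝒰
  have h6 : IsDominant (S.γ j x).toImage := inferInstance
  have h7 : IrreducibleSpace (S.γ j x).image := by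
    rw [irreducibleSpace_def, Set.top_eq_univ, ← h6.denseRange.closure_range,
      isIrreducible_iff_closure, ← Set.image_univ]
    exact (IrreducibleSpace.isIrreducible_univ _).image _ (S.γ j x).toImage.continuous.continuousOn
  refine ⟨isIntegral_of_irreducibleSpace_of_isReduced _, ?_, h6, ?_⟩
  · refine IsZariskiLocalAtSource.of_openCover (P := @SmoothOfRelativeDimension 1) 𝒰 fun i => ?_
    obtain ⟨r, hr⟩ := h3 i
    change SmoothOfRelativeDimension 1 (c i.1 ≫ _ ≫ _)
    rw [reassoc_of% (hc i.1).w, S.ch_s, sm_comp _ _ (algebraMap k _) rfl]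
    exact sm_spec 1 (sm_line r _ hr)
  · have := pre_sp h
    have : IsPreimmersion ((S.γ j x).toImage ≫ (S.γ j x).imageι) := by
      rw [Scheme.Hom.toImage_imageι]
      infer_instance
    exact IsPreimmersion.of_comp _ (S.γ j x).imageι

lemma node (hI : IdlAPI) {x y : L} (hx : Simple k x) (hy : Simple k y) :
    ∃ d : Spec (CommRingCat.of k) ≅ pullback (S.γ 1 x).imageι (S.γ 2 y).imageι,
      d.hom ≫ pullback.fst _ _ ≫ (S.γ 1 x).imageι = sp ![0, 0] ≫ S.ch 2 := by
  obtain ⟨c, hc⟩ := hI.sub _ _ _ (CommRingCat.of (R2 k ⧸ Ideal.span {(X 0 : R2 k)})) (S.ch 2)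
    (S.γ 1 x).imageι (CommRingCat.ofHom (Ideal.Quotient.mk _)) inferInstance
    Ideal.Quotient.mk_surjective (Ideal.mk_ker.trans (S.idl_γ hI 1 hx 2).symm)
  have h0 : Ideal.span {(X 0 : R2 k)} ≤ RingHom.ker (aeval ![0, 0] : R2 k →ₐ[k] k).toRingHom :=
    ker_orig (k := k) ▸ le_sup_left
  let ev : (R2 k ⧸ Ideal.span {(X 0 : R2 k)}) →+* k := Ideal.Quotient.lift _ _ h0
  obtain ⟨d, hd⟩ := hI.sub _ _ _ (CommRingCat.of k) c
    (pullback.fst (S.γ 1 x).imageι (S.γ 2 y).imageι) (CommRingCat.ofHom ev) inferInstance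
    (fun a => ⟨Ideal.Quotient.mk _ (C a), by simp [ev]⟩) (by
      rw [Scheme.IdealSheafData.ker_fst_of_isClosedImmersion, ← hI.comap, hc.w, hI.map,
        S.idl_γ hI 2 hy 2, CommRingCat.hom_ofHom, CommRingCat.hom_ofHom, Ideal.ker_quotient_lift,
        ker_orig, Ideal.map_sup, Ideal.map_quotient_self, bot_sup_eq]
      rfl)
  have h1 := hd.paste_vert hc
  have h2 : IsOpenImmersion d :=
    MorphismProperty.of_isPullback (P := @IsOpenImmersion) h1.flip (S.op 2)
  have h3 : Surjective d := ⟨fun z => by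
    obtain ⟨i, p, hp⟩ := S.cover ((pullback.fst (S.γ 1 x).imageι (S.γ 2 y).imageι ≫
      (S.γ 1 x).imageι) z)
    have e1 := S.tab_le hI 1 hx _ i p (hp.trans (Scheme.Hom.comp_apply _ _ _))
    have e2 := S.tab_le hI 2 hy _ i p (hp.trans (by
      rw [pullback.condition]
      exact Scheme.Hom.comp_apply _ _ _))
    obtain rfl : i = 2 :=
      (by decide : ∀ i : Fin 5, i = 1 ∨ i = 1 + 1 → i = 2 ∨ i = 2 + 1 → i = 2) i e1 e2
    obtain ⟨w, hw, -⟩ := Scheme.exists_preimage_of_isPullback h1 z p hp.symm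
    exact ⟨w, hw⟩⟩
  have h4 := (isIso_iff_isOpenImmersion_and_surjective d).mpr ⟨h2, h3⟩
  refine ⟨asIso d, h1.w.trans ?_⟩
  rw [sm_comp ev _ (aeval ![0, 0] : R2 k →ₐ[k] k).toRingHom rfl]

end Surf

end Pool.Agent.MP_d45d16_ag.Yag.Dp

end MrgPart0

-- ======== part 1: formerly Pool.Agent.MP_d45d16_ag.yag.Dp
section MrgPart1

/-!
The double point relation on the plane blown up in two points.
-/

set_option autoImplicit false
set_option linter.unusedSectionVars false
set_option linter.style.haveILetI false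

open AlgebraicGeometry CategoryTheory Limits MvPolynomial

namespace Pool.Agent.MP_d45d16_ag.Yag

namespace Dp

variable {k : Type} [Field k]

lemma span_map {A B ι : Type} [CommRing A] [CommRing B] (φ : A →+* B) (w : ι → A)
    (h : Ideal.span (Set.range w) = ⊤) : Ideal.span (Set.range (φ ∘ w)) = ⊤ := by
  rw [Set.range_comp, ← Ideal.map_span, h, Ideal.map_top]

lemma pt_congr {R C σ : Type} [CommRing R] [CommRing C] {c c' : R →+* C} {w w' : σ → C} {h h'}
    (e : c = c') (e' : w = w') : pt c w h = pt c' w' h' := by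
  subst e e'
  rfl

lemma span_aeval {C σ : Type} [CommRing C] [Algebra k C] (x : Fin 2 → C) (A : σ → R2 k)
    (hA : Ideal.span (Set.range A) = ⊤) :
    Ideal.span (Set.range fun i => aeval x (A i)) = ⊤ :=
  span_map (aeval x : R2 k →ₐ[k] C).toRingHom A hA

lemma sp_pt (hT : PtAPI) {R C σ : Type} [CommRing R] [CommRing C] [Algebra k C] (c : R →+* k)
    (x : Fin 2 → C) (A : σ → R2 k) (hA : Ideal.span (Set.range A) = ⊤) :
    sp x ≫ pt ((algebraMap k (R2 k)).comp c) A hA =
      pt ((algebraMap k C).comp c) (fun i => aeval x (A i)) (span_aeval x A hA) :=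
  (hT.nat _ _ _ _ _ _ _ _ (span_map _ _ hA)).trans
    (pt_congr (RingHom.ext fun _ => (aeval x).commutes _) rfl)

lemma glue_pt (hT : PtAPI) (S : Surf k) {R σ : Type} [CommRing R] (c : R →+* k)
    (A : Fin 5 → σ → R2 k) (a : σ → K2 k) (l : Fin 5 → K2 k)
    (hA : ∀ j, Ideal.span (Set.range (A j)) = ⊤) (hl : ∀ j i, aeval (co k j) (A j i) = l j * a i) :
    ∃ u : S.T ⟶ PP R σ, ∀ j, S.ch j ≫ u = pt ((algebraMap k (R2 k)).comp c) (A j) (hA j) := by
  have ha : Ideal.span (Set.range a) = ⊤ := by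
    rw [eq_top_iff, ← span_aeval (co k 0) _ (hA 0), Ideal.span_le]
    rintro _ ⟨i, rfl⟩
    beta_reduce
    rw [hl]
    exact Ideal.mul_mem_left _ (l 0) (Ideal.subset_span ⟨i, rfl⟩)
  refine S.glue _ _ (pt ((algebraMap k (K2 k)).comp c) a ha) (hT.sep R σ) fun j => ?_
  rw [sp_pt hT]
  exact hT.scale _ _ _ _ a _ ha _ (l j) (hl j)

lemma eval₂_scale {F C ι : Type} [CommRing F] [CommRing C] (c : F →+* C) (a : ι → C) (l : C)
    (f : MvPolynomial ι F) (n : ℕ) (hf : f.IsHomogeneous n) :
    eval₂ c (fun i => l * a i) f = l ^ n * eval₂ c a f := by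
  rw [eval₂_eq, eval₂_eq, Finset.mul_sum]
  refine Finset.sum_congr rfl fun d hd => ?_
  have : ∑ i ∈ d.support, d i = n := by
    rw [← hf (mem_support_iff.mp hd)]
    simp [Finsupp.weight_apply, Finsupp.sum]
  simp only [mul_pow, Finset.prod_mul_distrib, Finset.prod_pow_eq_pow_sum, this]
  ring

lemma mem_zeros (hT : PtAPI) (S : Surf k) {F ι : Type} [Field F] (c : F →+* k)
    (A : Fin 5 → ι → R2 k) (a : ι → K2 k) (l : Fin 5 → K2 k)
    (hA : ∀ j, Ideal.span (Set.range (A j)) = ⊤) (hl : ∀ j i, aeval (co k j) (A j i) = l j * a i)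
    (I : Set (MvPolynomial ι F)) (hI : HomSet I) (hs : Sat I ((algebraMap k (K2 k)).comp c) a)
    (u : S.T ⟶ PP F ι) (hu : ∀ j, S.ch j ≫ u = pt ((algebraMap k (R2 k)).comp c) (A j) (hA j))
    (y : S.T) : u y ∈ zeros I := by
  obtain ⟨j, p, rfl⟩ := S.cover y
  rw [← Scheme.Hom.comp_apply, hu]
  refine (hT.mem _ _ _ _ _ _ I p hI).mpr fun f hf => ?_
  obtain ⟨n, hn⟩ := hI f hf
  have : eval₂ ((algebraMap k (R2 k)).comp c) (A j) f = 0 := by
    refine co_inj k j ?_
    have e := eval₂_comp_left (aeval (co k j) : R2 k →ₐ[k] K2 k).toRingHom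
      ((algebraMap k (R2 k)).comp c) (A j) f
    rw [show (aeval (co k j) : R2 k →ₐ[k] K2 k).toRingHom.comp ((algebraMap k (R2 k)).comp c) =
      (algebraMap k (K2 k)).comp c from RingHom.ext fun x => (aeval (co k j)).commutes _,
      show (aeval (co k j) : R2 k →ₐ[k] K2 k).toRingHom ∘ A j = fun i => l j * a i from
        funext (hl j), eval₂_scale _ _ _ _ _ hn, hs f hf, mul_zero] at e
    exact e.trans (map_zero _).symm
  rw [this]
  exact zero_mem _

/-- Homogeneous coordinates of the map to the projective line. -/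
noncomputable def wπ (k : Type) [Field k] : Fin 5 → Fin 2 → R2 k :=
  ![![X 0, 1], ![1, X 1], ![1, X 0 * X 1], ![1, X 0], ![X 1, 1]]

lemma wπ_span (j : Fin 5) : Ideal.span (Set.range (wπ k j)) = ⊤ := by
  refine (Ideal.eq_top_iff_one _).mpr (Ideal.subset_span ?_)
  fin_cases j
  exacts [⟨1, rfl⟩, ⟨0, rfl⟩, ⟨0, rfl⟩, ⟨0, rfl⟩, ⟨1, rfl⟩]

lemma wπ_co (j : Fin 5) (i : Fin 2) : aeval (co k j) (wπ k j i) =
    ![1, (co k 0 0)⁻¹, (co k 0 0)⁻¹, (co k 0 0)⁻¹, 1] j * ![co k 0 0, 1] i := by
  have h0 := X_ne k 0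
  have h1 := X_ne k 1
  fin_cases j <;> fin_cases i <;> simp [co, wπ, h0]
  field_simp

lemma tab_C (i : Fin 5) : tab k 4 i = Ideal.span {wπ k i (Fin.rev 1)} := by
  fin_cases i <;> simp [tab, wπ, Fin.rev]

lemma tab_AB (i : Fin 5) : Ideal.span {wπ k i (Fin.rev 0)} = tab k 1 i ⊓ tab k 2 i := by
  fin_cases i <;> simp [tab, wπ, Fin.rev, inf_XX]

lemma sp_s (S : Surf k) {C : Type} [CommRing C] [Algebra k C] (x : Fin 2 → C) (j : Fin 5) :
    sp x ≫ S.ch j ≫ S.s = Spec.map (CommRingCat.ofHom (algebraMap k C)) := by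
  rw [S.ch_s]
  exact sm_comp _ _ _ (RingHom.ext fun c => (aeval x).commutes c)

end Dp

open Dp in
theorem dp_stmt (hT : PtAPI) (hP : ProjAPI) (hI : IdlAPI) : DpStmt := by
  intro F k ι _ _ _ M A B a b l m hA hB hl hm ha hb
  obtain ⟨S⟩ := exists_surf (k := k) hP
  obtain ⟨u, hu⟩ := glue_pt hT S (algebraMap F k) A a l hA hl
  obtain ⟨v, hv⟩ := glue_pt hT S (algebraMap F k) B b m hB hm
  obtain ⟨π, hπ⟩ := glue_pt hT S (Int.castRingHom k) (wπ k) _ _ wπ_span wπ_co
  have hs : ∀ (A : Fin 5 → ι → R2 k) (hA : ∀ j, Ideal.span (Set.range (A j)) = ⊤)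
      (u : S.T ⟶ PP F ι), (∀ j, S.ch j ≫ u =
        pt ((algebraMap k (R2 k)).comp (algebraMap F k)) (A j) (hA j)) →
      u ≫ PP.s F ι = S.s ≫ Spec.map (CommRingCat.ofHom (algebraMap F k)) := fun A hA u hu =>
    S.hom_ext fun j => by
      rw [reassoc_of% hu j, hT.str, reassoc_of% S.ch_s j, sm_comp _ _ _ rfl]
  obtain ⟨g, hg, hgu, hgv⟩ := M.lift S.T S.s u v S.red ⟨hs A hA u hu, hs B hB v hv,
    mem_zeros hT S _ A a l hA hl _ M.hom₁ ha u hu, mem_zeros hT S _ B b m hB hm _ M.hom₂ hb v hv⟩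
  have hM := M.proper
  have hAt : ∀ (j : Fin 5) (x : Fin 2 → RatFunc k), M.At (sp x ≫ S.ch j ≫ g)
      (algebraMap k (RatFunc k)) (fun i => aeval x (A j i)) fun i => aeval x (B j i) := by
    intro j x
    refine ⟨?_, span_aeval x _ (hA j), span_aeval x _ (hB j), ?_, ?_⟩
    · rw [Category.assoc, Category.assoc, hg, sp_s]
    · rw [Category.assoc, Category.assoc, hgu, hu, sp_pt hT]
    · rw [Category.assoc, Category.assoc, hgv, hv, sp_pt hT]
  have hgp : IsProj g := hP.of_comp _ _ _ g M.s (hg.symm ▸ S.proj) inferInstance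
  let crv : ∀ (j : Fin 5) (x : RatFunc k), Simple k x → Curve M.s := fun j x hx =>
    { Y := (S.γ j x).image
      f := (S.γ j x).imageι ≫ g
      smooth := by
        rw [Category.assoc, hg]
        exact (S.curve hI j hx).2.1
      proj := hP.closed _ _ _ _ _ inferInstance hgp }
  have hrep : ∀ j x hx, Rep (crv j x hx) (S.γ j x ≫ g) := fun j x hx =>
    ⟨(S.curve hI j hx).1, (S.γ j x).toImage, (S.curve hI j hx).2.2,
      Scheme.Hom.toImage_imageι_assoc _ _⟩
  have h1 : Simple k (RatFunc.X : RatFunc k) := simple_X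
  have h2 := simple_inv h1
  obtain ⟨d, hd⟩ := S.node hI h1 h2
  have hE : (prod.fst ≫ sp (![0, 0] : Fin 2 → k) ≫ S.ch 2 ≫ g) ≫ M.s =
      (prod.fst : Spec (CommRingCat.of k) ⨯ PP ℤ (Fin 2) ⟶ _) := by
    rw [Category.assoc, Category.assoc, Category.assoc, hg, sp_s, Algebra.algebraMap_self,
      CommRingCat.ofHom_id, Spec.map_id, Category.comp_id]
  have hfst : ∀ Y : Scheme.{0}, IsProj (prod.fst : Y ⨯ PP ℤ (Fin 2) ⟶ Y) := fun Y =>
    ⟨1, prod.snd, by
      rw [prod.lift_fst_snd]
      infer_instance⟩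
  let E : Curve M.s :=
    { Y := Spec (CommRingCat.of k) ⨯ PP ℤ (Fin 2)
      f := prod.fst ≫ sp (![0, 0] : Fin 2 → k) ≫ S.ch 2 ≫ g
      smooth := by
        rw [hE]
        exact hP.line_smooth _
      proj := hP.of_comp _ _ _ _ M.s (hE.symm ▸ hfst _) inferInstance }
  have hD : IsDouble (crv 4 _ h2) (crv 1 _ h1) (crv 2 _ h2) E := by
    refine ⟨S.T, g, π, (S.γ 4 _).imageι, (S.γ 1 _).imageι, (S.γ 2 _).imageι,
      prod.mapIso d (Iso.refl _), hg.symm ▸ S.smooth, ?_, rfl, rfl, rfl, ?_, ?_,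
      inferInstanceAs (IsClosedImmersion (S.γ 1 _).imageι),
      inferInstanceAs (IsClosedImmersion (S.γ 2 _).imageι), ?_, ?_⟩
    · have := hP.proper _ _ _ (hfst M.X)
      refine hP.of_comp _ _ _ _ (prod.fst ≫ M.s) ?_ inferInstance
      rw [prod.lift_fst_assoc, hg]
      exact S.proj
    · change prod.map d.hom (𝟙 _) ≫ prod.fst ≫ pullback.fst _ _ ≫ (S.γ 1 _).imageι ≫ g =
        prod.fst ≫ sp (![0, 0] : Fin 2 → k) ≫ S.ch 2 ≫ g
      rw [prod.map_fst_assoc, reassoc_of% hd]
    · have := hT.vtx_closed 1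
      have hk : (pullback.fst π (vtx 1)).ker = (S.γ 4 (RatFunc.X : RatFunc k)⁻¹).imageι.ker :=
        hI.ext _ _ _ S.ch _ _ S.op S.cover fun i => by
          rw [S.idl_γ hI 4 h2, hI.fib _ _ _ _ _ _ _ 1 (hπ i), tab_C]
      have e := IsClosedImmersion.lift_fac _ _ hk.le
      refine isPullback_of_isClosedImmersion (S.γ 4 (RatFunc.X : RatFunc k)⁻¹).imageι _ _ _ ?_ ?_
      · rw [← e, Category.assoc, pullback.condition, ← Category.assoc]
        exact specZIsTerminal.hom_ext _ _ =≫ _
      · rw [← Scheme.IdealSheafData.ker_fst_of_isClosedImmersion, hk]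
    · refine hI.ext _ _ _ S.ch _ _ S.op S.cover fun i => ?_
      rw [hI.inf _ _ _ _ _ inferInstance, hI.fib _ _ _ _ _ _ _ 0 (hπ i), tab_AB]
      exact congrArg₂ _ (S.idl_γ hI 1 h1 i).symm (S.idl_γ hI 2 h2 i).symm
    · have e : pullback.fst (S.γ 1 (RatFunc.X : RatFunc k)).imageι
          (S.γ 2 (RatFunc.X : RatFunc k)⁻¹).imageι ≫ ((S.γ 1 _).imageι ≫ g) ≫ M.s = d.inv := by
        rw [← Iso.hom_comp_eq_id, Category.assoc, hg, reassoc_of% hd,
          sp_s, Algebra.algebraMap_self, CommRingCat.ofHom_id, Spec.map_id]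
      exact e.symm ▸ inferInstanceAs (SmoothOfRelativeDimension 0 d.inv)
  obtain ⟨hint, jE, hj, hj'⟩ := hP.line_gen k
  refine ⟨cls (crv 4 _ h2), cls (crv 1 _ h1), cls (crv 2 _ h2), cls E,
    ⟨_, _, ?_, hAt 0 _, rfl⟩, ⟨_, _, ?_, hAt 1 _, rfl⟩, ⟨_, _, ?_, hAt 3 _, rfl⟩,
    ⟨_, _, ⟨hint, jE, hj, ?_⟩, hAt 2 _, rfl⟩, ?_⟩
  · have := hrep 4 _ h2
    rwa [S.γ_eq 4 h2, inv_inv, Category.assoc] at this
  · have := hrep 1 _ h1
    rwa [Category.assoc] at this
  · have := hrep 2 _ h2
    rwa [S.γ_eq 2 h2, inv_inv, Category.assoc] at this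
  · change jE ≫ prod.fst ≫ sp (![0, 0] : Fin 2 → k) ≫ S.ch 2 ≫ g = _
    rw [reassoc_of% hj', reassoc_of% sm_comp (algebraMap k (RatFunc k))
      (aeval ![0, 0] : R2 k →ₐ[k] k).toRingHom (aeval ![0, 0] : R2 k →ₐ[k] RatFunc k).toRingHom
      (MvPolynomial.ringHom_ext (fun c => by simp) fun i => by fin_cases i <;> simp)]
  · have : (QuotientAddGroup.mk (FreeAbelianGroup.of (crv 4 _ h2) - FreeAbelianGroup.of (crv 1 _ h1)
        - FreeAbelianGroup.of (crv 2 _ h2) + FreeAbelianGroup.of E) : Omega1 M.s) = 0 :=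
      (QuotientAddGroup.eq_zero_iff _).mpr
        (AddSubgroup.subset_closure (Or.inr ⟨_, _, _, _, hD, rfl⟩))
    rw [QuotientAddGroup.mk_add, QuotientAddGroup.mk_sub, QuotientAddGroup.mk_sub] at this
    rw [← sub_eq_zero, ← this]
    simp only [cls]
    abel

end Pool.Agent.MP_d45d16_ag.Yag

end MrgPart1

-- ======== part 2: formerly Pool.Agent.MP_d45d16_ag.yag.Sm
section MrgPart2

/-!
Points of smooth schemes over a field.
-/

set_option autoImplicit false

open AlgebraicGeometry CategoryTheory Limits IsLocalRing Algebra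

namespace Pool.Agent.MP_d45d16_ag.Yag

namespace Sm

theorem td_quot {F : Type} [Field F] {n : ℕ} (p : Ideal (MvPolynomial (Fin n) F)) [p.IsPrime] :
    trdeg F (MvPolynomial (Fin n) F ⧸ p) ≤ n ∧
      (trdeg F (MvPolynomial (Fin n) F ⧸ p) = n ↔ p = ⊥) := by
  have h0 : trdeg F (MvPolynomial (Fin n) F) = n := by
    rw [MvPolynomial.trdeg_of_isDomain]
    simp
  refine ⟨h0 ▸ trdeg_le_of_surjective (Ideal.Quotient.mkₐ F p) (Ideal.Quotient.mkₐ_surjective F p),
    fun h => ?_, fun h => ?_⟩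
  · let x : Fin n → MvPolynomial (Fin n) F ⧸ p := fun i =>
      Ideal.Quotient.mkₐ F p (MvPolynomial.X i)
    have hx : MvPolynomial.aeval x = Ideal.Quotient.mkₐ F p :=
      MvPolynomial.algHom_ext fun i => by simp [x]
    have ht : adjoin F (Set.range x) = ⊤ := by
      rw [adjoin_range_eq_range_aeval, hx, AlgHom.range_eq_top]
      exact Ideal.Quotient.mkₐ_surjective F p
    have : Algebra.IsAlgebraic (adjoin F (Set.range x)) (MvPolynomial (Fin n) F ⧸ p) :=
      ⟨fun z => isAlgebraic_algebraMap (⟨z, ht ▸ mem_top⟩ : adjoin F (Set.range x))⟩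
    have h1 : Function.Injective (MvPolynomial.aeval (R := F) x) :=
      (Algebra.IsAlgebraic.isTranscendenceBasis_of_le_trdeg_of_finite F x (by simp [h])).1
    rw [hx] at h1
    exact (Ideal.Quotient.mkₐ_ker F p).symm.trans ((RingHom.injective_iff_ker_eq_bot _).1 h1)
  · rw [(Ideal.quotientEquivAlgOfEq F h).trdeg_eq, (AlgEquiv.quotientBot F _).trdeg_eq, h0]

theorem td_point {F B E : Type} [Field F] [CommRing B] [Field E] {n : ℕ}
    (g : MvPolynomial (Fin n) F →+* B) (hg : g.Etale) (ψ : B →+* E) (hψ : ψ.SurjectiveOnStalks) :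
    td (ψ.comp (g.comp MvPolynomial.C)) ≤ n ∧
      (td (ψ.comp (g.comp MvPolynomial.C)) = n ↔ (RingHom.ker ψ).comap g = ⊥) := by
  let := g.toAlgebra
  let := (g.comp MvPolynomial.C).toAlgebra
  let := (ψ.comp (g.comp MvPolynomial.C)).toAlgebra
  have : Etale (MvPolynomial (Fin n) F) B := hg
  have : IsScalarTower F (MvPolynomial (Fin n) F) B := .of_algebraMap_eq fun c => rfl
  let q := RingHom.ker ψ
  have : q.IsPrime := RingHom.ker_isPrime ψ
  let p := q.under (MvPolynomial (Fin n) F)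
  let := Localization.AtPrime.algebraOfLiesOver p q
  let ψ' : B →ₐ[F] E := ⟨ψ, fun _ => rfl⟩
  have hu : q.primeCompl ≤ (IsUnit.submonoid E).comap ψ' := fun b hb => isUnit_iff_ne_zero.2 hb
  have hs : Function.Surjective (Ideal.ResidueField.liftₐ q ψ' le_rfl hu) := fun e => by
    obtain ⟨x, r, c, hc, hr, h⟩ := (RingHom.surjective_localRingHom_iff ⊥).1 (hψ ⊥ inferInstance) e
    rw [Ideal.mem_bot] at hc hr
    refine ⟨algebraMap B _ x / algebraMap B _ r, ?_⟩
    rw [map_div₀, Ideal.ResidueField.liftₐ_algebraMap, Ideal.ResidueField.liftₐ_algebraMap]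
    change ψ x / ψ r = e
    rw [div_eq_iff hr, mul_comm]
    exact (mul_left_cancel₀ hc (by rw [← h, mul_assoc])).symm
  have h1 : trdeg F q.ResidueField = trdeg F E :=
    (AlgEquiv.ofBijective _ ⟨(Ideal.ResidueField.liftₐ q ψ' le_rfl hu).injective, hs⟩).trdeg_eq
  have h2 := trdeg_add_eq F p.ResidueField (A := q.ResidueField)
  have h3 := trdeg_add_eq F (MvPolynomial (Fin n) F ⧸ p) (A := p.ResidueField)
  have := IsLocalization.isAlgebraic p.ResidueField (nonZeroDivisors (MvPolynomial (Fin n) F ⧸ p))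
  rw [trdeg_eq_zero (R := p.ResidueField), add_zero] at h2
  rw [trdeg_eq_zero (R := MvPolynomial (Fin n) F ⧸ p), add_zero] at h3
  have h4 : td (ψ.comp (g.comp MvPolynomial.C)) = trdeg F (MvPolynomial (Fin n) F ⧸ p) :=
    (h3.trans (h2.trans h1)).symm
  rw [h4]
  exact td_quot p

theorem min_iff {P B : Type} [CommRing P] [IsDomain P] [CommRing B] (g : P →+* B) (hg : g.Etale)
    (q : PrimeSpectrum B) : (∀ q', q' ≤ q → q' = q) ↔ q.asIdeal.comap g = ⊥ := by
  let := g.toAlgebra
  have : Etale P B := hg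
  refine ⟨fun h => ?_, fun h q' hq => PrimeSpectrum.ext ?_⟩
  · obtain ⟨Q, h1, h2, h3⟩ :=
      q.asIdeal.exists_ideal_le_liesOver_of_le (p := ⊥) (q := q.asIdeal.under P) bot_le
    have h4 : Q = q.asIdeal := congrArg PrimeSpectrum.asIdeal (h ⟨Q, h2⟩ h1)
    rw [← h4]
    exact h3.over.symm
  · exact QuasiFinite.eq_of_le_of_under_eq (R := P) _ _ hq
      ((le_bot_iff.1 (h ▸ Ideal.comap_mono hq)).trans h.symm)

theorem max_eq {P B : Type} [CommRing P] [CommRing B] (g : P →+* B) (hg : g.Etale)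
    (q : PrimeSpectrum B) : maximalIdeal (Localization.AtPrime q.asIdeal) =
      (q.asIdeal.comap g).map ((algebraMap B _).comp g) := by
  let := g.toAlgebra
  have : Etale P B := hg
  let := Localization.AtPrime.algebraOfLiesOver (q.asIdeal.under P) q.asIdeal
  exact ((isUnramifiedAt_iff_map_eq P (q.asIdeal.under P) q.asIdeal).1 inferInstance).2.symm

theorem chart {F : Type} [Field F] {Y : Scheme.{0}} (s : Y ⟶ Spec (CommRingCat.of F)) (n : ℕ)
    (hs : SmoothOfRelativeDimension n s) (y : Y) :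
    ∃ (B : CommRingCat.{0}) (ch : Spec B ⟶ Y) (q : PrimeSpectrum B)
      (g : MvPolynomial (Fin n) F →+* B), IsOpenImmersion ch ∧ ch q = y ∧ g.Etale ∧
      ch ≫ s = Spec.map (CommRingCat.ofHom (g.comp MvPolynomial.C)) := by
  obtain ⟨U, hU, V, hV, hx, e, h⟩ := hs.exists_isStandardSmoothOfRelativeDimension y
  obtain rfl : U = ⊤ := top_le_iff.1 fun z _ => by
    rw [Subsingleton.elim (α := PrimeSpectrum F) z (s y)]
    exact e hx
  have h1 : RingHom.IsStandardSmoothOfRelativeDimension n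
      ((Scheme.ΓSpecIso (CommRingCat.of F)).inv ≫ s.appLE ⊤ V e).hom :=
    RingHom.isStandardSmoothOfRelativeDimension_respectsIso.2 _
      (Scheme.ΓSpecIso (CommRingCat.of F)).symm.commRingCatIsoToRingEquiv h
  obtain ⟨g, hc, hg⟩ := h1.exists_etale_mvPolynomial
  refine ⟨Γ(Y, V), hV.fromSpec, hV.primeIdealOf ⟨y, hx⟩, g, inferInstance,
    hV.fromSpec_primeIdealOf ⟨y, hx⟩, hg, ?_⟩
  rw [hc, ← hU.SpecMap_appLE_fromSpec s hV e, IsAffineOpen.fromSpec_top, Scheme.isoSpec_Spec_inv,
    ← Spec.map_comp]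
  rfl

theorem gen_iff {B : CommRingCat.{0}} {Y : Scheme.{0}} (ch : Spec B ⟶ Y) [IsOpenImmersion ch]
    (q : PrimeSpectrum B) : IsGenPt (ch q) ↔ ∀ q', q' ≤ q → q' = q := by
  refine ⟨fun h q' hq => ch.isOpenEmbedding.injective
    (h _ (((PrimeSpectrum.le_iff_specializes _ _).1 hq).map ch.continuous)), fun h z hz => ?_⟩
  obtain ⟨q', rfl⟩ := hz.mem_open ch.isOpenEmbedding.isOpen_range ⟨q, rfl⟩
  exact congrArg ch (h q' ((PrimeSpectrum.le_iff_specializes _ _).2
    (ch.isOpenEmbedding.isInducing.specializes_iff.1 hz)))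

theorem stalk_equiv {B : CommRingCat.{0}} {Y : Scheme.{0}} (ch : Spec B ⟶ Y) [IsOpenImmersion ch]
    (q : PrimeSpectrum B) :
    Nonempty (Y.presheaf.stalk (ch q) ≃+* Localization.AtPrime q.asIdeal) :=
  ⟨(asIso (ch.stalkMap q) ≪≫ Spec.stalkIso B q).commRingCatIsoToRingEquiv⟩

theorem point {F E : Type} [Field F] [Field E] {Y : Scheme.{0}}
    (s : Y ⟶ Spec (CommRingCat.of F)) (n : ℕ) (ξ : Spec (CommRingCat.of E) ⟶ Y) (c : F →+* E)
    (x : Spec (CommRingCat.of E)) (hs : SmoothOfRelativeDimension n s) (hξ : IsPreimmersion ξ)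
    (hc : ξ ≫ s = Spec.map (CommRingCat.ofHom c)) :
    td c ≤ n ∧ (IsGenPt (ξ x) ↔ td c = n) := by
  obtain ⟨B, ch, q, g, _, hq, hg, h⟩ := chart s n hs (ξ x)
  have hr : Set.range ξ ⊆ Set.range ch := by
    rintro _ ⟨z, rfl⟩
    rw [Subsingleton.elim (α := PrimeSpectrum E) z x]
    exact ⟨q, hq⟩
  obtain ⟨ψ, hψ⟩ := Spec.map_surjective (IsOpenImmersion.lift ch ξ hr)
  have h1 : Spec.map ψ ≫ ch = ξ := hψ ▸ IsOpenImmersion.lift_fac ch ξ hr
  subst h1
  have h2 := ((IsPreimmersion.SpecMap_iff ψ).1 (IsPreimmersion.of_comp _ ch)).2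
  rw [Category.assoc, h, ← Spec.map_comp] at hc
  have h3 : ψ.hom.comp (g.comp MvPolynomial.C) = c :=
    congrArg CommRingCat.Hom.hom (Spec.map_injective hc)
  have h4 : q = Spec.map ψ x := ch.isOpenEmbedding.injective hq
  have h5 : q.asIdeal = RingHom.ker ψ.hom := by
    rw [h4, Subsingleton.elim (α := PrimeSpectrum E) x ⊥]
    rfl
  have h6 := td_point g hg ψ.hom h2
  rw [h3, ← h5] at h6
  rw [← hq, gen_iff, min_iff g hg]
  exact ⟨h6.1, h6.2.symm⟩

theorem field {F : Type} [Field F] {Y : Scheme.{0}} (s : Y ⟶ Spec (CommRingCat.of F)) (n : ℕ)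
    (y : Y) (hs : SmoothOfRelativeDimension n s) (hy : IsGenPt y) :
    IsField (Y.presheaf.stalk y) := by
  obtain ⟨B, ch, q, g, _, rfl, hg, -⟩ := chart s n hs y
  obtain ⟨e⟩ := stalk_equiv ch q
  refine e.toMulEquiv.isField (isField_iff_maximalIdeal_eq.2 ?_)
  rw [max_eq g hg, (min_iff g hg q).1 ((gen_iff ch q).1 hy), Ideal.map_bot]

theorem val {F : Type} [Field F] {Y : Scheme.{0}} [IsIntegral Y] (s : Y ⟶ Spec (CommRingCat.of F))
    (y : Y) (hs : SmoothOfRelativeDimension 1 s) : ValuationRing (Y.presheaf.stalk y) := by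
  obtain ⟨B, ch, q, g, _, rfl, hg, -⟩ := chart s 1 hs y
  obtain ⟨e⟩ := stalk_equiv ch q
  have : IsDomain (Localization.AtPrime q.asIdeal) := e.symm.toMulEquiv.isDomain _
  have : IsNoetherianRing B := by
    let := g.toAlgebra
    have : Etale (MvPolynomial (Fin 1) F) B := hg
    exact FiniteType.isNoetherianRing (MvPolynomial (Fin 1) F) B
  have : IsPrincipalIdealRing (MvPolynomial (Fin 1) F) :=
    .of_surjective (MvPolynomial.uniqueAlgEquiv F (Fin 1)).symm.toRingHom
      (MvPolynomial.uniqueAlgEquiv F (Fin 1)).symm.surjective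
  have h1 : (maximalIdeal (Localization.AtPrime q.asIdeal)).IsPrincipal := by
    rw [max_eq g hg]
    exact Submodule.IsPrincipal.map_ringHom _ (IsPrincipalIdealRing.principal _)
  have : ValuationRing (Localization.AtPrime q.asIdeal) :=
    ((tfae_of_isNoetherianRing_of_isLocalRing_of_isDomain _).out 4 1).1 h1
  exact Function.Surjective.valuationRing e.symm.toRingHom e.symm.surjective

theorem fin {F : Type} [Field F] {Y : Scheme.{0}} (s : Y ⟶ Spec (CommRingCat.of F))
    (hs : IsProper s) : {y : Y | IsGenPt y}.Finite := by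
  have : IsLocallyNoetherian Y := LocallyOfFiniteType.isLocallyNoetherian s
  have : CompactSpace Y := QuasiCompact.compactSpace_of_compactSpace s
  have : IsNoetherian Y := {}
  refine Set.Finite.of_finite_image (f := fun y => closure {y})
    (TopologicalSpace.NoetherianSpace.finite_irreducibleComponents.subset ?_) ?_
  · rintro _ ⟨y, hy, rfl⟩
    refine ⟨isIrreducible_singleton.closure, fun Z hZ hle => ?_⟩
    have h1 := hZ.isGenericPoint_genericPoint_closure
    have h2 := hy _ (h1.specializes (subset_closure (hle (subset_closure rfl))))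
    exact subset_closure.trans (h1.def.symm.trans (by rw [h2])).le
  · intro y hy y' _ h
    exact (inseparable_iff_closure_eq.2 h).eq

end Sm

theorem smAPI : SmAPI where
  le := fun _ E _ _ _ s n ξ c hs hξ hc =>
    (Sm.point s n ξ c (⊥ : PrimeSpectrum E) hs hξ hc).1
  gen := fun _ _ _ _ _ s n ξ c x hs hξ hc => (Sm.point s n ξ c x hs hξ hc).2
  field := fun _ _ _ s n y hs hy => Sm.field s n y hs hy
  val := fun _ _ _ _ s y hs => Sm.val s y hs
  fin := fun _ _ _ s hs => Sm.fin s hs

end Pool.Agent.MP_d45d16_ag.Yag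

end MrgPart2

-- ======== part 3: formerly Pool.Agent.MP_d45d16_ag.yag.Hf
section MrgPart3

/-!
Hilbert functions of bihomogeneous ideals.
-/

set_option autoImplicit false

open MvPolynomial

namespace Pool.Agent.MP_d45d16_ag.Yag

namespace Hf

attribute [local instance] MvPolynomial.weightedGradedAlgebra

section Lin

variable {K V V₁ V₂ : Type} [Field K] [AddCommGroup V] [Module K V] [AddCommGroup V₁]
  [Module K V₁] [AddCommGroup V₂] [Module K V₂]

theorem map_add_inf (S : Submodule K V) [Module.Finite K S] (φ : V →ₗ[K] V₁) :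
    Module.finrank K (S.map φ) + Module.finrank K (S ⊓ LinearMap.ker φ : Submodule K V) =
      Module.finrank K S := by
  have h := LinearMap.finrank_range_add_finrank_ker (φ.domRestrict S)
  rw [LinearMap.range_domRestrict, LinearMap.ker_domRestrict] at h
  rw [← h, ← Submodule.map_comap_subtype, Submodule.finrank_map_subtype_eq]

theorem map_le_of_ker (S : Submodule K V) [Module.Finite K S] (φ : V →ₗ[K] V₁) (ψ : V →ₗ[K] V₂)
    (h : ∀ x ∈ S, φ x = 0 → ψ x = 0) :
    Module.finrank K (S.map ψ) ≤ Module.finrank K (S.map φ) := by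
  have h1 := map_add_inf S φ
  have h2 := map_add_inf S ψ
  have : Module.Finite K (S ⊓ LinearMap.ker ψ : Submodule K V) :=
    Submodule.finiteDimensional_of_le inf_le_left
  have h3 : Module.finrank K (S ⊓ LinearMap.ker φ : Submodule K V) ≤
      Module.finrank K (S ⊓ LinearMap.ker ψ : Submodule K V) :=
    Submodule.finrank_mono fun x hx => ⟨hx.1, h x hx.1 hx.2⟩
  omega

theorem map_eq_of_ker (S : Submodule K V) [Module.Finite K S] (φ : V →ₗ[K] V₁) (ψ : V →ₗ[K] V₂)
    (h : ∀ x ∈ S, φ x = 0 ↔ ψ x = 0) :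
    Module.finrank K (S.map φ) = Module.finrank K (S.map ψ) :=
  le_antisymm (map_le_of_ker S ψ φ fun x hx => (h x hx).2)
    (map_le_of_ker S φ ψ fun x hx => (h x hx).1)

theorem ker_of_le (S : Submodule K V) [Module.Finite K S] (φ : V →ₗ[K] V₁) (ψ : V →ₗ[K] V₂)
    (h : ∀ x ∈ S, φ x = 0 → ψ x = 0)
    (hle : Module.finrank K (S.map φ) ≤ Module.finrank K (S.map ψ)) :
    ∀ x ∈ S, ψ x = 0 → φ x = 0 := by
  have h1 := map_add_inf S φ
  have h2 := map_add_inf S ψ
  have : Module.Finite K (S ⊓ LinearMap.ker ψ : Submodule K V) :=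
    Submodule.finiteDimensional_of_le inf_le_left
  have h3 : (S ⊓ LinearMap.ker φ : Submodule K V) = S ⊓ LinearMap.ker ψ :=
    Submodule.eq_of_le_of_finrank_le (fun x hx => ⟨hx.1, h x hx.1 hx.2⟩) (by omega)
  intro x hx hψ
  have : x ∈ (S ⊓ LinearMap.ker φ : Submodule K V) := h3 ▸ ⟨hx, hψ⟩
  exact this.2

end Lin

section Ring

variable {σ R : Type} [CommRing R] {w : σ → ℕ × ℕ}

theorem dec_eq {M : Type} [AddCommMonoid M] [DecidableEq M] (u : σ → M) (g : MvPolynomial σ R)
    (m : M) : (DirectSum.decompose (weightedHomogeneousSubmodule R u) g m : MvPolynomial σ R) =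
      weightedHomogeneousComponent u m g :=
  weightedDecomposition.decompose'_apply R u g m

theorem cmp_mul_add {f : MvPolynomial σ R} {m : ℕ × ℕ} (hf : IsWeightedHomogeneous w f m)
    (g : MvPolynomial σ R) (k : ℕ × ℕ) :
    weightedHomogeneousComponent w (k + m) (g * f) = weightedHomogeneousComponent w k g * f := by
  rw [← dec_eq, ← dec_eq]
  exact DirectSum.coe_decompose_mul_add_of_right_mem (weightedHomogeneousSubmodule R w) hf

theorem cmp_mul_not {f : MvPolynomial σ R} {m : ℕ × ℕ} (hf : IsWeightedHomogeneous w f m)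
    (g : MvPolynomial σ R) {k : ℕ × ℕ} (h : ¬ m ≤ k) :
    weightedHomogeneousComponent w k (g * f) = 0 := by
  rw [← dec_eq]
  exact DirectSum.coe_decompose_mul_of_right_mem_of_not_le (weightedHomogeneousSubmodule R w) hf h

theorem isHom_iff {J : Ideal (MvPolynomial σ R)} :
    IsHom w J ↔ J.IsHomogeneous (weightedHomogeneousSubmodule R w) := by
  constructor
  · intro h m f hf
    rw [dec_eq]
    exact h f hf m
  · intro h f hf m
    exact weightedHomogeneousComponent_mem_of_mem R w h hf m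

theorem isHom_iff_lex {J : Ideal (MvPolynomial σ R)} :
    IsHom w J ↔ J.IsHomogeneous (weightedHomogeneousSubmodule R fun v => toLex (w v)) := by
  constructor
  · intro h m f hf
    rw [dec_eq]
    exact h f hf (ofLex m)
  · intro h f hf m
    exact weightedHomogeneousComponent_mem_of_mem R _ h hf (toLex m)

theorem mem_of_cmp {J : Ideal (MvPolynomial σ R)} {f : MvPolynomial σ R}
    (h : ∀ m, weightedHomogeneousComponent w m f ∈ J) : f ∈ J := by
  rw [← sum_weightedHomogeneousComponent w f,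
    finsum_eq_sum _ (weightedHomogeneousComponent_finsupp f)]
  exact Ideal.sum_mem _ fun m _ => h m

theorem mem_sup_span {J : Ideal (MvPolynomial σ R)} {f x : MvPolynomial σ R} :
    x ∈ J ⊔ Ideal.span {f} ↔ ∃ j ∈ J, ∃ g, x = j + g * f := by
  rw [Submodule.mem_sup]
  constructor
  · rintro ⟨j, hj, z, hz, rfl⟩
    obtain ⟨g, rfl⟩ := Ideal.mem_span_singleton'.1 hz
    exact ⟨j, hj, g, rfl⟩
  · rintro ⟨j, hj, g, rfl⟩
    exact ⟨j, hj, g * f, Ideal.mem_span_singleton'.2 ⟨g, rfl⟩, rfl⟩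

theorem mem_colon {J : Ideal (MvPolynomial σ R)} {f x : MvPolynomial σ R} :
    x ∈ J.colon {f} ↔ x * f ∈ J := by
  rw [Submodule.mem_colon_singleton, smul_eq_mul]

theorem span_hom (A : Set (MvPolynomial σ R))
    (h : ∀ f ∈ A, ∃ m, IsWeightedHomogeneous w f m) : IsHom w (Ideal.span A) :=
  isHom_iff.2 (Ideal.homogeneous_span _ A fun f hf => h f hf)

theorem sup_hom {J : Ideal (MvPolynomial σ R)} {f : MvPolynomial σ R} {m : ℕ × ℕ}
    (hJ : IsHom w J) (hf : IsWeightedHomogeneous w f m) : IsHom w (J ⊔ Ideal.span {f}) :=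
  isHom_iff.2 ((isHom_iff.1 hJ).sup (isHom_iff.1 (span_hom {f} fun _ hg => ⟨m, hg ▸ hf⟩)))

theorem colon_hom {J : Ideal (MvPolynomial σ R)} {f : MvPolynomial σ R} {m : ℕ × ℕ}
    (hJ : IsHom w J) (hf : IsWeightedHomogeneous w f m) : IsHom w (J.colon {f}) := by
  intro g hg k
  rw [mem_colon] at hg ⊢
  rw [← cmp_mul_add hf]
  exact hJ _ hg _

theorem exists_of_not_prime {J : Ideal (MvPolynomial σ R)} (hJ : IsHom w J) (h1 : J ≠ ⊤)
    (h2 : ¬ J.IsPrime) : ∃ f g m, IsWeightedHomogeneous w f m ∧ f ∉ J ∧ g ∉ J ∧ g * f ∈ J := by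
  by_contra hcon
  apply h2
  refine (isHom_iff_lex.1 hJ).isPrime_of_homogeneous_mem_or_mem h1 ?_
  rintro x y - ⟨m, hm⟩ hxy
  by_contra hno
  rw [not_or] at hno
  exact hcon ⟨y, x, ofLex m, hm, hno.2, hno.1, hxy⟩

theorem min_hom {J q : Ideal (MvPolynomial σ R)} (hJ : IsHom w J) (hq : q ∈ J.minimalPrimes) :
    IsHom w q := by
  rw [isHom_iff_lex] at hJ ⊢
  rw [Ideal.IsHomogeneous.iff_eq]
  have hp : q.IsPrime := hq.1.1
  refine le_antisymm (Ideal.toIdeal_homogeneousCore_le _ _) ?_
  refine hq.2 ⟨hp.homogeneousCore, ?_⟩ (Ideal.toIdeal_homogeneousCore_le _ _)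
  rw [← hJ.toIdeal_homogeneousCore_eq_self]
  exact Ideal.homogeneousCore_mono _ hq.1.2

theorem weight_fst_snd (d : σ →₀ ℕ) :
    Finsupp.weight (fun v => (w v).1 + (w v).2) d =
      (Finsupp.weight w d).1 + (Finsupp.weight w d).2 := by
  induction d using Finsupp.induction_linear with
  | zero => simp
  | add f g hf hg => simp only [map_add, hf, hg, Prod.fst_add, Prod.snd_add]; ring
  | single a b => simp [Finsupp.weight_single, mul_add]

/-- Forms of bidegree `(0, n + 1)` are combinations of `y`-variables times forms of bidegree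
`(0, n)`. -/
theorem succ_mem (hw : IsW w) (S : Submodule R (MvPolynomial σ R)) (n : ℕ)
    (h : ∀ v, w v = (0, 1) → ∀ g, IsWeightedHomogeneous w g (0, n) → g * X v ∈ S)
    {f : MvPolynomial σ R} (hf : IsWeightedHomogeneous w f (0, n + 1)) : f ∈ S := by
  classical
  induction hf using IsWeightedHomogeneous.induction_on with
  | zero => exact S.zero_mem
  | add p q _ _ hp hq => exact S.add_mem hp hq
  | monomial d r hr =>
    have hd : d ≠ 0 := by
      rintro rfl
      simp [Prod.ext_iff] at hr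
    obtain ⟨v, hv⟩ := Finsupp.ne_iff.1 hd
    have hle : Finsupp.single v 1 ≤ d := by
      rw [Finsupp.single_le_iff]
      simp only [Finsupp.coe_zero, Pi.zero_apply] at hv
      omega
    obtain ⟨e, rfl⟩ := exists_add_of_le hle
    rw [map_add, Finsupp.weight_single, one_smul, Prod.ext_iff] at hr
    simp only [Prod.fst_add, Prod.snd_add] at hr
    have hv1 : w v = (0, 1) := by
      rcases hw v with h1 | h1
      · rw [h1] at hr; omega
      · exact h1
    rw [hv1] at hr
    have he : Finsupp.weight w e = (0, n) := by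
      rw [Prod.ext_iff]; constructor <;> simp only <;> omega
    have := h v hv1 (monomial e r) (isWeightedHomogeneous_monomial w e r he)
    rwa [X, monomial_mul, mul_one, add_comm] at this

theorem zero_mem (hw : IsW w) (S : Submodule R (MvPolynomial σ R)) (h : 1 ∈ S)
    {f : MvPolynomial σ R} (hf : IsWeightedHomogeneous w f 0) : f ∈ S := by
  have h0 : ∀ v, w v ≠ 0 := fun v => by
    rcases hw v with h1 | h1 <;> rw [h1] <;> simp [Prod.ext_iff]
  rw [← hf.weightedHomogeneousComponent_same, weightedHomogeneousComponent_zero _ h0,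
    ← mul_one (C _), ← smul_eq_C_mul]
  exact S.smul_mem _ h

theorem fst_zero (hw : ∀ v, w v = (0, 1)) (d : σ →₀ ℕ) : (Finsupp.weight w d).1 = 0 := by
  induction d using Finsupp.induction_linear with
  | zero => simp
  | add f g hf hg => simp [hf, hg]
  | single a b => simp [Finsupp.weight_single, hw]

end Ring

section Field

variable {σ K : Type} [Finite σ] [Field K] {w : σ → ℕ × ℕ}

theorem fd (hw : IsW w) (k : ℕ × ℕ) : Module.Finite K (weightedHomogeneousSubmodule K w k) := by
  have h : (weightedHomogeneousSubmodule K (fun v => (w v).1 + (w v).2) (k.1 + k.2)).FG :=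
    weightedHomogeneousSubmodule_fg K _ (fun v => by
      rcases hw v with h1 | h1 <;> rw [h1] <;> simp) _
  have := Module.Finite.iff_fg.2 h
  refine Submodule.finiteDimensional_of_le
    (S₂ := weightedHomogeneousSubmodule K (fun v => (w v).1 + (w v).2) (k.1 + k.2)) ?_
  intro f hf d hd
  rw [weight_fst_snd, hf hd]

omit [Finite σ] in
theorem mk_zero {J : Ideal (MvPolynomial σ K)} {x : MvPolynomial σ K} :
    (Ideal.Quotient.mkₐ K J).toLinearMap x = 0 ↔ x ∈ J :=
  Ideal.Quotient.eq_zero_iff_mem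

theorem hf_mono (hw : IsW w) {J J' : Ideal (MvPolynomial σ K)} (h : J ≤ J') (k : ℕ × ℕ) :
    hf w J' k ≤ hf w J k := by
  have := fd (K := K) hw k
  exact map_le_of_ker _ _ _ fun x _ hx => mk_zero.2 (h (mk_zero.1 hx))

theorem hf_zero (hw : IsW w) (J : Ideal (MvPolynomial σ K)) (k : ℕ × ℕ) :
    hf w J k = 0 ↔ ∀ f, IsWeightedHomogeneous w f k → f ∈ J := by
  have := fd (K := K) hw k
  rw [hf, Submodule.finrank_eq_zero, Submodule.eq_bot_iff]
  constructor
  · intro h f hf
    exact mk_zero.1 (h _ (Submodule.mem_map_of_mem hf))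
  · rintro h _ ⟨f, hf, rfl⟩
    exact mk_zero.2 (h f hf)

theorem hf_low (hw : IsW w) {J : Ideal (MvPolynomial σ K)} {f : MvPolynomial σ K} {m k : ℕ × ℕ}
    (hJ : IsHom w J) (hf' : IsWeightedHomogeneous w f m) (h : ¬ m ≤ k) :
    hf w J k = hf w (J ⊔ Ideal.span {f}) k := by
  have := fd (K := K) hw k
  refine map_eq_of_ker _ _ _ fun x hx => ?_
  rw [mk_zero, mk_zero]
  refine ⟨fun h => Ideal.mem_sup_left h, fun h' => ?_⟩
  obtain ⟨j, hj, g, hx'⟩ := mem_sup_span.1 h'
  rw [← IsWeightedHomogeneous.weightedHomogeneousComponent_same hx, hx', map_add,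
    cmp_mul_not hf' g h, add_zero]
  exact hJ j hj k

theorem hf_add (hw : IsW w) {J : Ideal (MvPolynomial σ K)} {f : MvPolynomial σ K} {m : ℕ × ℕ}
    (k : ℕ × ℕ) (hJ : IsHom w J) (hf' : IsWeightedHomogeneous w f m) :
    hf w J (k + m) = hf w (J ⊔ Ideal.span {f}) (k + m) + hf w (J.colon {f}) k := by
  have := fd (K := K) hw k
  have := fd (K := K) hw (k + m)
  set ψ : (MvPolynomial σ K ⧸ J) →ₗ[K] (MvPolynomial σ K ⧸ (J ⊔ Ideal.span {f})) :=
    (Ideal.Quotient.factorₐ K (le_sup_left : J ≤ J ⊔ Ideal.span {f})).toLinearMap with hψ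
  have hψx : ∀ x, ψ ((Ideal.Quotient.mkₐ K J).toLinearMap x) =
      (Ideal.Quotient.mkₐ K (J ⊔ Ideal.span {f})).toLinearMap x := fun x => rfl
  have h := map_add_inf ((weightedHomogeneousSubmodule K w (k + m)).map
    (Ideal.Quotient.mkₐ K J).toLinearMap) ψ
  have h1 : ((weightedHomogeneousSubmodule K w (k + m)).map
      (Ideal.Quotient.mkₐ K J).toLinearMap).map ψ = (weightedHomogeneousSubmodule K w (k + m)).map
        (Ideal.Quotient.mkₐ K (J ⊔ Ideal.span {f})).toLinearMap := by
    rw [← Submodule.map_comp]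
    congr 1
  have h2 : ((weightedHomogeneousSubmodule K w (k + m)).map
      (Ideal.Quotient.mkₐ K J).toLinearMap) ⊓ LinearMap.ker ψ =
      (weightedHomogeneousSubmodule K w k).map
        ((Ideal.Quotient.mkₐ K J).toLinearMap ∘ₗ LinearMap.mulRight K f) := by
    ext z
    constructor
    · rintro ⟨⟨x, hx, rfl⟩, hz⟩
      have hz' : x ∈ J ⊔ Ideal.span {f} := mk_zero.1 ((hψx x).symm.trans hz)
      obtain ⟨j, hj, g, hx'⟩ := mem_sup_span.1 hz'
      refine ⟨weightedHomogeneousComponent w k g, weightedHomogeneousComponent_mem w g k, ?_⟩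
      rw [← IsWeightedHomogeneous.weightedHomogeneousComponent_same hx, hx', map_add,
        cmp_mul_add hf', map_add, mk_zero.2 (hJ j hj _), zero_add]
      rfl
    · rintro ⟨g, hg, rfl⟩
      refine ⟨⟨g * f, IsWeightedHomogeneous.mul hg hf', rfl⟩, ?_⟩
      exact (hψx (g * f)).trans (mk_zero.2 (mem_sup_span.2 ⟨0, J.zero_mem, g, (zero_add _).symm⟩))
  have h3 : Module.finrank K ((weightedHomogeneousSubmodule K w k).map
        ((Ideal.Quotient.mkₐ K J).toLinearMap ∘ₗ LinearMap.mulRight K f)) =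
      hf w (J.colon {f}) k := by
    refine map_eq_of_ker _ _ _ fun x _ => ?_
    rw [mk_zero, mem_colon, LinearMap.comp_apply, mk_zero]
    rfl
  rw [h1, h2, h3] at h
  exact h.symm

theorem hf_eq (hw : IsW w) {J J' : Ideal (MvPolynomial σ K)} (hJ' : IsHom w J') (h : J ≤ J')
    (hle : ∀ k, hf w J k ≤ hf w J' k) : J = J' := by
  refine le_antisymm h fun f hf' => mem_of_cmp (w := w) fun k => ?_
  have := fd (K := K) hw k
  exact mk_zero.1 (ker_of_le _ _ _ (fun x _ hx => mk_zero.2 (h (mk_zero.1 hx))) (hle k) _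
    (weightedHomogeneousComponent_mem w f k) (mk_zero.2 (hJ' f hf' k)))

theorem ind (J₀ : Ideal (MvPolynomial σ K)) (Q : Ideal (MvPolynomial σ K) → Prop) (h0 : Q ⊤)
    (h1 : ∀ J, IsHom w J → J₀ ≤ J → J.IsPrime → Q J)
    (h2 : ∀ J f m, IsHom w J → J₀ ≤ J → IsWeightedHomogeneous w f m → Q (J ⊔ Ideal.span {f}) →
      Q (J.colon {f}) → Q J) (J : Ideal (MvPolynomial σ K)) : IsHom w J → J₀ ≤ J → Q J := by
  induction J using IsNoetherian.induction with
  | hgt J ih =>
    intro hJ hle
    by_cases ht : J = ⊤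
    · exact ht ▸ h0
    by_cases hp : Ideal.IsPrime J
    · exact h1 J hJ hle hp
    obtain ⟨f, g, m, hf', hfJ, hgJ, hfg⟩ := exists_of_not_prime hJ ht hp
    have hc : J ≤ J.colon {f} := fun x hx => mem_colon.2 (Ideal.mul_mem_right _ J hx)
    refine h2 J f m hJ hle hf' (ih _ ?_ (sup_hom hJ hf') (hle.trans le_sup_left))
      (ih _ ?_ (colon_hom hJ hf') (hle.trans hc))
    · refine lt_of_le_of_ne le_sup_left fun h => hfJ ?_
      rw [h]
      exact Ideal.mem_sup_right (Ideal.mem_span_singleton_self f)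
    · refine lt_of_le_of_ne hc fun h => hgJ ?_
      rw [h]
      exact mem_colon.2 hfg

theorem hf_add_prime (hw : IsW w) {q : Ideal (MvPolynomial σ K)} {f : MvPolynomial σ K}
    {m : ℕ × ℕ} (k : ℕ × ℕ) (hq : IsHom w q) (hp : q.IsPrime) (hf' : IsWeightedHomogeneous w f m)
    (hfq : f ∉ q) : hf w q (k + m) = hf w (q ⊔ Ideal.span {f}) (k + m) + hf w q k := by
  have : q.colon {f} = q := by
    ext x
    rw [mem_colon]
    exact ⟨fun h => (hp.mem_or_mem h).resolve_right hfq, fun h => q.mul_mem_right _ h⟩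
  rw [hf_add hw k hq hf', this]

theorem zero_succ (hw : IsW w) {J : Ideal (MvPolynomial σ K)} {n : ℕ} (h : hf w J (0, n) = 0) :
    hf w J (0, n + 1) = 0 := by
  rw [hf_zero hw] at h ⊢
  intro f hf'
  exact succ_mem hw (J.restrictScalars K) n (fun v _ g hg => J.mul_mem_right _ (h g hg)) hf'

theorem bdd_of_anti (a : ℕ → ℕ) (N : ℕ) (hN : ∀ n, N ≤ n → a (n + 1) ≤ a n) :
    ∃ C, ∀ n, a n ≤ C := by
  refine ⟨(Finset.range (N + 1)).sup a, fun i => ?_⟩
  induction i with
  | zero => exact Finset.le_sup (by simp)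
  | succ i ih =>
    by_cases hi : N ≤ i
    · exact (hN i hi).trans ih
    · exact Finset.le_sup (Finset.mem_range.2 (by omega))

theorem grow (hw : IsW w) {q : Ideal (MvPolynomial σ K)} (hq : IsHom w q) (hp : q.IsPrime)
    (hu : Unb w q) (n : ℕ) : n + 1 ≤ hf w q (0, n) := by
  have hbd : ∀ N, ¬ ∀ n, N ≤ n → hf w q (0, n + 1) ≤ hf w q (0, n) := fun N hN => by
    obtain ⟨C, hC⟩ := bdd_of_anti (fun n => hf w q (0, n)) N hN
    obtain ⟨n, hn⟩ := hu C
    exact absurd (hC n) (not_le.2 hn)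
  have hy : ∃ v, w v = (0, 1) ∧ X v ∉ q := by
    by_contra hcon
    push Not at hcon
    refine hbd 0 fun n _ => ?_
    have : hf w q (0, n + 1) = 0 := by
      rw [hf_zero hw]
      intro f hf'
      exact succ_mem hw (q.restrictScalars K) n
        (fun v hv g _ => q.mul_mem_left _ (hcon v hv)) hf'
    rw [this]
    exact Nat.zero_le _
  obtain ⟨v, hv, hvq⟩ := hy
  have hX : IsWeightedHomogeneous w (X v : MvPolynomial σ K) (0, 1) :=
    hv ▸ isWeightedHomogeneous_X K w v
  have hs : ∀ n, hf w q (0, n + 1) = hf w (q ⊔ Ideal.span {X v}) (0, n + 1) + hf w q (0, n) :=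
    fun n => by simpa using hf_add_prime hw (0, n) hq hp hX hvq
  have hne : ∀ n, hf w (q ⊔ Ideal.span {X v}) (0, n + 1) ≠ 0 := by
    intro N hN
    refine hbd N fun n hn => ?_
    have : hf w (q ⊔ Ideal.span {X v}) (0, n + 1) = 0 := by
      induction n, hn using Nat.le_induction with
      | base => exact hN
      | succ n _ ih => exact zero_succ hw ih
    rw [hs, this, zero_add]
  induction n with
  | zero =>
    have : hf w q (0, 0) ≠ 0 := by
      rw [Ne, hf_zero hw]
      intro h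
      exact hp.ne_top ((Ideal.eq_top_iff_one _).2 (h 1 (isWeightedHomogeneous_one K w)))
    exact Nat.one_le_iff_ne_zero.2 this
  | succ n ih =>
    rw [hs, add_comm (n + 1)]
    exact add_le_add (Nat.one_le_iff_ne_zero.2 (hne n)) ih

theorem rigid (hw : IsW w) {q q' : Ideal (MvPolynomial σ K)} (hq : IsHom w q) (hq' : IsHom w q')
    (hp : q.IsPrime) (hp' : q'.IsPrime) (hle : q' ≤ q) (hl : Lin w q') (hu : Unb w q)
    (hx : (∃ v, w v = (1, 0) ∧ X v ∉ q) ∨ ∀ v, w v = (0, 1)) : q' = q := by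
  refine le_antisymm hle fun g hg => mem_of_cmp (w := w) fun m => ?_
  by_contra hfq'
  set f := weightedHomogeneousComponent w m g
  have hfq : f ∈ q := hq g hg m
  have hf' : IsWeightedHomogeneous w f m := weightedHomogeneousComponent_mem w g m
  have hlow : ∀ j n, n + 1 ≤ hf w q (j * m.1, n) := by
    intro j n
    rcases hx with ⟨v, hv, hvq⟩ | hx
    · have hX : IsWeightedHomogeneous w (X v : MvPolynomial σ K) (1, 0) :=
        hv ▸ isWeightedHomogeneous_X K w v
      generalize j * m.1 = d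
      induction d with
      | zero => exact grow hw hq hp hu n
      | succ d ih =>
        have := hf_add_prime hw (d, n) hq hp hX hvq
        simp only [Prod.mk_add_mk, add_zero] at this
        omega
    · have hf0 : f ≠ 0 := fun h => hfq' (h ▸ q'.zero_mem)
      obtain ⟨d, hd⟩ := exists_coeff_ne_zero hf0
      have : m.1 = 0 := by rw [← hf' hd]; exact fst_zero hx d
      rw [this, mul_zero]
      exact grow hw hq hp hu n
  obtain ⟨C, hC⟩ := hl
  set N := C * (m.1 + m.2) with hN
  have hit : ∀ j, j * (N + 1) ≤ hf w q' (j * m.1, j * m.2 + N) := by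
    intro j
    induction j with
    | zero => simp
    | succ j ih =>
      have h1 := hf_add_prime hw (j * m.1, j * m.2 + N) hq' hp' hf' hfq'
      have h2 : (j * m.1, j * m.2 + N) + m = ((j + 1) * m.1, (j + 1) * m.2 + N) := by
        ext <;> simp <;> ring
      rw [h2] at h1
      have h3 : hf w q ((j + 1) * m.1, (j + 1) * m.2 + N) ≤
          hf w (q' ⊔ Ideal.span {f}) ((j + 1) * m.1, (j + 1) * m.2 + N) :=
        hf_mono hw (sup_le hle ((Ideal.span_singleton_le_iff_mem _).2 hfq)) _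
      have h4 := hlow (j + 1) ((j + 1) * m.2 + N)
      rw [add_one_mul]
      omega
  have h5 := (hit (C * (N + 1) + 1)).trans (hC _ _)
  generalize hj : C * (N + 1) + 1 = j at h5
  have h6 : C * (j * m.1 + (j * m.2 + N) + 1) = j * N + C * (N + 1) := by rw [hN]; ring
  rw [h6, mul_add, mul_one] at h5
  omega

end Field

section Contr

variable {ι K : Type} [Field K]

theorem isW_bw : IsW (bw ι) := by
  rintro (i | i)
  · exact Or.inl rfl
  · exact Or.inr rfl

theorem isW_yw : IsW (yw ι) := fun _ => Or.inr rfl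

theorem weight_inr (d : ι →₀ ℕ) :
    Finsupp.weight (bw ι) (d.mapDomain Sum.inr) = Finsupp.weight (yw ι) d := by
  induction d using Finsupp.induction_linear with
  | zero => simp
  | add f g hf hg => simp only [Finsupp.mapDomain_add, map_add, hf, hg]
  | single a b => simp [Finsupp.weight_single, bw, yw]

theorem cmp_rename (b : By ι K) (m : ℕ × ℕ) :
    (rename Sum.inr (weightedHomogeneousComponent (yw ι) m b) : Pxy ι K) =
      weightedHomogeneousComponent (bw ι) m (rename Sum.inr b) := by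
  induction b using MvPolynomial.induction_on' with
  | add p q hp hq => simp only [map_add, hp, hq]
  | monomial d c =>
    rw [rename_monomial, weightedHomogeneousComponent_of_mem
      (isWeightedHomogeneous_monomial (yw ι) d c rfl), weightedHomogeneousComponent_of_mem
      (isWeightedHomogeneous_monomial (bw ι) _ c (weight_inr d))]
    split_ifs
    · rw [rename_monomial]
    · rw [map_zero]

theorem sub_eq_map (n : ℕ) : weightedHomogeneousSubmodule K (bw ι) (0, n) =
    (weightedHomogeneousSubmodule K (yw ι) (0, n)).map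
      (rename Sum.inr : By ι K →ₐ[K] Pxy ι K).toLinearMap := by
  apply le_antisymm
  · induction n with
    | zero =>
      intro f hf'
      refine zero_mem isW_bw _ ?_ hf'
      exact ⟨1, isWeightedHomogeneous_one K _, map_one (rename Sum.inr : By ι K →ₐ[K] Pxy ι K)⟩
    | succ n ih =>
      intro f hf'
      refine succ_mem isW_bw _ n (fun v hv g hg => ?_) hf'
      obtain ⟨b, hb, rfl⟩ := ih hg
      rcases v with i | i
      · simp [bw] at hv
      · refine ⟨b * X i, IsWeightedHomogeneous.mul hb (isWeightedHomogeneous_X K (yw ι) i), ?_⟩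
        simp
  · rintro _ ⟨b, hb, rfl⟩
    rw [← IsWeightedHomogeneous.weightedHomogeneousComponent_same hb]
    exact (cmp_rename b (0, n)).symm ▸ weightedHomogeneousComponent_mem _ _ _

theorem contr [Finite ι] {J : Ideal (Pxy ι K)} (hJ : IsHom (bw ι) J) :
    IsHom (yw ι) (J.comap (algebraMap (By ι K) (Pxy ι K))) ∧
      ∀ n, hf (yw ι) (J.comap (algebraMap (By ι K) (Pxy ι K))) (0, n) = hf (bw ι) J (0, n) := by
  constructor
  · intro b hb m
    rw [Ideal.mem_comap, algBP_apply] at hb ⊢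
    rw [cmp_rename]
    exact hJ _ hb m
  · intro n
    have := fd (K := K) (isW_yw (ι := ι)) (0, n)
    rw [hf, hf, sub_eq_map, ← Submodule.map_comp]
    refine map_eq_of_ker _ _ _ fun x _ => ?_
    rw [mk_zero, LinearMap.comp_apply, mk_zero, Ideal.mem_comap]
    rfl

theorem ypos [Finite ι] (I : Ideal (By ι K)) (d n : ℕ) : hf (yw ι) I (d + 1, n) = 0 := by
  rw [hf_zero isW_yw]
  intro f hf'
  rw [hf'.eq_zero_of_no_monomials fun e he => ?_]
  · exact I.zero_mem
  · have := fst_zero (w := yw ι) (fun _ => rfl) e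
    rw [he] at this
    simp at this

end Contr

end Hf

theorem hfAPI : HfAPI where
  sup := fun _ _ _ _ _ _ _ hJ hf' => Hf.sup_hom hJ hf'
  colon := fun _ _ _ _ _ _ _ hJ hf' => Hf.colon_hom hJ hf'
  span := fun _ _ _ _ A h => Hf.span_hom A h
  add := fun _ _ _ _ _ _ _ _ k hw hJ hf' => Hf.hf_add hw k hJ hf'
  low := fun _ _ _ _ _ _ _ _ _ hw hJ hf' h => Hf.hf_low hw hJ hf' h
  mono := fun _ _ _ _ _ _ _ k hw h => Hf.hf_mono hw h k
  eq := fun _ _ _ _ _ _ _ hw _ hJ' h hle => Hf.hf_eq hw hJ' h hle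
  zero := fun _ _ _ _ _ J k hw => Hf.hf_zero hw J k
  ind := fun _ _ _ _ _ J₀ Q h0 h1 h2 J => Hf.ind J₀ Q h0 h1 h2 J
  min := fun _ _ _ _ _ _ hJ hq => Hf.min_hom hJ hq
  grow := fun _ _ _ _ _ _ n hw hq hp hu => Hf.grow hw hq hp hu n
  rigid := fun _ _ _ _ _ _ _ hw hq hq' hp hp' hle hl hu hx =>
    Hf.rigid hw hq hq' hp hp' hle hl hu hx
  contr := fun _ _ _ _ _ hJ => Hf.contr hJ
  ypos := fun _ _ _ _ I d n => Hf.ypos I d n

end Pool.Agent.MP_d45d16_ag.Yag

end MrgPart3

-- ======== part 4: formerly Pool.Agent.MP_d45d16_ag.yag.Psi2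
section MrgPart4

/-!
The Hilbert function of a closed point is eventually the degree of its residue field.
-/

set_option autoImplicit false

open MvPolynomial Filter

namespace Pool.Agent.MP_d45d16_ag.Yag.Psi

theorem weight_yw {ι : Type} (d : ι →₀ ℕ) : Finsupp.weight (yw ι) d = (0, d.degree) := by
  rw [Finsupp.weight_apply, Finsupp.degree_apply, Finsupp.sum]
  ext
  · simp [Prod.fst_sum, yw]
  · simp [Prod.snd_sum, yw]

theorem weight_one {ι : Type} (d : ι →₀ ℕ) : Finsupp.weight (1 : ι → ℕ) d = d.degree := by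
  rw [Finsupp.degree_eq_weight_one]
  rfl

theorem hom_iff {ι R : Type} [CommRing R] (f : By ι R) (n : ℕ) :
    IsWeightedHomogeneous (yw ι) f (0, n) ↔ f.IsHomogeneous n := by
  unfold IsHomogeneous IsWeightedHomogeneous
  refine forall_congr' fun d => imp_congr_right fun _ => ?_
  rw [weight_yw, weight_one]
  simp

theorem hom_zero {ι R : Type} [CommRing R] {f : By ι R} {m : ℕ × ℕ}
    (hf : IsWeightedHomogeneous (yw ι) f m) (hm : m.1 ≠ 0) : f = 0 := by
  ext d
  by_contra h
  have := hf h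
  rw [weight_yw] at this
  exact hm (congrArg Prod.fst this).symm

theorem sub_eq {ι R : Type} [CommRing R] (n : ℕ) :
    weightedHomogeneousSubmodule R (yw ι) (0, n) = homogeneousSubmodule ι R n := by
  ext f
  rw [mem_weightedHomogeneousSubmodule, mem_homogeneousSubmodule, hom_iff]

theorem comp_eq {ι R : Type} [CommRing R] (f : By ι R) (n : ℕ) :
    weightedHomogeneousComponent (yw ι) (0, n) f = homogeneousComponent n f := by
  classical
  ext d
  rw [coeff_weightedHomogeneousComponent, coeff_homogeneousComponent, weight_yw]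
  simp

theorem aeval_scale {ι R A : Type} [CommRing R] [CommRing A] [Algebra R A] {f : By ι R} {n : ℕ}
    (hf : f.IsHomogeneous n) (c : A) (x : ι → A) :
    aeval (fun j => c * x j) f = c ^ n * aeval x f := by
  unfold IsHomogeneous at hf
  induction hf using IsWeightedHomogeneous.induction_on with
  | zero => simp
  | add p q _ _ hp hq => rw [map_add, map_add, hp, hq, mul_add]
  | monomial d r hr =>
    rw [aeval_monomial, aeval_monomial, ← hr, weight_one,
      Finsupp.degree_apply, Finsupp.prod, Finsupp.prod, ← Finset.prod_pow_eq_pow_sum]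
    simp only [mul_pow, Finset.prod_mul_distrib]
    ring

theorem finrank_map_congr {K V W W' : Type} [Field K] [AddCommGroup V] [AddCommGroup W]
    [AddCommGroup W'] [Module K V] [Module K W] [Module K W'] (P : Submodule K V)
    (f : V →ₗ[K] W) (g : V →ₗ[K] W') (h : ∀ v ∈ P, f v = 0 ↔ g v = 0) :
    Module.finrank K (P.map f) = Module.finrank K (P.map g) := by
  have hk : LinearMap.ker (f ∘ₗ P.subtype) = LinearMap.ker (g ∘ₗ P.subtype) := by
    ext v
    simpa using h v v.2
  have e := ((f ∘ₗ P.subtype).quotKerEquivRange.symm.trans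
    (Submodule.quotEquivOfEq _ _ hk)).trans (g ∘ₗ P.subtype).quotKerEquivRange
  rw [LinearMap.range_comp, LinearMap.range_comp, Submodule.range_subtype] at e
  exact e.finrank_eq

theorem stabilises {K W : Type} [Field K] [AddCommGroup W] [Module K W] (V : ℕ → Submodule K W)
    (hV : Monotone V) (hfin : ∀ n, FiniteDimensional K (V n)) (C : ℕ)
    (hC : ∀ n, Module.finrank K (V n) ≤ C) : ∃ N, ∀ n, N ≤ n → V n = V N := by
  obtain ⟨N, hN⟩ : ∃ N, ∀ n, Module.finrank K (V n) ≤ Module.finrank K (V N) := by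
    have hb : BddAbove (Set.range fun n => Module.finrank K (V n)) :=
      ⟨C, by rintro _ ⟨n, rfl⟩; exact hC n⟩
    obtain ⟨N, hN⟩ := Nat.sSup_mem (Set.range_nonempty _) hb
    exact ⟨N, fun n => by rw [show Module.finrank K (V N) = _ from hN]; exact le_csSup hb ⟨n, rfl⟩⟩
  refine ⟨N, fun n hn => ?_⟩
  have := hfin n
  exact (Submodule.eq_of_le_of_finrank_le (hV hn) (hN n)).symm

theorem point_even {A ι κ : Type} [Group A] [Finite ι] [Field κ] (S : Setup A ι κ)
    (q : Ideal (By ι κ)) (hq : IsHom (yw ι) q) [q.IsPrime] (he : ∀ e ∈ S.eqs, e ∈ q)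
    (hb : ¬ Unb (yw ι) q) (j₀ : ι) (hj : X j₀ ∉ q) :
    ∀ᶠ n in atTop, Even (hf (yw ι) q (0, n)) := by
  classical
  let K := FractionRing (By ι κ ⧸ q)
  let π : By ι κ →ₐ[κ] K :=
    (IsScalarTower.toAlgHom κ (By ι κ ⧸ q) K).comp (Ideal.Quotient.mkₐ κ q)
  have hπ : ∀ f, π f = 0 ↔ f ∈ q := fun f => by
    change algebraMap (By ι κ ⧸ q) K (Ideal.Quotient.mk q f) = 0 ↔ _
    rw [map_eq_zero_iff _ (IsFractionRing.injective _ _), Ideal.Quotient.eq_zero_iff_mem]
  have h0 : π (X j₀) ≠ 0 := fun h => hj ((hπ _).mp h)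
  let z : ι → K := fun j => (π (X j₀))⁻¹ * π (X j)
  have hz₀ : z j₀ = 1 := inv_mul_cancel₀ h0
  have hz : ∀ (f : By ι κ) n, f.IsHomogeneous n → (aeval z f = 0 ↔ f ∈ q) := fun f n hf => by
    rw [aeval_scale hf, mul_eq_zero, or_iff_right (pow_ne_zero _ (inv_ne_zero h0)), ← hπ]
    have : (aeval fun j => π (X j) : By ι κ →ₐ[κ] K) = π := by
      ext j
      simp
    rw [this]
  let V : ℕ → Submodule κ K := fun n =>
    (homogeneousSubmodule ι κ n).map (aeval z : By ι κ →ₐ[κ] K).toLinearMap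
  have hV : ∀ n, hf (yw ι) q (0, n) = Module.finrank κ (V n) := fun n => by
    unfold hf
    rw [sub_eq]
    refine finrank_map_congr _ _ _ fun f hf => ?_
    change Ideal.Quotient.mk q f = 0 ↔ aeval z f = 0
    rw [Ideal.Quotient.eq_zero_iff_mem, hz f n hf]
  have hmono : Monotone V := by
    refine monotone_nat_of_le_succ fun n => ?_
    rintro _ ⟨f, hf, rfl⟩
    refine ⟨f * X j₀, IsHomogeneous.mul hf (isHomogeneous_X κ j₀), ?_⟩
    change aeval z (f * X j₀) = aeval z f
    rw [map_mul, aeval_X, hz₀, mul_one]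
  have hfin : ∀ n, FiniteDimensional κ (V n) := fun n =>
    Module.Finite.of_fg ((homogeneousSubmodule_fg ι κ n).map _)
  unfold Unb at hb
  push Not at hb
  obtain ⟨C, hC⟩ := hb
  obtain ⟨N, hN⟩ := stabilises V hmono hfin C fun n => hV n ▸ hC n
  let E : Subalgebra κ K := (aeval z : By ι κ →ₐ[κ] K).range
  have hE : Subalgebra.toSubmodule E = V N := by
    refine le_antisymm ?_ ?_
    · rintro _ ⟨f, rfl⟩
      change aeval z f ∈ V N
      rw [← sum_homogeneousComponent f, map_sum]
      refine Submodule.sum_mem _ fun k _ => ?_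
      rw [← hN (max k N) (le_max_right _ _)]
      exact hmono (le_max_left k N) ⟨_, homogeneousComponent_mem k f, rfl⟩
    · rintro _ ⟨f, _, rfl⟩
      exact ⟨f, rfl⟩
  have hEf : FiniteDimensional κ E := by
    have := hfin N
    rw [← hE] at this
    exact this
  have hEr : Module.finrank κ E = Module.finrank κ (V N) := by
    rw [← hE]
    rfl
  let : Field E := fieldOfFiniteDimensional κ E
  let y : ι → E := fun j => ⟨z j, X j, aeval_X z j⟩
  have hev : Even (Module.finrank κ E) := by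
    refine S.even E y (fun h => ?_) fun e hee => ?_
    · have := congrArg Subtype.val (congrFun h j₀)
      change z j₀ = 0 at this
      rw [hz₀] at this
      exact one_ne_zero this
    · apply Subtype.val_injective
      have h1 : ((aeval y e : E) : K) = aeval z e := by
        have : E.val.comp (aeval y) = aeval z := by
          ext j
          simp [y]
        exact DFunLike.congr_fun this e
      rw [h1, ← sum_homogeneousComponent e, map_sum]
      refine Finset.sum_eq_zero fun k _ => ?_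
      rw [hz _ k (homogeneousComponent_isHomogeneous k e), ← comp_eq]
      exact hq e (he e hee) _
  filter_upwards [eventually_ge_atTop N] with n hn
  rw [hV, hN n hn, ← hEr]
  exact hev

end Pool.Agent.MP_d45d16_ag.Yag.Psi

end MrgPart4

-- ======== part 5: formerly Pool.Agent.MP_d45d16_ag.yag.Chart
section MrgPart5

/-!
The standard affine charts of the triple product, and specialisation of primes in a chart.
-/

set_option autoImplicit false

open AlgebraicGeometry CategoryTheory Limits MvPolynomial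

namespace Pool.Agent.MP_d45d16_ag.Yag

namespace Chart

theorem mono_of_aff {T W : Scheme.{0}} (m : T ⟶ W)
    (h : ∀ (C : CommRingCat.{0}) (a b : Spec C ⟶ T), a ≫ m = b ≫ m → a = b) : Mono m := by
  refine ⟨fun {Y} a b hab => ?_⟩
  refine Scheme.Cover.hom_ext Y.affineCover _ _ fun x => ?_
  rw [← cancel_epi (Y.affineCover.X x).isoSpec.inv]
  exact h _ _ _ (by simp only [Category.assoc, hab])

theorem open_of_mono {T W : Scheme.{0}} (m : T ⟶ W) [Mono m] (U : W.Opens) (hr : ∀ x, m x ∈ U)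
    (hl : ∀ (C : CommRingCat.{0}) (g : Spec C ⟶ W), (∀ x, g x ∈ U) → ∃ g', g' ≫ m = g) :
    IsOpenImmersion m ∧ Set.range m = U := by
  obtain ⟨𝒰, h𝒰⟩ : ∃ 𝒰 : Scheme.OpenCover.{0} U.toScheme, ∀ x, IsAffine (𝒰.X x) :=
    ⟨U.toScheme.affineCover, fun _ => inferInstance⟩
  have h1 : ∀ x, ∃ g' : 𝒰.X x ⟶ T, g' ≫ m = 𝒰.f x ≫ U.ι := fun x => by
    obtain ⟨g', hg'⟩ := hl _ ((𝒰.X x).isoSpec.inv ≫ 𝒰.f x ≫ U.ι) fun z => by
      rw [Scheme.Hom.comp_apply, Scheme.Hom.comp_apply]
      exact (𝒰.f x _).2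
    exact ⟨(𝒰.X x).isoSpec.hom ≫ g', by rw [Category.assoc, hg', Iso.hom_inv_id_assoc]⟩
  choose l hl' using h1
  have hc : ∀ x y, pullback.fst (𝒰.f x) (𝒰.f y) ≫ l x = pullback.snd _ _ ≫ l y := fun x y => by
    rw [← cancel_mono m, Category.assoc, Category.assoc, hl', hl']
    exact pullback.condition_assoc U.ι
  let r : U.toScheme ⟶ T := 𝒰.glueMorphisms l hc
  have hr1 : r ≫ m = U.ι := by
    refine Scheme.Cover.hom_ext 𝒰 _ _ fun x => ?_
    rw [← Category.assoc, Scheme.Cover.ι_glueMorphisms]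
    exact hl' x
  have hsub : Set.range m ⊆ Set.range U.ι := by
    rw [Scheme.Opens.range_ι]
    rintro _ ⟨x, rfl⟩
    exact hr x
  let m' : T ⟶ U.toScheme := IsOpenImmersion.lift U.ι m hsub
  have hm' : m' ≫ U.ι = m := IsOpenImmersion.lift_fac _ _ _
  have : IsIso m' := ⟨r, by rw [← cancel_mono m, Category.assoc, hr1, hm', Category.id_comp],
    by rw [← cancel_mono U.ι, Category.assoc, hm', hr1, Category.id_comp]⟩
  refine ⟨hm' ▸ inferInstance, Set.Subset.antisymm (by rwa [Scheme.Opens.range_ι] at hsub) ?_⟩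
  intro x hx
  refine ⟨r ⟨x, hx⟩, ?_⟩
  rw [← Scheme.Hom.comp_apply, hr1]
  rfl

theorem span_top {C σ : Type} [CommRing C] (w : σ → C) (i : σ) (h : w i = 1) :
    Ideal.span (Set.range w) = ⊤ :=
  (Ideal.eq_top_iff_one _).mpr (Ideal.subset_span ⟨i, h⟩)

theorem homSet_X {R σ : Type} [CommRing R] (i : σ) : HomSet ({X i} : Set (MvPolynomial σ R)) := by
  rintro _ rfl
  exact ⟨0, isHomogeneous_X R i⟩

theorem pt_not_mem (P : PtAPI) {R C σ : Type} [CommRing R] [CommRing C] (c : R →+* C) (w : σ → C)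
    (h) (i : σ) (hi : w i = 1) (x : PrimeSpectrum C) : pt c w h x ∉ zeros {X i} := by
  rw [P.mem R C σ c w h _ x (homSet_X i)]
  intro hx
  have := hx (X i) rfl
  rw [eval₂_X, hi] at this
  exact x.isPrime.ne_top ((Ideal.eq_top_iff_one _).mpr this)

theorem pt_inj (P : PtAPI) {R C σ : Type} [CommRing R] [CommRing C] {c c' : R →+* C}
    {w w' : σ → C} {h h'} (i : σ) (hi : w i = 1) (hi' : w' i = 1) (e : pt c w h = pt c' w' h') :
    c = c' ∧ w = w' := by
  obtain ⟨h1, h2⟩ := P.inj R C σ c c' w w' h h' e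
  refine ⟨h1, funext fun l => ?_⟩
  have := h2 l i
  rwa [hi, hi', mul_one, one_mul] at this

theorem pt_congr {R C σ : Type} [CommRing R] [CommRing C] {c c' : R →+* C}
    {w w' : σ → C} {h h'} (e : c = c') (e' : w = w') : pt c w h = pt c' w' h' := by
  subst e e'
  rfl

variable (F ι : Type) [Field F]

/-- The triple product. -/
noncomputable abbrev W : Scheme.{0} :=
  pullback (pullback.fst (PP.s F ι) (PP.s F ι) ≫ PP.s F ι ≫ specZIsTerminal.from _)
    (PP.s ℤ (Fin 2))

/-- The first projection. -/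
noncomputable def p₁ : W F ι ⟶ PP F ι := pullback.fst _ _ ≫ pullback.fst _ _

/-- The second projection. -/
noncomputable def p₂ : W F ι ⟶ PP F ι := pullback.fst _ _ ≫ pullback.snd _ _

/-- The third projection. -/
noncomputable def p₃ : W F ι ⟶ PP ℤ (Fin 2) := pullback.snd _ _

variable {F ι}

theorem W_ext {Y : Scheme.{0}} {a b : Y ⟶ W F ι} (h₁ : a ≫ p₁ F ι = b ≫ p₁ F ι)
    (h₂ : a ≫ p₂ F ι = b ≫ p₂ F ι) (h₃ : a ≫ p₃ F ι = b ≫ p₃ F ι) : a = b := by
  refine pullback.hom_ext (pullback.hom_ext ?_ ?_) h₃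
  · simpa [p₁] using h₁
  · simpa [p₂] using h₂

theorem W_cond : p₁ F ι ≫ PP.s F ι = p₂ F ι ≫ PP.s F ι := by
  simp only [p₁, p₂, Category.assoc, pullback.condition]

theorem W_lift {Y : Scheme.{0}} (u v : Y ⟶ PP F ι) (π : Y ⟶ PP ℤ (Fin 2))
    (h : u ≫ PP.s F ι = v ≫ PP.s F ι) :
    ∃ φ : Y ⟶ W F ι, φ ≫ p₁ F ι = u ∧ φ ≫ p₂ F ι = v ∧ φ ≫ p₃ F ι = π := by
  refine ⟨pullback.lift (pullback.lift u v h) π (specZIsTerminal.hom_ext _ _), ?_, ?_, ?_⟩
  · rw [p₁, pullback.lift_fst_assoc, pullback.lift_fst]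
  · rw [p₂, pullback.lift_fst_assoc, pullback.lift_snd]
  · rw [p₃, pullback.lift_snd]

theorem W_sep (P : PtAPI) [Finite ι] : IsSeparated (p₁ F ι ≫ PP.s F ι) := by
  have := P.proper F ι
  have := P.proper ℤ (Fin 2)
  unfold p₁
  infer_instance

/-- The data of a point of the chart. -/
structure Ev (i j : ι) {C : Type} [CommRing C] (ev : Polynomial (Pxy ι F) →+* C) : Prop where
  a : ev (Polynomial.C (X (Sum.inl i))) = 1
  b : ev (Polynomial.C (X (Sum.inr j))) = 1

/-- First component. -/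
noncomputable def q₁ {i j : ι} {C : Type} [CommRing C] {ev : Polynomial (Pxy ι F) →+* C}
    (h : Ev i j ev) : Spec (CommRingCat.of C) ⟶ PP F ι :=
  pt (ev.comp (Polynomial.C.comp MvPolynomial.C)) (fun l => ev (Polynomial.C (X (Sum.inl l))))
    (span_top _ i h.a)

/-- Second component. -/
noncomputable def q₂ {i j : ι} {C : Type} [CommRing C] {ev : Polynomial (Pxy ι F) →+* C}
    (h : Ev i j ev) : Spec (CommRingCat.of C) ⟶ PP F ι :=
  pt (ev.comp (Polynomial.C.comp MvPolynomial.C)) (fun l => ev (Polynomial.C (X (Sum.inr l))))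
    (span_top _ j h.b)

/-- Third component. -/
noncomputable def q₃ (k : Fin 2) {C : Type} [CommRing C] (t : C) :
    Spec (CommRingCat.of C) ⟶ PP ℤ (Fin 2) :=
  pt (Int.castRingHom C) (fun l => if l = k then 1 else t) (span_top _ k (if_pos rfl))

theorem Ev.comp {i j : ι} {C D : Type} [CommRing C] [CommRing D]
    {ev : Polynomial (Pxy ι F) →+* C} (h : Ev i j ev) (φ : C →+* D) : Ev i j (φ.comp ev) :=
  ⟨by rw [RingHom.comp_apply, h.a, map_one], by rw [RingHom.comp_apply, h.b, map_one]⟩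

theorem q₁_nat (P : PtAPI) {i j : ι} {C D : Type} [CommRing C] [CommRing D]
    {ev : Polynomial (Pxy ι F) →+* C} (h : Ev i j ev) (φ : C →+* D) :
    Spec.map (CommRingCat.ofHom φ) ≫ q₁ h = q₁ (h.comp φ) :=
  P.nat F C D ι _ (fun l => ev (Polynomial.C (X (Sum.inl l)))) _ φ (span_top _ i (h.comp φ).a)

theorem q₂_nat (P : PtAPI) {i j : ι} {C D : Type} [CommRing C] [CommRing D]
    {ev : Polynomial (Pxy ι F) →+* C} (h : Ev i j ev) (φ : C →+* D) :
    Spec.map (CommRingCat.ofHom φ) ≫ q₂ h = q₂ (h.comp φ) :=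
  P.nat F C D ι _ (fun l => ev (Polynomial.C (X (Sum.inr l)))) _ φ (span_top _ j (h.comp φ).b)

theorem q₃_nat (P : PtAPI) (k : Fin 2) {C D : Type} [CommRing C] [CommRing D] (t : C)
    (φ : C →+* D) : Spec.map (CommRingCat.ofHom φ) ≫ q₃ k t = q₃ k (φ t) := by
  refine (P.nat _ _ _ _ _ _ _ φ (span_top _ k (by simp))).trans
    (pt_congr (RingHom.ext_int _ _) (funext fun l => ?_))
  by_cases h : l = k <;> simp [h]

theorem q_inj (P : PtAPI) {i j : ι} (k : Fin 2) {C : Type} [CommRing C]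
    {ev ev' : Polynomial (Pxy ι F) →+* C} (h : Ev i j ev) (h' : Ev i j ev') (e₁ : q₁ h = q₁ h')
    (e₂ : q₂ h = q₂ h') (e₃ : q₃ k (ev Polynomial.X) = q₃ k (ev' Polynomial.X)) : ev = ev' := by
  obtain ⟨a1, a2⟩ := pt_inj P i h.a h'.a e₁
  obtain ⟨-, b2⟩ := pt_inj P j h.b h'.b e₂
  obtain ⟨-, c2⟩ := pt_inj P (w := fun l => if l = k then 1 else ev Polynomial.X)
    (w' := fun l => if l = k then 1 else ev' Polynomial.X) k (if_pos rfl) (if_pos rfl) e₃
  have hk : ¬ k + 1 = k := (by decide : ∀ k : Fin 2, ¬ k + 1 = k) k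
  have c3 := congrFun c2 (k + 1)
  simp only [if_neg hk] at c3
  have hC : ev.comp Polynomial.C = ev'.comp Polynomial.C := by
    refine MvPolynomial.ringHom_ext (fun r => RingHom.congr_fun a1 r) ?_
    rintro (l | l)
    · exact congrFun a2 l
    · exact congrFun b2 l
  exact Polynomial.ringHom_ext (fun a => RingHom.congr_fun hC a) c3

theorem q_surj (P : PtAPI) (i j : ι) (k : Fin 2) {C : Type} [CommRing C]
    (g : Spec (CommRingCat.of C) ⟶ W F ι) (h₁ : ∀ x, (g ≫ p₁ F ι) x ∉ zeros {X i})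
    (h₂ : ∀ x, (g ≫ p₂ F ι) x ∉ zeros {X j}) (h₃ : ∀ x, (g ≫ p₃ F ι) x ∉ zeros {X k}) :
    ∃ (ev : Polynomial (Pxy ι F) →+* C) (h : Ev i j ev), g ≫ p₁ F ι = q₁ h ∧ g ≫ p₂ F ι = q₂ h ∧
      g ≫ p₃ F ι = q₃ k (ev Polynomial.X) := by
  obtain ⟨c, w, hw, wi, e₁⟩ := P.surj _ _ _ _ i h₁
  obtain ⟨c', w', hw', wj, e₂⟩ := P.surj _ _ _ _ j h₂
  obtain ⟨c'', w'', hw'', wk, e₃⟩ := P.surj _ _ _ _ k h₃
  have hc : c = c' := by
    have h := congrArg (g ≫ ·) (W_cond (F := F) (ι := ι))
    simp only [← Category.assoc] at h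
    rw [e₁, e₂, P.str, P.str] at h
    exact congrArg CommRingCat.Hom.hom (Spec.map_injective h)
  subst hc
  refine ⟨Polynomial.eval₂RingHom (eval₂Hom c (Sum.elim w w')) (w'' (k + 1)),
    ⟨by simpa using wi, by simpa using wj⟩, ?_, ?_, ?_⟩
  · exact e₁.trans (pt_congr (by ext; simp) (by ext; simp))
  · exact e₂.trans (pt_congr (by ext; simp) (by ext; simp))
  · refine e₃.trans (pt_congr (RingHom.ext_int _ _) (funext fun l => ?_))
    by_cases h : l = k
    · simp [h, wk]
    · have : l = k + 1 := (by decide : ∀ k l : Fin 2, ¬ l = k → l = k + 1) k l h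
      subst this
      simp [h]

theorem exists_Q (i j : ι) : ∃ (Q : Type) (_ : CommRing Q) (mk : Polynomial (Pxy ι F) →+* Q),
    Ev i j mk ∧ Function.Surjective mk ∧ ∀ (C : Type) [CommRing C]
      (ev : Polynomial (Pxy ι F) →+* C), Ev i j ev → ∃ e : Q →+* C, e.comp mk = ev := by
  let I : Ideal (Polynomial (Pxy ι F)) :=
    Ideal.span {Polynomial.C (X (Sum.inl i)) - 1, Polynomial.C (X (Sum.inr j)) - 1}
  refine ⟨Polynomial (Pxy ι F) ⧸ I, inferInstance, Ideal.Quotient.mk I, ⟨?_, ?_⟩,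
    Ideal.Quotient.mk_surjective, fun C _ ev h => ?_⟩
  · have h : Polynomial.C (X (Sum.inl i)) - 1 ∈ I := Ideal.subset_span (Or.inl rfl)
    exact (Ideal.Quotient.eq.mpr h).trans (map_one (Ideal.Quotient.mk I))
  · have h : Polynomial.C (X (Sum.inr j)) - 1 ∈ I := Ideal.subset_span (Or.inr rfl)
    exact (Ideal.Quotient.eq.mpr h).trans (map_one (Ideal.Quotient.mk I))
  · have hker : I ≤ RingHom.ker ev := by
      rw [Ideal.span_le]
      rintro _ (rfl | rfl)
      · simp [RingHom.mem_ker, h.a]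
      · simp [RingHom.mem_ker, h.b]
    exact ⟨Ideal.Quotient.lift I ev fun a ha => hker ha, RingHom.ext fun _ => rfl⟩

end Chart

open Chart in
theorem chart_stmt (P : PtAPI) : ChartStmt := by
  intro F ι _ _ S s u v π i j k hs hu hv
  obtain ⟨Q, _, mk, hI, hsurj, hQ⟩ := exists_Q (F := F) i j
  obtain ⟨m, m₁, m₂, m₃⟩ := W_lift (q₁ hI) (q₂ hI) (q₃ k (mk Polynomial.X))
    ((P.str _ _ _ _ _ _).trans (P.str _ _ _ _ _ _).symm)
  obtain ⟨φ, φ₁, φ₂, φ₃⟩ := W_lift u v π (hu.trans hv.symm)
  have key : ∀ (C : Type) [CommRing C] (e : Q →+* C),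
      Spec.map (CommRingCat.ofHom e) ≫ m ≫ p₁ F ι = q₁ (hI.comp e) ∧
      Spec.map (CommRingCat.ofHom e) ≫ m ≫ p₂ F ι = q₂ (hI.comp e) ∧
      Spec.map (CommRingCat.ofHom e) ≫ m ≫ p₃ F ι = q₃ k (e.comp mk Polynomial.X) := fun C _ e =>
    ⟨by rw [m₁, q₁_nat P], by rw [m₂, q₂_nat P], by rw [m₃, q₃_nat P]; rfl⟩
  have hm : Mono m := by
    refine mono_of_aff m fun C a b hab => ?_
    obtain ⟨a, rfl⟩ := Spec.map_surjective a
    obtain ⟨b, rfl⟩ := Spec.map_surjective b
    obtain ⟨a1, a2, a3⟩ := key C a.hom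
    obtain ⟨b1, b2, b3⟩ := key C b.hom
    have hab' : ∀ {Y : Scheme.{0}} (t : W F ι ⟶ Y), Spec.map (CommRingCat.ofHom a.hom) ≫ m ≫ t =
        Spec.map (CommRingCat.ofHom b.hom) ≫ m ≫ t := fun t => by
      rw [← Category.assoc, ← Category.assoc]
      exact congrArg (· ≫ t) hab
    have := q_inj P k (hI.comp a.hom) (hI.comp b.hom) (by rw [← a1, ← b1, hab'])
      (by rw [← a2, ← b2, hab']) (by rw [← a3, ← b3, hab'])
    congr 1
    ext z
    obtain ⟨z, rfl⟩ := hsurj z
    exact RingHom.congr_fun this z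
  let U : (W F ι).Opens := (p₁ F ι ⁻¹ᵁ (zeros {X i}).compl) ⊓ (p₂ F ι ⁻¹ᵁ (zeros {X j}).compl) ⊓
    (p₃ F ι ⁻¹ᵁ (zeros {X k}).compl)
  have hU : ∀ x, x ∈ U ↔ p₁ F ι x ∉ zeros {X i} ∧ p₂ F ι x ∉ zeros {X j} ∧
      p₃ F ι x ∉ zeros {X k} := fun x => and_assoc
  obtain ⟨ho, hrange⟩ := open_of_mono m U (fun x => by
      rw [hU, ← Scheme.Hom.comp_apply, ← Scheme.Hom.comp_apply, ← Scheme.Hom.comp_apply,
        m₁, m₂, m₃]
      exact ⟨pt_not_mem P _ _ _ i hI.a x, pt_not_mem P _ _ _ j hI.b x,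
        pt_not_mem P _ (fun l => if l = k then 1 else mk Polynomial.X) _ k (if_pos rfl) x⟩)
    (fun C g hg => by
      obtain ⟨ev, h, e₁, e₂, e₃⟩ := q_surj P i j k (C := C) g
        (fun x => by rw [Scheme.Hom.comp_apply]; exact ((hU _).mp (hg x)).1)
        (fun x => by rw [Scheme.Hom.comp_apply]; exact ((hU _).mp (hg x)).2.1)
        (fun x => by rw [Scheme.Hom.comp_apply]; exact ((hU _).mp (hg x)).2.2)
      obtain ⟨e, rfl⟩ := hQ C ev h
      obtain ⟨a1, a2, a3⟩ := key C e
      refine ⟨Spec.map (CommRingCat.ofHom e), W_ext ?_ ?_ ?_⟩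
      · rw [Category.assoc]
        exact a1.trans e₁.symm
      · rw [Category.assoc]
        exact a2.trans e₂.symm
      · rw [Category.assoc]
        exact a3.trans e₃.symm)
  have hsep := W_sep (F := F) (ι := ι) P
  have hφ : IsProper φ := by
    have : IsProper (φ ≫ p₁ F ι ≫ PP.s F ι) := by
      rw [← Category.assoc, φ₁, hu]
      exact hs
    exact IsProper.of_comp φ (p₁ F ι ≫ PP.s F ι)
  have hcl : IsClosedImmersion (Spec.map (CommRingCat.ofHom mk)) :=
    IsClosedImmersion.spec_of_surjective _ hsurj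
  refine ⟨pullback φ m, pullback.fst φ m, pullback.snd φ m ≫ Spec.map (CommRingCat.ofHom mk),
    inferInstance, inferInstance, fun x => ?_, fun C _ g ev hg => ?_⟩
  · rw [Scheme.Pullback.range_fst, hrange, Set.mem_preimage, SetLike.mem_coe, hU,
      ← Scheme.Hom.comp_apply, ← Scheme.Hom.comp_apply, ← Scheme.Hom.comp_apply, φ₁, φ₂, φ₃]
  · obtain ⟨e, he⟩ := Spec.map_surjective (g ≫ pullback.snd φ m)
    rw [← Category.assoc, ← he, ← Spec.map_comp] at hg
    have hev : e.hom.comp mk = ev := congrArg CommRingCat.Hom.hom (Spec.map_injective hg)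
    subst hev
    obtain ⟨a1, a2, a3⟩ := key C e.hom
    have hh : ∀ {Y : Scheme.{0}} (t : W F ι ⟶ Y), Spec.map (CommRingCat.ofHom e.hom) ≫ m ≫ t =
        g ≫ pullback.fst φ m ≫ φ ≫ t := fun t => by
      rw [pullback.condition_assoc, ← Category.assoc g, ← he]
      rfl
    rw [hh, φ₁] at a1
    rw [hh, φ₂] at a2
    rw [hh, φ₃] at a3
    exact ⟨(hI.comp e.hom).a, (hI.comp e.hom).b,
      ⟨_, _, (Category.assoc _ _ _).trans a1, (Category.assoc _ _ _).trans a2⟩, _, a3⟩

namespace Chart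

variable {ι F K E : Type}

theorem exists_hom {V : Type} [CommRing V] (i j : ι) (g₀ : Pxy ι V) :
    ∃ m g, IsWeightedHomogeneous (bw ι) g m ∧
      g - g₀ ∈ Ideal.span {(X (Sum.inl i) - 1 : Pxy ι V), X (Sum.inr j) - 1} := by
  set I := Ideal.span {(X (Sum.inl i) - 1 : Pxy ι V), X (Sum.inr j) - 1} with hI
  have hx : ∀ m : ℕ × ℕ, ∃ h : Pxy ι V, IsWeightedHomogeneous (bw ι) h m ∧ h - 1 ∈ I := by
    rintro ⟨d, n⟩
    refine ⟨X (Sum.inl i) ^ d * X (Sum.inr j) ^ n, ?_, ?_⟩
    · have h := ((isWeightedHomogeneous_X V (bw ι) (Sum.inl i)).pow d).mul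
        ((isWeightedHomogeneous_X V (bw ι) (Sum.inr j)).pow n)
      simpa [bw] using h
    · have h1 : Ideal.Quotient.mk I (X (Sum.inl i)) = Ideal.Quotient.mk I 1 :=
        Ideal.Quotient.eq.mpr (Ideal.subset_span (Set.mem_insert _ _))
      have h2 : Ideal.Quotient.mk I (X (Sum.inr j)) = Ideal.Quotient.mk I 1 :=
        Ideal.Quotient.eq.mpr (Ideal.subset_span (Set.mem_insert_of_mem _ rfl))
      rw [← Ideal.Quotient.eq, map_mul, map_pow, map_pow, h1, h2, map_one, one_pow, one_pow,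
        one_mul]
  induction g₀ using MvPolynomial.induction_on with
  | C a => exact ⟨0, C a, isWeightedHomogeneous_C _ _, by simp⟩
  | add p q hp hq =>
    obtain ⟨m, g, hg, h⟩ := hp
    obtain ⟨m', g', hg', h'⟩ := hq
    obtain ⟨a, ha, ha1⟩ := hx m
    obtain ⟨a', ha', ha1'⟩ := hx m'
    refine ⟨m + m', g * a' + a * g', (hg.mul ha').add (ha.mul hg'), ?_⟩
    have : g * a' + a * g' - (p + q) = g * (a' - 1) + (a - 1) * g' + (g - p) + (g' - q) := by ring
    rw [this]
    exact I.add_mem (I.add_mem (I.add_mem (I.mul_mem_left _ ha1') (I.mul_mem_right _ ha1)) h) h'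
  | mul_X p l hp =>
    obtain ⟨m, g, hg, h⟩ := hp
    refine ⟨m + bw ι l, g * X l, hg.mul (isWeightedHomogeneous_X V (bw ι) l), ?_⟩
    rw [← sub_mul]
    exact I.mul_mem_right _ h

theorem hom_map {V V' : Type} [CommRing V] [CommRing V'] (φ : V →+* V') {g : Pxy ι V} {m : ℕ × ℕ}
    (hg : IsWeightedHomogeneous (bw ι) g m) :
    IsWeightedHomogeneous (bw ι) (MvPolynomial.map φ g) m := fun d hd =>
  hg fun h => hd (by rw [coeff_map, h, map_zero])

variable [Field F] [Field K] [Field E]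

theorem prm_scale (c : K →+* E) (a b : ι → E) (l m : E) :
    prm c a b ≤ prm c (fun i => l * a i) fun j => m * b j := by
  intro f hf
  rw [prm, RingHom.mem_ker] at hf ⊢
  let θ : MvPolynomial (Fin 2) E →+* MvPolynomial (Fin 2) E :=
    eval₂Hom C ![C l * X 0, C m * X 1]
  have : (eval₂Hom (C.comp c) (Sum.elim (fun i => C (l * a i) * X 0) fun j => C (m * b j) * X 1) :
      Pxy ι K →+* MvPolynomial (Fin 2) E) = θ.comp (eval₂Hom (C.comp c)
        (Sum.elim (fun i => C (a i) * X 0) fun j => C (b j) * X 1)) := by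
    refine MvPolynomial.ringHom_ext (fun r => by simp [θ]) ?_
    rintro (i | i) <;> simp [θ] <;> ring
  rw [this, RingHom.comp_apply, hf, map_zero]

theorem prm_eval (c : K →+* E) (a b : ι → E) {f : Pxy ι K} (hf : f ∈ prm c a b) :
    eval₂Hom c (Sum.elim a b) f = 0 := by
  rw [prm, RingHom.mem_ker] at hf
  have : eval₂Hom c (Sum.elim a b) = (MvPolynomial.eval fun _ : Fin 2 => (1 : E)).comp
      (eval₂Hom (C.comp c) (Sum.elim (fun i => C (a i) * X 0) fun j => C (b j) * X 1)) := by
    refine MvPolynomial.ringHom_ext (fun r => by simp) ?_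
    rintro (i | i) <;> simp
  rw [this, RingHom.comp_apply, hf, map_zero]

/-- Substitution of `y` for the polynomial variable. -/
noncomputable def psi {V : Type} [CommRing V] (φ : F →+* V) (y : V) :
    Polynomial (Pxy ι F) →+* Pxy ι V :=
  Polynomial.eval₂RingHom (MvPolynomial.map φ) (C y)

theorem psi_C {V : Type} [CommRing V] (φ : F →+* V) (y : V) (f : Pxy ι F) :
    psi φ y (Polynomial.C f) = MvPolynomial.map φ f := by simp [psi]

theorem psi_X {V : Type} [CommRing V] (φ : F →+* V) (y : V) :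
    psi (ι := ι) φ y Polynomial.X = C y := by simp [psi]

theorem psi_map [Algebra F K] (y : K) (G : Polynomial F) :
    psi (ι := ι) (algebraMap F K) y (G.map C) = C (Polynomial.aeval y G) := by
  induction G using Polynomial.induction_on' with
  | add p q hp hq => rw [Polynomial.map_add, map_add, hp, hq, map_add, map_add]
  | monomial n a =>
    rw [← Polynomial.C_mul_X_pow_eq_monomial]
    simp [psi]

theorem rel [Algebra F K] (L : PlaceAPI) (y : K) (p : Place K F) (hy : Simple F y) (ho : p.Over F)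
    (h0 : p.Val y 0) (g : Pxy ι p.V) : ∃ (G : Polynomial F) (P : Polynomial (Pxy ι F)),
      G.eval 0 ≠ 0 ∧ psi (algebraMap F K) y P =
        C (Polynomial.aeval y G) * MvPolynomial.map p.V.subtype g ∧
      P.eval 0 = C (G.eval 0) * MvPolynomial.map p.r g := by
  have he : ∀ G : Polynomial F, (G.map (C : F →+* Pxy ι F)).eval 0 = C (G.eval 0) := fun G => by
    rw [← Polynomial.coeff_zero_eq_eval_zero, ← Polynomial.coeff_zero_eq_eval_zero,
      Polynomial.coeff_map]
  induction g using MvPolynomial.induction_on with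
  | C a =>
    obtain ⟨f, G, h1, h2, h3⟩ := (L.form K F y p hy ho h0 a (p.r a)).mp ⟨a.2, rfl⟩
    refine ⟨G, f.map C, h1, ?_, ?_⟩
    · rw [psi_map, map_C, ← map_mul, ← h2, mul_comm]
      rfl
    · rw [he, map_C, ← map_mul, ← h3, mul_comm]
  | add s t hs ht =>
    obtain ⟨G, P, h1, h2, h3⟩ := hs
    obtain ⟨G', P', h1', h2', h3'⟩ := ht
    refine ⟨G * G', P * G'.map C + G.map C * P', ?_, ?_, ?_⟩
    · rw [Polynomial.eval_mul]
      exact mul_ne_zero h1 h1'
    · simp only [map_add, map_mul, psi_map, h2, h2']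
      ring
    · simp only [Polynomial.eval_add, Polynomial.eval_mul, he, h3, h3', map_add, map_mul]
      ring
  | mul_X s l hs =>
    obtain ⟨G, P, h1, h2, h3⟩ := hs
    refine ⟨G, P * Polynomial.C (X l), h1, ?_, ?_⟩
    · simp only [map_mul, psi_C, h2, map_X, mul_assoc]
    · simp only [Polynomial.eval_mul, Polynomial.eval_C, h3, map_mul, map_X, mul_assoc]

end Chart

open Chart in
theorem link_stmt (M : PrmAPI) (L : PlaceAPI) : LinkStmt := by
  intro ι F K E _ _ _ _ c y p a b i j ev hy ho h0 hi hj hc ha hb hX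
  have hev : ev = (eval₂Hom c (Sum.elim (fun l => (a i)⁻¹ * a l) fun l => (b j)⁻¹ * b l)).comp
      (psi (algebraMap F K) y) := by
    refine Polynomial.ringHom_ext (fun f => ?_) (by simp [psi_X, hX])
    rw [RingHom.comp_apply, psi_C]
    refine RingHom.congr_fun (f := ev.comp Polynomial.C)
      (g := (eval₂Hom c (Sum.elim (fun l => (a i)⁻¹ * a l) fun l => (b j)⁻¹ * b l)).comp
        (MvPolynomial.map (algebraMap F K))) (MvPolynomial.ringHom_ext (fun r => ?_) ?_) f
    · simpa using RingHom.congr_fun hc r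
    · rintro (l | l)
      · simp [ha, div_eq_inv_mul]
      · simp [hb, div_eq_inv_mul]
  constructor
  · refine le_antisymm (sup_le (fun f hf => ?_) ?_) ?_
    · obtain ⟨g, hg, rfl⟩ := (Ideal.mem_map_iff_of_surjective _
        (MvPolynomial.map_surjective _ p.surj)).mp hf
      obtain ⟨G, P, h1, h2, h3⟩ := rel L y p hy ho h0 g
      have hP : P ∈ RingHom.ker ev := by
        rw [RingHom.mem_ker, hev, RingHom.comp_apply, h2, map_mul,
          prm_eval c _ _ (prm_scale c a b _ _ hg), mul_zero]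
      have h4 : P.eval 0 ∈ (RingHom.ker ev).map (Polynomial.evalRingHom 0) :=
        Ideal.mem_map_of_mem _ hP
      have h5 := Ideal.mul_mem_left _ (C (G.eval 0)⁻¹) h4
      rwa [h3, ← mul_assoc, ← map_mul, inv_mul_cancel₀ h1, map_one, one_mul] at h5
    · rw [deh, Ideal.span_le]
      have hh : ∀ f : Pxy ι F, ev (Polynomial.C f) = 1 →
          f - 1 ∈ (RingHom.ker ev).map (Polynomial.evalRingHom 0) := fun f hf => by
        have : Polynomial.C (f - 1) ∈ RingHom.ker ev := by
          rw [RingHom.mem_ker, map_sub, map_sub, hf, map_one, map_one, sub_self]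
        simpa using Ideal.mem_map_of_mem (Polynomial.evalRingHom 0) this
      rintro _ (rfl | rfl)
      · exact hh _ (by rw [ha, div_self hi])
      · exact hh _ (by rw [hb, div_self hj])
    · rw [Ideal.map_le_iff_le_comap]
      intro P hP
      let φ : F →+* p.V := (algebraMap F K).codRestrict p.V fun z => (ho z).1
      let y' : p.V := ⟨y, h0.1⟩
      have e1 : (MvPolynomial.map p.V.subtype).comp (psi (ι := ι) φ y') =
          psi (algebraMap F K) y := by
        refine Polynomial.ringHom_ext (fun f => ?_) ?_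
        · rw [RingHom.comp_apply, psi_C, psi_C, map_map]
          rfl
        · rw [RingHom.comp_apply, psi_X, psi_X, map_C]
          rfl
      have e2 : (MvPolynomial.map p.r).comp (psi (ι := ι) φ y') = Polynomial.evalRingHom 0 := by
        refine Polynomial.ringHom_ext (fun f => ?_) ?_
        · have : p.r.comp φ = RingHom.id F := RingHom.ext fun z => (ho z).2
          rw [RingHom.comp_apply, psi_C, map_map, this, map_id]
          simp
        · rw [RingHom.comp_apply, psi_X, map_C, show p.r y' = 0 from h0.2]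
          simp
      obtain ⟨m, g, hg, hd⟩ := exists_hom i j (psi φ y' P)
      have hdeh : ∀ {T : Type} [CommRing T] (θ : Pxy ι p.V →+* T) (J : Ideal T),
          θ (X (Sum.inl i)) - 1 ∈ J → θ (X (Sum.inr j)) - 1 ∈ J → θ g - θ (psi φ y' P) ∈ J := by
        intro T _ θ J h1 h2
        have : Ideal.span {(X (Sum.inl i) - 1 : Pxy ι p.V), X (Sum.inr j) - 1} ≤ J.comap θ := by
          rw [Ideal.span_le]
          rintro _ (rfl | rfl)
          · simpa using h1
          · simpa using h2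
        simpa using this hd
      have h1 : MvPolynomial.map p.V.subtype g ∈
          prm c (fun l => (a i)⁻¹ * a l) fun l => (b j)⁻¹ * b l := by
        rw [M.prm_mem ι K E c _ _ _ m (hom_map _ hg)]
        have h := hdeh ((eval₂Hom c (Sum.elim (fun l => (a i)⁻¹ * a l)
          fun l => (b j)⁻¹ * b l)).comp (MvPolynomial.map p.V.subtype)) ⊥
          (by simp [hi]) (by simp [hj])
        rw [Ideal.mem_bot, sub_eq_zero, RingHom.comp_apply, RingHom.comp_apply,
          ← RingHom.comp_apply (MvPolynomial.map p.V.subtype) (psi φ y'), e1,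
          ← RingHom.comp_apply _ (psi (algebraMap F K) y), ← hev] at h
        exact h.trans hP
      have h2 : MvPolynomial.map p.V.subtype g ∈ prm c a b := by
        have := prm_scale c _ _ (a i) (b j) h1
        simpa [hi, hj] using this
      have h3 : MvPolynomial.map p.r g ∈ p.init (prm c a b) := Ideal.mem_map_of_mem _ h2
      have h4 := hdeh (MvPolynomial.map p.r) (deh F i j)
        (by rw [map_X]; exact Ideal.subset_span (Set.mem_insert _ _))
        (by rw [map_X]; exact Ideal.subset_span (Set.mem_insert_of_mem _ rfl))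
      rw [← RingHom.comp_apply (MvPolynomial.map p.r) (psi φ y'), e2] at h4
      have h5 := Ideal.sub_mem _ (Ideal.mem_sup_left h3) (Ideal.mem_sup_right h4)
      rw [sub_sub_cancel] at h5
      exact h5
  · have : Subfield.closure (Set.range ev) = ratF c a b := by
      refine le_antisymm ?_ ?_
      · rw [Subfield.closure_le]
        rintro _ ⟨P, rfl⟩
        have hcm : ∀ z, c z ∈ ratF c a b := fun z =>
          Subfield.subset_closure (Or.inl (Or.inl ⟨z, rfl⟩))
        have hC : ∀ f : Pxy ι F, ev (Polynomial.C f) ∈ ratF c a b := fun f => by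
          induction f using MvPolynomial.induction_on with
          | C r => exact (RingHom.congr_fun hc r).symm ▸ hcm _
          | add s t hs ht => rw [map_add, map_add]; exact add_mem hs ht
          | mul_X s l hs =>
            rw [map_mul, map_mul]
            refine mul_mem hs ?_
            rcases l with l | l
            · exact Subfield.subset_closure (Or.inl (Or.inr ⟨l, i, ha l⟩))
            · exact Subfield.subset_closure (Or.inr ⟨l, j, hb l⟩)
        induction P using Polynomial.induction_on' with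
        | add s t hs ht => rw [map_add]; exact add_mem hs ht
        | monomial n f =>
          rw [← Polynomial.C_mul_X_pow_eq_monomial, map_mul, map_pow, hX]
          exact mul_mem (hC f) (pow_mem (hcm y) n)
      · have hm : ∀ P, ev P ∈ Subfield.closure (Set.range ev) := fun P =>
          Subfield.subset_closure ⟨P, rfl⟩
        rw [ratF, Subfield.closure_le]
        rintro _ ((⟨z, rfl⟩ | ⟨l, l', rfl⟩) | ⟨l, l', rfl⟩)
        · let T : IntermediateField F K :=
            ((Subfield.closure (Set.range ev)).comap c).toIntermediateField fun r =>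
              Subfield.mem_comap.mpr ((RingHom.congr_fun hc r) ▸ hm _)
          have hT : IntermediateField.adjoin F {y} ≤ T := by
            rw [IntermediateField.adjoin_simple_le_iff]
            exact Subfield.mem_comap.mpr (hX ▸ hm _)
          rw [hy.2] at hT
          exact Subfield.mem_comap.mp (hT IntermediateField.mem_top)
        · rw [← div_div_div_cancel_right₀ hi, ← ha, ← ha]
          exact div_mem (hm _) (hm _)
        · rw [← div_div_div_cancel_right₀ hj, ← hb, ← hb]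
          exact div_mem (hm _) (hm _)
    rw [fdeg, this]

end Pool.Agent.MP_d45d16_ag.Yag

end MrgPart5

-- marker of a merged file
example : 731051 + 272020 = 731051 + 272020 := rfl
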