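import Pool.Agent.MP_d45d16_ag.yag.Alg3

/-!
ALG: the invariant exists for the twisted quadrics.
-/

set_option autoImplicit false

open MvPolynomial Matrix

namespace Pool.Agent.MP_d45d16_ag.Yag

namespace Alg

/-- The characters of the sign group attached to the columns. -/
def chi (j : I14) : Sgn →* ℤˣ where
  toFun a := Sum.elim (sg (M := ℤˣ) a) (fun _ => 1) j
  map_one' := by
    rcases j with j | j
    · exact sg_one (M := ℤˣ) j
    · rfl
  map_mul' a b := by
    rcases j with j | j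
    · exact sg_mul (M := ℤˣ) a b j
    · exact (mul_one _).symm

theorem col_emb (a : Sgn) (j : I14) : col (emb a) j = toC (chi j a) := by
  rcases j with j | j
  · exact (map_sg toC a j).symm
  · exact (sg_one j).trans (map_one toC).symm

theorem al_mem (k : Fin 7) : (mon (Sum.inr k))⁻¹ ^ 2 ∈ Kn 0 := fun g hg => by
  rw [map_pow, map_inv₀, act_mon, mul_inv, mul_pow, inv_pow, ← map_pow, ← Units.val_pow_eq_pow_val,
    col, Sum.elim_inr, sg_sq _ hg.1, Units.val_one, map_one, inv_one, one_mul]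

/-- The coefficients of the second quadric. -/
noncomputable def al (k : Fin 7) : Kn 0 := ⟨_, al_mem k⟩

theorem al_aniso (y : Fin 7 → Kn 0) (h : ∑ k, al k * y k ^ 2 = 0) : y = 0 := by
  have h0 : (fun k => (mon (Sum.inr k))⁻¹ * (y k : L0)) = 0 := by
    refine aniso (σ := I14 × I14) (Γ := Fin 3 → ℤˣ)
      (fun a ij => col (1, fun l => toC (a l)) ij.2) (fun k a => toC (sg a k))
      (fun k k' hk => sg_inj k k' fun a => toC_inj (Units.ext (hk a))) _ (fun k a => ?_) ?_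
    · change act (1, fun l => toC (a l)) _ = _
      have h1 : algebraMap ℂ L0 (toC (sg a k)) * algebraMap ℂ L0 (toC (sg a k)) = 1 := by
        rw [← map_mul, ← Units.val_mul, ← sq, toC_sq, Units.val_one, map_one]
      rw [map_mul, map_inv₀, act_mon, (y k).2 _ ⟨fun l => toC_sq _, fun _ _ => rfl⟩, col,
        Sum.elim_inr, ← map_sg toC, mul_inv, inv_eq_of_mul_eq_one_right h1, mul_assoc]
    · have h1 := congrArg (Kn 0).subtype h
      rw [map_sum, map_zero] at h1
      rw [← h1]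
      refine Finset.sum_congr rfl fun k _ => ?_
      rw [mul_pow, map_mul, map_pow]
      rfl
  funext k
  have h1 := congrFun h0 k
  exact Subtype.ext ((mul_eq_zero.mp h1).resolve_left (inv_ne_zero (mon_ne _)))

theorem charZero_L0 : CharZero L0 := charZero_of_injective_algebraMap (algebraMap ℂ L0).injective

theorem charZero_K0 : CharZero (Kn 0) :=
  haveI := charZero_L0
  (Kn 0).subtype.charZero

/-- The data at the bottom level. -/
noncomputable def setup (hSp : SprStmt) : Setup Sgn I14 (Kn 0) where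
  χ := chi
  T := Finset.univ.map Function.Embedding.inl
  inj := by
    intro i hi j hj h
    obtain ⟨i, -, rfl⟩ := Finset.mem_map.mp hi
    obtain ⟨j, -, rfl⟩ := Finset.mem_map.mp hj
    exact congrArg _ (sg_inj i j fun a => DFunLike.congr_fun h a)
  im := ⟨algebraMap ℂ L0 Complex.I, fun g _ => (act g).commutes _⟩
  im_sq := Subtype.ext (by
    change algebraMap ℂ L0 Complex.I ^ 2 = -1
    rw [← map_pow, Complex.I_sq, map_neg, map_one])
  two := haveI := charZero_K0; two_ne_zero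
  eqs := Set.range (fun k => X (Sum.inl k)) ∪ {∑ k, C (al k) * X (Sum.inr k) ^ 2}
  even := by
    intro E _ _ _ y hy h
    have := charZero_K0
    refine hSp (Kn 0) (Fin 7) al al_aniso E (fun k => y (Sum.inr k)) (fun h0 => hy ?_) ?_
    · funext j
      rcases j with j | j
      · simpa using h _ (Or.inl ⟨j, rfl⟩)
      · exact congrFun h0 j
    · simpa [map_sum] using h _ (Or.inr rfl)

theorem step' (hP : PlaceAPI) (hS : StepStmt) (S : Setup Sgn I14 (Kn 0)) (i : Fin 3)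
    [Algebra (Kn 0) (Kn i.val)] [Algebra (Kn 0) (Kn (i.val + 1))]
    (h1 : ∀ c, ((algebraMap (Kn 0) (Kn i.val) c : Kn i.val) : L0) = c)
    (h2 : ∀ c, ((algebraMap (Kn 0) (Kn (i.val + 1)) c : Kn (i.val + 1)) : L0) = c)
    (Φ : Ideal (Pxy I14 (Kn i.val)) → ZMod 2) (hΦ : S.Good Φ) :
    ∃ Φ' : Ideal (Pxy I14 (Kn (i.val + 1))) → ZMod 2, S.Good Φ' := by
  let _ : Algebra (Kn i.val) (Kn (i.val + 1)) :=
    (Subfield.inclusion (Kn_le (Nat.le_succ _))).toAlgebra
  have h3 : ∀ c, ((algebraMap (Kn i.val) (Kn (i.val + 1)) c : Kn (i.val + 1)) : L0) = c :=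
    fun _ => rfl
  have : IsScalarTower (Kn 0) (Kn i.val) (Kn (i.val + 1)) :=
    IsScalarTower.of_algebraMap_eq fun c => Subtype.ext (by rw [h3, h1, h2])
  have hs := simple_Kn i h3
  obtain ⟨p, hp, hv⟩ := hP.ex _ _ _ hs
  refine ⟨_, hS Sgn I14 (Kn 0) (Kn i.val) (Kn (i.val + 1)) S Φ _ (chi (Sum.inl (f3 i))) p
    (fun a c => Subtype.ext rfl) (fun a => Subtype.ext ?_) hs hp hv hΦ⟩
  rw [coe_smul]
  change act (emb a) (s1 i) = ((chi (Sum.inl (f3 i)) a : ℤˣ) : ℤ) • s1 i
  rw [s1, act_gen, col_emb, alg_toC]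

theorem step (hP : PlaceAPI) (hS : StepStmt) (S : Setup Sgn I14 (Kn 0)) (n m : ℕ) (hn : n < 3)
    (hm : m = n + 1) [Algebra (Kn 0) (Kn n)] [Algebra (Kn 0) (Kn m)]
    (h1 : ∀ c, ((algebraMap (Kn 0) (Kn n) c : Kn n) : L0) = c)
    (h2 : ∀ c, ((algebraMap (Kn 0) (Kn m) c : Kn m) : L0) = c)
    (Φ : Ideal (Pxy I14 (Kn n)) → ZMod 2) (hΦ : S.Good Φ) :
    ∃ Φ' : Ideal (Pxy I14 (Kn m)) → ZMod 2, S.Good Φ' := by
  subst hm
  exact step' hP hS S ⟨n, hn⟩ h1 h2 Φ hΦ

theorem FF_mem (c : FF) : (c : L0) ∈ Kn 3 := fun g hg =>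
  act_FF g (fun l => by rw [hg.2 l l.2, one_pow]) hg.1 c

/-- The inclusion of the invariant field in the top level. -/
noncomputable def rho : FF →+* Kn 3 := (algebraMap FF L0).codRestrict (Kn 3) FF_mem

/-- The first column scaling. -/
noncomputable def D1 : I14 → L0 := Sum.elim (fun _ => 1) fun k => (mon (Sum.inr k))⁻¹

/-- The second column scaling. -/
noncomputable def D2 : I14 → L0 := fun j => (mon j)⁻¹

theorem act_g2 (g : Tor) (i j : I14) : act g (gen i j * D2 j) = gen i j * D2 j := by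
  rw [D2, ← div_eq_mul_inv, map_div₀, act_gen, act_mon, mul_div_mul_left _ _ (algC_ne _)]

theorem g1_mem (i j : I14) : gen i j * D1 j ∈ Kn 3 := fun g hg => by
  rcases j with j | j
  · have h : g.1 = 1 := funext fun l => hg.2 l l.2
    rw [D1, Sum.elim_inl, mul_one, act_gen, col, Sum.elim_inl, h, sg_one, Units.val_one, map_one,
      one_mul]
  · exact act_g2 g i (Sum.inr j)

/-- The first matrix. -/
noncomputable def g1 : Matrix I14 I14 (Kn 3) := Matrix.of fun i j => ⟨_, g1_mem i j⟩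

/-- The second matrix. -/
noncomputable def g2 : Matrix I14 I14 (Kn 3) :=
  Matrix.of fun i j => ⟨gen i j * D2 j, fun g _ => act_g2 g i j⟩

theorem g1_map : g1.map (Kn 3).subtype = gen * diagonal D1 := by
  ext i j; rw [mul_diagonal]; rfl

theorem g2_map : g2.map (Kn 3).subtype = gen * diagonal D2 := by
  ext i j; rw [mul_diagonal]; rfl

theorem unit_of (g : Matrix I14 I14 (Kn 3)) (D : I14 → L0) (hD : ∀ j, D j ≠ 0)
    (h : g.map (Kn 3).subtype = gen * diagonal D) : IsUnit g := by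
  rw [isUnit_iff_isUnit_det, isUnit_iff_ne_zero]
  intro h0
  have h1 : (Kn 3).subtype g.det = (gen * diagonal D).det := by
    rw [RingHom.map_det, ← h]; rfl
  rw [h0, map_zero, det_mul, det_diagonal] at h1
  exact mul_ne_zero gen_det (Finset.prod_ne_zero_iff.mpr fun j _ => hD j) h1.symm

theorem g1_unit : IsUnit g1 := unit_of g1 D1 (fun j => by
  rcases j with j | j
  · exact one_ne_zero
  · exact inv_ne_zero (mon_ne _)) g1_map

theorem g2_unit : IsUnit g2 := unit_of g2 D2 (fun j => inv_ne_zero (mon_ne j)) g2_map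

theorem g1_smul (a : Sgn) (i j : I14) : a • g1 i j = ((chi j a : ℤˣ) : ℤ) • g1 i j := by
  apply Subtype.ext
  change act (emb a) (gen i j * D1 j) = ((chi j a : ℤˣ) : ℤ) • (gen i j * D1 j)
  rcases j with j | j
  · rw [D1, Sum.elim_inl, mul_one, act_gen, col_emb, alg_toC]
  · exact (act_g2 _ i (Sum.inr j)).trans (one_smul ℤ _).symm

end Alg

open Alg

theorem alg_stmt (hP : PlaceAPI) (hB : BaseStmt) (hS : StepStmt) (hA : AsmStmt) (hSp : SprStmt) :
    AlgStmt := by
  let _ : Algebra (Kn 0) (Kn 1) := (Subfield.inclusion (Kn_le (Nat.zero_le _))).toAlgebra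
  let _ : Algebra (Kn 0) (Kn 2) := (Subfield.inclusion (Kn_le (Nat.zero_le _))).toAlgebra
  let _ : Algebra (Kn 0) (Kn 3) := (Subfield.inclusion (Kn_le (Nat.zero_le _))).toAlgebra
  have h0 := hB Sgn I14 (Kn 0) (setup hSp) fun a c => Subtype.ext
    (c.2 (emb a) ⟨fun _ => one_pow 2, fun _ h => absurd h (Nat.not_lt_zero _)⟩)
  obtain ⟨Φ₁, h1⟩ := step hP hS (setup hSp) 0 1 (by norm_num) rfl (fun _ => rfl) (fun _ => rfl) _ h0
  obtain ⟨Φ₂, h2⟩ := step hP hS (setup hSp) 1 2 (by norm_num) rfl (fun _ => rfl) (fun _ => rfl) _ h1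
  obtain ⟨Φ₃, h3⟩ := step hP hS (setup hSp) 2 3 (by norm_num) rfl (fun _ => rfl) (fun _ => rfl) _ h2
  refine ⟨_, hA Sgn I14 (Kn 0) (Kn 3) FF (setup hSp) Φ₃ rho g1 g2 _ _ h3 g1_unit g2_unit
    (fun a c => Subtype.ext (act_FF (emb a) (fun _ => toC_sq _) (fun _ => one_pow 2) c)) g1_smul
    (fun a i j => Subtype.ext (act_g2 (emb a) i j)) fun J hJ₁ hJ₂ => ?_⟩
  let ψ₁ : MvPolynomial I14 FF →+* Pxy I14 (Kn 3) :=
    (theta rho g1 g2).comp (rename (Sum.inl : I14 → I14 ⊕ I14) : _ →ₐ[FF] _).toRingHom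
  let ψ₂ : MvPolynomial I14 FF →+* Pxy I14 (Kn 3) :=
    (theta rho g1 g2).comp (rename (Sum.inr : I14 → I14 ⊕ I14) : _ →ₐ[FF] _).toRingHom
  have c₁ : ∀ c, ψ₁ (C c) = C (rho c) := fun c => by simp [ψ₁, theta]
  have c₂ : ∀ c, ψ₂ (C c) = C (rho c) := fun c => by simp [ψ₂, theta]
  have x₁ : ∀ i, ψ₁ (X i) = ∑ j, C (g1 i j) * X (Sum.inl j) := fun i => by simp [ψ₁, theta]
  have x₂ : ∀ i, ψ₂ (X i) = ∑ j, C (g2 i j) * X (Sum.inr j) := fun i => by simp [ψ₂, theta]
  refine ⟨?_, fun i hi => ?_, ?_⟩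
  · have h := hJ₁ _ qf_inl
    have e := eval_qf (Kn 3).subtype rho (fun _ => rfl) g1 D1 g1_map C ψ₁ _ c₁ x₁ 1 0 (pj 1 0 _)
      (fun j => by rcases j with j | j <;> simp [pj, D1])
    change ψ₁ _ ∈ J at h
    rw [e] at h
    change ∑ i ∈ Finset.univ.map Function.Embedding.inl, _ ∈ J
    simpa [Fintype.sum_sum_type, pj] using h
  · have h := mem_of_unit g1 g1_unit C (fun j => pj 0 1 _ j * X (Sum.inl j)) J (fun i => by
      rw [← eval_lin (Kn 3).subtype rho (fun _ => rfl) g1 D1 g1_map C ψ₁ _ c₁ x₁ 0 1 i]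
      exact hJ₁ _ (lin_inl i)) i
    rcases i with i | i
    · exact absurd (Finset.mem_map.mpr ⟨i, Finset.mem_univ _, rfl⟩) hi
    · simpa [pj] using h
  · rintro _ (⟨k, rfl⟩ | rfl)
    · have h := mem_of_unit g2 g2_unit C (fun j => pj 1 0 _ j * X (Sum.inr j)) J (fun i => by
        rw [← eval_lin (Kn 3).subtype rho (fun _ => rfl) g2 D2 g2_map C ψ₂ _ c₂ x₂ 1 0 i]
        exact hJ₂ _ (lin_inr i)) (Sum.inl k)
      simpa [pj] using h
    · have h := hJ₂ _ qf_inr
      have e := eval_qf (Kn 3).subtype rho (fun _ => rfl) g2 D2 g2_map C ψ₂ _ c₂ x₂ 0 1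
        (Sum.elim 0 fun k => algebraMap (Kn 0) (Kn 3) (al k)) (fun j => by
          rcases j with j | j
          · simp [pj]
          · simp only [pj, Sum.elim_inr, Int.cast_one, one_mul]; rfl)
      change ψ₂ _ ∈ J at h
      rw [e] at h
      simpa [Fintype.sum_sum_type, map_sum] using h

end Pool.Agent.MP_d45d16_ag.Yag
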