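import Mathlib.Algebra.Module.LocalizedModule.Exact
import Mathlib.Tactic.Monotonicity.Lemmas
import Mathlib.RingTheory.Flat.TorsionFree
import Mathlib.Data.Int.Star
import Mathlib.RingTheory.PicardGroup
import Pool.Agent.MP_d45d16_ag.yag.AmbRes

-- ======== part 0: formerly Pool.Agent.MP_d45d16_ag.yag.Bc
section MrgPart0

/-!
Base change of curves defined over a finite extension.
-/

set_option autoImplicit false

open AlgebraicGeometry CategoryTheory Limits MvPolynomial Filter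

namespace Pool.Agent.MP_d45d16_ag.Yag

namespace Bc

theorem isProj_comp {Z Y X : Scheme.{0}} (i : Z ⟶ Y) [IsClosedImmersion i] {f : Y ⟶ X}
    (hf : IsProj f) : IsProj (i ≫ f) := by
  obtain ⟨n, j, hj⟩ := hf
  refine ⟨n, i ≫ j, ?_⟩
  rw [← prod.comp_lift]
  infer_instance

theorem spec_comp {A B C : Type} [CommRing A] [CommRing B] [CommRing C] (f : A →+* B)
    (g : B →+* C) : Spec.map (CommRingCat.ofHom g) ≫ Spec.map (CommRingCat.ofHom f) =
      Spec.map (CommRingCat.ofHom (g.comp f)) := by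
  rw [← Spec.map_comp, ← CommRingCat.ofHom_comp]

theorem ex (F k L : Type) [Field F] [Field k] [Field L] [Algebra F k] (X X' : Scheme.{0})
    (s : X ⟶ Spec (CommRingCat.of F)) (s' : X' ⟶ Spec (CommRingCat.of k)) (q : X' ⟶ X)
    (C : Curve s) (t : C.Y ⟶ Spec (CommRingCat.of L)) (ρ : F →+* L) (σ : L →+* k)
    (hq : IsPullback q s' s (Spec.map (CommRingCat.ofHom (algebraMap F k))))
    (ht : t ≫ Spec.map (CommRingCat.ofHom ρ) = C.f ≫ s) (hσ : σ.comp ρ = algebraMap F k)
    (hs : SmoothOfRelativeDimension 1 t) : ∃ C' : Curve s', CurveBC q C t σ C' := by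
  have e : Spec.map (CommRingCat.ofHom σ) ≫ Spec.map (CommRingCat.ofHom ρ) =
      Spec.map (CommRingCat.ofHom (algebraMap F k)) := by rw [spec_comp, hσ]
  have hP : IsPullback
      (pullback.fst (t ≫ Spec.map (CommRingCat.ofHom ρ))
        (Spec.map (CommRingCat.ofHom σ) ≫ Spec.map (CommRingCat.ofHom ρ)))
      (pullback.snd _ _) (C.f ≫ s) (Spec.map (CommRingCat.ofHom (algebraMap F k))) := by
    rw [← ht, ← e]
    exact IsPullback.of_hasPullback _ _
  have hP' := IsPullback.of_bot' hP hq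
  have h1 := isProj_comp (pullback.mapDesc t (Spec.map (CommRingCat.ofHom σ))
    (Spec.map (CommRingCat.ofHom ρ))) (C.proj.of_isPullback hP')
  have h2 : (pullback.mapDesc t (Spec.map (CommRingCat.ofHom σ))
      (Spec.map (CommRingCat.ofHom ρ)) ≫ hq.lift (pullback.fst _ _ ≫ C.f) (pullback.snd _ _)
        (by rw [Category.assoc, hP.w])) ≫ s' = pullback.snd _ _ := by
    simp [pullback.mapDesc, pullback.map, pullback.lift_snd]
  refine ⟨⟨pullback t (Spec.map (CommRingCat.ofHom σ)), _, ?_, h1⟩, pullback.fst _ _, ?_, ?_⟩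
  · rw [h2]
    exact MorphismProperty.of_isPullback (P := @SmoothOfRelativeDimension 1)
      (self := smoothOfRelativeDimension_isStableUnderBaseChange 1)
      (IsPullback.of_hasPullback _ _) hs
  · dsimp only
    rw [h2]
    exact IsPullback.of_hasPullback _ _
  · simp [pullback.mapDesc, pullback.map, pullback.lift_fst_assoc]

/-- The ring map out of `k × k` given by an idempotent. -/
def idemHom {k R : Type} [CommRing k] [CommRing R] (g : k →+* R) (ε : R) (hε : ε * ε = ε) :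
    k × k →+* R where
  toFun z := g z.1 * ε + g z.2 * (1 - ε)
  map_one' := by simp
  map_mul' z w := by
    simp only [Prod.fst_mul, Prod.snd_mul, map_mul]
    linear_combination (-(g z.1 * g w.1) + g z.1 * g w.2 + g z.2 * g w.1 - g z.2 * g w.2) * hε
  map_zero' := by simp
  map_add' z w := by
    simp only [Prod.fst_add, Prod.snd_add, map_add]
    ring

theorem isPushout_quad {k L L' : Type} [Field k] [Field L] [Field L'] (ρ : L →+* L')
    (σ : L →+* k) (τ₁ τ₂ : L' →+* k) (r : L') (hg : ∀ z, ∃ x y, z = ρ x + ρ y * r)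
    (h₁ : τ₁.comp ρ = σ) (h₂ : τ₂.comp ρ = σ) (hne : τ₁ r ≠ τ₂ r) :
    IsPushout (CommRingCat.ofHom ρ) (CommRingCat.ofHom σ) (CommRingCat.ofHom (τ₁.prod τ₂))
      (CommRingCat.ofHom ((RingHom.id k).prod (RingHom.id k))) := by
  have e₁ : ∀ x, τ₁ (ρ x) = σ x := fun x => by rw [← h₁]; rfl
  have e₂ : ∀ x, τ₂ (ρ x) = σ x := fun x => by rw [← h₂]; rfl
  have hd : τ₁ r - τ₂ r ≠ 0 := sub_ne_zero.mpr hne
  obtain ⟨x₀, y₀, hr⟩ := hg (r * r)
  have q₁ : τ₁ r * τ₁ r = σ x₀ + σ y₀ * τ₁ r := by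
    simpa only [map_mul, map_add, e₁] using congrArg τ₁ hr
  have q₂ : τ₂ r * τ₂ r = σ x₀ + σ y₀ * τ₂ r := by
    simpa only [map_mul, map_add, e₂] using congrArg τ₂ hr
  have hs : τ₁ r + τ₂ r = σ y₀ := mul_left_cancel₀ hd (by linear_combination q₁ - q₂)
  have hp : τ₁ r * τ₂ r = -σ x₀ := by linear_combination τ₁ r * hs - q₁
  have hc : ∀ (c : PushoutCocone (CommRingCat.ofHom ρ) (CommRingCat.ofHom σ)) (x : L),
      c.inl.hom (ρ x) = c.inr.hom (σ x) := fun c x =>
    congrArg (fun φ : CommRingCat.of L ⟶ c.pt => φ.hom x) c.condition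
  have hi : ∀ c : PushoutCocone (CommRingCat.ofHom ρ) (CommRingCat.ofHom σ),
      (c.inr.hom (τ₁ r) - c.inr.hom (τ₂ r)) * c.inr.hom (τ₁ r - τ₂ r)⁻¹ = 1 := fun c => by
    rw [← map_sub, ← map_mul, mul_inv_cancel₀ hd, map_one]
  have hε : ∀ c : PushoutCocone (CommRingCat.ofHom ρ) (CommRingCat.ofHom σ),
      (c.inl.hom r - c.inr.hom (τ₂ r)) * c.inr.hom (τ₁ r - τ₂ r)⁻¹ *
        ((c.inl.hom r - c.inr.hom (τ₂ r)) * c.inr.hom (τ₁ r - τ₂ r)⁻¹) =
        (c.inl.hom r - c.inr.hom (τ₂ r)) * c.inr.hom (τ₁ r - τ₂ r)⁻¹ := fun c => by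
    have a₁ := congrArg c.inl.hom hr
    have a₂ := congrArg c.inr.hom hs
    have a₃ := congrArg c.inr.hom hp
    simp only [map_mul, map_add, map_neg, hc] at a₁ a₂ a₃
    linear_combination (c.inr.hom (τ₁ r - τ₂ r)⁻¹) ^ 2 * (a₁ - c.inl.hom r * a₂ + a₃) +
      (c.inl.hom r - c.inr.hom (τ₂ r)) * c.inr.hom (τ₁ r - τ₂ r)⁻¹ * hi c
  refine ⟨⟨?_⟩, ⟨PushoutCocone.IsColimit.mk _
    (fun c => CommRingCat.ofHom (idemHom c.inr.hom _ (hε c))) (fun c => ?_) (fun c => ?_)
    (fun c m m₁ m₂ => ?_)⟩⟩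
  · ext x <;> simp [e₁, e₂]
  · ext z
    obtain ⟨x, y, rfl⟩ := hg z
    change c.inr.hom (τ₁ _) * _ + c.inr.hom (τ₂ _) * _ = c.inl.hom _
    simp only [map_mul, map_add, e₁, e₂, hc]
    linear_combination c.inr.hom (σ y) * (c.inl.hom r - c.inr.hom (τ₂ r)) * hi c
  · ext z
    change c.inr.hom z * _ + c.inr.hom z * _ = c.inr.hom z
    ring
  · have n₁ : m.hom (τ₁ r, τ₂ r) = c.inl.hom r :=
      congrArg (fun φ : CommRingCat.of L' ⟶ c.pt => φ.hom r) m₁
    have n₂ : ∀ a : k, m.hom (a, a) = c.inr.hom a := fun a =>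
      congrArg (fun φ : CommRingCat.of k ⟶ c.pt => φ.hom a) m₂
    have n₃ : m.hom (1, 0) = (c.inl.hom r - c.inr.hom (τ₂ r)) * c.inr.hom (τ₁ r - τ₂ r)⁻¹ := by
      rw [← n₁, ← n₂, ← n₂, ← map_sub, ← map_mul]
      congr 1
      ext
      · simp [mul_inv_cancel₀ hd]
      · simp
    refine CommRingCat.hom_ext (RingHom.ext fun z => ?_)
    change m.hom z = c.inr.hom z.1 * _ + c.inr.hom z.2 * _
    rw [← n₃, ← n₂, ← n₂, ← map_one m.hom, ← map_sub, ← map_mul, ← map_mul, ← map_add]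
    congr 1
    ext <;> simp

theorem isColimit_spec (k : Type) [CommRing k] :
    Nonempty (IsColimit (BinaryCofan.mk (Spec.map (CommRingCat.ofHom (RingHom.fst k k)))
      (Spec.map (CommRingCat.ofHom (RingHom.snd k k))))) := by
  let e := asIso (coprodSpec k k)
  refine ⟨IsColimit.ofIsoColimit (coprodIsCoprod (Spec (CommRingCat.of k)) (Spec (CommRingCat.of k)))
    (Cocone.ext e ?_)⟩
  rintro ⟨⟨⟩⟩
  · exact coprodSpec_inl k k
  · exact coprodSpec_inr k k

theorem split (F k L L' : Type) [Field F] [Field k] [Field L] [Field L'] [Algebra F k]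
    (X X' : Scheme.{0}) (s : X ⟶ Spec (CommRingCat.of F)) (s' : X' ⟶ Spec (CommRingCat.of k))
    (q : X' ⟶ X) (C : Curve s) (t : C.Y ⟶ Spec (CommRingCat.of L')) (ρ : L →+* L') (σ : L →+* k)
    (τ₁ τ₂ : L' →+* k) (r : L') (C₀ C₁ C₂ : Curve s')
    (hq : IsPullback q s' s (Spec.map (CommRingCat.ofHom (algebraMap F k))))
    (hg : ∀ z, ∃ x y, z = ρ x + ρ y * r) (h₁ : τ₁.comp ρ = σ) (h₂ : τ₂.comp ρ = σ)
    (hne : τ₁ r ≠ τ₂ r) (H₀ : CurveBC q C (t ≫ Spec.map (CommRingCat.ofHom ρ)) σ C₀)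
    (H₁ : CurveBC q C t τ₁ C₁) (H₂ : CurveBC q C t τ₂ C₂) : cls C₀ = cls C₁ + cls C₂ := by
  obtain ⟨p₀, hp₀, e₀⟩ := H₀
  obtain ⟨p₁, hp₁, e₁⟩ := H₁
  obtain ⟨p₂, hp₂, e₂⟩ := H₂
  have hR := isPullback_SpecMap_of_isPushout _ _ _ _ (isPushout_quad ρ σ τ₁ τ₂ r hg h₁ h₂ hne)
  have hm := IsPullback.of_bot' hp₀ hR
  set m := hR.lift (p₀ ≫ t) (C₀.f ≫ s') (by rw [Category.assoc, hp₀.w]) with hmdef
  have hms : m ≫ Spec.map (CommRingCat.ofHom ((RingHom.id k).prod (RingHom.id k))) =
      C₀.f ≫ s' := hR.lift_snd _ _ _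
  have key : ∀ (τ : L' →+* k) (π : k × k →+* k) (D : Curve s') (p : D.Y ⟶ C.Y),
      π.comp (τ₁.prod τ₂) = τ → π.comp ((RingHom.id k).prod (RingHom.id k)) = RingHom.id k →
      IsPullback p (D.f ≫ s') t (Spec.map (CommRingCat.ofHom τ)) → D.f ≫ q = p ≫ C.f →
      ∃ a : D.Y ⟶ C₀.Y, a ≫ C₀.f = D.f ∧
        IsPullback a (D.f ≫ s') m (Spec.map (CommRingCat.ofHom π)) := by
    intro τ π D p hτ hπ hp e
    have b₁ : Spec.map (CommRingCat.ofHom π) ≫ Spec.map (CommRingCat.ofHom (τ₁.prod τ₂)) =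
        Spec.map (CommRingCat.ofHom τ) := by rw [spec_comp, hτ]
    have b₂ : Spec.map (CommRingCat.ofHom π) ≫
        Spec.map (CommRingCat.ofHom ((RingHom.id k).prod (RingHom.id k))) = 𝟙 _ := by
      rw [spec_comp, hπ, CommRingCat.ofHom_id, Spec.map_id]
    rw [← b₁] at hp
    have ha := IsPullback.of_right' hp hm
    refine ⟨_, ?_, ha⟩
    refine hq.hom_ext ?_ ?_
    · rw [Category.assoc, e₀, IsPullback.lift_fst_assoc, e]
    · rw [Category.assoc, ← hms, IsPullback.lift_snd_assoc, Category.assoc, b₂, Category.comp_id]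
  obtain ⟨a₁, f₁, g₁⟩ := key τ₁ (RingHom.fst k k) C₁ p₁ rfl rfl hp₁ e₁
  obtain ⟨a₂, f₂, g₂⟩ := key τ₂ (RingHom.snd k k) C₂ p₂ rfl rfl hp₂ e₂
  obtain ⟨hc⟩ := isColimit_spec k
  have hU : IsUnion C₀ C₁ C₂ := ⟨a₁, a₂, f₁, f₂,
    ((BinaryCofan.isVanKampen_iff _).mp (FinitaryExtensive.vanKampen _ hc) (BinaryCofan.mk a₁ a₂)
      (C₁.f ≫ s') (C₂.f ≫ s') m g₁.w.symm g₂.w.symm).mpr ⟨g₁, g₂⟩⟩
  have hz : (QuotientAddGroup.mk (FreeAbelianGroup.of C₀ - FreeAbelianGroup.of C₁ -
      FreeAbelianGroup.of C₂) : Omega1 s') = 0 :=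
    (QuotientAddGroup.eq_zero_iff _).mpr
      (AddSubgroup.subset_closure (Or.inl ⟨C₀, C₁, C₂, hU, rfl⟩))
  rw [QuotientAddGroup.mk_sub, QuotientAddGroup.mk_sub, sub_sub, sub_eq_zero] at hz
  exact hz

theorem isDominant_spec {A T : Type} [CommRing A] [CommRing T] (φ : A →+* T)
    (h : Function.Injective φ) : IsDominant (Spec.map (CommRingCat.ofHom φ)) := by
  refine ⟨(PrimeSpectrum.denseRange_comap_iff_ker_le_nilRadical φ).mpr ?_⟩
  rw [(RingHom.injective_iff_ker_eq_bot φ).mp h]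
  exact bot_le

theorem isPreimmersion_spec {A T : Type} [CommRing A] [Field T] (φ : A →+* T)
    (h : Function.Injective φ) (hs : ∀ z, ∃ x y, z = φ x / φ y) :
    IsPreimmersion (Spec.map (CommRingCat.ofHom φ)) := by
  let := φ.toAlgebra
  have : FaithfulSMul A T := (faithfulSMul_iff_algebraMap_injective A T).mpr h
  have : IsFractionRing A T := IsFractionRing.of_field A T hs
  exact IsPreimmersion.of_isLocalization (R := A) (S := T) (nonZeroDivisors A)

open TensorProduct in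
theorem gen (k L T κ : Type) [Field k] [Field L] [Field T] [Algebra L k] [Algebra k T]
    [Algebra L T] [IsScalarTower L k T] (B : κ → Type) [∀ j, CommRing (B j)]
    [∀ j, Algebra L (B j)] (Y Y' : Scheme.{0}) (t : Y ⟶ Spec (CommRingCat.of L))
    (t' : Y' ⟶ Spec (CommRingCat.of k)) (p : Y' ⟶ Y)
    (ch : ∀ j, Spec (CommRingCat.of (B j)) ⟶ Y) (β : ∀ j, B j →ₐ[L] T)
    (γ : Spec (CommRingCat.of T) ⟶ Y) (j₀ : κ)
    (hp : IsPullback p t' t (Spec.map (CommRingCat.ofHom (algebraMap L k))))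
    (ho : ∀ j, IsOpenImmersion (ch j)) (hc : ∀ x, ∃ j z, ch j z = x)
    (ht : ∀ j, ch j ≫ t = Spec.map (CommRingCat.ofHom (algebraMap L (B j))))
    (hγ : ∀ j, Spec.map (CommRingCat.ofHom (β j).toRingHom) ≫ ch j = γ)
    (hi : ∀ j, Function.Injective (Algebra.TensorProduct.lift (Algebra.ofId k T) (β j)
      fun _ _ => Commute.all _ _))
    (ha : IntermediateField.adjoin k (Set.range (β j₀)) = ⊤) :
    IsIntegral Y' ∧ ∃ j : Spec (CommRingCat.of T) ⟶ Y', IsGen j ∧ j ≫ p = γ ∧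
      j ≫ t' = Spec.map (CommRingCat.ofHom (algebraMap k T)) := by
  let φ : ∀ j, k ⊗[L] B j →ₐ[k] T := fun j =>
    Algebra.TensorProduct.lift (Algebra.ofId k T) (β j) fun _ _ => Commute.all _ _
  have hch : ∀ j, ∃ c : Spec (CommRingCat.of (k ⊗[L] B j)) ⟶ Y',
      IsPullback c (Spec.map (CommRingCat.ofHom (S := k ⊗[L] B j)
        Algebra.TensorProduct.includeRight.toRingHom)) p (ch j) ∧
      c ≫ t' = Spec.map (CommRingCat.ofHom (S := k ⊗[L] B j)
        Algebra.TensorProduct.includeLeftRingHom) := by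
    intro j
    have h1 := isPullback_SpecMap_of_isPushout _ _ _ _
      (CommRingCat.isPushout_tensorProduct L k (B j))
    rw [← ht j] at h1
    exact ⟨_, IsPullback.of_right' h1 hp.flip, IsPullback.lift_fst _ _ _ _⟩
  choose c hc₁ hc₂ using hch
  have oc : ∀ j, IsOpenImmersion (c j) := fun j =>
    MorphismProperty.of_isPullback (P := @IsOpenImmersion) (hc₁ j).flip (ho j)
  have cov : ∀ x, ∃ j z, c j z = x := fun x => by
    obtain ⟨j, z, hz⟩ := hc (p x)
    obtain ⟨w, hw, -⟩ := Scheme.exists_preimage_of_isPullback (hc₁ j) x z hz.symm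
    exact ⟨j, w, hw⟩
  have e₁ : ∀ j, (Spec.map (CommRingCat.ofHom (φ j).toRingHom) ≫ c j) ≫ p = γ := fun j => by
    rw [Category.assoc, (hc₁ j).w, ← Category.assoc, spec_comp, ← hγ j]
    congr 3
    ext x
    simp [φ]
  have e₂ : ∀ j, (Spec.map (CommRingCat.ofHom (φ j).toRingHom) ≫ c j) ≫ t' =
      Spec.map (CommRingCat.ofHom (algebraMap k T)) := fun j => by
    rw [Category.assoc, hc₂ j, spec_comp]
    congr 2
    ext x
    simp [φ]
  have e₃ : ∀ j, Spec.map (CommRingCat.ofHom (φ j).toRingHom) ≫ c j =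
      Spec.map (CommRingCat.ofHom (φ j₀).toRingHom) ≫ c j₀ := fun j =>
    hp.hom_ext (by rw [e₁, e₁]) (by rw [e₂, e₂])
  have dom : IsDominant (Spec.map (CommRingCat.ofHom (φ j₀).toRingHom) ≫ c j₀) := by
    refine ⟨fun x => ?_⟩
    obtain ⟨j, z, rfl⟩ := cov x
    rw [← e₃ j, Scheme.Hom.comp_base, TopCat.coe_comp, Set.range_comp]
    exact image_closure_subset_closure_image (c j).continuous
      ⟨z, (isDominant_spec _ (hi j)).denseRange z, rfl⟩
  have red : IsReduced Y' := by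
    have : ∀ j, IsReduced ((Scheme.Cover.mkOfCovers (P := @IsOpenImmersion) κ _ c cov oc).X j) :=
      fun j => by
        have : IsDomain (k ⊗[L] B j) := Function.Injective.isDomain (φ j).toRingHom (hi j)
        exact (inferInstance : IsReduced (Spec (CommRingCat.of (k ⊗[L] B j))))
    exact IsReduced.of_openCover Y' (Scheme.Cover.mkOfCovers (P := @IsOpenImmersion) κ _ c cov oc)
  have irr : IrreducibleSpace Y' := by
    have h1 := (IrreducibleSpace.isIrreducible_univ (Spec (CommRingCat.of T))).image _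
      (Spec.map (CommRingCat.ofHom (φ j₀).toRingHom) ≫ c j₀).continuous.continuousOn
    have h2 := h1.closure
    rw [Set.image_univ, dom.denseRange.closure_range] at h2
    exact (irreducibleSpace_def Y').mpr h2
  refine ⟨isIntegral_of_irreducibleSpace_of_isReduced Y', _, ⟨dom, ?_⟩, e₁ j₀, e₂ j₀⟩
  have := oc j₀
  have := isPreimmersion_spec (φ j₀).toRingHom (hi j₀) fun z => by
    have hz : z ∈ IntermediateField.adjoin k (Set.range (β j₀)) := ha ▸ IntermediateField.mem_top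
    have hle : Algebra.adjoin k (Set.range (β j₀)) ≤ (φ j₀).range := by
      rw [Algebra.adjoin_le_iff]
      rintro _ ⟨b, rfl⟩
      exact ⟨1 ⊗ₜ b, by simp [φ]⟩
    obtain ⟨x, hx, y, hy, rfl⟩ := IntermediateField.mem_adjoin_iff_div.mp hz
    obtain ⟨x, rfl⟩ := hle hx
    obtain ⟨y, rfl⟩ := hle hy
    exact ⟨x, y, rfl⟩
  infer_instance

end Bc

theorem bcAPI : BcAPI where
  ex := Bc.ex
  split := fun F k L L' _ _ _ _ _ X X' s s' q C t ρ σ τ₁ τ₂ r C₀ C₁ C₂ hq hg _ =>
    Bc.split F k L L' X X' s s' q C t ρ σ τ₁ τ₂ r C₀ C₁ C₂ hq hg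
  gen := Bc.gen

end Pool.Agent.MP_d45d16_ag.Yag

end MrgPart0

-- ======== part 1: formerly Pool.Agent.MP_d45d16_ag.yag.Prm
section MrgPart1

/-!
The bihomogeneous prime of a field-valued point.
-/

set_option autoImplicit false

open MvPolynomial

namespace Pool.Agent.MP_d45d16_ag.Yag

namespace Prm

/-- Induction on weighted homogeneous polynomials, with varying degree. -/
theorem hom_ind {σ R M : Type} [CommRing R] [AddCommMonoid M] (w : σ → M)
    (Q : MvPolynomial σ R → M → Prop) (h0 : ∀ m, Q 0 m)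
    (hadd : ∀ f g m, Q f m → Q g m → Q (f + g) m) (hC : ∀ r, Q (C r) 0)
    (hX : ∀ f m v, Q f m → Q (f * X v) (m + w v)) (f : MvPolynomial σ R) (m : M)
    (hf : IsWeightedHomogeneous w f m) : Q f m := by
  have key : ∀ (s : σ →₀ ℕ) (r : R), Q (monomial s r) (Finsupp.weight w s) := by
    intro s r
    induction s using Finsupp.induction₂ with
    | zero => simpa using hC r
    | add_single v e s _ _ ih =>
      rw [monomial_add_single, map_add, Finsupp.weight_single]
      clear * - ih hX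
      induction e with
      | zero => simpa using ih
      | succ e ihe =>
        rw [pow_succ, ← mul_assoc, succ_nsmul, ← add_assoc]
        exact hX _ _ _ ihe
  induction hf using IsWeightedHomogeneous.induction_on with
  | zero => exact h0 m
  | add p q _ _ hp hq => exact hadd _ _ _ hp hq
  | monomial d r hr => exact hr ▸ key d r

section Ker

variable {ι F E : Type} [Field F] [Field E] (c : F →+* E) (a b : ι → E)

/-- The map whose kernel is `prm`. -/
noncomputable def Ph : Pxy ι F →+* MvPolynomial (Fin 2) E :=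
  eval₂Hom (C.comp c) (Sum.elim (fun i => C (a i) * X 0) fun j => C (b j) * X 1)

/-- The exponent attached to a bidegree. -/
noncomputable def ex (m : ℕ × ℕ) : Fin 2 →₀ ℕ := Finsupp.single 0 m.1 + Finsupp.single 1 m.2

theorem ex_inj {m m' : ℕ × ℕ} (h : ex m = ex m') : m = m' := by
  have h0 := DFunLike.congr_fun h 0
  have h1 := DFunLike.congr_fun h 1
  simp [ex] at h0 h1
  exact Prod.ext h0 h1

theorem ph_hom (f : Pxy ι F) (m : ℕ × ℕ) (hf : IsWeightedHomogeneous (bw ι) f m) :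
    Ph c a b f = monomial (ex m) (eval₂ c (Sum.elim a b) f) := by
  refine hom_ind (bw ι) (fun f m => Ph c a b f = monomial (ex m) (eval₂ c (Sum.elim a b) f))
    (fun m => by simp) (fun f g m h1 h2 => by rw [map_add, h1, h2, eval₂_add, map_add])
    (fun r => by simp [Ph, ex]) (fun f m v h => ?_) f m hf
  rw [map_mul, h, eval₂_mul, eval₂_X]
  rcases v with i | j
  · have : Ph c a b (X (Sum.inl i)) = monomial (Finsupp.single 0 1) (a i) := by
      simp [Ph, C_mul_X_eq_monomial]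
    rw [this, monomial_mul]
    congr 2
    ext k
    fin_cases k <;> simp [ex, bw]
  · have : Ph c a b (X (Sum.inr j)) = monomial (Finsupp.single 1 1) (b j) := by
      simp [Ph, C_mul_X_eq_monomial]
    rw [this, monomial_mul]
    congr 2
    ext k
    fin_cases k <;> simp [ex, bw]

theorem mem (f : Pxy ι F) (m : ℕ × ℕ) (hf : IsWeightedHomogeneous (bw ι) f m) :
    f ∈ prm c a b ↔ eval₂ c (Sum.elim a b) f = 0 := by
  change Ph c a b f = 0 ↔ _
  rw [ph_hom c a b f m hf, monomial_eq_zero]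

theorem coeff_ph (f : Pxy ι F) (m : ℕ × ℕ) :
    coeff (ex m) (Ph c a b f) =
      eval₂ c (Sum.elim a b) (weightedHomogeneousComponent (bw ι) m f) := by
  classical
  induction f using MvPolynomial.induction_on' with
  | monomial s r =>
    have h := isWeightedHomogeneous_monomial (bw ι) s r rfl
    rw [ph_hom c a b _ _ h, coeff_monomial, weightedHomogeneousComponent_of_mem h]
    by_cases hm : m = Finsupp.weight (bw ι) s
    · rw [if_pos hm, if_pos (by rw [hm])]
    · rw [if_neg hm, if_neg fun h' => hm (ex_inj h').symm, eval₂_zero]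
  | add p q hp hq => rw [map_add, coeff_add, hp, hq, map_add, eval₂_add]

theorem hom : IsHom (bw ι) (prm c a b) := by
  intro f hf m
  rw [mem c a b _ m (weightedHomogeneousComponent_isWeightedHomogeneous m f), ← coeff_ph]
  have : Ph c a b f = 0 := hf
  rw [this, coeff_zero]

end Ker

theorem finrank_map_eq {F V A B : Type} [Field F] [AddCommGroup V] [AddCommGroup A]
    [AddCommGroup B] [Module F V] [Module F A] [Module F B] (W : Submodule F V) (f : V →ₗ[F] A)
    (g : V →ₗ[F] B) (h : ∀ x ∈ W, f x = 0 ↔ g x = 0) :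
    Module.finrank F (W.map f) = Module.finrank F (W.map g) := by
  have hk : LinearMap.ker (f.domRestrict W) = LinearMap.ker (g.domRestrict W) := by
    ext x
    simpa using h x x.2
  rw [← LinearMap.range_domRestrict, ← LinearMap.range_domRestrict,
    ← (f.domRestrict W).quotKerEquivRange.finrank_eq,
    ← (g.domRestrict W).quotKerEquivRange.finrank_eq, hk]

section Hf

variable {ι F E : Type} [Field F] [Field E] [Algebra F E] (a b : ι → E)

theorem map_aeval (d n : ℕ) :
    (weightedHomogeneousSubmodule F (bw ι) (d, n)).map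
        (aeval (Sum.elim a b) : Pxy ι F →ₐ[F] E).toLinearMap =
      Submodule.span F (Set.range a) ^ d * Submodule.span F (Set.range b) ^ n := by
  set ev : Pxy ι F →ₐ[F] E := aeval (Sum.elim a b) with hev
  apply le_antisymm
  · rintro _ ⟨f, hf, rfl⟩
    refine hom_ind (bw ι) (fun f m => ev f ∈
      Submodule.span F (Set.range a) ^ m.1 * Submodule.span F (Set.range b) ^ m.2)
      (fun m => by simp) (fun f g m h1 h2 => by rw [map_add]; exact add_mem h1 h2)
      (fun r => ?_) (fun f m v h => ?_) f (d, n) hf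
    · simp only [Prod.fst_zero, Prod.snd_zero, pow_zero, mul_one]
      rw [hev, aeval_C]
      exact Submodule.algebraMap_mem r
    · rw [map_mul]
      rcases v with i | j
      · have h1 : ev (X (Sum.inl i)) ∈ Submodule.span F (Set.range a) := by
          rw [hev, aeval_X]
          exact Submodule.subset_span ⟨i, rfl⟩
        have h2 := Submodule.mul_mem_mul h h1
        rw [mul_right_comm, ← pow_succ] at h2
        simpa [bw] using h2
      · have h1 : ev (X (Sum.inr j)) ∈ Submodule.span F (Set.range b) := by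
          rw [hev, aeval_X]
          exact Submodule.subset_span ⟨j, rfl⟩
        have h2 := Submodule.mul_mem_mul h h1
        rw [mul_assoc, ← pow_succ] at h2
        simpa [bw] using h2
  · let G : ℕ × ℕ → Submodule F E := fun m =>
      (weightedHomogeneousSubmodule F (bw ι) m).map ev.toLinearMap
    have hmul : ∀ m m', G m * G m' ≤ G (m + m') := fun m m' => by
      simp only [G]
      rw [← Submodule.map_mul]
      exact Submodule.map_mono (weightedHomogeneousSubmodule_mul _ _ _)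
    have hpow : ∀ (U : Submodule F E) (m : ℕ × ℕ), U ≤ G m → ∀ k, U ^ k ≤ G (k • m) := by
      intro U m hU k
      induction k with
      | zero =>
        rw [pow_zero, zero_smul, Submodule.one_le]
        exact ⟨1, isWeightedHomogeneous_one F _, map_one ev⟩
      | succ k ih =>
        rw [pow_succ, succ_nsmul]
        exact (mul_le_mul' ih hU).trans (hmul _ _)
    have ha : Submodule.span F (Set.range a) ≤ G (1, 0) := by
      rw [Submodule.span_le]
      rintro _ ⟨i, rfl⟩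
      exact ⟨X (Sum.inl i), isWeightedHomogeneous_X F (bw ι) (Sum.inl i), by simp [hev]⟩
    have hb : Submodule.span F (Set.range b) ≤ G (0, 1) := by
      rw [Submodule.span_le]
      rintro _ ⟨i, rfl⟩
      exact ⟨X (Sum.inr i), isWeightedHomogeneous_X F (bw ι) (Sum.inr i), by simp [hev]⟩
    have := (mul_le_mul' (hpow _ _ ha d) (hpow _ _ hb n)).trans (hmul _ _)
    simpa [G] using this

theorem hf_eq (d n : ℕ) :
    hf (bw ι) (prm (algebraMap F E) a b) (d, n) = Module.finrank F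
      (Submodule.span F (Set.range a) ^ d * Submodule.span F (Set.range b) ^ n :
        Submodule F E) := by
  rw [← map_aeval a b d n, hf]
  refine finrank_map_eq _ _ _ fun f hf => ?_
  have := mem (algebraMap F E) a b f (d, n) hf
  simp only [AlgHom.toLinearMap_apply, Ideal.Quotient.mkₐ_eq_mk, Ideal.Quotient.eq_zero_iff_mem]
  rw [this, aeval_def]

end Hf

section Lin

variable {F E : Type} [Field F] [Field E] [Algebra F E]

theorem pow_mono (T : Submodule F E) (h1 : (1 : E) ∈ T) {e e' : ℕ} (h : e ≤ e') :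
    T ^ e ≤ T ^ e' := by
  induction h with
  | refl => exact le_rfl
  | step _ ih =>
    refine ih.trans ?_
    rw [pow_succ]
    intro x hx
    simpa using Submodule.mul_mem_mul hx h1

theorem mem_pow (t : E) (r : E) (hr : r ∈ Algebra.adjoin F ({t} : Set E)) :
    ∃ e, r ∈ Submodule.span F ({1, t} : Set E) ^ e := by
  have h1 : (1 : E) ∈ Submodule.span F ({1, t} : Set E) := Submodule.subset_span (by simp)
  induction hr using Algebra.adjoin_induction with
  | mem x hx =>
    refine ⟨1, ?_⟩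
    rw [pow_one]
    exact Submodule.subset_span (Or.inr hx)
  | algebraMap r => exact ⟨0, by rw [pow_zero]; exact Submodule.algebraMap_mem r⟩
  | add x y _ _ hx hy =>
    obtain ⟨e, he⟩ := hx
    obtain ⟨e', he'⟩ := hy
    exact ⟨max e e', add_mem (pow_mono _ h1 (le_max_left _ _) he)
      (pow_mono _ h1 (le_max_right _ _) he')⟩
  | mul x y _ _ hx hy =>
    obtain ⟨e, he⟩ := hx
    obtain ⟨e', he'⟩ := hy
    exact ⟨e + e', by rw [pow_add]; exact Submodule.mul_mem_mul he he'⟩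

theorem pow_mul_le (t : E) (g : Finset E) (e : ℕ) :
    Submodule.span F ({1, t} : Set E) ^ e * Submodule.span F (g : Set E) ≤
      Submodule.span F (Set.range fun p : Fin (e + 1) × g => t ^ (p.1 : ℕ) * (p.2 : E)) := by
  induction e with
  | zero =>
    rw [pow_zero, one_mul, Submodule.span_le]
    intro x hx
    exact Submodule.subset_span ⟨(0, ⟨x, hx⟩), by simp⟩
  | succ e ih =>
    rw [pow_succ', mul_assoc]
    refine (mul_le_mul' le_rfl ih).trans ?_
    rw [Submodule.span_mul_span, Submodule.span_le]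
    rintro _ ⟨x, hx, _, ⟨⟨j, y⟩, rfl⟩, rfl⟩
    rcases hx with rfl | rfl
    · exact Submodule.subset_span ⟨(j.castSucc, y), by simp⟩
    · exact Submodule.subset_span ⟨(j.succ, y), by simp [pow_succ', mul_assoc]⟩

/-- Linear growth of the powers of a finite-dimensional subspace in transcendence degree at most
one. -/
theorem growth (h : Algebra.trdeg F E ≤ 1) (A : Set E) (hA : A.Finite) :
    ∃ C : ℕ, ∀ m, ∃ U : Submodule F E, Module.Finite F U ∧ Module.finrank F U ≤ C * (m + 1) ∧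
      ∃ D : E, D ≠ 0 ∧ ∀ x ∈ Submodule.span F A ^ m, D * x ∈ U := by
  classical
  obtain ⟨s, hs⟩ := exists_isTranscendenceBasis F E
  have hsub : s.Subsingleton := by
    rw [← Cardinal.mk_le_one_iff_set_subsingleton, hs.cardinalMk_eq_trdeg]
    exact h
  obtain ⟨t, ht⟩ : ∃ t : E, s ⊆ {t} := by
    rcases hsub.eq_empty_or_singleton with h0 | ⟨t, h0⟩
    · exact ⟨0, by simp [h0]⟩
    · exact ⟨t, h0.le⟩
  set R := Algebra.adjoin F (Set.range ((↑) : s → E)) with hR
  have hRt : R ≤ Algebra.adjoin F ({t} : Set E) :=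
    Algebra.adjoin_mono (by rw [Subtype.range_coe]; exact ht)
  have halg : Algebra.IsAlgebraic R E := hs.isAlgebraic
  obtain ⟨D, hD, hint⟩ := Algebra.IsAlgebraic.exists_integral_multiples R hA.toFinset
  set B : Set E := (fun z => (D : E) * z) '' A with hB
  obtain ⟨g, hg⟩ : (Algebra.adjoin R B).toSubmodule.FG := by
    refine fg_adjoin_of_finite (hA.image _) ?_
    rintro _ ⟨z, hz, rfl⟩
    exact hint z (hA.mem_toFinset.2 hz)
  set T : Submodule F E := Submodule.span F ({1, t} : Set E) with hT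
  set G : Submodule F E := Submodule.span F (g : Set E) with hG
  have h1 : (1 : E) ∈ T := Submodule.subset_span (by simp)
  have hmono : ∀ {e e' : ℕ}, e ≤ e' → T ^ e * G ≤ T ^ e' * G := fun h =>
    mul_le_mul' (pow_mono T h1 h) le_rfl
  have hmem : ∀ x ∈ Algebra.adjoin R B, ∃ e, x ∈ T ^ e * G := by
    intro x hx
    have hx' : x ∈ Submodule.span R (g : Set E) := by rw [hg]; exact hx
    clear hx
    induction hx' using Submodule.span_induction with
    | mem y hy => exact ⟨0, by rw [pow_zero, one_mul]; exact Submodule.subset_span hy⟩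
    | zero => exact ⟨0, zero_mem _⟩
    | add y z _ _ hy hz =>
      obtain ⟨e, he⟩ := hy
      obtain ⟨e', he'⟩ := hz
      exact ⟨max e e', add_mem (hmono (le_max_left _ _) he) (hmono (le_max_right _ _) he')⟩
    | smul r y _ hy =>
      obtain ⟨e, he⟩ := hy
      obtain ⟨e', he'⟩ := mem_pow t r (hRt r.2)
      refine ⟨e' + e, ?_⟩
      rw [pow_add, mul_assoc]
      exact Submodule.mul_mem_mul he' he
  obtain ⟨e₁, he₁⟩ := hmem 1 (one_mem _)
  obtain ⟨e₀, he₀⟩ : ∃ e₀, ∀ y ∈ B, ∀ z ∈ g, y * z ∈ T ^ e₀ * G := by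
    have hfin : (B ×ˢ (g : Set E)).Finite := (hA.image _).prod g.finite_toSet
    have hex : ∀ p : E × E, ∃ e, p ∈ B ×ˢ (g : Set E) → p.1 * p.2 ∈ T ^ e * G := by
      intro p
      by_cases hp : p ∈ B ×ˢ (g : Set E)
      · have hz : p.2 ∈ Algebra.adjoin R B := by
          have : p.2 ∈ Submodule.span R (g : Set E) := Submodule.subset_span hp.2
          rw [hg] at this
          exact this
        obtain ⟨e, he⟩ := hmem _ (mul_mem (Algebra.subset_adjoin hp.1) hz)
        exact ⟨e, fun _ => he⟩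
      · exact ⟨0, fun h => absurd h hp⟩
    choose e he using hex
    obtain ⟨N, hN⟩ := (hfin.image e).bddAbove
    exact ⟨N, fun y hy z hz =>
      hmono (hN ⟨(y, z), ⟨hy, hz⟩, rfl⟩) (he (y, z) ⟨hy, hz⟩)⟩
  set Y : Submodule F E := Submodule.span F B with hY
  have hYG : Y * G ≤ T ^ e₀ * G := by
    rw [hY, hG, Submodule.span_mul_span, Submodule.span_le]
    rintro _ ⟨y, hy, z, hz, rfl⟩
    exact he₀ y hy z hz
  have hpow : ∀ m, Y ^ m * G ≤ T ^ (e₀ * m) * G := by
    intro m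
    induction m with
    | zero => simp
    | succ m ih =>
      calc Y ^ (m + 1) * G = Y ^ m * (Y * G) := by rw [pow_succ, mul_assoc]
        _ ≤ Y ^ m * (T ^ e₀ * G) := mul_le_mul' le_rfl hYG
        _ = T ^ e₀ * (Y ^ m * G) := by ring
        _ ≤ T ^ e₀ * (T ^ (e₀ * m) * G) := mul_le_mul' le_rfl ih
        _ = T ^ (e₀ * (m + 1)) * G := by ring
  have hDY : Submodule.span F {(D : E)} * Submodule.span F A ≤ Y := by
    rw [Submodule.span_mul_span, hY]
    refine Submodule.span_mono ?_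
    rintro _ ⟨y, rfl, z, hz, rfl⟩
    exact ⟨z, hz, rfl⟩
  refine ⟨(e₁ + e₀ + 1) * g.card, fun m => ⟨Submodule.span F (Set.range
    fun p : Fin (e₁ + e₀ * m + 1) × g => t ^ (p.1 : ℕ) * (p.2 : E)),
    Module.Finite.span_of_finite F (Set.finite_range _), ?_, (D : E) ^ m,
    pow_ne_zero _ (by simpa using hD), fun x hx => ?_⟩⟩
  · refine (finrank_range_le_card _).trans ?_
    rw [Fintype.card_prod, Fintype.card_fin, Fintype.card_coe]
    have : e₁ + e₀ * m + 1 ≤ (e₁ + e₀ + 1) * (m + 1) := by nlinarith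
    calc (e₁ + e₀ * m + 1) * g.card ≤ (e₁ + e₀ + 1) * (m + 1) * g.card :=
          Nat.mul_le_mul_right _ this
      _ = (e₁ + e₀ + 1) * g.card * (m + 1) := by ring
  · have h2 : (D : E) ^ m * x ∈ Y ^ m := by
      refine pow_le_pow_left' hDY m ?_
      rw [mul_pow]
      exact Submodule.mul_mem_mul
        (Submodule.pow_mem_pow _ (Submodule.mem_span_singleton_self _) m) hx
    have h3 : (D : E) ^ m * x * 1 ∈ Y ^ m * (T ^ e₁ * G) := Submodule.mul_mem_mul h2 he₁
    have h4 : Y ^ m * (T ^ e₁ * G) ≤ T ^ (e₁ + e₀ * m) * G :=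
      calc Y ^ m * (T ^ e₁ * G) = T ^ e₁ * (Y ^ m * G) := by ring
        _ ≤ T ^ e₁ * (T ^ (e₀ * m) * G) := mul_le_mul' le_rfl (hpow m)
        _ = T ^ (e₁ + e₀ * m) * G := by ring
    rw [mul_one] at h3
    exact pow_mul_le t g _ (h4 h3)

theorem lin {ι : Type} [Finite ι] (a b : ι → E) (h : Algebra.trdeg F E ≤ 1) :
    Lin (bw ι) (prm (algebraMap F E) a b) := by
  obtain ⟨C, hC⟩ := growth h (Set.range a ∪ Set.range b)
    ((Set.finite_range a).union (Set.finite_range b))
  refine ⟨C, fun d n => ?_⟩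
  obtain ⟨U, hU, hle, D, hD, hmem⟩ := hC (d + n)
  rw [hf_eq]
  refine le_trans ?_ hle
  have hsub : Submodule.span F (Set.range a) ^ d * Submodule.span F (Set.range b) ^ n ≤
      Submodule.span F (Set.range a ∪ Set.range b) ^ (d + n) := by
    rw [pow_add]
    exact mul_le_mul' (pow_le_pow_left' (Submodule.span_mono Set.subset_union_left) d)
      (pow_le_pow_left' (Submodule.span_mono Set.subset_union_right) n)
  refine LinearMap.finrank_le_finrank_of_injective
    (f := (LinearMap.mulLeft F D).restrict fun x hx => hmem x (hsub hx)) ?_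
  intro x y hxy
  exact Subtype.ext (mul_left_cancel₀ hD (congrArg Subtype.val hxy))

theorem bdd {ι : Type} [Finite ι] (a b : ι → E) (h : ∀ j, IsAlgebraic F (b j)) :
    ¬ Unb (bw ι) (prm (algebraMap F E) a b) := by
  intro hU
  have hfg : (Algebra.adjoin F (Set.range b)).toSubmodule.FG := by
    refine fg_adjoin_of_finite (Set.finite_range b) ?_
    rintro _ ⟨j, rfl⟩
    exact (h j).isIntegral
  have : Module.Finite F (Algebra.adjoin F (Set.range b)).toSubmodule := Module.Finite.iff_fg.2 hfg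
  obtain ⟨n, hn⟩ := hU (Module.finrank F (Algebra.adjoin F (Set.range b)).toSubmodule)
  rw [hf_eq, pow_zero, one_mul] at hn
  refine absurd hn (not_lt.2 (Submodule.finrank_mono ?_))
  have h1 : Submodule.span F (Set.range b) ≤ (Algebra.adjoin F (Set.range b)).toSubmodule :=
    Submodule.span_le.2 Algebra.subset_adjoin
  clear hn
  induction n with
  | zero =>
    rw [pow_zero, Submodule.one_le]
    exact one_mem (Algebra.adjoin F (Set.range b))
  | succ n ih =>
    rw [pow_succ]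
    refine (mul_le_mul' ih h1).trans (Submodule.mul_le.2 fun x hx y hy => ?_)
    exact mul_mem (s := Algebra.adjoin F (Set.range b)) hx hy

end Lin

theorem hom_rename {ι σ F K : Type} [Field F] [Field K] (φ : F →+* K) (e : ι → σ)
    (w : σ → ℕ × ℕ) (u : ℕ × ℕ) (hw : ∀ i, w (e i) = u) (f : MvPolynomial ι F) (n : ℕ)
    (hf : f.IsHomogeneous n) :
    IsWeightedHomogeneous w (rename e (MvPolynomial.map φ f)) (n • u) := by
  refine hom_ind (1 : ι → ℕ)
    (fun f n => IsWeightedHomogeneous w (rename e (MvPolynomial.map φ f)) (n • u))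
    (fun m => ?_) (fun f g m h1 h2 => ?_) (fun r => ?_) (fun f m v h => ?_) f n hf
  · rw [map_zero, map_zero]
    exact isWeightedHomogeneous_zero _ _ _
  · rw [map_add, map_add]
    exact h1.add h2
  · rw [map_C, rename_C, zero_smul]
    exact isWeightedHomogeneous_C _ _
  · rw [map_mul, map_mul, map_X, rename_X, Pi.one_apply, succ_nsmul, ← hw v]
    rw [← hw v] at h
    exact h.mul (isWeightedHomogeneous_X K w (e v))

end Prm

theorem prmAPI : PrmAPI where
  prm_hom := fun _ _ _ _ _ c a b => ⟨Prm.hom c a b, RingHom.ker_isPrime _⟩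
  prm_mem := fun _ _ _ _ _ c a b f m hf => Prm.mem c a b f m hf
  prm_hf := fun _ _ _ _ _ _ _ a b d n => Prm.hf_eq a b d n
  prm_lin := fun _ _ _ _ _ _ c a b h => by
    let _ := c.toAlgebra
    exact Prm.lin a b h
  prm_bdd := fun _ _ _ _ _ _ _ a b h => Prm.bdd a b h
  prm_sat := fun ι F K E _ _ _ _ _ I₁ I₂ c a b h₁ h₂ s₁ s₂ h => by
    refine ⟨Prm.hom c a b, ?_, fun f hf => ?_, fun f hf => ?_⟩
    · let _ := c.toAlgebra
      exact Prm.lin a b h
    · obtain ⟨n, hn⟩ := h₁ f hf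
      rw [Prm.mem c a b _ _
        (Prm.hom_rename (algebraMap F K) Sum.inl (bw ι) (1, 0) (fun _ => rfl) f _ hn),
        eval₂_rename, eval₂_map]
      exact s₁ f hf
    · obtain ⟨n, hn⟩ := h₂ f hf
      rw [Prm.mem c a b _ _
        (Prm.hom_rename (algebraMap F K) Sum.inr (bw ι) (0, 1) (fun _ => rfl) f _ hn),
        eval₂_rename, eval₂_map]
      exact s₂ f hf

end Pool.Agent.MP_d45d16_ag.Yag

end MrgPart1

-- ======== part 2: formerly Pool.Agent.MP_d45d16_ag.yag.Len
section MrgPart2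

/-!
Row LEN: lengths of localised modules.
-/

set_option autoImplicit false

namespace Pool.Agent.MP_d45d16_ag.Yag

namespace Len

theorem length_eq_of_semi {A A' V W : Type} [CommRing A] [CommRing A'] [AddCommGroup V]
    [AddCommGroup W] [Module A V] [Module A' W] (ψ : A →+* A') (hψ : Function.Surjective ψ)
    (G : V →ₛₗ[ψ] W) (hG : Function.Bijective G) : Module.length A V = Module.length A' W := by
  have : RingHomSurjective ψ := ⟨hψ⟩
  apply WithBot.coe_injective
  rw [Module.coe_length, Module.coe_length,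
    Order.krullDim_eq_of_orderIso (Submodule.orderIsoMapComapOfBijective G hG)]

theorem mk_eq_zero {R M : Type} [CommRing R] [AddCommGroup M] [Module R M] (S : Submonoid R)
    (m : M) (u : S) : LocalizedModule.mk m u = 0 ↔ ∃ v : S, (v : R) • m = 0 := by
  rw [← LocalizedModule.zero_mk (1 : S), LocalizedModule.mk_eq]
  simp [Submonoid.smul_def]

theorem exact (R N M Q : Type) [CommRing R] [AddCommGroup N] [AddCommGroup M] [AddCommGroup Q]
    [Module R N] [Module R M] [Module R Q] (p : PrimeSpectrum R) (f : N →ₗ[R] M) (g : M →ₗ[R] Q)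
    (hf : Function.Injective f) (hg : Function.Surjective g) (h : Function.Exact f g) :
    lenAt p M = lenAt p N + lenAt p Q :=
  Module.length_eq_add_of_exact (LocalizedModule.map p.asIdeal.primeCompl f)
    (LocalizedModule.map p.asIdeal.primeCompl g) (LocalizedModule.map_injective _ f hf)
    (LocalizedModule.map_surjective _ g hg) (LocalizedModule.map_exact p.asIdeal.primeCompl f g h)

section Loc

variable {R R' N M : Type} [CommRing R] [CommRing R'] [AddCommGroup N] [AddCommGroup M]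
  [Module R N] [Module R' M] (φ : R →+* R') (g : N →ₛₗ[φ] M) (s : PrimeSpectrum R')
  (q : PrimeSpectrum R) (h : q.asIdeal = s.asIdeal.comap φ)

/-- The image of a denominator. -/
def den (u : q.asIdeal.primeCompl) : s.asIdeal.primeCompl :=
  ⟨φ u, fun hu => u.2 (h.ge (Ideal.mem_comap.mpr hu))⟩

theorem den_mul (u v : q.asIdeal.primeCompl) :
    den φ s q h (u * v) = den φ s q h u * den φ s q h v :=
  Subtype.ext (by simp [den])

/-- The map on localised modules. -/
noncomputable def lf (x : LocalizedModule q.asIdeal.primeCompl N) :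
    LocalizedModule s.asIdeal.primeCompl M :=
  x.liftOn (fun y => LocalizedModule.mk (g y.1) (den φ s q h y.2)) (by
    rintro ⟨n, u⟩ ⟨n', u'⟩ ⟨v, hv⟩
    refine LocalizedModule.mk_eq.mpr ⟨den φ s q h v, ?_⟩
    have := congrArg g hv
    simpa [Submonoid.smul_def, den, map_smulₛₗ] using this)

theorem lf_mk (n : N) (u : q.asIdeal.primeCompl) :
    lf φ g s q h (LocalizedModule.mk n u) = LocalizedModule.mk (g n) (den φ s q h u) :=
  LocalizedModule.liftOn_mk _ _ _

theorem lr_mk (r : R) (u : q.asIdeal.primeCompl) :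
    Localization.localRingHom q.asIdeal s.asIdeal φ h (Localization.mk r u) =
      Localization.mk (φ r) (den φ s q h u) := by
  rw [Localization.mk_eq_mk', Localization.mk_eq_mk', Localization.localRingHom_mk']
  rfl

/-- The semilinear map on localised modules. -/
noncomputable def lm : LocalizedModule q.asIdeal.primeCompl N →ₛₗ[
    Localization.localRingHom q.asIdeal s.asIdeal φ h] LocalizedModule s.asIdeal.primeCompl M where
  toFun := lf φ g s q h
  map_add' := by
    intro x y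
    induction x using LocalizedModule.induction_on with | h n u =>
    induction y using LocalizedModule.induction_on with | h n' u' =>
    rw [LocalizedModule.mk_add_mk, lf_mk, lf_mk, lf_mk, LocalizedModule.mk_add_mk, den_mul]
    simp [Submonoid.smul_def, den, map_smulₛₗ]
  map_smul' := by
    intro c x
    induction x using LocalizedModule.induction_on with | h n u =>
    induction c using Localization.induction_on with | H y =>
    rw [LocalizedModule.mk_smul_mk, lf_mk, lf_mk, lr_mk, LocalizedModule.mk_smul_mk, den_mul,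
      map_smulₛₗ]

theorem lm_mk (n : N) (u : q.asIdeal.primeCompl) :
    lm φ g s q h (LocalizedModule.mk n u) = LocalizedModule.mk (g n) (den φ s q h u) :=
  lf_mk φ g s q h n u

include h in
theorem loc (h1 : ∀ x : R', ∃ u r : R, u ∉ q.asIdeal ∧ φ u * x = φ r)
    (h2 : ∀ m : M, ∃ (u : R) (n : N), u ∉ q.asIdeal ∧ φ u • m = g n)
    (h3 : ∀ n : N, g n = 0 → ∃ u : R, u ∉ q.asIdeal ∧ u • n = 0) : lenAt q N = lenAt s M := by
  have key : ∀ y : s.asIdeal.primeCompl, ∃ u r : q.asIdeal.primeCompl, φ u * y = φ r := by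
    intro y
    obtain ⟨u, r, hu, e⟩ := h1 y
    have hr : r ∉ q.asIdeal := by
      rw [h, Ideal.mem_comap, ← e]
      intro hh
      rcases s.isPrime.mem_or_mem hh with h' | h'
      · exact hu (by rw [h]; exact h')
      · exact y.2 h'
    exact ⟨⟨u, hu⟩, ⟨r, hr⟩, e⟩
  refine length_eq_of_semi (Localization.localRingHom q.asIdeal s.asIdeal φ h) ?_
    (lm φ g s q h) ⟨?_, ?_⟩
  · intro z
    induction z using Localization.induction_on with | H y =>
    obtain ⟨u, r, hu, e⟩ := h1 y.1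
    obtain ⟨u', r', e'⟩ := key y.2
    refine ⟨Localization.mk (r * u') (⟨u, hu⟩ * r'), ?_⟩
    rw [lr_mk, Localization.mk_eq_mk_iff, Localization.r_iff_exists]
    refine ⟨1, ?_⟩
    simp only [den, OneMemClass.coe_one, one_mul, Submonoid.coe_mul, map_mul]
    rw [← e, ← e']
    ring
  · rw [injective_iff_map_eq_zero]
    intro x hx
    induction x using LocalizedModule.induction_on with | h n u =>
    rw [lm_mk, mk_eq_zero] at hx
    obtain ⟨v, hv⟩ := hx
    obtain ⟨u', r', e'⟩ := key v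
    obtain ⟨w, hw, e⟩ := h3 ((r' : R) • n) (by
      rw [map_smulₛₗ, ← e', mul_smul, hv, smul_zero])
    rw [mk_eq_zero]
    exact ⟨⟨w, hw⟩ * r', by rw [Submonoid.coe_mul, mul_smul]; exact e⟩
  · intro z
    induction z using LocalizedModule.induction_on with | h m y =>
    obtain ⟨u, n, hu, e⟩ := h2 m
    obtain ⟨u', r', e'⟩ := key y
    refine ⟨LocalizedModule.mk ((u' : R) • n) (⟨u, hu⟩ * r'), ?_⟩
    rw [lm_mk, LocalizedModule.mk_eq]
    refine ⟨1, ?_⟩
    simp only [den, Submonoid.smul_def, one_smul, Submonoid.coe_mul, map_mul,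
      map_smulₛₗ]
    rw [← e, ← e', smul_smul, smul_smul]
    congr 1
    ring

end Loc

theorem zero (R M : Type) [CommRing R] [AddCommGroup M] [Module R M] (p : PrimeSpectrum R) :
    lenAt p M = 0 ↔ ∀ m : M, ∃ u ∉ p.asIdeal, u • m = 0 := by
  unfold lenAt
  rw [Module.length_eq_zero_iff]
  constructor
  · intro h m
    obtain ⟨v, hv⟩ := (mk_eq_zero p.asIdeal.primeCompl m 1).mp (Subsingleton.elim _ _)
    exact ⟨v, v.2, hv⟩
  · intro h
    refine subsingleton_of_forall_eq 0 fun x => ?_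
    induction x using LocalizedModule.induction_on with | h m u =>
    obtain ⟨v, hv, e⟩ := h m
    exact (mk_eq_zero _ m u).mpr ⟨⟨v, hv⟩, e⟩

/-- Over a field the localised length is the length. -/
theorem field (F V : Type) [Field F] [AddCommGroup V] [Module F V] (s : PrimeSpectrum F) :
    lenAt s V = Module.length F V := by
  have hne : ∀ u : s.asIdeal.primeCompl, (u : F) ≠ 0 := fun u hu =>
    u.2 (by rw [SetLike.mem_coe, hu]; exact s.asIdeal.zero_mem)
  symm
  refine length_eq_of_semi (algebraMap F (Localization.AtPrime s.asIdeal)) ?_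
    { toFun := fun v => LocalizedModule.mk v 1
      map_add' := fun x y => by simp
      map_smul' := fun c x => by
        rw [← Localization.mk_one_eq_algebraMap, LocalizedModule.mk_smul_mk, mul_one] } ⟨?_, ?_⟩
  · intro z
    induction z using Localization.induction_on with | H y =>
    refine ⟨y.1 / y.2, ?_⟩
    rw [← Localization.mk_one_eq_algebraMap, Localization.mk_eq_mk_iff, Localization.r_iff_exists]
    refine ⟨1, ?_⟩
    have := hne y.2
    simp only [OneMemClass.coe_one, one_mul]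
    field_simp
  · rw [injective_iff_map_eq_zero]
    intro x hx
    obtain ⟨v, hv⟩ := (mk_eq_zero s.asIdeal.primeCompl x 1).mp hx
    exact (smul_eq_zero.mp hv).resolve_left (hne v)
  · intro z
    induction z using LocalizedModule.induction_on with | h m y =>
    refine ⟨(y : F)⁻¹ • m, ?_⟩
    change LocalizedModule.mk _ _ = _
    rw [LocalizedModule.mk_eq]
    refine ⟨1, ?_⟩
    simp [Submonoid.smul_def, smul_smul, hne y]

theorem deg (R T E : Type) [CommRing R] [CommRing T] [Field E] [Algebra R T] [Module.Finite R T]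
    (ev : T →+* E) (q : PrimeSpectrum R)
    (hq : q.asIdeal = RingHom.ker (ev.comp (algebraMap R T)))
    (hz : ∀ z : E, ∃ a b : T, ev b ≠ 0 ∧ z * ev b = ev a) :
    lenAt q (T ⧸ RingHom.ker ev) = fdeg (ev.comp (algebraMap R T)) := by
  classical
  set f := ev.comp (algebraMap R T) with hf
  set E0 := Subfield.closure (Set.range f) with hE0
  let φ : R →+* E0 := f.codRestrict E0 fun r => Subfield.subset_closure ⟨r, rfl⟩
  have hφ : ∀ r, ((φ r : E0) : E) = f r := fun _ => rfl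
  have hmem : ∀ r, r ∉ q.asIdeal ↔ f r ≠ 0 := fun r => by rw [hq, RingHom.mem_ker]
  let g : (T ⧸ RingHom.ker ev) →ₛₗ[φ] E :=
    { toFun := RingHom.kerLift ev
      map_add' := map_add _
      map_smul' := fun r x => by
        obtain ⟨t, rfl⟩ := Ideal.Quotient.mk_surjective x
        change RingHom.kerLift ev (Ideal.Quotient.mk _ (r • t)) = f r * _
        rw [RingHom.kerLift_mk, RingHom.kerLift_mk, Algebra.smul_def, map_mul]
        rfl }
  have hg : ∀ t, g (Ideal.Quotient.mk _ t) = ev t := fun t => RingHom.kerLift_mk ev t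
  have h2 : ∀ m : E, ∃ (u : R) (t : T), u ∉ q.asIdeal ∧ f u * m = ev t := by
    intro m
    obtain ⟨a, b, hb, e⟩ := hz m
    have : (RingHom.ker ev).IsPrime := RingHom.ker_isPrime ev
    have hlt := Ideal.comap_lt_comap_of_integral_mem_sdiff (R := R)
      (I := RingHom.ker ev) (J := Ideal.span {b} ⊔ RingHom.ker ev) le_sup_right
      ⟨Ideal.mem_sup_left (Ideal.mem_span_singleton_self b), hb⟩ (Algebra.IsIntegral.isIntegral b)
    obtain ⟨u, hu, hu'⟩ := SetLike.exists_of_lt hlt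
    rw [Ideal.mem_comap, Ideal.mem_span_singleton_sup] at hu
    obtain ⟨c, k, hk, e'⟩ := hu
    refine ⟨u, c * a, (hmem u).mpr hu', ?_⟩
    change ev (algebraMap R T u) * m = _
    rw [← e', map_add, map_mul, map_mul, RingHom.mem_ker.mp hk, ← e]
    ring
  have hfin : Module.Finite E0 E := by
    obtain ⟨S, hS⟩ := Module.Finite.fg_top (R := R) (M := T)
    refine ⟨⟨S.image ev, top_le_iff.mp fun m _ => ?_⟩⟩
    have h1 : ∀ t : T, ev t ∈ Submodule.span E0 ((S.image ev : Finset E) : Set E) := by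
      intro t
      have ht : t ∈ Submodule.span R (S : Set T) := hS ▸ Submodule.mem_top
      induction ht using Submodule.span_induction with
      | mem x hx => exact Submodule.subset_span (by simpa using ⟨x, hx, rfl⟩)
      | zero => simp
      | add x y _ _ hx hy => rw [map_add]; exact add_mem hx hy
      | smul r x _ hx =>
        rw [Algebra.smul_def, map_mul]
        exact Submodule.smul_mem _ (φ r) hx
    obtain ⟨u, t, hu, e⟩ := h2 m
    have hu' := (hmem u).mp hu
    have : m = (φ u)⁻¹ • ev t := by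
      change m = (((φ u)⁻¹ : E0) : E) * ev t
      rw [Subfield.coe_inv, hφ, ← e]
      field_simp
    rw [this]
    exact Submodule.smul_mem _ _ (h1 t)
  rw [loc φ g ⟨⊥, Ideal.isPrime_bot⟩ q ?_ ?_ ?_ ?_, field, Module.length_eq_finrank]
  · rfl
  · ext r
    rw [hq, RingHom.mem_ker, Ideal.mem_comap, Ideal.mem_bot, ← hφ]
    exact ZeroMemClass.coe_eq_zero
  · intro x
    obtain ⟨y, hy, z, hz', e⟩ := Subfield.mem_closure_iff.mp x.2
    have hr : Subring.closure (Set.range f) = f.range := by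
      rw [← RingHom.coe_range, Subring.closure_eq]
    rw [hr] at hy hz'
    obtain ⟨r, rfl⟩ := hy
    obtain ⟨u, rfl⟩ := hz'
    by_cases hu : f u = 0
    · refine ⟨1, 0, (hmem 1).mpr (by simp), Subtype.ext ?_⟩
      simp [← e, hu]
    · refine ⟨u, r, (hmem u).mpr hu, Subtype.ext ?_⟩
      change f u * (x : E) = f r
      rw [← e]
      field_simp
  · intro m
    obtain ⟨u, t, hu, e⟩ := h2 m
    exact ⟨u, Ideal.Quotient.mk _ t, hu, by rw [hg]; exact e⟩
  · intro n hn
    refine ⟨1, (hmem 1).mpr (by simp), ?_⟩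
    rw [one_smul]
    exact RingHom.kerLift_injective ev (hn.trans (map_zero _).symm)

theorem one (R : Type) [CommRing R] (p : PrimeSpectrum R) : lenAt p (R ⧸ p.asIdeal) = 1 := by
  let K := FractionRing (R ⧸ p.asIdeal)
  let φ : R →+* K := (algebraMap (R ⧸ p.asIdeal) K).comp (Ideal.Quotient.mk p.asIdeal)
  have hinj : Function.Injective (algebraMap (R ⧸ p.asIdeal) K) := IsFractionRing.injective _ _
  let g : (R ⧸ p.asIdeal) →ₛₗ[φ] K :=
    { toFun := algebraMap (R ⧸ p.asIdeal) K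
      map_add' := map_add _
      map_smul' := fun r x => by
        obtain ⟨t, rfl⟩ := Ideal.Quotient.mk_surjective x
        change algebraMap _ K (Ideal.Quotient.mk _ (r * t)) = φ r * _
        rw [map_mul, map_mul]
        rfl }
  have h1 : ∀ x : K, ∃ u r : R, u ∉ p.asIdeal ∧ φ u * x = φ r := by
    intro x
    obtain ⟨a, b, hb, rfl⟩ := IsFractionRing.div_surjective (A := R ⧸ p.asIdeal) x
    obtain ⟨r, rfl⟩ := Ideal.Quotient.mk_surjective a
    obtain ⟨u, rfl⟩ := Ideal.Quotient.mk_surjective b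
    have hb' := nonZeroDivisors.ne_zero hb
    have hu : φ u ≠ 0 := fun h => hb' (hinj (h.trans (map_zero _).symm))
    refine ⟨u, r, fun h => hb' (Ideal.Quotient.eq_zero_iff_mem.mpr h), ?_⟩
    exact mul_div_cancel₀ (φ r) hu
  rw [loc φ g ⟨⊥, Ideal.isPrime_bot⟩ p ?_ h1 ?_ ?_, field, Module.length_eq_finrank]
  · simp
  · ext r
    rw [Ideal.mem_comap, Ideal.mem_bot, ← Ideal.Quotient.eq_zero_iff_mem]
    exact ((map_eq_zero_iff _ hinj).symm)
  · intro m
    obtain ⟨u, r, hu, e⟩ := h1 m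
    exact ⟨u, Ideal.Quotient.mk _ r, hu, e⟩
  · intro n hn
    exact ⟨1, p.asIdeal.one_notMem, by rw [one_smul]; exact hinj (hn.trans (map_zero _).symm)⟩

theorem congr {R N M : Type} [CommRing R] [AddCommGroup N] [AddCommGroup M] [Module R N]
    [Module R M] (p : PrimeSpectrum R) (e : N ≃ₗ[R] M) : lenAt p N = lenAt p M :=
  loc (RingHom.id R) e.toLinearMap p p rfl (fun x => ⟨1, x, p.asIdeal.one_notMem, by simp⟩)
    (fun m => ⟨1, e.symm m, p.asIdeal.one_notMem, by simp⟩)
    (fun n hn => ⟨1, p.asIdeal.one_notMem, by simpa using hn⟩)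

theorem fin (R M : Type) [CommRing R] [IsNoetherianRing R] [AddCommGroup M] [Module R M]
    [Module.Finite R M] (p : PrimeSpectrum R) (a : Ideal R) (ha : ∀ x ∈ a, ∀ z : M, x • z = 0)
    (hp : ∀ q : PrimeSpectrum R, a ≤ q.asIdeal → q ≤ p → q = p) : lenAt p M ≠ ⊤ := by
  revert ha
  induction ‹Module.Finite R M› using IsNoetherianRing.induction_on_isQuotientEquivQuotientPrime R
    with
  | subsingleton N =>
    intro _
    rw [(zero R N p).mpr fun m => ⟨1, p.asIdeal.one_notMem, Subsingleton.elim _ _⟩]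
    simp
  | quotient N q f =>
    intro ha
    have haq : a ≤ q.asIdeal := by
      intro x hx
      have := congrArg f (ha x hx (f.symm 1))
      rw [map_smul, LinearEquiv.apply_symm_apply, map_zero, ← Algebra.algebraMap_eq_smul_one] at this
      exact Ideal.Quotient.eq_zero_iff_mem.mp this
    rw [congr p f]
    by_cases hqp : q ≤ p
    · obtain rfl := hp q haq hqp
      rw [one]
      simp
    · obtain ⟨u, hu, hu'⟩ := SetLike.not_le_iff_exists.mp
        (show ¬ q.asIdeal ≤ p.asIdeal from hqp)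
      rw [(zero R _ p).mpr fun m => ⟨u, hu', by
        rw [Algebra.smul_def]
        change Ideal.Quotient.mk _ u * m = 0
        rw [Ideal.Quotient.eq_zero_iff_mem.mpr hu, zero_mul]⟩]
      simp
  | exact N₁ N₂ N₃ f g hf hg hfg h₁ h₃ =>
    intro ha
    rw [exact R N₁ N₂ N₃ p f g hf hg hfg]
    refine WithTop.add_ne_top.mpr ⟨h₁ fun x hx z => hf ?_, h₃ fun x hx z => ?_⟩
    · rw [map_smul, ha x hx, map_zero]
    · obtain ⟨y, rfl⟩ := hg z
      rw [← map_smul, ha x hx, map_zero]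

end Len

theorem lenAPI : LenAPI where
  exact := Len.exact
  loc := fun _ _ _ _ _ _ _ _ _ _ φ g s q h h1 h2 h3 => Len.loc φ g s q h h1 h2 h3
  zero := Len.zero
  one := Len.one
  fin := Len.fin
  deg := Len.deg

end Pool.Agent.MP_d45d16_ag.Yag

end MrgPart2

-- ======== part 3: formerly Pool.Agent.MP_d45d16_ag.yag.Place
section MrgPart3

/-!
Places of simple transcendental extensions.
-/

set_option autoImplicit false

open MvPolynomial

namespace Pool.Agent.MP_d45d16_ag.Yag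

namespace Plc

section Basic

variable {E K : Type} [Field E] [Field K] (p : Place E K)

theorem uniq {z : E} {c c' : K} (h : p.Val z c) (h' : p.Val z c') : c = c' := by
  obtain ⟨_, rfl⟩ := h
  obtain ⟨_, rfl⟩ := h'
  rfl

theorem val_coe (v : p.V) : p.Val v (p.r v) := ⟨v.2, rfl⟩

theorem val_zero : p.Val 0 0 := ⟨p.V.zero_mem, map_zero p.r⟩

theorem val_one : p.Val 1 1 := ⟨p.V.one_mem, map_one p.r⟩

variable {p}

theorem val_add {z z' : E} {c c' : K} (h : p.Val z c) (h' : p.Val z' c') :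
    p.Val (z + z') (c + c') := by
  obtain ⟨hz, rfl⟩ := h
  obtain ⟨hz', rfl⟩ := h'
  exact ⟨p.V.add_mem _ _ hz hz', map_add p.r ⟨z, hz⟩ ⟨z', hz'⟩⟩

theorem val_mul {z z' : E} {c c' : K} (h : p.Val z c) (h' : p.Val z' c') :
    p.Val (z * z') (c * c') := by
  obtain ⟨hz, rfl⟩ := h
  obtain ⟨hz', rfl⟩ := h'
  exact ⟨p.V.mul_mem _ _ hz hz', map_mul p.r ⟨z, hz⟩ ⟨z', hz'⟩⟩

theorem val_neg {z : E} {c : K} (h : p.Val z c) : p.Val (-z) (-c) := by
  obtain ⟨hz, rfl⟩ := h
  exact ⟨p.V.neg_mem _ hz, map_neg p.r ⟨z, hz⟩⟩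

theorem val_ne {z : E} {c : K} (h : p.Val z c) (hc : c ≠ 0) : z ≠ 0 := by
  rintro rfl
  exact hc (uniq p h (val_zero p))

theorem isUnit_of_ne (v : p.V) (hv : p.r v ≠ 0) : IsUnit v := by
  by_contra hu
  have hm : (RingHom.ker p.r).IsMaximal := RingHom.ker_isMaximal_of_surjective p.r p.surj
  have := IsLocalRing.eq_maximalIdeal hm
  apply hv
  rw [← RingHom.mem_ker, this]
  exact hu

theorem val_inv {z : E} {c : K} (h : p.Val z c) (hc : c ≠ 0) : p.Val z⁻¹ c⁻¹ := by
  obtain ⟨hz, rfl⟩ := h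
  obtain ⟨u, hu⟩ := (isUnit_of_ne ⟨z, hz⟩ hc).exists_right_inv
  have h1 : z * (u : E) = 1 := congrArg Subtype.val hu
  have h2 : p.r ⟨z, hz⟩ * p.r u = 1 := by rw [← map_mul, hu, map_one]
  rw [← eq_inv_of_mul_eq_one_right h1, ← eq_inv_of_mul_eq_one_right h2]
  exact val_coe p u

variable (p)

theorem total (z : E) : (∃ c, p.Val z c) ∨ p.Val z⁻¹ 0 := by
  by_cases hz : z ∈ p.V
  · exact Or.inl ⟨_, hz, rfl⟩
  · have hi : z⁻¹ ∈ p.V := (p.V.mem_or_inv_mem z).resolve_left hz
    refine Or.inr ⟨hi, ?_⟩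
    by_contra hne
    obtain ⟨h, -⟩ := val_inv (p := p) ⟨hi, rfl⟩ hne
    rw [inv_inv] at h
    exact hz h

/-- The polynomial `g` has finite coefficients and reduces to `f`. -/
def Rel {σ : Type} (g : MvPolynomial σ E) (f : MvPolynomial σ K) : Prop :=
  ∃ g₀ : MvPolynomial σ p.V, map p.V.subtype g₀ = g ∧ map p.r g₀ = f

variable {σ : Type}

theorem exists_lift (g : MvPolynomial σ E) (h : ∀ d, coeff d g ∈ p.V) :
    ∃ g₀ : MvPolynomial σ p.V, map p.V.subtype g₀ = g := by
  refine ⟨∑ d ∈ g.support, monomial d ⟨coeff d g, h d⟩, ?_⟩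
  rw [map_sum]
  conv_rhs => rw [g.as_sum]
  refine Finset.sum_congr rfl fun d _ => ?_
  rw [map_monomial]
  rfl

theorem rel_iff (g : MvPolynomial σ E) (f : MvPolynomial σ K) :
    Rel p g f ↔ ∀ d, p.Val (coeff d g) (coeff d f) := by
  constructor
  · rintro ⟨g₀, rfl, rfl⟩ d
    rw [coeff_map, coeff_map]
    exact val_coe p _
  · intro h
    obtain ⟨g₀, rfl⟩ := exists_lift p g fun d => (h d).1
    refine ⟨g₀, rfl, MvPolynomial.ext _ _ fun d => ?_⟩
    refine uniq p ?_ (h d)
    rw [coeff_map, coeff_map]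
    exact val_coe p _

theorem mem_init (J : Ideal (MvPolynomial σ E)) (f : MvPolynomial σ K) :
    f ∈ p.init J ↔ ∃ g ∈ J, Rel p g f := by
  rw [Place.init, Ideal.mem_map_iff_of_surjective _ (map_surjective _ p.surj)]
  constructor
  · rintro ⟨g₀, h, rfl⟩
    exact ⟨_, h, g₀, rfl, rfl⟩
  · rintro ⟨g, h, g₀, rfl, rfl⟩
    exact ⟨g₀, h, rfl⟩

variable {p}

theorem rel_add {g g' : MvPolynomial σ E} {f f' : MvPolynomial σ K} (h : Rel p g f)
    (h' : Rel p g' f') : Rel p (g + g') (f + f') := by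
  obtain ⟨a, rfl, rfl⟩ := h
  obtain ⟨b, rfl, rfl⟩ := h'
  exact ⟨a + b, map_add _ _ _, map_add _ _ _⟩

theorem rel_mul {g g' : MvPolynomial σ E} {f f' : MvPolynomial σ K} (h : Rel p g f)
    (h' : Rel p g' f') : Rel p (g * g') (f * f') := by
  obtain ⟨a, rfl, rfl⟩ := h
  obtain ⟨b, rfl, rfl⟩ := h'
  exact ⟨a * b, map_mul _ _ _, map_mul _ _ _⟩

theorem rel_C {z : E} {c : K} (h : p.Val z c) : Rel p (C z : MvPolynomial σ E) (C c) := by
  obtain ⟨hz, rfl⟩ := h
  exact ⟨C ⟨z, hz⟩, map_C _ _, map_C _ _⟩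

theorem rel_X (i : σ) : Rel p (X i : MvPolynomial σ E) (X i) :=
  ⟨X i, map_X _ _, map_X _ _⟩

theorem rel_zsmul_X (n : ℤ) (i : σ) : Rel p (n • X i : MvPolynomial σ E) (n • X i) :=
  ⟨n • X i, by rw [map_zsmul, map_X], by rw [map_zsmul, map_X]⟩

end Basic

section Simple

variable {E K : Type} [Field E] [Field K] [Algebra K E] {y : E}

theorem aeval_inj (h : Simple K y) : Function.Injective (Polynomial.aeval (R := K) y) :=
  transcendental_iff_injective.1 h.1

theorem y_ne (h : Simple K y) : y ≠ 0 := by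
  rintro rfl
  exact h.1 isAlgebraic_zero

theorem split (f : Polynomial K) (hf : f ≠ 0) :
    ∃ (n : ℕ) (f₀ : Polynomial K), f₀.eval 0 ≠ 0 ∧ f = Polynomial.X ^ n * f₀ := by
  obtain ⟨q, h1, h2⟩ := Polynomial.exists_eq_pow_rootMultiplicity_mul_and_not_dvd f hf 0
  refine ⟨f.rootMultiplicity 0, q, fun h => h2 (Polynomial.dvd_iff_isRoot.2 h), ?_⟩
  simpa using h1

theorem aeval_ne (h : Simple K y) {g : Polynomial K} (hg : g.eval 0 ≠ 0) :
    Polynomial.aeval y g ≠ 0 := by
  intro h0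
  have : g = 0 := aeval_inj h (by rw [h0, map_zero])
  rw [this, Polynomial.eval_zero] at hg
  exact hg rfl

/-- Every element or its inverse is a quotient whose denominator does not vanish at zero. -/
theorem dich (h : Simple K y) (z : E) :
    (∃ f g : Polynomial K, g.eval 0 ≠ 0 ∧ z * Polynomial.aeval y g = Polynomial.aeval y f) ∨
      z ≠ 0 ∧ ∃ f g : Polynomial K, g.eval 0 ≠ 0 ∧ f.eval 0 = 0 ∧
        z⁻¹ * Polynomial.aeval y g = Polynomial.aeval y f := by
  by_cases hz : z = 0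
  · exact Or.inl ⟨0, 1, by simp, by simp [hz]⟩
  have hm : z ∈ IntermediateField.adjoin K {y} := by rw [h.2]; trivial
  obtain ⟨f, g, rfl⟩ := (IntermediateField.mem_adjoin_simple_iff K z).1 hm
  have hf : f ≠ 0 := by rintro rfl; simp at hz
  have hg : g ≠ 0 := by rintro rfl; simp at hz
  obtain ⟨a, f₀, hf₀, rfl⟩ := split f hf
  obtain ⟨b, g₀, hg₀, rfl⟩ := split g hg
  have h1 := aeval_ne h hf₀
  have h2 := aeval_ne h hg₀
  have h3 := y_ne h
  rcases le_or_gt b a with hab | hab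
  · obtain ⟨k, rfl⟩ := Nat.exists_eq_add_of_le hab
    refine Or.inl ⟨Polynomial.X ^ k * f₀, g₀, hg₀, ?_⟩
    simp only [map_mul, map_pow, Polynomial.aeval_X]
    field_simp
    ring
  · obtain ⟨k, rfl⟩ := Nat.exists_eq_add_of_lt hab
    refine Or.inr ⟨hz, Polynomial.X ^ (k + 1) * g₀, f₀, hf₀, by simp, ?_⟩
    simp only [map_mul, map_pow, Polynomial.aeval_X]
    field_simp
    ring

theorem val_aeval {p : Place E K} (ho : p.Over K) (hy : p.Val y 0) (f : Polynomial K) :
    p.Val (Polynomial.aeval y f) (f.eval 0) := by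
  induction f using Polynomial.induction_on' with
  | add f g hf hg => rw [map_add, Polynomial.eval_add]; exact val_add hf hg
  | monomial n c =>
    rw [Polynomial.aeval_monomial, Polynomial.eval_monomial]
    refine val_mul (ho c) ?_
    induction n with
    | zero => rw [pow_zero, pow_zero]; exact val_one p
    | succ n ih => rw [pow_succ, pow_succ]; exact val_mul ih hy

theorem val_of_form {p : Place E K} (ho : p.Over K) (hy : p.Val y 0) {z : E} {c : K}
    {f g : Polynomial K} (hg : g.eval 0 ≠ 0)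
    (h1 : z * Polynomial.aeval y g = Polynomial.aeval y f) (h2 : c * g.eval 0 = f.eval 0) :
    p.Val z c := by
  have hv := val_aeval ho hy g
  rw [(eq_mul_inv_iff_mul_eq₀ (val_ne hv hg)).2 h1, (eq_mul_inv_iff_mul_eq₀ hg).2 h2]
  exact val_mul (val_aeval ho hy f) (val_inv hv hg)

theorem form {p : Place E K} (h : Simple K y) (ho : p.Over K) (hy : p.Val y 0) (z : E) (c : K) :
    p.Val z c ↔ ∃ f g : Polynomial K, g.eval 0 ≠ 0 ∧
      z * Polynomial.aeval y g = Polynomial.aeval y f ∧ c * g.eval 0 = f.eval 0 := by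
  constructor
  · intro hz
    rcases dich h z with ⟨f, g, hg, h1⟩ | ⟨hz0, f, g, hg, hf, h1⟩
    · refine ⟨f, g, hg, h1, ?_⟩
      have := val_mul hz (val_aeval ho hy g)
      rw [h1] at this
      exact uniq p this (val_aeval ho hy f)
    · have h2 : p.Val z⁻¹ 0 := val_of_form ho hy hg h1 (by rw [hf, zero_mul])
      have h3 := val_mul hz h2
      rw [mul_inv_cancel₀ hz0, mul_zero] at h3
      exact absurd (uniq p h3 (val_one p)) zero_ne_one
  · rintro ⟨f, g, hg, h1, h2⟩
    exact val_of_form ho hy hg h1 h2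

/-- The graph of the place at `y = 0`. -/
def Gr (K : Type) [Field K] [Algebra K E] (y z : E) (c : K) : Prop :=
  ∃ f g : Polynomial K, g.eval 0 ≠ 0 ∧
    z * Polynomial.aeval y g = Polynomial.aeval y f ∧ c * g.eval 0 = f.eval 0

theorem gr_uniq (h : Simple K y) {z : E} {c c' : K} (h1 : Gr K y z c) (h2 : Gr K y z c') :
    c = c' := by
  obtain ⟨f, g, hg, a1, a2⟩ := h1
  obtain ⟨f', g', hg', b1, b2⟩ := h2
  have e : f * g' = f' * g := aeval_inj h (by rw [map_mul, map_mul, ← a1, ← b1]; ring)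
  have e' := congrArg (Polynomial.eval 0) e
  rw [Polynomial.eval_mul, Polynomial.eval_mul, ← a2, ← b2] at e'
  have : c * (g.eval 0 * g'.eval 0) = c' * (g.eval 0 * g'.eval 0) := by linear_combination e'
  exact mul_right_cancel₀ (mul_ne_zero hg hg') this

theorem gr_aeval (f : Polynomial K) : Gr K y (Polynomial.aeval y f) (f.eval 0) :=
  ⟨f, 1, by simp, by simp, by simp⟩

theorem gr_add {z z' : E} {c c' : K} (h1 : Gr K y z c) (h2 : Gr K y z' c') :
    Gr K y (z + z') (c + c') := by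
  obtain ⟨f, g, hg, a1, a2⟩ := h1
  obtain ⟨f', g', hg', b1, b2⟩ := h2
  refine ⟨f * g' + f' * g, g * g', by rw [Polynomial.eval_mul]; exact mul_ne_zero hg hg', ?_, ?_⟩
  · simp only [map_add, map_mul, ← a1, ← b1]; ring
  · simp only [Polynomial.eval_add, Polynomial.eval_mul, ← a2, ← b2]; ring

theorem gr_mul {z z' : E} {c c' : K} (h1 : Gr K y z c) (h2 : Gr K y z' c') :
    Gr K y (z * z') (c * c') := by
  obtain ⟨f, g, hg, a1, a2⟩ := h1
  obtain ⟨f', g', hg', b1, b2⟩ := h2
  refine ⟨f * f', g * g', by rw [Polynomial.eval_mul]; exact mul_ne_zero hg hg', ?_, ?_⟩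
  · simp only [map_mul, ← a1, ← b1]; ring
  · simp only [Polynomial.eval_mul, ← a2, ← b2]; ring

theorem gr_neg {z : E} {c : K} (h1 : Gr K y z c) : Gr K y (-z) (-c) := by
  obtain ⟨f, g, hg, a1, a2⟩ := h1
  refine ⟨-f, g, hg, ?_, ?_⟩
  · simp only [map_neg, ← a1]; ring
  · simp only [Polynomial.eval_neg, ← a2]; ring

theorem gr_ex {z : E} {f g : Polynomial K} (hg : g.eval 0 ≠ 0)
    (h1 : z * Polynomial.aeval y g = Polynomial.aeval y f) : ∃ c, Gr K y z c :=
  ⟨f.eval 0 / g.eval 0, f, g, hg, h1, div_mul_cancel₀ _ hg⟩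

theorem ex (h : Simple K y) : ∃ p : Place E K, p.Over K ∧ p.Val y 0 := by
  have g0 : Gr K y 0 0 := by simpa using gr_aeval (y := y) (0 : Polynomial K)
  have g1 : Gr K y 1 1 := by simpa using gr_aeval (y := y) (1 : Polynomial K)
  have gC : ∀ c : K, Gr K y (algebraMap K E c) c := fun c => by
    simpa using gr_aeval (y := y) (Polynomial.C c)
  have gy : Gr K y y 0 := by simpa using gr_aeval (y := y) (Polynomial.X : Polynomial K)
  let V : ValuationSubring E :=
    { carrier := {z | ∃ c, Gr K y z c}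
      mul_mem' := fun ⟨_, a⟩ ⟨_, b⟩ => ⟨_, gr_mul a b⟩
      one_mem' := ⟨_, g1⟩
      add_mem' := fun ⟨_, a⟩ ⟨_, b⟩ => ⟨_, gr_add a b⟩
      zero_mem' := ⟨_, g0⟩
      neg_mem' := fun ⟨_, a⟩ => ⟨_, gr_neg a⟩
      mem_or_inv_mem' := fun z => by
        rcases dich h z with ⟨f, g, hg, h1⟩ | ⟨-, f, g, hg, -, h1⟩
        · exact Or.inl (gr_ex hg h1)
        · exact Or.inr (gr_ex hg h1) }
  have hV : ∀ v : V, ∃ c, Gr K y (v : E) c := fun v => v.2
  choose r hr using hV
  let ρ : V →+* K :=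
    { toFun := r
      map_one' := gr_uniq h (hr 1) g1
      map_mul' := fun a b => gr_uniq h (hr (a * b)) (gr_mul (hr a) (hr b))
      map_zero' := gr_uniq h (hr 0) g0
      map_add' := fun a b => gr_uniq h (hr (a + b)) (gr_add (hr a) (hr b)) }
  refine ⟨⟨V, ρ, fun c => ⟨⟨algebraMap K E c, c, gC c⟩, gr_uniq h (hr _) (gC c)⟩⟩,
    fun c => ⟨⟨c, gC c⟩, gr_uniq h (hr _) (gC c)⟩, ⟨0, gy⟩, gr_uniq h (hr _) gy⟩

theorem factor {p : Place E K} (h : Simple K y) (ho : p.Over K) (hy : p.Val y 0) (v : p.V)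
    (hv : v ≠ 0) : ∃ (n : ℕ) (u : p.V), p.r u ≠ 0 ∧ v = (⟨y, hy.1⟩ : p.V) ^ n * u := by
  obtain ⟨f, g, hg, h1, -⟩ := (form h ho hy v (p.r v)).1 (val_coe p v)
  have hv' : (v : E) ≠ 0 := fun h0 => hv (Subtype.ext h0)
  have hg' := aeval_ne h hg
  have hf : f ≠ 0 := by
    rintro rfl
    rw [map_zero] at h1
    exact mul_ne_zero hv' hg' h1
  obtain ⟨n, f₀, hf₀, rfl⟩ := split f hf
  obtain ⟨hu, hu'⟩ := val_mul (val_aeval ho hy f₀) (val_inv (val_aeval ho hy g) hg)
  refine ⟨n, ⟨_, hu⟩, ?_, Subtype.ext ?_⟩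
  · rw [hu']
    exact mul_ne_zero hf₀ (inv_ne_zero hg)
  · rw [map_mul, map_pow, Polynomial.aeval_X] at h1
    change (v : E) = y ^ n * (Polynomial.aeval y f₀ * (Polynomial.aeval y g)⁻¹)
    rw [← mul_assoc, ← h1, mul_inv_cancel_right₀ hg']

theorem dvr {p : Place E K} (h : Simple K y) (ho : p.Over K) (hy : p.Val y 0) :
    IsNoetherianRing p.V ∧ ∃ t : p.V, t ≠ 0 ∧ ∀ v, p.r v = 0 ↔ t ∣ v := by
  classical
  set t : p.V := ⟨y, hy.1⟩ with ht
  have hrt : p.r t = 0 := hy.2
  refine ⟨?_, t, fun h0 => y_ne h (congrArg Subtype.val h0), fun v => ⟨fun hv => ?_, ?_⟩⟩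
  · rw [isNoetherianRing_iff_ideal_fg]
    intro I
    by_cases hI : I = ⊥
    · rw [hI]; exact Submodule.fg_bot
    have key : ∀ v ∈ I, v ≠ 0 → ∃ n, t ^ n ∈ I ∧ t ^ n ∣ v := by
      intro v hv hv0
      obtain ⟨n, u, hu, rfl⟩ := factor h ho hy v hv0
      exact ⟨n, (Ideal.mul_unit_mem_iff_mem I (isUnit_of_ne u hu)).1 hv, dvd_mul_right _ _⟩
    obtain ⟨v, hv, hv0⟩ := (Submodule.ne_bot_iff I).1 hI
    have hex : ∃ n, t ^ n ∈ I := (key v hv hv0).imp fun _ a => a.1
    refine ⟨{t ^ Nat.find hex}, le_antisymm ?_ fun w hw => ?_⟩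
    · rw [Finset.coe_singleton, Ideal.span_singleton_le_iff_mem]
      exact Nat.find_spec hex
    · rw [Finset.coe_singleton, Ideal.mem_span_singleton]
      by_cases hw0 : w = 0
      · rw [hw0]; exact dvd_zero _
      obtain ⟨n, h1, h2⟩ := key w hw hw0
      exact (pow_dvd_pow t (Nat.find_min' hex h1)).trans h2
  · by_cases hv0 : v = 0
    · rw [hv0]; exact dvd_zero _
    obtain ⟨n, u, hu, rfl⟩ := factor h ho hy v hv0
    cases n with
    | zero => rw [pow_zero, one_mul] at hv; exact absurd hv hu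
    | succ n => exact ((dvd_pow_self _ n.succ_ne_zero).mul_right _)
  · rintro ⟨w, rfl⟩
    rw [map_mul, hrt, zero_mul]

theorem simple_inv (h : Simple K y) : Simple K y⁻¹ := by
  refine ⟨fun ha => h.1 (IsAlgebraic.inv_iff.1 ha), ?_⟩
  rw [eq_top_iff, ← h.2, IntermediateField.adjoin_simple_le_iff]
  have := inv_mem (IntermediateField.mem_adjoin_simple_self K y⁻¹)
  rwa [inv_inv] at this

theorem eqv {A : Type} [Group A] [MulSemiringAction A E] [MulSemiringAction A K] (η : A →* ℤˣ)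
    {p : Place E K} (hK : ∀ (a : A) (c : K), a • algebraMap K E c = algebraMap K E (a • c))
    (hη : ∀ a : A, a • y = ((η a : ℤˣ) : ℤ) • y) (h : Simple K y) (ho : p.Over K)
    (hy : p.Val y 0) : p.Eqv A := by
  intro a z c hz
  have hay : p.Val (a • y) 0 := by
    rw [hη]
    rcases Int.units_eq_one_or (η a) with e | e
    · rw [e]; simpa using hy
    · rw [e]; simpa using val_neg hy
  have hp : ∀ f : Polynomial K, p.Val (a • Polynomial.aeval y f) (a • f.eval 0) := by
    intro f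
    induction f using Polynomial.induction_on' with
    | add f g hf hg => rw [map_add, Polynomial.eval_add, smul_add, smul_add]; exact val_add hf hg
    | monomial n c =>
      rw [Polynomial.aeval_monomial, Polynomial.eval_monomial, smul_mul', smul_mul', hK]
      refine val_mul (ho _) ?_
      induction n with
      | zero => rw [pow_zero, pow_zero, smul_one, smul_one]; exact val_one p
      | succ n ih =>
        rw [pow_succ, pow_succ, smul_mul', smul_mul', smul_zero]
        exact val_mul ih hay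
  obtain ⟨f, g, hg, h1, h2⟩ := (form h ho hy z c).1 hz
  have hg' : a • g.eval 0 ≠ 0 := fun h0 => hg ((smul_eq_zero_iff_eq a).1 h0)
  have e1 : a • z * a • Polynomial.aeval y g = a • Polynomial.aeval y f := by
    rw [← smul_mul', h1]
  have e2 : a • c * a • g.eval 0 = a • f.eval 0 := by rw [← smul_mul', h2]
  rw [(eq_mul_inv_iff_mul_eq₀ (val_ne (hp g) hg')).2 e1, (eq_mul_inv_iff_mul_eq₀ hg').2 e2]
  exact val_mul (hp f) (val_inv (hp g) hg')

end Simple

section Comp

variable {E K K' : Type} [Field E] [Field K] [Field K']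

theorem exists_comp (p : Place E K) (p' : Place K K') :
    ∃ p'' : Place E K', ∀ z c, p''.Val z c ↔ ∃ c', p.Val z c' ∧ p'.Val c' c := by
  let G : E → K' → Prop := fun z c => ∃ c', p.Val z c' ∧ p'.Val c' c
  have gu : ∀ {z c c'}, G z c → G z c' → c = c' := by
    rintro z c c' ⟨a, a1, a2⟩ ⟨b, b1, b2⟩
    rw [uniq p a1 b1] at a2
    exact uniq p' a2 b2
  have g0 : G 0 0 := ⟨0, val_zero p, val_zero p'⟩
  have g1 : G 1 1 := ⟨1, val_one p, val_one p'⟩
  have gm : ∀ {z z' c c'}, G z c → G z' c' → G (z * z') (c * c') := by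
    rintro z z' c c' ⟨a, a1, a2⟩ ⟨b, b1, b2⟩
    exact ⟨_, val_mul a1 b1, val_mul a2 b2⟩
  have ga : ∀ {z z' c c'}, G z c → G z' c' → G (z + z') (c + c') := by
    rintro z z' c c' ⟨a, a1, a2⟩ ⟨b, b1, b2⟩
    exact ⟨_, val_add a1 b1, val_add a2 b2⟩
  let V : ValuationSubring E :=
    { carrier := {z | ∃ c, G z c}
      mul_mem' := fun ⟨_, a⟩ ⟨_, b⟩ => ⟨_, gm a b⟩
      one_mem' := ⟨_, g1⟩
      add_mem' := fun ⟨_, a⟩ ⟨_, b⟩ => ⟨_, ga a b⟩
      zero_mem' := ⟨_, g0⟩
      neg_mem' := fun ⟨_, _, a1, a2⟩ => ⟨_, _, val_neg a1, val_neg a2⟩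
      mem_or_inv_mem' := fun z => by
        rcases total p z with ⟨c', hc'⟩ | hz
        · by_cases h0 : c' = 0
          · exact Or.inl ⟨0, c', hc', h0 ▸ val_zero p'⟩
          rcases total p' c' with ⟨c, hc⟩ | hc
          · exact Or.inl ⟨c, c', hc', hc⟩
          · exact Or.inr ⟨0, _, val_inv hc' h0, hc⟩
        · exact Or.inr ⟨0, 0, hz, val_zero p'⟩ }
  have hV : ∀ v : V, ∃ c, G (v : E) c := fun v => v.2
  choose r hr using hV
  let ρ : V →+* K' :=
    { toFun := r
      map_one' := gu (hr 1) g1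
      map_mul' := fun a b => gu (hr (a * b)) (gm (hr a) (hr b))
      map_zero' := gu (hr 0) g0
      map_add' := fun a b => gu (hr (a + b)) (ga (hr a) (hr b)) }
  have hs : Function.Surjective ρ := by
    intro c
    obtain ⟨v', rfl⟩ := p'.surj c
    obtain ⟨v, hv⟩ := p.surj v'
    have hG : G v (p'.r v') := ⟨v', hv ▸ val_coe p v, val_coe p' v'⟩
    exact ⟨⟨v, _, hG⟩, gu (hr _) hG⟩
  refine ⟨⟨V, ρ, hs⟩, fun z c => ⟨?_, fun hG => ⟨⟨c, hG⟩, gu (hr _) hG⟩⟩⟩
  rintro ⟨hz, rfl⟩
  exact hr ⟨z, hz⟩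

theorem init_le {p : Place E K} {p' : Place K K'} {p'' : Place E K'}
    (h : ∀ z c, p''.Val z c ↔ ∃ c', p.Val z c' ∧ p'.Val c' c) {σ : Type}
    (J : Ideal (MvPolynomial σ E)) : p''.init J ≤ p'.init (p.init J) := by
  intro f hf
  obtain ⟨g, hg, hr⟩ := (mem_init p'' J f).1 hf
  rw [rel_iff] at hr
  choose c h1 h2 using fun d => (h _ _).1 (hr d)
  obtain ⟨g₀, rfl⟩ := exists_lift p g fun d => (h1 d).1
  have hrel : Rel p (map p.V.subtype g₀) (map p.r g₀) := ⟨g₀, rfl, rfl⟩
  refine (mem_init p' _ f).2 ⟨map p.r g₀, (mem_init p J _).2 ⟨_, hg, hrel⟩, ?_⟩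
  rw [rel_iff] at hrel ⊢
  intro d
  rw [uniq p (hrel d) (h1 d)]
  exact h2 d

end Comp

theorem isW_bw (ι : Type) : IsW (bw ι) := by
  rintro (i | i)
  · exact Or.inl rfl
  · exact Or.inr rfl

theorem adm (h2 : HfAPI2) {A ι κ E K : Type} [Group A] [Finite ι] [Field κ] [Field E] [Field K]
    [Algebra κ E] [Algebra κ K] [MulSemiringAction A E] [MulSemiringAction A K]
    (S : Setup A ι κ) (p : Place E K) (J : Ideal (Pxy ι E)) (ho : p.Over κ) (he : p.Eqv A)
    (hJ : S.Adm J) : S.Adm (p.init J) := by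
  obtain ⟨hh, hk⟩ := h2.init _ E K (bw ι) p J (isW_bw ι) hJ.hom
  refine ⟨hh, ?_, fun a f hf => ?_, ?_, fun i hi => ?_, fun e he => ?_⟩
  · obtain ⟨C, hC⟩ := hJ.lin
    exact ⟨C, fun d n => by rw [hk]; exact hC d n⟩
  · obtain ⟨g, hg, g₀, rfl, rfl⟩ := (mem_init p J f).1 hf
    refine (mem_init p J _).2 ⟨_, hJ.stab a _ hg, ?_⟩
    clear hg hf
    induction g₀ using MvPolynomial.induction_on with
    | C v =>
      rw [map_C, map_C, Setup.act, Setup.act, eval₂Hom_C, eval₂Hom_C]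
      exact rel_C (he a _ _ (val_coe p v))
    | add f g hf hg =>
      rw [map_add, map_add, map_add, map_add]
      exact rel_add hf hg
    | mul_X f i hf =>
      rw [map_mul, map_mul, map_mul, map_mul, map_X, map_X]
      refine rel_mul hf ?_
      rw [Setup.act, Setup.act, eval₂Hom_X', eval₂Hom_X']
      cases i with
      | inl i => exact rel_zsmul_X _ _
      | inr i => exact rel_X _
  · refine (mem_init p J _).2 ⟨_, hJ.quad, ∑ i ∈ S.T, X (Sum.inl i) ^ 2, ?_, ?_⟩ <;>
      simp only [map_sum, map_pow, map_X]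
  · exact (mem_init p J _).2 ⟨_, hJ.out i hi, rel_X _⟩
  · refine (mem_init p J _).2 ⟨_, hJ.eqs e he, ?_⟩
    clear he
    induction e using MvPolynomial.induction_on with
    | C c =>
      rw [map_C, map_C, rename_C, rename_C]
      exact rel_C (ho c)
    | add f g hf hg =>
      rw [map_add, map_add, map_add, map_add]
      exact rel_add hf hg
    | mul_X f i hf =>
      rw [map_mul, map_mul, map_mul, map_mul, map_X, map_X, rename_X, rename_X]
      exact rel_mul hf (rel_X _)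

end Plc

theorem placeAPI (h1 : HfAPI) (h2 : HfAPI2) : PlaceAPI where
  uniq := fun _ _ _ _ p _ _ _ a b => Plc.uniq p a b
  add := fun _ _ _ _ _ _ _ _ _ a b => ⟨Plc.val_add a b, Plc.val_mul a b, Plc.val_neg a⟩
  inv := fun _ _ _ _ _ _ _ a b => Plc.val_inv a b
  total := fun _ _ _ _ p z => Plc.total p z
  mem := fun _ _ _ _ _ p J f => by simp only [Plc.mem_init, Plc.rel_iff]
  ex := fun _ _ _ _ _ _ h => Plc.ex h
  form := fun _ _ _ _ _ _ _ h ho hy => Plc.form h ho hy
  dvr := fun _ _ _ _ _ _ _ h ho hy => Plc.dvr h ho hy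
  simple_inv := fun _ _ _ _ _ _ h => Plc.simple_inv h
  eqv := fun _ _ _ _ _ _ _ _ _ _ η _ hK hη h ho hy => Plc.eqv η hK hη h ho hy
  comp := fun E K K' _ _ _ p p' => by
    obtain ⟨p'', h⟩ := Plc.exists_comp p p'
    refine ⟨p'', h, fun σ _ w J hw hJ => ?_⟩
    obtain ⟨a1, a2⟩ := h2.init σ E K' w p'' J hw hJ
    obtain ⟨b1, b2⟩ := h2.init σ E K w p J hw hJ
    obtain ⟨c1, c2⟩ := h2.init σ K K' w p' _ hw b1
    exact h1.eq σ K' w _ _ hw a1 c1 (Plc.init_le h J) fun k => by rw [a2, c2, b2]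
  adm := fun _ _ _ _ _ _ _ _ _ _ _ _ _ _ S p J ho he hJ => Plc.adm h2 S p J ho he hJ

end Pool.Agent.MP_d45d16_ag.Yag

end MrgPart3

-- ======== part 4: formerly Pool.Agent.MP_d45d16_ag.yag.Cyc
section MrgPart4

/-!
The push-forward cycle of a bihomogeneous ideal of linear growth.
-/

set_option autoImplicit false

open MvPolynomial Filter

namespace Pool.Agent.MP_d45d16_ag.Yag

namespace Cyc

section Gen

variable {B P : Type} [CommRing B] [CommRing P] [Algebra B P]

lemma len_congr (hL : LenAPI) {N M : Type} [AddCommGroup N] [AddCommGroup M] [Module B N]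
    [Module B M] (s : PrimeSpectrum B) (g : N →ₗ[B] M) (hg : Function.Bijective g) :
    lenAt s N = lenAt s M := by
  have h1 : (1 : B) ∉ s.asIdeal := (Ideal.ne_top_iff_one _).1 s.isPrime.ne_top
  refine hL.loc B B N M (RingHom.id B) g s s (by simp) (fun x => ⟨1, x, h1, by simp⟩)
    (fun m => ?_) fun n hn => ⟨1, h1, ?_⟩
  · obtain ⟨n, rfl⟩ := hg.2 m
    exact ⟨1, n, h1, by simp⟩
  · rw [hg.1 (hn.trans (map_zero g).symm), smul_zero]

/-- The image of a submodule in a quotient. -/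
abbrev img (J : Ideal P) (N : Submodule B P) : Submodule B (P ⧸ J) :=
  N.map (Ideal.Quotient.mkₐ B J).toLinearMap

lemma mem_img {J : Ideal P} {N : Submodule B P} {z : P ⧸ J} :
    z ∈ img J N ↔ ∃ g ∈ N, Ideal.Quotient.mk J g = z := Iff.rfl

/-- Multiplication by `f`. -/
noncomputable def mulq (J : Ideal P) (f : P) : (P ⧸ J.colon {f}) →ₗ[B] P ⧸ J :=
  Submodule.liftQ ((J.colon {f}).restrictScalars B)
    ((Ideal.Quotient.mkₐ B J).toLinearMap ∘ₗ LinearMap.mulRight B f) fun g hg => by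
      have : g * f ∈ J := Submodule.mem_colon_singleton.1 hg
      exact Ideal.Quotient.eq_zero_iff_mem.2 this

lemma mulq_mk (J : Ideal P) (f g : P) :
    mulq (B := B) J f (Ideal.Quotient.mk _ g) = Ideal.Quotient.mk J (g * f) := rfl

lemma len_add (hL : LenAPI) (J : Ideal P) (f : P) (N N' : Submodule B P)
    (h1 : ∀ g ∈ N, g * f ∈ N')
    (h2 : ∀ g ∈ N', g ∈ J ⊔ Ideal.span {f} → ∃ h ∈ N, g - h * f ∈ J) (s : PrimeSpectrum B) :
    lenAt s (img J N') = lenAt s (img (J ⊔ Ideal.span {f}) N') + lenAt s (img (J.colon {f}) N) := by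
  let φ : img (J.colon {f}) N →ₗ[B] img J N' := (mulq J f).restrict fun z hz => by
    obtain ⟨g, hg, rfl⟩ := mem_img.1 hz
    exact mem_img.2 ⟨g * f, h1 g hg, rfl⟩
  let ψ : img J N' →ₗ[B] img (J ⊔ Ideal.span {f}) N' :=
    (Ideal.Quotient.factorₐ B (le_sup_left : J ≤ J ⊔ Ideal.span {f})).toLinearMap.restrict
      fun z hz => by
        obtain ⟨g, hg, rfl⟩ := mem_img.1 hz
        exact mem_img.2 ⟨g, hg, rfl⟩
  rw [add_comm]
  refine hL.exact B _ _ _ s φ ψ ?_ ?_ ?_
  · rw [injective_iff_map_eq_zero]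
    rintro ⟨z, hz⟩ h0
    obtain ⟨g, hg, rfl⟩ := mem_img.1 hz
    have h3 : Ideal.Quotient.mk J (g * f) = 0 := congrArg Subtype.val h0
    exact Subtype.ext (Ideal.Quotient.eq_zero_iff_mem.2
      (Submodule.mem_colon_singleton.2 (Ideal.Quotient.eq_zero_iff_mem.1 h3)))
  · rintro ⟨z, hz⟩
    obtain ⟨g, hg, rfl⟩ := mem_img.1 hz
    exact ⟨⟨_, mem_img.2 ⟨g, hg, rfl⟩⟩, rfl⟩
  · rintro ⟨z, hz⟩
    obtain ⟨g, hg, rfl⟩ := mem_img.1 hz
    constructor
    · intro h0
      have h3 : Ideal.Quotient.mk (J ⊔ Ideal.span {f}) g = 0 := congrArg Subtype.val h0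
      obtain ⟨h, hh, h4⟩ := h2 g hg (Ideal.Quotient.eq_zero_iff_mem.1 h3)
      exact ⟨⟨_, mem_img.2 ⟨h, hh, rfl⟩⟩, Subtype.ext (Ideal.Quotient.eq.2 h4).symm⟩
    · rintro ⟨⟨z', hz'⟩, h0⟩
      obtain ⟨h, hh, rfl⟩ := mem_img.1 hz'
      have h3 : Ideal.Quotient.mk J (h * f) = Ideal.Quotient.mk J g := congrArg Subtype.val h0
      refine Subtype.ext (Ideal.Quotient.eq_zero_iff_mem.2 ?_)
      have h4 : g = h * f - (h * f - g) := by ring
      rw [h4]
      exact sub_mem (Ideal.mem_sup_right (Ideal.mul_mem_left _ _ (Ideal.subset_span rfl)))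
        (Ideal.mem_sup_left (Ideal.Quotient.eq.1 h3))

lemma len_img_zero (hL : LenAPI) (J : Ideal P) (N : Submodule B P) (s : PrimeSpectrum B)
    {u : B} (hu : u ∉ s.asIdeal) (h : ∀ g ∈ N, u • g ∈ J) : lenAt s (img J N) = 0 := by
  refine (hL.zero B _ s).2 fun z => ⟨u, hu, ?_⟩
  obtain ⟨z, hz⟩ := z
  obtain ⟨g, hg, rfl⟩ := mem_img.1 hz
  refine Subtype.ext ?_
  exact ((Ideal.Quotient.mkₐ B J).toLinearMap.map_smul u g).symm.trans
    (Ideal.Quotient.eq_zero_iff_mem.2 (h g hg))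

lemma one_notMem (s : PrimeSpectrum B) : (1 : B) ∉ s.asIdeal :=
  (Ideal.ne_top_iff_one _).1 s.isPrime.ne_top

lemma le_of_len (hL : LenAPI) (J : Ideal P) (N : Submodule B P) (s : PrimeSpectrum B)
    (h : lenAt s (img J N) ≠ 0) : J.comap (algebraMap B P) ≤ s.asIdeal := fun u hu => by
  by_contra hs
  refine h (len_img_zero hL J N s hs fun g _ => ?_)
  rw [Algebra.smul_def]
  exact J.mul_mem_right _ hu

lemma len_range (hL : LenAPI) (J : Ideal P) (N : Submodule B P)
    (h1 : ∀ b, algebraMap B P b ∈ N) (h2 : ∀ g ∈ N, ∃ b, algebraMap B P b = g)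
    (s : PrimeSpectrum B) : lenAt s (img J N) = lenAt s (B ⧸ J.comap (algebraMap B P)) := by
  let φ : B →ₗ[B] img J N :=
    ((Ideal.Quotient.mkₐ B J).toLinearMap ∘ₗ Algebra.linearMap B P).codRestrict _
      fun b => mem_img.2 ⟨_, h1 b, rfl⟩
  have hφ : ∀ b, φ b = 0 ↔ b ∈ J.comap (algebraMap B P) := fun b =>
    Subtype.ext_iff.trans Ideal.Quotient.eq_zero_iff_mem
  refine (len_congr hL s ((J.comap (algebraMap B P)).liftQ φ fun b hb => (hφ b).2 hb)
    ⟨?_, ?_⟩).symm
  · rw [injective_iff_map_eq_zero]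
    intro z hz
    obtain ⟨b, rfl⟩ := Ideal.Quotient.mk_surjective z
    exact Ideal.Quotient.eq_zero_iff_mem.2 ((hφ b).1 hz)
  · rintro ⟨z, hz⟩
    obtain ⟨g, hg, rfl⟩ := mem_img.1 hz
    obtain ⟨b, rfl⟩ := h2 g hg
    exact ⟨Ideal.Quotient.mk _ b, rfl⟩

lemma len_top (hL : LenAPI) (I : Ideal B) (s : PrimeSpectrum B) :
    lenAt s (img I (⊤ : Submodule B B)) = lenAt s (B ⧸ I) :=
  len_congr hL s (Submodule.subtype _) ⟨Subtype.val_injective, fun z => by
    obtain ⟨b, rfl⟩ := Ideal.Quotient.mk_surjective z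
    exact ⟨⟨_, mem_img.2 ⟨b, trivial, rfl⟩⟩, rfl⟩⟩

lemma lenB_add (hL : LenAPI) (I : Ideal B) (f : B) (s : PrimeSpectrum B) :
    lenAt s (B ⧸ I) = lenAt s (B ⧸ (I ⊔ Ideal.span {f})) + lenAt s (B ⧸ I.colon {f}) := by
  rw [← len_top hL, ← len_top hL, ← len_top hL]
  refine len_add hL I f ⊤ ⊤ (fun _ _ => trivial) (fun g _ hg => ?_) s
  obtain ⟨j, hj, z, hz, rfl⟩ := Submodule.mem_sup.1 hg
  obtain ⟨h, rfl⟩ := Ideal.mem_span_singleton'.1 hz
  exact ⟨h, trivial, by simpa using hj⟩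

lemma lenB_le (hL : LenAPI) (I : Ideal B) (s : PrimeSpectrum B) (h : lenAt s (B ⧸ I) ≠ 0) :
    I ≤ s.asIdeal := by
  rw [← len_top hL] at h
  simpa using le_of_len hL I ⊤ s h

lemma le_colon (J : Ideal P) (f : P) : J ≤ J.colon {f} := fun _ hg =>
  Submodule.mem_colon_singleton.2 (J.mul_mem_right _ hg)

end Gen

section Grad

variable {ι R : Type} [CommRing R]

lemma mem_Nd {f : Pxy ι R} {d : ℕ} : f ∈ Nd ι R d ↔ IsWeightedHomogeneous (xw ι) f d := Iff.rfl

lemma weight_xw (e : ι ⊕ ι →₀ ℕ) :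
    Finsupp.weight (xw ι) e = (Finsupp.weight (bw ι) e).1 := by
  induction e using Finsupp.induction_linear with
  | zero => simp
  | add a b ha hb => simp [ha, hb]
  | single v n => rcases v with v | v <;> simp [Finsupp.weight_single, xw, bw]

lemma xhom {f : Pxy ι R} {m : ℕ × ℕ} (h : IsWeightedHomogeneous (bw ι) f m) :
    IsWeightedHomogeneous (xw ι) f m.1 := fun e he => by rw [weight_xw, h he]

lemma xcomp_mem {J : Ideal (Pxy ι R)} (hJ : IsHom (bw ι) J) {g : Pxy ι R} (hg : g ∈ J) (e : ℕ) :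
    weightedHomogeneousComponent (xw ι) e g ∈ J := by
  rw [← sum_weightedHomogeneousComponent (bw ι) g,
    finsum_eq_sum _ (weightedHomogeneousComponent_finsupp g), map_sum]
  refine J.sum_mem fun m _ => ?_
  rw [weightedHomogeneousComponent_of_mem
    (xhom (weightedHomogeneousComponent_isWeightedHomogeneous m g))]
  split_ifs
  · exact hJ g hg m
  · exact J.zero_mem

lemma xcomp_mul (h : Pxy ι R) {f : Pxy ι R} {e : ℕ} (hf : IsWeightedHomogeneous (xw ι) f e)
    (d : ℕ) : weightedHomogeneousComponent (xw ι) (d + e) (h * f) =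
      weightedHomogeneousComponent (xw ι) d h * f := by
  let _ := weightedGradedAlgebra R (xw ι)
  have := DirectSum.coe_decompose_mul_add_of_right_mem (weightedHomogeneousSubmodule R (xw ι))
    (a := h) (b := f) (i := d) (j := e) hf
  rw [← weightedDecomposition.decompose'_apply, ← weightedDecomposition.decompose'_apply]
  exact this

lemma md_add (hL : LenAPI) {J : Ideal (Pxy ι R)} {f : Pxy ι R} {e : ℕ} (d : ℕ)
    (s : PrimeSpectrum (By ι R)) (hJ : IsHom (bw ι) J) (hf : IsWeightedHomogeneous (xw ι) f e) :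
    lenAt s (Md J (d + e)) =
      lenAt s (Md (J ⊔ Ideal.span {f}) (d + e)) + lenAt s (Md (J.colon {f}) d) := by
  refine len_add hL J f (Nd ι R d) (Nd ι R (d + e)) (fun g hg => (mem_Nd.1 hg).mul hf)
    (fun g hg hg' => ?_) s
  obtain ⟨j, hj, z, hz, h0⟩ := Submodule.mem_sup.1 hg'
  obtain ⟨h, rfl⟩ := Ideal.mem_span_singleton'.1 hz
  refine ⟨weightedHomogeneousComponent (xw ι) d h,
    weightedHomogeneousComponent_isWeightedHomogeneous d h, ?_⟩
  have h1 := congrArg (weightedHomogeneousComponent (xw ι) (d + e)) h0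
  rw [map_add, xcomp_mul h hf, weightedHomogeneousComponent_eq_self (mem_Nd.1 hg)] at h1
  rw [← h1, add_sub_cancel_right]
  exact xcomp_mem hJ hj _

lemma X_hom (i : ι) : IsWeightedHomogeneous (bw ι) (X (Sum.inl i) : Pxy ι R) (1, 0) :=
  isWeightedHomogeneous_X R (bw ι) (Sum.inl i)

lemma alg_mem_Nd (b : By ι R) : algebraMap (By ι R) (Pxy ι R) b ∈ Nd ι R 0 := by
  rw [Algebra.algebraMap_eq_smul_one]
  exact (Nd ι R 0).smul_mem b (isWeightedHomogeneous_one R (xw ι))

lemma Nd_zero {f : Pxy ι R} (hf : f ∈ Nd ι R 0) : ∃ b, algebraMap (By ι R) (Pxy ι R) b = f := by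
  classical
  refine exists_rename_eq_of_vars_subset_range f Sum.inr Sum.inr_injective fun v hv => ?_
  obtain ⟨e, he, hv'⟩ := (mem_vars_iff_mem_support v).1 hv
  rcases v with i | j
  · have h1 := Finsupp.le_weight_of_ne_zero' (xw ι) (Finsupp.mem_support_iff.1 hv')
    rw [mem_Nd.1 hf (mem_support_iff.1 he)] at h1
    simp [xw] at h1
  · exact ⟨j, rfl⟩

lemma Nd_succ {d : ℕ} (T : AddSubmonoid (Pxy ι R))
    (hT : ∀ i, ∀ g ∈ Nd ι R d, g * X (Sum.inl i) ∈ T) {f : Pxy ι R} (hf : f ∈ Nd ι R (d + 1)) :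
    f ∈ T := by
  refine IsWeightedHomogeneous.induction_on (motive := fun p _ => p ∈ T) T.zero_mem
    (fun _ _ _ _ => T.add_mem) (fun e r he => ?_) (mem_Nd.1 hf)
  have h1 : ∃ i, e (Sum.inl i) ≠ 0 := by
    by_contra h
    push Not at h
    have : Finsupp.weight (xw ι) e = 0 := by
      rw [Finsupp.weight_apply, Finsupp.sum]
      refine Finset.sum_eq_zero fun v _ => ?_
      rcases v with i | j
      · simp [h i]
      · simp [xw]
    omega
  obtain ⟨i, hi⟩ := h1
  have h2 := Finsupp.weight_sub_single_add (w := xw ι) hi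
  have h3 : (monomial e r : Pxy ι R) =
      monomial (e - Finsupp.single (Sum.inl i) 1) r * X (Sum.inl i) := by
    rw [X, monomial_mul, mul_one, Finsupp.sub_add_single_one_cancel hi]
  rw [h3]
  refine hT i _ (isWeightedHomogeneous_monomial _ _ _ ?_)
  have h4 : xw ι (Sum.inl i) = 1 := rfl
  omega

lemma Nd_fg [Finite ι] (d : ℕ) : (Nd ι R d).FG := by
  induction d with
  | zero =>
    have : Nd ι R 0 = Submodule.span (By ι R) {1} := by
      refine le_antisymm (fun f hf => ?_) ?_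
      · obtain ⟨b, rfl⟩ := Nd_zero hf
        rw [Algebra.algebraMap_eq_smul_one]
        exact Submodule.smul_mem _ _ (Submodule.subset_span rfl)
      · rw [Submodule.span_singleton_le_iff_mem]
        exact isWeightedHomogeneous_one R (xw ι)
    rw [this]
    exact Submodule.fg_span_singleton _
  | succ d ih =>
    have : Nd ι R (d + 1) =
        ⨆ i, (Nd ι R d).map (LinearMap.mulRight (By ι R) (X (Sum.inl i) : Pxy ι R)) := by
      refine le_antisymm (fun f hf => Nd_succ (Submodule.toAddSubmonoid _) (fun i g hg => ?_) hf)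
        (iSup_le fun i => ?_)
      · exact Submodule.mem_iSup_of_mem i ⟨g, hg, rfl⟩
      · rintro _ ⟨g, hg, rfl⟩
        exact (mem_Nd.1 hg).mul (xhom (X_hom i))
    rw [this]
    exact Submodule.fg_iSup _ fun i => ih.map _

lemma md_succ_zero (hL : LenAPI) {J : Ideal (Pxy ι R)} (hJ : ∀ i, X (Sum.inl i) ∈ J) (d : ℕ)
    (s : PrimeSpectrum (By ι R)) : lenAt s (Md J (d + 1)) = 0 :=
  len_img_zero hL J _ s (one_notMem s) fun g hg => by
    rw [one_smul]
    exact Nd_succ J.toAddSubmonoid (fun i g _ => J.mul_mem_left g (hJ i)) hg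

end Grad

section Main

variable {ι K : Type} [Finite ι] [Field K]

omit [Finite ι] in
lemma isW_b : IsW (bw ι) := fun v => by rcases v with v | v <;> simp [bw]

omit [Finite ι] in
lemma isW_y : IsW (yw ι) := fun _ => Or.inr rfl

lemma lin_mono (hH : HfAPI) {σ : Type} [Finite σ] {w : σ → ℕ × ℕ} (hw : IsW w)
    {J J' : Ideal (MvPolynomial σ K)} (h : J ≤ J') (hJ : Lin w J) : Lin w J' := by
  obtain ⟨C, hC⟩ := hJ
  exact ⟨C, fun d n => (hH.mono σ K w J J' _ hw h).trans (hC d n)⟩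

lemma lin_contr (hH : HfAPI) {J : Ideal (Pxy ι K)} (hJ : IsHom (bw ι) J) (hl : Lin (bw ι) J) :
    Lin (yw ι) (J.comap (algebraMap (By ι K) (Pxy ι K))) := by
  obtain ⟨C, hC⟩ := hl
  refine ⟨C, fun d n => ?_⟩
  rcases d with _ | d
  · rw [(hH.contr ι K J hJ).2]; exact hC 0 n
  · rw [hH.ypos]; exact Nat.zero_le _

lemma eq_of_le (hH : HfAPI) {q : Ideal (By ι K)} {s : PrimeSpectrum (By ι K)} (hs : Crv s)
    (hq : IsHom (yw ι) q) (hp : q.IsPrime) (hl : Lin (yw ι) q) (h : q ≤ s.asIdeal) :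
    q = s.asIdeal :=
  hH.rigid ι K (yw ι) s.asIdeal q isW_y hs.1 hq s.isPrime hp h hl hs.2 (Or.inr fun _ => rfl)

lemma min_of_le (hH : HfAPI) {I : Ideal (By ι K)} {s : PrimeSpectrum (By ι K)} (hs : Crv s)
    (hI : IsHom (yw ι) I) (hl : Lin (yw ι) I) (h : I ≤ s.asIdeal) :
    s.asIdeal ∈ I.minimalPrimes := by
  obtain ⟨p, hp, hps⟩ := Ideal.exists_minimalPrimes_le h
  rw [← eq_of_le hH hs (hH.min ι K _ I p hI hp) hp.1.1 (lin_mono hH isW_y hp.1.2 hl) hps]
  exact hp

lemma growB (hL : LenAPI) (hH : HfAPI) {s : PrimeSpectrum (By ι K)} (hs : Crv s)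
    {I : Ideal (By ι K)} (hI : IsHom (yw ι) I) (hl : Lin (yw ι) I) :
    ∃ r c : ℕ, lenAt s (By ι K ⧸ I) = r ∧ ∀ n, r * n ≤ hf (yw ι) I (0, n) + c := by
  refine hH.ind ι K (yw ι) I
    (fun I => ∃ r c : ℕ, lenAt s (By ι K ⧸ I) = r ∧ ∀ n, r * n ≤ hf (yw ι) I (0, n) + c)
    ?_ (fun q hq hle hp => ?_) (fun J f m hJ _ hf h1 h2 => ?_) I hI le_rfl
  · refine ⟨0, 0, ?_, by simp⟩
    by_contra h
    exact one_notMem s (lenB_le hL ⊤ s h trivial)
  · by_cases h : lenAt s (By ι K ⧸ q) = 0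
    · exact ⟨0, 0, h, by simp⟩
    · obtain rfl := eq_of_le hH hs hq hp (lin_mono hH isW_y hle hl) (lenB_le hL q s h)
      refine ⟨1, 0, hL.one _ s, fun n => ?_⟩
      have := hH.grow ι K (yw ι) s.asIdeal n isW_y hq hp hs.2
      omega
  · obtain ⟨a, b⟩ := m
    rcases a with _ | a
    · obtain ⟨r₁, c₁, e₁, g₁⟩ := h1
      obtain ⟨r₂, c₂, e₂, g₂⟩ := h2
      refine ⟨r₁ + r₂, c₁ + c₂ + (r₁ + r₂) * b, by rw [lenB_add hL J f, e₁, e₂, Nat.cast_add],
        fun n => ?_⟩
      rcases le_total b n with h | h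
      · obtain ⟨k, rfl⟩ := Nat.exists_eq_add_of_le' h
        have h3 := hH.add ι K (yw ι) J f (0, b) (0, k) isW_y hJ hf
        rw [Prod.mk_add_mk, add_zero] at h3
        have h4 := g₁ (k + b)
        have h5 := g₂ k
        rw [h3]
        nlinarith [Nat.zero_le (r₁ * b)]
      · exact (Nat.mul_le_mul_left _ h).trans (by omega)
    · have h3 := (hH.zero ι K (yw ι) J _ isW_y).1 (hH.ypos ι K J a b) f hf
      rwa [sup_eq_left.2 ((Ideal.span_singleton_le_iff_mem J).2 h3)] at h1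

lemma grow (hL : LenAPI) (hH : HfAPI) {s : PrimeSpectrum (By ι K)} (hs : Crv s) (d : ℕ) :
    ∀ J : Ideal (Pxy ι K), IsHom (bw ι) J → Lin (bw ι) J →
      ∃ r c : ℕ, lenAt s (Md J d) = r ∧ ∀ n, r * n ≤ hf (bw ι) J (d, n) + c := by
  classical
  induction d with
  | zero =>
    intro J hJ hl
    obtain ⟨r, c, h1, h2⟩ := growB hL hH hs (hH.contr ι K J hJ).1 (lin_contr hH hJ hl)
    refine ⟨r, c, (len_range hL J _ alg_mem_Nd (fun _ => Nd_zero) s).trans h1, fun n => ?_⟩
    rw [← (hH.contr ι K J hJ).2]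
    exact h2 n
  | succ d ih =>
    have key : ∀ T : Finset ι, ∀ J : Ideal (Pxy ι K), IsHom (bw ι) J → Lin (bw ι) J →
        (∀ i ∉ T, X (Sum.inl i) ∈ J) →
        ∃ r c : ℕ, lenAt s (Md J (d + 1)) = r ∧ ∀ n, r * n ≤ hf (bw ι) J (d + 1, n) + c := by
      intro T
      induction T using Finset.induction_on with
      | empty =>
        intro J _ _ h
        exact ⟨0, 0, md_succ_zero hL (fun i => h i (Finset.notMem_empty i)) d s, by simp⟩
      | insert i T _ ihT =>
        intro J hJ hl h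
        obtain ⟨r₁, c₁, e₁, g₁⟩ := ihT (J ⊔ Ideal.span {X (Sum.inl i)})
          (hH.sup _ _ _ J _ _ hJ (X_hom i)) (lin_mono hH isW_b le_sup_left hl) fun j hj => by
            by_cases hji : j = i
            · rw [hji]; exact Ideal.mem_sup_right (Ideal.subset_span rfl)
            · exact Ideal.mem_sup_left (h j (by simp [hji, hj]))
        obtain ⟨r₂, c₂, e₂, g₂⟩ := ih (J.colon {X (Sum.inl i)})
          (hH.colon _ _ _ J _ _ hJ (X_hom i)) (lin_mono hH isW_b (le_colon J _) hl)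
        refine ⟨r₁ + r₂, c₁ + c₂, ?_, fun n => ?_⟩
        · rw [Nat.cast_add, ← e₁, ← e₂]
          exact md_add hL d s hJ (xhom (X_hom i))
        · have h3 := hH.add _ K (bw ι) J _ (1, 0) (d, n) isW_b hJ (X_hom i)
          rw [Prod.mk_add_mk, add_zero] at h3
          have h4 := g₁ n
          have h5 := g₂ n
          rw [h3, add_mul]
          omega
    intro J hJ hl
    have := Fintype.ofFinite ι
    exact key Finset.univ J hJ hl fun i hi => (hi (Finset.mem_univ i)).elim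

lemma bdd (hL : LenAPI) (hH : HfAPI) {J : Ideal (Pxy ι K)} (hJ : IsHom (bw ι) J)
    (hl : Lin (bw ι) J) : ∃ C : ℕ, ∀ s : PrimeSpectrum (By ι K), Crv s → ∀ d,
      ∃ r : ℕ, r ≤ C ∧ lenAt s (Md J d) = r := by
  obtain ⟨C, hC⟩ := id hl
  refine ⟨C, fun s hs d => ?_⟩
  obtain ⟨r, c, h1, h2⟩ := grow hL hH hs d J hJ hl
  refine ⟨r, ?_, h1⟩
  by_contra h
  have h3 := h2 (C * (d + 1) + c + 1)
  have h4 := hC d (C * (d + 1) + c + 1)
  have h5 : (C + 1) * (C * (d + 1) + c + 1) ≤ r * (C * (d + 1) + c + 1) :=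
    Nat.mul_le_mul_right _ (by omega)
  nlinarith

omit [Finite ι] in
lemma ev_add (hL : LenAPI) {J : Ideal (Pxy ι K)} {f : Pxy ι K} {m : ℕ × ℕ}
    {s : PrimeSpectrum (By ι K)} (hJ : IsHom (bw ι) J) (hf : IsWeightedHomogeneous (bw ι) f m)
    {a b : ℕ∞} (h1 : ∀ᶠ d in atTop, lenAt s (Md (J ⊔ Ideal.span {f}) d) = a)
    (h2 : ∀ᶠ d in atTop, lenAt s (Md (J.colon {f}) d) = b) :
    ∀ᶠ d in atTop, lenAt s (Md J d) = a + b := by
  obtain ⟨N₁, h1⟩ := eventually_atTop.1 h1
  obtain ⟨N₂, h2⟩ := eventually_atTop.1 h2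
  refine eventually_atTop.2 ⟨N₁ + N₂ + m.1, fun d hd => ?_⟩
  obtain ⟨k, rfl⟩ := Nat.exists_eq_add_of_le' (show m.1 ≤ d by omega)
  rw [md_add hL k s hJ (xhom hf), h1 _ (by omega), h2 _ (by omega)]

lemma ev_const (hL : LenAPI) (hH : HfAPI) {s : PrimeSpectrum (By ι K)} (hs : Crv s)
    {J : Ideal (Pxy ι K)} (hJ : IsHom (bw ι) J) (hl : Lin (bw ι) J) :
    ∃ r : ℕ, ∀ᶠ d in atTop, lenAt s (Md J d) = r := by
  have h0 : ∀ q : Ideal (Pxy ι K), (∀ i, X (Sum.inl i) ∈ q) →
      ∃ r : ℕ, ∀ᶠ d in atTop, lenAt s (Md q d) = r := fun q hq =>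
    ⟨0, eventually_atTop.2 ⟨1, fun d hd => by
      obtain ⟨k, rfl⟩ := Nat.exists_eq_add_of_le' hd
      exact md_succ_zero hL hq k s⟩⟩
  refine hH.ind _ K (bw ι) J (fun J => ∃ r : ℕ, ∀ᶠ d in atTop, lenAt s (Md J d) = r)
    (h0 ⊤ fun _ => trivial) (fun q hq hle hp => ?_) (fun J' f m hJ' _ hf h1 h2 => ?_) J hJ le_rfl
  · by_cases h : ∀ i, X (Sum.inl i) ∈ q
    · exact h0 q h
    · push Not at h
      obtain ⟨i, hi⟩ := h
      have hc : q.colon {X (Sum.inl i)} = q := le_antisymm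
        (fun g hg => (hp.mem_or_mem (Submodule.mem_colon_singleton.1 hg)).resolve_right hi)
        (le_colon q _)
      obtain ⟨C, hC⟩ := bdd hL hH hq (lin_mono hH isW_b hle hl)
      choose r hr hr' using hC s hs
      have hm : Monotone r := monotone_nat_of_le_succ fun d => by
        have h1 : lenAt s (Md q (d + 1)) = _ := md_add hL d s hq (xhom (X_hom i))
        rw [hc, hr', hr'] at h1
        exact_mod_cast (le_add_self.trans h1.ge : (r d : ℕ∞) ≤ r (d + 1))
      obtain ⟨b, N, hb⟩ := converges_of_monotone_of_bounded hm hr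
      exact ⟨b, eventually_atTop.2 ⟨N, fun d hd => by rw [hr', hb d hd]⟩⟩
  · obtain ⟨r₁, h1⟩ := h1
    obtain ⟨r₂, h2⟩ := h2
    exact ⟨r₁ + r₂, by rw [Nat.cast_add]; exact ev_add hL hJ' hf h1 h2⟩

/-- A finitely supported function with prescribed values on the curve primes. -/
lemma exists_cycle {I : Ideal (By ι K)} (Q : PrimeSpectrum (By ι K) → ℕ → Prop)
    (h1 : ∀ s, Crv s → ∃ r, Q s r)
    (h2 : ∀ s r, Crv s → Q s r → r ≠ 0 → s.asIdeal ∈ I.minimalPrimes) :
    ∃ m : PrimeSpectrum (By ι K) →₀ ℕ, (∀ s ∈ m.support, Crv s) ∧ ∀ s, Crv s → Q s (m s) := by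
  classical
  choose r hr using h1
  let g : PrimeSpectrum (By ι K) → ℕ := fun s => if h : Crv s then r s h else 0
  have hg : ∀ s, g s ≠ 0 → Crv s := fun s h => by
    by_contra h'
    exact h (dif_neg h')
  have hg' : ∀ s, Crv s → Q s (g s) := fun s h => by
    have : g s = r s h := dif_pos h
    rw [this]; exact hr s h
  have hfin : (Function.support g).Finite :=
    ((Ideal.finite_minimalPrimes_of_isNoetherianRing _ I).preimage
      (f := fun s : PrimeSpectrum (By ι K) => s.asIdeal)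
      fun _ _ _ _ h => PrimeSpectrum.ext h).subset fun s h => h2 s _ (hg s h) (hg' s (hg s h)) h
  exact ⟨Finsupp.ofSupportFinite g hfin, fun s h => hg s (Finsupp.mem_support_iff.1 h), hg'⟩

omit [Finite ι] in
lemma ext_crv {m m' : PrimeSpectrum (By ι K) →₀ ℕ} (h : ∀ s ∈ m.support, Crv s)
    (h' : ∀ s ∈ m'.support, Crv s) (e : ∀ s, Crv s → (m s : ℕ∞) = m' s) : m = m' := by
  ext s
  by_cases hs : Crv s
  · exact_mod_cast e s hs
  · rw [Finsupp.notMem_support_iff.1 fun h0 => hs (h s h0),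
      Finsupp.notMem_support_iff.1 fun h0 => hs (h' s h0)]

omit [Finite ι] in
lemma crv_add {m m' : PrimeSpectrum (By ι K) →₀ ℕ} (h : ∀ s ∈ m.support, Crv s)
    (h' : ∀ s ∈ m'.support, Crv s) : ∀ s ∈ (m + m').support, Crv s := fun s hs => by
  classical
  exact (Finset.mem_union.1 (Finsupp.support_add hs)).elim (h s) (h' s)

lemma min_of_ev (hL : LenAPI) (hH : HfAPI) {J : Ideal (Pxy ι K)} (hJ : IsHom (bw ι) J)
    (hl : Lin (bw ι) J) {s : PrimeSpectrum (By ι K)} {r : ℕ} (hs : Crv s)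
    (h : ∀ᶠ d in atTop, lenAt s (Md J d) = r) (hr : r ≠ 0) :
    s.asIdeal ∈ (J.comap (algebraMap (By ι K) (Pxy ι K))).minimalPrimes := by
  obtain ⟨d, hd⟩ := h.exists
  refine min_of_le hH hs (hH.contr ι K J hJ).1 (lin_contr hH hJ hl)
    (le_of_len hL J (Nd ι K d) s fun h0 => hr ?_)
  exact_mod_cast hd.symm.trans h0

lemma isCyc (hL : LenAPI) (hH : HfAPI) {J : Ideal (Pxy ι K)} (hJ : IsHom (bw ι) J)
    (hl : Lin (bw ι) J) : IsCyc J (cyc J) := by
  have h : ∃ m, IsCyc J m :=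
    exists_cycle (fun s r => ∀ᶠ d in atTop, lenAt s (Md J d) = r)
      (fun s hs => ev_const hL hH hs hJ hl) fun s r hs => min_of_ev hL hH hJ hl hs
  rw [cyc, dif_pos h]
  exact h.choose_spec

lemma min_of_lenB (hL : LenAPI) (hH : HfAPI) {I : Ideal (By ι K)} (hI : IsHom (yw ι) I)
    (hl : Lin (yw ι) I) {s : PrimeSpectrum (By ι K)} {r : ℕ} (hs : Crv s)
    (h : lenAt s (By ι K ⧸ I) = r) (hr : r ≠ 0) : s.asIdeal ∈ I.minimalPrimes := by
  refine min_of_le hH hs hI hl (lenB_le hL I s fun h0 => hr ?_)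
  exact_mod_cast h.symm.trans h0

lemma isCycB (hL : LenAPI) (hH : HfAPI) {I : Ideal (By ι K)} (hI : IsHom (yw ι) I)
    (hl : Lin (yw ι) I) : IsCycB I (cycB I) := by
  have h : ∃ m, IsCycB I m :=
    exists_cycle (fun s r => lenAt s (By ι K ⧸ I) = r)
      (fun s hs => (growB hL hH hs hI hl).imp fun _ h => h.choose_spec.1)
      fun s r hs => min_of_lenB hL hH hI hl hs
  rw [cycB, dif_pos h]
  exact h.choose_spec

end Main

end Cyc

open Cyc in
theorem cycAPI (hL : LenAPI) (hH : HfAPI) : CycAPI where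
  fin ι R _ _ J d := Module.Finite.of_fg ((Nd_fg d).map _)
  md_add ι K _ _ J f m d s hJ hf := Cyc.md_add hL d s hJ (xhom hf)
  bdd ι K _ _ J hJ hl := by
    obtain ⟨C, hC⟩ := Cyc.bdd hL hH hJ hl
    refine ⟨C, fun s hs d => ?_⟩
    obtain ⟨r, h1, h2⟩ := hC s hs d
    rw [h2]
    exact_mod_cast h1
  spec ι K _ _ J hJ hl := by
    have h := isCyc hL hH hJ hl
    exact ⟨h, fun s hs => min_of_ev hL hH hJ hl (h.1 s hs) (h.2 s (h.1 s hs))
      (Finsupp.mem_support_iff.1 hs)⟩
  specB ι K _ _ I hI hl := by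
    have h := isCycB hL hH hI hl
    exact ⟨h, fun s hs => min_of_lenB hL hH hI hl (h.1 s hs) (h.2 s (h.1 s hs))
      (Finsupp.mem_support_iff.1 hs)⟩
  add ι K _ _ J f m hJ hl hf := by
    have h := isCyc hL hH hJ hl
    have h1 := isCyc hL hH (hH.sup _ _ _ J f m hJ hf) (lin_mono hH isW_b le_sup_left hl)
    have h2 := isCyc hL hH (hH.colon _ _ _ J f m hJ hf) (lin_mono hH isW_b (le_colon J f) hl)
    refine ext_crv h.1 (crv_add h1.1 h2.1) fun s hs => ?_
    obtain ⟨d, e1, e2⟩ := ((h.2 s hs).and (ev_add hL hJ hf (h1.2 s hs) (h2.2 s hs))).exists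
    rw [← e1, e2, Finsupp.add_apply, Nat.cast_add]
  addB ι K _ _ I f m hI hl hf := by
    have h := isCycB hL hH hI hl
    have h1 := isCycB hL hH (hH.sup _ _ _ I f m hI hf) (lin_mono hH isW_y le_sup_left hl)
    have h2 := isCycB hL hH (hH.colon _ _ _ I f m hI hf) (lin_mono hH isW_y (le_colon I f) hl)
    refine ext_crv h.1 (crv_add h1.1 h2.1) fun s hs => ?_
    rw [← h.2 s hs, lenB_add hL I f, h1.2 s hs, h2.2 s hs, Finsupp.add_apply, Nat.cast_add]
  zero ι K _ _ J hJ hl hu := by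
    have h := isCyc hL hH hJ hl
    by_contra h0
    obtain ⟨s, hs⟩ := Finsupp.support_nonempty_iff.2 h0
    have h1 := min_of_ev hL hH hJ hl (h.1 s hs) (h.2 s (h.1 s hs)) (Finsupp.mem_support_iff.1 hs)
    refine hu fun C => ((h.1 s hs).2 C).imp fun n hn => hn.trans_le ?_
    rw [← (hH.contr ι K J hJ).2]
    exact hH.mono ι K (yw ι) _ _ _ isW_y h1.1.2

end Pool.Agent.MP_d45d16_ag.Yag

end MrgPart4

-- marker of a merged file
example : 731051 + 619819 = 731051 + 619819 := rfl
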