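import Mathlib.RingTheory.PicardGroup
import Pool.Agent.MP_d45d16_ag.yag.AmbRes

-- ======== part 0: formerly Pool.Agent.MP_d45d16_ag.yag.Herb1
section MrgPart0

/-!
Additive functions on modules and the Herbrand formula over a finite algebra.
-/

set_option autoImplicit false

open Function

namespace Pool.Agent.MP_d45d16_ag.Yag.Herb

/-- Functions on modules. -/
abbrev Fn (T : Type) [CommRing T] : Type 1 :=
  (N : Type) → [AddCommGroup N] → [Module T N] → ℕ∞

/-- Additivity on short exact sequences. -/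
structure Addv {T : Type} [CommRing T] (l : Fn T) : Prop where
  zero : ∀ (N : Type) [AddCommGroup N] [Module T N] [Subsingleton N], l N = 0
  exact : ∀ (N M Q : Type) [AddCommGroup N] [AddCommGroup M] [AddCommGroup Q] [Module T N]
    [Module T M] [Module T Q] (f : N →ₗ[T] M) (g : M →ₗ[T] Q), Injective f → Surjective g →
    Exact f g → l M = l N + l Q

/-- The `s`-torsion. -/
abbrev Kr {T : Type} [CommRing T] (s : T) (N : Type) [AddCommGroup N] [Module T N] :
    Submodule T N := LinearMap.ker (LinearMap.lsmul T N s)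

/-- The quotient by `s`. -/
abbrev Ck {T : Type} [CommRing T] (s : T) (N : Type) [AddCommGroup N] [Module T N] : Type :=
  N ⧸ LinearMap.range (LinearMap.lsmul T N s)

namespace Addv

variable {T : Type} [CommRing T] {l : Fn T} (h : Addv l)
  {A B C : Type} [AddCommGroup A] [AddCommGroup B] [AddCommGroup C] [Module T A] [Module T B]
  [Module T C]
include h

theorem equiv (e : A ≃ₗ[T] B) : l A = l B := by
  rw [h.exact A B PUnit e.toLinearMap 0 e.injective (surjective_to_subsingleton _)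
    ((e.toLinearMap.exact_zero_iff_surjective _).2 e.surjective), h.zero PUnit, add_zero]

theorem mid (f : A →ₗ[T] B) (g : B →ₗ[T] C) (he : Exact f g) :
    l B = l (LinearMap.range f) + l (LinearMap.range g) := by
  refine h.exact _ _ _ (LinearMap.range f).subtype g.rangeRestrict (Submodule.injective_subtype _)
    g.surjective_rangeRestrict fun y => ?_
  rw [← Subtype.coe_inj]
  refine (he y).trans ⟨?_, ?_⟩
  · rintro ⟨x, rfl⟩
    exact ⟨⟨f x, x, rfl⟩, rfl⟩
  · rintro ⟨⟨_, x, rfl⟩, rfl⟩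
    exact ⟨x, rfl⟩

theorem inj (f : A →ₗ[T] B) (hf : Injective f) : l (LinearMap.range f) = l A :=
  (h.equiv (LinearEquiv.ofInjective f hf)).symm

theorem surj (f : A →ₗ[T] B) (hf : Surjective f) : l (LinearMap.range f) = l B :=
  h.equiv (LinearEquiv.ofTop _ (LinearMap.range_eq_top.2 hf))

theorem coker (s : T) (g : A →ₗ[T] B) (hg : Surjective g)
    (hk : ∀ z, g z = 0 ↔ ∃ z', z = s • z') : l (Ck s A) = l B := by
  have : LinearMap.range (LinearMap.lsmul T A s) = LinearMap.ker g := by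
    ext z
    rw [LinearMap.mem_ker, hk]
    exact ⟨fun ⟨y, hy⟩ => ⟨y, hy.symm⟩, fun ⟨y, hy⟩ => ⟨y, hy.symm⟩⟩
  exact h.equiv ((Submodule.quotEquivOfEq _ _ this).trans (g.quotKerEquivOfSurjective hg))

theorem snake (s : T) (f : A →ₗ[T] B) (g : B →ₗ[T] C) (hf : Injective f) (hg : Surjective g)
    (he : Exact f g) :
    l (Kr s A) + l (Kr s C) + l (Ck s B) = l (Kr s B) + l (Ck s A) + l (Ck s C) := by
  have k1 : ∀ x ∈ Kr s A, f x ∈ Kr s B := fun x hx => by
    have : s • x = 0 := hx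
    show s • f x = 0
    rw [← map_smul, this, map_zero]
  have k2 : ∀ x ∈ Kr s B, g x ∈ Kr s C := fun x hx => by
    have : s • x = 0 := hx
    show s • g x = 0
    rw [← map_smul, this, map_zero]
  have c1 : LinearMap.range (LinearMap.lsmul T A s) ≤
      (LinearMap.range (LinearMap.lsmul T B s)).comap f := by
    rintro _ ⟨x, rfl⟩
    exact ⟨f x, (map_smul f s x).symm⟩
  have c2 : LinearMap.range (LinearMap.lsmul T B s) ≤
      (LinearMap.range (LinearMap.lsmul T C s)).comap g := by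
    rintro _ ⟨x, rfl⟩
    exact ⟨g x, (map_smul g s x).symm⟩
  have h₁ : f.comp (LinearMap.lsmul T A s) = (LinearMap.lsmul T B s).comp f := by
    ext x; simp
  have h₂ : g.comp (LinearMap.lsmul T B s) = (LinearMap.lsmul T C s).comp g := by
    ext x; simp
  have e1 : Exact (f.restrict k1) (g.restrict k2) := by
    intro y
    rw [← Subtype.coe_inj]
    refine (he y.1).trans ⟨?_, ?_⟩
    · rintro ⟨x, hx⟩
      refine ⟨⟨x, hf ?_⟩, Subtype.ext hx⟩
      have : s • y.1 = 0 := y.2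
      show f (s • x) = f 0
      rw [map_smul, hx, this, map_zero]
    · rintro ⟨x, rfl⟩
      exact ⟨x.1, rfl⟩
  have e2 := SnakeLemma.exact_δ'_right _ _ _ f g he f g he h₁ h₂ _
    (LinearMap.exact_subtype_ker_map (LinearMap.lsmul T B s)) _
    (LinearMap.exact_subtype_ker_map (LinearMap.lsmul T C s)) _
    (LinearMap.exact_map_mkQ_range (LinearMap.lsmul T A s)) hg hf (g.restrict k2) rfl
    (Submodule.injective_subtype _)
  have e3 := SnakeLemma.exact_δ'_left _ _ _ f g he f g he h₁ h₂ _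
    (LinearMap.exact_subtype_ker_map (LinearMap.lsmul T C s)) _
    (LinearMap.exact_map_mkQ_range (LinearMap.lsmul T A s)) _
    (LinearMap.exact_map_mkQ_range (LinearMap.lsmul T B s)) hg hf (Submodule.mapQ _ _ f c1) rfl
    (Submodule.mkQ_surjective _)
  have e4 : Exact (Submodule.mapQ _ _ f c1) (Submodule.mapQ _ _ g c2) := by
    intro y
    obtain ⟨y, rfl⟩ := Submodule.mkQ_surjective _ y
    constructor
    · intro hy
      obtain ⟨z, hz⟩ := (Submodule.Quotient.mk_eq_zero _).1 hy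
      obtain ⟨w, rfl⟩ := hg z
      have hz' : s • g w = g y := hz
      obtain ⟨x, hx⟩ := (he (y - s • w)).1 (by rw [map_sub, map_smul, hz', sub_self])
      refine ⟨Submodule.Quotient.mk x, (Submodule.Quotient.eq _).2 ⟨-w, ?_⟩⟩
      show s • (-w) = f x - y
      rw [hx, smul_neg]; abel
    · rintro ⟨x, hx⟩
      obtain ⟨x, rfl⟩ := Submodule.mkQ_surjective _ x
      rw [← hx]
      show Submodule.Quotient.mk (g (f x)) = 0
      rw [he.apply_apply_eq_zero]; rfl
  have i1 : Injective (f.restrict k1) := fun x y hxy =>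
    Subtype.ext (hf (congrArg Subtype.val hxy))
  have s4 : Surjective (Submodule.mapQ _ _ g c2) := by
    intro z
    obtain ⟨z, rfl⟩ := Submodule.mkQ_surjective _ z
    obtain ⟨w, rfl⟩ := hg z
    exact ⟨Submodule.Quotient.mk w, rfl⟩
  have m1 := h.mid _ _ e1
  have m2 := h.mid _ _ e2
  have m3 := h.mid _ _ e3
  have m4 := h.mid _ _ e4
  rw [h.inj _ i1] at m1
  rw [h.surj _ s4] at m4
  rw [m1, m2, m3, m4]
  ring

end Addv

/-- The length at `m` of a `T`-module viewed over `R`. -/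
noncomputable def lam {R : Type} (T : Type) [CommRing R] [CommRing T] [Algebra R T]
    (m : PrimeSpectrum R) : Fn T :=
  fun N _ _ => @lenAt R _ m N _ (Module.compHom N (algebraMap R T))

section

variable (L : LenAPI) {R T : Type} [CommRing R] [CommRing T] [Algebra R T] (m : PrimeSpectrum R)
include L

theorem len_addv : Addv (T := R) fun N _ _ => lenAt m N where
  zero N _ _ _ := (L.zero R N m).2 fun _ =>
    ⟨1, m.isPrime.one_notMem, Subsingleton.elim _ _⟩
  exact N M Q _ _ _ _ _ _ f g := L.exact R N M Q m f g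

theorem lam_addv : Addv (lam T m) where
  zero N _ _ _ := by
    let _ := Module.compHom N (algebraMap R T)
    exact (len_addv L m).zero N
  exact N M Q _ _ _ _ _ _ f g hf hg he := by
    let _ := Module.compHom N (algebraMap R T)
    let _ := Module.compHom M (algebraMap R T)
    let _ := Module.compHom Q (algebraMap R T)
    have : IsScalarTower R T N := IsScalarTower.of_compHom R T N
    have : IsScalarTower R T M := IsScalarTower.of_compHom R T M
    have : IsScalarTower R T Q := IsScalarTower.of_compHom R T Q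
    exact L.exact R N M Q m (f.restrictScalars R) (g.restrictScalars R) hf hg he

theorem lam_zero (N : Type) [AddCommGroup N] [Module T N] :
    lam T m N = 0 ↔ ∀ z : N, ∃ u ∉ m.asIdeal, algebraMap R T u • z = 0 := by
  let _ := Module.compHom N (algebraMap R T)
  exact L.zero R N m

omit L in
theorem lam_eq (N : Type) [AddCommGroup N] [Module T N] [i : Module R N] [IsScalarTower R T N] :
    lam T m N = lenAt m N := by
  have : Module.compHom N (algebraMap R T) = i :=
    Module.ext' _ _ fun r x => algebraMap_smul T r x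
  unfold lam
  rw [this]

theorem lam_fin [IsNoetherianRing R] [Module.Finite R T] (N : Type) [AddCommGroup N] [Module T N]
    [Module.Finite T N] (a : Ideal R) (ha : ∀ x ∈ a, ∀ z : N, algebraMap R T x • z = 0)
    (hq : ∀ q : PrimeSpectrum R, a ≤ q.asIdeal → q ≤ m → q = m) : lam T m N ≠ ⊤ := by
  let _ := Module.compHom N (algebraMap R T)
  have : IsScalarTower R T N := IsScalarTower.of_compHom R T N
  have : Module.Finite R N := Module.Finite.trans T N
  exact L.fin R N m a ha hq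

theorem lam_kill (N : Type) [AddCommGroup N] [Module T N] (I : Ideal T)
    (hI : ∀ x ∈ I, ∀ z : N, x • z = 0) (h : ¬ I.comap (algebraMap R T) ≤ m.asIdeal) :
    lam T m N = 0 := by
  obtain ⟨u, hu, hm⟩ := SetLike.not_le_iff_exists.1 h
  exact (lam_zero L m N).2 fun z => ⟨u, hm, hI _ hu z⟩

omit L in
theorem quot_kill {I J : Ideal T} (h : I ≤ J) : ∀ x ∈ I, ∀ z : T ⧸ J, x • z = 0 := by
  intro x hx z
  rw [Algebra.smul_def, Ideal.Quotient.algebraMap_eq, Ideal.Quotient.eq_zero_iff_mem.2 (h hx),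
    zero_mul]

theorem len_quot_zero (I : Ideal R) (h : ¬ I ≤ m.asIdeal) : lenAt m (R ⧸ I) = 0 := by
  obtain ⟨u, hu, hm⟩ := SetLike.not_le_iff_exists.1 h
  exact (L.zero R _ m).2 fun z => ⟨u, hm, quot_kill le_rfl u hu z⟩

omit L in
theorem factor_ker (I : Ideal T) (s : T) (z : T ⧸ I) :
    Submodule.factor (le_sup_left : I ≤ I ⊔ Ideal.span {s}) z = 0 ↔ ∃ z', z = s • z' := by
  obtain ⟨x, rfl⟩ := Submodule.mkQ_surjective _ z
  refine (Submodule.Quotient.mk_eq_zero _).trans ⟨fun hx => ?_, ?_⟩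
  · obtain ⟨y, hy, w, hw, rfl⟩ := Submodule.mem_sup.1 hx
    obtain ⟨c, rfl⟩ := Ideal.mem_span_singleton'.1 hw
    refine ⟨Submodule.Quotient.mk c, (Submodule.Quotient.eq _).2 ?_⟩
    simpa [mul_comm] using hy
  · rintro ⟨c, hc⟩
    obtain ⟨c, rfl⟩ := Submodule.mkQ_surjective _ c
    have : x - s • c ∈ I := (Submodule.Quotient.eq _).1 hc
    refine Submodule.mem_sup.2 ⟨_, this, s • c, ?_, by abel⟩
    exact Ideal.mul_mem_right _ _ (Ideal.mem_span_singleton_self s)

theorem herbT [IsNoetherianRing R] [Module.Finite R T] (t : R) (b : Ideal T)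
    (Ξ : Finset (PrimeSpectrum T))
    (hA : ∀ q : PrimeSpectrum R, b.comap (algebraMap R T) ≤ q.asIdeal → t ∈ q.asIdeal → q ≤ m →
      q = m)
    (hΞ : ∀ ξ ∈ Ξ, algebraMap R T t ∉ ξ.asIdeal)
    (hin : ∀ ξ : PrimeSpectrum T, b ≤ ξ.asIdeal → algebraMap R T t ∉ ξ.asIdeal →
      ξ.asIdeal.comap (algebraMap R T) ≤ m.asIdeal → ξ ∈ Ξ)
    (hC : ∀ ξ ξ' : PrimeSpectrum T, b ≤ ξ.asIdeal → ξ ≤ ξ' → algebraMap R T t ∉ ξ'.asIdeal →
      ξ'.asIdeal.comap (algebraMap R T) ≤ m.asIdeal → ξ = ξ')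
    (N : Type) [AddCommGroup N] [Module T N] [hN : Module.Finite T N] :
    (∀ x ∈ b, ∀ z : N, x • z = 0) →
      lam T m (Ck (algebraMap R T t) N) = lam T m (Kr (algebraMap R T t) N) +
        ∑ ξ ∈ Ξ, lenAt ξ N * lam T m (T ⧸ (ξ.asIdeal ⊔ Ideal.span {algebraMap R T t})) := by
  have : IsNoetherianRing T := IsNoetherianRing.of_finite R T
  set s := algebraMap R T t with hs
  have hl := lam_addv L (T := T) m
  let P : (N : Type) → [AddCommGroup N] → [Module T N] → Prop := fun N _ _ =>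
    (∀ x ∈ b, ∀ z : N, x • z = 0) → lam T m (Ck s N) = lam T m (Kr s N) +
      ∑ ξ ∈ Ξ, lenAt ξ N * lam T m (T ⧸ (ξ.asIdeal ⊔ Ideal.span {s}))
  have h0 : ∀ (N : Type) [AddCommGroup N] [Module T N] [Subsingleton N], P N := by
    intro N _ _ _ _
    rw [hl.zero, hl.zero, zero_add, Finset.sum_eq_zero]
    intro ξ _
    rw [(len_addv L ξ).zero N, zero_mul]
  have hfin : ∀ (N : Type) [AddCommGroup N] [Module T N] [Module.Finite T N],
      (∀ x ∈ b, ∀ z : N, x • z = 0) → lam T m (Kr s N) ≠ ⊤ := by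
    intro N _ _ _ hb
    refine lam_fin L m _ (b.comap (algebraMap R T) ⊔ Ideal.span {t}) ?_ fun q hq hqm =>
      hA q (le_sup_left.trans hq) (hq (Submodule.mem_sup_right (Ideal.mem_span_singleton_self t)))
        hqm
    intro x hx z
    obtain ⟨y, hy, w, hw, rfl⟩ := Submodule.mem_sup.1 hx
    obtain ⟨c, rfl⟩ := Ideal.mem_span_singleton'.1 hw
    have hz : s • z.1 = 0 := z.2
    apply Subtype.ext
    show algebraMap R T (y + c * t) • z.1 = 0
    rw [map_add, map_mul, add_smul, mul_smul, ← hs, hz, smul_zero, add_zero, hb _ hy]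
  have hex : ∀ (A B C : Type) [AddCommGroup A] [Module T A] [Module.Finite T A] [AddCommGroup B]
      [Module T B] [AddCommGroup C] [Module T C] [Module.Finite T C] (f : A →ₗ[T] B)
      (g : B →ₗ[T] C), Injective f → Surjective g → Exact f g → P A → P C → P B := by
    intro A B C _ _ _ _ _ _ _ _ f g hf hg he hPA hPC hb
    have hbA : ∀ x ∈ b, ∀ z : A, x • z = 0 := fun x hx z =>
      hf (by rw [map_smul, hb x hx, map_zero])
    have hbC : ∀ x ∈ b, ∀ z : C, x • z = 0 := fun x hx z => by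
      obtain ⟨w, rfl⟩ := hg z
      rw [← map_smul, hb x hx, map_zero]
    have hsn := hl.snake s f g hf hg he
    rw [hPA hbA, hPC hbC] at hsn
    have hne : lam T m (Kr s A) + lam T m (Kr s C) ≠ ⊤ :=
      WithTop.add_ne_top.2 ⟨hfin A hbA, hfin C hbC⟩
    have key : lam T m (Kr s A) + lam T m (Kr s C) + lam T m (Ck s B) =
        lam T m (Kr s A) + lam T m (Kr s C) + (lam T m (Kr s B) +
          ∑ ξ ∈ Ξ, lenAt ξ B * lam T m (T ⧸ (ξ.asIdeal ⊔ Ideal.span {s}))) := by
      rw [hsn]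
      simp only [fun ξ => L.exact T A B C ξ f g hf hg he, add_mul, Finset.sum_add_distrib]
      ring
    exact WithTop.add_left_cancel hne key
  have hq : ∀ ξ : PrimeSpectrum T, P (T ⧸ ξ.asIdeal) := by
    intro ξ hb
    have hbξ : b ≤ ξ.asIdeal := fun x hx => by
      have := hb x hx 1
      rwa [Algebra.smul_def, mul_one, Ideal.Quotient.algebraMap_eq,
        Ideal.Quotient.eq_zero_iff_mem] at this
    have kill := quot_kill (le_refl ξ.asIdeal)
    by_cases h1 : ξ.asIdeal.comap (algebraMap R T) ≤ m.asIdeal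
    · by_cases h2 : s ∈ ξ.asIdeal
      · rw [hl.coker s LinearMap.id surjective_id fun z =>
          ⟨fun hz => ⟨0, by rw [smul_zero]; exact hz⟩, fun ⟨y, hy⟩ => by
            rw [hy, kill s h2]; rfl⟩,
          hl.equiv (LinearEquiv.ofTop (Kr s (T ⧸ ξ.asIdeal))
            (eq_top_iff.2 fun z _ => kill s h2 z)), Finset.sum_eq_zero, add_zero]
        intro ξ' hξ'
        rw [len_quot_zero L ξ' _ fun h => hΞ ξ' hξ' (h h2), zero_mul]
      · have : Subsingleton (Kr s (T ⧸ ξ.asIdeal)) := by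
          refine ⟨fun x y => Subtype.ext ?_⟩
          have key : ∀ z : Kr s (T ⧸ ξ.asIdeal), z.1 = 0 := fun z => by
            have hz : s • z.1 = 0 := z.2
            rw [Algebra.smul_def, Ideal.Quotient.algebraMap_eq, mul_eq_zero,
              Ideal.Quotient.eq_zero_iff_mem] at hz
            exact hz.resolve_left h2
          rw [key, key]
        rw [hl.coker s _ (Submodule.factor_surjective _) (factor_ker ξ.asIdeal s), hl.zero (Kr s _),
          zero_add, Finset.sum_eq_single_of_mem ξ (hin ξ hbξ h2 h1), L.one, one_mul]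
        intro ξ' hξ' hne
        by_cases h3 : ξ.asIdeal ≤ ξ'.asIdeal
        · rw [lam_kill L m _ ξ'.asIdeal (quot_kill le_sup_left) fun h =>
            hne (hC ξ ξ' hbξ h3 (hΞ ξ' hξ') h).symm, mul_zero]
        · rw [len_quot_zero L ξ' _ h3, zero_mul]
    · rw [lam_kill L m (Ck s _) ξ.asIdeal _ h1, lam_kill L m (Kr s _) ξ.asIdeal
        (fun x hx z => Subtype.ext (kill x hx z.1)) h1, zero_add, Finset.sum_eq_zero]
      · intro ξ' _
        by_cases h3 : ξ.asIdeal ≤ ξ'.asIdeal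
        · rw [lam_kill L m _ ξ.asIdeal (quot_kill (h3.trans le_sup_left)) h1, mul_zero]
        · rw [len_quot_zero L ξ' _ h3, zero_mul]
      · intro x hx z
        obtain ⟨z, rfl⟩ := Submodule.mkQ_surjective _ z
        rw [← map_smul, kill x hx, map_zero]
  refine IsNoetherianRing.induction_on_isQuotientEquivQuotientPrime T hN
    (motive := fun N _ _ _ => P N) (fun N _ _ _ _ => h0 N) (fun N _ _ _ p e => ?_)
    fun A _ _ _ B _ _ _ C _ _ _ f g => hex A B C f g
  exact hex _ N PUnit e.symm.toLinearMap 0 e.symm.injective (surjective_to_subsingleton _)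
    ((e.symm.toLinearMap.exact_zero_iff_surjective _).2 e.symm.surjective) (hq p) (h0 PUnit)

end

end Pool.Agent.MP_d45d16_ag.Yag.Herb

end MrgPart0

-- ======== part 1: formerly Pool.Agent.MP_d45d16_ag.yag.Herb
section MrgPart1

/-!
The Herbrand formula and its application to a finite algebra.
-/

set_option autoImplicit false

open Function

namespace Pool.Agent.MP_d45d16_ag.Yag

namespace Herb

theorem krull {R : Type} [CommRing R] [IsNoetherianRing R] (q q' m : PrimeSpectrum R) (t : R)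
    (h1 : q < q') (h2 : q' < m) (ht : t ∈ m.asIdeal)
    (hA : ∀ r : PrimeSpectrum R, q ≤ r → t ∈ r.asIdeal → r ≤ m → r = m) : False := by
  have hm : m.asIdeal ∈ (q.asIdeal ⊔ Ideal.span {t}).minimalPrimes := by
    refine ⟨⟨m.isPrime, sup_le (h1.trans h2).le ((Ideal.span_singleton_le_iff_mem _).2 ht)⟩, ?_⟩
    rintro r ⟨hr, hr'⟩ hrm
    exact (congrArg PrimeSpectrum.asIdeal (hA ⟨r, hr⟩ (le_sup_left.trans hr')
      (hr' (Submodule.mem_sup_right (Ideal.mem_span_singleton_self t))) hrm)).ge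
  have hh := Ideal.map_height_le_one_of_mem_minimalPrimes hm
  have hp : ∀ r : PrimeSpectrum R, q ≤ r → (r.asIdeal.map (Ideal.Quotient.mk q.asIdeal)).IsPrime :=
    fun r hr => Ideal.map_isPrime_of_surjective Ideal.Quotient.mk_surjective
      (Ideal.mk_ker.trans_le hr)
  have hlt : ∀ r r' : PrimeSpectrum R, q ≤ r → r < r' →
      r.asIdeal.map (Ideal.Quotient.mk q.asIdeal) < r'.asIdeal.map (Ideal.Quotient.mk q.asIdeal) := by
    intro r r' hr hrr
    refine lt_of_le_of_ne (Ideal.map_mono hrr.le) fun h => hrr.not_ge ?_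
    have := congrArg (Ideal.comap (Ideal.Quotient.mk q.asIdeal)) h
    rw [Ideal.comap_map_of_surjective _ Ideal.Quotient.mk_surjective,
      Ideal.comap_map_of_surjective _ Ideal.Quotient.mk_surjective, ← RingHom.ker_eq_comap_bot,
      Ideal.mk_ker, sup_eq_left.2 (show q.asIdeal ≤ r.asIdeal from hr)] at this
    exact le_sup_left.trans this.ge
  have := hp q le_rfl
  have := hp q' h1.le
  have := hp m (h1.trans h2).le
  have a1 := Ideal.height_add_one_le_of_lt_of_isPrime (hlt q q' le_rfl h1)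
  have a2 := (Ideal.height_add_one_le_of_lt_of_isPrime (hlt q' m h1.le h2)).trans hh
  have a3 : (1 : ℕ∞) + 1 ≤ 1 := (add_le_add_left (le_add_self.trans a1) 1).trans a2
  exact absurd a3 (by decide)

theorem herb (L : LenAPI) (R M Q : Type) [CommRing R] [IsNoetherianRing R] [AddCommGroup M]
    [Module R M] [Module.Finite R M] [AddCommGroup Q] [Module R Q] (g : M →ₗ[R] Q)
    (m : PrimeSpectrum R) (t : R) (a : Ideal R) (T : Finset (PrimeSpectrum R))
    (hg : Surjective g) (hk : ∀ z, g z = 0 ↔ ∃ z', z = t • z') (ht : t ∈ m.asIdeal)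
    (ha : ∀ x ∈ a, ∀ z : M, x • z = 0)
    (hA : ∀ q : PrimeSpectrum R, a ≤ q.asIdeal → t ∈ q.asIdeal → q ≤ m → q = m)
    (hB : ∀ z : M, t • z = 0 → ∃ u ∉ m.asIdeal, u • z = 0) (hT : ∀ q ∈ T, t ∉ q.asIdeal)
    (hmin : ∀ q : PrimeSpectrum R, q.asIdeal ∈ a.minimalPrimes → t ∉ q.asIdeal → q ≤ m → q ∈ T) :
    lenAt m Q = ∑ q ∈ T, lenAt q M * lenAt m (R ⧸ (q.asIdeal ⊔ Ideal.span {t})) := by
  have hC : ∀ ξ ξ' : PrimeSpectrum R, a ≤ ξ.asIdeal → ξ ≤ ξ' → t ∉ ξ'.asIdeal → ξ' ≤ m →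
      ξ = ξ' := by
    intro ξ ξ' h1 h2 h3 h4
    by_contra hne
    exact krull ξ ξ' m t (lt_of_le_of_ne h2 hne) (lt_of_le_of_ne h4 fun h => h3 (h ▸ ht)) ht
      fun r hr => hA r (h1.trans hr)
  have key := herbT L (T := R) m t a T hA hT (fun ξ h1 h2 h3 => by
    obtain ⟨p, hp, hpξ⟩ := Ideal.exists_minimalPrimes_le h1
    have := hC ⟨p, hp.1.1⟩ ξ hp.1.2 hpξ h2 h3
    exact hmin ξ (this ▸ hp) h2 h3) hC M ha
  have hz : lam R m (Kr (algebraMap R R t) M) = 0 := (lam_zero L m _).2 fun z => by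
    obtain ⟨u, hu, hz⟩ := hB z.1 z.2
    exact ⟨u, hu, Subtype.ext hz⟩
  rw [(lam_addv L m).coker (algebraMap R R t) g hg hk, hz, zero_add, lam_eq] at key
  simp only [lam_eq] at key
  exact key

theorem dies {T : Type} [CommRing T] [IsNoetherianRing T] (s : T) (ξ η : PrimeSpectrum T)
    (h : ξ < η) (hη : ∀ z ∈ η.asIdeal, ∃ u ∉ η.asIdeal, u * z ∈ Ideal.span {s})
    (hs : s ∈ η.asIdeal) :
    s ∉ ξ.asIdeal ∧ ∀ z ∈ ξ.asIdeal, ∃ u ∉ η.asIdeal, u * z = 0 := by
  have h1 : s ∉ ξ.asIdeal := fun hsξ => h.not_ge fun z hz => by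
    obtain ⟨u, hu, huz⟩ := hη z hz
    exact (ξ.isPrime.mem_or_mem ((Ideal.span_singleton_le_iff_mem _).2 hsξ huz)).resolve_left
      fun hu' => hu (h.le hu')
  refine ⟨h1, fun z hz => ?_⟩
  let A := Localization.AtPrime η.asIdeal
  have key : ∀ n : ℕ, ∀ z ∈ ξ.asIdeal,
      algebraMap T A z ∈ IsLocalRing.maximalIdeal A ^ n := by
    intro n
    induction n with
    | zero => intro z _; simp
    | succ n ih =>
      intro z hz
      obtain ⟨u, hu, huz⟩ := hη z (h.le hz)
      obtain ⟨c, hc⟩ := Ideal.mem_span_singleton'.1 huz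
      have hcξ : c ∈ ξ.asIdeal :=
        (ξ.isPrime.mem_or_mem (hc ▸ Ideal.mul_mem_left _ u hz)).resolve_right h1
      have hun : IsUnit (algebraMap T A u) :=
        IsLocalization.map_units A (⟨u, hu⟩ : η.asIdeal.primeCompl)
      rw [← Ideal.unit_mul_mem_iff_mem _ hun, ← map_mul, ← hc, map_mul, pow_succ]
      exact Ideal.mul_mem_mul (ih c hcξ)
        ((IsLocalization.AtPrime.to_map_mem_maximal_iff A η.asIdeal s).2 hs)
  have hz0 : algebraMap T A z = 0 := by
    rw [← Ideal.mem_bot, ← Ideal.iInf_pow_eq_bot_of_isLocalRing (IsLocalRing.maximalIdeal A)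
      Ideal.IsPrime.ne_top', Ideal.mem_iInf]
    exact fun n => key n z hz
  obtain ⟨u, hu⟩ := (IsLocalization.map_eq_zero_iff η.asIdeal.primeCompl A z).1 hz0
  exact ⟨u, u.2, hu⟩

theorem dev (L : LenAPI) {R T : Type} [CommRing R] [CommRing T] [Algebra R T]
    [IsNoetherianRing T] (m : PrimeSpectrum R) (s : T) (H : Finset (PrimeSpectrum T))
    (hH : ∀ η, η ∈ H → η.asIdeal.comap (algebraMap R T) ≤ m.asIdeal)
    (h1 : ∀ ξ : PrimeSpectrum T, s ∈ ξ.asIdeal → ξ.asIdeal.comap (algebraMap R T) ≤ m.asIdeal →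
      ξ ∈ H ∧ ∀ η ∈ H, ξ ≤ η → η = ξ)
    (N : Type) [AddCommGroup N] [Module T N] [hN : Module.Finite T N] :
    (∀ z : N, s • z = 0) → lam T m N = ∑ η ∈ H, lenAt η N * lam T m (T ⧸ η.asIdeal) := by
  have hl := lam_addv L (T := T) m
  refine IsNoetherianRing.induction_on_isQuotientEquivQuotientPrime T hN
    (motive := fun N _ _ _ => (∀ z : N, s • z = 0) →
      lam T m N = ∑ η ∈ H, lenAt η N * lam T m (T ⧸ η.asIdeal))
    (fun N _ _ _ _ _ => ?_) (fun N _ _ _ ξ e hs => ?_)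
    fun A _ _ _ B _ _ _ C _ _ _ f g hf hg he hA hC hs => ?_
  · rw [hl.zero, Finset.sum_eq_zero]
    intro ξ _
    rw [(len_addv L ξ).zero N, zero_mul]
  · have hsξ : s ∈ ξ.asIdeal := by
      have := congrArg e (hs (e.symm 1))
      rwa [map_smul, e.apply_symm_apply, map_zero, Algebra.smul_def, mul_one,
        Ideal.Quotient.algebraMap_eq, Ideal.Quotient.eq_zero_iff_mem] at this
    simp only [hl.equiv e, fun η => (len_addv L η).equiv e]
    by_cases h : ξ.asIdeal.comap (algebraMap R T) ≤ m.asIdeal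
    · rw [Finset.sum_eq_single_of_mem ξ (h1 ξ hsξ h).1, L.one, one_mul]
      intro η hη hne
      rw [len_quot_zero L η _ fun h' => hne ((h1 ξ hsξ h).2 η hη h'), zero_mul]
    · rw [lam_kill L m _ ξ.asIdeal (quot_kill le_rfl) h, Finset.sum_eq_zero]
      intro η hη
      rw [len_quot_zero L η _ fun h' => h ((Ideal.comap_mono h').trans (hH η hη)), zero_mul]
  · rw [hl.exact A B C f g hf hg he, hA fun z => hf (by rw [map_smul, hs, map_zero]),
      hC fun z => by
        obtain ⟨w, rfl⟩ := hg z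
        rw [← map_smul, hs, map_zero]]
    simp only [fun ξ => L.exact T A B C ξ f g hf hg he, add_mul, Finset.sum_add_distrib]

theorem len_one (L : LenAPI) {T : Type} [CommRing T] (I : Ideal T) (η : PrimeSpectrum T)
    (hI : I ≤ η.asIdeal) (h : ∀ z ∈ η.asIdeal, ∃ u ∉ η.asIdeal, u * z ∈ I) :
    lenAt η (T ⧸ I) = 1 := by
  rw [L.exact T _ _ _ η (LinearMap.ker (Submodule.factor hI)).subtype (Submodule.factor hI)
    (Submodule.injective_subtype _) (Submodule.factor_surjective _)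
    (LinearMap.exact_subtype_ker_map _), L.one, (L.zero T _ η).2, zero_add]
  rintro ⟨z, hz⟩
  obtain ⟨z, rfl⟩ := Submodule.mkQ_surjective _ z
  obtain ⟨u, hu, huz⟩ := h z ((Submodule.Quotient.mk_eq_zero _).1 hz)
  exact ⟨u, hu, Subtype.ext ((Submodule.Quotient.mk_eq_zero _).2 huz)⟩

theorem fibre (L : LenAPI) (R T : Type) [CommRing R] [IsNoetherianRing R] [CommRing T]
    [Algebra R T] [Module.Finite R T] (m : PrimeSpectrum R) (t : R)
    (H : Finset (PrimeSpectrum T)) (ht : t ∈ m.asIdeal)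
    (hH : ∀ η, η ∈ H ↔ η.comap (algebraMap R T) = m)
    (hη : ∀ η ∈ H, (∃ ξ, ξ < η) ∧
      ∀ z ∈ η.asIdeal, ∃ u ∉ η.asIdeal, u * z ∈ Ideal.span {algebraMap R T t}) :
    (∀ ξ : PrimeSpectrum T, ξ.comap (algebraMap R T) ≤ m → algebraMap R T t ∉ ξ.asIdeal →
      IsMin ξ) ∧
    ∀ Ξ : Finset (PrimeSpectrum T), (∀ ξ ∈ Ξ, algebraMap R T t ∉ ξ.asIdeal) →
      (∀ ξ : PrimeSpectrum T, ξ.comap (algebraMap R T) ≤ m → algebraMap R T t ∉ ξ.asIdeal →
        ξ ∈ Ξ) →
      ∑ η ∈ H, lenAt m (T ⧸ η.asIdeal) =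
        ∑ ξ ∈ Ξ, lenAt (ξ.comap (algebraMap R T)) (T ⧸ ξ.asIdeal) *
          lenAt m (R ⧸ ((ξ.comap (algebraMap R T)).asIdeal ⊔ Ideal.span {t})) := by
  have : IsNoetherianRing T := IsNoetherianRing.of_finite R T
  set s := algebraMap R T t with hs
  have hsη : ∀ η ∈ H, s ∈ η.asIdeal := fun η h => by
    rw [← (hH η).1 h] at ht
    exact ht
  have up : ∀ I : Ideal T, I.comap (algebraMap R T) ≤ m.asIdeal → ∃ η ∈ H, I ≤ η.asIdeal := by
    intro I hI
    obtain ⟨Q, hQ, hQp, hQm⟩ := Ideal.exists_ideal_over_prime_of_isIntegral m.asIdeal I hI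
    exact ⟨⟨Q, hQp⟩, (hH _).2 (PrimeSpectrum.ext hQm), hQ⟩
  have hd : ∀ η ∈ H, ∀ ξ, ξ < η → s ∉ ξ.asIdeal ∧ ∀ z ∈ ξ.asIdeal, ∃ u ∉ η.asIdeal, u * z = 0 :=
    fun η h ξ hξ => dies s ξ η hξ (hη η h).2 (hsη η h)
  have hlow : ∀ ξ : PrimeSpectrum T, ξ.asIdeal.comap (algebraMap R T) ≤ m.asIdeal →
      s ∉ ξ.asIdeal → ∃ η ∈ H, ξ < η := by
    intro ξ h1 h2
    obtain ⟨η, h, hle⟩ := up _ h1
    exact ⟨η, h, lt_of_le_of_ne hle fun e => h2 (e ▸ hsη η h)⟩
  have hdie : ∀ ξ : PrimeSpectrum T, ξ.asIdeal.comap (algebraMap R T) ≤ m.asIdeal →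
      s ∉ ξ.asIdeal → ∀ z ∈ ξ.asIdeal, ∃ u ∉ ξ.asIdeal, u * z = 0 := by
    intro ξ h1 h2 z hz
    obtain ⟨η, h, hlt⟩ := hlow ξ h1 h2
    obtain ⟨u, hu, huz⟩ := (hd η h ξ hlt).2 z hz
    exact ⟨u, fun h' => hu (hlt.le h'), huz⟩
  have hmin : ∀ ξ : PrimeSpectrum T, ξ.asIdeal.comap (algebraMap R T) ≤ m.asIdeal →
      s ∉ ξ.asIdeal → IsMin ξ := by
    intro ξ h1 h2 ξ' hle z hz
    obtain ⟨u, hu, huz⟩ := hdie ξ h1 h2 z hz
    exact (ξ'.isPrime.mem_or_mem (huz ▸ ξ'.asIdeal.zero_mem)).resolve_left fun h => hu (hle h)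
  have htop : ∀ ξ : PrimeSpectrum T, s ∈ ξ.asIdeal →
      ξ.asIdeal.comap (algebraMap R T) ≤ m.asIdeal → ξ ∈ H ∧ ∀ η ∈ H, ξ ≤ η → η = ξ := by
    intro ξ h1 h2
    have k : ∀ η ∈ H, ξ ≤ η → η = ξ := fun η h hle => by
      by_contra hne
      exact (hd η h ξ (lt_of_le_of_ne hle (Ne.symm hne))).1 h1
    obtain ⟨η, h, hle⟩ := up _ h2
    exact ⟨k η h hle ▸ h, k⟩
  have hA : ∀ q : PrimeSpectrum R, (⊥ : Ideal T).comap (algebraMap R T) ≤ q.asIdeal →
      t ∈ q.asIdeal → q ≤ m → q = m := by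
    intro q h1 h2 h3
    obtain ⟨Q, -, hQp, hQm⟩ := Ideal.exists_ideal_over_prime_of_isIntegral q.asIdeal ⊥ h1
    have := (hH _).1 (htop ⟨Q, hQp⟩ (by rw [← hQm] at h2; exact h2) (hQm.le.trans h3)).1
    exact (PrimeSpectrum.ext hQm).symm.trans this
  refine ⟨hmin, fun Ξ hΞ hin => ?_⟩
  have key := herbT L m t ⊥ Ξ hA hΞ (fun ξ _ h1 h2 => hin ξ h2 h1)
    (fun ξ ξ' _ h1 h2 h3 => le_antisymm h1 (hmin ξ' h3 h2 h1)) T
    fun x hx z => by rw [Ideal.mem_bot.1 hx, zero_smul]
  have hz : lam T m (Kr s T) = 0 := (lam_zero L m _).2 fun z => by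
    by_contra hcon
    push Not at hcon
    have hz : s * z.1 = 0 := z.2
    obtain ⟨η, h, hle⟩ := up (LinearMap.ker (LinearMap.toSpanSingleton T T z.1)) fun u hu => by
      by_contra hum
      exact hcon u hum (Subtype.ext hu)
    obtain ⟨ξ, hξ⟩ := (hη η h).1
    obtain ⟨u, hu, huz⟩ := (hd η h ξ hξ).2 z.1
      ((ξ.isPrime.mem_or_mem (hz ▸ ξ.asIdeal.zero_mem)).resolve_left (hd η h ξ hξ).1)
    exact hu (hle huz)
  have hck : lam T m (Ck s T) = lam T m (T ⧸ Ideal.span {s}) :=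
    (lam_addv L m).coker s (Ideal.span {s}).mkQ (Submodule.mkQ_surjective _) fun z =>
      (Submodule.Quotient.mk_eq_zero _).trans Ideal.mem_span_singleton
  have hdev := dev L m s H (fun η h => by rw [← (hH η).1 h]; exact le_rfl) htop
    (T ⧸ Ideal.span {s}) (quot_kill le_rfl s (Ideal.mem_span_singleton_self s))
  rw [← hs, hz, zero_add, hck, hdev] at key
  refine (Finset.sum_congr rfl fun η h => ?_).trans (key.trans (Finset.sum_congr rfl fun ξ h => ?_))
  · rw [len_one L _ η ((Ideal.span_singleton_le_iff_mem _).2 (hsη η h)) (hη η h).2, one_mul,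
      lam_eq]
  by_cases h1 : ξ.asIdeal.comap (algebraMap R T) ≤ m.asIdeal
  · have e1 : lenAt ξ T = 1 := by
      rw [(len_addv L ξ).equiv (Submodule.quotEquivOfEqBot (⊥ : Ideal T) rfl).symm]
      exact len_one L ⊥ ξ bot_le (hdie ξ h1 (hΞ ξ h))
    have e2 := herb L R (T ⧸ ξ.asIdeal) (T ⧸ (ξ.asIdeal ⊔ Ideal.span {s}))
      ((Submodule.factor le_sup_left).restrictScalars R) m t
      (ξ.asIdeal.comap (algebraMap R T)) {ξ.comap (algebraMap R T)}
      (Submodule.factor_surjective le_sup_left)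
      (fun z => (factor_ker ξ.asIdeal s z).trans (by simp only [hs, algebraMap_smul])) ht
      (fun x hx z => by
        rw [← algebraMap_smul T]; exact quot_kill le_rfl (algebraMap R T x) hx z)
      (fun q hq => hA q ((Ideal.comap_mono bot_le).trans hq))
      (fun z hz => ⟨1, m.isPrime.one_notMem, by
        rw [← algebraMap_smul T, Algebra.smul_def, Ideal.Quotient.algebraMap_eq, mul_eq_zero,
          Ideal.Quotient.eq_zero_iff_mem] at hz
        rw [hz.resolve_left (hΞ ξ h), smul_zero]⟩)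
      (fun q hq => by rw [Finset.mem_singleton.1 hq]; exact hΞ ξ h)
      (fun q hq _ _ => by
        rw [Ideal.minimalPrimes_eq_subsingleton_self] at hq
        exact Finset.mem_singleton.2 (PrimeSpectrum.ext hq))
    rw [e1, one_mul, lam_eq, e2, Finset.sum_singleton]
  · rw [lam_kill L m _ ξ.asIdeal (quot_kill le_sup_left) h1, mul_zero,
      len_quot_zero L m ((ξ.comap (algebraMap R T)).asIdeal ⊔ Ideal.span {t})
        fun h' => h1 (le_sup_left.trans h'), mul_zero]

end Herb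

theorem herbAPI (L : LenAPI) : HerbAPI where
  herb R M Q _ _ _ _ _ _ _ := Herb.herb L R M Q
  fibre R T _ _ _ _ _ := Herb.fibre L R T

end Pool.Agent.MP_d45d16_ag.Yag

end MrgPart1

-- marker of a merged file
example : 731051 + 558968 = 731051 + 558968 := rfl
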