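import Mathlib.RingTheory.Artinian.Instances
import Mathlib.AlgebraicGeometry.Birational.RationalMap
import Mathlib.AlgebraicGeometry.ZariskisMainTheorem
import Pool.Agent.MP_d45d16_ag.yag.AmbRes
import Pool.Agent.MP_d45d16_ag.yag.Chart
import Pool.Agent.MP_d45d16_ag.Res
import Pool.Agent.MP_d45d16_ag.Flag
import Pool.Agent.MP_d45d16_ag.yag.Fin
import Pool.Agent.MP_d45d16_ag.yag.Ev
import Pool.Agent.MP_d45d16_ag.yag.Cyc
import Pool.Agent.MP_d45d16_ag.yag.Hf2
import Pool.Agent.MP_d45d16_ag.yag.Conic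
import Pool.Agent.MP_d45d16_ag.yag.Sp
import Pool.Agent.MP_d45d16_ag.yag.Phi
import Pool.Agent.MP_d45d16_ag.yag.Herb
import Pool.Agent.MP_d45d16_ag.yag.Alg

-- ======== part 0: formerly Pool.Agent.MP_d45d16_ag.yag.Iso
section MrgPart0

/-!
An integral smooth curve, projective over a proper scheme, is determined by its generic point.
-/

set_option autoImplicit false

open AlgebraicGeometry CategoryTheory Limits

namespace Pool.Agent.MP_d45d16_ag.Yag

namespace Iso

/-- The empty curve. -/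
noncomputable def emp {X S : Scheme.{0}} (s : X ⟶ S) : Curve s where
  Y := ∅
  f := Scheme.emptyTo X
  smooth := ⟨fun x => isEmptyElim x⟩
  proj := ⟨0, Scheme.emptyTo _, inferInstance⟩

theorem union {X S : Scheme.{0}} {s : X ⟶ S} {C A B : Curve s} (h : IsUnion C A B) :
    cls C = cls A + cls B := by
  have h1 : FreeAbelianGroup.of C - FreeAbelianGroup.of A - FreeAbelianGroup.of B ∈
      AddSubgroup.closure (rels s) := AddSubgroup.subset_closure (Or.inl ⟨C, A, B, h, rfl⟩)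
  have h2 := (QuotientAddGroup.eq_zero_iff _).2 h1
  rw [QuotientAddGroup.mk_sub, QuotientAddGroup.mk_sub, sub_sub, sub_eq_zero] at h2
  exact h2

theorem step {X S : Scheme.{0}} {s : X ⟶ S} (C C' : Curve s) (e : C.Y ≅ C'.Y)
    (he : e.hom ≫ C'.f = C.f) : cls C' = cls C + cls (emp s) :=
  union ⟨e.hom, Scheme.emptyTo _, he, Scheme.empty_ext _ _,
    (BinaryCofan.isColimit_iff_isIso_inl emptyIsInitial _).2 (inferInstanceAs (IsIso e.hom))⟩

theorem iso {X S : Scheme.{0}} {s : X ⟶ S} (C C' : Curve s) (e : C.Y ≅ C'.Y)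
    (he : e.hom ≫ C'.f = C.f) : cls C = cls C' :=
  (step C C (CategoryTheory.Iso.refl _) (Category.id_comp _)).trans (step C C' e he).symm

/-- A generic point identifies the field with the function field. -/
theorem gen_iso {T : Type} [Field T] {Y : Scheme.{0}} [IsIntegral Y]
    (j : Spec (CommRingCat.of T) ⟶ Y) (h : IsGen j) :
    ∃ φ : Y.functionField ⟶ CommRingCat.of T, IsIso φ ∧
      Spec.map φ ≫ Y.fromSpecStalk (genericPoint Y) = j := by
  obtain ⟨h1, h2⟩ := h
  have hr : Set.range j = {j (IsLocalRing.closedPoint T)} := by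
    ext y
    constructor
    · rintro ⟨z, rfl⟩
      have : z = IsLocalRing.closedPoint T := Subsingleton.elim (α := PrimeSpectrum T) _ _
      rw [this]
      rfl
    · rintro rfl
      exact ⟨_, rfl⟩
  have hg : IsGenericPoint (j (IsLocalRing.closedPoint T)) Set.univ := by
    have := j.denseRange.closure_range
    rw [hr] at this
    exact this
  have he : genericPoint Y = j (IsLocalRing.closedPoint T) := (genericPoint_spec Y).eq hg
  have hs : j (IsLocalRing.closedPoint T) ⤳ genericPoint Y := specializes_of_eq he.symm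
  refine ⟨Y.presheaf.stalkSpecializes hs ≫ Scheme.stalkClosedPointTo j, ?_, ?_⟩
  · have hb : Function.Bijective
        (Y.presheaf.stalkSpecializes hs ≫ Scheme.stalkClosedPointTo j).hom := by
      refine ⟨RingHom.injective _, ?_⟩
      have a1 : Function.Surjective (Y.presheaf.stalkSpecializes hs).hom :=
        (ConcreteCategory.bijective_of_isIso
          (Y.presheaf.stalkCongr (Inseparable.of_eq he)).hom).2
      have a2 : Function.Surjective (Scheme.stalkClosedPointTo j).hom :=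
        (ConcreteCategory.bijective_of_isIso
          (stalkClosedPointIso (CommRingCat.of T)).hom).2.comp (j.stalkMap_surjective _)
      exact a2.comp a1
    exact (ConcreteCategory.isIso_iff_bijective _).2 hb
  · rw [Spec.map_comp, Category.assoc, Scheme.SpecMap_stalkSpecializes_fromSpecStalk,
      Scheme.Spec_stalkClosedPointTo_fromSpecStalk]

theorem lift {R K : CommRingCat.{0}} {Y' X : Scheme.{0}} (f' : Y' ⟶ X) [IsProper f'] (ψ : R ⟶ K)
    [IsDomain R] [ValuationRing R] (hK : IsField K)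
    (hf : @IsFractionRing R _ K _ ψ.hom.toAlgebra) (i₁ : Spec K ⟶ Y') (i₂ : Spec R ⟶ X)
    (w : i₁ ≫ f' = Spec.map ψ ≫ i₂) : ∃ l : Spec R ⟶ Y', Spec.map ψ ≫ l = i₁ ∧ l ≫ f' = i₂ := by
  have hE : ValuativeCriterion.Existence f' := by
    have : UniversallyClosed f' := inferInstance
    rw [UniversallyClosed.eq_valuativeCriterion] at this
    exact this.1
  obtain ⟨l, hl₁, hl₂⟩ := (hE
    { R := R
      K := K
      field := hK.toField
      algebra := ψ.hom.toAlgebra
      isFractionRing := hf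
      i₁ := i₁
      i₂ := i₂
      commSq := ⟨w⟩ }).exists_lift
  exact ⟨l, hl₁, hl₂⟩

/-- A point of a proper scheme with values in the function field extends. -/
theorem extend {Y Y' X : Scheme.{0}} [IsIntegral Y] [Y'.IsSeparated] (f : Y ⟶ X) (f' : Y' ⟶ X)
    [IsProper f'] (hv : ∀ y : Y, ValuationRing (Y.presheaf.stalk y))
    (φ : Spec Y.functionField ⟶ Y') (h : φ ≫ f' = Y.fromSpecStalk (genericPoint Y) ≫ f) :
    ∃ g : Y ⟶ Y', Y.fromSpecStalk (genericPoint Y) ≫ g = φ := by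
  let r := Scheme.RationalMap.ofFunctionField f f' φ h
  have hr : r.fromFunctionField = φ := Scheme.RationalMap.fromFunctionField_ofFunctionField _ _ _ _
  have hd : r.domain = ⊤ := by
    refine eq_top_iff.2 fun x _ => ?_
    have := hv x
    have hs : genericPoint Y ⤳ x := (genericPoint_spec Y).specializes trivial
    have w : φ ≫ f' = Spec.map (Y.presheaf.stalkSpecializes hs) ≫ Y.fromSpecStalk x ≫ f := by
      rw [h, Scheme.SpecMap_stalkSpecializes_fromSpecStalk_assoc]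
    obtain ⟨l, hl₁', hl₂'⟩ := lift f' (Y.presheaf.stalkSpecializes hs)
      (Field.toIsField Y.functionField)
      (inferInstanceAs (IsFractionRing (Y.presheaf.stalk x) Y.functionField)) φ _ w
    refine Scheme.RationalMap.mem_domain.2 ⟨Scheme.PartialMap.ofFromSpecStalk f f' l hl₂',
      Scheme.PartialMap.mem_domain_ofFromSpecStalk f f' l hl₂', ?_⟩
    refine Scheme.RationalMap.eq_of_fromFunctionField_eq _ _ ?_
    rw [hr, Scheme.RationalMap.fromFunctionField_toRationalMap, ← hl₁']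
    conv_rhs => rw [← Scheme.PartialMap.fromSpecStalkOfMem_ofFromSpecStalk f f' l hl₂']
    unfold Scheme.PartialMap.fromFunctionField Scheme.PartialMap.fromSpecStalkOfMem
    rw [← Category.assoc]
    congr 1
    rw [← cancel_mono (Scheme.Opens.ι _), Category.assoc, Scheme.Opens.fromSpecStalkOfMem_ι,
      Scheme.Opens.fromSpecStalkOfMem_ι, Scheme.SpecMap_stalkSpecializes_fromSpecStalk]
  let g := r.toPartialMap
  have hg : g.fromFunctionField = φ := by
    rw [← Scheme.RationalMap.fromFunctionField_toRationalMap,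
      Scheme.RationalMap.toRationalMap_toPartialMap, hr]
  have hgd : g.domain = ⊤ := hd
  have hi : IsIso g.domain.ι := by
    rw [hgd]
    exact inferInstanceAs (IsIso Y.topIso.hom)
  refine ⟨inv g.domain.ι ≫ g.hom, ?_⟩
  rw [← hg]
  unfold Scheme.PartialMap.fromFunctionField Scheme.PartialMap.fromSpecStalkOfMem
  rw [← Category.assoc]
  congr 1
  rw [IsIso.comp_inv_eq, Scheme.Opens.fromSpecStalkOfMem_ι]

theorem sep {Y X : Scheme.{0}} (f : Y ⟶ X) [IsSeparated f] [X.IsSeparated] : Y.IsSeparated :=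
  ⟨by rw [← terminal.comp_from f]; infer_instance⟩

theorem hom (hJ : ProjAPI) (hS : SmAPI) {k T : Type} [Field k] [Field T] {X : Scheme.{0}}
    {s : X ⟶ Spec (CommRingCat.of k)} [IsProper s] (C C' : Curve s) [IsIntegral C.Y]
    (j : Spec (CommRingCat.of T) ⟶ C.Y) (j' : Spec (CommRingCat.of T) ⟶ C'.Y) (hj : IsGen j)
    (h : j' ≫ C'.f = j ≫ C.f) : ∃ g : C.Y ⟶ C'.Y, j ≫ g = j' := by
  obtain ⟨φ, hφ, he⟩ := gen_iso j hj
  have := hJ.proper _ _ _ C'.proj
  have : X.IsSeparated := sep s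
  have : C'.Y.IsSeparated := sep C'.f
  obtain ⟨g, hg⟩ := extend C.f C'.f (fun y => hS.val k C.Y (C.f ≫ s) y C.smooth)
    (inv (Spec.map φ) ≫ j') (by rw [Category.assoc, h, ← he]; simp)
  exact ⟨g, by rw [← he, Category.assoc, hg]; simp⟩

theorem rep (hJ : ProjAPI) (hS : SmAPI) {k T : Type} [Field k] [Field T] {X : Scheme.{0}}
    {s : X ⟶ Spec (CommRingCat.of k)} (C C' : Curve s) (γ : Spec (CommRingCat.of T) ⟶ X)
    (hs : IsProper s) (h : Rep C γ) (h' : Rep C' γ) : cls C = cls C' := by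
  obtain ⟨_, j, hj, e⟩ := h
  obtain ⟨_, j', hj', e'⟩ := h'
  obtain ⟨g, hg⟩ := hom hJ hS C C' j j' hj (e'.trans e.symm)
  obtain ⟨g', hg'⟩ := hom hJ hS C' C j' j hj' (e.trans e'.symm)
  have := hJ.proper _ _ _ C.proj
  have := hJ.proper _ _ _ C'.proj
  have : X.IsSeparated := sep s
  have : C.Y.IsSeparated := sep C.f
  have : C'.Y.IsSeparated := sep C'.f
  have := hj.1
  have := hj'.1
  refine iso C C' ⟨g, g', ext_of_isDominant j ?_, ext_of_isDominant j' ?_⟩ (ext_of_isDominant j ?_)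
  · rw [← Category.assoc, hg, hg', Category.comp_id]
  · rw [← Category.assoc, hg', hg, Category.comp_id]
  · change j ≫ g ≫ C'.f = _
    rw [← Category.assoc, hg, e', e]

end Iso

theorem isoAPI (hP : PtAPI) (hJ : ProjAPI) (hS : SmAPI) : IsoAPI where
  iso := fun _ _ _ C C' e he => Iso.iso C C' e he
  rep := fun _ _ _ _ _ _ C C' γ hs h h' => Iso.rep hJ hS C C' γ hs h h'
  uniq := by
    rintro F k ι _ _ _ M a b a' b' l m x x' ha hb ⟨C, γ, hC, ⟨h1, ha1, hb1, h2, h3⟩, rfl⟩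
      ⟨C', γ', hC', ⟨h1', ha1', hb1', h2', h3'⟩, rfl⟩
    have e : γ = γ' := M.ext _ γ γ' (h1.trans h1'.symm)
      (by rw [h2, h2', hP.scale _ _ _ _ a a' ha1 ha1' l ha])
      (by rw [h3, h3', hP.scale _ _ _ _ b b' hb1 hb1' m hb])
    exact Iso.rep hJ hS C C' γ M.proper hC (e ▸ hC')

end Pool.Agent.MP_d45d16_ag.Yag

end MrgPart0

-- ======== part 1: formerly Pool.Agent.MP_d45d16_ag.yag.Psi1
section MrgPart1

/-!
Springer's theorem for diagonal forms.
-/

set_option autoImplicit false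

open Polynomial

namespace Pool.Agent.MP_d45d16_ag.Yag.Psi

theorem exists_odd_factor {κ : Type} [Field κ] (h : κ[X]) (h0 : h ≠ 0) (ho : Odd h.natDegree) :
    ∃ q : κ[X], Irreducible q ∧ q ∣ h ∧ Odd q.natDegree := by
  induction h using WfDvdMonoid.induction_on_irreducible with
  | zero => exact absurd rfl h0
  | unit u hu =>
    rw [natDegree_eq_zero_of_isUnit hu] at ho
    exact absurd ho (by decide)
  | mul a i ha hi ih =>
    rw [natDegree_mul hi.ne_zero ha] at ho
    by_cases hio : Odd i.natDegree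
    · exact ⟨i, hi, dvd_mul_right _ _, hio⟩
    · have hao : Odd a.natDegree := by
        rw [Nat.not_odd_iff_even] at hio
        exact (Nat.odd_add'.mp ho).mpr hio
      obtain ⟨q, hq, hqa, hqo⟩ := ih ha hao
      exact ⟨q, hq, hqa.mul_left _, hqo⟩

theorem form_coeff {κ τ : Type} [Field κ] [Fintype τ] (α : τ → κ) (g : τ → κ[X]) (d : ℕ)
    (hg : ∀ j, (g j).natDegree ≤ d) :
    (∑ j, C (α j) * g j ^ 2).natDegree ≤ 2 * d ∧
      (∑ j, C (α j) * g j ^ 2).coeff (2 * d) = ∑ j, α j * (g j).coeff d ^ 2 := by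
  constructor
  · refine natDegree_sum_le_of_forall_le _ _ fun j _ => ?_
    refine (natDegree_C_mul_le _ _).trans ?_
    exact natDegree_pow_le.trans (Nat.mul_le_mul_left 2 (hg j))
  · rw [finsetSum_coeff]
    refine Finset.sum_congr rfl fun j _ => ?_
    rw [coeff_C_mul, coeff_pow_of_natDegree_le (hg j)]

theorem springer_poly {κ τ : Type} [Field κ] [Fintype τ] (α : τ → κ)
    (hα : ∀ y : τ → κ, ∑ j, α j * y j ^ 2 = 0 → y = 0) (n : ℕ) :
    ∀ p : κ[X], Irreducible p → p.natDegree = n → Odd n → ∀ d : ℕ, d < n →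
      ∀ g : τ → κ[X], (∀ j, (g j).natDegree ≤ d) → p ∣ ∑ j, C (α j) * g j ^ 2 → g = 0 := by
  induction n using Nat.strong_induction_on with
  | _ n ihn =>
  intro p hp hpn hn d
  induction d using Nat.strong_induction_on with
  | _ d ihd =>
  intro hdn g hg hdvd
  by_cases hc : ∀ j, (g j).coeff d = 0
  · rcases Nat.eq_zero_or_pos d with rfl | hd
    · funext j
      rw [eq_C_of_natDegree_le_zero (hg j), hc j, map_zero]
      rfl
    · refine ihd (d - 1) (by omega) (by omega) g (fun j => ?_) hdvd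
      rcases (hg j).lt_or_eq with h | h
      · omega
      · have : g j = 0 := by
          rw [← leadingCoeff_eq_zero, leadingCoeff, h]
          exact hc j
        rw [this, natDegree_zero]
        exact Nat.zero_le _
  · obtain ⟨h1, h2⟩ := form_coeff α g d hg
    have hne : (∑ j, C (α j) * g j ^ 2).coeff (2 * d) ≠ 0 := by
      rw [h2]
      intro h0
      exact hc fun j => congrFun (hα _ h0) j
    have hdeg : (∑ j, C (α j) * g j ^ 2).natDegree = 2 * d :=
      le_antisymm h1 (le_natDegree_of_ne_zero hne)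
    have hF0 : (∑ j, C (α j) * g j ^ 2) ≠ 0 := fun h => hne (by rw [h, coeff_zero])
    obtain ⟨h, hh⟩ := hdvd
    have hh0 : h ≠ 0 := fun h0 => hF0 (by rw [hh, h0, mul_zero])
    have hsum : n + h.natDegree = 2 * d := by
      rw [← hdeg, hh, natDegree_mul hp.ne_zero hh0, hpn]
    have hho : Odd h.natDegree := by
      obtain ⟨k, hk⟩ := hn
      exact ⟨d - k - 1, by omega⟩
    obtain ⟨q, hq, hqh, hqo⟩ := exists_odd_factor h hh0 hho
    have hqle : q.natDegree ≤ h.natDegree := natDegree_le_of_dvd hqh hh0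
    have hqpos : 0 < q.natDegree := hqo.pos
    have hqF : q ∣ ∑ j, C (α j) * g j ^ 2 := by
      rw [hh]
      exact hqh.mul_left _
    have hmod : (fun j => g j % q) = 0 := by
      refine ihn q.natDegree (by omega) q hq rfl hqo (q.natDegree - 1) (by omega) _
        (fun j => ?_) ?_
      · have := natDegree_mod_lt (g j) (q := q) (by omega)
        omega
      · have hd : q ∣ (∑ j, C (α j) * g j ^ 2) - ∑ j, C (α j) * (g j % q) ^ 2 := by
          rw [← Finset.sum_sub_distrib]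
          refine Finset.dvd_sum fun j _ => ?_
          rw [← mul_sub, sq_sub_sq]
          refine (Dvd.dvd.mul_left ?_ _).mul_left _
          refine ⟨g j / q, ?_⟩
          have := EuclideanDomain.div_add_mod (g j) q
          linear_combination -this
        have := hqF.sub hd
        rwa [sub_sub_cancel] at this
    have hqg : ∀ j, g j = q * (g j / q) := fun j => by
      have h1 := EuclideanDomain.div_add_mod (g j) q
      have h2 : g j % q = 0 := congrFun hmod j
      rw [h2, add_zero] at h1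
      exact h1.symm
    have hd : 0 < d := by omega
    have hz : (fun j => g j / q) = 0 := by
      refine ihd (d - 1) (by omega) (by omega) _ (fun j => ?_) ?_
      · by_cases h0 : g j / q = 0
        · rw [h0, natDegree_zero]
          exact Nat.zero_le _
        · have h3 := hg j
          rw [hqg j, natDegree_mul hq.ne_zero h0] at h3
          omega
      · have hF : (∑ j, C (α j) * g j ^ 2) = q ^ 2 * ∑ j, C (α j) * (g j / q) ^ 2 := by
          rw [Finset.mul_sum]
          refine Finset.sum_congr rfl fun j _ => ?_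
          conv_lhs => rw [hqg j]
          ring
        have hpd : p ∣ q ^ 2 * ∑ j, C (α j) * (g j / q) ^ 2 := ⟨h, by rw [← hF, hh]⟩
        refine (hp.prime.dvd_or_dvd hpd).resolve_left fun h4 => ?_
        have := natDegree_le_of_dvd (hp.prime.dvd_of_dvd_pow h4) hq.ne_zero
        omega
    funext j
    have h5 : g j / q = 0 := congrFun hz j
    rw [hqg j, h5, mul_zero]
    rfl

end Pool.Agent.MP_d45d16_ag.Yag.Psi

namespace Pool.Agent.MP_d45d16_ag.Yag

theorem spr_stmt : SprStmt := by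
  intro κ τ _ _ _ α hα E _ _ _ y hy h0
  by_contra hodd
  rw [Nat.not_even_iff_odd] at hodd
  let pb := Field.powerBasisOfFiniteOfSeparable κ E
  choose g hg hgy using fun j => pb.exists_eq_aeval (y j)
  have hn : (minpoly κ pb.gen).natDegree = Module.finrank κ E := by
    rw [pb.natDegree_minpoly, pb.finrank]
  have hpos : 0 < Module.finrank κ E := hodd.pos
  have hz : g = 0 := by
    refine Psi.springer_poly α hα _ (minpoly κ pb.gen) (minpoly.irreducible pb.isIntegral_gen) hn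
      hodd (Module.finrank κ E - 1) (by omega) g (fun j => ?_) ?_
    · have := hg j
      rw [← pb.finrank] at this
      omega
    · refine minpoly.dvd κ pb.gen ?_
      rw [map_sum, ← h0]
      refine Finset.sum_congr rfl fun j _ => ?_
      rw [map_mul, map_pow, aeval_C, ← hgy j]
  apply hy
  funext j
  rw [hgy j, hz]
  simp

end Pool.Agent.MP_d45d16_ag.Yag

end MrgPart1

-- ======== part 2: formerly Pool.Agent.MP_d45d16_ag.yag.Psi
section MrgPart2

/-!
The parity of the Hilbert function is additive on cycles.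
-/

set_option autoImplicit false

open MvPolynomial Filter

namespace Pool.Agent.MP_d45d16_ag.Yag.Psi

theorem isW_yw (ι : Type) : IsW (yw ι) := fun _ => Or.inr rfl

variable {ι κ : Type} [Finite ι] [Field κ]

omit [Finite ι] in
theorem par_eq {I : Ideal (By ι κ)} {a : ZMod 2}
    (h : ∀ᶠ n in atTop, (hf (yw ι) I (0, n) : ZMod 2) = a) : par I = a := by
  unfold par
  split_ifs with ho
  · obtain ⟨n, h1, h2⟩ := (h.and ho).exists
    rw [← h1]
    exact (ZMod.natCast_eq_one_iff_odd.mpr h2).symm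
  · have ha : ∀ b : ZMod 2, b = 0 ∨ b = 1 := by decide
    rcases ha a with rfl | rfl
    · rfl
    · exact absurd (h.mono fun n hn => ZMod.natCast_eq_one_iff_odd.mp hn) ho

theorem lin_mono (hH : HfAPI) {I J : Ideal (By ι κ)} (hI : Lin (yw ι) I) (h : I ≤ J) :
    Lin (yw ι) J := by
  obtain ⟨C, hC⟩ := hI
  exact ⟨C, fun d n => (hH.mono _ _ _ _ _ _ (isW_yw ι) h).trans (hC d n)⟩

theorem hf_top (hH : HfAPI) (k : ℕ × ℕ) : hf (yw ι) (⊤ : Ideal (By ι κ)) k = 0 :=
  (hH.zero _ _ _ _ _ (isW_yw ι)).mpr fun _ _ => Submodule.mem_top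

theorem ev_step (hH : HfAPI) {J : Ideal (By ι κ)} {f : By ι κ} {e : ℕ} (hJ : IsHom (yw ι) J)
    (hf' : IsWeightedHomogeneous (yw ι) f (0, e)) {a b : ZMod 2}
    (ha : ∀ᶠ n in atTop, (hf (yw ι) (J ⊔ Ideal.span {f}) (0, n) : ZMod 2) = a)
    (hb : ∀ᶠ n in atTop, (hf (yw ι) (J.colon {f}) (0, n) : ZMod 2) = b) :
    ∀ᶠ n in atTop, (hf (yw ι) J (0, n) : ZMod 2) = a + b := by
  obtain ⟨N, hN⟩ := eventually_atTop.mp hb
  filter_upwards [ha, eventually_ge_atTop (N + e)] with n h1 h2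
  obtain ⟨k, rfl⟩ : ∃ k, n = k + e := ⟨n - e, by omega⟩
  have := hH.add _ _ _ J f (0, e) (0, k) (isW_yw ι) hJ hf'
  rw [show ((0, k) + (0, e) : ℕ × ℕ) = (0, k + e) from rfl] at this
  rw [this, Nat.cast_add, h1, hN k (by omega)]

theorem prime_bdd {A : Type} [Group A] (hH : HfAPI) (S : Setup A ι κ) (q : Ideal (By ι κ))
    (hq : IsHom (yw ι) q) (hp : q.IsPrime) (he : ∀ e ∈ S.eqs, e ∈ q) (hb : ¬ Unb (yw ι) q) :
    ∀ᶠ n in atTop, (hf (yw ι) q (0, n) : ZMod 2) = 0 := by
  by_cases hX : ∀ j, X j ∈ q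
  · filter_upwards [eventually_ge_atTop 1] with n hn
    rw [(hH.zero _ _ _ q (0, n) (isW_yw ι)).mpr fun f hf' => ?_, Nat.cast_zero]
    have hle : Ideal.span (X '' Set.univ) ≤ q := by
      rw [Ideal.span_le]
      rintro _ ⟨j, _, rfl⟩
      exact hX j
    refine hle (mem_ideal_span_X_image.mpr fun d hd => ?_)
    have h1 := hf' (mem_support_iff.mp hd)
    rw [weight_yw] at h1
    have h2 : d.degree = n := congrArg Prod.snd h1
    by_contra h3
    push Not at h3
    have : d = 0 := Finsupp.ext fun j => h3 j (Set.mem_univ j)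
    rw [this, map_zero] at h2
    omega
  · push Not at hX
    obtain ⟨j, hj⟩ := hX
    exact (point_even S q hq he hb j hj).mono fun n hn => ZMod.natCast_eq_zero_iff_even.mpr hn

theorem no_crv {A : Type} [Group A] (hH : HfAPI) (S : Setup A ι κ) (I : Ideal (By ι κ))
    (hI : IsHom (yw ι) I) (he : ∀ e ∈ S.eqs, e ∈ I)
    (hb : ∀ q : Ideal (By ι κ), IsHom (yw ι) q → q.IsPrime → I ≤ q → ¬ Unb (yw ι) q) :
    ∀ᶠ n in atTop, (hf (yw ι) I (0, n) : ZMod 2) = 0 := by
  refine hH.ind _ _ (yw ι) I (fun J => ∀ᶠ n in atTop, (hf (yw ι) J (0, n) : ZMod 2) = 0) ?_ ?_ ?_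
    I hI le_rfl
  · exact Eventually.of_forall fun n => by rw [hf_top hH, Nat.cast_zero]
  · exact fun q hq hIq hp => prime_bdd hH S q hq hp (fun e h => hIq (he e h)) (hb q hq hp hIq)
  · rintro J f ⟨d, e⟩ hJ _ hf' h1 h2
    rcases eq_or_ne d 0 with rfl | hd
    · simpa using ev_step hH hJ hf' h1 h2
    · rw [hom_zero hf' hd] at h1
      simpa using h1

theorem prime_unb {A : Type} [Group A] (hH : HfAPI) (S : Setup A ι κ) (q : Ideal (By ι κ))
    (hq : IsHom (yw ι) q) (hp : q.IsPrime) (hl : Lin (yw ι) q) (he : ∀ e ∈ S.eqs, e ∈ q)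
    (hu : Unb (yw ι) q) : ∃ a : ZMod 2, ∀ᶠ n in atTop, (hf (yw ι) q (0, n) : ZMod 2) = a := by
  obtain ⟨f, hf', hfq⟩ : ∃ f, IsWeightedHomogeneous (yw ι) f (0, 1) ∧ f ∉ q := by
    by_contra h
    push Not at h
    have h1 := (hH.zero _ _ _ q (0, 1) (isW_yw ι)).mpr h
    have h2 := hH.grow _ _ _ q 1 (isW_yw ι) hq hp hu
    omega
  have hcol : q.colon {f} = q := by
    ext g
    rw [Submodule.mem_colon_singleton, smul_eq_mul]
    exact ⟨fun h => (hp.mem_or_mem h).resolve_right hfq, fun h => q.mul_mem_right _ h⟩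
  have h0 := no_crv hH S (q ⊔ Ideal.span {f}) (hH.sup _ _ _ q f _ hq hf')
    (fun e h => Ideal.mem_sup_left (he e h)) fun s hs hsp hle hsu => by
      have := hH.rigid _ _ _ s q (isW_yw ι) hs hq hsp hp (le_sup_left.trans hle) hl hsu
        (Or.inr fun _ => rfl)
      exact hfq (this ▸ hle (Ideal.mem_sup_right (Ideal.mem_span_singleton_self f)))
  obtain ⟨N, hN⟩ := eventually_atTop.mp h0
  refine ⟨hf (yw ι) q (0, N), eventually_atTop.mpr ⟨N, fun n hn => ?_⟩⟩
  induction n, hn using Nat.le_induction with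
  | base => rfl
  | succ n hn ih =>
    have := hH.add _ _ _ q f (0, 1) (0, n) (isW_yw ι) hq hf'
    rw [show ((0, n) + (0, 1) : ℕ × ℕ) = (0, n + 1) from rfl, hcol] at this
    rw [this, Nat.cast_add, hN (n + 1) (by omega), zero_add, ih]

theorem cycB_prime (hC : CycAPI) (q : PrimeSpectrum (By ι κ)) (hq : IsHom (yw ι) q.asIdeal)
    (hl : Lin (yw ι) q.asIdeal) : (cycB q.asIdeal).support ⊆ {q} := by
  intro s hs
  have := (hC.specB _ _ _ hq hl).2 s hs
  rw [Ideal.minimalPrimes_eq_subsingleton_self] at this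
  exact Finset.mem_singleton.mpr (PrimeSpectrum.ext this)

end Pool.Agent.MP_d45d16_ag.Yag.Psi

namespace Pool.Agent.MP_d45d16_ag.Yag

open Psi

theorem psi_stmt (hL : LenAPI) (hH : HfAPI) (hC : CycAPI) : PsiStmt := by
  intro A ι κ _ _ _ S I hI hl he
  refine hH.ind _ _ (yw ι) I (fun J => (∀ᶠ n in atTop, (hf (yw ι) J (0, n) : ZMod 2) = par J) ∧
    par J = (cycB J).sum fun s n => (n : ZMod 2) * par s.asIdeal) ?_ ?_ ?_ I hI le_rfl
  · have h0 : ∀ᶠ n in atTop, (hf (yw ι) (⊤ : Ideal (By ι κ)) (0, n) : ZMod 2) = 0 :=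
      Eventually.of_forall fun n => by rw [hf_top hH, Nat.cast_zero]
    have h1 : cycB (⊤ : Ideal (By ι κ)) = 0 := by
      rw [← Finsupp.support_eq_empty, Finset.eq_empty_iff_forall_notMem]
      intro s hs
      have := (hC.specB ι κ ⊤ (fun _ _ _ => Submodule.mem_top) (lin_mono hH hl le_top)).2 s hs
      rw [Ideal.minimalPrimes_top] at this
      exact this
    rw [par_eq h0, h1, Finsupp.sum_zero_index]
    exact ⟨h0, rfl⟩
  · intro q hq hIq hp
    have hlq := lin_mono hH hl hIq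
    have heq : ∀ e ∈ S.eqs, e ∈ q := fun e h => hIq (he e h)
    have hsub := cycB_prime hC ⟨q, hp⟩ hq hlq
    have hspec := (hC.specB ι κ q hq hlq).1
    have hsum : ((cycB q).sum fun s n => (n : ZMod 2) * par s.asIdeal) =
        (cycB q ⟨q, hp⟩ : ZMod 2) * par q := by
      rw [Finsupp.sum_of_support_subset _ hsub _ (fun _ _ => by simp), Finset.sum_singleton]
    rw [hsum]
    by_cases hu : Unb (yw ι) q
    · obtain ⟨a, ha⟩ := prime_unb hH S q hq hp hlq heq hu
      have h1 : cycB q ⟨q, hp⟩ = 1 := by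
        have h2 := hspec.2 ⟨q, hp⟩ ⟨hq, hu⟩
        rw [hL.one _ ⟨q, hp⟩] at h2
        exact_mod_cast h2.symm
      rw [h1, par_eq ha, Nat.cast_one, one_mul]
      exact ⟨ha, rfl⟩
    · have h0 := prime_bdd hH S q hq hp heq hu
      rw [par_eq h0, mul_zero]
      exact ⟨h0, rfl⟩
  · rintro J f ⟨d, e⟩ hJ hIJ hf' h1 h2
    rcases eq_or_ne d 0 with rfl | hd
    · have h3 := ev_step hH hJ hf' h1.1 h2.1
      rw [par_eq h3, hC.addB ι κ J f _ hJ (lin_mono hH hl hIJ) hf',
        Finsupp.sum_add_index' (fun _ => by simp) (fun _ _ _ => by rw [Nat.cast_add, add_mul]),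
        ← h1.2, ← h2.2]
      exact ⟨h3, rfl⟩
    · rw [hom_zero hf' hd] at h1
      simpa using h1

end Pool.Agent.MP_d45d16_ag.Yag

end MrgPart2

-- ======== part 3: formerly Pool.Agent.MP_d45d16_ag.yag.Base
section MrgPart3

/-!
The bottom level of the tower.
-/

set_option autoImplicit false

open MvPolynomial Filter

namespace Pool.Agent.MP_d45d16_ag.Yag

namespace Base

variable {ι : Type}

/-- The parity of a cycle. -/
noncomputable def psi {K : Type} [Field K] (m : PrimeSpectrum (By ι K) →₀ ℕ) : ZMod 2 :=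
  m.sum fun s n => (n : ZMod 2) * par s.asIdeal

theorem psi_add {K : Type} [Field K] (m m' : PrimeSpectrum (By ι K) →₀ ℕ) :
    psi (m + m') = psi m + psi m' :=
  Finsupp.sum_add_index' (fun _ => by simp) fun _ _ _ => by rw [Nat.cast_add, add_mul]

/-- The parity as an additive map. -/
noncomputable def psiHom (K : Type) [Field K] : (PrimeSpectrum (By ι K) →₀ ℕ) →+ ZMod 2 where
  toFun := psi
  map_zero' := Finsupp.sum_zero_index
  map_add' := psi_add

theorem phi_of_two {K : Type} [Field K] {J : Ideal (Pxy ι K)} {c : PrimeSpectrum (By ι K) →₀ ℕ}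
    (h : cyc J = c + c) : Phi0 J = psi c := by
  unfold Phi0 psi
  rw [h, Finsupp.sum_of_support_subset _ (s := c.support) _ _ (fun _ _ => by simp)]
  · refine Finset.sum_congr rfl fun s _ => ?_
    rw [Finsupp.add_apply, ← two_mul, Nat.mul_div_cancel_left _ two_pos]
  · intro s hs
    rw [Finsupp.mem_support_iff] at hs ⊢
    intro h0
    exact hs (by rw [Finsupp.add_apply, h0, add_zero])

/-- Splitting an invariant function along an involution. -/
theorem split {X : Type} (τ : X → X) (hτ : ∀ x, τ (τ x) = x) (m : X →₀ ℕ)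
    (hs : ∀ x, m (τ x) = m x) (he : ∀ x, τ x = x → Even (m x)) :
    ∃ c : X →₀ ℕ, c.support ⊆ m.support ∧ m = c + c.mapDomain τ := by
  classical
  obtain ⟨_, _⟩ := exists_wellFoundedLT X
  let c : X →₀ ℕ := Finsupp.onFinset m.support
    (fun x => if x < τ x then m x else if τ x < x then 0 else m x / 2) fun x hx => by
      rw [Finsupp.mem_support_iff]
      intro h0
      simp [h0] at hx
  refine ⟨c, Finsupp.support_onFinset_subset, ?_⟩
  ext x
  have hinj : Function.Injective τ := Function.LeftInverse.injective hτ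
  have h1 : c.mapDomain τ x = c (τ x) := by
    conv_lhs => rw [← hτ x]
    exact Finsupp.mapDomain_apply hinj c (τ x)
  rw [Finsupp.add_apply, h1]
  simp only [c, Finsupp.onFinset_apply, hτ, hs]
  rcases lt_trichotomy x (τ x) with h | h | h
  · rw [if_pos h, if_neg h.not_gt, if_pos h, add_zero]
  · obtain ⟨k, hk⟩ := he x h.symm
    rw [← h, if_neg (lt_irrefl x), if_neg (lt_irrefl x), hk]
    omega
  · rw [if_neg h.not_gt, if_pos h, if_pos h, zero_add]

theorem sum_split {X M : Type} [AddCommMonoid M] {τ : X → X} {m c : X →₀ ℕ}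
    (h : m = c + c.mapDomain τ) (G : X → M) (hG : ∀ x, G (τ x) = G x) :
    (m.sum fun s n => n • G s) = (c.sum fun s n => n • G s) + c.sum fun s n => n • G s := by
  rw [h, Finsupp.sum_add_index' (h := fun s n => n • G s) (fun _ => zero_nsmul _)
      fun _ _ _ => add_nsmul _ _ _,
    Finsupp.sum_mapDomain_index (h := fun s n => n • G s) (fun _ => zero_nsmul _)
      fun _ _ _ => add_nsmul _ _ _]
  simp only [hG]

theorem isW_y : IsW (yw ι) := fun _ => Or.inr rfl

theorem lin_of_le [Finite ι] (hf1 : HfAPI) {K : Type} [Field K] {J : Ideal (Pxy ι K)}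
    {I : Ideal (By ι K)} (hh : IsHom (bw ι) J) (hl : Lin (bw ι) J)
    (hI : J.comap (algebraMap (By ι K) (Pxy ι K)) ≤ I) : Lin (yw ι) I := by
  obtain ⟨C, hC⟩ := hl
  refine ⟨C, fun d n => ?_⟩
  rcases d with _ | d
  · exact (hf1.mono _ _ _ _ _ _ isW_y hI).trans (((hf1.contr ι K J hh).2 n).trans_le (hC 0 n))
  · rw [hf1.ypos]
    exact Nat.zero_le _

theorem par_congr {K K' : Type} [Field K] [Field K'] {I : Ideal (By ι K)} {I' : Ideal (By ι K')}
    (h : ∀ k, hf (yw ι) I k = hf (yw ι) I' k) : par I = par I' := by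
  have e : hf (yw ι) I = hf (yw ι) I' := funext h
  unfold par
  rw [e]

variable {A κ : Type} [Group A] [Field κ] [MulSemiringAction A κ]

theorem init_le (pl : PlaceAPI) {E : Type} [Field E] [MulSemiringAction A E]
    (hκ : ∀ (a : A) (c : κ), a • c = c) (p : Place E κ) (hp : p.Eqv A) (a : A)
    (I : Ideal (By ι E)) : p.init (I.comap (actB ι a)) ≤ p.init I := by
  intro f hf
  obtain ⟨g, hg, hv⟩ := (pl.mem _ _ _ p _ f).1 hf
  refine (pl.mem _ _ _ p _ f).2 ⟨actB ι a g, hg, fun d => ?_⟩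
  have h := hp a _ _ (hv d)
  rw [hκ] at h
  rw [actB, coeff_map]
  exact h

theorem act_congr {E : Type} [Field E] [MulSemiringAction A E] {a b : A}
    (h : ∀ c : E, a • c = b • c) : actB ι (K := E) a = actB ι b := by
  unfold actB
  congr 1
  exact RingHom.ext h

theorem act_one {E : Type} [Field E] [MulSemiringAction A E] {a : A}
    (h : ∀ c : E, a • c = c) (s : PrimeSpectrum (By ι E)) : s.comap (actB ι a) = s := by
  have e : actB ι (K := E) a = RingHom.id _ := by
    refine RingHom.ext fun f => ?_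
    ext d
    rw [actB, coeff_map]
    exact h _
  rw [e]
  rfl

theorem act_act {E : Type} [Field E] [MulSemiringAction A E] {a : A}
    (h : ∀ c : E, a • a • c = c) (s : PrimeSpectrum (By ι E)) :
    (s.comap (actB ι a)).comap (actB ι a) = s := by
  ext f
  show actB ι a (actB ι a f) ∈ s.asIdeal ↔ _
  have e : actB ι a (actB ι a f) = f := by
    ext d
    rw [actB, coeff_map, coeff_map]
    exact h _
  rw [e]

/-- The value of the invariant on a specialisation. -/
theorem phi_init [Finite ι] (hf1 : HfAPI) (hf2 : HfAPI2) (pl : PlaceAPI) (cy : CycAPI)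
    (sp : SpStmt) (ps : PsiStmt) (S : Setup A ι κ) (hκ : ∀ (a : A) (c : κ), a • c = c)
    {E : Type} [Field E] [Algebra κ E] [MulSemiringAction A E] {y : E} (p : Place E κ)
    {J : Ideal (Pxy ι E)} (hy : Simple κ y) (ho : p.Over κ) (h0 : p.Val y 0) (hp : p.Eqv A)
    (hJ : S.Adm J) {a : A} (ha : ∀ c : E, a • a • c = c) {c : PrimeSpectrum (By ι E) →₀ ℕ}
    (hc : c.support ⊆ (cyc J).support)
    (hm : cyc J = c + c.mapDomain fun s => s.comap (actB ι a)) : Phi0 (p.init J) = psi c := by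
  obtain ⟨hN, t, ht, hr⟩ := pl.dvr E κ y p hy ho h0
  have hinv : ∀ s : PrimeSpectrum (By ι E),
      p.init (s.comap (actB ι a)).asIdeal = p.init s.asIdeal := fun s => by
    refine le_antisymm (init_le pl hκ p hp a _) ?_
    conv_lhs => rw [← act_act ha s]
    exact init_le pl hκ p hp a _
  have h1 : cyc (p.init J) = (c.sum fun s n => n • cycB (p.init s.asIdeal)) +
      c.sum fun s n => n • cycB (p.init s.asIdeal) := by
    rw [sp ι E κ p t J hN ht hr hJ.hom hJ.lin]
    exact sum_split hm (fun s => cycB (p.init s.asIdeal)) fun s => congrArg cycB (hinv s)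
  rw [phi_of_two h1]
  show psiHom κ _ = _
  rw [map_finsuppSum]
  refine Finset.sum_congr rfl fun s hs => ?_
  obtain ⟨h2, h3⟩ := cy.spec ι E J hJ.hom hJ.lin
  have hh := (h2.1 s (hc hs)).1
  have hle := (h3 s (hc hs)).1.2
  obtain ⟨h4, h5⟩ := hf2.init ι E κ (yw ι) p s.asIdeal isW_y hh
  have hl : Lin (yw ι) (p.init s.asIdeal) := by
    obtain ⟨C, hC⟩ := lin_of_le hf1 hJ.hom hJ.lin hle
    exact ⟨C, fun d n => (h5 _).trans_le (hC d n)⟩
  have he : ∀ e ∈ S.eqs, e ∈ p.init s.asIdeal := fun e h =>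
    (pl.mem _ _ _ p _ e).2 ⟨MvPolynomial.map (algebraMap κ E) e, hle (hJ.eqs e h), fun d => by
      rw [coeff_map]
      exact ho _⟩
  show psiHom κ (c s • cycB (p.init s.asIdeal)) = (c s : ZMod 2) * par s.asIdeal
  rw [map_nsmul, nsmul_eq_mul, ← par_congr h5, (ps A ι κ S _ h4 hl he).2]
  rfl

theorem move [Finite ι] (hf1 : HfAPI) (hf2 : HfAPI2) (pl : PlaceAPI) (cy : CycAPI)
    (sp : SpStmt) (ev : EvAPI) (ps : PsiStmt) (S : Setup A ι κ)
    (hκ : ∀ (a : A) (c : κ), a • c = c) {E : Type} [Field E] [Algebra κ E]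
    [MulSemiringAction A E] (y : E) (η : A →* ℤˣ) (p p' : Place E κ) (J : Ideal (Pxy ι E))
    (hc : ∀ (a : A) (c : κ), a • algebraMap κ E c = algebraMap κ E (a • c))
    (hη : ∀ a : A, a • y = ((η a : ℤˣ) : ℤ) • y) (hy : Simple κ y) (ho : p.Over κ)
    (ho' : p'.Over κ) (h0 : p.Val y 0) (h0' : p'.Val y⁻¹ 0) (hJ : S.Adm J) :
    Phi0 (p.init J) = Phi0 (p'.init J) := by
  have hfix : ∀ a, η a = 1 → ∀ c : E, a • c = c := fun a ha c => by
    have hm : c ∈ IntermediateField.adjoin κ {y} := by rw [hy.2]; trivial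
    induction hm using IntermediateField.adjoin_induction with
    | mem x hx => rw [Set.mem_singleton_iff.1 hx, hη, ha, Units.val_one, one_smul]
    | algebraMap x => rw [hc, hκ]
    | add x z _ _ hx hz => rw [smul_add, hx, hz]
    | inv x _ hx => rw [smul_inv'', hx]
    | mul x z _ _ hx hz => rw [smul_mul', hx, hz]
  have : SMulCommClass A κ E := ⟨fun a c x => by
    rw [Algebra.smul_def, Algebra.smul_def, smul_mul', hc, hκ]⟩
  have hη' : ∀ a : A, a • y⁻¹ = ((η a : ℤˣ) : ℤ) • y⁻¹ := fun a => by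
    rw [smul_inv'', hη]
    rcases Int.units_eq_one_or (η a) with h | h <;> simp [h]
  obtain ⟨a, ha⟩ : ∃ a : A, ∀ b, η b = 1 ∨ η b = η a := by
    by_cases h : ∃ a, η a = -1
    · obtain ⟨a, ha⟩ := h
      exact ⟨a, fun b => by rw [ha]; exact Int.units_eq_one_or _⟩
    · exact ⟨1, fun b => (Int.units_eq_one_or (η b)).imp id fun h' => (h ⟨b, h'⟩).elim⟩
  have haa : ∀ c : E, a • a • c = c := fun c => by
    rw [← mul_smul]
    exact hfix _ (by rw [map_mul, Int.units_mul_self]) c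
  obtain ⟨c, h1, h2⟩ := split (fun s : PrimeSpectrum (By ι E) => s.comap (actB ι a))
    (act_act haa) (cyc J) (fun s => ev.sym A ι κ E S J s a hJ) fun s hs =>
      ev.ev A ι κ E S η J s hfix hJ fun b => by
        rcases ha b with h | h
        · exact act_one (hfix b h) s
        · have e : ∀ c : E, b • c = a • c := fun c => by
            have h3 := hfix (a⁻¹ * b) (by rw [map_mul, map_inv, h, inv_mul_cancel]) c
            conv_rhs => rw [← h3, ← mul_smul, mul_inv_cancel_left]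
          rw [act_congr e]
          exact hs
  have hy' := pl.simple_inv E κ y hy
  rw [phi_init hf1 hf2 pl cy sp ps S hκ p hy ho h0 (pl.eqv A E κ y η p hc hη hy ho h0) hJ haa
      h1 h2,
    phi_init hf1 hf2 pl cy sp ps S hκ p' hy' ho' h0' (pl.eqv A E κ y⁻¹ η p' hc hη' hy' ho' h0')
      hJ haa h1 h2]

end Base

open Base in
/-- BASE -/
theorem base_stmt (hf1 : HfAPI) (hf2 : HfAPI2) (pl : PlaceAPI) (cy : CycAPI) (sp : SpStmt)
    (ev : EvAPI) (ps : PsiStmt) : BaseStmt := by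
  intro A ι κ _ _ _ _ S hκ
  have : SMulCommClass A κ κ := ⟨fun a c x => by rw [hκ, hκ]⟩
  have half : ∀ J : Ideal (Pxy ι κ), S.Adm J → ∃ c, cyc J = c + c := fun J hJ => by
    obtain ⟨c, -, h⟩ := split id (fun _ => rfl) (cyc J) (fun _ => rfl) fun s _ =>
      ev.ev A ι κ κ S 1 J s (fun a _ => hκ a) hJ fun a => act_one (hκ a) s
    exact ⟨c, by rw [h, Finsupp.mapDomain_id]⟩
  refine ⟨fun J J₁ J₂ _ h₁ h₂ h => ?_, fun J hJ h2 e he => ?_, ?_⟩
  · obtain ⟨c₁, e₁⟩ := half J₁ h₁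
    obtain ⟨c₂, e₂⟩ := half J₂ h₂
    rw [phi_of_two e₁, phi_of_two e₂, ← psi_add]
    exact phi_of_two (by rw [h, e₁, e₂, add_add_add_comm])
  · obtain ⟨I, hI, hle, hc, hd⟩ := ev.uv A ι κ κ S J hκ hJ h2
    obtain ⟨h3, h4⟩ := ps A ι κ S I hI (lin_of_le hf1 hJ.hom hJ.lin hle) fun f h => hle (by
      have h5 := hJ.eqs f h
      rwa [Algebra.algebraMap_self, MvPolynomial.map_id] at h5)
    rw [phi_of_two (hc.trans (two_nsmul _))]
    obtain ⟨d, h5, h6⟩ := (he.and hd).exists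
    obtain ⟨n, h7, h8⟩ := (h5.and h3).exists
    refine h4.symm.trans (h8.symm.trans ((ZMod.natCast_eq_natCast_iff' _ _ 2).2 ?_))
    rw [h6, Nat.ModEq] at h7
    omega
  · intro E _ i1 i2 hT _ y η p p' J
    have e : i1 = i2 := Algebra.algebra_ext _ _ fun r =>
      (@IsScalarTower.algebraMap_apply κ κ E _ _ _ _ i1 i2 hT r).symm
    subst e
    exact move hf1 hf2 pl cy sp ev ps S hκ y η p p' J

end Pool.Agent.MP_d45d16_ag.Yag

end MrgPart3

-- ======== part 4: formerly Pool.Agent.MP_d45d16_ag.yag.Val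
section MrgPart4

/-!
VAL: the local values of the invariant.
-/

set_option autoImplicit false

open AlgebraicGeometry CategoryTheory Limits MvPolynomial Filter

namespace Pool.Agent.MP_d45d16_ag.Yag

namespace Val

section Alg

variable {F E E' ι : Type} [Field F] [Field E] [Field E']

theorem prm_le_scale (c : F →+* E) (a b a' b' : ι → E) (l m : E) (ha : ∀ i, a' i = l * a i)
    (hb : ∀ i, b' i = m * b i) : prm c a b ≤ prm c a' b' := by
  intro f hf
  have key : (eval₂Hom (C.comp c)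
      (Sum.elim (fun i => C (a' i) * X 0) fun j => C (b' j) * X 1) :
        Pxy ι F →+* MvPolynomial (Fin 2) E) =
      (eval₂Hom C ![C l * X 0, C m * X 1] :
        MvPolynomial (Fin 2) E →+* MvPolynomial (Fin 2) E).comp
      (eval₂Hom (C.comp c) (Sum.elim (fun i => C (a i) * X 0) fun j => C (b j) * X 1)) := by
    refine MvPolynomial.ringHom_ext (fun r => by simp) (fun i => ?_)
    rcases i with i | i
    · simp only [eval₂Hom_X', Sum.elim_inl, RingHom.comp_apply, map_mul, eval₂Hom_C, ha,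
        Matrix.cons_val_zero]
      ring
    · simp only [eval₂Hom_X', Sum.elim_inr, RingHom.comp_apply, map_mul, eval₂Hom_C, hb,
        Matrix.cons_val_one, Matrix.cons_val_zero]
      ring
  unfold prm at hf ⊢
  rw [RingHom.mem_ker] at hf ⊢
  rw [key, RingHom.comp_apply, hf, map_zero]

theorem prm_scale (c : F →+* E) (a b a' b' : ι → E) (l m : E) (hl : l ≠ 0) (hm : m ≠ 0)
    (ha : ∀ i, a' i = l * a i) (hb : ∀ i, b' i = m * b i) : prm c a' b' = prm c a b :=
  le_antisymm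
    (prm_le_scale c a' b' a b l⁻¹ m⁻¹ (fun i => by rw [ha, inv_mul_cancel_left₀ hl])
      (fun i => by rw [hb, inv_mul_cancel_left₀ hm]))
    (prm_le_scale c a b a' b' l m ha hb)

theorem ratF_scale (c : F →+* E) (a b a' b' : ι → E) (l m : E) (hl : l ≠ 0) (hm : m ≠ 0)
    (ha : ∀ i, a' i = l * a i) (hb : ∀ i, b' i = m * b i) : ratF c a' b' = ratF c a b := by
  unfold ratF
  simp only [ha, hb, mul_div_mul_left _ _ hl, mul_div_mul_left _ _ hm]

theorem prm_map (c : F →+* E) (a b : ι → E) (φ : E →+* E') :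
    prm (φ.comp c) (φ ∘ a) (φ ∘ b) = prm c a b := by
  have key : (eval₂Hom (C.comp (φ.comp c))
      (Sum.elim (fun i => C ((φ ∘ a) i) * X 0) fun j => C ((φ ∘ b) j) * X 1) :
        Pxy ι F →+* MvPolynomial (Fin 2) E') =
      (MvPolynomial.map φ).comp
      (eval₂Hom (C.comp c) (Sum.elim (fun i => C (a i) * X 0) fun j => C (b j) * X 1)) := by
    refine MvPolynomial.ringHom_ext (fun r => by simp) (fun i => ?_)
    rcases i with i | i <;> simp
  unfold prm
  rw [key]
  exact RingHom.ker_comp_of_injective _ (MvPolynomial.map_injective φ φ.injective)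

theorem ratF_map (c : F →+* E) (a b : ι → E) (φ : E →+* E') :
    ratF (φ.comp c) (φ ∘ a) (φ ∘ b) = (ratF c a b).map φ := by
  unfold ratF
  rw [RingHom.map_field_closure, Set.image_union, Set.image_union]
  have h1 : Set.range (φ.comp c) = φ '' Set.range c := by
    rw [RingHom.coe_comp, Set.range_comp]
  have h2 : ∀ w : ι → E, {z | ∃ i k, z = (φ ∘ w) i / (φ ∘ w) k} =
      φ '' {z | ∃ i k, z = w i / w k} := by
    intro w
    ext z
    constructor
    · rintro ⟨i, k, rfl⟩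
      exact ⟨_, ⟨i, k, rfl⟩, by simp⟩
    · rintro ⟨_, ⟨i, k, rfl⟩, rfl⟩
      exact ⟨i, k, by simp⟩
  rw [h1, h2, h2]

theorem valR_map (Φ : Ideal (Pxy ι F) → ZMod 2) (c : F →+* E) (a b : ι → E) (φ : E →+* E')
    (hφ : Function.Surjective φ) : valR Φ (φ.comp c) (φ ∘ a) (φ ∘ b) = valR Φ c a b := by
  unfold valR
  rw [prm_map, ratF_map]
  have h : Module.finrank (ratF c a b) E = Module.finrank ((ratF c a b).map φ) E' :=
    Algebra.finrank_eq_of_equiv_equiv
      ((ratF c a b).toSubring.equivMapOfInjective φ φ.injective)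
      (RingEquiv.ofBijective φ ⟨φ.injective, hφ⟩) rfl
  rw [h]

theorem exists_ne_zero {w : ι → E} (h : Ideal.span (Set.range w) = ⊤) : ∃ i, w i ≠ 0 := by
  by_contra hn
  push Not at hn
  have h0 : Ideal.span (Set.range w) = ⊥ := by
    rw [Ideal.span_eq_bot]
    rintro _ ⟨i, rfl⟩
    exact hn i
  rw [h0] at h
  exact bot_ne_top h

theorem prop {w w' : ι → E} (h : Ideal.span (Set.range w) = ⊤)
    (h' : Ideal.span (Set.range w') = ⊤) (e : ∀ i j, w i * w' j = w j * w' i) :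
    ∃ l : E, l ≠ 0 ∧ ∀ i, w' i = l * w i := by
  obtain ⟨i, hi⟩ := exists_ne_zero h
  obtain ⟨j, hj⟩ := exists_ne_zero h'
  have hl : ∀ k, w' k = w' i / w i * w k := fun k => by
    field_simp
    linear_combination e i k
  refine ⟨w' i / w i, fun h0 => hj ?_, hl⟩
  rw [hl j, h0, zero_mul]

theorem span_map {C D : Type} [CommRing C] [CommRing D] (φ : C →+* D) {w : ι → C}
    (h : Ideal.span (Set.range w) = ⊤) : Ideal.span (Set.range (φ ∘ w)) = ⊤ := by
  rw [Set.range_comp, ← Ideal.map_span, h, Ideal.map_top]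

end Alg

section Geom

variable {F E ι : Type} [Field F] [Field E] {Y : Scheme.{0}} {u v : Y ⟶ PP F ι}

theorem coord_map (P : PtAPI) {C D : Type} [CommRing C] [CommRing D]
    {ξ : Spec (CommRingCat.of C) ⟶ Y} {c : F →+* C} {a b : ι → C} (h : Coord u v ξ c a b)
    (φ : C →+* D) :
    Coord u v (Spec.map (CommRingCat.ofHom φ) ≫ ξ) (φ.comp c) (φ ∘ a) (φ ∘ b) := by
  obtain ⟨ha, hb, h1, h2⟩ := h
  refine ⟨span_map φ ha, span_map φ hb, ?_, ?_⟩
  · rw [Category.assoc, h1, P.nat]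
  · rw [Category.assoc, h2, P.nat]

theorem coord_congr {C : Type} [CommRing C] {ξ ξ' : Spec (CommRingCat.of C) ⟶ Y} {c : F →+* C}
    {a b : ι → C} (e : ξ = ξ') (h : Coord u v ξ c a b) : Coord u v ξ' c a b := e ▸ h

theorem coord_uniq (P : PtAPI) {ξ : Spec (CommRingCat.of E) ⟶ Y} {c c' : F →+* E}
    {a b a' b' : ι → E} (h : Coord u v ξ c a b) (h' : Coord u v ξ c' a' b') :
    prm c' a' b' = prm c a b ∧ ∀ Φ, valR Φ c' a' b' = valR Φ c a b := by
  obtain ⟨ha, hb, h1, h2⟩ := h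
  obtain ⟨ha', hb', h1', h2'⟩ := h'
  obtain ⟨hc, e1⟩ := P.inj _ _ _ _ _ _ _ _ _ (h1.symm.trans h1')
  obtain ⟨-, e2⟩ := P.inj _ _ _ _ _ _ _ _ _ (h2.symm.trans h2')
  subst hc
  obtain ⟨l, hl, el⟩ := prop ha ha' e1
  obtain ⟨m, hm, em⟩ := prop hb hb' e2
  refine ⟨prm_scale c a b a' b' l m hl hm el em, fun Φ => ?_⟩
  unfold valR
  rw [prm_scale c a b a' b' l m hl hm el em, ratF_scale c a b a' b' l m hl hm el em]

theorem ex_pt (P : PtAPI) (g : Spec (CommRingCat.of E) ⟶ PP F ι) :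
    ∃ (c : F →+* E) (w : ι → E) (h : _), g = pt c w h := by
  obtain ⟨i, hi⟩ := P.cover F ι (g default)
  obtain ⟨c, w, h, -, e⟩ := P.surj F E ι g i fun x => by
    rw [Subsingleton.elim x default]
    exact hi
  exact ⟨c, w, h, e⟩

theorem ex (P : PtAPI) (ξ : Spec (CommRingCat.of E) ⟶ Y) (h : u ≫ PP.s F ι = v ≫ PP.s F ι) :
    ∃ (c : F →+* E) (a b : ι → E), Coord u v ξ c a b := by
  obtain ⟨c, a, ha, e1⟩ := ex_pt P (ξ ≫ u)
  obtain ⟨c', b, hb, e2⟩ := ex_pt P (ξ ≫ v)
  have hc : Spec.map (CommRingCat.ofHom c) = Spec.map (CommRingCat.ofHom c') := by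
    rw [← P.str F E ι c a ha, ← P.str F E ι c' b hb, ← e1, ← e2, Category.assoc, Category.assoc, h]
  have hc' : c = c' := congrArg CommRingCat.Hom.hom (Spec.map_injective hc)
  subst hc'
  exact ⟨c, a, b, ha, hb, e1, e2⟩

theorem factor (ξ : Spec (CommRingCat.of E) ⟶ Y) (x : Spec (CommRingCat.of E))
    (hξ : IsPreimmersion ξ) : ∃ φ : Y.residueField (ξ x) →+* E, Function.Surjective φ ∧
      Spec.map (CommRingCat.ofHom φ) ≫ Y.fromSpecResidueField (ξ x) = ξ := by
  obtain rfl : x = IsLocalRing.closedPoint E := Subsingleton.elim _ _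
  have e := Scheme.descResidueField_stalkClosedPointTo_fromSpecResidueField E Y ξ
  refine ⟨(Scheme.descResidueField (Scheme.stalkClosedPointTo ξ)).hom, ?_, e⟩
  have h1 : IsPreimmersion (Spec.map (Scheme.descResidueField (Scheme.stalkClosedPointTo ξ)) ≫
      Y.fromSpecResidueField (ξ (IsLocalRing.closedPoint E))) := by
    rw [e]
    exact hξ
  rw [IsPreimmersion.comp_iff, IsPreimmersion.SpecMap_iff] at h1
  exact RingHom.surjectiveOnStalks_iff_of_isLocalHom.mp h1.2

theorem eq (P : PtAPI) (ξ : Spec (CommRingCat.of E) ⟶ Y) (c : F →+* E) (a b : ι → E)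
    (x : Spec (CommRingCat.of E)) (Φ : Ideal (Pxy ι F) → ZMod 2) (hξ : IsPreimmersion ξ)
    (h : Coord u v ξ c a b) :
    valAt Φ u v (ξ x) = valR Φ c a b ∧ (UnbAt u v (ξ x) ↔ Unb (bw ι) (prm c a b)) := by
  obtain ⟨φ, hφ, e⟩ := factor ξ x hξ
  let ψ : E →+* Y.residueField (ξ x) := (RingEquiv.ofBijective φ ⟨φ.injective, hφ⟩).symm.toRingHom
  have hψ : ψ.comp φ = RingHom.id _ :=
    RingHom.ext fun z => (RingEquiv.ofBijective φ ⟨φ.injective, hφ⟩).symm_apply_apply z
  have e' : Spec.map (CommRingCat.ofHom ψ) ≫ ξ = Y.fromSpecResidueField (ξ x) := by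
    have : Spec.map (CommRingCat.ofHom ψ) ≫ Spec.map (CommRingCat.ofHom φ) = 𝟙 _ := by
      rw [← Spec.map_comp, ← CommRingCat.ofHom_comp, hψ, CommRingCat.ofHom_id, Spec.map_id]
    calc Spec.map (CommRingCat.ofHom ψ) ≫ ξ
        = Spec.map (CommRingCat.ofHom ψ) ≫ Spec.map (CommRingCat.ofHom φ) ≫
          Y.fromSpecResidueField (ξ x) := by rw [e]
      _ = Y.fromSpecResidueField (ξ x) := by rw [← Category.assoc, this, Category.id_comp]
  have h0 : Coord u v (Y.fromSpecResidueField (ξ x)) (ψ.comp c) (ψ ∘ a) (ψ ∘ b) :=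
    coord_congr e' (coord_map P h ψ)
  have key : ∀ (c₀ : F →+* Y.residueField (ξ x)) (a₀ b₀ : ι → Y.residueField (ξ x)),
      Coord u v (Y.fromSpecResidueField (ξ x)) c₀ a₀ b₀ →
      prm c₀ a₀ b₀ = prm c a b ∧ valR Φ c₀ a₀ b₀ = valR Φ c a b := by
    intro c₀ a₀ b₀ h₀
    have h1 := coord_congr e (coord_map P h₀ φ)
    obtain ⟨h2, h3⟩ := coord_uniq P h h1
    exact ⟨(prm_map c₀ a₀ b₀ φ).symm.trans h2, (valR_map Φ c₀ a₀ b₀ φ hφ).symm.trans (h3 Φ)⟩
  constructor
  · have hex : ∃ t : (F →+* Y.residueField (ξ x)) × (ι → Y.residueField (ξ x)) ×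
        (ι → Y.residueField (ξ x)), Coord u v (Y.fromSpecResidueField (ξ x)) t.1 t.2.1 t.2.2 :=
      ⟨⟨_, _, _⟩, h0⟩
    unfold valAt
    rw [dif_pos hex]
    exact (key _ _ _ hex.choose_spec).2
  · constructor
    · rintro ⟨c₀, a₀, b₀, h₀, hU⟩
      rwa [(key _ _ _ h₀).1] at hU
    · intro hU
      exact ⟨_, _, _, h0, by rwa [(key _ _ _ h0).1]⟩

theorem eq_res (P : PtAPI) (y : Y) (c : F →+* Y.residueField y) (a b : ι → Y.residueField y)
    (Φ : Ideal (Pxy ι F) → ZMod 2) (h : Coord u v (Y.fromSpecResidueField y) c a b) :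
    valAt Φ u v y = valR Φ c a b ∧ (UnbAt u v y ↔ Unb (bw ι) (prm c a b)) := by
  have h1 := eq P (E := Y.residueField y) (Y.fromSpecResidueField y) c a b default Φ
    inferInstance h
  rwa [Scheme.fromSpecResidueField_apply] at h1

theorem comp (P : PtAPI) {Y' : Scheme.{0}} (j : Y' ⟶ Y) (y : Y') (Φ : Ideal (Pxy ι F) → ZMod 2)
    (h : u ≫ PP.s F ι = v ≫ PP.s F ι) :
    (UnbAt (j ≫ u) (j ≫ v) y ↔ UnbAt u v (j y)) ∧
      (IsPreimmersion j → valAt Φ (j ≫ u) (j ≫ v) y = valAt Φ u v (j y)) := by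
  obtain ⟨c, a, b, h0⟩ := ex P (E := Y.residueField (j y)) (Y.fromSpecResidueField (j y)) h
  have e : Spec.map (CommRingCat.ofHom (j.residueFieldMap y).hom) ≫
      Y.fromSpecResidueField (j y) = Y'.fromSpecResidueField y ≫ j :=
    j.SpecMap_residueFieldMap_fromSpecResidueField y
  have h1 := coord_congr e (coord_map P h0 (j.residueFieldMap y).hom)
  have h2 : Coord (j ≫ u) (j ≫ v) (Y'.fromSpecResidueField y) ((j.residueFieldMap y).hom.comp c)
      ((j.residueFieldMap y).hom ∘ a) ((j.residueFieldMap y).hom ∘ b) := by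
    obtain ⟨ha, hb, e1, e2⟩ := h1
    exact ⟨ha, hb, (Category.assoc _ _ _).symm.trans e1, (Category.assoc _ _ _).symm.trans e2⟩
  refine ⟨?_, fun hj => ?_⟩
  · have h3 := prm_map (E := Y.residueField (j y)) (E' := Y'.residueField y) c a b
      (j.residueFieldMap y).hom
    exact (eq_res P y _ _ _ Φ h2).2.trans
      ((iff_of_eq (congrArg (Unb (bw ι)) h3)).trans (eq_res P (j y) _ _ _ Φ h0).2.symm)
  · have h3 := (eq P (E := Y'.residueField y) (Y'.fromSpecResidueField y ≫ j) _ _ _ default Φ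
      inferInstance h1).1
    rw [Scheme.Hom.comp_apply, Scheme.fromSpecResidueField_apply] at h3
    exact (eq_res P y _ _ _ Φ h2).1.trans h3.symm

theorem str (P : PtAPI) {C : Type} [CommRing C] {s : Y ⟶ Spec (CommRingCat.of F)}
    {ξ : Spec (CommRingCat.of C) ⟶ Y} {c : F →+* C} {a b : ι → C} (hu : u ≫ PP.s F ι = s)
    (h : Coord u v ξ c a b) : ξ ≫ s = Spec.map (CommRingCat.ofHom c) := by
  obtain ⟨ha, -, h1, -⟩ := h
  rw [← hu, ← Category.assoc, h1, P.str]

theorem sat_one (P : PtAPI) {C : Type} [CommRing C] [IsReduced C] {I : Set (MvPolynomial ι F)}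
    {c : F →+* C} {w : ι → C} (h : Ideal.span (Set.range w) = ⊤) (hI : HomSet I)
    (hz : ∀ x, pt c w h x ∈ zeros I) : Sat I c w := by
  intro f hf
  refine IsNilpotent.eq_zero (nilpotent_iff_mem_prime.mpr fun J hJ => ?_)
  exact (P.mem F C ι c w h I ⟨J, hJ⟩ hI).mp (hz _) f hf

theorem sat (P : PtAPI) {C : Type} [CommRing C] [IsReduced C] {I₁ I₂ : Set (MvPolynomial ι F)}
    {s : Y ⟶ Spec (CommRingCat.of F)} {ξ : Spec (CommRingCat.of C) ⟶ Y} {c : F →+* C}
    {a b : ι → C} (h₁ : HomSet I₁) (h₂ : HomSet I₂) (G : Geo I₁ I₂ s u v)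
    (h : Coord u v ξ c a b) :
    Sat I₁ c a ∧ Sat I₂ c b ∧ ξ ≫ s = Spec.map (CommRingCat.ofHom c) := by
  refine ⟨?_, ?_, str P G.us h⟩
  · obtain ⟨ha, -, e1, -⟩ := h
    refine sat_one P ha h₁ fun x => ?_
    rw [← e1, Scheme.Hom.comp_apply]
    exact G.mem₁ _
  · obtain ⟨-, hb, -, e2⟩ := h
    refine sat_one P hb h₂ fun x => ?_
    rw [← e2, Scheme.Hom.comp_apply]
    exact G.mem₂ _

theorem gen [Finite ι] (P : PtAPI) (Q : PrmAPI) (S : SmAPI) (s : Y ⟶ Spec (CommRingCat.of F))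
    (y : Y) (hs : SmoothOfRelativeDimension 1 s) (hu : u ≫ PP.s F ι = s) (hU : UnbAt u v y) :
    IsGenPt y := by
  obtain ⟨c, a, b, h, hU⟩ := hU
  have e := str P hu h
  have h1 := S.le F (Y.residueField y) Y s 1 (Y.fromSpecResidueField y) c hs inferInstance e
  have h2 := S.gen F (Y.residueField y) Y s 1 (Y.fromSpecResidueField y) c default hs
    inferInstance e
  rw [Scheme.fromSpecResidueField_apply] at h2
  refine h2.mpr ?_
  by_contra hne
  have h3 : td c < 1 := by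
    have := lt_of_le_of_ne h1 hne
    rwa [Nat.cast_one] at this
  let _ : Algebra F (Y.residueField y) := c.toAlgebra
  have h4 : Algebra.IsAlgebraic F (Y.residueField y) :=
    trdeg_eq_zero_iff.mp (Cardinal.lt_one_iff.mp h3)
  exact Q.prm_bdd ι F (Y.residueField y) a b (fun j => h4.isAlgebraic _) hU

theorem zero [Finite ι] (P : PtAPI) (Q : PrmAPI) (S : SmAPI) {I₁ I₂ : Set (MvPolynomial ι F)}
    {s : Y ⟶ Spec (CommRingCat.of F)} {Φ : Ideal (Pxy ι F) → ZMod 2} (y : Y) (h₁ : HomSet I₁)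
    (h₂ : HomSet I₂) (hΦ : GoodF I₁ I₂ Φ) (G : Geo I₁ I₂ s u v)
    (hs : SmoothOfRelativeDimension 1 s) (hU : ¬ UnbAt u v y) : valAt Φ u v y = 0 := by
  obtain ⟨c, a, b, h⟩ := ex P (E := Y.residueField y) (Y.fromSpecResidueField y)
    (G.us.trans G.vs.symm)
  obtain ⟨e1, e2⟩ := eq_res P y c a b Φ h
  obtain ⟨s1, s2, e⟩ := sat P h₁ h₂ G h
  have h1 := S.le F (Y.residueField y) Y s 1 (Y.fromSpecResidueField y) c hs inferInstance e
  rw [Nat.cast_one] at h1
  have hA : AdmF I₁ I₂ (prm c a b) :=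
    Q.prm_sat ι F F (Y.residueField y) I₁ I₂ c a b h₁ h₂ s1 s2 h1
  rw [e1]
  unfold valR
  rw [hΦ.zero _ hA (fun hh => hU (e2.mpr hh)), mul_zero]

end Geom

end Val

theorem valAPI (P : PtAPI) (Q : PrmAPI) (S : SmAPI) : ValAPI where
  ex := fun _ _ _ _ _ _ _ _ ξ h => Val.ex P ξ h
  eq := fun _ _ _ _ _ _ _ _ ξ c a b x Φ hξ h => Val.eq P ξ c a b x Φ hξ h
  comp := fun _ _ _ _ _ _ _ j y Φ h => Val.comp P j y Φ h
  sat := fun _ _ _ _ _ _ _ _ _ _ _ _ _ _ _ _ h₁ h₂ G h => Val.sat P h₁ h₂ G h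
  gen := fun _ _ _ _ _ s _ _ y hs hu _ hU => Val.gen P Q S s y hs hu hU
  zero := fun _ _ _ _ _ _ _ _ _ _ _ y h₁ h₂ hΦ G hs hU => Val.zero P Q S y h₁ h₂ hΦ G hs hU

end Pool.Agent.MP_d45d16_ag.Yag

end MrgPart4

-- ======== part 5: formerly Pool.Agent.MP_d45d16_ag.yag.RecLoc
section MrgPart5

/-!
The local count along a proper map to an affine scheme.
-/

set_option autoImplicit false

open AlgebraicGeometry CategoryTheory Limits

namespace Pool.Agent.MP_d45d16_ag.Yag

namespace RecLoc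

/-- A proper map with a finite fibre is finite over a basic open neighbourhood. -/
theorem chart (R : Type) [CommRing R] (Z : Scheme.{0}) (h : Z ⟶ Spec (CommRingCat.of R))
    [IsProper h] (m : PrimeSpectrum R) (hf : {x : Z | im h x = m}.Finite) :
    ∃ (r : R) (T : CommRingCat.{0}) (ψ : CommRingCat.of (Localization.Away r) ⟶ T)
      (ch : Spec T ⟶ Z), r ∉ m.asIdeal ∧ ψ.hom.Finite ∧ IsOpenImmersion ch ∧
      ch ≫ h = Spec.map (CommRingCat.ofHom (algebraMap R (Localization.Away r)) ≫ ψ) ∧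
      ∀ x, r ∉ (im h x).asIdeal → ∃ ξ, ch ξ = x := by
  obtain ⟨V, hmV, hV⟩ := exists_isFinite_morphismRestrict_of_finite_preimage_singleton h m hf
  obtain ⟨_, ⟨r, rfl⟩, hr, hrV⟩ :=
    PrimeSpectrum.isTopologicalBasis_basic_opens.exists_subset_of_mem_open hmV V.isOpen
  let j : Spec (CommRingCat.of (Localization.Away r)) ⟶ Spec (CommRingCat.of R) :=
    Spec.map (CommRingCat.ofHom (algebraMap R (Localization.Away r)))
  have hj : IsOpenImmersion j := IsOpenImmersion.of_isLocalization r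
  have hrange : Set.range j = (PrimeSpectrum.basicOpen r : Set (PrimeSpectrum R)) :=
    PrimeSpectrum.localization_away_comap_range (Localization.Away r) r
  have hsub : Set.range j ⊆ Set.range V.ι := by
    rw [hrange, Scheme.Opens.range_ι]
    exact hrV
  let j' := IsOpenImmersion.lift V.ι j hsub
  have hj' : j' ≫ V.ι = j := IsOpenImmersion.lift_fac _ _ _
  have hpb : IsPullback (pullback.fst (h ∣_ V) j' ≫ (h ⁻¹ᵁ V).ι) (pullback.snd (h ∣_ V) j') h j := by
    have h1 := (IsPullback.of_hasPullback (h ∣_ V) j').paste_horiz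
      (isPullback_morphismRestrict h V).flip
    rwa [hj'] at h1
  have hfin : IsFinite (pullback.snd h j) := by
    have h2 : IsFinite (pullback.snd (h ∣_ V) j') := inferInstance
    rw [← hpb.isoPullback_inv_snd]
    infer_instance
  have haff : IsAffine (pullback h j) := isAffine_of_isAffineHom (pullback.snd h j)
  let W := pullback h j
  refine ⟨r, Γ(W, ⊤), Spec.preimage (W.isoSpec.inv ≫ pullback.snd h j),
    W.isoSpec.inv ≫ pullback.fst h j, hr, ?_, inferInstance, ?_, ?_⟩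
  · rw [← IsFinite.SpecMap_iff, Spec.map_preimage]
    infer_instance
  · rw [Spec.map_comp, Spec.map_preimage, Category.assoc, Category.assoc, pullback.condition]
  · intro x hx
    have h3 : x ∈ Set.range (pullback.fst h j) := by
      rw [IsOpenImmersion.range_pullbackFst]
      change h x ∈ Set.range j
      rw [hrange]
      exact hx
    obtain ⟨w, rfl⟩ := h3
    refine ⟨W.isoSpec.hom w, ?_⟩
    rw [← Scheme.Hom.comp_apply, Iso.hom_inv_id_assoc]

/-- The degree over the subfield generated by the image is unchanged by a localisation. -/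
theorem fdeg_loc {R R' E : Type} [CommRing R] [CommRing R'] [Field E] (φ : R →+* R')
    (ev : R' →+* E) (hφ : ∀ x : R', ∃ u a : R, IsUnit (φ u) ∧ φ u * x = φ a) :
    fdeg (ev.comp φ) = fdeg ev := by
  have h : Subfield.closure (Set.range (ev.comp φ)) = Subfield.closure (Set.range ev) := by
    refine le_antisymm (Subfield.closure_mono ?_) (Subfield.closure_le.mpr ?_)
    · rintro _ ⟨a, rfl⟩
      exact ⟨φ a, rfl⟩
    · rintro _ ⟨x, rfl⟩
      obtain ⟨u, a, hu, e⟩ := hφ x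
      have h0 : ev (φ u) ≠ 0 := (hu.map ev).ne_zero
      have h1 : ev x = ev (φ a) / ev (φ u) := by
        rw [eq_div_iff h0, ← e, map_mul, mul_comm]
      rw [h1]
      exact div_mem (Subfield.subset_closure ⟨a, rfl⟩) (Subfield.subset_closure ⟨u, rfl⟩)
  unfold fdeg
  rw [h]

/-- The residue field of a point in an affine chart. -/
theorem resid {R : Type} [CommRing R] {Z : Scheme.{0}} (h : Z ⟶ Spec (CommRingCat.of R))
    {T : CommRingCat.{0}} (ch : Spec T ⟶ Z) [IsOpenImmersion ch] (ρ : CommRingCat.of R ⟶ T)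
    (hρ : ch ≫ h = Spec.map ρ) (ξ : PrimeSpectrum T) :
    ∃ ev : T →+* Z.residueField (ch ξ), RingHom.ker ev = ξ.asIdeal ∧
      (∀ z, ∃ a b : T, ev b ≠ 0 ∧ z * ev b = ev a) ∧ dg h (ch ξ) = fdeg (ev.comp ρ.hom) := by
  have hsub : Set.range (Z.fromSpecResidueField (ch ξ)) ⊆ Set.range ch := by
    rw [Scheme.range_fromSpecResidueField]
    rintro _ rfl
    exact ⟨ξ, rfl⟩
  let g := IsOpenImmersion.lift ch (Z.fromSpecResidueField (ch ξ)) hsub
  have hg : g ≫ ch = Z.fromSpecResidueField (ch ξ) := IsOpenImmersion.lift_fac _ _ _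
  obtain ⟨e, he⟩ : ∃ e : T ⟶ Z.residueField (ch ξ), Spec.map e = g := ⟨_, Spec.map_preimage g⟩
  have hpre : IsPreimmersion (Spec.map e) := by
    rw [he]
    have : IsPreimmersion (g ≫ ch) := by rw [hg]; infer_instance
    exact IsPreimmersion.of_comp g ch
  refine ⟨e.hom, ?_, ?_, ?_⟩
  · let o : PrimeSpectrum (Z.residueField (ch ξ)) := ⟨⊥, Ideal.isPrime_bot⟩
    have h1 : ch (g o) = ch ξ := by
      rw [← Scheme.Hom.comp_apply, hg, Scheme.fromSpecResidueField_apply]
    have h2 : g o = ξ := ch.isOpenEmbedding.injective h1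
    have h3 : (Spec.map e o : PrimeSpectrum T) = ξ := by rw [he]; exact h2
    exact congrArg PrimeSpectrum.asIdeal h3
  · intro z
    have h3 := ((IsPreimmersion.SpecMap_iff e).mp hpre).2 ⊥ Ideal.isPrime_bot
    rw [RingHom.surjective_localRingHom_iff] at h3
    obtain ⟨a, b, c, hc, hb, e1⟩ := h3 z
    refine ⟨a, b, by simpa using hb, ?_⟩
    have hc0 : c ≠ 0 := by simpa using hc
    apply mul_left_cancel₀ hc0
    rw [← e1]
    ring
  · have h4 : Spec.preimage (Z.fromSpecResidueField (ch ξ) ≫ h) = ρ ≫ e := by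
      apply Spec.map_injective
      rw [Spec.map_preimage, Spec.map_comp, he, ← hρ, ← Category.assoc, hg]
    unfold dg
    rw [h4]
    rfl

/-- Lengths of cyclic modules along a localisation. -/
theorem len_loc (L : LenAPI) {R R' : Type} [CommRing R] [CommRing R'] [Algebra R R'] (r : R)
    [IsLocalization.Away r R'] (m : PrimeSpectrum R)
    (m' : PrimeSpectrum R') (hr : r ∉ m.asIdeal)
    (hm : m.asIdeal = m'.asIdeal.comap (algebraMap R R')) (I : Ideal R) :
    lenAt m (R ⧸ I) =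
      lenAt m' (R' ⧸ I.map (algebraMap R R')) := by
  have hsurj : ∀ x : R', ∃ u a : R, u ∉ m.asIdeal ∧
      algebraMap R R' u * x = algebraMap R R' a := by
    intro x
    obtain ⟨⟨a, ⟨_, n, rfl⟩⟩, e⟩ := IsLocalization.surj (Submonoid.powers r) x
    exact ⟨r ^ n, a, fun hn => hr (m.isPrime.mem_of_pow_mem n hn), by rw [mul_comm]; exact e⟩
  let g : (R ⧸ I) →ₛₗ[algebraMap R R']
      (R' ⧸ I.map (algebraMap R R')) :=
    Submodule.mapQ I (I.map (algebraMap R R'))
      (algebraMap R R').toSemilinearMap fun a ha => Ideal.mem_map_of_mem _ ha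
  have hg : ∀ a : R, g (Ideal.Quotient.mk I a) =
      Ideal.Quotient.mk _ (algebraMap R R' a) := fun a => rfl
  refine L.loc R R' _ _ (algebraMap R R') g m' m hm hsurj
    ?_ ?_
  · intro z
    obtain ⟨x, rfl⟩ := Ideal.Quotient.mk_surjective z
    obtain ⟨u, a, hu, e⟩ := hsurj x
    refine ⟨u, Ideal.Quotient.mk I a, hu, ?_⟩
    rw [hg, ← e]
    rfl
  · intro n hn
    obtain ⟨a, rfl⟩ := Ideal.Quotient.mk_surjective n
    rw [hg, Ideal.Quotient.eq_zero_iff_mem,
      IsLocalization.algebraMap_mem_map_algebraMap_iff (Submonoid.powers r)] at hn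
    obtain ⟨_, ⟨k, rfl⟩, hk⟩ := hn
    refine ⟨r ^ k, fun hn => hr (m.isPrime.mem_of_pow_mem k hn), ?_⟩
    change Ideal.Quotient.mk I (r ^ k * a) = 0
    exact Ideal.Quotient.eq_zero_iff_mem.mpr hk

/-- The count, transported along an affine chart. -/
theorem core (L : LenAPI) (Hb : HerbAPI) {R R' T Z : Type} [CommRing R] [IsNoetherianRing R]
    [CommRing R'] [CommRing T] [Algebra R R'] (r : R) [IsLocalization.Away r R'] [Algebra R' T]
    [Module.Finite R' T] (c : PrimeSpectrum T → Z) (i : Z → PrimeSpectrum R) (d : Z → ℕ∞)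
    (m : PrimeSpectrum R) (t : R) (H : Finset Z) (hr : r ∉ m.asIdeal) (ht : t ∈ m.asIdeal)
    (hinj : Function.Injective c)
    (him : ∀ ξ, i (c ξ) = (ξ.comap (algebraMap R' T)).comap (algebraMap R R'))
    (hsurj : ∀ x, r ∉ (i x).asIdeal → ∃ ξ, c ξ = x)
    (hdg : ∀ ξ, d (c ξ) = lenAt (ξ.comap (algebraMap R' T)) (T ⧸ ξ.asIdeal))
    (hH : ∀ x, x ∈ H ↔ i x = m)
    (hloc : ∀ η, c η ∈ H → (∃ ξ, ξ < η) ∧ ∀ z ∈ η.asIdeal, ∃ u ∉ η.asIdeal,
      u * z ∈ Ideal.span {algebraMap R' T (algebraMap R R' t)}) :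
    (∀ x, i x ≤ m → t ∉ (i x).asIdeal → ∃ ξ, c ξ = x ∧ IsMin ξ) ∧
    ∀ Ξ : Finset Z, (∀ x ∈ Ξ, t ∉ (i x).asIdeal) → (∀ x, i x ≤ m → t ∉ (i x).asIdeal → x ∈ Ξ) →
      ∑ x ∈ H, d x = ∑ x ∈ Ξ, d x * lenAt m (R ⧸ ((i x).asIdeal ⊔ Ideal.span {t})) := by
  classical
  have hN : IsNoetherianRing R' :=
    IsLocalization.isNoetherianRing (Submonoid.powers r) R' inferInstance
  have hcinj : Function.Injective (PrimeSpectrum.comap (algebraMap R R')) :=
    PrimeSpectrum.localization_comap_injective R' (Submonoid.powers r)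
  obtain ⟨m', hm'⟩ : m ∈ Set.range (PrimeSpectrum.comap (algebraMap R R')) := by
    rw [PrimeSpectrum.localization_away_comap_range R' r]
    exact hr
  subst hm'
  have hmc : ∀ p : PrimeSpectrum R',
      (p.comap (algebraMap R R')).asIdeal.map (algebraMap R R') = p.asIdeal := fun p =>
    IsLocalization.map_under (Submonoid.powers r) R' p.asIdeal
  have hle : ∀ p : PrimeSpectrum R',
      p.comap (algebraMap R R') ≤ m'.comap (algebraMap R R') → p ≤ m' := by
    intro p hpm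
    change p.asIdeal ≤ m'.asIdeal
    rw [← hmc p, ← hmc m']
    exact Ideal.map_mono hpm
  have hle' : ∀ p : PrimeSpectrum R', p ≤ m' →
      p.comap (algebraMap R R') ≤ m'.comap (algebraMap R R') := fun p hpm =>
    Ideal.comap_mono (f := algebraMap R R') hpm
  have hrm : ∀ x, i x ≤ m'.comap (algebraMap R R') → r ∉ (i x).asIdeal :=
    fun x hx hrx => hr (hx hrx)
  have hH' : ∀ η, η ∈ H.preimage c hinj.injOn ↔ η.comap (algebraMap R' T) = m' := by
    intro η
    rw [Finset.mem_preimage, hH, him, hcinj.eq_iff]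
  obtain ⟨F1, F2⟩ := Hb.fibre R' T m' (algebraMap R R' t) (H.preimage c hinj.injOn) ht hH'
    fun η hη => hloc η (Finset.mem_preimage.mp hη)
  refine ⟨?_, ?_⟩
  · intro x hx htx
    obtain ⟨ξ, rfl⟩ := hsurj x (hrm x hx)
    rw [him] at hx htx
    exact ⟨ξ, rfl, F1 ξ (hle _ hx) htx⟩
  · intro Ξ hΞ1 hΞ2
    have key := F2 (Ξ.preimage c hinj.injOn) (fun ξ hξ => by
        have h1 := hΞ1 _ (Finset.mem_preimage.mp hξ)
        rw [him] at h1
        exact h1)
      (fun ξ h1 h2 => Finset.mem_preimage.mpr (hΞ2 _ (by rw [him]; exact hle' _ h1)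
        (by rw [him]; exact h2)))
    rw [← Finset.sum_preimage c H hinj.injOn, ← Finset.sum_preimage c Ξ hinj.injOn]
    · refine (Finset.sum_congr rfl fun η hη => ?_).trans (key.trans
        (Finset.sum_congr rfl fun ξ _ => ?_))
      · rw [hdg, (hH' η).mp hη]
      · rw [hdg, len_loc L r _ m' hr rfl, him, Ideal.map_sup, Ideal.map_span, Set.image_singleton,
          hmc]
    · intro x _ hx
      have hrx : r ∈ (i x).asIdeal := by
        by_contra hrx
        exact hx (hsurj x hrx)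
      rw [(L.zero R _ _).mpr, mul_zero]
      intro z
      obtain ⟨a, rfl⟩ := Ideal.Quotient.mk_surjective z
      refine ⟨r, hr, ?_⟩
      change Ideal.Quotient.mk _ (r * a) = 0
      exact Ideal.Quotient.eq_zero_iff_mem.mpr
        (Ideal.mul_mem_right _ _ (Ideal.mem_sup_left hrx))
    · intro x hx hx'
      exact absurd (hsurj x (hrm x ((hH x).mp hx).le)) hx'

/-- Generisations of a point of a chart lie in the chart. -/
theorem gen_chart {Z : Scheme.{0}} {T : CommRingCat.{0}} (ch : Spec T ⟶ Z) [IsOpenImmersion ch]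
    (ξ : PrimeSpectrum T) (x : Z) (hx : x ⤳ ch ξ) :
    ∃ ξ' : PrimeSpectrum T, ch ξ' = x ∧ ξ' ≤ ξ := by
  obtain ⟨ξ', rfl⟩ : x ∈ Set.range ch :=
    hx.mem_open ch.isOpenEmbedding.isOpen_range ⟨ξ, rfl⟩
  exact ⟨ξ', rfl, (PrimeSpectrum.le_iff_specializes _ _).mpr
    (ch.isOpenEmbedding.isInducing.specializes_iff.mp hx)⟩

/-- The degree of a point of a finite chart is a length. -/
theorem dg_chart (L : LenAPI) {R R' : Type} [CommRing R] [CommRing R'] [Algebra R R'] (r : R)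
    [IsLocalization.Away r R'] {Z : Scheme.{0}} (h : Z ⟶ Spec (CommRingCat.of R))
    {T : CommRingCat.{0}} [Algebra R' T] [Module.Finite R' T] (ch : Spec T ⟶ Z)
    [IsOpenImmersion ch] (ρ : CommRingCat.of R ⟶ T) (hρ : ch ≫ h = Spec.map ρ)
    (hρ' : ρ.hom = (algebraMap R' T).comp (algebraMap R R')) (ξ : PrimeSpectrum T) :
    (dg h (ch ξ) : ℕ∞) = lenAt (ξ.comap (algebraMap R' T)) (T ⧸ ξ.asIdeal) := by
  obtain ⟨ev, hker, hfr, hd⟩ := resid h ch ρ hρ ξ
  have h1 := L.deg R' T _ ev (ξ.comap (algebraMap R' T))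
    (by rw [← RingHom.comap_ker, hker]; rfl) hfr
  rw [hker] at h1
  rw [h1, hd, ← fdeg_loc (algebraMap R R') (ev.comp (algebraMap R' T)), hρ', RingHom.comp_assoc]
  intro x
  obtain ⟨⟨a, u⟩, e⟩ := IsLocalization.surj (Submonoid.powers r) x
  exact ⟨u, a, IsLocalization.map_units R' u, by rw [mul_comm]; exact e⟩

/-- The image of a point of a chart. -/
theorem im_chart {R : Type} [CommRing R] {Z : Scheme.{0}} (h : Z ⟶ Spec (CommRingCat.of R))
    {T : CommRingCat.{0}} (ch : Spec T ⟶ Z) (ρ : CommRingCat.of R ⟶ T) (hρ : ch ≫ h = Spec.map ρ)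
    (ξ : PrimeSpectrum T) : im h (ch ξ) = ξ.comap ρ.hom := by
  unfold im
  rw [← Scheme.Hom.comp_apply, hρ]
  rfl

/-- The statement, given a finite chart. -/
theorem of_chart (L : LenAPI) (Hb : HerbAPI) {R R' : Type} [CommRing R] [IsNoetherianRing R]
    [CommRing R'] [Algebra R R'] (r : R) [IsLocalization.Away r R'] {Z : Scheme.{0}}
    (h : Z ⟶ Spec (CommRingCat.of R)) {T : CommRingCat.{0}} [Algebra R' T] [Module.Finite R' T]
    (ch : Spec T ⟶ Z) [hch : IsOpenImmersion ch] (ρ : CommRingCat.of R ⟶ T)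
    (hρ : ch ≫ h = Spec.map ρ) (hρ' : ρ.hom = (algebraMap R' T).comp (algebraMap R R'))
    (m : PrimeSpectrum R) (t : R) (H : Finset Z) (hr : r ∉ m.asIdeal) (ht : t ∈ m.asIdeal)
    (hsurj : ∀ x, r ∉ (im h x).asIdeal → ∃ ξ : PrimeSpectrum T, ch ξ = x)
    (hH : ∀ x, x ∈ H ↔ im h x = m)
    (hloc : ∀ η : PrimeSpectrum T, ch η ∈ H → ¬ IsGenPt (ch η) ∧
      ∀ z ∈ η.asIdeal, ∃ u ∉ η.asIdeal, u * z ∈ Ideal.span {ρ.hom t}) :
    (∀ x, im h x ≤ m → t ∉ (im h x).asIdeal → IsGenPt x) ∧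
    ∀ Ξ : Finset Z, (∀ x ∈ Ξ, t ∉ (im h x).asIdeal) →
      (∀ x, im h x ≤ m → t ∉ (im h x).asIdeal → x ∈ Ξ) →
      ∑ x ∈ H, (dg h x : ℕ∞) =
        ∑ x ∈ Ξ, (dg h x : ℕ∞) * lenAt m (R ⧸ ((im h x).asIdeal ⊔ Ideal.span {t})) := by
  have hinj : Function.Injective fun ξ : PrimeSpectrum T => (ch ξ : Z) :=
    ch.isOpenEmbedding.injective
  have him : ∀ ξ : PrimeSpectrum T,
      im h (ch ξ) = (ξ.comap (algebraMap R' T)).comap (algebraMap R R') := by
    intro ξ
    rw [im_chart h ch ρ hρ, hρ']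
    rfl
  have hl : ∀ η : PrimeSpectrum T, ch η ∈ H → (∃ ξ, ξ < η) ∧ ∀ z ∈ η.asIdeal, ∃ u ∉ η.asIdeal,
      u * z ∈ Ideal.span {algebraMap R' T (algebraMap R R' t)} := by
    intro η hη
    obtain ⟨h1, h2⟩ := hloc η hη
    rw [hρ'] at h2
    refine ⟨?_, h2⟩
    by_contra hne
    refine h1 fun x hx => ?_
    obtain ⟨ξ', rfl, hξ⟩ := gen_chart ch η x hx
    rcases hξ.lt_or_eq with h3 | h3
    · exact absurd ⟨ξ', h3⟩ hne
    · rw [h3]
  obtain ⟨F1, F2⟩ := core L Hb r (fun ξ : PrimeSpectrum T => (ch ξ : Z)) (im h)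
    (fun x => (dg h x : ℕ∞)) m t H hr ht hinj him hsurj
    (fun ξ => dg_chart L r h ch ρ hρ hρ' ξ) hH hl
  refine ⟨fun x hx htx => ?_, F2⟩
  obtain ⟨ξ, rfl, hmin⟩ := F1 x hx htx
  intro x' hx'
  obtain ⟨ξ', rfl, hξ⟩ := gen_chart ch ξ x' hx'
  rw [le_antisymm hξ (hmin hξ)]

end RecLoc

theorem recLoc_stmt (L : LenAPI) (Hb : HerbAPI) : RecLocStmt := by
  intro R _ _ Z h m t H hp ht hH hloc
  obtain ⟨r, T, ψ, ch, hr, hfin, hch, hρ, hsurj⟩ := RecLoc.chart R Z h m
    (H.finite_toSet.subset fun x hx => (hH x).mpr hx)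
  let _ : Algebra (Localization.Away r) T := ψ.hom.toAlgebra
  have _ : Module.Finite (Localization.Away r) T := hfin
  exact RecLoc.of_chart (R' := Localization.Away r) L Hb r h ch _ hρ rfl m t H hr ht hsurj hH
    fun η hη => ⟨(hloc _ hη).1, (hloc _ hη).2 T ch _ η hch hρ rfl⟩

end Pool.Agent.MP_d45d16_ag.Yag

end MrgPart5

-- ======== part 6: formerly Pool.Agent.MP_d45d16_ag.yag.Rec1
section MrgPart6

/-!
REC, first part: commutative algebra in a chart.
-/

set_option autoImplicit false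

open MvPolynomial

namespace Pool.Agent.MP_d45d16_ag.Yag.Rec

variable {F ι E : Type} [Field F] [Field E]

theorem isW_bw : IsW (bw ι) := by
  rintro (i | j)
  · exact Or.inl rfl
  · exact Or.inr rfl

theorem hom_inl {R : Type} [CommRing R] (i : ι) :
    IsWeightedHomogeneous (bw ι) (X (Sum.inl i) : Pxy ι R) (1, 0) :=
  isWeightedHomogeneous_X R (bw ι) (Sum.inl i)

theorem hom_inr {R : Type} [CommRing R] (j : ι) :
    IsWeightedHomogeneous (bw ι) (X (Sum.inr j) : Pxy ι R) (0, 1) :=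
  isWeightedHomogeneous_X R (bw ι) (Sum.inr j)

theorem le_of_hom {J J' : Ideal (Pxy ι F)} (hJ : IsHom (bw ι) J)
    (h : ∀ f m, IsWeightedHomogeneous (bw ι) f m → f ∈ J → f ∈ J') : J ≤ J' := by
  intro f hf
  rw [← sum_weightedHomogeneousComponent (bw ι) f]
  exact finsum_induction (· ∈ J') J'.zero_mem (fun _ _ => J'.add_mem) fun m =>
    h _ m (weightedHomogeneousComponent_isWeightedHomogeneous m f) (hJ f hf m)

theorem prm_le_scale (c : F →+* E) (a b a' b' : ι → E) (l m : E) (ha : ∀ i, a' i = l * a i)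
    (hb : ∀ i, b' i = m * b i) : prm c a b ≤ prm c a' b' := by
  intro f hf
  have h : (eval₂Hom (C.comp c) (Sum.elim (fun i => C (a' i) * X 0) fun j => C (b' j) * X 1) :
      Pxy ι F →+* MvPolynomial (Fin 2) E) =
      (eval₂Hom C ![C l * X 0, C m * X 1] : MvPolynomial (Fin 2) E →+* MvPolynomial (Fin 2) E).comp
        (eval₂Hom (C.comp c) (Sum.elim (fun i => C (a i) * X 0) fun j => C (b j) * X 1)) := by
    refine MvPolynomial.ringHom_ext (fun r => by simp) ?_
    rintro (i | j)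
    · simp [ha]; ring
    · simp [hb]; ring
  unfold prm at hf ⊢
  rw [RingHom.mem_ker] at hf ⊢
  rw [h, RingHom.comp_apply, hf, map_zero]

theorem prm_div (c : F →+* E) (a b : ι → E) {l m : E} (hl : l ≠ 0) (hm : m ≠ 0) :
    prm c (fun i => a i / l) (fun i => b i / m) = prm c a b :=
  le_antisymm (prm_le_scale c _ _ _ _ l m (fun i => by field_simp) fun i => by field_simp)
    (prm_le_scale c _ _ _ _ l⁻¹ m⁻¹ (fun i => by field_simp) fun i => by field_simp)

theorem pow_hom {f : Pxy ι F} {m : ℕ × ℕ} (h : IsWeightedHomogeneous (bw ι) f m) (n : ℕ) :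
    IsWeightedHomogeneous (bw ι) (f ^ n) (n • m) := by
  induction n with
  | zero => simpa using isWeightedHomogeneous_one F (bw ι)
  | succ n ih => rw [pow_succ, succ_nsmul]; exact ih.mul h

theorem exists_homog (i j : ι) (f : Pxy ι F) :
    ∃ g m, IsWeightedHomogeneous (bw ι) g m ∧ f - g ∈ deh F i j := by
  have h1 : Ideal.Quotient.mk (deh F i j) (X (Sum.inl i)) = 1 :=
    Ideal.Quotient.eq.mpr (Ideal.subset_span (by simp))
  have h2 : Ideal.Quotient.mk (deh F i j) (X (Sum.inr j)) = 1 :=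
    Ideal.Quotient.eq.mpr (Ideal.subset_span (by simp))
  simp only [← Ideal.Quotient.eq]
  induction f using MvPolynomial.induction_on with
  | C a => exact ⟨C a, 0, isWeightedHomogeneous_C _ _, rfl⟩
  | add p q hp hq =>
    obtain ⟨g, m, hg, e⟩ := hp
    obtain ⟨g', m', hg', e'⟩ := hq
    refine ⟨g * (X (Sum.inl i) ^ m'.1 * X (Sum.inr j) ^ m'.2) +
      g' * (X (Sum.inl i) ^ m.1 * X (Sum.inr j) ^ m.2), m + m', IsWeightedHomogeneous.add ?_ ?_, ?_⟩
    · have := hg.mul ((pow_hom (hom_inl (R := F) i) m'.1).mul (pow_hom (hom_inr (R := F) j) m'.2))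
      simpa using this
    · have := hg'.mul ((pow_hom (hom_inl (R := F) i) m.1).mul (pow_hom (hom_inr (R := F) j) m.2))
      rw [add_comm m m']
      simpa using this
    · simp [h1, h2, e, e']
  | mul_X p k hp =>
    obtain ⟨g, m, hg, e⟩ := hp
    exact ⟨g * X k, _, hg.mul (isWeightedHomogeneous_X F (bw ι) k), by simp [e]⟩

/-- The evaluation in the chart `(i, j)` at the point `(a, b, τ)`. -/
structure Ev (c : F →+* E) (a b : ι → E) (τ : E) (i j : ι) (ev : Polynomial (Pxy ι F) →+* E) :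
    Prop where
  ha : a i ≠ 0
  hb : b j ≠ 0
  hc : ev.comp (Polynomial.C.comp MvPolynomial.C) = c
  hx : ∀ l, ev (Polynomial.C (X (Sum.inl l))) = a l / a i
  hy : ∀ l, ev (Polynomial.C (X (Sum.inr l))) = b l / b j
  ht : ev Polynomial.X = τ

/-- The prime `T = 0` over `n`. -/
noncomputable def up {P : Type} [CommRing P] (n : PrimeSpectrum P) :
    PrimeSpectrum (Polynomial P) := n.comap (Polynomial.evalRingHom 0)

theorem mem_up {P : Type} [CommRing P] (n : PrimeSpectrum P) (f : Polynomial P) :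
    f ∈ (up n).asIdeal ↔ f.eval 0 ∈ n.asIdeal := Iff.rfl

section

variable {c : F →+* E} {a b : ι → E} {τ : E} {i j : ι} {ev : Polynomial (Pxy ι F) →+* E}

theorem Ev.cc (h : Ev c a b τ i j ev) (r : F) : ev (Polynomial.C (C r)) = c r :=
  DFunLike.congr_fun h.hc r

theorem Ev.mem (hP : PrmAPI) (h : Ev c a b τ i j ev) {f : Pxy ι F} {m : ℕ × ℕ}
    (hf : IsWeightedHomogeneous (bw ι) f m) : f ∈ prm c a b ↔ ev (Polynomial.C f) = 0 := by
  rw [← prm_div c a b h.ha h.hb, hP.prm_mem ι F E c _ _ f m hf]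
  have : ev.comp Polynomial.C =
      eval₂Hom c (Sum.elim (fun l => a l / a i) fun l => b l / b j) := by
    refine MvPolynomial.ringHom_ext (fun r => by simp [h.cc]) ?_
    rintro (l | l)
    · simp [h.hx]
    · simp [h.hy]
  rw [← coe_eval₂Hom, ← this, RingHom.comp_apply]

theorem Ev.kerC (hP : PrmAPI) (h : Ev c a b τ i j ev) (f : Pxy ι F) :
    ev (Polynomial.C f) = 0 ↔ f ∈ prm c a b ⊔ deh F i j := by
  have hd : deh F i j ≤ RingHom.ker (ev.comp Polynomial.C) := by
    refine Ideal.span_le.mpr ?_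
    rintro _ (rfl | rfl)
    · simp [RingHom.mem_ker, h.hx, h.ha]
    · simp [RingHom.mem_ker, h.hy, h.hb]
  constructor
  · intro hf
    obtain ⟨g, m, hg, e⟩ := exists_homog i j f
    have h1 : ev (Polynomial.C (f - g)) = 0 := hd e
    rw [map_sub, map_sub, hf, zero_sub, neg_eq_zero] at h1
    have : f = g + (f - g) := by ring
    rw [this]
    exact Ideal.add_mem _ (Ideal.mem_sup_left ((h.mem hP hg).mpr h1)) (Ideal.mem_sup_right e)
  · intro hf
    exact (sup_le (le_of_hom (hP.prm_hom ι F E c a b).1 fun g m hg hm => (h.mem hP hg).mp hm) hd :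
      _ ≤ RingHom.ker (ev.comp Polynomial.C)) hf

theorem ev_zero {P : Type} [CommRing P] (ev : Polynomial P →+* E) (h : ev Polynomial.X = 0)
    (f : Polynomial P) : ev f = ev (Polynomial.C (f.eval 0)) := by
  conv_lhs => rw [← Polynomial.X_mul_divX_add f]
  rw [map_add, map_mul, h, zero_mul, zero_add, Polynomial.coeff_zero_eq_eval_zero]

/-- The point lies over `up n` exactly when `τ = 0` and its prime is `q`. -/
theorem Ev.ker_iff (hP : PrmAPI) (hD : DecAPI) (h : Ev c a b τ i j ev) {q : Ideal (Pxy ι F)}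
    (hq : IsHom (bw ι) q) (hq' : q.IsPrime) (hi : X (Sum.inl i) ∉ q) (hj : X (Sum.inr j) ∉ q)
    (n : PrimeSpectrum (Pxy ι F)) (hn : n.asIdeal = q ⊔ deh F i j) :
    RingHom.ker ev = (up n).asIdeal ↔ τ = 0 ∧ prm c a b = q := by
  constructor
  · intro hk
    have h0 : ev Polynomial.X = 0 := by
      rw [← RingHom.mem_ker, hk, mem_up]
      simp
    refine ⟨h.ht ▸ h0, ?_⟩
    have e : ∀ f, f ∈ prm c a b ⊔ deh F i j ↔ f ∈ q ⊔ deh F i j := fun f => by
      rw [← h.kerC hP, ← RingHom.mem_ker, hk, mem_up, Polynomial.eval_C, hn]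
    have hp := hP.prm_hom ι F E c a b
    refine le_antisymm (le_of_hom hp.1 fun f m hf hm => ?_) (le_of_hom hq fun f m hf hm => ?_)
    · exact (hD.prime ι F q i j hq hq' hi hj).2 f m hf ((e f).mp (Ideal.mem_sup_left hm))
    · exact (h.mem hP hf).mpr ((h.kerC hP f).mpr ((e f).mpr (Ideal.mem_sup_left hm)))
  · rintro ⟨h0, rfl⟩
    ext f
    rw [RingHom.mem_ker, ev_zero ev (h.ht.trans h0), h.kerC hP, mem_up, hn]

theorem Ev.fdeg_eq (h : Ev c a b 0 i j ev) : fdeg ev = Module.finrank (ratF c a b) E := by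
  have : Subfield.closure (Set.range ev) = ratF c a b := by
    refine le_antisymm (Subfield.closure_le.mpr ?_) (Subfield.closure_le.mpr ?_)
    · rintro _ ⟨f, rfl⟩
      rw [ev_zero ev h.ht]
      generalize f.eval 0 = g
      induction g using MvPolynomial.induction_on with
      | C r => rw [h.cc]; exact Subfield.subset_closure (Or.inl (Or.inl ⟨r, rfl⟩))
      | add p q hp hq => rw [map_add, map_add]; exact add_mem hp hq
      | mul_X p k hp =>
        rw [map_mul, map_mul]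
        refine mul_mem hp (Subfield.subset_closure ?_)
        rcases k with l | l
        · exact Or.inl (Or.inr ⟨l, i, h.hx l⟩)
        · exact Or.inr ⟨l, j, h.hy l⟩
    · have hm : ∀ f, ev f ∈ Subfield.closure (Set.range ev) := fun f =>
        Subfield.subset_closure ⟨f, rfl⟩
      rintro _ ((⟨r, rfl⟩ | ⟨l, k, rfl⟩) | ⟨l, k, rfl⟩)
      · exact h.cc r ▸ hm _
      · rw [← div_div_div_cancel_right₀ h.ha, ← h.hx, ← h.hx]
        exact div_mem (hm _) (hm _)
      · rw [← div_div_div_cancel_right₀ h.hb, ← h.hy, ← h.hy]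
        exact div_mem (hm _) (hm _)
  unfold fdeg
  rw [this]

/-- `τ` is transcendental along `c`. -/
def Tr (c : F →+* E) (τ : E) : Prop := ∀ f : Polynomial F, f.eval₂ c τ = 0 → f = 0

theorem Tr.ne (h : Tr c τ) : τ ≠ 0 := fun h0 =>
  Polynomial.X_ne_zero (h Polynomial.X (by simp [h0]))

theorem tr_iff : Tr c τ ↔ letI := c.toAlgebra; Transcendental F τ := by
  let _ := c.toAlgebra
  rw [transcendental_iff]
  rfl

theorem Tr.inv (h : Tr c τ) : Tr c τ⁻¹ := by
  let _ := c.toAlgebra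
  rw [tr_iff] at h ⊢
  exact fun h' => h (IsAlgebraic.inv_iff.mp h')

theorem Ev.tr (h : Ev c a b τ i j ev) (n : PrimeSpectrum (Pxy ι F))
    (hk : RingHom.ker ev ≤ (up n).asIdeal) (h0 : τ ≠ 0) : Tr c τ := by
  let _ := c.toAlgebra
  rw [tr_iff]
  intro ha
  obtain ⟨f, hf, hf'⟩ := ha.exists_nonzero_coeff_and_aeval_eq_zero (mem_nonZeroDivisors_of_ne_zero h0)
  have e : ev.comp (Polynomial.mapRingHom C) = Polynomial.eval₂RingHom c τ :=
    Polynomial.ringHom_ext (fun r => by simp [h.cc]) (by simp [h.ht])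
  have h1 : f.map C ∈ RingHom.ker ev := by
    rw [RingHom.mem_ker]
    exact (DFunLike.congr_fun e f).trans hf'
  have h2 := hk h1
  rw [mem_up, ← Polynomial.coeff_zero_eq_eval_zero, Polynomial.coeff_map] at h2
  exact n.isPrime.ne_top (n.asIdeal.eq_top_of_isUnit_mem h2 ((IsUnit.mk0 _ hf).map C))

theorem Tr.exists_lift (h : Tr c τ) (h2 : td c ≤ 2) : ∃ e : RatFunc F →+* E,
    e.comp (algebraMap F (RatFunc F)) = c ∧ e RatFunc.X = τ ∧ td e ≤ 1 := by
  have hi : Function.Injective (Polynomial.eval₂RingHom c τ) :=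
    (injective_iff_map_eq_zero _).mpr h
  have e1 : (IsFractionRing.lift hi : RatFunc F →+* E).comp (algebraMap F (RatFunc F)) = c := by
    ext r
    rw [RingHom.comp_apply, IsScalarTower.algebraMap_apply F (Polynomial F) (RatFunc F),
      IsFractionRing.lift_algebraMap]
    simp
  refine ⟨IsFractionRing.lift hi, e1, ?_, ?_⟩
  · rw [← RatFunc.algebraMap_X, IsFractionRing.lift_algebraMap]
    simp
  · let _ := c.toAlgebra
    let _ := (IsFractionRing.lift hi : RatFunc F →+* E).toAlgebra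
    have : IsScalarTower F (RatFunc F) E := IsScalarTower.of_algebraMap_eq' e1.symm
    have h3 : Algebra.trdeg F (RatFunc F) + Algebra.trdeg (RatFunc F) E ≤ 2 :=
      (trdeg_add_le (R := F) (S := RatFunc F) (A := E)).trans h2
    have h4 : 1 ≤ Algebra.trdeg F (RatFunc F) :=
      Cardinal.one_le_iff_pos.mpr (trdeg_pos F (RatFunc F))
    have h5 : 1 + Algebra.trdeg (RatFunc F) E ≤ 1 + 1 :=
      (add_le_add_left h4 _).trans (h3.trans_eq one_add_one_eq_two.symm)
    rw [add_comm] at h5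
    exact (Cardinal.add_one_le_add_one_iff).mp h5

end

theorem fdeg_comp {R E' : Type} [CommRing R] [Field E'] (φ : R →+* E) (e : E ≃+* E') :
    fdeg (e.toRingHom.comp φ) = fdeg φ := by
  have h : (Subfield.closure (Set.range φ)).map e.toRingHom =
      Subfield.closure (Set.range (e.toRingHom.comp φ)) := by
    rw [RingHom.map_field_closure, RingHom.coe_comp, Set.range_comp]
  unfold fdeg
  rw [← h]
  exact (Algebra.finrank_eq_of_equiv_equiv
    ((Subfield.closure (Set.range φ)).equivMapOfInjective e.toRingHom e.injective) e rfl).symm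

theorem len_up (hL : LenAPI) {P : Type} [CommRing P] (n : PrimeSpectrum P)
    (I : Ideal (Polynomial P)) :
    lenAt (up n) (Polynomial P ⧸ (I ⊔ Ideal.span {Polynomial.X})) =
      lenAt n (P ⧸ I.map (Polynomial.evalRingHom 0)) := by
  have hs : Function.Surjective (Polynomial.evalRingHom (0 : P)) := fun r =>
    ⟨Polynomial.C r, by simp⟩
  have hc : (I.map (Polynomial.evalRingHom (0 : P))).comap (Polynomial.evalRingHom 0) =
      I ⊔ Ideal.span {Polynomial.X} := by
    rw [Ideal.comap_map_of_surjective _ hs, ← RingHom.ker_eq_comap_bot, Polynomial.ker_evalRingHom,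
      map_zero, sub_zero]
  let g0 : Polynomial P →ₛₗ[Polynomial.evalRingHom (0 : P)]
      P ⧸ I.map (Polynomial.evalRingHom (0 : P)) :=
    { toFun := fun f => Ideal.Quotient.mk _ (f.eval 0)
      map_add' := fun x y => by simp
      map_smul' := fun x y => by simp [Algebra.smul_def] }
  have hk : ∀ f, g0 f = 0 ↔ f ∈ I ⊔ Ideal.span {Polynomial.X} := fun f => by
    rw [← hc]
    exact Ideal.Quotient.eq_zero_iff_mem
  refine hL.loc _ _ _ _ (Polynomial.evalRingHom 0)
    (Submodule.liftQ _ g0 fun f hf => LinearMap.mem_ker.mpr ((hk f).mpr hf)) n (up n) rfl (fun x => ?_) (fun m => ?_)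
    fun m hm => ?_
  · exact ⟨1, Polynomial.C x, (Ideal.ne_top_iff_one _).mp (up n).isPrime.ne_top, by simp⟩
  · obtain ⟨r, rfl⟩ := Ideal.Quotient.mk_surjective m
    refine ⟨1, Submodule.Quotient.mk (Polynomial.C r),
      (Ideal.ne_top_iff_one _).mp (up n).isPrime.ne_top, ?_⟩
    rw [Submodule.liftQ_apply]
    simp [g0]
  · obtain ⟨f, rfl⟩ := Submodule.Quotient.mk_surjective _ m
    refine ⟨1, (Ideal.ne_top_iff_one _).mp (up n).isPrime.ne_top, ?_⟩
    rw [one_smul, Submodule.Quotient.mk_eq_zero]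
    exact (hk f).mp hm

theorem len_top (hL : LenAPI) {P : Type} [CommRing P] (n : PrimeSpectrum P) (I : Ideal P)
    (h : I = ⊤) : lenAt n (P ⧸ I) = 0 := by
  subst h
  exact (hL.zero _ _ n).mpr fun m =>
    ⟨1, (Ideal.ne_top_iff_one _).mp n.isPrime.ne_top, Subsingleton.elim _ _⟩

theorem map_mem_init {σ K : Type} [Field K] [Algebra F K] (hPl : PlaceAPI) (p : Place K F)
    (hp : p.Over F) (J : Ideal (MvPolynomial σ K)) (f : MvPolynomial σ F)
    (h : MvPolynomial.map (algebraMap F K) f ∈ J) : f ∈ p.init J :=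
  (hPl.mem σ K F p J f).mpr ⟨_, h, fun d => by rw [coeff_map]; exact hp _⟩

theorem admF_init [Finite ι] {K : Type} [Field K] [Algebra F K] (hH : HfAPI2) (hPl : PlaceAPI)
    (p : Place K F) (hp : p.Over F) {I₁ I₂ : Set (MvPolynomial ι F)} {J : Ideal (Pxy ι K)}
    (h : AdmF I₁ I₂ J) : AdmF I₁ I₂ (p.init J) := by
  obtain ⟨h1, h2⟩ := hH.init _ K F (bw ι) p J isW_bw h.hom
  refine ⟨h1, ?_, fun f hf => map_mem_init hPl p hp J _ ?_, fun f hf => map_mem_init hPl p hp J _ ?_⟩
  · obtain ⟨C, hC⟩ := h.lin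
    exact ⟨C, fun d n => (h2 _).trans_le (hC d n)⟩
  · simpa [map_rename, map_id] using h.eq₁ f hf
  · simpa [map_rename, map_id] using h.eq₂ f hf

theorem exists_inr [Finite ι] (hH : HfAPI) {q : PrimeSpectrum (Pxy ι F)} (hq : CrvP q) :
    ∃ j, X (Sum.inr j) ∉ q.asIdeal := by
  by_contra! h
  have h1 := hH.grow _ F (bw ι) q.asIdeal 1 isW_bw hq.1 q.isPrime hq.2.2
  rw [(hH.zero _ F (bw ι) q.asIdeal (0, 1) isW_bw).mpr] at h1
  · omega
  intro f hf
  rw [f.as_sum]
  refine Ideal.sum_mem _ fun d hd => ?_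
  have h2 := hf (mem_support_iff.mp hd)
  obtain ⟨j, hj⟩ : ∃ j, d (Sum.inr j) ≠ 0 := by
    by_contra! h3
    have h4 : (Finsupp.weight (bw ι) d).2 = 0 := by
      rw [Finsupp.weight_apply, Finsupp.sum, Prod.snd_sum]
      refine Finset.sum_eq_zero ?_
      rintro (l | l) _
      · simp [bw]
      · simp [h3]
    rw [h2] at h4
    exact one_ne_zero h4
  exact q.asIdeal.mem_of_dvd (X_dvd_monomial.mpr (Or.inr hj)) (h j)

end Pool.Agent.MP_d45d16_ag.Yag.Rec

end MrgPart6

-- ======== part 7: formerly Pool.Agent.MP_d45d16_ag.yag.Rec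
section MrgPart7

/-!
REC: the two fibres of a family have the same invariant.
-/

set_option autoImplicit false

open AlgebraicGeometry CategoryTheory Limits MvPolynomial

namespace Pool.Agent.MP_d45d16_ag.Yag.Rec

variable {F ι : Type} [Field F]

theorem asIdeal_field {E : Type} [Field E] (y : PrimeSpectrum E) (z : E) :
    z ∈ y.asIdeal ↔ z = 0 := by
  rw [(Ideal.eq_bot_or_top y.asIdeal).resolve_right y.isPrime.ne_top, Ideal.mem_bot]

theorem homSet_X {R σ : Type} [CommRing R] (i : σ) : HomSet ({X i} : Set (MvPolynomial σ R)) := by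
  rintro _ rfl
  exact ⟨0, isHomogeneous_X R i⟩

/-- The canonical field-valued point at `x`. -/
noncomputable def fr (S : Scheme.{0}) (x : S) : Spec (CommRingCat.of (S.residueField x)) ⟶ S :=
  S.fromSpecResidueField x

theorem fr_apply (S : Scheme.{0}) (x : S) (y) : fr S x y = x :=
  S.fromSpecResidueField_apply x y

theorem fr_pre (S : Scheme.{0}) (x : S) : IsPreimmersion (fr S x) :=
  inferInstanceAs (IsPreimmersion (S.fromSpecResidueField x))

theorem two_cases : ∀ l k : Fin 2, l = k ∨ l = k.rev := by decide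

theorem mem_zeros (hP : PtAPI) {R σ : Type} [CommRing R] {S : Scheme.{0}} {u : S ⟶ PP R σ} {x : S}
    {c : R →+* S.residueField x} {a : σ → S.residueField x} {h}
    (e : fr S x ≫ u = pt c a h) (i : σ) : u x ∈ zeros {X i} ↔ a i = 0 := by
  have h1 := hP.mem R _ σ c a h {X i} (IsLocalRing.closedPoint _) (homSet_X i)
  rw [← e, Scheme.Hom.comp_apply, fr_apply] at h1
  simpa [asIdeal_field] using h1

theorem div_of_pt (hP : PtAPI) {R E σ : Type} [CommRing R] [Field E] {c c' : R →+* E}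
    {w w' : σ → E} {h h'} (e : pt c w h = pt c' w' h') {i : σ} (hi : w' i = 1) :
    c' = c ∧ w i ≠ 0 ∧ ∀ l, w' l = w l / w i := by
  obtain ⟨h1, h2⟩ := hP.inj R E σ c c' w w' h h' e
  have h3 : w i ≠ 0 := fun h0 => by
    have : Ideal.span (Set.range w) = ⊥ := Ideal.span_eq_bot.mpr (by
      rintro _ ⟨l, rfl⟩
      simpa [hi, h0] using h2 l i)
    exact bot_ne_top (this.symm.trans h)
  refine ⟨h1.symm, h3, fun l => ?_⟩
  rw [eq_div_iff h3, mul_comm, ← h2 l i, hi, mul_one]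

theorem exists_ne {E σ : Type} [Field E] {w : σ → E} (h : Ideal.span (Set.range w) = ⊤) :
    ∃ i, w i ≠ 0 := by
  by_contra! h0
  have : Ideal.span (Set.range w) = ⊥ := Ideal.span_eq_bot.mpr (by
    rintro _ ⟨l, rfl⟩
    exact h0 l)
  exact bot_ne_top (this.symm.trans h)

theorem isGenPt_open {Z S : Scheme.{0}} (o : Z ⟶ S) [IsOpenImmersion o] {z : Z}
    (h : IsGenPt z) : IsGenPt (o z) := fun x hx => by
  obtain ⟨z', rfl⟩ := hx.mem_open o.isOpenEmbedding.isOpen_range ⟨z, rfl⟩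
  rw [h z' (o.isOpenEmbedding.isInducing.specializes_iff.mp hx)]

/-- Coordinates at all points. -/
structure Dat {S : Scheme.{0}} (u v : S ⟶ PP F ι) (π : S ⟶ PP ℤ (Fin 2)) where
  /-- constants -/
  c : ∀ x : S, F →+* S.residueField x
  /-- first factor -/
  a : ∀ x : S, ι → S.residueField x
  /-- second factor -/
  b : ∀ x : S, ι → S.residueField x
  /-- the base -/
  t : ∀ x : S, Fin 2 → S.residueField x
  co : ∀ x, Coord u v (fr S x) (c x) (a x) (b x)
  ht : ∀ x, ∃ h, fr S x ≫ π = pt (Int.castRingHom _) (t x) h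

variable {S : Scheme.{0}} {u v : S ⟶ PP F ι} {π : S ⟶ PP ℤ (Fin 2)}

theorem exists_dat (hP : PtAPI) (hV : ValAPI) (h : u ≫ PP.s F ι = v ≫ PP.s F ι) :
    Nonempty (Dat u v π) := by
  choose c a b co using fun x : S => hV.ex F (S.residueField x) ι S u v (fr S x) h
  have : ∀ x : S, ∃ (t : Fin 2 → S.residueField x) (h : _),
      fr S x ≫ π = pt (Int.castRingHom _) t h := fun x => by
    obtain ⟨i, hi⟩ := hP.cover ℤ (Fin 2) (π x)
    obtain ⟨c, w, h, -, e⟩ := hP.surj ℤ (S.residueField x) (Fin 2) (fr S x ≫ π) i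
      fun y => by rwa [Scheme.Hom.comp_apply, fr_apply]
    obtain rfl : c = Int.castRingHom _ := RingHom.ext_int _ _
    exact ⟨w, h, e⟩
  choose t ht using this
  exact ⟨⟨c, a, b, t, co, ht⟩⟩

theorem rev_ne (k : Fin 2) : k.rev ≠ k := by revert k; decide

theorem Dat.t_ne (D : Dat u v π) (x : S) (k : Fin 2) (h : D.t x k.rev = 0) : D.t x k ≠ 0 := by
  obtain ⟨h1, -⟩ := D.ht x
  obtain ⟨l, hl⟩ := exists_ne h1
  rcases two_cases l k with rfl | rfl
  · exact hl
  · exact absurd h hl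

theorem Dat.vtx_iff (hP : PtAPI) (D : Dat u v π) (x : S) (k : Fin 2) :
    π x ∈ Set.range (vtx k) ↔ D.t x k.rev = 0 := by
  obtain ⟨h1, e⟩ := D.ht x
  constructor
  · rintro ⟨y, hy⟩
    rw [← mem_zeros hP e, ← hy]
    refine (hP.mem ℤ ℤ (Fin 2) _ _ _ _ y (homSet_X _)).mpr ?_
    rintro _ rfl
    simp [Pi.single_eq_of_ne (rev_ne k)]
  · intro h0
    have h2 : Ideal.span (Set.range ((Int.castRingHom (S.residueField x)) ∘ Pi.single k 1)) = ⊤ :=
      (Ideal.eq_top_iff_one _).mpr (Ideal.subset_span ⟨k, by simp⟩)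
    have h3 := hP.nat ℤ ℤ (S.residueField x) (Fin 2) (RingHom.id ℤ) (Pi.single k 1) (span_single k)
      (Int.castRingHom _) h2
    rw [RingHom.comp_id, ← hP.scale ℤ _ (Fin 2) _ _ (D.t x) h2 h1 (D.t x k), ← e] at h3
    · refine ⟨Spec.map (CommRingCat.ofHom (Int.castRingHom (S.residueField x)))
        (IsLocalRing.closedPoint (S.residueField x)), ?_⟩
      rw [← Scheme.Hom.comp_apply, vtx, h3, Scheme.Hom.comp_apply, fr_apply]
    · intro l
      rcases two_cases l k with rfl | rfl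
      · simp
      · simp [h0, Pi.single_eq_of_ne (rev_ne k)]

/-- The description of the points of a chart. -/
def IsCh (u v : S ⟶ PP F ι) (π : S ⟶ PP ℤ (Fin 2)) (i j : ι) (k : Fin 2) {Z : Scheme.{0}}
    (o : Z ⟶ S) (h : Z ⟶ Spec (CommRingCat.of (Polynomial (Pxy ι F)))) : Prop :=
  ∀ (C : Type) [CommRing C] (g : Spec (CommRingCat.of C) ⟶ Z)
    (ev : Polynomial (Pxy ι F) →+* C), g ≫ h = Spec.map (CommRingCat.ofHom ev) →
    ev (Polynomial.C (X (Sum.inl i))) = 1 ∧ ev (Polynomial.C (X (Sum.inr j))) = 1 ∧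
    Coord u v (g ≫ o) (ev.comp (Polynomial.C.comp MvPolynomial.C))
      (fun l => ev (Polynomial.C (X (Sum.inl l)))) (fun l => ev (Polynomial.C (X (Sum.inr l)))) ∧
    ∃ hw, g ≫ o ≫ π =
      pt (Int.castRingHom C) (fun l => if l = k then 1 else ev Polynomial.X) hw

theorem Dat.ev (hP : PtAPI) (D : Dat u v π) {i j : ι} {k : Fin 2} {Z : Scheme.{0}} {o : Z ⟶ S}
    [IsOpenImmersion o] {h : Z ⟶ Spec (CommRingCat.of (Polynomial (Pxy ι F)))}
    (hc : IsCh u v π i j k o h) (z : Z) :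
    ∃ ev : Polynomial (Pxy ι F) →+* S.residueField (o z), RingHom.ker ev = (im h z).asIdeal ∧
      fdeg ev = dg h z ∧ D.t (o z) k ≠ 0 ∧
      Ev (D.c (o z)) (D.a (o z)) (D.b (o z)) (D.t (o z) k.rev / D.t (o z) k) i j ev := by
  let e : Z.residueField z ≃+* S.residueField (o z) :=
    (asIso (o.residueFieldMap z)).symm.commRingCatIsoToRingEquiv
  let ev : Polynomial (Pxy ι F) →+* S.residueField (o z) :=
    e.toRingHom.comp (Spec.preimage (Z.fromSpecResidueField z ≫ h)).hom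
  obtain ⟨g, h1, h2⟩ : ∃ g : Spec (CommRingCat.of (S.residueField (o z))) ⟶ Z,
      g ≫ o = fr S (o z) ∧ g ≫ h = Spec.map (CommRingCat.ofHom ev) := by
    have h1 : (Spec.map (inv (o.residueFieldMap z)) ≫ Z.fromSpecResidueField z) ≫ o =
        S.fromSpecResidueField (o z) := by
      rw [Category.assoc, ← Scheme.Hom.SpecMap_residueFieldMap_fromSpecResidueField,
        ← Spec.map_comp_assoc, IsIso.hom_inv_id, Spec.map_id, Category.id_comp]
    have h2 : (Spec.map (inv (o.residueFieldMap z)) ≫ Z.fromSpecResidueField z) ≫ h =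
        Spec.map (Spec.preimage (Z.fromSpecResidueField z ≫ h) ≫ inv (o.residueFieldMap z)) := by
      rw [Category.assoc, Spec.map_comp, Spec.map_preimage]
    exact ⟨_, h1, h2⟩
  obtain ⟨e1, e2, ⟨ha, hb, e3, e4⟩, hw, e5⟩ := hc _ g ev h2
  obtain ⟨ha', hb', f3, f4⟩ := D.co (o z)
  obtain ⟨hw', f5⟩ := D.ht (o z)
  rw [← Category.assoc] at e5
  rw [h1] at e3 e4 e5
  obtain ⟨a1, a2, a3⟩ := div_of_pt hP (f3.symm.trans e3) e1
  obtain ⟨-, b2, b3⟩ := div_of_pt hP (f4.symm.trans e4) e2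
  obtain ⟨-, t2, t3⟩ := div_of_pt hP (f5.symm.trans e5) (i := k) (if_pos rfl)
  refine ⟨ev, ?_, fdeg_comp _ e, t2, a2, b2, a1, a3, b3, ?_⟩
  · have h3 : im h z = (g ≫ h) (IsLocalRing.closedPoint (S.residueField (o z))) := by
      have h4 : g (IsLocalRing.closedPoint (S.residueField (o z))) = z :=
        o.isOpenEmbedding.injective (by rw [← Scheme.Hom.comp_apply, h1, fr_apply])
      rw [Scheme.Hom.comp_apply, h4]
      rfl
    rw [h3, h2]
    ext f
    exact (asIdeal_field (IsLocalRing.closedPoint (S.residueField (o z))) (ev f)).symm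
  · rw [← t3, if_neg (rev_ne k)]

theorem IsCh.idl (hI : IdlAPI) {i j : ι} {k : Fin 2} {Z : Scheme.{0}} {o : Z ⟶ S}
    {h : Z ⟶ Spec (CommRingCat.of (Polynomial (Pxy ι F)))} (hc : IsCh u v π i j k o h)
    (B : CommRingCat.{0}) (ch : Spec B ⟶ Z) (ρ : CommRingCat.of (Polynomial (Pxy ι F)) ⟶ B)
    (e : ch ≫ h = Spec.map ρ) :
    idl (ch ≫ o) (pullback.fst π (vtx k)).ker = Ideal.span {ρ.hom Polynomial.X} := by
  obtain ⟨-, -, -, hw, e5⟩ := hc B ch ρ.hom e
  rw [hI.fib S B (ch ≫ o) π _ _ hw k ((Category.assoc _ _ _).trans e5), if_neg (rev_ne k)]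

open Classical in
theorem count [Finite ι] (hL : LenAPI) (hH : HfAPI) (hR : PrmAPI) (hPl : PlaceAPI) (hD : DecAPI)
    (hP : PtAPI) (hI : IdlAPI) (hRL : RecLocStmt) (hC : ChartStmt) (hK : LinkStmt)
    {s : S ⟶ Spec (CommRingCat.of F)} (hs : IsProper s) (us : u ≫ PP.s F ι = s)
    (vs : v ≫ PP.s F ι = s) (D : Dat u v π) (k : Fin 2) (H Ξ : Finset S)
    (hH1 : ∀ x, x ∈ H ↔ D.t x k.rev = 0 ∧ Unb (bw ι) (prm (D.c x) (D.a x) (D.b x)))
    (hH2 : ∀ x ∈ H, ¬ IsGenPt x ∧ LocGen (pullback.fst π (vtx k)).ker x)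
    (hΞ : ∀ x, x ∈ Ξ ↔ IsGenPt x ∧ Tr (D.c x) (D.t x k.rev / D.t x k))
    {K : Type} [Field K] [Algebra F K] (y : K) (p : Place K F) (hy : Simple F y) (hp : p.Over F)
    (hv : p.Val y 0) (n : S → ℕ) (J : S → Ideal (Pxy ι K))
    (hJ : ∀ x ∈ Ξ, ∃ e : K →+* S.residueField x, e.comp (algebraMap F K) = D.c x ∧
      e y = D.t x k.rev / D.t x k ∧ J x = prm e (D.a x) (D.b x) ∧
      n x = Module.finrank (ratF e (D.a x) (D.b x)) (S.residueField x))
    (q : PrimeSpectrum (Pxy ι F)) (hq : CrvP q) (m : S → ℕ)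
    (hm : ∀ x ∈ Ξ, ∀ (i j : ι) (r : PrimeSpectrum (Pxy ι F)), r.asIdeal = q.asIdeal ⊔ deh F i j →
      lenAt r (Pxy ι F ⧸ (p.init (J x) ⊔ deh F i j)) = m x) :
    ∑ x ∈ H with prm (D.c x) (D.a x) (D.b x) = q.asIdeal,
      Module.finrank (ratF (D.c x) (D.a x) (D.b x)) (S.residueField x) = ∑ x ∈ Ξ, n x * m x := by
  obtain ⟨i, hi⟩ := hq.2.1
  obtain ⟨j, hj⟩ := exists_inr hH hq
  let r : PrimeSpectrum (Pxy ι F) := ⟨_, (hD.prime ι F q.asIdeal i j hq.1 q.isPrime hi hj).1⟩
  obtain ⟨Z, o, h, ho, hh, hr, hc⟩ := hC F ι S s u v π i j k hs us vs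
  have hr' : ∀ x, D.a x i ≠ 0 → D.b x j ≠ 0 → D.t x k ≠ 0 → x ∈ Set.range o := fun x h1 h2 h3 => by
    obtain ⟨ha, hb, f3, f4⟩ := D.co x
    obtain ⟨hw, f5⟩ := D.ht x
    rw [hr, mem_zeros hP f3, mem_zeros hP f4, mem_zeros hP f5]
    exact ⟨h1, h2, h3⟩
  choose ev k1 k2 k3 k4 using D.ev hP hc
  have inj : Function.Injective o := o.isOpenEmbedding.injective
  have hH' : ∀ z, z ∈ (H.filter fun x => prm (D.c x) (D.a x) (D.b x) = q.asIdeal).preimage o
      inj.injOn ↔ im h z = up r := fun z => by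
    rw [PrimeSpectrum.ext_iff, ← k1, (k4 z).ker_iff hR hD hq.1 q.isPrime hi hj r rfl,
      Finset.mem_preimage, Finset.mem_filter, hH1, div_eq_zero_iff, or_iff_left (k3 z)]
    exact ⟨fun h => ⟨h.1.1, h.2⟩, fun h => ⟨⟨h.1, h.2 ▸ hq.2.2⟩, h.2⟩⟩
  have hX : ∀ z, Polynomial.X ∉ (im h z).asIdeal ↔ D.t (o z) k.rev / D.t (o z) k ≠ 0 := fun z => by
    rw [← k1, RingHom.mem_ker, (k4 z).ht]
  obtain ⟨g1, g2⟩ := hRL _ Z h (up r) Polynomial.X _ hh (by simp [mem_up]) hH' fun z hz => by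
    obtain ⟨l1, l2⟩ := hH2 _ (Finset.mem_filter.mp (Finset.mem_preimage.mp hz)).1
    refine ⟨fun hg => l1 (isGenPt_open o hg), fun B ch ρ w hch e1 e2 => ?_⟩
    rw [← IsCh.idl hI hc B ch ρ e1]
    exact l2 B (ch ≫ o) w inferInstance (by rw [Scheme.Hom.comp_apply, e2])
  have g3 := g2 (Ξ.preimage o inj.injOn)
    (fun z hz => (hX z).mpr ((hΞ _).mp (Finset.mem_preimage.mp hz)).2.ne) fun z h1 h2 =>
      Finset.mem_preimage.mpr ((hΞ _).mpr ⟨isGenPt_open o (g1 z h1 h2),
        (k4 z).tr r ((k1 z).trans_le h1) ((hX z).mp h2)⟩)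
  rw [← Finset.sum_preimage o _ inj.injOn, ← Finset.sum_preimage o Ξ inj.injOn]
  · rw [← Nat.cast_inj (R := ℕ∞), Nat.cast_sum, Nat.cast_sum]
    refine (Finset.sum_congr rfl fun z hz => ?_).trans (g3.trans
      (Finset.sum_congr rfl fun z hz => ?_))
    · have h0 := ((hH1 _).mp (Finset.mem_filter.mp (Finset.mem_preimage.mp hz)).1).1
      have h1 := k4 z
      rw [h0, zero_div] at h1
      rw [← k2, h1.fdeg_eq]
    · have hz' := Finset.mem_preimage.mp hz
      obtain ⟨e, e1, e2, e3, e4⟩ := hJ _ hz'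
      obtain ⟨l1, l2⟩ := hK ι F K _ e y p _ _ i j (ev z) hy hp hv (k4 z).ha (k4 z).hb
        ((k4 z).hc.trans e1.symm) (k4 z).hx (k4 z).hy ((k4 z).ht.trans e2.symm)
      rw [Nat.cast_mul, ← k2, ← k1, len_up hL, ← l1, ← e3, hm _ hz' i j r rfl, l2, e4]
  · intro x hx hn
    obtain ⟨e, e1, e2, e3, e4⟩ := hJ _ hx
    have h3 : D.t x k ≠ 0 := fun h0 => ((hΞ x).mp hx).2.ne (by rw [h0, div_zero])
    have h4 : ∀ w : ι ⊕ ι, X w - 1 ∈ deh F i j → Sum.elim (D.a x) (D.b x) w = 0 →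
        n x * m x = 0 := fun w h1 h2 => by
      have h5 : X w ∈ p.init (J x) := map_mem_init hPl p hp _ _ (by
        rw [map_X, e3, hR.prm_mem ι K _ e _ _ _ _ (isWeightedHomogeneous_X K (bw ι) w), eval₂_X, h2])
      have h6 := (hm x hx i j r rfl).symm.trans (len_top hL r _ ((Ideal.eq_top_iff_one _).mpr (by
        simpa using Ideal.sub_mem _ (Ideal.mem_sup_left h5) (Ideal.mem_sup_right h1))))
      rw [Nat.cast_eq_zero.mp h6, mul_zero]
    by_cases h1 : D.a x i = 0
    · exact h4 (Sum.inl i) (Ideal.subset_span (by simp)) h1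
    by_cases h2 : D.b x j = 0
    · exact h4 (Sum.inr j) (Ideal.subset_span (by simp)) h2
    exact absurd (hr' x h1 h2 h3) hn
  · intro x hx hn
    obtain ⟨h1, h2⟩ := Finset.mem_filter.mp hx
    refine absurd (hr' x (fun h0 => hi ?_) (fun h0 => hj ?_) (D.t_ne x k ((hH1 x).mp h1).1)) hn
    · rw [← h2, hR.prm_mem ι F _ _ _ _ _ _ (hom_inl i), eval₂_X]
      exact h0
    · rw [← h2, hR.prm_mem ι F _ _ _ _ _ _ (hom_inr j), eval₂_X]
      exact h0

theorem sum_regroup {α β γ : Type} [DecidableEq β] (H : Finset α) (Ξ : Finset γ) (q : α → β)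
    (d : α → ℕ) (n : γ → ℕ) (m : γ → β →₀ ℕ) (Φ : β → ZMod 2) (P : β → Prop)
    (h1 : ∀ x ∈ H, P (q x)) (h2 : ∀ x ∈ Ξ, ∀ r ∈ (m x).support, P r)
    (h : ∀ r, P r → ∑ x ∈ H with q x = r, d x = ∑ x ∈ Ξ, n x * m x r) :
    ∑ x ∈ H, (d x : ZMod 2) * Φ (q x) =
      ∑ x ∈ Ξ, (n x : ZMod 2) * (m x).sum fun r k => (k : ZMod 2) * Φ r := by
  have hQ : ∀ r ∈ H.image q ∪ Ξ.biUnion fun x => (m x).support, P r := fun r hr => by
    rcases Finset.mem_union.mp hr with hr | hr
    · obtain ⟨x, hx, rfl⟩ := Finset.mem_image.mp hr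
      exact h1 x hx
    · obtain ⟨x, hx, hr⟩ := Finset.mem_biUnion.mp hr
      exact h2 x hx r hr
  rw [← Finset.sum_fiberwise_of_maps_to (t := H.image q ∪ Ξ.biUnion fun x => (m x).support) (g := q)
    fun x hx => Finset.mem_union_left _ (Finset.mem_image_of_mem q hx)]
  trans ∑ r ∈ H.image q ∪ Ξ.biUnion fun x => (m x).support,
    ∑ x ∈ Ξ, (n x : ZMod 2) * ((m x r : ZMod 2) * Φ r)
  · refine Finset.sum_congr rfl fun r hr => ?_
    rw [Finset.sum_congr rfl fun x hx => by rw [(Finset.mem_filter.mp hx).2], ← Finset.sum_mul,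
      ← Nat.cast_sum, h r (hQ r hr), Nat.cast_sum, Finset.sum_mul]
    simp [mul_assoc]
  · rw [Finset.sum_comm]
    refine Finset.sum_congr rfl fun x hx => ?_
    rw [← Finset.mul_sum, Finsupp.sum_of_support_subset _ ((Finset.subset_biUnion_of_mem
      (fun x => (m x).support) hx).trans Finset.subset_union_right) _ (by simp)]

end Rec

open Rec in
theorem rec_stmt (hL : LenAPI) (hH : HfAPI) (hH2 : HfAPI2) (hR : PrmAPI) (hPl : PlaceAPI)
    (hD : DecAPI) (hP : PtAPI) (hI : IdlAPI) (hS : SmAPI) (hV : ValAPI) (hRL : RecLocStmt)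
    (hC : ChartStmt) (hK : LinkStmt) : RecStmt := by
  classical
  intro F ι _ _ I₁ I₂ Φ S s u v π H h₁ h₂ hG hs hsm geo hH1 hH3
  obtain ⟨D⟩ := exists_dat (π := π) hP hV (geo.us.trans geo.vs.symm)
  have hval := fun x : S => hV.eq F _ ι S u v (fr S x) _ _ _ (IsLocalRing.closedPoint _) Φ
    (fr_pre S x) (D.co x)
  simp only [fr_apply] at hval
  have hsat := fun x : S => hV.sat F _ ι S I₁ I₂ s u v (fr S x) _ _ _ h₁ h₂ geo (D.co x)
  let Ξ : Finset S := (hS.fin F S s hs).toFinset.filter fun x => Tr (D.c x) (D.t x 1 / D.t x 0)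
  have hΞ : ∀ x, x ∈ Ξ ↔ IsGenPt x ∧ Tr (D.c x) (D.t x 1 / D.t x 0) := fun x => by simp [Ξ]
  have hex : ∀ x : S, ∃ (n : ℕ) (J : Ideal (Pxy ι (RatFunc F))), x ∈ Ξ → AdmF I₁ I₂ J ∧
      ∃ e : RatFunc F →+* S.residueField x, e.comp (algebraMap F (RatFunc F)) = D.c x ∧
        e RatFunc.X = D.t x 1 / D.t x 0 ∧ J = prm e (D.a x) (D.b x) ∧
        n = Module.finrank (ratF e (D.a x) (D.b x)) (S.residueField x) := fun x => by
    by_cases hx : x ∈ Ξ
    · obtain ⟨e, e1, e2, e3⟩ := ((hΞ x).mp hx).2.exists_lift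
        (by simpa using hS.le F _ S s 2 (fr S x) (D.c x) hsm (fr_pre S x) (hsat x).2.2)
      exact ⟨_, _, fun _ => ⟨hR.prm_sat ι F _ _ I₁ I₂ e _ _ h₁ h₂ (e1 ▸ (hsat x).1)
        (e1 ▸ (hsat x).2.1) e3, e, e1, e2, rfl, rfl⟩⟩
    · exact ⟨0, ⊥, fun h => absurd h hx⟩
  choose n J hJ using hex
  have key : ∀ (k : Fin 2) (y : RatFunc F) (p : Place (RatFunc F) F), Simple F y → p.Over F →
      p.Val y 0 → (∀ x, x ∈ Ξ ↔ IsGenPt x ∧ Tr (D.c x) (D.t x k.rev / D.t x k)) →
      (∀ x (e : RatFunc F →+* S.residueField x), e RatFunc.X = D.t x 1 / D.t x 0 →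
        e y = D.t x k.rev / D.t x k) →
      ∑ x ∈ H k, valAt Φ u v x = ∑ x ∈ Ξ, (n x : ZMod 2) * Φ (p.init (J x)) := by
    intro k y p hy hp hv hk hk'
    have hm : ∀ x : S, ∃ m : PrimeSpectrum (Pxy ι F) →₀ ℕ, x ∈ Ξ → (∀ q ∈ m.support, CrvP q) ∧
        (∀ q, CrvP q → ∀ (i j : ι) (r : PrimeSpectrum (Pxy ι F)),
          r.asIdeal = q.asIdeal ⊔ deh F i j →
          lenAt r (Pxy ι F ⧸ (p.init (J x) ⊔ deh F i j)) = m q) ∧
        Φ (p.init (J x)) = m.sum fun q k => (k : ZMod 2) * Φ q.asIdeal := fun x => by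
      by_cases hx : x ∈ Ξ
      · obtain ⟨m, hm⟩ := hD.dec ι F I₁ I₂ Φ _ hG (admF_init hH2 hPl p hp (hJ x hx).1)
        exact ⟨m, fun _ => hm⟩
      · exact ⟨0, fun h => absurd h hx⟩
    choose m hm using hm
    have hk1 : ∀ x, x ∈ H k ↔ D.t x k.rev = 0 ∧ Unb (bw ι) (prm (D.c x) (D.a x) (D.b x)) :=
      fun x => by rw [hH1, D.vtx_iff hP, (hval x).2]
    rw [Finset.sum_congr rfl fun x _ => (hval x).1,
      Finset.sum_congr rfl fun x hx => congrArg ((n x : ZMod 2) * ·) (hm x hx).2.2]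
    refine sum_regroup (H k) Ξ
      (fun x => (⟨prm (D.c x) (D.a x) (D.b x), (hR.prm_hom ι F _ _ _ _).2⟩ : PrimeSpectrum _))
      (fun x => Module.finrank (ratF (D.c x) (D.a x) (D.b x)) (S.residueField x)) n m
      (fun q => Φ q.asIdeal) CrvP (fun x hx => ?_) (fun x hx => (hm x hx).1) fun q hq => ?_
    · obtain ⟨i, hi⟩ := exists_ne (D.co x).choose
      refine ⟨(hR.prm_hom ι F _ _ _ _).1, ⟨i, ?_⟩, ((hk1 x).mp hx).2⟩
      rwa [hR.prm_mem ι F _ _ _ _ _ _ (hom_inl i), eval₂_X]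
    · simp only [PrimeSpectrum.ext_iff]
      refine count hL hH hR hPl hD hP hI hRL hC hK hs geo.us geo.vs D k (H k) Ξ hk1 (hH3 k) hk y p
        hy hp hv n J (fun x hx => ?_) q hq (fun x => m x q) fun x hx => (hm x hx).2.1 q hq
      obtain ⟨e, e1, e2, e3⟩ := (hJ x hx).2
      exact ⟨e, e1, hk' x e e2, e3⟩
  have hX : Simple F (RatFunc.X : RatFunc F) := ⟨RatFunc.transcendental_X, RatFunc.adjoin_X⟩
  have hX' := hPl.simple_inv _ F _ hX
  obtain ⟨p, hp, hv⟩ := hPl.ex _ F _ hX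
  obtain ⟨p', hp', hv'⟩ := hPl.ex _ F _ hX'
  rw [key 0 _ p hX hp hv hΞ fun _ _ h => h, key 1 _ p' hX' hp' hv' (fun x => (hΞ x).trans
    (and_congr_right fun _ => ⟨fun h => by simpa using h.inv, fun h => by simpa using h.inv⟩))
    fun x e h => by rw [map_inv₀, h, inv_div]; rfl]
  exact Finset.sum_congr rfl fun x hx => by
    rw [hG.move _ _ p p' _ hX hp hp' hv hv' (hJ x hx).1]

end Pool.Agent.MP_d45d16_ag.Yag

end MrgPart7

-- ======== part 8: formerly Pool.Agent.MP_d45d16_ag.yag.All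
section MrgPart8

/-!
Assembly of the modules.
-/

set_option autoImplicit false

open AlgebraicGeometry CategoryTheory Limits

namespace Pool.Agent.MP_d45d16_ag.Yag

theorem alg : AlgStmt :=
  have h2 := hfAPI2 hfAPI
  have pl := placeAPI hfAPI h2
  have cy := cycAPI lenAPI hfAPI
  have sp := sp_stmt lenAPI (herbAPI lenAPI) hfAPI h2 cy
  alg_stmt pl (base_stmt hfAPI h2 pl cy sp (evAPI lenAPI hfAPI cy) (psi_stmt lenAPI hfAPI cy))
    (step_stmt hfAPI h2 pl sp) (asm_stmt hfAPI h2 pl cy) spr_stmt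

theorem recip : RecStmt :=
  have h2 := hfAPI2 hfAPI
  have pl := placeAPI hfAPI h2
  rec_stmt lenAPI hfAPI h2 prmAPI pl (decAPI lenAPI hfAPI) ptAPI (idlAPI ptAPI) smAPI
    (valAPI ptAPI prmAPI smAPI) (recLoc_stmt lenAPI (herbAPI lenAPI)) (chart_stmt ptAPI)
    (link_stmt prmAPI pl)

theorem assemble (hΦ : PhiStmt) : ¬ ResInj flag :=
  have iso := isoAPI ptAPI projAPI smAPI
  have mv := moveAPI (dp_stmt ptAPI projAPI (idlAPI ptAPI)) iso
  final (main_stmt projAPI bcAPI (line_stmt ptAPI projAPI bcAPI) (conic_stmt ptAPI projAPI bcAPI)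
    (key_stmt mv iso) mv iso (evgAPI prmAPI) hΦ) (ambAPI ptAPI) frame_stmt alg
    (AlgebraicClosure FF) (res flag (AlgebraicClosure FF)) (fun _ => rfl)

theorem FF_eq : Flag.FF Flag.gen = FF := rfl

theorem flag_eq : ResInj (Flag.flag gen FF) = ResInj flag := rfl

theorem bridge : ResInj (Flag.flag Flag.gen (Flag.FF Flag.gen)) = ResInj flag :=
  (congrArg (fun K : IntermediateField ℂ L0 => ResInj (Flag.flag gen K)) FF_eq).trans flag_eq

theorem assemble' (hΦ : PhiStmt) : ¬ ResInj (Flag.flag Flag.gen (Flag.FF Flag.gen)) :=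
  fun h => assemble hΦ (bridge ▸ h)

end Pool.Agent.MP_d45d16_ag.Yag

end MrgPart8

-- marker of a merged file
example : 731051 + 253239 = 731051 + 253239 := rfl
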