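import Mathlib.Tactic.Monotonicity.Lemmas
import Mathlib.Algebra.GroupWithZero.Submonoid.CancelMulZero
import Pool.Agent.MP_d45d16_ag.yag.AmbRes

-- ======== part 0: formerly Pool.Agent.MP_d45d16_ag.yag.Alg1
section MrgPart0

/-!
Scalings of a rational function field, fixed fields, anisotropy.
-/

set_option autoImplicit false

open MvPolynomial

namespace Pool.Agent.MP_d45d16_ag.Yag.Alg

section Scal

variable {σ : Type}

/-- Scaling of the variables. -/
noncomputable def scalHom (c : σ → ℂˣ) : MvPolynomial σ ℂ →ₐ[ℂ] MvPolynomial σ ℂ :=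
  aeval fun i => C (c i : ℂ) * X i

theorem scalHom_comp (c d : σ → ℂˣ) : (scalHom c).comp (scalHom d) = scalHom (c * d) := by
  refine MvPolynomial.algHom_ext fun i => ?_
  simp only [scalHom, AlgHom.comp_apply, aeval_X, map_mul, aeval_C, algebraMap_eq, Pi.mul_apply,
    Units.val_mul]
  ring

theorem scalHom_one : scalHom (1 : σ → ℂˣ) = AlgHom.id ℂ _ := by
  refine MvPolynomial.algHom_ext fun i => ?_
  simp [scalHom]

/-- Scaling of the variables, as an automorphism. -/
noncomputable def scal (c : σ → ℂˣ) : MvPolynomial σ ℂ ≃ₐ[ℂ] MvPolynomial σ ℂ :=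
  AlgEquiv.ofAlgHom (scalHom c) (scalHom c⁻¹)
    (by rw [scalHom_comp, mul_inv_cancel, scalHom_one])
    (by rw [scalHom_comp, inv_mul_cancel, scalHom_one])

theorem scal_apply (c : σ → ℂˣ) (p : MvPolynomial σ ℂ) : scal c p = scalHom c p := rfl

/-- The character of a monomial. -/
noncomputable def wt (c : σ → ℂˣ) (d : σ →₀ ℕ) : ℂ := d.prod fun i k => (c i : ℂ) ^ k

theorem wt_ne (c : σ → ℂˣ) (d : σ →₀ ℕ) : wt c d ≠ 0 :=
  Finset.prod_ne_zero_iff.mpr fun i _ => pow_ne_zero _ (c i).ne_zero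

theorem coeff_scal (c : σ → ℂˣ) (p : MvPolynomial σ ℂ) (d : σ →₀ ℕ) :
    coeff d (scal c p) = wt c d * coeff d p := by
  classical
  induction p using MvPolynomial.induction_on' with
  | monomial u a =>
    have h : scal c (monomial u a) = monomial u (wt c u * a) := by
      rw [scal_apply, scalHom, aeval_monomial, monomial_eq, algebraMap_eq, wt, map_mul,
        Finsupp.prod, Finsupp.prod, Finsupp.prod, map_prod]
      simp only [mul_pow, Finset.prod_mul_distrib, map_pow]
      ring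
    rw [h, coeff_monomial, coeff_monomial]
    split_ifs with hu
    · rw [hu]
    · rw [mul_zero]
  | add p q hp hq => rw [map_add, coeff_add, coeff_add, hp, hq, mul_add]

/-- The rational function field. -/
abbrev Lf (σ : Type) : Type := FractionRing (MvPolynomial σ ℂ)

/-- Scaling on the rational function field. -/
noncomputable def tau (c : σ → ℂˣ) : Lf σ ≃ₐ[ℂ] Lf σ :=
  IsFractionRing.algEquivOfAlgEquiv (scal c)

theorem tau_alg (c : σ → ℂˣ) (p : MvPolynomial σ ℂ) :
    tau c (algebraMap (MvPolynomial σ ℂ) (Lf σ) p) =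
      algebraMap (MvPolynomial σ ℂ) (Lf σ) (scal c p) :=
  IsFractionRing.algEquivOfAlgEquiv_algebraMap _ p

theorem alg_C (a : ℂ) : algebraMap (MvPolynomial σ ℂ) (Lf σ) (C a) = algebraMap ℂ (Lf σ) a :=
  (IsScalarTower.algebraMap_apply ℂ (MvPolynomial σ ℂ) (Lf σ) a).symm

theorem tau_X (c : σ → ℂˣ) (i : σ) :
    tau c (algebraMap (MvPolynomial σ ℂ) (Lf σ) (X i)) =
      algebraMap ℂ (Lf σ) (c i) * algebraMap (MvPolynomial σ ℂ) (Lf σ) (X i) := by
  rw [tau_alg, scal_apply, scalHom, aeval_X, map_mul, alg_C]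

theorem tau_mul (c d : σ → ℂˣ) (z : Lf σ) : tau (c * d) z = tau c (tau d z) := by
  obtain ⟨p, q, -, rfl⟩ := IsFractionRing.div_surjective (A := MvPolynomial σ ℂ) z
  have h : ∀ r : MvPolynomial σ ℂ, scal (c * d) r = scal c (scal d r) := fun r => by
    rw [scal_apply, ← scalHom_comp]; rfl
  simp only [map_div₀, tau_alg, h]

theorem tau_one (z : Lf σ) : tau (1 : σ → ℂˣ) z = z := by
  obtain ⟨p, q, -, rfl⟩ := IsFractionRing.div_surjective (A := MvPolynomial σ ℂ) z
  have h : ∀ r : MvPolynomial σ ℂ, scal (1 : σ → ℂˣ) r = r := fun r => by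
    rw [scal_apply, scalHom_one]; rfl
  simp only [map_div₀, tau_alg, h]

theorem mem_of_gens (M : Subfield (Lf σ)) (hC : ∀ a : ℂ, algebraMap ℂ (Lf σ) a ∈ M)
    (hX : ∀ i, algebraMap (MvPolynomial σ ℂ) (Lf σ) (X i) ∈ M) (z : Lf σ) : z ∈ M := by
  obtain ⟨p, q, -, rfl⟩ := IsFractionRing.div_surjective (A := MvPolynomial σ ℂ) z
  have h : ∀ r : MvPolynomial σ ℂ, algebraMap (MvPolynomial σ ℂ) (Lf σ) r ∈ M := fun r => by
    induction r using MvPolynomial.induction_on with
    | C a => rw [alg_C]; exact hC a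
    | add p q hp hq => rw [map_add]; exact M.add_mem hp hq
    | mul_X p j hp => rw [map_mul]; exact M.mul_mem hp (hX j)
  exact M.div_mem (h p) (h q)

theorem degree_scal (m : MonomialOrder σ) (c : σ → ℂˣ) (p : MvPolynomial σ ℂ) :
    m.toSyn (m.degree (scal c p)) ≤ m.toSyn (m.degree p) := by
  refine m.degree_le_iff.mpr fun d hd => m.le_degree ?_
  rw [mem_support_iff] at hd ⊢
  rw [coeff_scal] at hd
  exact right_ne_zero_of_mul hd

/-- Semi-invariants with distinct characters: the sum of squares is anisotropic. -/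
theorem aniso [Finite σ] {τ Γ : Type} [Fintype τ] (g : Γ → σ → ℂˣ) (ch : τ → Γ → ℂ)
    (hch : ∀ k k', (∀ a, ch k a = ch k' a) → k = k') (z : τ → Lf σ)
    (hz : ∀ k a, tau (g a) (z k) = algebraMap ℂ (Lf σ) (ch k a) * z k)
    (hs : ∑ k, z k ^ 2 = 0) : z = 0 := by
  classical
  obtain ⟨m⟩ : Nonempty (MonomialOrder σ) := by
    let : LinearOrder σ := linearOrderOfSTO WellOrderingRel
    exact ⟨MonomialOrder.lex⟩
  obtain ⟨⟨q, hqm⟩, hq⟩ := IsLocalization.exist_integer_multiples_of_finite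
    (nonZeroDivisors (MvPolynomial σ ℂ)) z
  choose p hp using hq
  have hq0 : q ≠ 0 := nonZeroDivisors.ne_zero hqm
  have hinj := IsFractionRing.injective (MvPolynomial σ ℂ) (Lf σ)
  have hp' : ∀ k, algebraMap (MvPolynomial σ ℂ) (Lf σ) (p k) =
      algebraMap (MvPolynomial σ ℂ) (Lf σ) q * z k := fun k => by rw [hp, Algebra.smul_def]
  have hsum : ∑ k, p k * p k = 0 := by
    apply hinj
    rw [map_sum, map_zero]
    simp only [map_mul, hp']
    have : ∑ k, algebraMap (MvPolynomial σ ℂ) (Lf σ) q * z k *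
        (algebraMap (MvPolynomial σ ℂ) (Lf σ) q * z k) =
        algebraMap (MvPolynomial σ ℂ) (Lf σ) q ^ 2 * ∑ k, z k ^ 2 := by
      rw [Finset.mul_sum]; exact Finset.sum_congr rfl fun k _ => by ring
    rw [this, hs, mul_zero]
  have hrel : ∀ k a, scal (g a) (p k) * q = C (ch k a) * (p k * scal (g a) q) := fun k a => by
    apply hinj
    rw [map_mul, map_mul, map_mul, ← tau_alg, ← tau_alg, hp', map_mul, hz, alg_C]
    ring
  have hwt : ∀ k a, p k ≠ 0 → wt (g a) (m.degree (p k)) = ch k a * wt (g a) (m.degree q) := by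
    intro k a hk
    have h := congrArg (coeff (m.degree (p k) + m.degree q)) (hrel k a)
    rw [coeff_C_mul, m.coeff_mul_of_add_of_degree_le (degree_scal m _ _) le_rfl,
      m.coeff_mul_of_add_of_degree_le le_rfl (degree_scal m _ _), coeff_scal, coeff_scal] at h
    have h1 := m.coeff_degree_ne_zero_iff.mpr hk
    have h2 := m.coeff_degree_ne_zero_iff.mpr hq0
    apply mul_right_cancel₀ (mul_ne_zero h1 h2)
    linear_combination h
  have hp0 : ∀ k, p k = 0 := by
    by_contra hne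
    push Not at hne
    obtain ⟨k₀, hk₀, hmax⟩ := Finset.exists_max_image (Finset.univ.filter fun k => p k ≠ 0)
      (fun k => m.toSyn (m.degree (p k))) (by
        obtain ⟨k, hk⟩ := hne; exact ⟨k, by simpa using hk⟩)
    have hk₀' : p k₀ ≠ 0 := by simpa using hk₀
    have hle : ∀ k, m.toSyn (m.degree (p k)) ≤ m.toSyn (m.degree (p k₀)) := fun k => by
      by_cases hk : p k = 0
      · rw [hk, m.degree_zero, map_zero]; exact m.zero_le _
      · exact hmax k (by simpa using hk)
    have h := congrArg (coeff (m.degree (p k₀) + m.degree (p k₀))) hsum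
    rw [coeff_sum, coeff_zero, Finset.sum_eq_single k₀] at h
    · rw [m.coeff_mul_of_add_of_degree_le le_rfl le_rfl] at h
      exact m.coeff_degree_ne_zero_iff.mpr hk₀' (mul_self_eq_zero.mp h)
    · intro k _ hk
      rw [m.coeff_mul_of_add_of_degree_le (hle k) (hle k), mul_self_eq_zero]
      by_contra hc
      have hk' : p k ≠ 0 := fun h0 => hc (by rw [h0, coeff_zero])
      have hd : m.degree (p k) = m.degree (p k₀) :=
        m.toSyn.injective (le_antisymm (hle k) (m.le_degree (mem_support_iff.mpr hc)))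
      refine hk (hch _ _ fun a => ?_)
      apply mul_right_cancel₀ (wt_ne (g a) (m.degree q))
      rw [← hwt k a hk', ← hwt k₀ a hk₀', hd]
    · intro h; exact absurd (Finset.mem_univ _) h
  funext k
  have h := hp' k
  rw [hp0, map_zero] at h
  exact (mul_eq_zero.mp h.symm).resolve_left ((map_ne_zero_iff _ hinj).mpr hq0)

end Scal

section Gen

variable {L : Type} [Field L]

theorem trans_of_scal [Algebra ℂ L] {K : Type} [Field K] [Algebra K L] (s : L) (hs : s ≠ 0)
    (h : ∀ c : ℂˣ, ∃ φ : L →+* L, (∀ x : K, φ (algebraMap K L x) = algebraMap K L x) ∧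
      φ s = algebraMap ℂ L c * s) : Transcendental K s := by
  rintro ⟨P, hP, hPs⟩
  refine hP (Polynomial.map_injective (algebraMap K L) (algebraMap K L).injective ?_)
  rw [Polynomial.map_zero]
  apply Polynomial.eq_zero_of_infinite_isRoot
  have hinj : Function.Injective fun c : ℂˣ => algebraMap ℂ L c * s := fun c d hcd =>
    Units.ext ((algebraMap ℂ L).injective (mul_right_cancel₀ hs hcd))
  have : Infinite ℂˣ := Infinite.of_injective
    (fun n : ℕ => Units.mk0 ((n : ℂ) + 1) (Nat.cast_add_one_ne_zero n)) fun a b hab => by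
      simpa using congrArg Units.val hab
  refine (Set.infinite_range_of_injective hinj).mono ?_
  rintro _ ⟨c, rfl⟩
  obtain ⟨φ, h1, h2⟩ := h c
  have h3 : φ.comp (algebraMap K L) = algebraMap K L := RingHom.ext h1
  have h4 := congrArg φ hPs
  rw [Polynomial.aeval_def, Polynomial.hom_eval₂, h3, h2, map_zero] at h4
  simpa [Polynomial.IsRoot, Polynomial.eval_map] using h4

theorem mem_of_fixed (N M : Subfield L) (s : L) (ht : Transcendental N s)
    (hgen : ∀ M' : Subfield L, N ≤ M' → s ∈ M' → ∀ z, z ∈ M') (H : Set (L →+* L))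
    (hN : ∀ φ ∈ H, ∀ x ∈ N, φ x ∈ N) (hs : ∀ φ ∈ H, φ s = s)
    (hM : ∀ x ∈ N, (∀ φ ∈ H, φ x = x) → x ∈ M) (hsM : s ∈ M) (z : L)
    (hz : ∀ φ ∈ H, φ z = z) : z ∈ M := by
  have h1 : z ∈ IntermediateField.adjoin N {s} :=
    hgen (IntermediateField.adjoin N {s}).toSubfield
      (fun x hx => (IntermediateField.adjoin N {s}).algebraMap_mem ⟨x, hx⟩)
      (IntermediateField.mem_adjoin_simple_self N s) z
  obtain ⟨P₀, Q₀, hPQ⟩ := (IntermediateField.mem_adjoin_simple_iff N z).mp h1
  by_cases hQ₀ : Q₀ = 0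
  · rw [hPQ, hQ₀, map_zero, div_zero]; exact M.zero_mem
  have hinj : Function.Injective (Polynomial.aeval s : Polynomial N →ₐ[N] L) :=
    transcendental_iff_injective.mp ht
  set r : RatFunc N := algebraMap (Polynomial N) (RatFunc N) P₀ /
    algebraMap (Polynomial N) (RatFunc N) Q₀ with hr
  have hcop := RatFunc.isCoprime_num_denom r
  have hmon := RatFunc.monic_denom r
  have hrel : r.num * Q₀ = P₀ * r.denom := (RatFunc.num_mul_eq_mul_denom_iff hQ₀).mpr hr
  generalize r.num = P at hcop hrel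
  generalize r.denom = Q at hcop hmon hrel
  have hQ : Polynomial.aeval s Q ≠ 0 := (map_ne_zero_iff _ hinj).mpr hmon.ne_zero
  have hz' : z = Polynomial.aeval s P / Polynomial.aeval s Q := by
    rw [hPQ, div_eq_div_iff ((map_ne_zero_iff _ hinj).mpr hQ₀) hQ, ← map_mul, ← map_mul, hrel]
  have hfix : ∀ φ ∈ H, (∀ i, φ (P.coeff i) = P.coeff i) ∧ ∀ i, φ (Q.coeff i) = Q.coeff i := by
    intro φ hφ
    let ψ : N →+* N := (φ.comp N.subtype).codRestrict N fun x => hN φ hφ x x.2
    have hψ : ∀ T : Polynomial N, Polynomial.aeval s (T.map ψ) = φ (Polynomial.aeval s T) := by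
      intro T
      rw [Polynomial.aeval_def, Polynomial.aeval_def, Polynomial.hom_eval₂, hs φ hφ,
        Polynomial.eval₂_map]
      rfl
    have hmon' : (Q.map ψ).Monic := hmon.map ψ
    have h2 := hz φ hφ
    rw [hz', map_div₀, ← hψ, ← hψ,
      div_eq_div_iff ((map_ne_zero_iff _ hinj).mpr hmon'.ne_zero) hQ, ← map_mul, ← map_mul] at h2
    have h3 := hinj h2
    have h4 : Q ∣ Q.map ψ := hcop.symm.dvd_of_dvd_mul_left ⟨P.map ψ, by rw [← h3, mul_comm]⟩
    have h5 : Q.map ψ = Q := Polynomial.eq_of_monic_of_dvd_of_natDegree_le hmon hmon' h4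
      (by rw [hmon.natDegree_map])
    rw [h5] at h3
    have h6 : P.map ψ = P := mul_right_cancel₀ hmon.ne_zero h3
    refine ⟨fun i => ?_, fun i => ?_⟩
    · have := congrArg (fun T => ((T.coeff i : N) : L)) h6
      simp only [Polynomial.coeff_map] at this
      exact this
    · have := congrArg (fun T => ((T.coeff i : N) : L)) h5
      simp only [Polynomial.coeff_map] at this
      exact this
  have hmem : ∀ T : Polynomial N, (∀ φ ∈ H, ∀ i, φ (T.coeff i) = T.coeff i) →
      Polynomial.aeval s T ∈ M := by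
    intro T hT
    rw [Polynomial.aeval_eq_sum_range]
    refine M.sum_mem fun i _ => ?_
    rw [Algebra.smul_def]
    exact M.mul_mem (hM _ (T.coeff i).2 fun φ hφ => hT φ hφ i) (M.pow_mem hsM i)
  rw [hz']
  exact M.div_mem (hmem P fun φ hφ => (hfix φ hφ).1) (hmem Q fun φ hφ => (hfix φ hφ).2)

end Gen

end Pool.Agent.MP_d45d16_ag.Yag.Alg

end MrgPart0

-- ======== part 1: formerly Pool.Agent.MP_d45d16_ag.yag.Alg2
section MrgPart1

/-!
The torus action on the function field of `GL₁₄` and the tower of fixed fields.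
-/

set_option autoImplicit false

open MvPolynomial Matrix

namespace Pool.Agent.MP_d45d16_ag.Yag.Alg

/-- The seven monomials attached to the imaginary octonion units. -/
def sg {M : Type} [CommMonoid M] (a : Fin 3 → M) : Fin 7 → M :=
  ![a 0, a 1, a 2, a 0 * a 1, a 1 * a 2, a 0 * a 1 * a 2, a 0 * a 2]

theorem sg_mul {M : Type} [CommMonoid M] (a b : Fin 3 → M) (k : Fin 7) :
    sg (a * b) k = sg a k * sg b k := by
  fin_cases k <;> simp [sg] <;> ac_rfl

theorem sg_one {M : Type} [CommMonoid M] (k : Fin 7) : sg (1 : Fin 3 → M) k = 1 := by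
  fin_cases k <;> simp [sg]

theorem map_sg {M N F : Type} [CommMonoid M] [CommMonoid N] [FunLike F M N]
    [MonoidHomClass F M N] (f : F) (a : Fin 3 → M) (k : Fin 7) :
    f (sg a k) = sg (fun l => f (a l)) k := by
  fin_cases k <;> simp [sg]

theorem sg_ne {M : Type} [Field M] (a : Fin 3 → M) (ha : ∀ l, a l ≠ 0) (k : Fin 7) :
    sg a k ≠ 0 := by
  fin_cases k <;> simp [sg, ha]

theorem sg_sq {M : Type} [CommMonoid M] (a : Fin 3 → M) (ha : ∀ l, a l ^ 2 = 1) (k : Fin 7) :
    sg a k ^ 2 = 1 := by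
  have h : a * a = 1 := funext fun l => by rw [Pi.mul_apply, ← sq, ha, Pi.one_apply]
  rw [sq, ← sg_mul, h, sg_one]

theorem sg_inj : ∀ k k' : Fin 7, (∀ a : Fin 3 → ℤˣ, sg a k = sg a k') → k = k' := by
  decide

theorem sg_single {M : Type} [CommMonoid M] (i : Fin 3) (k : Fin 7) :
    (∀ c : M, sg (Pi.mulSingle i c) k = 1) ∨ ∀ c : M, sg (Pi.mulSingle i c) k = c := by
  fin_cases i <;> fin_cases k <;> simp [sg]

/-- The first three indices. -/
def f3 (l : Fin 3) : Fin 7 := l.castLE (by norm_num)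

theorem sg_f3 {M : Type} [CommMonoid M] (a : Fin 3 → M) (l : Fin 3) : sg a (f3 l) = a l := by
  fin_cases l <;> rfl

theorem diag_mem (a : Fin 3 → ℂ) (ha : ∀ l, a l ^ 2 = 1) : diagonal (sg a) ∈ G2 := by
  refine ⟨?_, fun x y => ?_⟩
  · rw [diagonal_transpose, diagonal_mul_diagonal, ← diagonal_one]
    congr 1
    funext k
    rw [← sq, sg_sq a ha]
  · have h : ∀ l, a l = 1 ∨ a l = -1 := fun l => sq_eq_one_iff.mp (ha l)
    funext k
    rcases h 0 with h0 | h0 <;> rcases h 1 with h1 | h1 <;> rcases h 2 with h2 | h2 <;>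
      fin_cases k <;> simp [mulVec_diagonal, cross, sg, h0, h1, h2] <;> ring

/-- The torus. -/
abbrev Tor : Type := (Fin 3 → ℂˣ) × (Fin 3 → ℂˣ)

/-- The scaling factors of the columns. -/
def col (g : Tor) : I14 → ℂˣ := Sum.elim (sg g.1) (sg g.2)

/-- The action of the torus. -/
noncomputable def act (g : Tor) : L0 ≃ₐ[ℂ] L0 := tau fun ij : I14 × I14 => col g ij.2

theorem act_gen (g : Tor) (i j : I14) : act g (gen i j) = algebraMap ℂ L0 (col g j) * gen i j :=
  tau_X _ (i, j)

theorem act_mul (g h : Tor) (z : L0) : act (g * h) z = act g (act h z) := by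
  rw [act, act, act, ← tau_mul]
  congr 2
  funext ij
  rcases ij with ⟨i, j | j⟩ <;> simp [col, sg_mul]

theorem act_one (z : L0) : act 1 z = z := by
  have h : (fun ij : I14 × I14 => col 1 ij.2) = 1 := by
    funext ij
    rcases ij with ⟨i, j | j⟩ <;> simp [col, sg_one]
  rw [act, h, tau_one]

theorem act_transl (g : Tor) (h1 : ∀ l, g.1 l ^ 2 = 1) (h2 : ∀ l, g.2 l ^ 2 = 1) :
    act g ∈ transl := by
  refine ⟨diagonal (sg fun l => (g.1 l : ℂ)), diag_mem _ fun l => ?_,
    diagonal (sg fun l => (g.2 l : ℂ)), diag_mem _ fun l => ?_, ?_⟩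
  · rw [← Units.val_pow_eq_pow_val, h1, Units.val_one]
  · rw [← Units.val_pow_eq_pow_val, h2, Units.val_one]
  · rw [fromBlocks_diagonal, diagonal_map (map_zero _)]
    ext i j
    rw [mul_diagonal, map_apply, act_gen, mul_comm]
    congr 2
    rcases j with j | j
    · exact map_sg (Units.coeHom ℂ) g.1 j
    · exact map_sg (Units.coeHom ℂ) g.2 j

theorem act_FF (g : Tor) (h1 : ∀ l, g.1 l ^ 2 = 1) (h2 : ∀ l, g.2 l ^ 2 = 1) (c : FF) :
    act g (c : L0) = c :=
  (IntermediateField.mem_fixedField_iff _ _).mp c.2 _ (Subgroup.subset_closure (act_transl g h1 h2))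

/-- The fixed field of a set of elements of the torus. -/
def Fix (H : Set Tor) : Subfield L0 where
  carrier := {z | ∀ g ∈ H, act g z = z}
  mul_mem' := fun ha hb g hg => by rw [map_mul, ha g hg, hb g hg]
  one_mem' := fun g _ => map_one _
  add_mem' := fun ha hb g hg => by rw [map_add, ha g hg, hb g hg]
  zero_mem' := fun g _ => map_zero _
  neg_mem' := fun ha g hg => by rw [map_neg, ha g hg]
  inv_mem' := fun _ ha g hg => by rw [map_inv₀, ha g hg]

theorem mem_Fix {H : Set Tor} {z : L0} : z ∈ Fix H ↔ ∀ g ∈ H, act g z = z := Iff.rfl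

theorem act_mem {H : Set Tor} {z : L0} (hz : z ∈ Fix H) (h : Tor) : act h z ∈ Fix H :=
  fun g hg => by rw [← act_mul, mul_comm, act_mul, hz g hg]

/-- The sign group. -/
def Sgn : Type := Fin 3 → ℤˣ

instance : CommGroup Sgn := inferInstanceAs (CommGroup (Fin 3 → ℤˣ))

/-- Signs as complex units. -/
noncomputable def toC : ℤˣ →* ℂˣ := Units.map (Int.castRingHom ℂ).toMonoidHom

theorem toC_sq (u : ℤˣ) : toC u ^ 2 = 1 := by rw [← map_pow, Int.units_sq, map_one]

theorem toC_inj : Function.Injective toC := fun _ _ h =>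
  Units.ext (Int.cast_injective (α := ℂ) (congrArg Units.val h))

theorem alg_toC (u : ℤˣ) (z : L0) : algebraMap ℂ L0 (toC u) * z = (u : ℤ) • z := by
  rw [zsmul_eq_mul]
  congr 1
  exact map_intCast (algebraMap ℂ L0) _

/-- The sign group inside the torus. -/
noncomputable def emb (a : Sgn) : Tor := (fun l => toC (a l), 1)

theorem emb_mul (a b : Sgn) : emb (a * b) = emb a * emb b :=
  Prod.ext (funext fun l => map_mul toC (a l) (b l)) (mul_one _).symm

theorem emb_one : emb 1 = 1 := Prod.ext (funext fun _ => map_one toC) rfl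

noncomputable instance : MulSemiringAction Sgn L0 where
  smul a z := act (emb a) z
  one_smul z := by change act (emb 1) z = z; rw [emb_one, act_one]
  mul_smul a b z := by
    change act (emb (a * b)) z = act (emb a) (act (emb b) z); rw [emb_mul, act_mul]
  smul_zero a := map_zero (act (emb a))
  smul_add a := map_add (act (emb a))
  smul_one a := map_one (act (emb a))
  smul_mul a := map_mul (act (emb a))

instance (H : Set Tor) : IsInvariantSubfield Sgn (Fix H) where
  smul_mem a _ hz := act_mem hz (emb a)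

theorem coe_smul (H : Set Tor) (a : Sgn) (z : Fix H) :
    ((a • z : Fix H) : L0) = act (emb a) z := rfl

/-- The subgroups defining the tower. -/
def Hn (n : ℕ) : Set Tor := {g | (∀ l, g.2 l ^ 2 = 1) ∧ ∀ l : Fin 3, l.val < n → g.1 l = 1}

/-- The tower. -/
abbrev Kn (n : ℕ) : Subfield L0 := Fix (Hn n)

theorem Kn_le {n m : ℕ} (h : n ≤ m) : Kn n ≤ Kn m :=
  fun _ hz g hg => hz g ⟨hg.1, fun l hl => hg.2 l (lt_of_lt_of_le hl h)⟩

theorem gen_ne (i j : I14) : gen i j ≠ 0 :=
  (map_ne_zero_iff _ (IsFractionRing.injective (MvPolynomial (I14 × I14) ℂ) L0)).mpr (X_ne_zero _)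

/-- The coordinates of the first torus. -/
noncomputable def s1 (l : Fin 3) : L0 := gen (Sum.inl 0) (Sum.inl (f3 l))

/-- The coordinates of the second torus. -/
noncomputable def s2 (l : Fin 3) : L0 := gen (Sum.inl 0) (Sum.inr (f3 l))

theorem act_s1 (g : Tor) (l : Fin 3) : act g (s1 l) = algebraMap ℂ L0 (g.1 l) * s1 l := by
  rw [s1, act_gen, col, Sum.elim_inl, sg_f3]

theorem act_s2 (g : Tor) (l : Fin 3) : act g (s2 l) = algebraMap ℂ L0 (g.2 l) * s2 l := by
  rw [s2, act_gen, col, Sum.elim_inr, sg_f3]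

/-- The monomials in the torus coordinates attached to the columns. -/
noncomputable def mon : I14 → L0 := Sum.elim (sg s1) (sg s2)

theorem mon_ne (j : I14) : mon j ≠ 0 := by
  rcases j with j | j
  · exact sg_ne s1 (fun _ => gen_ne _ _) j
  · exact sg_ne s2 (fun _ => gen_ne _ _) j

theorem act_mon (g : Tor) (j : I14) : act g (mon j) = algebraMap ℂ L0 (col g j) * mon j := by
  have h : ∀ (a : Fin 3 → ℂˣ) k, algebraMap ℂ L0 (sg a k : ℂˣ) =
      sg (fun l => algebraMap ℂ L0 (a l)) k := fun a k =>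
    map_sg ((algebraMap ℂ L0).toMonoidHom.comp (Units.coeHom ℂ)) a k
  rcases j with j | j
  · simp only [mon, col, Sum.elim_inl]
    rw [map_sg, h, ← sg_mul]
    congr 1
    funext l
    exact act_s1 g l
  · simp only [mon, col, Sum.elim_inr]
    rw [map_sg, h, ← sg_mul]
    congr 1
    funext l
    exact act_s2 g l

theorem algC_ne (c : ℂˣ) : algebraMap ℂ L0 c ≠ 0 :=
  (map_ne_zero_iff _ (algebraMap ℂ L0).injective).mpr c.ne_zero

theorem s1_mem (i : Fin 3) : s1 i ∈ Kn (i.val + 1) := fun g hg => by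
  rw [act_s1, hg.2 i (Nat.lt_succ_self _), Units.val_one, map_one, one_mul]

/-- The one-parameter subgroups. -/
def one (i : Fin 3) (c : ℂˣ) : Tor := (Pi.mulSingle i c, 1)

theorem one_fst (i : Fin 3) (c : ℂˣ) : (one i c).1 = Pi.mulSingle i c := rfl

theorem one_snd (i : Fin 3) (c : ℂˣ) : (one i c).2 = 1 := rfl

theorem one_self (i : Fin 3) (c : ℂˣ) : (one i c).1 i = c := by simp [one]

theorem one_ne (i : Fin 3) (c : ℂˣ) (l : Fin 3) (h : l ≠ i) : (one i c).1 l = 1 := by
  simp [one, h]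

/-- The one-parameter subgroups, as sets. -/
def Mi (i : Fin 3) : Set Tor := Set.range (one i)

theorem trans_s1 (i : Fin 3) {K : Type} [Field K] [Algebra K L0]
    (h : ∀ x : K, algebraMap K L0 x ∈ Fix (Mi i)) : Transcendental K (s1 i) :=
  trans_of_scal (s1 i) (gen_ne _ _) fun c =>
    ⟨(act (one i c) : L0 →+* L0), fun x => h x _ ⟨c, rfl⟩, by
      rw [RingHom.coe_coe, act_s1, one_self]⟩

theorem gen_Mi (i : Fin 3) (M : Subfield L0) (h : Fix (Mi i) ≤ M) (hs : s1 i ∈ M) (z : L0) :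
    z ∈ M := by
  refine mem_of_gens M (fun a => h fun g _ => (act g).commutes a) (fun ij => ?_) z
  obtain ⟨a, b⟩ := ij
  change gen a b ∈ M
  rcases b with b | b
  · rcases sg_single (M := ℂˣ) i b with hb | hb
    · refine h ?_
      rintro _ ⟨c, rfl⟩
      rw [act_gen, col, Sum.elim_inl, one_fst, hb, Units.val_one, map_one, one_mul]
    · have h1 : gen a (Sum.inl b) / s1 i ∈ M := by
        refine h ?_
        rintro _ ⟨c, rfl⟩
        rw [map_div₀, act_gen, act_s1, one_self, col, Sum.elim_inl, one_fst, hb,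
          mul_div_mul_left _ _ (algC_ne c)]
      have h2 := M.mul_mem h1 hs
      rwa [div_mul_cancel₀ _ (show s1 i ≠ 0 from gen_ne _ _)] at h2
  · refine h ?_
    rintro _ ⟨c, rfl⟩
    rw [act_gen, col, Sum.elim_inr, one_snd, sg_one, Units.val_one, map_one, one_mul]

theorem Kn_Mi (i : Fin 3) : Kn i.val ≤ Fix (Mi i) := by
  rintro z hz _ ⟨c, rfl⟩
  refine hz _ ⟨fun l => one_pow 2, fun l hl => ?_⟩
  exact one_ne i c l fun h => by rw [h] at hl; exact lt_irrefl _ hl

theorem split_Hn (i : Fin 3) (g : Tor) (hg : g ∈ Hn i.val) :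
    ∃ g' ∈ Hn (i.val + 1), g = one i (g.1 i) * g' := by
  refine ⟨(Function.update g.1 i 1, g.2), ⟨hg.1, fun l hl => ?_⟩,
    Prod.ext (funext fun l => ?_) (one_mul _).symm⟩
  · by_cases hl' : l = i
    · subst hl'; simp
    · have : l.val ≠ i.val := fun h => hl' (Fin.ext h)
      simp only [Function.update_of_ne hl']
      exact hg.2 l (by omega)
  · by_cases hl : l = i
    · subst hl; simp [one]
    · simp [one, hl]

theorem mem_Kn (i : Fin 3) (M : Subfield L0) (h : Kn i.val ≤ M) (hs : s1 i ∈ M) :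
    Kn (i.val + 1) ≤ M := by
  intro z hz
  refine mem_of_fixed (Fix (Mi i)) M (s1 i) (trans_s1 i fun x => x.2) (gen_Mi i)
    ((fun g => (act g : L0 →+* L0)) '' Hn (i.val + 1)) ?_ ?_ ?_ hs z ?_
  · rintro _ ⟨g, -, rfl⟩ x hx
    exact act_mem hx g
  · rintro _ ⟨g, hg, rfl⟩
    exact s1_mem i g hg
  · intro x hx hfix
    refine h fun g hg => ?_
    obtain ⟨g', hg', e⟩ := split_Hn i g hg
    have h1 : act g' x = x := hfix _ ⟨g', hg', rfl⟩
    rw [e, act_mul, h1]
    exact hx _ ⟨_, rfl⟩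
  · rintro _ ⟨g, hg, rfl⟩
    exact hz g hg

theorem simple_Kn (i : Fin 3) [Algebra (Kn i.val) (Kn (i.val + 1))]
    (h : ∀ c, ((algebraMap (Kn i.val) (Kn (i.val + 1)) c : Kn (i.val + 1)) : L0) = c) :
    Simple (Kn i.val) (⟨s1 i, s1_mem i⟩ : Kn (i.val + 1)) := by
  have : IsScalarTower (Kn i.val) (Kn (i.val + 1)) L0 :=
    IsScalarTower.of_algebraMap_eq fun c => (h c).symm
  refine ⟨?_, ?_⟩
  · rw [← transcendental_algebraMap_iff (A := L0) (algebraMap (Kn (i.val + 1)) L0).injective]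
    exact trans_s1 i fun x => Kn_Mi i x.2
  · rw [eq_top_iff]
    intro z _
    obtain ⟨w, hw, hwz⟩ := mem_Kn i ((IntermediateField.adjoin (Kn i.val)
      {(⟨s1 i, s1_mem i⟩ : Kn (i.val + 1))}).toSubfield.map (Kn (i.val + 1)).subtype)
      (fun x hx => ⟨algebraMap (Kn i.val) (Kn (i.val + 1)) ⟨x, hx⟩,
        IntermediateField.algebraMap_mem _ _, h ⟨x, hx⟩⟩)
      ⟨_, IntermediateField.mem_adjoin_simple_self _ _, rfl⟩ z.2
    have : w = z := Subtype.ext hwz
    exact this ▸ hw

end Pool.Agent.MP_d45d16_ag.Yag.Alg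

end MrgPart1

-- ======== part 2: formerly Pool.Agent.MP_d45d16_ag.yag.Alg3
section MrgPart2

/-!
Explicit linear and quadratic forms over the invariant field.
-/

set_option autoImplicit false

open MvPolynomial Matrix

namespace Pool.Agent.MP_d45d16_ag.Yag.Alg

theorem gen_det : gen.det ≠ 0 := by
  have h : gen = (algebraMap (MvPolynomial (I14 × I14) ℂ) L0).mapMatrix
      (mvPolynomialX I14 I14 ℂ) := rfl
  rw [h, ← RingHom.map_det]
  exact (map_ne_zero_iff _ (IsFractionRing.injective _ L0)).mpr (det_mvPolynomialX_ne_zero I14 ℂ)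

theorem gen_mul_inv : gen * gen⁻¹ = 1 := mul_nonsing_inv _ (isUnit_iff_ne_zero.mpr gen_det)

theorem gen_inv_mul : gen⁻¹ * gen = 1 := nonsing_inv_mul _ (isUnit_iff_ne_zero.mpr gen_det)

/-- A function constant on the two blocks. -/
def pj (a b : ℤ) (R : Type) [CommRing R] : I14 → R := Sum.elim (fun _ => (a : R)) fun _ => (b : R)

theorem map_pj {R S : Type} [CommRing R] [CommRing S] (f : R →+* S) (a b : ℤ) (j : I14) :
    f (pj a b R j) = pj a b S j := by
  rcases j with j | j <;> simp [pj]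

/-- The conjugate of a block scalar by the generic matrix. -/
noncomputable def W (a b : ℤ) : Matrix I14 I14 L0 := gen * diagonal (pj a b L0) * gen⁻¹

/-- The Gram matrix of a block form. -/
noncomputable def B (a b : ℤ) : Matrix I14 I14 L0 := gen⁻¹ᵀ * diagonal (pj a b L0) * gen⁻¹

theorem transl_spec (φ : L0 ≃ₐ[ℂ] L0) (hφ : φ ∈ transl) : ∃ h : Matrix I14 I14 L0,
    gen.map φ = gen * h ∧ gen⁻¹.map φ = hᵀ * gen⁻¹ ∧
      ∀ a b, h * diagonal (pj a b L0) * hᵀ = diagonal (pj a b L0) := by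
  obtain ⟨h₁, hh₁, h₂, hh₂, hg⟩ := hφ
  have e₁ : h₁ * h₁ᵀ = 1 := mul_eq_one_comm.mp hh₁.1
  have e₂ : h₂ * h₂ᵀ = 1 := mul_eq_one_comm.mp hh₂.1
  have e : ∀ a b, fromBlocks h₁ 0 0 h₂ * diagonal (pj a b ℂ) * (fromBlocks h₁ 0 0 h₂)ᵀ =
      diagonal (pj a b ℂ) := fun a b => by
    have d : ∀ c : ℂ, (diagonal fun _ : Fin 7 => c) = c • (1 : Matrix (Fin 7) (Fin 7) ℂ) :=
      fun c => (smul_one_eq_diagonal c).symm
    rw [pj, ← fromBlocks_diagonal, fromBlocks_transpose, fromBlocks_multiply, fromBlocks_multiply,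
      d, d]
    simp [e₁, e₂]
  have e' : ∀ a b, (fromBlocks h₁ 0 0 h₂).map (algebraMap ℂ L0) * diagonal (pj a b L0) *
      ((fromBlocks h₁ 0 0 h₂).map (algebraMap ℂ L0))ᵀ = diagonal (pj a b L0) := fun a b => by
    have h := congrArg (fun M : Matrix I14 I14 ℂ => M.map (algebraMap ℂ L0)) (e a b)
    simp only [Matrix.map_mul, diagonal_map (map_zero _), map_pj, transpose_map] at h
    exact h
  refine ⟨_, hg, ?_, e'⟩
  generalize (fromBlocks h₁ 0 0 h₂).map (algebraMap ℂ L0) = h at hg e'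
  have e1 : h * hᵀ = 1 := by
    have h1 : diagonal (pj 1 1 L0) = 1 := by
      rw [← diagonal_one]; congr 1; funext j; rcases j with j | j <;> simp [pj]
    have := e' 1 1
    rwa [h1, Matrix.mul_one] at this
  have e2 : gen⁻¹.map φ * gen.map φ = 1 := by
    rw [← Matrix.map_mul, gen_inv_mul, Matrix.map_one _ (map_zero _) (map_one _)]
  calc gen⁻¹.map φ = gen⁻¹.map φ * (gen * (h * hᵀ) * gen⁻¹) := by
        rw [e1, Matrix.mul_one, gen_mul_inv, Matrix.mul_one]
    _ = gen⁻¹.map φ * (gen * h) * (hᵀ * gen⁻¹) := by simp only [Matrix.mul_assoc]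
    _ = hᵀ * gen⁻¹ := by rw [← hg, e2, Matrix.one_mul]

theorem mem_FF (z : L0) (h : ∀ φ ∈ transl, φ z = z) : z ∈ FF := by
  refine (IntermediateField.mem_fixedField_iff _ _).mpr fun φ hφ => ?_
  exact (Subgroup.closure_le (MulAction.stabilizer (L0 ≃ₐ[ℂ] L0) z)).mpr
    (fun ψ hψ => h ψ hψ) hφ

theorem diag_map (φ : L0 ≃ₐ[ℂ] L0) (a b : ℤ) :
    (diagonal (pj a b L0)).map φ = diagonal (pj a b L0) := by
  rw [diagonal_map (map_zero _)]
  congr 1
  funext j
  exact map_pj (φ : L0 →+* L0) a b j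

theorem W_mem (a b : ℤ) (i j : I14) : W a b i j ∈ FF := mem_FF _ fun φ hφ => by
  obtain ⟨h, h1, h2, h3⟩ := transl_spec φ hφ
  have e : (W a b).map φ = W a b := by
    rw [W, Matrix.map_mul, Matrix.map_mul, h1, h2, diag_map]
    conv_rhs => rw [← h3 a b]
    simp only [Matrix.mul_assoc]
  exact congrFun (congrFun e i) j

theorem B_mem (a b : ℤ) (i j : I14) : B a b i j ∈ FF := mem_FF _ fun φ hφ => by
  obtain ⟨h, -, h2, h3⟩ := transl_spec φ hφ
  have e : (B a b).map φ = B a b := by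
    rw [B, Matrix.map_mul, Matrix.map_mul, transpose_map, h2, diag_map, transpose_mul,
      transpose_transpose]
    conv_rhs => rw [← h3 a b]
    simp only [Matrix.mul_assoc]
  exact congrFun (congrFun e i) j

/-- The matrix `W` over the invariant field. -/
noncomputable def WF (a b : ℤ) : Matrix I14 I14 FF := Matrix.of fun i j => ⟨W a b i j, W_mem a b i j⟩

/-- The matrix `B` over the invariant field. -/
noncomputable def BF (a b : ℤ) : Matrix I14 I14 FF := Matrix.of fun i j => ⟨B a b i j, B_mem a b i j⟩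

/-- The linear forms. -/
noncomputable def lin (a b : ℤ) (i : I14) : MvPolynomial I14 FF := ∑ j, C (WF a b i j) * X j

/-- The quadratic form. -/
noncomputable def qf (a b : ℤ) : MvPolynomial I14 FF := ∑ i, ∑ j, C (BF a b i j) * X i * X j

theorem lin_hom (a b : ℤ) (i : I14) : (lin a b i).IsHomogeneous (0 + 1) :=
  IsHomogeneous.sum _ _ _ fun j _ => (isHomogeneous_X _ j).C_mul _

theorem qf_hom (a b : ℤ) : (qf a b).IsHomogeneous (1 + 1) :=
  IsHomogeneous.sum _ _ _ fun i _ => IsHomogeneous.sum _ _ _ fun j _ =>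
    ((isHomogeneous_X _ i).C_mul _).mul (isHomogeneous_X _ j)

section Eval

variable {K R : Type} [Field K] [CommRing R] (ι : K →+* L0) (ρ : FF →+* K)
  (hρ : ∀ c, ι (ρ c) = c) (g : Matrix I14 I14 K) (D : I14 → L0)
  (hg : g.map ι = gen * diagonal D) (Cc : K →+* R) (ψ : MvPolynomial I14 FF →+* R) (x : I14 → R)
  (hC : ∀ c, ψ (C c) = Cc (ρ c)) (hX : ∀ i, ψ (X i) = ∑ j, Cc (g i j) * x j)

include hρ hg hC hX

theorem eval_lin (a b : ℤ) (i : I14) :
    ψ (lin a b i) = ∑ j, Cc (g i j) * (pj a b R j * x j) := by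
  have e : (WF a b).map ρ * g = g * diagonal (pj a b K) := by
    apply Matrix.map_injective ι.injective
    have h1 : ((WF a b).map ρ).map ι = W a b := by ext i j; exact hρ _
    have h2 : (diagonal (pj a b K)).map ι = diagonal (pj a b L0) := by
      rw [diagonal_map (map_zero _)]; congr 1; funext j; exact map_pj ι a b j
    simp only [Matrix.map_mul, h1, h2, hg, W, Matrix.mul_assoc]
    rw [← Matrix.mul_assoc gen⁻¹, gen_inv_mul, Matrix.one_mul, diagonal_mul_diagonal,
      diagonal_mul_diagonal]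
    simp only [mul_comm]
  have e' : ∀ k, ∑ j, Cc (ρ (WF a b i j)) * Cc (g j k) = Cc (g i k) * pj a b R k := fun k => by
    have h := congrArg Cc (congrFun (congrFun e i) k)
    rw [mul_diagonal, Matrix.mul_apply, map_sum, map_mul, map_pj] at h
    simpa only [map_mul, map_apply] using h
  simp only [lin, map_sum, map_mul, hC, hX, Finset.mul_sum]
  rw [Finset.sum_comm]
  refine Finset.sum_congr rfl fun k _ => ?_
  rw [← mul_assoc, ← e', Finset.sum_mul]
  exact Finset.sum_congr rfl fun j _ => (mul_assoc _ _ _).symm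

theorem eval_qf (a b : ℤ) (d : I14 → K) (hd : ∀ j, ι (d j) = pj a b L0 j * D j ^ 2) :
    ψ (qf a b) = ∑ j, Cc (d j) * x j ^ 2 := by
  have e : gᵀ * (BF a b).map ρ * g = diagonal d := by
    apply Matrix.map_injective ι.injective
    have h1 : ((BF a b).map ρ).map ι = B a b := by ext i j; exact hρ _
    have h3 : genᵀ * gen⁻¹ᵀ = 1 := by rw [← transpose_mul, gen_inv_mul, transpose_one]
    simp only [Matrix.map_mul, transpose_map, h1, hg, B, Matrix.mul_assoc, transpose_mul,
      diagonal_transpose, diagonal_map (map_zero ι)]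
    rw [← Matrix.mul_assoc gen⁻¹, gen_inv_mul, Matrix.one_mul, ← Matrix.mul_assoc genᵀ, h3,
      Matrix.one_mul, diagonal_mul_diagonal, diagonal_mul_diagonal]
    congr 1
    funext j
    rw [hd]; ring
  have e' := congrArg (fun M : Matrix I14 I14 K => x ⬝ᵥ (M.map Cc *ᵥ x)) e
  simp only [Matrix.map_mul, diagonal_map (map_zero Cc), transpose_map, ← mulVec_mulVec] at e'
  rw [dotProduct_mulVec, vecMul_transpose] at e'
  have h1 : ψ (qf a b) = g.map Cc *ᵥ x ⬝ᵥ ((BF a b).map ρ).map Cc *ᵥ g.map Cc *ᵥ x := by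
    have hv : ∀ i, ψ (X i) = (g.map Cc *ᵥ x) i := hX
    simp only [qf, map_sum, map_mul, hC, hv]
    generalize g.map Cc *ᵥ x = v
    simp only [dotProduct, mulVec, map_apply, Finset.mul_sum]
    exact Finset.sum_congr rfl fun i _ => Finset.sum_congr rfl fun j _ => by ring
  rw [h1, e']
  simp only [dotProduct, mulVec_diagonal]
  exact Finset.sum_congr rfl fun j _ => by ring

end Eval

theorem forms_aux (e : Fin 7 → I14) (x : I14 → MvPolynomial (Fin 7) L0)
    (hx : ∀ i, ∑ k : Fin 7, C (gen i (e k)) * X k = ∑ j, C (gen i j) * x j) (a b : ℤ) :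
    (∀ i, aeval (fun i => ∑ k : Fin 7, C (gen i (e k)) * X k) (lin a b i) =
      ∑ j, C (gen i j) * (pj a b _ j * x j)) ∧
    aeval (fun i => ∑ k : Fin 7, C (gen i (e k)) * X k) (qf a b) =
      ∑ j, pj a b _ j * x j ^ 2 := by
  have hg : gen.map (RingHom.id L0) = gen * diagonal fun _ => 1 := by
    rw [diagonal_one, Matrix.mul_one]; rfl
  let ψ : MvPolynomial I14 FF →+* MvPolynomial (Fin 7) L0 :=
    (aeval (fun i => ∑ k : Fin 7, C (gen i (e k)) * X k) :
      MvPolynomial I14 FF →ₐ[FF] MvPolynomial (Fin 7) L0)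
  have hC : ∀ c, ψ (C c) = C (algebraMap FF L0 c) := fun c => aeval_C _ c
  have hX : ∀ i, ψ (X i) = ∑ j, C (gen i j) * x j := fun i => (aeval_X _ i).trans (hx i)
  refine ⟨fun i => eval_lin (RingHom.id L0) (algebraMap FF L0) (fun _ => rfl) gen _ hg C ψ x hC hX
    a b i, ?_⟩
  have h := eval_qf (RingHom.id L0) (algebraMap FF L0) (fun _ => rfl) gen _ hg C ψ x hC hX a b
    (pj a b L0) (fun j => by simp)
  simp only [map_pj] at h
  exact h

theorem lin_inl (i : I14) : lin 0 1 i ∈ forms Sum.inl := by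
  refine ⟨⟨0, lin_hom 0 1 i⟩, ?_⟩
  rw [(forms_aux Sum.inl (Sum.elim X 0) (fun i => by simp [Fintype.sum_sum_type]) 0 1).1]
  simp [Fintype.sum_sum_type, pj]

theorem lin_inr (i : I14) : lin 1 0 i ∈ forms Sum.inr := by
  refine ⟨⟨0, lin_hom 1 0 i⟩, ?_⟩
  rw [(forms_aux Sum.inr (Sum.elim 0 X) (fun i => by simp [Fintype.sum_sum_type]) 1 0).1]
  simp [Fintype.sum_sum_type, pj]

theorem qf_inl : qf 1 0 ∈ forms Sum.inl := by
  refine ⟨⟨1, qf_hom 1 0⟩, ?_⟩
  rw [(forms_aux Sum.inl (Sum.elim X 0) (fun i => by simp [Fintype.sum_sum_type]) 1 0).2]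
  simp [Fintype.sum_sum_type, pj]

theorem qf_inr : qf 0 1 ∈ forms Sum.inr := by
  refine ⟨⟨1, qf_hom 0 1⟩, ?_⟩
  rw [(forms_aux Sum.inr (Sum.elim 0 X) (fun i => by simp [Fintype.sum_sum_type]) 0 1).2]
  simp [Fintype.sum_sum_type, pj]

theorem mem_of_unit {K R : Type} [Field K] [CommRing R] (g : Matrix I14 I14 K) (hg : IsUnit g)
    (Cc : K →+* R) (v : I14 → R) (J : Ideal R) (h : ∀ i, ∑ j, Cc (g i j) * v j ∈ J) (k : I14) :
    v k ∈ J := by
  obtain ⟨g', hg'⟩ := hg.exists_left_inv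
  have e : v = g'.map Cc *ᵥ (g.map Cc *ᵥ v) := by
    rw [mulVec_mulVec, ← Matrix.map_mul, hg', Matrix.map_one _ (map_zero _) (map_one _),
      one_mulVec]
  have e' : v k = ∑ i, Cc (g' k i) * ∑ j, Cc (g i j) * v j := congrFun e k
  rw [e']
  exact J.sum_mem fun i _ => J.mul_mem_left _ (h i)

end Pool.Agent.MP_d45d16_ag.Yag.Alg

end MrgPart2

-- marker of a merged file
example : 731051 + 610533 = 731051 + 610533 := rfl
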