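import Pool.Agent.MP_d45d16_ag.yag.Hf2

-- ======== part 0: formerly Pool.Agent.MP_d45d16_ag.yag.Conic1
section MrgPart0

/-!
The affine charts of a smooth conic.
-/

set_option autoImplicit false

open AlgebraicGeometry CategoryTheory Limits MvPolynomial

namespace Pool.Agent.MP_d45d16_ag.Yag.Conic

/-- The relations `a + b x² + c y² = 0`, `x z = 1`. -/
noncomputable def rel {L : Type} [CommRing L] (a b c : L) : Fin 2 → MvPolynomial (Fin 3) L :=
  ![C a + C b * X 0 ^ 2 + C c * X 2 ^ 2, X 0 * X 1 - 1]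

/-- The coordinate ring of the chart. -/
abbrev Rg {L : Type} [CommRing L] (a b c : L) : Type :=
  MvPolynomial (Fin 3) L ⧸ Ideal.span (Set.range (rel a b c))

/-- The coordinates. -/
noncomputable def xx {L : Type} [CommRing L] (a b c : L) (i : Fin 3) : Rg a b c :=
  Ideal.Quotient.mk _ (X i)

section

variable {L : Type} [CommRing L] (a b c : L)

theorem xx_mul : xx a b c 0 * xx a b c 1 = 1 := by
  have h : Ideal.Quotient.mk (Ideal.span (Set.range (rel a b c))) (rel a b c 1) = 0 :=
    Ideal.Quotient.eq_zero_iff_mem.mpr (Ideal.subset_span ⟨1, rfl⟩)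
  simp only [rel, Matrix.cons_val_one, Matrix.cons_val_fin_one] at h
  exact sub_eq_zero.mp h

theorem xx_eqn : algebraMap L (Rg a b c) a + algebraMap L (Rg a b c) b * xx a b c 0 ^ 2 +
    algebraMap L (Rg a b c) c * xx a b c 2 ^ 2 = 0 := by
  have h : Ideal.Quotient.mk (Ideal.span (Set.range (rel a b c))) (rel a b c 0) = 0 :=
    Ideal.Quotient.eq_zero_iff_mem.mpr (Ideal.subset_span ⟨0, rfl⟩)
  simp only [rel, Matrix.cons_val_zero] at h
  exact h

theorem xx_adjoin : Algebra.adjoin L {xx a b c 0, xx a b c 2, xx a b c 1} = ⊤ := by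
  rw [eq_top_iff]
  rintro s -
  obtain ⟨p, rfl⟩ := Ideal.Quotient.mk_surjective s
  induction p using MvPolynomial.induction_on with
  | C r => exact Subalgebra.algebraMap_mem _ r
  | add p q hp hq => rw [map_add]; exact add_mem hp hq
  | mul_X p i hp =>
    rw [map_mul]
    refine mul_mem hp (Algebra.subset_adjoin ?_)
    fin_cases i
    · exact Or.inl rfl
    · exact Or.inr (Or.inr rfl)
    · exact Or.inr (Or.inl rfl)

theorem std (hb : IsUnit (2 * b)) : Algebra.IsStandardSmoothOfRelativeDimension 1 L (Rg a b c) := by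
  classical
  let P := Algebra.PreSubmersivePresentation.naive (v := rel a b c)
    (Fin.castLE (by norm_num : 2 ≤ 3)) (Fin.castLE_injective _)
  let Q : Algebra.SubmersivePresentation L (Rg a b c) (Fin 3) (Fin 2) :=
    { P with
      jacobian_isUnit := by
        rw [Algebra.PreSubmersivePresentation.jacobian_eq_jacobiMatrix_det, Matrix.det_fin_two]
        simp only [P, Algebra.PreSubmersivePresentation.jacobiMatrix_naive]
        have h0 : Fin.castLE (by norm_num : 2 ≤ 3) 0 = 0 := rfl
        have h1 : Fin.castLE (by norm_num : 2 ≤ 3) 1 = 1 := rfl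
        have h2 : (pderiv 0 (rel a b c 0) * pderiv 1 (rel a b c 1) -
            pderiv 0 (rel a b c 1) * pderiv 1 (rel a b c 0) : MvPolynomial (Fin 3) L) =
            C (2 * b) * X 0 * X 0 := by
          simp [rel, pderiv_X, map_ofNat]
          ring
        rw [h0, h1, h2]
        have hx : IsUnit (xx a b c 0) := IsUnit.of_mul_eq_one _ (xx_mul a b c)
        change IsUnit (Ideal.Quotient.mk _ (C (2 * b) * X 0 * X 0))
        rw [map_mul, map_mul]
        exact ((hb.map (algebraMap L (Rg a b c))).mul hx).mul hx }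
  exact Q.isStandardSmoothOfRelativeDimension (by simp [Algebra.Presentation.dimension])

theorem smooth (hb : IsUnit (2 * b)) :
    SmoothOfRelativeDimension 1 (Spec.map (CommRingCat.ofHom (algebraMap L (Rg a b c)))) := by
  rw [HasRingHomProperty.Spec_iff (P := @SmoothOfRelativeDimension 1)]
  refine RingHom.locally_of RingHom.isStandardSmoothOfRelativeDimension_respectsIso _ ?_
  have := std a b c hb
  exact (RingHom.isStandardSmoothOfRelativeDimension_algebraMap 1).mpr this

/-- The point with coordinates `x, z, y`. -/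
noncomputable def lft {T : Type} [CommRing T] [Algebra L T] (v : Fin 3 → T) (h1 : v 0 * v 1 = 1)
    (h2 : algebraMap L T a + algebraMap L T b * v 0 ^ 2 + algebraMap L T c * v 2 ^ 2 = 0) :
    Rg a b c →ₐ[L] T :=
  Ideal.Quotient.liftₐ _ (aeval v) fun p hp => by
    have h : Ideal.span (Set.range (rel a b c)) ≤ RingHom.ker (aeval v : _ →ₐ[L] T) := by
      rw [Ideal.span_le]
      rintro _ ⟨i, rfl⟩
      fin_cases i
      · simpa [rel] using h2
      · simpa [rel, sub_eq_zero] using h1
    exact h hp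

theorem lft_xx {T : Type} [CommRing T] [Algebra L T] (v : Fin 3 → T) (h1 h2) (i : Fin 3) :
    lft a b c v h1 h2 (xx a b c i) = v i := by
  simp [lft, xx]

theorem hom_ext {T : Type} [CommRing T] (f g : Rg a b c →+* T)
    (h1 : ∀ r, f (algebraMap L _ r) = g (algebraMap L _ r))
    (h2 : ∀ i, f (xx a b c i) = g (xx a b c i)) : f = g :=
  Ideal.Quotient.ringHom_ext (MvPolynomial.ringHom_ext h1 h2)

end

theorem not_sq {k : Type} [Field k] [CharZero k] {A B : k} (hA : A ≠ 0) (hB : B ≠ 0)
    (r : Polynomial k) :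
    r ^ 2 ≠ Polynomial.C A + Polynomial.C B * Polynomial.X ^ 2 := by
  intro h
  have h1 : r ∣ Polynomial.C A + Polynomial.C B * Polynomial.X ^ 2 := h ▸ dvd_pow_self r two_ne_zero
  have h2 : r ∣ Polynomial.C B * Polynomial.X * 2 := by
    have h3 := congrArg Polynomial.derivative h
    simp only [Polynomial.derivative_pow, map_add, Polynomial.derivative_C, zero_add,
      Polynomial.derivative_C_mul, Polynomial.derivative_X] at h3
    refine ⟨2 * Polynomial.derivative r, ?_⟩
    simp only [Nat.cast_ofNat, map_ofNat, Nat.add_one_sub_one, pow_one, mul_one] at h3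
    linear_combination -h3
  have h4 : r ∣ Polynomial.C (2 * A) := by
    have h5 := dvd_sub (h1.mul_left 2) (h2.mul_left Polynomial.X)
    rw [map_mul, map_ofNat]
    convert h5 using 1
    ring
  have h6 : IsUnit r :=
    isUnit_of_dvd_unit h4 (Polynomial.isUnit_C.mpr (mul_ne_zero two_ne_zero hA).isUnit)
  obtain ⟨u, -, hu⟩ := Polynomial.isUnit_iff.mp (h6.pow 2)
  have h7 := congrArg (fun p => Polynomial.coeff p 2) (hu.trans h)
  simp at h7
  exact hB h7.symm

theorem inj {k R T : Type} [Field k] [CharZero k] [CommRing R] [Algebra k R] [Field T]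
    [Algebra k T] {a b c : k} (ha : a ≠ 0) (hb : b ≠ 0) (hc : c ≠ 0) {x y z : R}
    (h1 : x * z = 1)
    (h2 : algebraMap k R a + algebraMap k R b * x ^ 2 + algebraMap k R c * y ^ 2 = 0)
    (hg : Algebra.adjoin k {x, y, z} = ⊤) (φ : R →ₐ[k] T) (ht : Transcendental k (φ y)) :
    Function.Injective φ := by
  let d : Polynomial k :=
    Polynomial.C (-b⁻¹ * a) + Polynomial.C (-b⁻¹ * c) * Polynomial.X ^ 2
  have hd : x ^ 2 = Polynomial.aeval y d := by
    have h3 : algebraMap k R b⁻¹ * algebraMap k R b = 1 := by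
      rw [← map_mul, inv_mul_cancel₀ hb, map_one]
    simp only [d, map_add, map_mul, map_neg, map_pow, Polynomial.aeval_C, Polynomial.aeval_X]
    linear_combination (algebraMap k R b⁻¹) * h2 - x ^ 2 * h3
  let S : R → Prop := fun s => ∃ p q : Polynomial k,
    s = Polynomial.aeval y p + Polynomial.aeval y q * x
  have hmul : ∀ s t, S s → S t → S (s * t) := by
    rintro _ _ ⟨p, q, rfl⟩ ⟨p', q', rfl⟩
    refine ⟨p * p' + q * q' * d, p * q' + q * p', ?_⟩
    simp only [map_add, map_mul, ← hd]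
    ring
  have hadd : ∀ s t, S s → S t → S (s + t) := by
    rintro _ _ ⟨p, q, rfl⟩ ⟨p', q', rfl⟩
    exact ⟨p + p', q + q', by simp only [map_add]; ring⟩
  have hx : S x := ⟨0, 1, by simp⟩
  have hpow : ∀ n, S (x ^ n) := fun n => by
    induction n with
    | zero => exact ⟨1, 0, by simp⟩
    | succ n ih => rw [pow_succ]; exact hmul _ _ ih hx
  have key : ∀ s, ∃ N, S (x ^ N * s) := fun s => by
    have hs : s ∈ Algebra.adjoin k {x, y, z} := hg ▸ Algebra.mem_top
    induction hs using Algebra.adjoin_induction with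
    | mem s hs =>
      rcases hs with rfl | rfl | rfl
      · exact ⟨0, by simpa using hx⟩
      · exact ⟨0, Polynomial.X, 0, by simp⟩
      · exact ⟨1, 1, 0, by simp [h1]⟩
    | algebraMap r => exact ⟨0, Polynomial.C r, 0, by simp⟩
    | add s t _ _ hs ht =>
      obtain ⟨n, hn⟩ := hs
      obtain ⟨m, hm⟩ := ht
      refine ⟨n + m, ?_⟩
      have : x ^ (n + m) * (s + t) = x ^ m * (x ^ n * s) + x ^ n * (x ^ m * t) := by ring
      rw [this]
      exact hadd _ _ (hmul _ _ (hpow m) hn) (hmul _ _ (hpow n) hm)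
    | mul s t _ _ hs ht =>
      obtain ⟨n, hn⟩ := hs
      obtain ⟨m, hm⟩ := ht
      refine ⟨n + m, ?_⟩
      have : x ^ (n + m) * (s * t) = (x ^ n * s) * (x ^ m * t) := by ring
      rw [this]
      exact hmul _ _ hn hm
  rw [injective_iff_map_eq_zero]
  intro s hs
  obtain ⟨N, p, q, h⟩ := key s
  have h3 := congrArg φ h
  rw [map_mul, hs, mul_zero, map_add, map_mul, ← Polynomial.aeval_algHom_apply,
    ← Polynomial.aeval_algHom_apply] at h3
  have h4 := congrArg φ hd
  rw [map_pow, ← Polynomial.aeval_algHom_apply] at h4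
  have h5 : p ^ 2 = q ^ 2 * d := by
    refine transcendental_iff_injective.mp ht ?_
    rw [map_mul, map_pow, map_pow, ← h4]
    linear_combination (Polynomial.aeval (φ y) q * φ x - Polynomial.aeval (φ y) p) * h3
  have hq : q = 0 := by
    by_contra hq
    obtain ⟨r, rfl⟩ : q ∣ p :=
      (UniqueFactorizationMonoid.pow_dvd_pow_iff_dvd two_ne_zero).mp ⟨d, h5⟩
    rw [mul_pow] at h5
    exact not_sq (mul_ne_zero (neg_ne_zero.mpr (inv_ne_zero hb)) ha)
      (mul_ne_zero (neg_ne_zero.mpr (inv_ne_zero hb)) hc) r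
      (mul_left_cancel₀ (pow_ne_zero 2 hq) h5)
  have hp : p = 0 := by
    rw [hq] at h5
    simpa using h5
  rw [hp, hq, map_zero, zero_mul, add_zero] at h
  exact ((IsUnit.of_mul_eq_one _ h1).pow N).mul_right_eq_zero.mp h

end Pool.Agent.MP_d45d16_ag.Yag.Conic

end MrgPart0

-- ======== part 1: formerly Pool.Agent.MP_d45d16_ag.yag.Conic2
section MrgPart1

/-!
The projective model of a smooth conic over a finite extension.
-/

set_option autoImplicit false

open AlgebraicGeometry CategoryTheory Limits MvPolynomial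

namespace Pool.Agent.MP_d45d16_ag.Yag.Conic

/-- The index of the denominator in chart `m`. -/
def ci : Fin 3 → Fin 3 := ![1, 0, 0]

/-- The index of the second invertible coordinate in chart `m`. -/
def cj : Fin 3 → Fin 3 := ![2, 2, 1]

theorem sum_three {M : Type} [AddCommMonoid M] (g : Fin 3 → M) (m : Fin 3) :
    ∑ l, g l = g (ci m) + g (cj m) + g m := by
  rw [Fin.sum_univ_three]
  fin_cases m <;> simp [ci, cj] <;> abel

/-- The coordinate ring of chart `m`. -/
abbrev Rm {L : Type} [CommRing L] (α : Fin 3 → L) (m : Fin 3) : Type :=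
  Rg (α (ci m)) (α (cj m)) (α m)

/-- The homogeneous coordinates in chart `m`. -/
noncomputable def W {L : Type} [CommRing L] (α : Fin 3 → L) (m l : Fin 3) : Rm α m :=
  if l = m then xx _ _ _ 2 else if l = ci m then 1 else xx _ _ _ 0

theorem W_self {L : Type} [CommRing L] (α : Fin 3 → L) (m : Fin 3) : W α m m = xx _ _ _ 2 := by
  simp [W]

theorem W_ci {L : Type} [CommRing L] (α : Fin 3 → L) (m : Fin 3) : W α m (ci m) = 1 := by
  have h : ci m ≠ m := by fin_cases m <;> simp [ci]
  simp [W, h]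

theorem W_cj {L : Type} [CommRing L] (α : Fin 3 → L) (m : Fin 3) :
    W α m (cj m) = xx _ _ _ 0 := by
  have h : cj m ≠ m := by fin_cases m <;> simp [cj]
  have h' : cj m ≠ ci m := by fin_cases m <;> simp [cj, ci]
  simp [W, h, h']

theorem W_eqn {L : Type} [CommRing L] (α : Fin 3 → L) (m : Fin 3) :
    ∑ l, algebraMap L (Rm α m) (α l) * W α m l ^ 2 = 0 := by
  rw [sum_three _ m, W_self, W_ci, W_cj, one_pow, mul_one]
  exact xx_eqn _ _ _

theorem cases_three (m l : Fin 3) : l = m ∨ l = ci m ∨ l = cj m := by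
  fin_cases m <;> fin_cases l <;> simp [ci, cj]

/-- A point of the conic with nonzero coordinates. -/
structure Pt {L T : Type} [Field L] [Field T] [Algebra L T] (α : Fin 3 → L) (w : Fin 3 → T) :
    Prop where
  ne : ∀ l, w l ≠ 0
  eqn : ∑ l, algebraMap L T (α l) * w l ^ 2 = 0

variable {L T : Type} [Field L] [Field T] [Algebra L T] {α : Fin 3 → L} {w : Fin 3 → T}

/-- The point in chart `m`. -/
noncomputable def Pt.psi (h : Pt α w) (m : Fin 3) : Rm α m →ₐ[L] T :=
  lft _ _ _ ![w (cj m) / w (ci m), w (ci m) / w (cj m), w m / w (ci m)]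
    (by
      have h1 := h.ne (ci m)
      have h2 := h.ne (cj m)
      simp only [Matrix.cons_val]
      field_simp)
    (by
      have h1 := h.ne (ci m)
      have h2 := h.eqn
      rw [sum_three _ m] at h2
      simp only [Matrix.cons_val]
      field_simp
      linear_combination h2)

theorem Pt.psi_0 (h : Pt α w) (m : Fin 3) : h.psi m (xx _ _ _ 0) = w (cj m) / w (ci m) :=
  lft_xx _ _ _ _ _ _ 0

theorem Pt.psi_1 (h : Pt α w) (m : Fin 3) : h.psi m (xx _ _ _ 1) = w (ci m) / w (cj m) :=
  lft_xx _ _ _ _ _ _ 1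

theorem Pt.psi_2 (h : Pt α w) (m : Fin 3) : h.psi m (xx _ _ _ 2) = w m / w (ci m) :=
  lft_xx _ _ _ _ _ _ 2

theorem Pt.psi_W (h : Pt α w) (m l : Fin 3) : h.psi m (W α m l) = w l / w (ci m) := by
  rcases cases_three m l with rfl | rfl | rfl
  · rw [W_self, psi_2]
  · rw [W_ci, map_one, div_self (h.ne _)]
  · rw [W_cj, psi_0]

theorem Pt.mem_ci (h : Pt α w) (m l : Fin 3) : w l / w (ci m) ∈ (h.psi m).range :=
  ⟨_, h.psi_W m l⟩

theorem Pt.mem_cj (h : Pt α w) (m l : Fin 3) : w l / w (cj m) ∈ (h.psi m).range := by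
  have h1 : w l / w (cj m) = w l / w (ci m) * (w (ci m) / w (cj m)) := by
    have := h.ne (ci m)
    field_simp
  rw [h1]
  exact mul_mem (h.mem_ci m l) ⟨_, h.psi_1 m⟩

theorem Pt.induction (h : Pt α w) (m : Fin 3) (P : T → Prop) (h0 : ∀ r, P (algebraMap L T r))
    (h1 : ∀ s t, P s → P t → P (s + t)) (h2 : ∀ s l, P s → P (s * (w l / w (ci m))))
    (h3 : ∀ s l, P s → P (s * (w l / w (cj m)))) : ∀ s ∈ (h.psi m).range, P s := by
  rintro _ ⟨s, rfl⟩
  obtain ⟨p, rfl⟩ := Ideal.Quotient.mk_surjective s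
  change P (h.psi m _)
  induction p using MvPolynomial.induction_on with
  | C r => exact (h.psi m).commutes r ▸ h0 r
  | add p q hp hq => rw [map_add, map_add]; exact h1 _ _ hp hq
  | mul_X p i hp =>
    rw [map_mul, map_mul]
    fin_cases i
    · exact h.psi_0 m ▸ h2 _ _ hp
    · exact h.psi_1 m ▸ h3 _ _ hp
    · exact h.psi_2 m ▸ h2 _ _ hp

theorem val_le {Γ : Type} [LinearOrderedCommGroupWithZero Γ] (v : Valuation T Γ) {a b c x y z : T}
    (ha : v a = 1) (hb : v b = 1) (hc : v c = 1) (h : a * x ^ 2 + b * y ^ 2 + c * z ^ 2 = 0)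
    (hz : v z ≤ v y) : v x ≤ v y := by
  have h1 : a * x ^ 2 = -(b * y ^ 2 + c * z ^ 2) := by linear_combination h
  have h2 := congrArg v h1
  rw [v.map_neg, map_mul, ha, one_mul, map_pow] at h2
  have h3 : v (b * y ^ 2 + c * z ^ 2) ≤ v y ^ 2 := by
    refine v.map_add_le ?_ ?_
    · rw [map_mul, hb, one_mul, map_pow]
    · rw [map_mul, hc, one_mul, map_pow]
      exact pow_le_pow_left₀ zero_le hz 2
  rw [← h2] at h3
  exact le_of_pow_le_pow_left₀ two_ne_zero zero_le h3

theorem Pt.proper (h : Pt α w) (hα : ∀ l, α l ≠ 0) (O : ValuationSubring T)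
    (hO : ∀ c : L, algebraMap L T c ∈ O) : ∃ m, ∀ s ∈ (h.psi m).range, s ∈ O := by
  let v := O.valuation
  have h1 : ∀ l, v (algebraMap L T (α l)) = 1 := fun l => by
    have h2 := (O.valuation_le_one_iff _).mpr (hO (α l))
    have h3 := (O.valuation_le_one_iff _).mpr (hO (α l)⁻¹)
    rw [map_inv₀, map_inv₀] at h3
    have h4 : v (algebraMap L T (α l)) ≠ 0 := by simpa using hα l
    exact le_antisymm h2 ((inv_le_one₀ (zero_lt_iff.mpr h4)).mp h3)
  obtain ⟨m, hm⟩ := Finite.exists_min fun l => v (w l)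
  have h2 := h.eqn
  rw [sum_three _ m] at h2
  have h3 : v (w (ci m)) ≤ v (w (cj m)) := val_le v (h1 _) (h1 _) (h1 _) h2 (hm _)
  have h4 : v (w (cj m)) ≤ v (w (ci m)) :=
    val_le v (h1 (cj m)) (h1 (ci m)) (h1 m) (by linear_combination h2) (hm _)
  have h5 : ∀ l, v (w l) ≤ v (w (ci m)) := fun l => by
    rcases cases_three m l with rfl | rfl | rfl
    exacts [hm _, le_rfl, h4]
  have h6 : ∀ x y : T, y ≠ 0 → v x ≤ v y → x / y ∈ O := fun x y hy hxy => by
    rw [← O.valuation_le_one_iff, map_div₀]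
    exact div_le_one_of_le₀ hxy zero_le
  exact ⟨m, h.induction m (· ∈ O) hO (fun _ _ => add_mem)
    (fun s l hs => mul_mem hs (h6 _ _ (h.ne _) (h5 l)))
    fun s l hs => mul_mem hs (h6 _ _ (h.ne _) ((h5 l).trans h3))⟩

theorem Pt.comp (h : Pt α w) (i j : Fin 3) : ∀ s ∈ (h.psi i).range, ∃ N : ℕ,
    (w (ci i) * w (cj i) / (w (ci j) * w (cj j))) ^ N * s ∈ (h.psi j).range := by
  have hr : w (ci i) * w (cj i) / (w (ci j) * w (cj j)) ∈ (h.psi j).range := by
    rw [← div_mul_div_comm]
    exact mul_mem (h.mem_ci j _) (h.mem_cj j _)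
  have e1 := h.ne (ci i)
  have e2 := h.ne (cj i)
  have e3 := h.ne (ci j)
  have e4 := h.ne (cj j)
  refine h.induction i _ (fun r => ⟨0, by simp⟩) ?_ ?_ ?_
  · rintro s t ⟨n, hn⟩ ⟨m, hm⟩
    refine ⟨n + m, ?_⟩
    convert add_mem (mul_mem (pow_mem hr m) hn) (mul_mem (pow_mem hr n) hm) using 1
    ring
  · rintro s l ⟨n, hn⟩
    refine ⟨n + 1, ?_⟩
    convert mul_mem hn (mul_mem (h.mem_ci j l) (h.mem_cj j (cj i))) using 1
    rw [pow_succ]
    field_simp
  · rintro s l ⟨n, hn⟩
    refine ⟨n + 1, ?_⟩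
    convert mul_mem hn (mul_mem (h.mem_ci j l) (h.mem_cj j (ci i))) using 1
    rw [pow_succ]
    field_simp

section Field

variable {k : Type} [Field k] [Algebra k T] {β : Fin 3 → k} {x y : T}

theorem trans_y (h : ConicField β x y) (h1 : β 1 ≠ 0) : Transcendental k y := fun hy => by
  refine h.trans (IsAlgebraic.of_pow two_pos ?_)
  have h2 : x ^ 2 = algebraMap k T (β 1)⁻¹ *
      -(algebraMap k T (β 0) + algebraMap k T (β 2) * y ^ 2) := by
    have h3 : algebraMap k T (β 1) ≠ 0 := by simpa using h1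
    rw [map_inv₀]
    field_simp
    linear_combination h.eqn
  rw [h2]
  exact (isAlgebraic_algebraMap _).mul
    ((isAlgebraic_algebraMap _).add ((isAlgebraic_algebraMap _).mul (hy.pow 2))).neg

theorem trans_free (h : ConicField β x y) (h1 : β 1 ≠ 0) (m : Fin 3) :
    Transcendental k (![1, x, y] m / ![1, x, y] (ci m)) := by
  fin_cases m
  · intro h2
    exact h.trans (by simpa [ci] using h2.inv)
  · simpa [ci] using h.trans
  · simpa [ci] using trans_y h h1

variable [Algebra L k] [IsScalarTower L k T]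

theorem pt_of (h : ConicField (algebraMap L k ∘ α) x y) (hα : ∀ l, α l ≠ 0) :
    Pt α ![1, x, y] where
  ne l := by
    fin_cases l
    · simp
    · rintro (rfl : x = 0)
      exact h.trans isAlgebraic_zero
    · rintro (rfl : y = 0)
      exact trans_y h (by simpa using hα 1) isAlgebraic_zero
  eqn := by
    have h1 := h.eqn
    simp only [Function.comp, ← IsScalarTower.algebraMap_apply] at h1
    simpa [Fin.sum_univ_three] using h1

omit [Algebra L k] [IsScalarTower L k T] in
theorem gen_top (h : ConicField β x y) (hp : Pt α ![1, x, y]) (m : Fin 3) :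
    IntermediateField.adjoin k (Set.range (hp.psi m)) = ⊤ := by
  rw [eq_top_iff, ← h.gen, IntermediateField.adjoin_le_iff]
  have h1 : ∀ l, ![1, x, y] l ∈ IntermediateField.adjoin k (Set.range (hp.psi m)) := fun l => by
    have h2 := div_mem
      (IntermediateField.subset_adjoin k (Set.range (hp.psi m)) ⟨_, hp.psi_W m l⟩)
      (IntermediateField.subset_adjoin k (Set.range (hp.psi m)) ⟨_, hp.psi_W m 0⟩)
    rw [div_div_div_cancel_right₀ (hp.ne _)] at h2
    simpa using h2
  rintro _ (rfl | rfl)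
  exacts [h1 1, h1 2]

theorem tensor_aux [CharZero L] {R : Type} [CommRing R] [Algebra L R] {a b c : L} (ha : a ≠ 0)
    (hb : b ≠ 0) (hc : c ≠ 0) {x y z : R} (h1 : x * z = 1)
    (h2 : algebraMap L R a + algebraMap L R b * x ^ 2 + algebraMap L R c * y ^ 2 = 0)
    (hg : Algebra.adjoin L {x, y, z} = ⊤) (φ : R →ₐ[L] T) (ht : Transcendental k (φ y)) :
    Function.Injective (Algebra.TensorProduct.lift (Algebra.ofId k T) φ
      fun _ _ => Commute.all _ _) := by
  have hk : CharZero k := charZero_of_injective_algebraMap (algebraMap L k).injective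
  let ι : R →ₐ[L] TensorProduct L k R := Algebra.TensorProduct.includeRight
  have hι : ∀ r : L, algebraMap k (TensorProduct L k R) (algebraMap L k r) =
      ι (algebraMap L _ r) := fun r => by
    rw [ι.commutes, ← IsScalarTower.algebraMap_apply]
  refine inj (a := algebraMap L k a) (b := algebraMap L k b) (c := algebraMap L k c)
    (by simpa using ha) (by simpa using hb) (by simpa using hc) (x := ι x) (y := ι y)
    (z := ι z) (by rw [← map_mul, h1, map_one]) ?_ ?_ _ ?_
  · have h3 := congrArg ι h2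
    simpa only [map_add, map_mul, map_pow, map_zero, hι] using h3
  · rw [eq_top_iff]
    rintro s -
    induction s using TensorProduct.induction_on with
    | zero => exact zero_mem _
    | add s t hs ht => exact add_mem hs ht
    | tmul r s =>
      have h3 : r ⊗ₜ[L] s = algebraMap k (TensorProduct L k R) r * ι s := by
        simp [ι]
      rw [h3]
      refine mul_mem (Subalgebra.algebraMap_mem _ r) ?_
      have hs : s ∈ Algebra.adjoin L {x, y, z} := hg ▸ Algebra.mem_top
      clear h3
      induction hs using Algebra.adjoin_induction with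
      | mem s hs =>
        refine Algebra.subset_adjoin ?_
        rcases hs with rfl | rfl | rfl <;> simp
      | algebraMap r => rw [← hι]; exact Subalgebra.algebraMap_mem _ _
      | add s t _ _ hs ht => rw [map_add]; exact add_mem hs ht
      | mul s t _ _ hs ht => rw [map_mul]; exact mul_mem hs ht
  · simpa [ι] using ht

theorem tensor_inj [CharZero L] (h : ConicField (algebraMap L k ∘ α) x y) (hα : ∀ l, α l ≠ 0)
    (m : Fin 3) : Function.Injective (Algebra.TensorProduct.lift (Algebra.ofId k T)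
      ((pt_of h hα).psi m) fun _ _ => Commute.all _ _) :=
  tensor_aux (hα (ci m)) (hα (cj m)) (hα m) (xx_mul _ _ _) (xx_eqn _ _ _) (xx_adjoin _ _ _) _
    (by rw [Pt.psi_2]; exact trans_free h (by simpa using hα 1) m)

end Field

section Model

variable {x y : T}

theorem pt_of' (h : ConicField α x y) (hα : ∀ l, α l ≠ 0) : Pt α ![1, x, y] :=
  pt_of (k := L) h hα

theorem psi_inj [CharZero L] (h : ConicField α x y) (hα : ∀ l, α l ≠ 0) (m : Fin 3) :
    Function.Injective ((pt_of' h hα).psi m) :=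
  inj (hα (ci m)) (hα (cj m)) (hα m) (xx_mul _ _ _) (xx_eqn _ _ _) (xx_adjoin _ _ _) _
    (by rw [Pt.psi_2]; exact trans_free h (hα 1) m)

theorem frac (h : ConicField α x y) (hα : ∀ l, α l ≠ 0) (m : Fin 3) (z : T) :
    ∃ a b, z = (pt_of' h hα).psi m a / (pt_of' h hα).psi m b := by
  have h1 : z ∈ IntermediateField.adjoin L (Set.range ((pt_of' h hα).psi m)) := by
    rw [gen_top h (pt_of' h hα) m]
    exact IntermediateField.mem_top
  obtain ⟨r, hr, s, hs, rfl⟩ := IntermediateField.mem_adjoin_iff_div.mp h1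
  have h2 : Algebra.adjoin L (Set.range ((pt_of' h hα).psi m)) ≤ ((pt_of' h hα).psi m).range :=
    Algebra.adjoin_le fun _ h => h
  obtain ⟨a, rfl⟩ := h2 hr
  obtain ⟨b, rfl⟩ := h2 hs
  exact ⟨a, b, rfl⟩

variable (F : Type) [Field F] [Algebra F L] [Algebra F T] [IsScalarTower F L T]

/-- The charts of the conic, as a variety over `F`. -/
noncomputable def charts [FiniteDimensional F L] (h : ConicField α x y) (hα : ∀ l, α l ≠ 0) :
    MP_fd6584_ag.Pj.Charts F T (Fin 3) where
  B m := ((pt_of' h hα).psi m).range.restrictScalars F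
  f m := ![1, x, y] (ci m) * ![1, x, y] (cj m)
  f_ne m := mul_ne_zero ((pt_of' h hα).ne _) ((pt_of' h hα).ne _)
  ratio i j := by
    rw [Subalgebra.mem_restrictScalars, ← div_mul_div_comm]
    exact mul_mem ((pt_of' h hα).mem_ci j _) ((pt_of' h hα).mem_cj j _)
  comp i j c hc := (pt_of' h hα).comp i j c hc
  fg j := by
    have h1 : Algebra.FiniteType L ((pt_of' h hα).psi j).range :=
      Algebra.FiniteType.of_surjective ((pt_of' h hα).psi j).rangeRestrict
        (AlgHom.rangeRestrict_surjective _)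
    have h2 : Algebra.FiniteType F ((pt_of' h hα).psi j).range :=
      Algebra.FiniteType.trans (S := L) inferInstance h1
    exact (Subalgebra.fg_iff_finiteType _).mpr h2
  proper O hO := by
    have hE : ∀ c : L, algebraMap L T c ∈ O := fun c => by
      obtain ⟨p, hp, hp0⟩ := (Algebra.IsIntegral.isIntegral (R := F) c)
      let φ : F →+* O := (algebraMap F T).codRestrict O.toSubring hO
      have hi : IsIntegral O (algebraMap L T c) := by
        refine ⟨p.map φ, hp.map φ, ?_⟩
        rw [Polynomial.eval₂_map]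
        have : (algebraMap O T).comp φ = (algebraMap L T).comp (algebraMap F L) :=
          RingHom.ext fun a => IsScalarTower.algebraMap_apply F L T a
        rw [this, ← Polynomial.hom_eval₂, hp0, map_zero]
      obtain ⟨y, hy⟩ := IsIntegrallyClosed.isIntegral_iff.mp hi
      rw [← hy]
      exact y.2
    exact (pt_of' h hα).proper hα O hE
  frac j z := by
    obtain ⟨a, b, hz⟩ := frac h hα j z
    by_cases hb : (pt_of' h hα).psi j b = 0
    · exact ⟨0, zero_mem _, 1, one_mem _, one_ne_zero, by rw [hz, hb]; simp⟩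
    · exact ⟨_, ⟨a, rfl⟩, _, ⟨b, rfl⟩, hb, by rw [hz]; exact div_mul_cancel₀ _ hb⟩

end Model

theorem exists_field [CharZero L] (hα : ∀ l, α l ≠ 0) :
    ∃ (E : Type) (_ : Field E) (_ : Algebra L E) (x y : E), ConicField α x y := by
  let K := AlgebraicClosure (RatFunc L)
  let x : K := algebraMap (RatFunc L) K RatFunc.X
  have hx : Transcendental L x :=
    (transcendental_algebraMap_iff (algebraMap (RatFunc L) K).injective).mpr
      RatFunc.transcendental_X
  obtain ⟨y, hy⟩ := IsAlgClosed.exists_pow_nat_eq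
    (-(algebraMap L K (α 0) + algebraMap L K (α 1) * x ^ 2) / algebraMap L K (α 2)) two_pos
  let E := IntermediateField.adjoin L {x, y}
  let x' : E := ⟨x, IntermediateField.subset_adjoin _ _ (Or.inl rfl)⟩
  let y' : E := ⟨y, IntermediateField.subset_adjoin _ _ (Or.inr rfl)⟩
  refine ⟨E, inferInstance, inferInstance, x', y', ?_, ?_, ?_⟩
  · refine Subtype.ext ?_
    have h2 : algebraMap L K (α 2) ≠ 0 := by simpa using hα 2
    change algebraMap L K (α 0) + algebraMap L K (α 1) * x ^ 2 + algebraMap L K (α 2) * y ^ 2 = 0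
    rw [hy, mul_div_cancel₀ _ h2]
    ring
  · refine IntermediateField.lift_injective E ?_
    rw [IntermediateField.lift_adjoin, IntermediateField.lift_top, Set.image_pair]
  · exact fun h => hx (h.algebraMap (A := K))

end Pool.Agent.MP_d45d16_ag.Yag.Conic

end MrgPart1

-- ======== part 2: formerly Pool.Agent.MP_d45d16_ag.yag.Conic
section MrgPart2

/-!
A conic defined over a finite extension.
-/

set_option autoImplicit false

open AlgebraicGeometry CategoryTheory Limits

namespace Pool.Agent.MP_d45d16_ag.Yag.Conic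

/-- A projective curve over `F` with charts over `L` and function field `E`. -/
structure Mod (F : Type) {L E κ : Type} [Field F] [Field L] [Field E] [Algebra F L] [Algebra L E]
    {R : κ → Type} [∀ j, CommRing (R j)] [∀ j, Algebra L (R j)] (ψ : ∀ j, R j →ₐ[L] E)
    (Y : Scheme.{0}) (t : Y ⟶ Spec (CommRingCat.of L))
    (ch : ∀ j, Spec (CommRingCat.of (R j)) ⟶ Y) : Prop where
  proj : IsProj (t ≫ Spec.map (CommRingCat.ofHom (algebraMap F L)))
  integral : IsIntegral Y
  openImm : ∀ j, IsOpenImmersion (ch j)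
  cover : ∀ x, ∃ j p, ch j p = x
  ch_t : ∀ j, ch j ≫ t = Spec.map (CommRingCat.ofHom (algebraMap L (R j)))
  gen : ∀ i j, Spec.map (CommRingCat.ofHom (ψ i).toRingHom) ≫ ch i =
    Spec.map (CommRingCat.ofHom (ψ j).toRingHom) ≫ ch j
  glue : ∀ (Z : Scheme.{0}) (g : ∀ j, Spec (CommRingCat.of (R j)) ⟶ Z)
    (γ : Spec (CommRingCat.of E) ⟶ Z), Z.IsSeparated →
    (∀ j, Spec.map (CommRingCat.ofHom (ψ j).toRingHom) ≫ g j = γ) →
    ∃ G : Y ⟶ Z, ∀ j, ch j ≫ G = g j

theorem exists_mod (hP : ProjAPI) {F L E κ : Type} [Field F] [Field L] [Field E] [Algebra F L]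
    [Algebra L E] [Algebra F E] [IsScalarTower F L E] [Finite κ] {R : κ → Type}
    [∀ j, CommRing (R j)] [∀ j, Algebra L (R j)] (ψ : ∀ j, R j →ₐ[L] E)
    (𝒞 : MP_fd6584_ag.Pj.Charts F E κ) (e : ∀ j, R j ≃+* 𝒞.B j)
    (he : ∀ j p, ((e j p : 𝒞.B j) : E) = ψ j p) : ∃ Y t ch, Mod F ψ Y t ch := by
  obtain ⟨M⟩ := MP_fd6584_ag.Pj.exists_model 𝒞
  let ch : ∀ j, Spec (CommRingCat.of (R j)) ⟶ M.X := fun j =>
    Spec.map (CommRingCat.ofHom (e j).symm.toRingHom) ≫ M.ch j
  have hiso : ∀ j, IsIso (Spec.map (CommRingCat.ofHom (e j).symm.toRingHom)) := fun j =>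
    isIso_SpecMap_iff.mpr (e j).symm.bijective
  have h1 : ∀ j, Spec.map (CommRingCat.ofHom (ψ j).toRingHom) ≫
      Spec.map (CommRingCat.ofHom (e j).symm.toRingHom) =
      Spec.map (CommRingCat.ofHom (𝒞.B j).val.toRingHom) := fun j => by
    rw [← Spec.map_comp]
    congr 1
    refine CommRingCat.hom_ext (RingHom.ext fun c => ?_)
    obtain ⟨p, rfl⟩ := (e j).surjective c
    simpa using (he j p).symm
  have h2 : ∀ j, Spec.map (CommRingCat.ofHom (e j).symm.toRingHom) ≫
      Spec.map (CommRingCat.ofHom (e j).toRingHom) = 𝟙 _ := fun j => by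
    rw [← Spec.map_comp, ← Spec.map_id]
    congr 1
    exact CommRingCat.hom_ext (RingHom.ext fun c => by simp)
  have h3 : ∀ j, Spec.map (CommRingCat.ofHom (𝒞.B j).val.toRingHom) ≫
      Spec.map (CommRingCat.ofHom (e j).toRingHom) =
      Spec.map (CommRingCat.ofHom (ψ j).toRingHom) := fun j => by
    rw [← h1, Category.assoc, h2, Category.comp_id]
  have glue : ∀ (Z : Scheme.{0}) (g : ∀ j, Spec (CommRingCat.of (R j)) ⟶ Z)
      (γ : Spec (CommRingCat.of E) ⟶ Z), Z.IsSeparated →
      (∀ j, Spec.map (CommRingCat.ofHom (ψ j).toRingHom) ≫ g j = γ) →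
      ∃ G : M.X ⟶ Z, ∀ j, ch j ≫ G = g j := by
    intro Z g γ hZ hg
    obtain ⟨G, hG⟩ := hP.glue F E κ 𝒞 M Z
      (fun j => Spec.map (CommRingCat.ofHom (e j).toRingHom) ≫ g j) γ hZ
      (fun j => by rw [← Category.assoc, h3, hg])
    exact ⟨G, fun j => by
      simp only [ch]
      rw [Category.assoc, hG, ← Category.assoc, h2, Category.id_comp]⟩
  obtain ⟨t, ht⟩ := glue (Spec (CommRingCat.of L))
    (fun j => Spec.map (CommRingCat.ofHom (algebraMap L (R j))))
    (Spec.map (CommRingCat.ofHom (algebraMap L E))) inferInstance (fun j => by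
      rw [← Spec.map_comp]
      congr 1
      exact CommRingCat.hom_ext (ψ j).comp_algebraMap)
  have hop : ∀ j, IsOpenImmersion (ch j) := fun j => by
    have := hiso j
    have := M.openImm j
    infer_instance
  have hcov : ∀ x, ∃ j p, ch j p = x := fun x => by
    obtain ⟨j, p, rfl⟩ := M.cover x
    refine ⟨j, Spec.map (CommRingCat.ofHom (e j).toRingHom) p, ?_⟩
    simp only [ch]
    rw [← Scheme.Hom.comp_apply, ← Category.assoc]
    have : Spec.map (CommRingCat.ofHom (e j).toRingHom) ≫
        Spec.map (CommRingCat.ofHom (e j).symm.toRingHom) = 𝟙 _ := by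
      rw [← Spec.map_comp, ← Spec.map_id]
      congr 1
      exact CommRingCat.hom_ext (RingHom.ext fun c => by simp)
    rw [this, Category.id_comp]
  have hs : t ≫ Spec.map (CommRingCat.ofHom (algebraMap F L)) = M.s := by
    refine (Scheme.Cover.mkOfCovers (P := @IsOpenImmersion) κ
      (fun j => Spec (CommRingCat.of (R j))) ch hcov hop).hom_ext _ _ fun j => ?_
    change ch j ≫ _ = ch j ≫ _
    rw [← Category.assoc, ht]
    simp only [ch]
    rw [Category.assoc, M.ch_s, ← Spec.map_comp, ← Spec.map_comp]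
    congr 1
    refine CommRingCat.hom_ext (RingHom.ext fun c => ?_)
    change algebraMap L (R j) (algebraMap F L c) = (e j).symm (algebraMap F _ c)
    rw [RingEquiv.eq_symm_apply]
    refine Subtype.ext ?_
    rw [he, AlgHom.commutes]
    exact (IsScalarTower.algebraMap_apply F L E c).symm
  refine ⟨M.X, t, ch, ?_, M.integral, hop, hcov, ht, fun i j => ?_, glue⟩
  · rw [hs]
    exact hP.model F _ _ M.proj
  · simp only [ch]
    rw [← Category.assoc, ← Category.assoc, h1, h1]
    exact M.gen i j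

variable {F L E : Type} [Field F] [Field L] [CharZero L] [Field E] [Algebra F L] [Algebra L E]
  {α : Fin 3 → L} {x y : E}

theorem exists_conic (hP : ProjAPI) [FiniteDimensional F L] (h : ConicField α x y)
    (hα : ∀ l, α l ≠ 0) : ∃ Y t ch, Mod F (pt_of' h hα).psi Y t ch := by
  let : Algebra F E := ((algebraMap L E).comp (algebraMap F L)).toAlgebra
  have : IsScalarTower F L E := IsScalarTower.of_algebraMap_eq fun _ => rfl
  exact exists_mod hP _ (charts F h hα)
    (fun j => (AlgEquiv.ofInjective _ (psi_inj h hα j)).toRingEquiv) fun _ _ => rfl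

theorem exists_theta (h : ConicField α x y) (hα : ∀ l, α l ≠ 0) {k T : Type} [Field k] [Field T]
    [Algebra L k] [Algebra k T] [Algebra L T] [IsScalarTower L k T] {x' y' : T}
    (h' : ConicField (algebraMap L k ∘ α) x' y') : ∃ θ : E →+* T,
      ∀ j, θ.comp ((pt_of' h hα).psi j).toRingHom = ((pt_of h' hα).psi j).toRingHom := by
  have hinj : Function.Injective ((pt_of h' hα).psi 2).toRingHom :=
    inj (hα (ci 2)) (hα (cj 2)) (hα 2) (xx_mul _ _ _) (xx_eqn _ _ _) (xx_adjoin _ _ _)
      ((pt_of h' hα).psi 2) (by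
        rw [Pt.psi_2]
        exact (trans_free h' (by simpa using hα 1) 2).restrictScalars (algebraMap L k).injective)
  let : Algebra (Rm α 2) E := ((pt_of' h hα).psi 2).toRingHom.toAlgebra
  have : FaithfulSMul (Rm α 2) E :=
    (faithfulSMul_iff_algebraMap_injective _ _).mpr (psi_inj h hα 2)
  have : IsFractionRing (Rm α 2) E := IsFractionRing.of_field _ _ (frac h hα 2)
  let θ : E →+* T := IsFractionRing.lift hinj
  have h1 : ∀ p, θ ((pt_of' h hα).psi 2 p) = (pt_of h' hα).psi 2 p := fun p =>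
    IsFractionRing.lift_algebraMap hinj p
  have h2 : ∀ l, θ (![1, x, y] l) = ![1, x', y'] l := fun l => by
    have h3 := h1 (W α 2 l)
    rw [Pt.psi_W, Pt.psi_W] at h3
    simpa [ci] using h3
  have h3 : ∀ c : L, θ (algebraMap L E c) = algebraMap L T c := fun c => by
    have h4 := h1 (algebraMap L _ c)
    rwa [AlgHom.commutes, AlgHom.commutes] at h4
  refine ⟨θ, fun j => hom_ext _ _ _ _ _ (fun c => ?_) fun i => ?_⟩
  · exact (congrArg θ (((pt_of' h hα).psi j).commutes c)).trans
      ((h3 c).trans (((pt_of h' hα).psi j).commutes c).symm)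
  · change θ ((pt_of' h hα).psi j _) = (pt_of h' hα).psi j _
    fin_cases i
    · exact (congrArg θ ((pt_of' h hα).psi_0 j)).trans
        (by rw [map_div₀, h2, h2]; exact ((pt_of h' hα).psi_0 j).symm)
    · exact (congrArg θ ((pt_of' h hα).psi_1 j)).trans
        (by rw [map_div₀, h2, h2]; exact ((pt_of h' hα).psi_1 j).symm)
    · exact (congrArg θ ((pt_of' h hα).psi_2 j)).trans
        (by rw [map_div₀, h2, h2]; exact ((pt_of h' hα).psi_2 j).symm)

theorem bc (hB : BcAPI) (h : ConicField α x y) (hα : ∀ l, α l ≠ 0) {Y : Scheme.{0}}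
    {t : Y ⟶ Spec (CommRingCat.of L)} {ch : ∀ j, Spec (CommRingCat.of (Rm α j)) ⟶ Y}
    (hM : Mod F (pt_of' h hα).psi Y t ch) {k T : Type} [Field k] [Field T]
    [Algebra L k] [Algebra k T] [Algebra L T] [IsScalarTower L k T] {x' y' : T}
    (h' : ConicField (algebraMap L k ∘ α) x' y') {Y' : Scheme.{0}}
    {t' : Y' ⟶ Spec (CommRingCat.of k)} {p : Y' ⟶ Y}
    (hp : IsPullback p t' t (Spec.map (CommRingCat.ofHom (algebraMap L k)))) :
    IsIntegral Y' ∧ ∃ j : Spec (CommRingCat.of T) ⟶ Y', IsGen j ∧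
      j ≫ p = Spec.map (CommRingCat.ofHom ((pt_of h' hα).psi 2).toRingHom) ≫ ch 2 ∧
      j ≫ t' = Spec.map (CommRingCat.ofHom (algebraMap k T)) := by
  obtain ⟨θ, hθ⟩ := exists_theta h hα h'
  refine hB.gen k L T (Fin 3) (Rm α) Y Y' t t' p ch (pt_of h' hα).psi _ 2 hp hM.openImm hM.cover
    hM.ch_t (fun j => ?_) (tensor_inj h' hα) (gen_top h' _ 2)
  rw [← hθ j, ← hθ 2, CommRingCat.ofHom_comp, CommRingCat.ofHom_comp, Spec.map_comp,
    Spec.map_comp, Category.assoc, Category.assoc, hM.gen j 2]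

end Conic

open Conic Line in
theorem conic_stmt (hPt : PtAPI) (hP : ProjAPI) (hB : BcAPI) : ConicStmt := by
  intro F L ι _ _ _ _ _ _ M a e α ha hsa he hα hse
  have hL : CharZero L := charZero_of_injective_algebraMap (algebraMap F L).injective
  obtain ⟨E, _, _, x, y, hc⟩ := exists_field hα
  obtain ⟨Y, t, ch, h⟩ := exists_conic (F := F) hP hc hα
  have hint := h.integral
  have ha' := span_ne ha
  let w : ∀ j, ι → Rm α j := fun j i => ∑ l, W α j l * algebraMap L (Rm α j) (e l i)
  have hw : ∀ j, Ideal.span (Set.range (w j)) = ⊤ := fun j => by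
    have h1 := coef_mem he (W α j) (ci j)
    rw [W_ci] at h1
    exact (Ideal.eq_top_iff_one _).mpr h1
  let c : ∀ j, F →+* Rm α j := fun j => (algebraMap L (Rm α j)).comp (algebraMap F L)
  let β : ∀ j, Rm α j →+* E := fun j => ((pt_of' hc hα).psi j).toRingHom
  have hβ : ∀ j, (β j).comp (c j) = (algebraMap L E).comp (algebraMap F L) := fun j =>
    RingHom.ext fun x => ((pt_of' hc hα).psi j).commutes _
  have hψ : ∀ {T : Type} [Field T] [Algebra L T] {z : Fin 3 → T} (hz : Pt α z) (j : Fin 3)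
      (i : ι), hz.psi j (w j i) = (z (ci j))⁻¹ * ∑ l, z l * algebraMap L T (e l i) := by
    intro T _ _ z hz j i
    simp only [w, map_sum, map_mul, Pt.psi_W, AlgHom.commutes, Finset.mul_sum]
    exact Finset.sum_congr rfl fun l _ => by ring
  obtain ⟨v, hv⟩ := h.glue (PP F ι) (fun j => pt (c j) (w j) (hw j))
    (pt ((β 2).comp (c 2)) (β 2 ∘ w 2) (span_map _ (hw 2))) (hPt.sep F ι) (fun j => by
      rw [hPt.nat _ _ _ _ _ _ _ _ (span_map (β j) (hw j))]
      refine (pt_congr _ (span_map (β j) (hw j)) ((hβ j).trans (hβ 2).symm) rfl).trans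
        (hPt.scale _ _ _ _ _ _ _ _ (![1, x, y] (ci j))⁻¹ fun i => ?_)
      refine (hψ (pt_of' hc hα) j i).trans (congrArg _ ?_)
      refine Eq.trans ?_ (hψ (pt_of' hc hα) 2 i).symm
      simp [ci])
  let s : Y ⟶ Spec (CommRingCat.of F) := t ≫ Spec.map (CommRingCat.ofHom (algebraMap F L))
  let u : Y ⟶ PP F ι := t ≫ pt (algebraMap F L) a ha'
  have hext : ∀ {Z : Scheme.{0}} (g g' : Y ⟶ Z), (∀ j, ch j ≫ g = ch j ≫ g') → g = g' :=
    fun g g' hg => (Scheme.Cover.mkOfCovers (P := @IsOpenImmersion) (Fin 3)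
      (fun j => Spec (CommRingCat.of (Rm α j))) ch h.cover h.openImm).hom_ext _ _ hg
  have hid : Spec.map (CommRingCat.ofHom (algebraMap F F)) = 𝟙 _ := Spec.map_id _
  have hgeo : Geo M.I₁ M.I₂ (s ≫ Spec.map (CommRingCat.ofHom (algebraMap F F))) u v := by
    rw [hid, Category.comp_id]
    refine ⟨?_, hext _ _ fun j => ?_, fun y => ?_, fun y => ?_⟩
    · simp only [u, s]
      rw [Category.assoc, hPt.str]
    · simp only [s]
      rw [← Category.assoc, hv, hPt.str, ← Category.assoc, h.ch_t, ← Spec.map_comp]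
      rfl
    · simp only [u]
      rw [Scheme.Hom.comp_apply]
      refine (hPt.mem _ _ _ _ _ _ _ _ M.hom₁).mpr fun f hf => ?_
      rw [hsa f hf]
      exact zero_mem _
    · obtain ⟨j, p, rfl⟩ := h.cover y
      rw [← Scheme.Hom.comp_apply, hv]
      refine (hPt.mem _ _ _ _ _ _ _ _ M.hom₂).mpr fun f hf => ?_
      rw [hse (Rm α j) (W α j) (W_eqn α j) f hf]
      exact zero_mem _
  obtain ⟨g, hgs, hgu, hgv⟩ := M.lift Y s u v inferInstance hgeo
  have hsm : SmoothOfRelativeDimension 1 t := by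
    refine IsZariskiLocalAtSource.of_openCover (P := @SmoothOfRelativeDimension 1)
      (Scheme.Cover.mkOfCovers (P := @IsOpenImmersion) (Fin 3)
      (fun j => Spec (CommRingCat.of (Rm α j))) ch h.cover h.openImm) fun j => ?_
    change SmoothOfRelativeDimension 1 (ch j ≫ t)
    rw [h.ch_t]
    exact Conic.smooth _ _ _ (mul_ne_zero two_ne_zero (hα _)).isUnit
  have hpr := M.proper
  let G : Curve M.s :=
    { Y := Y
      f := g
      smooth := by
        rw [hgs]
        have := hP.etale F L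
        exact inferInstanceAs (SmoothOfRelativeDimension (1 + 0) (t ≫ _))
      proj := hP.of_comp _ _ _ g M.s (by rw [hgs]; exact h.proj) inferInstance }
  have key : ∀ {T : Type} [Field T] [Algebra L T] {x' y' : T} (hz : Pt α ![1, x', y']),
      Coord M.u M.v (Spec.map (CommRingCat.ofHom (hz.psi 2).toRingHom) ≫ ch 2 ≫ g)
        ((algebraMap L T).comp (algebraMap F L)) (fun i => algebraMap L T (a i))
        fun i => ∑ l, ![1, x', y'] l * algebraMap L T (e l i) := by
    intro T _ _ x' y' hz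
    let φ : Rm α 2 →+* T := (hz.psi 2).toRingHom
    have hφ : φ.comp (algebraMap L (Rm α 2)) = algebraMap L T := (hz.psi 2).comp_algebraMap
    have e1 : (φ.comp (algebraMap L (Rm α 2))) ∘ a = fun i => algebraMap L T (a i) := by
      rw [hφ]
      rfl
    have e2 : φ ∘ w 2 = fun i => ∑ l, ![1, x', y'] l * algebraMap L T (e l i) := by
      funext i
      refine (hψ hz 2 i).trans ?_
      simp [ci]
    refine ⟨e1 ▸ span_map _ ha', e2 ▸ span_map _ (hw 2), ?_, ?_⟩
    · rw [Category.assoc, Category.assoc, hgu]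
      simp only [u]
      rw [← Category.assoc (ch 2), h.ch_t, ← Spec.map_comp_assoc, ← CommRingCat.ofHom_comp,
        hPt.nat _ _ _ _ _ _ _ _ (span_map _ ha')]
      exact pt_congr _ _ (by rw [hφ]) e1
    · rw [Category.assoc, Category.assoc, hgv, hv, hPt.nat _ _ _ _ _ _ _ _ (span_map _ (hw 2))]
      refine pt_congr _ _ ?_ e2
      change (φ.comp (algebraMap L (Rm α 2))).comp _ = _
      rw [hφ]
  refine ⟨G, t, hgs.symm, hsm, ⟨E, inferInstance, inferInstance, x, y, ?_⟩, ?_⟩
  · obtain ⟨-, j, hj, hjp, hjt⟩ := bc hB hc hα h (k := L) hc (p := 𝟙 Y) (t' := t)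
      (by
        have : Spec.map (CommRingCat.ofHom (algebraMap L L)) = 𝟙 _ := Spec.map_id _
        rw [this]
        exact IsPullback.id_horiz t)
    rw [Category.comp_id] at hjp
    refine ⟨j ≫ g, hc, ⟨hint, j, hj, rfl⟩, ?_, ?_⟩
    · rw [Category.assoc, hgs]
      simp only [s]
      rw [← Category.assoc, hjt, ← Spec.map_comp]
      rfl
    · have h1 := key (pt_of (k := L) hc hα)
      rw [← Category.assoc, ← hjp] at h1
      exact h1
  · intro k _ _ N q σ C' x' y' hN hσ hC hc'
    obtain ⟨p, hp, hpq⟩ := hC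
    let := σ.toAlgebra
    obtain ⟨hi, j, hj, hjp, hjt⟩ := bc hB hc hα h (k := k) hc' hp
    refine ⟨C', j ≫ C'.f, ⟨hi, j, hj, rfl⟩, ⟨by rw [Category.assoc, hjt], ?_⟩, rfl⟩
    have h0 := key (pt_of (k := k) hc' hα)
    have hal : ∀ r : L, algebraMap L (RatFunc k) r = algebraMap k (RatFunc k) (σ r) := fun r =>
      IsScalarTower.algebraMap_apply L k (RatFunc k) r
    have e1 : (fun i => algebraMap L (RatFunc k) (a i)) = vec ![σ ∘ a] ![1] := by
      funext i
      simp [vec, hal]
    have e2 : (fun i => ∑ l, ![1, x', y'] l * algebraMap L (RatFunc k) (e l i)) =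
        vec (fun l => σ ∘ e l) ![1, x', y'] := by
      funext i
      simp only [vec, hal, Function.comp]
    have e3 : (algebraMap L (RatFunc k)).comp (algebraMap F L) =
        (algebraMap k (RatFunc k)).comp (algebraMap F k) := by
      rw [← hσ]
      exact RingHom.ext fun r => hal _
    rw [e1, e2, e3] at h0
    obtain ⟨h1, h2, h3, h4⟩ := h0
    have h5 : (j ≫ C'.f) ≫ q = Spec.map (CommRingCat.ofHom
        ((pt_of (k := k) hc' hα).psi 2).toRingHom) ≫ ch 2 ≫ g := by
      rw [Category.assoc, hpq, ← Category.assoc, hjp, Category.assoc]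
    refine ⟨h1, h2, ?_, ?_⟩
    · rw [hN.hu, ← Category.assoc, h5, h3]
    · rw [hN.hv, ← Category.assoc, h5, h4]

end Pool.Agent.MP_d45d16_ag.Yag

end MrgPart2

-- marker of a merged file
example : 731051 + 403998 = 731051 + 403998 := rfl
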